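import Mathlib

-- part Pool.Agent.P.MP_d5a1e1_nt.Conic
section

/-! Three parabolas over a prime field whose pairwise sums cover the plane. -/

namespace Pool.Agent.P.MP_d5a1e1_nt.Thin

open Finset

lemma exists_nonsq (p : ℕ) [hp : Fact p.Prime] (h7 : 7 < p) :
    ∃ z : ZMod p, ¬ IsSquare z ∧ z + 1 ≠ 0 ∧ z + 3 ≠ 0 ∧ 3 * z + 1 ≠ 0 := by
  have h2 : ringChar (ZMod p) ≠ 2 := by rw [ZMod.ringChar_zmod_n]; omega
  obtain ⟨ν, hν⟩ := FiniteField.exists_nonsquare h2
  have hν0 : ν ≠ 0 := by rintro rfl; exact hν ⟨0, by simp⟩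
  have small : ∀ m : ℕ, 0 < m → m ≤ 7 → (m : ZMod p) ≠ 0 := by
    intro m h0 h1 h
    rw [ZMod.natCast_eq_zero_iff] at h
    have := Nat.le_of_dvd h0 h
    omega
  have n2 : (2 : ZMod p) ≠ 0 := by exact_mod_cast small 2 (by norm_num) (by norm_num)
  have n3 : (3 : ZMod p) ≠ 0 := by exact_mod_cast small 3 (by norm_num) (by norm_num)
  have n5 : (5 : ZMod p) ≠ 0 := by exact_mod_cast small 5 (by norm_num) (by norm_num)
  have n7 : (7 : ZMod p) ≠ 0 := by exact_mod_cast small 7 (by norm_num) (by norm_num)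
  have hsq : ∀ c : ZMod p, c ≠ 0 → ¬ IsSquare (c ^ 2 * ν) := by
    rintro c hc ⟨r, hr⟩
    exact hν ⟨r / c, by field_simp; linear_combination hr⟩
  by_contra hcon
  push Not at hcon
  have key : ∀ c : ZMod p, c ≠ 0 →
      c ^ 2 * ν = -1 ∨ c ^ 2 * ν = -3 ∨ 3 * (c ^ 2 * ν) = -1 := by
    intro c hc
    by_cases a1 : c ^ 2 * ν + 1 = 0
    · left; linear_combination a1
    by_cases a2 : c ^ 2 * ν + 3 = 0
    · right; left; linear_combination a2
    · right; right; linear_combination hcon _ (hsq c hc) a1 a2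
  have n4 : (4 : ZMod p) ≠ 0 := by
    have : (4 : ZMod p) = 2 * 2 := by norm_num
    rw [this]; exact mul_ne_zero n2 n2
  have d : ∀ c : ZMod p, c ≠ 0 → c * ν ≠ 0 := fun c hc => mul_ne_zero hc hν0
  have d3 := d 3 n3
  have d5 := d 5 n5
  have d7 := d 7 n7
  have d8 := d (2 * 4) (mul_ne_zero n2 n4)
  have d12 := d (3 * 4) (mul_ne_zero n3 n4)
  have d15 := d (3 * 5) (mul_ne_zero n3 n5)
  have e3 := mul_ne_zero n3 d3
  have e5 := mul_ne_zero n3 d5
  have e7 := mul_ne_zero n3 d7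
  have e8 := mul_ne_zero n3 d8
  have e12 := mul_ne_zero n3 d12
  have e15 := mul_ne_zero n3 d15
  rcases key 1 one_ne_zero with a | a | a <;> rcases key 2 n2 with b | b | b <;>
    rcases key 3 n3 with c | c | c <;> rcases key 4 n4 with e | e | e <;>
    first
      | exact d3 (by linear_combination b - a)
      | exact d8 (by linear_combination c - a)
      | exact d15 (by linear_combination e - a)
      | exact d5 (by linear_combination c - b)
      | exact d12 (by linear_combination e - b)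
      | exact d7 (by linear_combination e - c)
      | exact e3 (by linear_combination b - a)
      | exact e8 (by linear_combination c - a)
      | exact e15 (by linear_combination e - a)
      | exact e5 (by linear_combination c - b)
      | exact e12 (by linear_combination e - b)
      | exact e7 (by linear_combination e - c)

/-- the three coefficients -/
def Good {p : ℕ} (k : Fin 3 → ZMod p) : Prop :=
  (∀ a b, k a + k b ≠ 0) ∧
    ∀ u v : ZMod p, ∃ a b : Fin 3, ∃ x y : ZMod p, x + y = u ∧ k a * x ^ 2 + k b * y ^ 2 = v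

lemma exists_good_coeff (p : ℕ) (hp : p.Prime) (h7 : 7 < p) :
    ∃ k : Fin 3 → ZMod p, Good k := by
  haveI := Fact.mk hp
  obtain ⟨z, hz, h1, h3, h4⟩ := exists_nonsq p h7
  have hz0 : z ≠ 0 := by rintro rfl; exact hz ⟨0, by simp⟩
  have n2 : (2 : ZMod p) ≠ 0 := by
    intro h
    have : ((2 : ℕ) : ZMod p) = 0 := by exact_mod_cast h
    rw [ZMod.natCast_eq_zero_iff] at this
    have := Nat.le_of_dvd (by norm_num) this
    omega
  refine ⟨![z + 1, z * (z + 1), 2 * z], ?_, ?_⟩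
  · intro a b
    have e00 : (z + 1) + (z + 1) ≠ 0 := by
      have := mul_ne_zero n2 h1; intro h; exact this (by linear_combination h)
    have e01 : (z + 1) + z * (z + 1) ≠ 0 := by
      have := mul_ne_zero h1 h1; intro h; exact this (by linear_combination h)
    have e02 : (z + 1) + 2 * z ≠ 0 := by intro h; exact h4 (by linear_combination h)
    have e11 : z * (z + 1) + z * (z + 1) ≠ 0 := by
      have := mul_ne_zero n2 (mul_ne_zero hz0 h1); intro h; exact this (by linear_combination h)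
    have e12 : z * (z + 1) + 2 * z ≠ 0 := by
      have := mul_ne_zero hz0 h3; intro h; exact this (by linear_combination h)
    have e22 : 2 * z + 2 * z ≠ 0 := by
      have := mul_ne_zero n2 (mul_ne_zero n2 hz0); intro h; exact this (by linear_combination h)
    fin_cases a <;> fin_cases b <;> simp only [Fin.zero_eta, Fin.mk_one, Fin.reduceFinMk,
      Matrix.cons_val_zero, Matrix.cons_val_one, Matrix.cons_val] <;>
      first
        | assumption
        | (rw [add_comm]; assumption)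
  · intro u v
    by_cases hw : IsSquare (v - z * u ^ 2)
    · obtain ⟨r, hr⟩ := hw
      refine ⟨0, 1, (z * u + r) / (z + 1), (u - r) / (z + 1), ?_, ?_⟩
      · field_simp; ring
      · simp only [Matrix.cons_val_zero, Matrix.cons_val_one]
        field_simp
        linear_combination (-(z + 1)) * hr
    · have hw0 : v - z * u ^ 2 ≠ 0 := by intro h; rw [h] at hw; exact hw ⟨0, by simp⟩
      have q1 := (quadraticChar_neg_one_iff_not_isSquare (F := ZMod p)).2 hz
      have q2 := (quadraticChar_neg_one_iff_not_isSquare (F := ZMod p)).2 hw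
      have q3 : quadraticChar (ZMod p) (z * (v - z * u ^ 2)) = 1 := by
        rw [map_mul, q1, q2]; norm_num
      obtain ⟨r, hr⟩ := (quadraticChar_one_iff_isSquare (mul_ne_zero hz0 hw0)).1 q3
      refine ⟨2, 2, (z * u + r) / (2 * z), (z * u - r) / (2 * z), ?_, ?_⟩
      · field_simp; ring
      · simp only [Matrix.cons_val]
        field_simp
        linear_combination (-2) * hr

/-- a quadratic equation over a prime field has at most two solutions -/
lemma quad_card_le {p : ℕ} [Fact p.Prime] (α β γ : ZMod p) (hα : α ≠ 0) :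
    (univ.filter (fun x : ZMod p => α * x ^ 2 + β * x + γ = 0)).card ≤ 2 := by
  by_contra h
  push Not at h
  obtain ⟨x, hx, y, hy, w, hw, hxy, hxw, hyw⟩ := two_lt_card.1 h
  simp only [mem_filter, mem_univ, true_and] at hx hy hw
  have h1 : α * (x + y) + β = 0 := by
    have : (x - y) * (α * (x + y) + β) = 0 := by linear_combination hx - hy
    exact (mul_eq_zero.1 this).resolve_left (sub_ne_zero.2 hxy)
  have h2 : α * (x + w) + β = 0 := by
    have : (x - w) * (α * (x + w) + β) = 0 := by linear_combination hx - hw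
    exact (mul_eq_zero.1 this).resolve_left (sub_ne_zero.2 hxw)
  have h3 : α * (y - w) = 0 := by linear_combination h1 - h2
  exact hyw (sub_eq_zero.1 ((mul_eq_zero.1 h3).resolve_left hα))

end Pool.Agent.P.MP_d5a1e1_nt.Thin
end

-- part Pool.Agent.P.MP_d5a1e1_nt.Scale
section

/-! One block of the construction: two levels of parabolas written in mixed radix. -/

namespace Pool.Agent.P.MP_d5a1e1_nt.Thin

open Finset

structure Par where
  p : ℕ
  q : ℕ
  D : ℕ
  hp : p.Prime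
  hq : q.Prime
  k : Fin 3 → ZMod p
  k' : Fin 3 → ZMod q
  hk : Good k
  hk' : Good k'
  hD : p * q ≤ D
  hD2 : D ≤ 2 * (p * q)

instance (S : Par) : Fact S.p.Prime := ⟨S.hp⟩
instance (S : Par) : Fact S.q.Prime := ⟨S.hq⟩

/-- number of translates of a block -/
@[irreducible] def Kc : ℕ := 65536

lemma Kc_eq : Kc = 65536 := by unfold Kc; rfl

/-- layers -/
abbrev Lay : Type := Fin 3 × Fin 3 × Fin Kc × Fin 3 × Fin 3 × Fin 3

lemma card_lay : Fintype.card Lay ≤ 2 ^ 24 := by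
  simp only [Lay, Fintype.card_prod, Fintype.card_fin]; rw [Kc_eq]; norm_num

lemma digits (n m : ℕ) (hm : 0 < m) : ∃ d r, r < m ∧ n = d * m + r :=
  ⟨n / m, n % m, Nat.mod_lt _ hm, by rw [mul_comm]; exact (Nat.div_add_mod n m).symm⟩

namespace Par

variable (S : Par)

def sh (l : Lay) : ℕ :=
  (l.2.2.1.val + 1) * (S.p * S.q * S.D) + l.2.2.2.1.val * (S.q * S.D) +
    l.2.2.2.2.1.val * (S.p * S.q) + l.2.2.2.2.2.val * S.q

def up (a : Fin 3) (X : ZMod S.p) : ZMod S.p := S.k a * X ^ 2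

def low (b : Fin 3) (o : ZMod S.q × ZMod S.q) (x : ZMod S.q) : ZMod S.q :=
  S.k' b * (x - o.1) ^ 2 + o.2

def base (l : Lay) (X : ZMod S.p) : ℕ :=
  S.sh l + X.val * S.q * S.D + (S.up l.1 X).val * S.q

def el (ω : ZMod S.p → ZMod S.q × ZMod S.q) (l : Lay) (X : ZMod S.p) (x : ZMod S.q) : ℕ :=
  S.base l X + x.val * S.D + (S.low l.2.1 (ω X) x).val

def B (ω : ZMod S.p → ZMod S.q × ZMod S.q) : Finset ℕ :=
  univ.image (fun t : Lay × ZMod S.p × ZMod S.q => S.el ω t.1 t.2.1 t.2.2)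

lemma mem_B {ω : ZMod S.p → ZMod S.q × ZMod S.q} {a : ℕ} :
    a ∈ S.B ω ↔ ∃ l X x, S.el ω l X x = a := by
  simp [B]

lemma p_pos : 0 < S.p := S.hp.pos
lemma q_pos : 0 < S.q := S.hq.pos
lemma two_q_le : 2 * S.q ≤ S.D := (Nat.mul_le_mul_right _ S.hp.two_le).trans S.hD
lemma D_pos : 0 < S.D := by have := S.two_q_le; have := S.q_pos; omega

lemma rem_lt (Y : ZMod S.p) (y : ZMod S.q) : Y.val * S.q + y.val < S.p * S.q := by
  have h1 := ZMod.val_lt Y
  have h2 := ZMod.val_lt y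
  have : (Y.val + 1) * S.q ≤ S.p * S.q := Nat.mul_le_mul_right _ h1
  rw [add_one_mul] at this
  omega

lemma el_eq (ω : ZMod S.p → ZMod S.q × ZMod S.q) (l : Lay) (X : ZMod S.p) (x : ZMod S.q) :
    S.el ω l X x = S.sh l + ((X.val * S.q + x.val) * S.D +
      ((S.up l.1 X).val * S.q + (S.low l.2.1 (ω X) x).val)) := by
  unfold el base; ring

lemma B_bounds {ω : ZMod S.p → ZMod S.q × ZMod S.q} {a : ℕ} (ha : a ∈ S.B ω) :
    S.p * S.q * S.D ≤ a ∧ a < 2 ^ 17 * (S.p * S.q * S.D) := by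
  obtain ⟨⟨a1, b1, g, e1, e2, e3⟩, X, x, rfl⟩ := S.mem_B.1 ha
  rw [el_eq]
  have h1 := S.rem_lt X x
  have h2 := S.rem_lt (S.up a1 X) (S.low b1 (ω X) x)
  have hg : g.val < 65536 := Kc_eq ▸ g.2
  have he1 := e1.2
  have he2 := e2.2
  have he3 := e3.2
  have hp := S.p_pos
  have hq := S.q_pos
  have hD := S.D_pos
  have hD' := S.hD
  set z := X.val * S.q + x.val
  set r := (S.up a1 X).val * S.q + (S.low b1 (ω X) x).val
  simp only [sh]
  set N := S.p * S.q * S.D with hN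
  have a1 : S.q * S.D ≤ N := by rw [hN, mul_assoc]; exact Nat.le_mul_of_pos_left _ hp
  have a2 : S.p * S.q ≤ N := by rw [hN]; exact Nat.le_mul_of_pos_right _ hD
  have a3 : S.q ≤ N := (Nat.le_mul_of_pos_left _ hp).trans a2
  have a4 : (z + 1) * S.D ≤ N := Nat.mul_le_mul_right _ h1
  have b1 : (g.val + 1) * N ≤ 65536 * N := Nat.mul_le_mul_right _ hg
  have b2 : e1.val * (S.q * S.D) ≤ 2 * N := Nat.mul_le_mul (by omega) a1
  have b3 : e2.val * (S.p * S.q) ≤ 2 * N := Nat.mul_le_mul (by omega) a2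
  have b4 : e3.val * S.q ≤ 2 * N := Nat.mul_le_mul (by omega) a3
  have b5 : N ≤ (g.val + 1) * N := Nat.le_mul_of_pos_left _ (by omega)
  rw [add_one_mul] at a4
  constructor
  · omega
  · omega

end Par

lemma carry_cover {m : ℕ} [NeZero m] (x y : ZMod m) (T : ℕ) (h1 : m ≤ T) (h2 : T < 3 * m)
    (h : x + y = (T : ZMod m)) : ∃ e : Fin 3, T = x.val + y.val + e.val * m := by
  have hx := ZMod.val_lt x
  have hy := ZMod.val_lt y
  have h3 : (x.val + y.val) % m = T % m := by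
    rw [← ZMod.val_add, h, ZMod.val_natCast]
  have h4 := Nat.div_add_mod (x.val + y.val) m
  have h5 := Nat.div_add_mod T m
  have hm : 0 < m := Nat.pos_of_ne_zero (NeZero.ne m)
  have h6 : (x.val + y.val) / m < 2 := Nat.div_lt_of_lt_mul (by omega)
  have h7 : T / m < 3 := Nat.div_lt_of_lt_mul (by omega)
  have h8 : 1 ≤ T / m := (Nat.le_div_iff_mul_le hm).2 (by omega)
  generalize T / m = A at *
  generalize (x.val + y.val) / m = C at *
  obtain ⟨d, hd⟩ : ∃ d, A = C + d := ⟨A - C, by omega⟩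
  refine ⟨⟨d, by omega⟩, ?_⟩
  simp only
  rw [hd, mul_add, mul_comm m d] at h5
  omega

namespace Par

variable (S : Par)

theorem cover (ω : ZMod S.p → ZMod S.q × ZMod S.q) (n : ℕ) (h1 : 6 * (S.p * S.q * S.D) ≤ n)
    (h2 : n < 65536 * (S.p * S.q * S.D)) : ∃ a ∈ S.B ω, ∃ b ∈ S.B ω, a + b = n := by
  have hp := S.p_pos
  have hq := S.q_pos
  have hD := S.D_pos
  have hD2 := S.hD2
  set N := S.p * S.q * S.D with hN
  have a1 : S.q * S.D ≤ N := by rw [hN, mul_assoc]; exact Nat.le_mul_of_pos_left _ hp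
  have a2 : S.p * S.q ≤ N := by rw [hN]; exact Nat.le_mul_of_pos_right _ hD
  have a3 : S.q ≤ N := (Nat.le_mul_of_pos_left _ hp).trans a2
  have hN0 : 0 < N := by omega
  obtain ⟨n', hn'⟩ : ∃ n', n = n' + (N + S.q * S.D + S.p * S.q + S.q) :=
    ⟨n - (N + S.q * S.D + S.p * S.q + S.q), by omega⟩
  obtain ⟨U, V, l1, e1⟩ := digits n' S.D hD
  obtain ⟨V₁, V₂, l2, e2⟩ := digits V S.q hq
  have l3 : V₁ < 2 * S.p := by
    by_contra h
    have : 2 * S.p * S.q ≤ V₁ * S.q := Nat.mul_le_mul_right _ (by omega)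
    rw [mul_assoc] at this
    omega
  obtain ⟨U', U₂, l4, e3⟩ := digits U S.q hq
  obtain ⟨g, U₁, l5, e4⟩ := digits U' S.p hp
  have hn2 : n' = g * N + (U₁ * S.q + U₂) * S.D + V := by
    rw [e1, e3, e4, hN]; ring
  have l6 : (U₁ * S.q + U₂ + 1) * S.D ≤ N := by
    refine Nat.mul_le_mul_right _ ?_
    have : (U₁ + 1) * S.q ≤ S.p * S.q := Nat.mul_le_mul_right _ l5
    rw [add_one_mul] at this
    omega
  have g1 : 2 ≤ g := by
    by_contra hg
    have : g * N ≤ 1 * N := Nat.mul_le_mul_right _ (by omega)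
    rw [add_one_mul] at l6
    omega
  have g2 : g < 65536 := by
    by_contra hg
    have : 65536 * N ≤ g * N := Nat.mul_le_mul_right _ (by omega)
    omega
  obtain ⟨a, a', X, X', hX, hR⟩ := S.hk.2 ((U₁ + S.p : ℕ) : ZMod S.p) ((V₁ + S.p : ℕ) : ZMod S.p)
  obtain ⟨b, b', y, y', hy, hv⟩ := S.hk'.2 (((U₂ + S.q : ℕ) : ZMod S.q) - (ω X).1 - (ω X').1)
    (((V₂ + S.q : ℕ) : ZMod S.q) - (ω X).2 - (ω X').2)
  obtain ⟨c0, hc0⟩ := carry_cover X X' (U₁ + S.p) (by omega) (by omega) hX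
  obtain ⟨c1, hc1⟩ := carry_cover (y + (ω X).1) (y' + (ω X').1) (U₂ + S.q) (by omega) (by omega)
    (by linear_combination hy)
  obtain ⟨c2, hc2⟩ := carry_cover (S.up a X) (S.up a' X') (V₁ + S.p) (by omega) (by omega) hR
  obtain ⟨c3, hc3⟩ := carry_cover (S.low b (ω X) (y + (ω X).1)) (S.low b' (ω X') (y' + (ω X').1))
    (V₂ + S.q) (by omega) (by omega) (by unfold low; linear_combination hv)
  have hc0' : c0.val < 2 := by
    by_contra h
    have : 2 * S.p ≤ c0.val * S.p := Nat.mul_le_mul_right _ (by omega)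
    omega
  obtain ⟨g', hg'⟩ : ∃ g', g + c0.val = g' + 2 := ⟨g + c0.val - 2, by omega⟩
  refine ⟨_, S.mem_B.2 ⟨(a, b, ⟨g', by rw [Kc_eq]; omega⟩, c1, c2, c3), X, y + (ω X).1, rfl⟩,
    _, S.mem_B.2 ⟨(a', b', ⟨0, by rw [Kc_eq]; omega⟩, 0, 0, 0), X', y' + (ω X').1, rfl⟩, ?_⟩
  rw [el_eq, el_eq]
  simp only [sh, Fin.val_zero]
  rw [hn', hn2, e2, ← hN]
  zify at hc0 hc1 hc2 hc3 hg' hN ⊢
  linear_combination (-(S.q * S.D : ℤ)) * hc0 - (S.D : ℤ) * hc1 - (S.q : ℤ) * hc2 - hc3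
    - (N : ℤ) * hg' + ((c0.val : ℤ) - 1) * hN

end Par

end Pool.Agent.P.MP_d5a1e1_nt.Thin
end

-- part Pool.Agent.P.MP_d5a1e1_nt.Same
section

/-! Counting representations inside one block, and points of a block in a short window. -/

namespace Pool.Agent.P.MP_d5a1e1_nt.Thin

open Finset

def dz (m N : ℕ) (c : Fin 2) : ℕ := N / m - c.val
def dr (m N : ℕ) (c : Fin 2) : ℕ := N % m + c.val * m

lemma carry_split {m N z r : ℕ} (h : z * m + r = N) (hr : r < 2 * m) :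
    ∃ c : Fin 2, z = dz m N c ∧ r = dr m N c := by
  have hm : 0 < m := by omega
  by_cases h1 : r < m
  · refine ⟨0, ?_, ?_⟩
    · simp only [dz, Fin.val_zero, Nat.sub_zero]
      rw [← h, add_comm, Nat.add_mul_div_right _ _ hm, Nat.div_eq_of_lt h1, zero_add]
    · simp only [dr, Fin.val_zero, zero_mul, add_zero]
      rw [← h, add_comm, Nat.add_mul_mod_self_right, Nat.mod_eq_of_lt h1]
  · obtain ⟨r', rfl⟩ : ∃ r', r = r' + m := ⟨r - m, by omega⟩
    have h2 : r' < m := by omega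
    have h3 : N = r' + (z + 1) * m := by rw [← h]; ring
    refine ⟨1, ?_, ?_⟩
    · simp only [dz, Fin.val_one]
      rw [h3, Nat.add_mul_div_right _ _ hm, Nat.div_eq_of_lt h2]; omega
    · simp only [dr, Fin.val_one, one_mul]
      rw [h3, Nat.add_mul_mod_self_right, Nat.mod_eq_of_lt h2]

lemma card_le_of_fiber {α β : Type} [Fintype β] (s : Finset α) (f : α → β) (n : ℕ)
    (h : ∀ b, ∀ t : Finset α, (∀ a ∈ t, a ∈ s ∧ f a = b) → t.card ≤ n) :
    s.card ≤ Fintype.card β * n := by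
  classical
  have h1 := card_le_mul_card_image (f := f) s n
    (fun b _ => h b _ (fun a ha => mem_filter.1 ha))
  have h2 : (s.image f).card ≤ Fintype.card β := card_le_univ _
  calc s.card ≤ n * (s.image f).card := h1
    _ ≤ n * Fintype.card β := Nat.mul_le_mul_left _ h2
    _ = _ := mul_comm _ _

lemma card_le_of_fiber' {α β : Type} (s : Finset α) (f : α → β) (n m : ℕ)
    (h : ∀ b, ∀ t : Finset α, (∀ a ∈ t, a ∈ s ∧ f a = b) → t.card ≤ n)
    (h' : ∀ u : Finset β, (∀ b ∈ u, ∃ a ∈ s, f a = b) → u.card ≤ m) :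
    s.card ≤ m * n := by
  classical
  have h1 := card_le_mul_card_image (f := f) s n
    (fun b _ => h b _ (fun a ha => mem_filter.1 ha))
  have h2 : (s.image f).card ≤ m := h' _ (fun b hb => mem_image.1 hb)
  calc s.card ≤ n * (s.image f).card := h1
    _ ≤ n * m := Nat.mul_le_mul_left _ h2
    _ = _ := mul_comm _ _

lemma quad_le {p : ℕ} [Fact p.Prime] (α β γ : ZMod p) (hα : α ≠ 0) (t : Finset (ZMod p))
    (ht : ∀ x ∈ t, α * x ^ 2 + β * x + γ = 0) : t.card ≤ 2 :=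
  (card_le_card (fun x hx => mem_filter.2 ⟨mem_univ _, ht x hx⟩)).trans (quad_card_le α β γ hα)

namespace Par

variable (S : Par)

lemma sol_card (ω : ZMod S.p → ZMod S.q × ZMod S.q) (a a' b b' : Fin 3) (U V : ZMod S.p)
    (u v : ZMod S.q) (t : Finset ((ZMod S.p × ZMod S.q) × (ZMod S.p × ZMod S.q)))
    (ht : ∀ y ∈ t, y.1.1 + y.2.1 = U ∧ S.up a y.1.1 + S.up a' y.2.1 = V ∧ y.1.2 + y.2.2 = u ∧
      S.low b (ω y.1.1) y.1.2 + S.low b' (ω y.2.1) y.2.2 = v) : t.card ≤ 2 * 2 := by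
  classical
  refine card_le_of_fiber' t (fun y => y.1.1) 2 2 ?_ ?_
  · intro X t' ht'
    have hinj : Set.InjOn (fun y : (ZMod S.p × ZMod S.q) × (ZMod S.p × ZMod S.q) => y.1.2) t' := by
      intro y hy y' hy' h
      obtain ⟨h1, h2⟩ := ht' y hy
      obtain ⟨h1', h2'⟩ := ht' y' hy'
      obtain ⟨e1, -, e2, -⟩ := ht y h1
      obtain ⟨e1', -, e2', -⟩ := ht y' h1'
      simp only at h h2 h2'
      refine Prod.ext (Prod.ext (h2.trans h2'.symm) h) (Prod.ext ?_ ?_)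
      · linear_combination e1 - e1' - h2 + h2'
      · linear_combination e2 - e2' - h
    rw [← card_image_of_injOn hinj]
    refine quad_le (S.k' b + S.k' b')
      (-2 * S.k' b * (ω X).1 - 2 * S.k' b' * (u - (ω (U - X)).1))
      (S.k' b * (ω X).1 ^ 2 + (ω X).2 + S.k' b' * (u - (ω (U - X)).1) ^ 2 + (ω (U - X)).2 - v)
      (S.hk'.1 b b') _ ?_
    intro x hx
    obtain ⟨y, hy, rfl⟩ := mem_image.1 hx
    obtain ⟨h1, h2⟩ := ht' y hy
    obtain ⟨e1, -, e2, e3⟩ := ht y h1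
    have e4 : y.2.1 = U - X := by linear_combination e1 - h2
    have e5 : y.2.2 = u - y.1.2 := by linear_combination e2
    rw [h2, e4, e5] at e3
    unfold low at e3
    linear_combination e3
  · intro u' hu'
    refine quad_le (S.k a + S.k a') (-2 * S.k a' * U) (S.k a' * U ^ 2 - V) (S.hk.1 a a') _ ?_
    intro X hX
    obtain ⟨y, hy, rfl⟩ := hu' X hX
    obtain ⟨e1, e2, -, -⟩ := ht y hy
    have e4 : y.2.1 = U - y.1.1 := by linear_combination e1
    rw [e4] at e2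
    unfold up at e2
    linear_combination e2

lemma same_layer (ω : ZMod S.p → ZMod S.q × ZMod S.q) (l l' : Lay) (n : ℕ)
    (t : Finset ((ZMod S.p × ZMod S.q) × (ZMod S.p × ZMod S.q)))
    (ht : ∀ y ∈ t, S.el ω l y.1.1 y.1.2 + S.el ω l' y.2.1 y.2.2 = n) : t.card ≤ 32 := by
  classical
  have key : ∀ y ∈ t, ∃ c : Fin 2 × Fin 2 × Fin 2,
      y.1.1 + y.2.1 = (dz S.q (dz S.D (n - S.sh l - S.sh l') c.1) c.2.1 : ℕ) ∧
      S.up l.1 y.1.1 + S.up l'.1 y.2.1 =
        (dz S.q (dr S.D (n - S.sh l - S.sh l') c.1) c.2.2 : ℕ) ∧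
      y.1.2 + y.2.2 = (dr S.q (dz S.D (n - S.sh l - S.sh l') c.1) c.2.1 : ℕ) ∧
      S.low l.2.1 (ω y.1.1) y.1.2 + S.low l'.2.1 (ω y.2.1) y.2.2 =
        (dr S.q (dr S.D (n - S.sh l - S.sh l') c.1) c.2.2 : ℕ) := by
    rintro ⟨⟨X, x⟩, ⟨X', x'⟩⟩ hy
    have h := ht _ hy
    simp only at h ⊢
    rw [el_eq, el_eq] at h
    have r1 := S.rem_lt (S.up l.1 X) (S.low l.2.1 (ω X) x)
    have r2 := S.rem_lt (S.up l'.1 X') (S.low l'.2.1 (ω X') x')
    have hD := S.hD
    generalize S.up l.1 X = R at *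
    generalize S.up l'.1 X' = R' at *
    generalize S.low l.2.1 (ω X) x = v at *
    generalize S.low l'.2.1 (ω X') x' = v' at *
    have hx := ZMod.val_lt x
    have hx' := ZMod.val_lt x'
    have hv := ZMod.val_lt v
    have hv' := ZMod.val_lt v'
    obtain ⟨c1, e1, e2⟩ := carry_split (m := S.D) (N := n - S.sh l - S.sh l')
      (z := (X.val + X'.val) * S.q + (x.val + x'.val))
      (r := (R.val + R'.val) * S.q + (v.val + v'.val))
      (by rw [← h]; simp only [add_mul]; omega) (by rw [add_mul]; omega)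
    obtain ⟨c2, e3, e4⟩ := carry_split e1 (by omega)
    obtain ⟨c3, e5, e6⟩ := carry_split e2 (by omega)
    refine ⟨(c1, c2, c3), ?_, ?_, ?_, ?_⟩
    · simp only; rw [← e3]; simp
    · simp only; rw [← e5]; simp
    · simp only; rw [← e4]; simp
    · simp only; rw [← e6]; simp
  choose! c hc using key
  have := card_le_of_fiber t c (2 * 2) (fun b t' ht' =>
    S.sol_card ω l.1 l'.1 l.2.1 l'.2.1 _ _ _ _ t' (fun y hy => by
      have := hc y (ht' y hy).1
      rw [(ht' y hy).2] at this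
      exact this))
  simpa using this

theorem same (ω : ZMod S.p → ZMod S.q × ZMod S.q) (n : ℕ) (t : Finset (ℕ × ℕ))
    (ht : ∀ y ∈ t, y.1 ∈ S.B ω ∧ y.2 ∈ S.B ω ∧ y.1 + y.2 = n) : t.card ≤ 2 ^ 53 := by
  classical
  have key : ∀ y ∈ t, ∃ z : (Lay × Lay) × (ZMod S.p × ZMod S.q) × (ZMod S.p × ZMod S.q),
      S.el ω z.1.1 z.2.1.1 z.2.1.2 = y.1 ∧ S.el ω z.1.2 z.2.2.1 z.2.2.2 = y.2 := by
    intro y hy
    obtain ⟨h1, h2, -⟩ := ht y hy
    obtain ⟨l, X, x, e⟩ := S.mem_B.1 h1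
    obtain ⟨l', X', x', e'⟩ := S.mem_B.1 h2
    exact ⟨((l, l'), (X, x), (X', x')), e, e'⟩
  have : Nonempty Lay := ⟨(0, 0, ⟨0, by rw [Kc_eq]; omega⟩, 0, 0, 0)⟩
  choose! z hz using key
  have h1 := card_le_of_fiber t (fun y => (z y).1) 32 (fun b t' ht' => by
    have hinj : Set.InjOn (fun y => (z y).2) t' := by
      intro y hy y' hy' h
      obtain ⟨h1, h2⟩ := ht' y hy
      obtain ⟨h1', h2'⟩ := ht' y' hy'
      have e : z y = z y' := Prod.ext (h2.trans h2'.symm) h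
      refine Prod.ext ?_ ?_
      · rw [← (hz y h1).1, ← (hz y' h1').1, e]
      · rw [← (hz y h1).2, ← (hz y' h1').2, e]
    rw [← card_image_of_injOn hinj]
    refine S.same_layer ω b.1 b.2 n _ ?_
    intro w hw
    obtain ⟨y, hy, rfl⟩ := mem_image.1 hw
    obtain ⟨h1, h2⟩ := ht' y hy
    rw [← h2, (hz y h1).1, (hz y h1).2]
    exact (ht y h1).2.2)
  rw [Fintype.card_prod] at h1
  have h2 := Nat.mul_le_mul card_lay card_lay
  calc t.card ≤ _ := h1
    _ ≤ 2 ^ 24 * 2 ^ 24 * 32 := Nat.mul_le_mul_right _ h2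
    _ = 2 ^ 53 := by norm_num

end Par

/-- separated sets of naturals -/
lemma sep_card_aux (α β lo : ℕ) (s : Finset ℕ) :
    ∀ hi, (∀ y ∈ s, lo ≤ y ∧ y ≤ hi) → (∀ y ∈ s, ∀ y' ∈ s, y < y' → α ≤ (y' - y) * β) →
      (s.card - 1) * α ≤ (hi - lo) * β := by
  induction s using Finset.induction_on_max with
  | empty => simp
  | insert m s hm ih =>
    intro hi h1 h2
    rcases s.eq_empty_or_nonempty with rfl | hne
    · simp
    · have hm' := s.max'_mem hne
      have hms : m ∉ s := fun h => lt_irrefl _ (hm m h)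
      have h3 := ih (s.max' hne)
        (fun y hy => ⟨(h1 y (mem_insert_of_mem hy)).1, s.le_max' y hy⟩)
        (fun y hy y' hy' => h2 y (mem_insert_of_mem hy) y' (mem_insert_of_mem hy'))
      have h4 := h2 _ (mem_insert_of_mem hm') m (mem_insert_self _ _) (hm _ hm')
      have h5 := h1 _ (mem_insert_of_mem hm')
      have h6 := h1 m (mem_insert_self _ _)
      have h7 := hm _ hm'
      have h8 := hne.card_pos
      rw [card_insert_of_notMem hms]
      have e1 : s.card + 1 - 1 = (s.card - 1) + 1 := by omega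
      have e2 : (s.max' hne - lo) + (m - s.max' hne) ≤ hi - lo := by omega
      have e3 := Nat.mul_le_mul_right β e2
      rw [e1, add_one_mul]
      rw [add_mul] at e3
      omega

lemma sep_card (α β γ δ : ℕ) (s : Finset ℕ)
    (h : ∀ y ∈ s, ∀ y' ∈ s, y < y' → α ≤ (y' - y) * β ∧ (y' - y) * γ ≤ δ) :
    (s.card - 1) * α * γ ≤ β * δ := by
  rcases s.eq_empty_or_nonempty with rfl | hne
  · simp
  have h1 := sep_card_aux α β (s.min' hne) s (s.max' hne)
    (fun y hy => ⟨s.min'_le y hy, s.le_max' y hy⟩) (fun y hy y' hy' hl => (h y hy y' hy' hl).1)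
  have h2 : (s.max' hne - s.min' hne) * γ ≤ δ := by
    rcases (s.min'_le _ (s.max'_mem hne)).lt_or_eq with hl | he
    · exact (h _ (s.min'_mem hne) _ (s.max'_mem hne) hl).2
    · rw [he]; simp
  calc _ ≤ (s.max' hne - s.min' hne) * β * γ := Nat.mul_le_mul_right _ h1
    _ = β * ((s.max' hne - s.min' hne) * γ) := by ring
    _ ≤ β * δ := Nat.mul_le_mul_left _ h2

lemma diam_card (s : Finset ℕ) (h : ∀ y ∈ s, ∀ y' ∈ s, y' ≤ y + 1) : s.card ≤ 2 := by
  have := sep_card 1 1 1 1 s (fun y hy y' hy' hl => by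
    have := h y hy y' hy'
    omega)
  omega

namespace Par

variable (S : Par)

lemma idx_inj {X X' : ZMod S.p} {x x' : ZMod S.q}
    (h : X.val * S.q + x.val = X'.val * S.q + x'.val) : X = X' ∧ x = x' := by
  have hx := ZMod.val_lt x
  have hx' := ZMod.val_lt x'
  have hq := S.q_pos
  have h1 : (X.val * S.q + x.val) / S.q = X.val := by
    rw [add_comm, Nat.add_mul_div_right _ _ hq, Nat.div_eq_of_lt hx, zero_add]
  have h2 : (X'.val * S.q + x'.val) / S.q = X'.val := by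
    rw [add_comm, Nat.add_mul_div_right _ _ hq, Nat.div_eq_of_lt hx', zero_add]
  have h3 : X.val = X'.val := by rw [← h1, ← h2, h]
  rw [h3] at h
  exact ⟨ZMod.val_injective _ h3, ZMod.val_injective _ (by omega)⟩

theorem window (ω : ZMod S.p → ZMod S.q × ZMod S.q) (t : Finset ℕ)
    (ht : ∀ a ∈ t, a ∈ S.B ω) (ht2 : ∀ a ∈ t, ∀ a' ∈ t, a' ≤ a + S.D) : t.card ≤ 2 ^ 25 := by
  classical
  have key : ∀ y ∈ t, ∃ z : Lay × ZMod S.p × ZMod S.q, S.el ω z.1 z.2.1 z.2.2 = y := by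
    intro y hy
    obtain ⟨l, X, x, e⟩ := S.mem_B.1 (ht y hy)
    exact ⟨(l, X, x), e⟩
  have : Nonempty Lay := ⟨(0, 0, ⟨0, by rw [Kc_eq]; omega⟩, 0, 0, 0)⟩
  choose! z hz using key
  have h1 := card_le_of_fiber t (fun y => (z y).1) 2 (fun b t' ht' => by
    have hinj : Set.InjOn (fun y => (z y).2.1.val * S.q + (z y).2.2.val) t' := by
      intro y hy y' hy' h
      obtain ⟨h1, h2⟩ := ht' y hy
      obtain ⟨h1', h2'⟩ := ht' y' hy'
      obtain ⟨e1, e2⟩ := S.idx_inj h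
      have e : z y = z y' := Prod.ext (h2.trans h2'.symm) (Prod.ext e1 e2)
      rw [← hz y h1, ← hz y' h1', e]
    rw [← card_image_of_injOn hinj]
    refine diam_card _ ?_
    intro w hw w' hw'
    obtain ⟨y, hy, rfl⟩ := mem_image.1 hw
    obtain ⟨y', hy', rfl⟩ := mem_image.1 hw'
    obtain ⟨h1, h2⟩ := ht' y hy
    obtain ⟨h1', h2'⟩ := ht' y' hy'
    have h3 := ht2 y h1 y' h1'
    rw [← hz y h1, ← hz y' h1', el_eq, el_eq, h2, h2'] at h3
    have r1 := S.rem_lt (S.up b.1 (z y).2.1) (S.low b.2.1 (ω (z y).2.1) (z y).2.2)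
    have hD := S.hD
    by_contra hc
    have h4 : ((z y).2.1.val * S.q + (z y).2.2.val + 2) * S.D ≤
        ((z y').2.1.val * S.q + (z y').2.2.val) * S.D := Nat.mul_le_mul_right _ (by omega)
    rw [add_mul _ 2] at h4
    omega)
  calc t.card ≤ _ := h1
    _ ≤ 2 ^ 24 * 2 := Nat.mul_le_mul_right _ card_lay
    _ = 2 ^ 25 := by norm_num

end Par

end Pool.Agent.P.MP_d5a1e1_nt.Thin
end

-- part Pool.Agent.P.MP_d5a1e1_nt.Cross
section

/-! Cross terms between two blocks: candidates and the moment generating function. -/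

namespace Pool.Agent.P.MP_d5a1e1_nt.Thin

open Finset

/-- small multiples of `D` stay away from the multiples of `D'` -/
def Far (D D' W α β : ℕ) : Prop :=
  ∀ t z : ℕ, 1 ≤ t → t * β ≤ α → t * D + W ≤ z * D' ∨ z * D' + W ≤ t * D

def Cand (S S' : Par) (ω : ZMod S.p → ZMod S.q × ZMod S.q) (n : ℕ) (l : Lay) (X : ZMod S'.p) :
    Finset (ZMod S'.q × ZMod S'.q) :=
  univ.filter (fun y => ∃ a ∈ S.B ω, a + (S'.base l X + y.1.val * S'.D + y.2.val) = n)

def hit (S : Par) (C : Finset (ZMod S.q × ZMod S.q)) (b : Fin 3) (o : ZMod S.q × ZMod S.q) : ℕ :=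
  (C.filter (fun c => S.low b o c.1 = c.2)).card

lemma Par.pos_lt (S : Par) (y : ZMod S.q × ZMod S.q) : y.1.val * S.D + y.2.val < S.q * S.D := by
  have h1 := ZMod.val_lt y.1
  have h2 := ZMod.val_lt y.2
  have h3 := S.two_q_le
  have : (y.1.val + 1) * S.D ≤ S.q * S.D := Nat.mul_le_mul_right _ h1
  rw [add_one_mul] at this
  omega

lemma Par.pos_inj (S : Par) {y y' : ZMod S.q × ZMod S.q}
    (h : y.1.val * S.D + y.2.val = y'.1.val * S.D + y'.2.val) : y = y' := by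
  have h2 := ZMod.val_lt y.2
  have h2' := ZMod.val_lt y'.2
  have h3 := S.two_q_le
  have e : y.1.val = y'.1.val := by
    rcases lt_trichotomy y.1.val y'.1.val with hl | he | hl
    · have : (y.1.val + 1) * S.D ≤ y'.1.val * S.D := Nat.mul_le_mul_right _ hl
      rw [add_one_mul] at this
      omega
    · exact he
    · have : (y'.1.val + 1) * S.D ≤ y.1.val * S.D := Nat.mul_le_mul_right _ hl
      rw [add_one_mul] at this
      omega
  rw [e] at h
  exact Prod.ext (ZMod.val_injective _ e) (ZMod.val_injective _ (by omega))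

theorem cand_card (S S' : Par) (ω : ZMod S.p → ZMod S.q × ZMod S.q) (n : ℕ) (l' : Lay)
    (X : ZMod S'.p) (W α β m : ℕ) (hfar : Far S.D S'.D W α β) (hW : S.q + S'.q ≤ W)
    (hq : S'.q * S'.D ≤ S.q * S.D)
    (hm : ∀ c, c * α * S.D ≤ β * (2 * (S'.q * S'.D)) → c + 1 ≤ m) :
    (Cand S S' ω n l' X).card ≤ 2 ^ 25 * m := by
  classical
  have key : ∀ y ∈ Cand S S' ω n l' X, ∃ z : Lay × ZMod S.p × ZMod S.q,
      S.el ω z.1 z.2.1 z.2.2 + (S'.base l' X + (y.1.val * S'.D + y.2.val)) = n := by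
    intro y hy
    obtain ⟨a, ha, h⟩ := (mem_filter.1 hy).2
    obtain ⟨l, Y, x, e⟩ := S.mem_B.1 ha
    exact ⟨(l, Y, x), by rw [e, ← h]; ring⟩
  have : Nonempty Lay := ⟨(0, 0, ⟨0, by rw [Kc_eq]; omega⟩, 0, 0, 0)⟩
  choose! z hz using key
  have h1 := card_le_of_fiber (Cand S S' ω n l' X) (fun y => (z y).1) (2 * m) (fun l t ht => by
    refine card_le_of_fiber' t (fun y => (z y).2.1.val) m 2 ?_ ?_
    · intro Yv t' ht'
      have hinj : Set.InjOn (fun y => (z y).2.2.val) t' := by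
        intro y hy y' hy' h
        obtain ⟨h1, h2⟩ := ht' y hy
        obtain ⟨h1', h2'⟩ := ht' y' hy'
        have e : z y = z y' := Prod.ext ((ht y h1).2.trans (ht y' h1').2.symm)
          (Prod.ext (ZMod.val_injective _ (h2.trans h2'.symm)) (ZMod.val_injective _ h))
        have a1 := hz y (ht y h1).1
        have a2 := hz y' (ht y' h1').1
        rw [e] at a1
        exact S'.pos_inj (by omega)
      rw [← card_image_of_injOn hinj]
      have hs := sep_card α β S.D (2 * (S'.q * S'.D)) (t'.image (fun y => (z y).2.2.val)) (by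
        intro w hw w' hw' hlt
        obtain ⟨y, hy, rfl⟩ := mem_image.1 hw
        obtain ⟨y', hy', rfl⟩ := mem_image.1 hw'
        obtain ⟨h1, h2⟩ := ht' y hy
        obtain ⟨h1', h2'⟩ := ht' y' hy'
        have a1 := hz y (ht y h1).1
        have a2 := hz y' (ht y' h1').1
        have e1 : (z y').2.1 = (z y).2.1 := ZMod.val_injective _ (h2'.trans h2.symm)
        rw [(ht y h1).2] at a1
        rw [(ht y' h1').2, e1] at a2
        unfold Par.el at a1 a2
        have v1 := ZMod.val_lt (S.low l.2.1 (ω (z y).2.1) (z y).2.2)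
        have v2 := ZMod.val_lt (S.low l.2.1 (ω (z y).2.1) (z y').2.2)
        have v3 := ZMod.val_lt y.2
        have v4 := ZMod.val_lt y'.2
        have p1 := S'.pos_lt y
        have d1 := S.two_q_le
        have d2 := S'.two_q_le
        obtain ⟨u, hu⟩ : ∃ u, (z y').2.2.val = (z y).2.2.val + u :=
          ⟨(z y').2.2.val - (z y).2.2.val, by omega⟩
        have hu1 : 1 ≤ u := by omega
        have e2 : (z y').2.2.val - (z y).2.2.val = u := by omega
        rw [e2]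
        rw [hu, add_mul] at a2
        have d3 : S.D ≤ u * S.D := Nat.le_mul_of_pos_left _ hu1
        have y1 : y'.1.val ≤ y.1.val := by
          by_contra hc
          have : (y.1.val + 1) * S'.D ≤ y'.1.val * S'.D := Nat.mul_le_mul_right _ (by omega)
          rw [add_one_mul] at this
          omega
        obtain ⟨zz, hzz⟩ : ∃ zz, y.1.val = y'.1.val + zz := ⟨y.1.val - y'.1.val, by omega⟩
        rw [hzz, add_mul] at a1 p1
        constructor
        · by_contra hc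
          have := hfar u zz hu1 (by omega)
          omega
        · omega)
      have := hm _ hs
      omega
    · intro u hu
      refine diam_card u ?_
      intro w hw w' hw'
      obtain ⟨y, hy, rfl⟩ := hu w hw
      obtain ⟨y', hy', rfl⟩ := hu w' hw'
      have a1 := hz y (ht y hy).1
      have a2 := hz y' (ht y' hy').1
      rw [(ht y hy).2, Par.el_eq] at a1
      rw [(ht y' hy').2, Par.el_eq] at a2
      have r1 := S.rem_lt (S.up l.1 (z y).2.1) (S.low l.2.1 (ω (z y).2.1) (z y).2.2)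
      have hD := S.hD
      have p1 := S'.pos_lt y
      have v1 := ZMod.val_lt (z y).2.2
      by_contra hc
      have b1 : ((z y).2.1.val + 2) * (S.q * S.D) ≤ (z y').2.1.val * (S.q * S.D) :=
        Nat.mul_le_mul_right _ (by omega)
      have b2 : ((z y).2.2.val + 1) * S.D ≤ S.q * S.D := Nat.mul_le_mul_right _ v1
      rw [add_mul, mul_assoc] at a1 a2
      rw [add_mul] at b1 b2
      omega)
  calc _ ≤ _ := h1
    _ ≤ 2 ^ 24 * (2 * m) := Nat.mul_le_mul_right _ card_lay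
    _ = 2 ^ 25 * m := by ring

theorem mgf (S : Par) (C : Finset (ZMod S.q × ZMod S.q)) (b : Fin 3) (m : ℕ) (hC : C.card ≤ m)
    (w : ℝ) (hw : 1 ≤ w) :
    ∑ o, w ^ hit S C b o ≤ (S.q : ℝ) ^ 2 + w * m * S.q + w ^ m * m ^ 2 := by
  classical
  have hk : S.k' b + S.k' b ≠ 0 := S.hk'.1 b b
  have pw : ∀ o, w ^ hit S C b o ≤ 1 + w * (∑ c ∈ C, if S.low b o c.1 = c.2 then (1 : ℝ) else 0)
      + w ^ m * ∑ c ∈ C.offDiag,
        if S.low b o c.1.1 = c.1.2 ∧ S.low b o c.2.1 = c.2.2 then (1 : ℝ) else 0 := by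
    intro o
    have e1 : (∑ c ∈ C, if S.low b o c.1 = c.2 then (1 : ℝ) else 0) = hit S C b o := by
      simp [hit]
    have n2 : (0 : ℝ) ≤ ∑ c ∈ C.offDiag,
        if S.low b o c.1.1 = c.1.2 ∧ S.low b o c.2.1 = c.2.2 then (1 : ℝ) else 0 :=
      sum_nonneg fun c _ => by split_ifs <;> norm_num
    have wm : 0 ≤ w ^ m := by positivity
    rw [e1]
    by_cases h2 : 1 < hit S C b o
    · obtain ⟨c, hc, c', hc', hne⟩ := one_lt_card.1 h2
      have h3 : (1 : ℝ) ≤ ∑ c ∈ C.offDiag,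
          if S.low b o c.1.1 = c.1.2 ∧ S.low b o c.2.1 = c.2.2 then (1 : ℝ) else 0 := by
        refine le_trans ?_ (single_le_sum (f := fun c : (ZMod S.q × ZMod S.q) × (ZMod S.q × ZMod S.q) =>
          if S.low b o c.1.1 = c.1.2 ∧ S.low b o c.2.1 = c.2.2 then (1 : ℝ) else 0)
          (a := (c, c')) (fun c _ => by split_ifs <;> norm_num)
          (mem_offDiag.2 ⟨(mem_filter.1 hc).1, (mem_filter.1 hc').1, hne⟩))
        rw [if_pos ⟨(mem_filter.1 hc).2, (mem_filter.1 hc').2⟩]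
      have h4 : hit S C b o ≤ m := (card_filter_le _ _).trans hC
      have h5 : w ^ hit S C b o ≤ w ^ m := pow_le_pow_right₀ hw h4
      have h6 := mul_le_mul_of_nonneg_left h3 wm
      have h7 : 0 ≤ w * (hit S C b o : ℝ) := by positivity
      linarith
    · have h3 := mul_nonneg wm n2
      have : hit S C b o = 0 ∨ hit S C b o = 1 := by omega
      rcases this with h | h <;> rw [h] <;> simp only [pow_zero, pow_one, Nat.cast_zero,
        Nat.cast_one] <;> linarith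
  refine (sum_le_sum fun o _ => pw o).trans ?_
  rw [sum_add_distrib, sum_add_distrib, ← mul_sum, ← mul_sum, sum_comm,
    sum_comm (t := C.offDiag)]
  have s1 : ∑ _o : ZMod S.q × ZMod S.q, (1 : ℝ) = (S.q : ℝ) ^ 2 := by
    simp [ZMod.card, sq]
  have s2 : ∑ c ∈ C, ∑ o : ZMod S.q × ZMod S.q, (if S.low b o c.1 = c.2 then (1 : ℝ) else 0) ≤
      m * S.q := by
    have : ∀ c ∈ C, ∑ o : ZMod S.q × ZMod S.q, (if S.low b o c.1 = c.2 then (1 : ℝ) else 0) ≤
        S.q := by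
      intro c _
      rw [sum_boole]
      have h := card_le_of_fiber (univ.filter (fun o : ZMod S.q × ZMod S.q => S.low b o c.1 = c.2))
        (fun o => o.1) 1 (fun β t ht => card_le_one.2 fun o ho o' ho' => by
          obtain ⟨a1, a2⟩ := ht o ho
          obtain ⟨a3, a4⟩ := ht o' ho'
          have a5 := (mem_filter.1 a1).2
          have a6 := (mem_filter.1 a3).2
          unfold Par.low at a5 a6
          rw [a2] at a5
          rw [a4] at a6
          exact Prod.ext (a2.trans a4.symm) (by linear_combination a5 - a6))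
      rw [ZMod.card, mul_one] at h
      exact_mod_cast h
    refine (sum_le_sum this).trans ?_
    rw [sum_const, nsmul_eq_mul]
    exact mul_le_mul_of_nonneg_right (by exact_mod_cast hC) (by positivity)
  have s3 : ∑ c ∈ C.offDiag, ∑ o : ZMod S.q × ZMod S.q,
      (if S.low b o c.1.1 = c.1.2 ∧ S.low b o c.2.1 = c.2.2 then (1 : ℝ) else 0) ≤ m ^ 2 := by
    have : ∀ c ∈ C.offDiag, ∑ o : ZMod S.q × ZMod S.q,
        (if S.low b o c.1.1 = c.1.2 ∧ S.low b o c.2.1 = c.2.2 then (1 : ℝ) else 0) ≤ 1 := by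
      intro c hc
      rw [sum_boole]
      have h : (univ.filter (fun o : ZMod S.q × ZMod S.q =>
          S.low b o c.1.1 = c.1.2 ∧ S.low b o c.2.1 = c.2.2)).card ≤ 1 := by
        refine card_le_one.2 fun o ho o' ho' => ?_
        obtain ⟨a1, a2⟩ := (mem_filter.1 ho).2
        obtain ⟨a3, a4⟩ := (mem_filter.1 ho').2
        have hne : c.1.1 - c.2.1 ≠ 0 := by
          intro h
          have h' : c.1.1 = c.2.1 := sub_eq_zero.1 h
          exact (mem_offDiag.1 hc).2.2 (Prod.ext h' (by rw [← a1, ← a2, h']))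
        unfold Par.low at a1 a2 a3 a4
        have e : (S.k' b + S.k' b) * (c.1.1 - c.2.1) * (o'.1 - o.1) = 0 := by
          linear_combination a1 - a2 - a3 + a4
        have e' : o'.1 = o.1 :=
          sub_eq_zero.1 ((mul_eq_zero.1 e).resolve_left (mul_ne_zero hk hne))
        rw [e'] at a3
        exact Prod.ext e'.symm (by linear_combination a1 - a3)
      exact_mod_cast h
    refine (sum_le_sum this).trans ?_
    rw [sum_const, nsmul_eq_mul, mul_one, offDiag_card]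
    have h1 : C.card * C.card - C.card ≤ m ^ 2 := by
      have := Nat.mul_le_mul hC hC
      rw [sq]; omega
    exact_mod_cast h1
  rw [s1]
  have t2 := mul_le_mul_of_nonneg_left s2 (le_trans zero_le_one hw)
  have t3 := mul_le_mul_of_nonneg_left s3 (by positivity : 0 ≤ w ^ m)
  linarith

theorem mid_card (S : Par) (ω₀ : ZMod S.p → ZMod S.q × ZMod S.q) (par : ℕ → Par)
    (ω : ∀ s : (Σ j, ZMod (par j).p), ZMod (par s.1).q × ZMod (par s.1).q) (J : Finset ℕ) (n : ℕ)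
    (t : Finset (ℕ × ℕ))
    (ht : ∀ y ∈ t, y.1 ∈ S.B ω₀ ∧ (∃ j ∈ J, y.2 ∈ (par j).B (fun X => ω ⟨j, X⟩)) ∧ y.1 + y.2 = n) :
    t.card ≤ ∑ l : Lay, ∑ s ∈ J.sigma (fun j => (univ : Finset (ZMod (par j).p))),
      hit (par s.1) (Cand S (par s.1) ω₀ n l s.2) l.2.1 (ω s) := by
  classical
  have hsub : t ⊆ (univ : Finset Lay).biUnion (fun l =>
      (J.sigma (fun j => (univ : Finset (ZMod (par j).p)))).biUnion (fun s =>
        ((Cand S (par s.1) ω₀ n l s.2).filter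
          (fun c => (par s.1).low l.2.1 (ω s) c.1 = c.2)).image (fun c =>
            (n - ((par s.1).base l s.2 + c.1.val * (par s.1).D + c.2.val),
              (par s.1).base l s.2 + c.1.val * (par s.1).D + c.2.val)))) := by
    intro y hy
    obtain ⟨h1, ⟨j, hj, h2⟩, h3⟩ := ht y hy
    obtain ⟨l, X, x, e⟩ := (par j).mem_B.1 h2
    unfold Par.el at e
    refine mem_biUnion.2 ⟨l, mem_univ _, mem_biUnion.2 ⟨⟨j, X⟩, mem_sigma.2 ⟨hj, mem_univ _⟩,
      mem_image.2 ⟨(x, (par j).low l.2.1 (ω ⟨j, X⟩) x), mem_filter.2 ⟨mem_filter.2 ⟨mem_univ _,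
        y.1, h1, ?_⟩, rfl⟩, ?_⟩⟩⟩
    · simp only; rw [e]; exact h3
    · simp only; rw [e]; exact Prod.ext (by simp only; omega) rfl
  refine (card_le_card hsub).trans (card_biUnion_le.trans (sum_le_sum fun l _ => ?_))
  exact card_biUnion_le.trans (sum_le_sum fun s _ => card_image_le)

end Pool.Agent.P.MP_d5a1e1_nt.Thin
end

-- part Pool.Agent.P.MP_d5a1e1_nt.Dioph
section

/-! Choice of the primes and of the block steps. -/

namespace Pool.Agent.P.MP_d5a1e1_nt.Thin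

open Finset

lemma bad_t (M W D' t : ℕ) (ht : 1 ≤ t) (htW : t ≤ W) (h0 : 0 < D') (hD' : D' ≤ M) (hW : W ≤ M)
    (s : Finset ℕ) (hs : ∀ d ∈ s, d < 2 * M ∧ ∃ z, z * D' < t * d + W ∧ t * d < z * D' + W) :
    s.card * D' ≤ 12 * M * W := by
  classical
  have hs' : ∀ d ∈ s, ∃ z, z * D' < t * d + W ∧ t * d < z * D' + W := fun d hd => (hs d hd).2
  choose! z hz using hs'
  have h1 := card_le_of_fiber' s z (2 * W / t + 1) ((2 * t * M + W) / D' + 1) (by
    intro b u hu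
    have := sep_card 1 1 t (2 * W) u (fun y hy y' hy' hl => by
      obtain ⟨a1, a2⟩ := hu y hy
      obtain ⟨a3, a4⟩ := hu y' hy'
      have b1 := hz y a1
      have b2 := hz y' a3
      rw [a2] at b1
      rw [a4] at b2
      obtain ⟨v, rfl⟩ : ∃ v, y' = y + v := ⟨y' - y, by omega⟩
      rw [mul_add] at b2
      rw [Nat.add_sub_cancel_left, mul_comm v t]
      omega)
    rw [mul_one, one_mul] at this
    have h2 : u.card - 1 ≤ 2 * W / t := (Nat.le_div_iff_mul_le (by omega)).2 this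
    omega) (by
    intro u hu
    refine (card_le_card (t := range ((2 * t * M + W) / D' + 1)) ?_).trans (by simp)
    intro b hb
    obtain ⟨d, hd, rfl⟩ := hu b hb
    have b1 := (hz d hd).1
    have b2 : t * d ≤ t * (2 * M) := Nat.mul_le_mul_left _ (hs d hd).1.le
    have b3 : t * (2 * M) = 2 * t * M := by ring
    have : z d ≤ (2 * t * M + W) / D' := (Nat.le_div_iff_mul_le h0).2 (by omega)
    exact mem_range.2 (by omega))
  have a1 : (2 * t * M + W) / D' * D' ≤ 2 * t * M + W := Nat.div_mul_le_self _ _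
  have a2 : 2 * W / t * t ≤ 2 * W := Nat.div_mul_le_self _ _
  generalize (2 * t * M + W) / D' = A at *
  generalize 2 * W / t = B at *
  have a3 : M ≤ t * M := Nat.le_mul_of_pos_left _ ht
  have a4 : (A + 1) * D' ≤ 4 * (t * M) := by
    rw [add_one_mul]; rw [mul_assoc] at a1; omega
  have a5 : (B + 1) * t ≤ 3 * W := by rw [add_one_mul]; omega
  calc s.card * D' ≤ (A + 1) * (B + 1) * D' := Nat.mul_le_mul_right _ h1
    _ = (B + 1) * ((A + 1) * D') := by ring
    _ ≤ (B + 1) * (4 * (t * M)) := Nat.mul_le_mul_left _ a4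
    _ = 4 * M * ((B + 1) * t) := by ring
    _ ≤ 4 * M * (3 * W) := Nat.mul_le_mul_left _ a5
    _ = 12 * M * W := by ring

lemma bad_card (M W D' α β : ℕ) (hβ : 0 < β) (h0 : 0 < D') (hD' : D' ≤ M) (hW : W ≤ M)
    (hα : α ≤ W * β) (s : Finset ℕ) (hs : ∀ d ∈ s, d < 2 * M ∧ ¬ Far d D' W α β) :
    s.card * D' * β ≤ α * (12 * M * W) := by
  classical
  have hsub : s ⊆ (Icc 1 (α / β)).biUnion (fun t =>
      s.filter (fun d => ∃ z, z * D' < t * d + W ∧ t * d < z * D' + W)) := by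
    intro d hd
    have h := (hs d hd).2
    unfold Far at h
    push Not at h
    obtain ⟨t, z, h1, h2, h3, h4⟩ := h
    exact mem_biUnion.2 ⟨t, mem_Icc.2 ⟨h1, (Nat.le_div_iff_mul_le hβ).2 h2⟩,
      mem_filter.2 ⟨hd, z, h3, h4⟩⟩
  have h1 := (card_le_card hsub).trans card_biUnion_le
  have h2 := Nat.mul_le_mul_right D' h1
  rw [sum_mul] at h2
  have h3 : ∑ t ∈ Icc 1 (α / β), (s.filter
      (fun d => ∃ z, z * D' < t * d + W ∧ t * d < z * D' + W)).card * D' ≤
      ∑ _t ∈ Icc 1 (α / β), 12 * M * W := by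
    refine sum_le_sum fun t ht => ?_
    have a1 := (mem_Icc.1 ht).1
    have a2 := (mem_Icc.1 ht).2
    have a3 : α / β ≤ W := Nat.div_le_of_le_mul (by rw [mul_comm]; exact hα)
    exact bad_t M W D' t a1 (by omega) h0 hD' hW _
      (fun d hd => ⟨(hs d (mem_filter.1 hd).1).1, (mem_filter.1 hd).2⟩)
  rw [sum_const, Nat.card_Icc, smul_eq_mul, Nat.add_sub_cancel] at h3
  have h4 : α / β * β ≤ α := Nat.div_mul_le_self _ _
  calc _ ≤ α / β * (12 * M * W) * β := Nat.mul_le_mul_right _ (h2.trans h3)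
    _ = α / β * β * (12 * M * W) := by ring
    _ ≤ _ := Nat.mul_le_mul_right _ h4

/-- a sequence built by strong recursion from a choice rule -/
noncomputable def seqOf (g : ℕ → (ℕ → ℕ) → ℕ) (i : ℕ) : ℕ :=
  g i (fun j => if _h : j < i then seqOf g j else 0)
termination_by i

lemma exists_seq (P : ℕ → ℕ → Prop) (R : ℕ → ℕ → ℕ → ℕ → Prop)
    (h : ∀ i (f : ℕ → ℕ), (∀ j < i, P j (f j)) → ∃ d, P i d ∧ ∀ j < i, R i j d (f j)) :
    ∃ f : ℕ → ℕ, ∀ i, P i (f i) ∧ ∀ j < i, R i j (f i) (f j) := by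
  classical
  choose! g hg using h
  refine ⟨seqOf g, fun i => ?_⟩
  induction i using Nat.strong_induction_on with
  | _ i ih =>
    have := hg i (fun j => if _h : j < i then seqOf g j else 0)
      (fun j hj => by simp only [dif_pos hj]; exact (ih j hj).1)
    have e : g i (fun j => if _h : j < i then seqOf g j else 0) = seqOf g i := by
      rw [seqOf]
    rw [e] at this
    refine ⟨this.1, fun j hj => ?_⟩
    have h2 := this.2 j hj
    simpa only [dif_pos hj] using h2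

/-- the slowly growing exponent -/
def ee (i : ℕ) : ℕ := Nat.log 16 i

lemma ee_le (i : ℕ) : ee i ≤ i := Nat.log_le_self _ _

lemma exists_primes (a : ℕ) : ∃ p, p.Prime ∧ 7 < p ∧ (3 ≤ a → 2 ^ a < p ∧ p ≤ 2 ^ (a + 1)) := by
  obtain ⟨p, hp, h1, h2⟩ := Nat.exists_prime_lt_and_le_two_mul (2 ^ max 3 a) (by positivity)
  have h3 : 2 ^ 3 ≤ 2 ^ max 3 a := Nat.pow_le_pow_right (by norm_num) (le_max_left _ _)
  refine ⟨p, hp, by omega, fun ha => ?_⟩
  rw [max_eq_right ha] at h1 h2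
  exact ⟨h1, by rw [pow_succ]; omega⟩

lemma two_pow_sum (i : ℕ) : ∑ j ∈ range i, 2 ^ j < 2 ^ i := by
  induction i with
  | zero => simp
  | succ i ih => rw [sum_range_succ, pow_succ]; omega

theorem exists_par : ∃ par : ℕ → Par, ∀ i, 3 ≤ i →
    (2 ^ (2 * i - ee i) < (par i).p ∧ (par i).p ≤ 2 ^ (2 * i - ee i + 1)) ∧
    (2 ^ (2 * i + ee i) < (par i).q ∧ (par i).q ≤ 2 ^ (2 * i + ee i + 1)) ∧
    ∀ j < i, 3 ≤ j → Far (par i).D (par j).D (2 ^ (2 * i + ee i + 2)) (2 ^ (4 * j))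
      (2 ^ (2 * i + ee i + 6 + (i - j))) := by
  classical
  choose pr hpr h7 hb using exists_primes
  choose k hk using fun a => exists_good_coeff (pr a) (hpr a) (h7 a)
  have hM : ∀ i, 3 ≤ i → 2 ^ (4 * i) ≤ pr (2 * i - ee i) * pr (2 * i + ee i) ∧
      pr (2 * i - ee i) * pr (2 * i + ee i) ≤ 2 ^ (4 * i + 2) := by
    intro i hi
    have := ee_le i
    obtain ⟨a1, a2⟩ := hb (2 * i - ee i) (by omega)
    obtain ⟨a3, a4⟩ := hb (2 * i + ee i) (by omega)
    have b1 := Nat.mul_le_mul a1.le a3.le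
    have b2 := Nat.mul_le_mul a2 a4
    rw [← pow_add] at b1 b2
    exact ⟨le_trans (le_of_eq (by congr 1; omega)) b1, b2.trans (le_of_eq (by congr 1; omega))⟩
  obtain ⟨D, hD⟩ := exists_seq
    (fun i d => pr (2 * i - ee i) * pr (2 * i + ee i) ≤ d ∧
      d ≤ 2 * (pr (2 * i - ee i) * pr (2 * i + ee i)))
    (fun i j d d' => 3 ≤ j → Far d d' (2 ^ (2 * i + ee i + 2)) (2 ^ (4 * j))
      (2 ^ (2 * i + ee i + 6 + (i - j)))) (by
    intro i f hf
    by_cases hi : i < 3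
    · exact ⟨_, ⟨le_rfl, by omega⟩, fun j hj h3 => by omega⟩
    have hi3 : 3 ≤ i := by omega
    obtain ⟨m1, -⟩ := hM i hi3
    have he := ee_le i
    generalize pr (2 * i - ee i) * pr (2 * i + ee i) = M at *
    have hM0 : 0 < M := lt_of_lt_of_le (by positivity) m1
    by_contra hcon
    push Not at hcon
    have hsub : Ico M (2 * M) ⊆ (range i).biUnion (fun j => (Ico M (2 * M)).filter (fun d =>
        3 ≤ j ∧ ¬ Far d (f j) (2 ^ (2 * i + ee i + 2)) (2 ^ (4 * j))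
          (2 ^ (2 * i + ee i + 6 + (i - j))))) := by
      intro d hd
      obtain ⟨j, hj, h3, h4⟩ := hcon d ⟨(mem_Ico.1 hd).1, (mem_Ico.1 hd).2.le⟩
      exact mem_biUnion.2 ⟨j, mem_range.2 hj, mem_filter.2 ⟨hd, h3, h4⟩⟩
    have h1 := (card_le_card hsub).trans card_biUnion_le
    have h2 := Nat.mul_le_mul_right (16 * 2 ^ i) h1
    rw [sum_mul, Nat.card_Ico] at h2
    have h3 : ∑ j ∈ range i, ((Ico M (2 * M)).filter (fun d =>
        3 ≤ j ∧ ¬ Far d (f j) (2 ^ (2 * i + ee i + 2)) (2 ^ (4 * j))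
          (2 ^ (2 * i + ee i + 6 + (i - j))))).card * (16 * 2 ^ i) ≤
        ∑ j ∈ range i, 12 * M * 2 ^ j := by
      refine sum_le_sum fun j hj => ?_
      have hji := mem_range.1 hj
      by_cases h3 : 3 ≤ j
      swap
      · simp [h3]
      obtain ⟨n1, n2⟩ := hM j h3
      obtain ⟨n3, n4⟩ := hf j hji
      have n5 : 2 ^ (4 * j) ≤ f j := n1.trans n3
      have n6 : f j ≤ M := by
        have : 2 * 2 ^ (4 * j + 2) ≤ 2 ^ (4 * i) := by
          rw [← pow_succ']; exact Nat.pow_le_pow_right (by norm_num) (by omega)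
        omega
      have h4 := bad_card M (2 ^ (2 * i + ee i + 2)) (f j) (2 ^ (4 * j))
        (2 ^ (2 * i + ee i + 6 + (i - j))) (by positivity) (lt_of_lt_of_le (by positivity) n5) n6
        (le_trans (Nat.pow_le_pow_right (by norm_num) (by omega)) m1)
        (by rw [← pow_add]; exact Nat.pow_le_pow_right (by norm_num) (by omega))
        ((Ico M (2 * M)).filter (fun d =>
          3 ≤ j ∧ ¬ Far d (f j) (2 ^ (2 * i + ee i + 2)) (2 ^ (4 * j))
            (2 ^ (2 * i + ee i + 6 + (i - j)))))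
        (fun d hd => ⟨(mem_Ico.1 (mem_filter.1 hd).1).2, (mem_filter.1 hd).2.2⟩)
      generalize ((Ico M (2 * M)).filter (fun d =>
          3 ≤ j ∧ ¬ Far d (f j) (2 ^ (2 * i + ee i + 2)) (2 ^ (4 * j))
            (2 ^ (2 * i + ee i + 6 + (i - j))))).card = c at *
      obtain ⟨u, rfl⟩ : ∃ u, i = j + u := ⟨i - j, by omega⟩
      rw [Nat.add_sub_cancel_left] at h4
      have h5 : c * 2 ^ (4 * j) * 2 ^ (2 * (j + u) + ee (j + u) + 6 + u) ≤
          c * f j * 2 ^ (2 * (j + u) + ee (j + u) + 6 + u) :=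
        Nat.mul_le_mul_right _ (Nat.mul_le_mul_left _ n5)
      have h6 := h5.trans h4
      have h7 : c * (16 * 2 ^ u) * (2 ^ (4 * j) * 2 ^ (2 * (j + u) + ee (j + u) + 2)) ≤
          12 * M * (2 ^ (4 * j) * 2 ^ (2 * (j + u) + ee (j + u) + 2)) := by
        calc _ = c * 2 ^ (4 * j) * 2 ^ (2 * (j + u) + ee (j + u) + 6 + u) := by ring
          _ ≤ _ := h6
          _ = _ := by ring
      have h8 := Nat.le_of_mul_le_mul_right h7 (by positivity)
      calc c * (16 * 2 ^ (j + u)) = c * (16 * 2 ^ u) * 2 ^ j := by ring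
        _ ≤ _ := Nat.mul_le_mul_right _ h8
    rw [← mul_sum] at h3
    have h4 := Nat.mul_le_mul_left (12 * M) (two_pow_sum i).le
    have h5 : (2 * M - M) * (16 * 2 ^ i) = 16 * (M * 2 ^ i) := by
      rw [show 2 * M - M = M by omega]; ring
    have h6 : 12 * M * 2 ^ i = 12 * (M * 2 ^ i) := by ring
    have h7 : 0 < M * 2 ^ i := by positivity
    omega)
  refine ⟨fun i => ⟨pr (2 * i - ee i), pr (2 * i + ee i), D i, hpr _, hpr _, k _, k _, hk _, hk _,
    (hD i).1.1, (hD i).1.2⟩, fun i hi => ?_⟩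
  have := ee_le i
  exact ⟨hb _ (by omega), hb _ (by omega), (hD i).2⟩

end Pool.Agent.P.MP_d5a1e1_nt.Thin
end

-- part Pool.Agent.P.MP_d5a1e1_nt.Prob
section

/-! Finite averaging over product spaces, a union bound and a compactness step. -/

namespace Pool.Agent.P.MP_d5a1e1_nt.Thin

open Finset Function

section
variable {ι : Type} [DecidableEq ι] {Ω : ι → Type} [∀ s, Fintype (Ω s)] [∀ s, Nonempty (Ω s)]

lemma exists_closed (F : Finset ι) :
    ∃ G : Finset (∀ s, Ω s), G.Nonempty ∧ ∀ ω ∈ G, ∀ s ∈ F, ∀ v, update ω s v ∈ G := by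
  classical
  induction F using Finset.induction_on with
  | empty => exact ⟨{fun s => Classical.arbitrary _}, by simp, by simp⟩
  | insert s F hs ih =>
    obtain ⟨G, ⟨ω₀, h₀⟩, hG⟩ := ih
    refine ⟨(G ×ˢ (univ : Finset (Ω s))).image (fun z => update z.1 s z.2), ?_, ?_⟩
    · exact ⟨_, mem_image.2 ⟨(ω₀, Classical.arbitrary _), by simp [h₀], rfl⟩⟩
    · intro ω hω t ht v
      obtain ⟨⟨ω', v'⟩, hz, rfl⟩ := mem_image.1 hω
      have hω' : ω' ∈ G := (mem_product.1 hz).1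
      rcases mem_insert.1 ht with rfl | ht
      · exact mem_image.2 ⟨(ω', v), by simp [hω'], by simp⟩
      · have hts : s ≠ t := by rintro rfl; exact hs ht
        refine mem_image.2 ⟨(update ω' t v, v'), by simp [hG ω' hω' t ht v], ?_⟩
        exact (update_comm hts v' v ω').symm

omit [∀ s, Nonempty (Ω s)] in
lemma sum_update (G : Finset (∀ s, Ω s)) (s : ι) (hG : ∀ ω ∈ G, ∀ v, update ω s v ∈ G)
    (f : (∀ s, Ω s) → ℝ) :
    ∑ ω ∈ G, ∑ v, f (update ω s v) = (∑ ω ∈ G, f ω) * Fintype.card (Ω s) := by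
  classical
  rw [← sum_product', sum_mul]
  have : ∀ ω ∈ G, f ω * Fintype.card (Ω s) = ∑ _v : Ω s, f ω := by
    intro ω _; simp [mul_comm]
  rw [sum_congr rfl this, ← sum_product']
  refine sum_bij' (fun z _ => (update z.1 s z.2, z.1 s)) (fun z _ => (update z.1 s z.2, z.1 s))
    ?_ ?_ ?_ ?_ ?_
  · intro z hz; simp [hG z.1 (mem_product.1 hz).1]
  · intro z hz; simp [hG z.1 (mem_product.1 hz).1]
  · intro z _; simp
  · intro z _; simp
  · intro z _; rfl

lemma sum_prod_le (G : Finset (∀ s, Ω s)) (M : Finset ι)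
    (hG : ∀ ω ∈ G, ∀ s ∈ M, ∀ v, update ω s v ∈ G)
    (f : ι → (∀ s, Ω s) → ℝ) (b : ι → ℝ) (hf0 : ∀ s ω, 0 ≤ f s ω) (hb0 : ∀ s, 0 ≤ b s)
    (hinv : ∀ s ∈ M, ∀ t ∈ M, t ≠ s → ∀ ω v, f s (update ω t v) = f s ω)
    (hb : ∀ s ∈ M, ∀ ω, ∑ v, f s (update ω s v) ≤ b s * Fintype.card (Ω s)) :
    ∑ ω ∈ G, ∏ s ∈ M, f s ω ≤ (∏ s ∈ M, b s) * G.card := by
  induction M using Finset.induction_on with
  | empty => simp
  | insert s M hs ih =>
    have ih' := ih (fun ω hω t ht => hG ω hω t (mem_insert_of_mem ht))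
      (fun a ha t ht => hinv a (mem_insert_of_mem ha) t (mem_insert_of_mem ht))
      (fun a ha => hb a (mem_insert_of_mem ha))
    have hc : (0 : ℝ) < Fintype.card (Ω s) := by exact_mod_cast Fintype.card_pos
    have h1 := sum_update G s (fun ω hω => hG ω hω s (mem_insert_self _ _))
      (fun ω => ∏ t ∈ insert s M, f t ω)
    refine le_of_mul_le_mul_right ?_ hc
    rw [← h1]
    have h2 : ∀ ω ∈ G, ∑ v, ∏ t ∈ insert s M, f t (update ω s v) ≤
        b s * Fintype.card (Ω s) * ∏ t ∈ M, f t ω := by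
      intro ω _
      have : ∀ v, ∏ t ∈ insert s M, f t (update ω s v) =
          f s (update ω s v) * ∏ t ∈ M, f t ω := by
        intro v
        rw [prod_insert hs]
        congr 1
        refine prod_congr rfl fun t ht => ?_
        exact hinv t (mem_insert_of_mem ht) s (mem_insert_self _ _)
          (by rintro rfl; exact hs ht) ω v
      simp only [this]
      rw [← sum_mul]
      exact mul_le_mul_of_nonneg_right (hb s (mem_insert_self _ _) ω)
        (prod_nonneg fun t _ => hf0 t ω)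
    refine (sum_le_sum h2).trans ?_
    rw [← mul_sum, prod_insert hs]
    have h3 := mul_le_mul_of_nonneg_left ih' (mul_nonneg (hb0 s) hc.le)
    nlinarith [h3]

theorem exists_all_lt {κ : Type} (cs : ℕ → Finset κ) (M : ℕ → Finset ι)
    (f : ℕ → κ → ι → (∀ s, Ω s) → ℝ) (b : ℕ → ι → ℝ) (θ : ℕ → ℝ)
    (hf0 : ∀ i c s ω, 0 ≤ f i c s ω) (hb0 : ∀ i s, 0 ≤ b i s) (hθ : ∀ i, 0 < θ i)
    (hinv : ∀ i c, ∀ s ∈ M i, ∀ t ∈ M i, t ≠ s → ∀ ω v, f i c s (update ω t v) = f i c s ω)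
    (hb : ∀ i, ∀ c ∈ cs i, ∀ s ∈ M i, ∀ ω,
      ∑ v, f i c s (update ω s v) ≤ b i s * Fintype.card (Ω s))
    (hdep : ∀ i, ∃ S : Finset ι, ∀ c, ∀ s ∈ M i, ∀ ω ω' : (∀ s, Ω s),
      (∀ t ∈ S, ω t = ω' t) → f i c s ω = f i c s ω')
    (hsum : ∀ i, (cs i).card * ∏ s ∈ M i, b i s ≤ θ i / 2 ^ (i + 1)) :
    ∃ ω : (∀ s, Ω s), ∀ i, ∀ c ∈ cs i, ∏ s ∈ M i, f i c s ω < θ i := by
  classical
  have fin : ∀ I : ℕ, ∃ ω : (∀ s, Ω s), ∀ i < I, ∀ c ∈ cs i, ∏ s ∈ M i, f i c s ω < θ i := by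
    intro I
    obtain ⟨G, hne, hG⟩ := exists_closed (Ω := Ω) ((range I).biUnion M)
    have hGc : (0 : ℝ) < G.card := by exact_mod_cast hne.card_pos
    have key : ∑ ω ∈ G, ∑ i ∈ range I, ∑ c ∈ cs i, (∏ s ∈ M i, f i c s ω) / θ i <
        ∑ _ω ∈ G, (1 : ℝ) := by
      rw [sum_comm]
      have h1 : ∀ i ∈ range I, ∑ ω ∈ G, ∑ c ∈ cs i, (∏ s ∈ M i, f i c s ω) / θ i ≤
          G.card * (1 / 2 ^ (i + 1)) := by
        intro i hi
        rw [sum_comm]
        have h2 : ∀ c ∈ cs i, ∑ ω ∈ G, (∏ s ∈ M i, f i c s ω) / θ i ≤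
            (∏ s ∈ M i, b i s) * G.card / θ i := by
          intro c hc
          rw [← sum_div]
          refine div_le_div_of_nonneg_right ?_ (hθ i).le
          exact sum_prod_le G (M i)
            (fun ω hω s hs => hG ω hω s (mem_biUnion.2 ⟨i, hi, hs⟩)) (f i c) (b i)
            (hf0 i c) (hb0 i) (hinv i c) (hb i c hc)
        refine (sum_le_sum h2).trans ?_
        rw [sum_const, nsmul_eq_mul, ← mul_div_assoc, div_le_iff₀ (hθ i)]
        have h3 := mul_le_mul_of_nonneg_right (hsum i) hGc.le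
        calc _ = (cs i).card * (∏ s ∈ M i, b i s) * G.card := by ring
          _ ≤ θ i / 2 ^ (i + 1) * G.card := h3
          _ = _ := by ring
      refine (sum_le_sum h1).trans_lt ?_
      rw [← mul_sum]
      have h4 : ∀ I : ℕ, ∑ i ∈ range I, (1 : ℝ) / 2 ^ (i + 1) = 1 - 1 / 2 ^ I := by
        intro I
        induction I with
        | zero => simp
        | succ I ih => rw [sum_range_succ, ih]; field_simp; ring
      rw [h4]
      have : (0 : ℝ) < 1 / 2 ^ I := by positivity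
      simp only [sum_const, nsmul_eq_mul]
      nlinarith
    obtain ⟨ω, _, hω⟩ := exists_lt_of_sum_lt key
    refine ⟨ω, fun i hi c hc => ?_⟩
    have nn : ∀ i c, 0 ≤ (∏ s ∈ M i, f i c s ω) / θ i := fun i c =>
      div_nonneg (prod_nonneg fun s _ => hf0 i c s ω) (hθ i).le
    have h5 : (∏ s ∈ M i, f i c s ω) / θ i ≤
        ∑ i ∈ range I, ∑ c ∈ cs i, (∏ s ∈ M i, f i c s ω) / θ i :=
      (single_le_sum (f := fun c => (∏ s ∈ M i, f i c s ω) / θ i) (fun c _ => nn i c) hc).trans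
        (single_le_sum (f := fun i => ∑ c ∈ cs i, (∏ s ∈ M i, f i c s ω) / θ i)
          (fun i _ => sum_nonneg fun c _ => nn i c) (mem_range.2 hi))
    exact (div_lt_one (hθ i)).1 (h5.trans_lt hω)
  choose W hW using fin
  have lim : ∀ s, ∃ v : Ω s, {I | W I s = v} ∈ Filter.hyperfilter ℕ := by
    intro s
    obtain ⟨v, hv⟩ := Ultrafilter.eq_pure_of_finite ((Filter.hyperfilter ℕ).map (fun I => W I s))
    refine ⟨v, ?_⟩
    have : ({v} : Set (Ω s)) ∈ (Filter.hyperfilter ℕ).map (fun I => W I s) := by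
      rw [hv]; simp
    exact this
  choose ω hω using lim
  refine ⟨ω, fun i c hc => ?_⟩
  obtain ⟨S, hS⟩ := hdep i
  have h1 : ∀ᶠ I in (Filter.hyperfilter ℕ : Filter ℕ), ∀ t ∈ S, W I t = ω t :=
    (Filter.eventually_all_finset S).2 fun t _ => hω t
  have h2 : ∀ᶠ I in (Filter.hyperfilter ℕ : Filter ℕ), i < I := by
    refine Filter.hyperfilter_le_cofinite ?_
    rw [Nat.cofinite_eq_atTop]
    exact Filter.eventually_gt_atTop i
  obtain ⟨I, hI1, hI2⟩ := (h1.and h2).exists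
  have : ∏ s ∈ M i, f i c s ω = ∏ s ∈ M i, f i c s (W I) :=
    prod_congr rfl fun s hs => (hS c s hs _ _ hI1).symm
  rw [this]
  exact hW I i hI2 c hc

end

end Pool.Agent.P.MP_d5a1e1_nt.Thin
end

-- part Pool.Agent.P.MP_d5a1e1_nt.Choice
section

/-! Choice of the random shifts. -/

namespace Pool.Agent.P.MP_d5a1e1_nt.Thin

open Finset Function

/-- the size conditions on the blocks -/
def Nice (par : ℕ → Par) : Prop := ∀ i, 3 ≤ i →
    (2 ^ (2 * i - ee i) < (par i).p ∧ (par i).p ≤ 2 ^ (2 * i - ee i + 1)) ∧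
    (2 ^ (2 * i + ee i) < (par i).q ∧ (par i).q ≤ 2 ^ (2 * i + ee i + 1)) ∧
    ∀ j < i, 3 ≤ j → Far (par i).D (par j).D (2 ^ (2 * i + ee i + 2)) (2 ^ (4 * j))
      (2 ^ (2 * i + ee i + 6 + (i - j)))

lemma pw_le {a b : ℕ} (h : a ≤ b) : 2 ^ a ≤ 2 ^ b := Nat.pow_le_pow_right (by norm_num) h

lemma Nice.pq {par : ℕ → Par} (h : Nice par) {i : ℕ} (hi : 3 ≤ i) :
    2 ^ (4 * i) ≤ (par i).p * (par i).q ∧ (par i).p * (par i).q ≤ 2 ^ (4 * i + 2) := by
  obtain ⟨⟨a1, a2⟩, ⟨a3, a4⟩, -⟩ := h i hi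
  have := ee_le i
  have b1 := Nat.mul_le_mul a1.le a3.le
  have b2 := Nat.mul_le_mul a2 a4
  rw [← pow_add] at b1 b2
  exact ⟨(pw_le (by omega)).trans b1, b2.trans (pw_le (by omega))⟩

lemma Nice.D {par : ℕ → Par} (h : Nice par) {i : ℕ} (hi : 3 ≤ i) :
    2 ^ (4 * i) ≤ (par i).D ∧ (par i).D ≤ 2 ^ (4 * i + 3) := by
  obtain ⟨a1, a2⟩ := h.pq hi
  have := (par i).hD
  have := (par i).hD2
  refine ⟨by omega, ?_⟩
  rw [pow_succ]; omega

lemma Nice.N {par : ℕ → Par} (h : Nice par) {i : ℕ} (hi : 3 ≤ i) :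
    2 ^ (8 * i) ≤ (par i).p * (par i).q * (par i).D ∧
      (par i).p * (par i).q * (par i).D ≤ 2 ^ (8 * i + 5) := by
  obtain ⟨a1, a2⟩ := h.pq hi
  obtain ⟨a3, a4⟩ := h.D hi
  have b1 := Nat.mul_le_mul a1 a3
  have b2 := Nat.mul_le_mul a2 a4
  rw [← pow_add] at b1 b2
  exact ⟨(pw_le (by omega)).trans b1, b2.trans (pw_le (by omega))⟩

def mid (I i : ℕ) : Finset ℕ := (range i).filter (fun j => I ≤ j ∧ 4 * i < 8 * j + 22)

def mm (i j : ℕ) : ℕ := 2 ^ 25 * (2 ^ (ee i + ee j + 11) / 2 ^ (i - j) + 1)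

def TT (i : ℕ) : ℕ := 2 ^ 41 * i / ee i + 1

lemma ee_mono {i j : ℕ} (h : j ≤ i) : ee j ≤ ee i := Nat.log_mono_right h

lemma Nice.cand {par : ℕ → Par} (h : Nice par) {i j : ℕ} (hj : 3 ≤ j) (hji : j < i)
    (ω : ZMod (par i).p → ZMod (par i).q × ZMod (par i).q) (n : ℕ) (l : Lay)
    (X : ZMod (par j).p) : (Cand (par i) (par j) ω n l X).card ≤ mm i j := by
  obtain ⟨-, ⟨a3, a4⟩, hf⟩ := h i (by omega)
  obtain ⟨-, ⟨-, b4⟩, -⟩ := h j hj
  obtain ⟨c1, -⟩ := h.D (i := i) (by omega)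
  obtain ⟨-, c2⟩ := h.D hj
  have he := ee_mono hji.le
  have d1 := Nat.mul_le_mul b4 c2
  have d2 := Nat.mul_le_mul a3.le c1
  rw [← pow_add] at d1 d2
  refine cand_card _ _ ω n l X _ _ _ _ (hf j hji hj) ?_ (d1.trans ((pw_le (by omega)).trans d2)) ?_
  · have : 2 ^ (2 * j + ee j + 1) ≤ 2 ^ (2 * i + ee i + 1) := pw_le (by omega)
    rw [pow_succ]; omega
  · intro c hc
    refine Nat.succ_le_succ ((Nat.le_div_iff_mul_le (by positivity)).2 ?_)
    obtain ⟨u, rfl⟩ : ∃ u, i = j + u := ⟨i - j, by omega⟩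
    rw [Nat.add_sub_cancel_left] at hc ⊢
    have e1 : c * 2 ^ (4 * j) * 2 ^ (4 * (j + u)) ≤ c * 2 ^ (4 * j) * (par (j + u)).D :=
      Nat.mul_le_mul_left _ c1
    have e2 := Nat.mul_le_mul_left (2 ^ (2 * (j + u) + ee (j + u) + 6 + u))
      (Nat.mul_le_mul_left 2 d1)
    have e3 := e1.trans (hc.trans e2)
    refine Nat.le_of_mul_le_mul_right (c := 2 ^ (8 * j + 3 * u)) ?_ (by positivity)
    calc _ = c * 2 ^ (4 * j) * 2 ^ (4 * (j + u)) := by ring
      _ ≤ _ := e3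
      _ = _ := by ring

lemma ee_spec {i : ℕ} (hi : 16 ^ 24 ≤ i) : 24 ≤ ee i ∧ 16 ^ ee i ≤ i ∧ i < 16 ^ (ee i + 1) := by
  have h0 : i ≠ 0 := by
    have : 0 < 16 ^ 24 := by positivity
    omega
  exact ⟨Nat.le_log_of_pow_le (by norm_num) hi, Nat.pow_log_le_self _ h0,
    Nat.lt_pow_succ_log_self (by norm_num) _⟩

lemma grow (e : ℕ) (he : 24 ≤ e) : (e + 2) * 2 ^ 38 ≤ 4 ^ e := by
  induction e, he using Nat.le_induction with
  | base => norm_num
  | succ e he ih =>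
    rw [pow_succ 4 e]
    have : (e + 1 + 2) * 2 ^ 38 ≤ (e + 2) * 4 * 2 ^ 38 := Nat.mul_le_mul_right _ (by omega)
    calc _ ≤ _ := this
      _ = (e + 2) * 2 ^ 38 * 4 := by ring
      _ ≤ _ := Nat.mul_le_mul_right _ ih

lemma term_one (p q E E' μ Δ : ℕ) (h1 : p * E' ^ 2 ≤ 2 * q) (h2 : E ≤ 2 * E') (h3 : 1 ≤ E')
    (h4 : μ * Δ ≤ E * E' * 2 ^ 11) :
    p * (E * (2 ^ 25 * (μ + 1))) * Δ ≤ q * (2 ^ 27 * Δ + 2 ^ 38 * E) := by
  have a1 : p * E ≤ 4 * q := by
    have b1 : E' ≤ E' ^ 2 := by rw [sq]; exact Nat.le_mul_of_pos_left _ h3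
    have b2 : p * E ≤ p * (2 * E' ^ 2) := Nat.mul_le_mul_left _ (by omega)
    have b3 : p * (2 * E' ^ 2) = 2 * (p * E' ^ 2) := by ring
    omega
  have a2 : p * E * (μ * Δ) ≤ 2 ^ 13 * (q * E) := by
    calc p * E * (μ * Δ) ≤ p * (2 * E') * (E * E' * 2 ^ 11) :=
          Nat.mul_le_mul (Nat.mul_le_mul_left _ h2) h4
      _ = 2 ^ 12 * E * (p * E' ^ 2) := by ring
      _ ≤ 2 ^ 12 * E * (2 * q) := Nat.mul_le_mul_left _ h1
      _ = _ := by ring
  calc _ = 2 ^ 25 * (p * E) * Δ + 2 ^ 25 * (p * E * (μ * Δ)) := by ring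
    _ ≤ 2 ^ 25 * (4 * q) * Δ + 2 ^ 25 * (2 ^ 13 * (q * E)) :=
        Nat.add_le_add (Nat.mul_le_mul_right _ (Nat.mul_le_mul_left _ a1))
          (Nat.mul_le_mul_left _ a2)
    _ = _ := by ring

/-- excess of the moment generating function of one class -/
noncomputable def ex (par : ℕ → Par) (i j : ℕ) : ℝ :=
  (2 : ℝ) ^ ee i * mm i j / (par j).q + ((2 : ℝ) ^ ee i) ^ mm i j * (mm i j : ℝ) ^ 2 / (par j).q ^ 2

lemma ex_nonneg (par : ℕ → Par) (i j : ℕ) : 0 ≤ ex par i j := by unfold ex; positivity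

lemma Nice.ex_le {par : ℕ → Par} (h : Nice par) {I i j : ℕ} (hI : 16 ^ 24 ≤ I) (hj : j ∈ mid I i) :
    (par j).p * ex par i j ≤ 2 ^ 27 + 1 + 2 ^ 38 * 2 ^ ee i * (2 ^ j / 2 ^ i) := by
  obtain ⟨h1, h2, h3⟩ := mem_filter.1 hj
  have hji := mem_range.1 h1
  have hbig : 100 ≤ j := le_trans (by norm_num) (hI.trans h2)
  obtain ⟨e1, e2, -⟩ := ee_spec (i := i) (by omega)
  obtain ⟨⟨-, a2⟩, ⟨a3, -⟩, -⟩ := h j (by omega)
  have he := ee_mono hji.le
  have hej := ee_le j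
  have he' : ee i ≤ ee j + 1 := by
    have : ee i ≤ ee (j * 16) := ee_mono (by omega)
    rwa [ee, ee, Nat.log_mul_base (by norm_num) (by omega)] at this
  have hq : (0 : ℝ) < (par j).q := by exact_mod_cast (par j).q_pos
  have t1 : (par j).p * (2 ^ ee i * mm i j) * 2 ^ (i - j) ≤
      (par j).q * (2 ^ 27 * 2 ^ (i - j) + 2 ^ 38 * 2 ^ ee i) := by
    refine term_one _ _ _ (2 ^ ee j) _ _ ?_ ?_ (Nat.one_le_two_pow) ?_
    · have b1 := Nat.mul_le_mul_right ((2 ^ ee j) ^ 2) a2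
      rw [← pow_mul, ← pow_add] at b1
      have b2 : 2 ^ (2 * j - ee j + 1 + ee j * 2) ≤ 2 ^ (2 * j + ee j + 1) := pw_le (by omega)
      rw [pow_succ] at b2
      rw [← pow_mul]
      omega
    · rw [← pow_succ']; exact pw_le he'
    · rw [← pow_add, ← pow_add]; exact Nat.div_mul_le_self _ _
  have t2 : (2 ^ ee i) ^ mm i j * mm i j ^ 2 ≤ (par j).q := by
    have b1 : mm i j ≤ 2 ^ (2 * ee i + 37) := by
      unfold mm
      have c1 : 2 ^ (ee i + ee j + 11) / 2 ^ (i - j) ≤ 2 ^ (2 * ee i + 11) :=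
        (Nat.div_le_self _ _).trans (pw_le (by omega))
      have c2 : 1 ≤ 2 ^ (2 * ee i + 11) := Nat.one_le_two_pow
      calc _ ≤ 2 ^ 25 * (2 ^ (2 * ee i + 11) + 2 ^ (2 * ee i + 11)) :=
            Nat.mul_le_mul_left _ (by omega)
        _ = _ := by ring
    have b2 : mm i j ^ 2 ≤ (2 ^ mm i j) ^ 2 := Nat.pow_le_pow_left Nat.lt_two_pow_self.le _
    have b3 : (ee i + 2) * mm i j * 2 ≤ i := by
      calc _ ≤ (ee i + 2) * 2 ^ (2 * ee i + 37) * 2 :=
            Nat.mul_le_mul_right _ (Nat.mul_le_mul_left _ b1)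
        _ = (ee i + 2) * 2 ^ 38 * 4 ^ ee i := by rw [pow_add, pow_mul]; ring
        _ ≤ 4 ^ ee i * 4 ^ ee i := Nat.mul_le_mul_right _ (grow _ e1)
        _ = 16 ^ ee i := (mul_pow 4 4 _).symm
        _ ≤ i := e2
    calc _ ≤ (2 ^ ee i) ^ mm i j * (2 ^ mm i j) ^ 2 := Nat.mul_le_mul_left _ b2
      _ = 2 ^ ((ee i + 2) * mm i j) := by rw [← pow_mul, ← pow_mul, ← pow_add]; ring_nf
      _ ≤ 2 ^ (2 * j + ee j) := pw_le (by omega)
      _ ≤ _ := a3.le
  have t3 : (par j).p ≤ (par j).q := a2.trans ((pw_le (by omega)).trans a3.le)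
  have r1 : ((par j).p : ℝ) * (2 ^ ee i * mm i j) * 2 ^ (i - j) ≤
      (par j).q * (2 ^ 27 * 2 ^ (i - j) + 2 ^ 38 * 2 ^ ee i) := by exact_mod_cast t1
  have r2 : ((2 : ℝ) ^ ee i) ^ mm i j * (mm i j : ℝ) ^ 2 ≤ (par j).q := by exact_mod_cast t2
  have r3 : ((par j).p : ℝ) ≤ (par j).q := by exact_mod_cast t3
  have r4 : (2 : ℝ) ^ j / 2 ^ i = 1 / 2 ^ (i - j) := by
    obtain ⟨u, rfl⟩ : ∃ u, i = j + u := ⟨i - j, by omega⟩
    rw [Nat.add_sub_cancel_left, pow_add]; field_simp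
  have r5 : ((par j).p : ℝ) * (2 ^ ee i * mm i j / (par j).q) ≤
      2 ^ 27 + 2 ^ 38 * 2 ^ ee i * (1 / 2 ^ (i - j)) := by
    have : (0 : ℝ) < 2 ^ (i - j) := by positivity
    rw [← mul_div_assoc, div_le_iff₀ hq]
    refine le_of_mul_le_mul_right (r1.trans (le_of_eq ?_)) this
    field_simp
  have r6 : ((par j).p : ℝ) * (((2 : ℝ) ^ ee i) ^ mm i j * (mm i j : ℝ) ^ 2 / (par j).q ^ 2) ≤ 1 := by
    rw [← mul_div_assoc, div_le_one (by positivity), sq ((par j).q : ℝ)]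
    exact mul_le_mul r3 r2 (by positivity) hq.le
  unfold ex
  rw [mul_add, r4]
  linarith

lemma Nice.prod_le {par : ℕ → Par} (h : Nice par) {I i : ℕ} (hI : 16 ^ 24 ≤ I) (hi : I ≤ i) :
    ∏ s ∈ (mid I i).sigma (fun j => (univ : Finset (ZMod (par j).p))), (1 + ex par i s.1) ≤
      2 ^ (2 ^ 40 * i) := by
  have h1 : ∏ s ∈ (mid I i).sigma (fun j => (univ : Finset (ZMod (par j).p))), (1 + ex par i s.1) ≤
      Real.exp (∑ s ∈ (mid I i).sigma (fun j => (univ : Finset (ZMod (par j).p))),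
        ex par i s.1) := by
    rw [Real.exp_sum]
    refine prod_le_prod (fun s _ => by have := ex_nonneg par i s.1; linarith) fun s _ => ?_
    rw [add_comm]; exact Real.add_one_le_exp _
  have h2 : ∑ s ∈ (mid I i).sigma (fun j => (univ : Finset (ZMod (par j).p))), ex par i s.1 ≤
      ((2 ^ 39 * i : ℕ) : ℝ) := by
    rw [sum_sigma]
    have a1 : ∀ j ∈ mid I i, ∑ _X : ZMod (par j).p, ex par i j ≤
        2 ^ 27 + 1 + 2 ^ 38 * 2 ^ ee i * (2 ^ j / 2 ^ i) := by
      intro j hj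
      rw [sum_const, card_univ, ZMod.card, nsmul_eq_mul]
      exact h.ex_le hI hj
    refine (sum_le_sum a1).trans ?_
    refine (sum_le_sum_of_subset_of_nonneg (filter_subset _ _)
      (fun j _ _ => by positivity)).trans ?_
    rw [sum_add_distrib, ← mul_sum, ← sum_div, sum_const, card_range, nsmul_eq_mul]
    have a2 : (∑ j ∈ range i, (2 : ℝ) ^ j) / 2 ^ i ≤ 1 := by
      rw [div_le_one (by positivity)]
      exact_mod_cast (two_pow_sum i).le
    obtain ⟨-, e2, -⟩ := ee_spec (hI.trans hi)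
    have a3 : (2 : ℝ) ^ ee i ≤ i := by
      have : 2 ^ ee i ≤ 16 ^ ee i := Nat.pow_le_pow_left (by norm_num) _
      exact_mod_cast this.trans e2
    have a4 : (2 : ℝ) ^ 38 * 2 ^ ee i * ((∑ j ∈ range i, (2 : ℝ) ^ j) / 2 ^ i) ≤ 2 ^ 38 * i := by
      calc _ ≤ (2 : ℝ) ^ 38 * 2 ^ ee i * 1 := mul_le_mul_of_nonneg_left a2 (by positivity)
        _ ≤ _ := by rw [mul_one]; exact mul_le_mul_of_nonneg_left a3 (by positivity)
    have a5 : (0 : ℝ) ≤ i := by positivity
    push_cast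
    linarith
  refine h1.trans ((Real.exp_le_exp.2 h2).trans ?_)
  rw [← Real.exp_one_pow, show 2 ^ 40 * i = 2 * (2 ^ 39 * i) by ring, pow_mul 2 2]
  refine pow_le_pow_left₀ (Real.exp_pos 1).le ?_ _
  have := Real.exp_one_lt_d9
  linarith

theorem Nice.exists_shift {par : ℕ → Par} (h : Nice par) {I : ℕ} (hI : 16 ^ 24 ≤ I) :
    ∃ ω : (∀ s : (Σ j, ZMod (par j).p), ZMod (par s.1).q × ZMod (par s.1).q),
      ∀ i, I ≤ i → ∀ n < 2 ^ (8 * i + 23), ∀ l : Lay,
        ∑ s ∈ (mid I i).sigma (fun j => (univ : Finset (ZMod (par j).p))),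
          hit (par s.1) (Cand (par i) (par s.1) (fun Y => ω ⟨i, Y⟩) n l s.2) l.2.1 (ω s) <
            TT i := by
  classical
  refine Exists.imp (fun ω hω => ?_) (exists_all_lt (ι := Σ j, ZMod (par j).p)
    (Ω := fun s => ZMod (par s.1).q × ZMod (par s.1).q) (κ := ℕ × Lay)
    (fun i => if I ≤ i then range (2 ^ (8 * i + 23)) ×ˢ univ else ∅)
    (fun i => (mid I i).sigma (fun j => (univ : Finset (ZMod (par j).p))))
    (fun i c s ω => ((2 : ℝ) ^ ee i) ^
      hit (par s.1) (Cand (par i) (par s.1) (fun Y => ω ⟨i, Y⟩) c.1 c.2 s.2) c.2.2.1 (ω s))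
    (fun i s => 1 + ex par i s.1) (fun i => ((2 : ℝ) ^ ee i) ^ TT i)
    (fun i c s ω => by positivity) (fun i s => by have := ex_nonneg par i s.1; linarith)
    (fun i => by positivity) ?_ ?_ ?_ ?_)
  · intro i hi n hn l
    have h1 := hω i (n, l) (by simp [hi, hn])
    rw [prod_pow_eq_pow_sum] at h1
    obtain ⟨e1, -, -⟩ := ee_spec (hI.trans hi)
    exact (pow_lt_pow_iff_right₀ (one_lt_pow₀ (by norm_num) (by omega))).1 h1
  · intro i c s _ t ht hts ω v
    have ht1 : t.1 < i := mem_range.1 (mem_filter.1 (mem_sigma.1 ht).1).1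
    have e1 : (fun Y => update ω t v ⟨i, Y⟩) = fun Y => ω ⟨i, Y⟩ := by
      funext Y
      refine update_of_ne ?_ _ _
      rintro rfl
      exact lt_irrefl _ ht1
    simp only [e1, update_of_ne hts.symm]
  · intro i c _ s hs ω
    obtain ⟨h1, h2, -⟩ := mem_filter.1 (mem_sigma.1 hs).1
    have hs1 : s.1 < i := mem_range.1 h1
    have e1 : ∀ v, (fun Y => update ω s v ⟨i, Y⟩) = fun Y => ω ⟨i, Y⟩ := by
      intro v
      funext Y
      refine update_of_ne ?_ _ _
      rintro rfl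
      exact lt_irrefl _ hs1
    simp only [e1, update_self]
    have h3 : 3 ≤ s.1 := le_trans (by norm_num) (hI.trans h2)
    refine (mgf (par s.1) _ _ _ (h.cand h3 hs1 _ c.1 c.2 s.2) _
      (one_le_pow₀ (by norm_num))).trans (le_of_eq ?_)
    have hq : (0 : ℝ) < (par s.1).q := by exact_mod_cast (par s.1).q_pos
    rw [Fintype.card_prod, ZMod.card]
    unfold ex
    push_cast
    field_simp
    ring
  · intro i
    refine ⟨(mid I i).sigma (fun j => (univ : Finset (ZMod (par j).p))) ∪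
      univ.image (fun Y : ZMod (par i).p => (⟨i, Y⟩ : Σ j, ZMod (par j).p)), ?_⟩
    intro c s hs ω ω' hh
    have e1 : (fun Y => ω ⟨i, Y⟩) = fun Y => ω' ⟨i, Y⟩ := by
      funext Y
      exact hh _ (mem_union_right _ (mem_image.2 ⟨Y, mem_univ _, rfl⟩))
    simp only [e1, hh s (mem_union_left _ hs)]
  · intro i
    by_cases hi : I ≤ i
    swap
    · simp only [hi, if_false, card_empty, Nat.cast_zero, zero_mul]; positivity
    simp only [hi, if_true]
    obtain ⟨e1, -, -⟩ := ee_spec (hI.trans hi)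
    have hi1 : 1 ≤ i := le_trans (by norm_num) (hI.trans hi)
    have a1 : ((range (2 ^ (8 * i + 23)) ×ˢ (univ : Finset Lay)).card : ℝ) ≤ 2 ^ (8 * i + 47) := by
      rw [card_product, card_range, card_univ]
      have := Nat.mul_le_mul_left (2 ^ (8 * i + 23)) card_lay
      rw [← pow_add] at this
      exact_mod_cast this
    have a2 := h.prod_le hI hi
    have a3 : 2 ^ 41 * i ≤ ee i * TT i := by
      unfold TT
      have := Nat.lt_mul_div_succ (2 ^ 41 * i) (show 0 < ee i by omega)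
      exact this.le
    refine (mul_le_mul a1 a2 (prod_nonneg fun s _ => by
      have := ex_nonneg par i s.1; linarith) (by positivity)).trans ?_
    rw [le_div_iff₀ (by positivity), ← pow_mul, ← pow_add, ← pow_add]
    exact pow_le_pow_right₀ (by norm_num) (by omega)

end Pool.Agent.P.MP_d5a1e1_nt.Thin
end

-- part Pool.Agent.P.MP_d5a1e1_nt.Thin
section

/-! A basis of order two with `O(log n / log log n)` representations. -/

namespace Pool.Agent.P.MP_d5a1e1_nt.Thin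

open Finset

lemma Nice.B_range {par : ℕ → Par} (h : Nice par) {i : ℕ} (hi : 3 ≤ i)
    {ω : ZMod (par i).p → ZMod (par i).q × ZMod (par i).q} {a : ℕ} (ha : a ∈ (par i).B ω) :
    2 ^ (8 * i) ≤ a ∧ a < 2 ^ (8 * i + 22) := by
  obtain ⟨a1, a2⟩ := (par i).B_bounds ha
  obtain ⟨a3, a4⟩ := h.N hi
  refine ⟨a3.trans a1, a2.trans_le ?_⟩
  calc _ ≤ 2 ^ 17 * 2 ^ (8 * i + 5) := Nat.mul_le_mul_left _ a4
    _ = _ := by ring

lemma scale_count {par : ℕ → Par} (h : Nice par) {I : ℕ} (hI : 16 ^ 24 ≤ I)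
    (ω : ∀ s : (Σ j, ZMod (par j).p), ZMod (par s.1).q × ZMod (par s.1).q)
    (hω : ∀ i, I ≤ i → ∀ n < 2 ^ (8 * i + 23), ∀ l : Lay,
        ∑ s ∈ (mid I i).sigma (fun j => (univ : Finset (ZMod (par j).p))),
          hit (par s.1) (Cand (par i) (par s.1) (fun Y => ω ⟨i, Y⟩) n l s.2) l.2.1 (ω s) < TT i)
    (i n : ℕ) (hi : 2 * I + 2 ≤ i) (hn : n < 2 ^ (8 * i + 23)) (u : Finset (ℕ × ℕ))
    (hu : ∀ y ∈ u, y.1 ∈ (par i).B (fun X => ω ⟨i, X⟩) ∧
      (y.2 < 2 ^ (8 * I + 8) ∨ ∃ j, I ≤ j ∧ j ≤ i ∧ y.2 ∈ (par j).B (fun X => ω ⟨j, X⟩)) ∧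
      y.1 + y.2 = n) : u.card ≤ 2 ^ 54 + 2 ^ 24 * TT i := by
  classical
  have hI3 : 3 ≤ I := le_trans (by norm_num) hI
  have hsub : u ⊆ u.filter (fun y => y.2 ∈ (par i).B (fun X => ω ⟨i, X⟩)) ∪
      u.filter (fun y => y.2 ≤ (par i).D) ∪
      u.filter (fun y => ∃ j ∈ mid I i, y.2 ∈ (par j).B (fun X => ω ⟨j, X⟩)) := by
    intro y hy
    obtain ⟨-, h2, -⟩ := hu y hy
    obtain ⟨d1, -⟩ := h.D (i := i) (by omega)
    simp only [mem_union, mem_filter]
    rcases h2 with h2 | ⟨j, hj1, hj2, h2⟩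
    · exact Or.inl (Or.inr ⟨hy, h2.le.trans ((pw_le (by omega)).trans d1)⟩)
    · rcases hj2.lt_or_eq with hj | rfl
      · by_cases hm : 4 * i < 8 * j + 22
        · exact Or.inr ⟨hy, j, mem_filter.2 ⟨mem_range.2 hj, hj1, hm⟩, h2⟩
        · have := (h.B_range (by omega) h2).2
          exact Or.inl (Or.inr ⟨hy, this.le.trans ((pw_le (by omega)).trans d1)⟩)
      · exact Or.inl (Or.inl ⟨hy, h2⟩)
  have c1 := (par i).same (fun X => ω ⟨i, X⟩) n
    (u.filter (fun y => y.2 ∈ (par i).B (fun X => ω ⟨i, X⟩))) (fun y hy =>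
      ⟨(hu y (mem_filter.1 hy).1).1, (mem_filter.1 hy).2, (hu y (mem_filter.1 hy).1).2.2⟩)
  have c2 : (u.filter (fun y => y.2 ≤ (par i).D)).card ≤ 2 ^ 25 := by
    have hinj : Set.InjOn (fun y : ℕ × ℕ => y.1) (u.filter (fun y => y.2 ≤ (par i).D)) := by
      intro y hy y' hy' e
      have a1 := (hu y (mem_filter.1 hy).1).2.2
      have a2 := (hu y' (mem_filter.1 hy').1).2.2
      simp only at e
      exact Prod.ext e (by omega)
    rw [← card_image_of_injOn hinj]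
    refine (par i).window (fun X => ω ⟨i, X⟩) _ ?_ ?_
    · intro a ha
      obtain ⟨y, hy, rfl⟩ := mem_image.1 ha
      exact (hu y (mem_filter.1 hy).1).1
    · intro a ha a' ha'
      obtain ⟨y, hy, rfl⟩ := mem_image.1 ha
      obtain ⟨y', hy', rfl⟩ := mem_image.1 ha'
      have a1 := (hu y (mem_filter.1 hy).1).2.2
      have a2 := (hu y' (mem_filter.1 hy').1).2.2
      have a3 := (mem_filter.1 hy).2
      omega
  have c3 := mid_card (par i) (fun X => ω ⟨i, X⟩) par ω (mid I i) n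
    (u.filter (fun y => ∃ j ∈ mid I i, y.2 ∈ (par j).B (fun X => ω ⟨j, X⟩))) (fun y hy =>
      ⟨(hu y (mem_filter.1 hy).1).1, (mem_filter.1 hy).2, (hu y (mem_filter.1 hy).1).2.2⟩)
  have c4 := c3.trans (sum_le_card_nsmul _ _ (TT i) (fun l _ => (hω i (by omega) n hn l).le))
  rw [card_univ, smul_eq_mul] at c4
  have c5 := c4.trans (Nat.mul_le_mul_right _ card_lay)
  have c6 := (card_le_card hsub).trans
    ((card_union_le _ _).trans (Nat.add_le_add_right (card_union_le _ _) _))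
  omega

lemma log_low {a n : ℕ} (h : 2 ^ a ≤ n) : (a : ℝ) / 2 ≤ Real.log n := by
  have b1 : ((2 : ℝ) ^ a) ≤ n := by exact_mod_cast h
  have b2 := Real.log_le_log (by positivity) b1
  rw [Real.log_pow] at b2
  have l2 := Real.log_two_gt_d9
  have b3 : (a : ℝ) * (1 / 2) ≤ (a : ℝ) * Real.log 2 :=
    mul_le_mul_of_nonneg_left (by linarith only [l2]) (by positivity)
  linarith only [b2, b3]

lemma log_up {a : ℕ} {x : ℝ} (h0 : 0 < x) (h : x ≤ 2 ^ a) : Real.log x ≤ a := by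
  have b2 := Real.log_le_log h0 h
  rw [Real.log_pow] at b2
  have l2 := Real.log_two_lt_d9
  have b3 : (a : ℝ) * Real.log 2 ≤ (a : ℝ) * 1 :=
    mul_le_mul_of_nonneg_left (by linarith only [l2]) (by positivity)
  linarith only [b2, b3]

lemma asym {i n : ℕ} (hi : 16 ^ 24 ≤ i) (h1 : 2 ^ (8 * i) ≤ n) (h2 : n < 2 ^ (8 * i + 23)) :
    ((2 ^ 54 + 2 ^ 24 * TT i : ℕ) : ℝ) ≤ 2 ^ 70 * (Real.log n / Real.log (Real.log n)) := by
  obtain ⟨e1, -, e3⟩ := ee_spec hi
  have hi3 : 3 ≤ i := le_trans (by norm_num) hi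
  have r3 : (3 : ℝ) ≤ i := by exact_mod_cast hi3
  have hn0 : (0 : ℝ) < n := by
    have : 0 < n := lt_of_lt_of_le (by positivity) h1
    exact_mod_cast this
  have a1 : (i : ℝ) ≤ Real.log n := by
    have b1 := log_low h1
    push_cast at b1
    linarith only [b1, r3]
  have a2 : Real.log n ≤ 16 * i := by
    have b1 : (n : ℝ) ≤ (2 : ℝ) ^ (8 * i + 23) := by exact_mod_cast h2.le
    have b2 := log_up hn0 b1
    push_cast at b2
    linarith only [b2, r3]
  have a3 : 0 < Real.log (Real.log n) := Real.log_pos (by linarith only [a1, r3])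
  have re : (24 : ℝ) ≤ ee i := by exact_mod_cast e1
  have a4 : Real.log (Real.log n) ≤ 6 * ee i := by
    have b1 : (16 * i : ℝ) ≤ 2 ^ (4 * (ee i + 2)) := by
      have : 16 * i ≤ 2 ^ (4 * (ee i + 2)) := by
        rw [pow_mul, show 2 ^ 4 = 16 by norm_num, pow_succ' 16 (ee i + 1)]
        exact Nat.mul_le_mul_left _ e3.le
      exact_mod_cast this
    have b2 := log_up (by linarith only [a1, r3]) (a2.trans b1)
    push_cast at b2
    linarith only [b2, re]
  have a5 : 1 ≤ Real.log n / Real.log (Real.log n) := by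
    rw [one_le_div a3]
    exact (Real.log_le_sub_one_of_pos (by linarith only [a1, r3])).trans (by linarith only [])
  have a6 : (i : ℝ) / ee i ≤ 6 * (Real.log n / Real.log (Real.log n)) := by
    rw [← mul_div_assoc, div_le_div_iff₀ (by linarith only [re]) a3]
    calc (i : ℝ) * Real.log (Real.log n) ≤ Real.log n * (6 * ee i) :=
          mul_le_mul a1 a4 a3.le (by linarith only [a1, r3])
      _ = _ := by ring
  have a7 : (TT i : ℝ) ≤ 2 ^ 41 * ((i : ℝ) / ee i) + 1 := by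
    unfold TT
    have := Nat.cast_div_le (α := ℝ) (m := 2 ^ 41 * i) (n := ee i)
    rw [Nat.cast_mul, Nat.cast_pow, Nat.cast_ofNat] at this
    rw [← mul_div_assoc, Nat.cast_add, Nat.cast_one]
    exact add_le_add this le_rfl
  rw [Nat.cast_add, Nat.cast_mul, Nat.cast_pow, Nat.cast_pow, Nat.cast_ofNat]
  linarith only [a5, a6, a7]

theorem thin_basis : ∃ A : Set ℕ, (∀ n : ℕ, ∃ a ∈ A, ∃ b ∈ A, a + b = n) ∧
    ∃ C : ℝ, ∃ N : ℕ, ∀ n : ℕ, N ≤ n →
      (Set.ncard {y : ℕ × ℕ | y.1 ∈ A ∧ y.2 ∈ A ∧ y.1 + y.2 = n} : ℝ) ≤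
        C * (Real.log n / Real.log (Real.log n)) := by
  classical
  obtain ⟨par, hpar⟩ := exists_par
  have h : Nice par := hpar
  obtain ⟨I, hI⟩ : ∃ I : ℕ, 16 ^ 24 ≤ I := ⟨_, le_rfl⟩
  have hI3 : 3 ≤ I := le_trans (by norm_num) hI
  obtain ⟨ω, hω⟩ := h.exists_shift hI
  refine ⟨{a | a < 2 ^ (8 * I + 8) ∨ ∃ i, I ≤ i ∧ a ∈ (par i).B (fun X => ω ⟨i, X⟩)}, ?_,
    8 * 2 ^ 70, 2 ^ (16 * I + 39), ?_⟩
  · intro n
    by_cases hn : n < 2 ^ (8 * I + 8)
    · exact ⟨n, Or.inl hn, 0, Or.inl (by positivity), rfl⟩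
    have hn0 : n ≠ 0 := by
      have : 0 < 2 ^ (8 * I + 8) := by positivity
      omega
    have a1 := Nat.pow_log_le_self 2 hn0
    have a2 := Nat.lt_pow_succ_log_self (b := 2) (by norm_num) n
    have a3 : 8 * I + 8 ≤ Nat.log 2 n := Nat.le_log_of_pow_le (by norm_num) (by omega)
    obtain ⟨i, hi⟩ : ∃ i, i + 1 = Nat.log 2 n / 8 := ⟨Nat.log 2 n / 8 - 1, by omega⟩
    obtain ⟨b1, b2⟩ := h.N (i := i) (by omega)
    obtain ⟨a, ha, b, hb, e⟩ := (par i).cover (fun X => ω ⟨i, X⟩) n (by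
      have c1 : 2 ^ (8 * i + 5 + 3) ≤ 2 ^ Nat.log 2 n := pw_le (by omega)
      rw [pow_add] at c1
      omega) (by
      have c1 : 2 ^ (Nat.log 2 n).succ ≤ 2 ^ (8 * i + 16) := pw_le (by omega)
      rw [pow_add _ (8 * i)] at c1
      omega)
    exact ⟨a, Or.inr ⟨i, by omega, ha⟩, b, Or.inr ⟨i, by omega, hb⟩, e⟩
  · intro n hn
    have hn0 : n ≠ 0 := by
      have : 0 < 2 ^ (16 * I + 39) := by positivity
      omega
    have a1 := Nat.pow_log_le_self 2 hn0
    have a2 := Nat.lt_pow_succ_log_self (b := 2) (by norm_num) n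
    have a3 : 16 * I + 39 ≤ Nat.log 2 n := Nat.le_log_of_pow_le (by norm_num) hn
    set A : Set ℕ := {a | a < 2 ^ (8 * I + 8) ∨ ∃ i, I ≤ i ∧ a ∈ (par i).B (fun X => ω ⟨i, X⟩)}
      with hA
    have hfin : {y : ℕ × ℕ | y.1 ∈ A ∧ y.2 ∈ A ∧ y.1 + y.2 = n}.Finite :=
      (antidiagonal n).finite_toSet.subset fun y hy =>
        mem_coe.2 (HasAntidiagonal.mem_antidiagonal.2 hy.2.2)
    rw [Set.ncard_eq_toFinset_card _ hfin]
    have ht : ∀ y ∈ hfin.toFinset, y.1 ∈ A ∧ y.2 ∈ A ∧ y.1 + y.2 = n :=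
      fun y hy => hfin.mem_toFinset.1 hy
    generalize hfin.toFinset = t at ht
    let P : ℕ → ℕ × ℕ → Prop := fun i y => y.1 ∈ (par i).B (fun X => ω ⟨i, X⟩) ∧
      (y.2 < 2 ^ (8 * I + 8) ∨ ∃ j, I ≤ j ∧ j ≤ i ∧ y.2 ∈ (par j).B (fun X => ω ⟨j, X⟩)) ∧
      y.1 + y.2 = n
    let J : Finset ℕ := (Icc (Nat.log 2 n / 8 - 3) (Nat.log 2 n / 8)).filter
      (fun i => 2 * I + 2 ≤ i ∧ 2 ^ (8 * i) ≤ n ∧ n < 2 ^ (8 * i + 23))
    have hJ : ∀ i y, I ≤ i → P i y → i ∈ J := by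
      rintro i y hi ⟨p1, p2, p3⟩
      obtain ⟨b1, b2⟩ := h.B_range (by omega) p1
      have b3 : y.2 < 2 ^ (8 * i + 22) := by
        rcases p2 with p2 | ⟨j, hj1, hj2, p2⟩
        · exact p2.trans_le (pw_le (by omega))
        · exact (h.B_range (by omega) p2).2.trans_le (pw_le (by omega))
      have b4 : n < 2 ^ (8 * i + 23) := by rw [pow_succ]; omega
      have b5 : 2 ^ (8 * i) ≤ n := by omega
      have b6 : 8 * i ≤ Nat.log 2 n := Nat.le_log_of_pow_le (by norm_num) b5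
      have b7 : Nat.log 2 n < 8 * i + 23 := Nat.log_lt_of_lt_pow hn0 b4
      exact mem_filter.2 ⟨mem_Icc.2 ⟨by omega, by omega⟩, by omega, b5, b4⟩
    have hsub : t ⊆ J.biUnion (fun i => t.filter (fun y => P i y) ∪ t.filter (fun y => P i y.swap)) := by
      intro y hy
      obtain ⟨h1, h2, h3⟩ := ht y hy
      have key : ∃ i, I ≤ i ∧ (P i y ∨ P i y.swap) := by
        rcases h1 with h1 | ⟨i, hi, h1⟩
        · rcases h2 with h2 | ⟨j, hj, h2⟩
          · exfalso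
            have : 2 ^ (8 * I + 8 + 1) ≤ 2 ^ (16 * I + 39) := pw_le (by omega)
            rw [pow_succ] at this
            omega
          · exact ⟨j, hj, Or.inr ⟨h2, Or.inl h1, by simp only [Prod.fst_swap, Prod.snd_swap]; omega⟩⟩
        · rcases h2 with h2 | ⟨j, hj, h2⟩
          · exact ⟨i, hi, Or.inl ⟨h1, Or.inl h2, h3⟩⟩
          · rcases le_total j i with hji | hji
            · exact ⟨i, hi, Or.inl ⟨h1, Or.inr ⟨j, hj, hji, h2⟩, h3⟩⟩
            · exact ⟨j, hj, Or.inr ⟨h2, Or.inr ⟨i, hi, hji, h1⟩,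
                by simp only [Prod.fst_swap, Prod.snd_swap]; omega⟩⟩
      obtain ⟨i, hi, hP⟩ := key
      refine mem_biUnion.2 ⟨i, hP.elim (hJ i _ hi) (hJ i _ hi), ?_⟩
      rcases hP with hP | hP
      · exact mem_union_left _ (mem_filter.2 ⟨hy, hP⟩)
      · exact mem_union_right _ (mem_filter.2 ⟨hy, hP⟩)
    have c1 := (card_le_card hsub).trans card_biUnion_le
    have c2 : ∀ i ∈ J, ((t.filter (fun y => P i y) ∪ t.filter (fun y => P i y.swap)).card : ℝ) ≤
        2 * (2 ^ 70 * (Real.log n / Real.log (Real.log n))) := by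
      intro i hi
      obtain ⟨-, d1, d2, d3⟩ := mem_filter.1 hi
      have d4 := scale_count h hI ω hω i n d1 d3 (t.filter (fun y => P i y))
        (fun y hy => (mem_filter.1 hy).2)
      have d5 := scale_count h hI ω hω i n d1 d3 ((t.filter (fun y => P i y.swap)).image Prod.swap)
        (fun y hy => by
          obtain ⟨z, hz, rfl⟩ := mem_image.1 hy
          exact (mem_filter.1 hz).2)
      rw [card_image_of_injective _ Prod.swap_injective] at d5
      have d6 := (card_union_le _ _).trans (Nat.add_le_add d4 d5)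
      have d7 := asym (i := i) (n := n) (by omega) d2 d3
      have d8 := (Nat.cast_le (α := ℝ)).2 d6
      rw [Nat.cast_add] at d8
      exact d8.trans (by rw [two_mul]; exact add_le_add d7 d7)
    have c3 : J.card ≤ 4 := (card_filter_le _ _).trans (by rw [Nat.card_Icc]; omega)
    have c4 := (Nat.cast_le (α := ℝ)).2 c1
    rw [Nat.cast_sum] at c4
    have c5 := c4.trans (sum_le_card_nsmul _ _ _ c2)
    rw [nsmul_eq_mul] at c5
    have c6 : (J.card : ℝ) ≤ 4 := by exact_mod_cast c3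
    have c7 : 0 ≤ Real.log n / Real.log (Real.log n) := by
      have b2 := log_low (a := 39) ((pw_le (by omega)).trans hn)
      push_cast at b2
      exact div_nonneg (by linarith only [b2]) (Real.log_nonneg (by linarith only [b2]))
    have c8 := mul_le_mul_of_nonneg_right c6
      (show 0 ≤ 2 * (2 ^ 70 * (Real.log n / Real.log (Real.log n))) by positivity)
    linarith only [c5, c8]

end Pool.Agent.P.MP_d5a1e1_nt.Thin
end

-- part Pool.Agent.P.MP_d5a1e1_nt.Left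
section

/-! A counting argument that replaces the union bound when each event only looks back a short way. -/

namespace Pool.Agent.P.MP_d5a1e1_nt.Thin

open Finset Function

variable {ι : Type} [DecidableEq ι] {Ω : ι → Type} [∀ s, Fintype (Ω s)] [∀ s, Nonempty (Ω s)]

lemma half_sum (E : Finset ℕ) : ∑ e ∈ E, (1 : ℝ) / 2 ^ (e + 2) ≤ 1 / 2 := by
  obtain ⟨I, hI⟩ : ∃ I, E ⊆ range I := ⟨E.sup id + 1, fun e he =>
    mem_range.2 (Nat.lt_succ_of_le (le_sup (f := id) he))⟩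
  have h4 : ∀ I : ℕ, ∑ i ∈ range I, (1 : ℝ) / 2 ^ (i + 2) = 1 / 2 - 1 / 2 ^ (I + 1) := by
    intro I
    induction I with
    | zero => simp
    | succ I ih => rw [sum_range_succ, ih]; field_simp; ring
  refine (sum_le_sum_of_subset_of_nonneg hI (fun j _ _ => by positivity)).trans ?_
  rw [h4]
  have : (0 : ℝ) < 1 / 2 ^ (I + 1) := by positivity
  linarith

theorem exists_left {κ : Type} (lev : ι → ℕ) (sw : ℕ → ℕ) (E : ℕ → Finset ℕ) (cs : ℕ → Finset κ)
    (M : ℕ → ℕ → Finset ι) (f : ℕ → ℕ → κ → ι → (∀ s, Ω s) → ℝ) (b : ℕ → ℕ → ι → ℝ)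
    (θ : ℕ → ℕ → ℝ) (hf0 : ∀ i e c s ω, 0 ≤ f i e c s ω) (hb0 : ∀ i e s, 0 ≤ b i e s)
    (hθ : ∀ i e, 0 < θ i e)
    (hinv : ∀ i e c, ∀ s ∈ M i e, ∀ t ∈ M i e, t ≠ s → ∀ ω v,
      f i e c s (update ω t v) = f i e c s ω)
    (hb : ∀ i, ∀ e ∈ E i, ∀ c ∈ cs i, ∀ s ∈ M i e, ∀ ω,
      ∑ v, f i e c s (update ω s v) ≤ b i e s * Fintype.card (Ω s))
    (hM : ∀ i e, ∀ s ∈ M i e, i ≤ lev s + sw e)
    (hlev : ∀ i e c, ∀ s ∈ M i e, ∀ t, i < lev t → ∀ ω v, f i e c s (update ω t v) = f i e c s ω)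
    (hdep : ∀ i, ∃ S : Finset ι, ∀ e c, ∀ s ∈ M i e, ∀ ω ω' : (∀ s, Ω s),
      (∀ t ∈ S, ω t = ω' t) → f i e c s ω = f i e c s ω')
    (hsum : ∀ i, ∀ e ∈ E i, (cs i).card * ∏ s ∈ M i e, b i e s ≤ θ i e / 2 ^ (sw e + e + 2)) :
    ∃ ω : (∀ s, Ω s), ∀ i, ∀ e ∈ E i, ∑ c ∈ cs i, ∏ s ∈ M i e, f i e c s ω < θ i e := by
  classical
  have fin : ∀ I : ℕ, ∃ ω : (∀ s, Ω s), ∀ i < I, ∀ e ∈ E i,
      ∑ c ∈ cs i, ∏ s ∈ M i e, f i e c s ω < θ i e := by
    intro I
    obtain ⟨G, hne, hG⟩ := exists_closed (Ω := Ω)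
      ((range I).biUnion (fun i => (E i).biUnion (M i)))
    let Gd : ℕ → Finset (∀ s, Ω s) := fun t => G.filter (fun ω => ∀ i < t, ∀ e ∈ E i,
      ∑ c ∈ cs i, ∏ s ∈ M i e, f i e c s ω < θ i e)
    have step : ∀ t, t ≤ I → ∀ u ≤ t, ((Gd u).card : ℝ) ≤ 2 ^ (t - u) * (Gd t).card := by
      intro t
      induction t with
      | zero => intro _ u hu; obtain rfl : u = 0 := by omega
                simp
      | succ t ih =>
        intro ht
        have ih' := ih (by omega)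
        have main : ((Gd t).card : ℝ) ≤ 2 * (Gd (t + 1)).card := by
          have hsub : Gd t ⊆ Gd (t + 1) ∪ (E t).biUnion (fun e => (Gd (t - sw e)).filter
              (fun ω => θ t e ≤ ∑ c ∈ cs t, ∏ s ∈ M t e, f t e c s ω)) := by
            intro ω hω
            obtain ⟨h1, h2⟩ := mem_filter.1 hω
            by_cases hall : ∀ e ∈ E t, ∑ c ∈ cs t, ∏ s ∈ M t e, f t e c s ω < θ t e
            · refine mem_union_left _ (mem_filter.2 ⟨h1, fun i hi => ?_⟩)
              rcases Nat.lt_succ_iff_lt_or_eq.1 hi with hi | rfl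
              · exact h2 i hi
              · exact hall
            · push Not at hall
              obtain ⟨e, he, h3⟩ := hall
              exact mem_union_right _ (mem_biUnion.2 ⟨e, he, mem_filter.2
                ⟨mem_filter.2 ⟨h1, fun i hi => h2 i (by omega)⟩, h3⟩⟩)
          have h1 : ∀ e ∈ E t, (((Gd (t - sw e)).filter
              (fun ω => θ t e ≤ ∑ c ∈ cs t, ∏ s ∈ M t e, f t e c s ω)).card : ℝ) ≤
              (Gd t).card * (1 / 2 ^ (e + 2)) := by
            intro e he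
            have hcl : ∀ ω ∈ Gd (t - sw e), ∀ s ∈ M t e, ∀ v, update ω s v ∈ Gd (t - sw e) := by
              intro ω hω s hs v
              obtain ⟨h1, h2⟩ := mem_filter.1 hω
              refine mem_filter.2 ⟨hG ω h1 s (mem_biUnion.2 ⟨t, mem_range.2 (by omega),
                mem_biUnion.2 ⟨e, he, hs⟩⟩) v, fun i hi e' he' => ?_⟩
              have hl := hM t e s hs
              have : ∑ c ∈ cs i, ∏ s' ∈ M i e', f i e' c s' (update ω s v) =
                  ∑ c ∈ cs i, ∏ s' ∈ M i e', f i e' c s' ω :=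
                sum_congr rfl fun c _ => prod_congr rfl fun s' hs' =>
                  hlev i e' c s' hs' s (by omega) ω v
              rw [this]
              exact h2 i hi e' he'
            have a1 : ∑ ω ∈ Gd (t - sw e), ∑ c ∈ cs t, ∏ s ∈ M t e, f t e c s ω ≤
                θ t e / 2 ^ (sw e + e + 2) * (Gd (t - sw e)).card := by
              rw [sum_comm]
              refine (sum_le_sum fun c hc => sum_prod_le (Gd (t - sw e)) (M t e) hcl (f t e c)
                (b t e) (hf0 t e c) (hb0 t e) (hinv t e c) (hb t e he c hc)).trans ?_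
              rw [sum_const, nsmul_eq_mul, ← mul_assoc]
              exact mul_le_mul_of_nonneg_right (hsum t e he) (by positivity)
            have a2 : (((Gd (t - sw e)).filter
                (fun ω => θ t e ≤ ∑ c ∈ cs t, ∏ s ∈ M t e, f t e c s ω)).card : ℝ) * θ t e ≤
                ∑ ω ∈ Gd (t - sw e), ∑ c ∈ cs t, ∏ s ∈ M t e, f t e c s ω := by
              rw [← nsmul_eq_mul]
              refine (card_nsmul_le_sum _ _ _ (fun ω hω => (mem_filter.1 hω).2)).trans ?_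
              exact sum_le_sum_of_subset_of_nonneg (filter_subset _ _) (fun ω _ _ =>
                sum_nonneg fun c _ => prod_nonneg fun s _ => hf0 t e c s ω)
            have a3 := ih' (t - sw e) (by omega)
            have a4 : (2 : ℝ) ^ (t - (t - sw e)) ≤ 2 ^ sw e :=
              pow_le_pow_right₀ (by norm_num) (by omega)
            have a5 : ((Gd (t - sw e)).card : ℝ) ≤ 2 ^ sw e * (Gd t).card :=
              a3.trans (mul_le_mul_of_nonneg_right a4 (by positivity))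
            have hθ' := hθ t e
            have a6 := a2.trans (a1.trans (mul_le_mul_of_nonneg_left a5 (by positivity)))
            refine le_of_mul_le_mul_right (a6.trans (le_of_eq ?_)) hθ'
            rw [add_assoc, pow_add]
            field_simp
          have h2 := (card_le_card hsub).trans
            ((card_union_le _ _).trans (Nat.add_le_add_left card_biUnion_le _))
          have h3 := (Nat.cast_le (α := ℝ)).2 h2
          rw [Nat.cast_add, Nat.cast_sum] at h3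
          have h4 := sum_le_sum h1
          rw [← mul_sum] at h4
          have h5 := mul_le_mul_of_nonneg_left (half_sum (E t))
            (show (0 : ℝ) ≤ (Gd t).card by positivity)
          linarith
        intro u hu
        rcases Nat.le_succ_iff.1 hu with hu | rfl
        · have := ih' u hu
          rw [show t + 1 - u = (t - u) + 1 by omega, pow_succ, mul_assoc]
          exact this.trans (mul_le_mul_of_nonneg_left main (by positivity))
        · simp
    have h0 : (0 : ℝ) < (Gd 0).card := by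
      have : Gd 0 = G := filter_true_of_mem (fun ω _ i hi => absurd hi (Nat.not_lt_zero _))
      rw [this]
      exact_mod_cast hne.card_pos
    have h1 := h0.trans_le (step I le_rfl 0 (Nat.zero_le _))
    have h2 : 0 < (Gd I).card := by
      by_contra h
      have : (Gd I).card = 0 := by omega
      rw [this] at h1
      simp at h1
    obtain ⟨ω, hω⟩ := card_pos.1 h2
    exact ⟨ω, (mem_filter.1 hω).2⟩
  choose W hW using fin
  have lim : ∀ s, ∃ v : Ω s, {I | W I s = v} ∈ Filter.hyperfilter ℕ := by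
    intro s
    obtain ⟨v, hv⟩ := Ultrafilter.eq_pure_of_finite ((Filter.hyperfilter ℕ).map (fun I => W I s))
    refine ⟨v, ?_⟩
    have : ({v} : Set (Ω s)) ∈ (Filter.hyperfilter ℕ).map (fun I => W I s) := by
      rw [hv]; simp
    exact this
  choose ω hω using lim
  refine ⟨ω, fun i e he => ?_⟩
  obtain ⟨S, hS⟩ := hdep i
  have h1 : ∀ᶠ I in (Filter.hyperfilter ℕ : Filter ℕ), ∀ t ∈ S, W I t = ω t :=
    (Filter.eventually_all_finset S).2 fun t _ => hω t
  have h2 : ∀ᶠ I in (Filter.hyperfilter ℕ : Filter ℕ), i < I := by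
    refine Filter.hyperfilter_le_cofinite ?_
    rw [Nat.cofinite_eq_atTop]
    exact Filter.eventually_gt_atTop i
  obtain ⟨I, hI1, hI2⟩ := (h1.and h2).exists
  have : ∑ c ∈ cs i, ∏ s ∈ M i e, f i e c s ω = ∑ c ∈ cs i, ∏ s ∈ M i e, f i e c s (W I) :=
    sum_congr rfl fun c _ => prod_congr rfl fun s hs => (hS e c s hs _ _ hI1).symm
  rw [this]
  exact hW I i hI2 e he

end Pool.Agent.P.MP_d5a1e1_nt.Thin
end

-- part Pool.Agent.P.MP_d5a1e1_nt.MomShift
section

/-! Choice of the shifts with tail bounds at every level. -/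

namespace Pool.Agent.P.MP_d5a1e1_nt.Thin

open Finset Function

/-- threshold at level `e` -/
def kk (e : ℕ) : ℕ := 2 ^ 41 * 16 ^ e

/-- length of the window at level `e` -/
def sw (e : ℕ) : ℕ := 2 ^ 9 * (e * 16 ^ e)

def win (I i e : ℕ) : Finset ℕ := (mid I i).filter (fun j => i ≤ j + sw e)

noncomputable def exw (par : ℕ → Par) (e i j : ℕ) : ℝ :=
  (2 : ℝ) ^ e * mm i j / (par j).q + ((2 : ℝ) ^ e) ^ mm i j * (mm i j : ℝ) ^ 2 / (par j).q ^ 2

lemma exw_nonneg (par : ℕ → Par) (e i j : ℕ) : 0 ≤ exw par e i j := by unfold exw; positivity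

lemma exw_le (par : ℕ → Par) {e i : ℕ} (he : e ≤ ee i) (j : ℕ) :
    exw par e i j * 2 ^ ee i ≤ 2 ^ e * ex par i j := by
  obtain ⟨m, hm⟩ : ∃ m, mm i j = m + 1 := ⟨mm i j - 1, by
    have : 0 < mm i j := by unfold mm; positivity
    omega⟩
  have h1 : ((2 : ℝ) ^ e) ^ m ≤ ((2 : ℝ) ^ ee i) ^ m :=
    pow_le_pow_left₀ (by positivity) (pow_le_pow_right₀ (by norm_num) he) _
  unfold exw ex
  rw [hm]
  have h2 := mul_le_mul_of_nonneg_right h1 (show (0 : ℝ) ≤ 2 ^ e * 2 ^ ee i *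
    (((m + 1 : ℕ) : ℝ) ^ 2 / (par j).q ^ 2) by positivity)
  calc _ = 2 ^ e * (2 ^ ee i * ((m + 1 : ℕ) : ℝ) / (par j).q) + ((2 : ℝ) ^ e) ^ m *
        (2 ^ e * 2 ^ ee i * (((m + 1 : ℕ) : ℝ) ^ 2 / (par j).q ^ 2)) := by ring
    _ ≤ 2 ^ e * (2 ^ ee i * ((m + 1 : ℕ) : ℝ) / (par j).q) + ((2 : ℝ) ^ ee i) ^ m *
        (2 ^ e * 2 ^ ee i * (((m + 1 : ℕ) : ℝ) ^ 2 / (par j).q ^ 2)) := by linarith
    _ = _ := by ring

lemma Nice.exw_le {par : ℕ → Par} (h : Nice par) {I i j e : ℕ} (hI : 16 ^ 24 ≤ I)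
    (hj : j ∈ mid I i) (he : e ≤ ee i) :
    (par j).p * exw par e i j ≤ 2 ^ 27 + 1 + 2 ^ 38 * 2 ^ e * (2 ^ j / 2 ^ i) := by
  have h1 := h.ex_le hI hj
  have h2 := Thin.exw_le par he j
  have h3 : (2 : ℝ) ^ e ≤ 2 ^ ee i := pow_le_pow_right₀ (by norm_num) he
  have h0 : (0 : ℝ) < 2 ^ ee i := by positivity
  refine le_of_mul_le_mul_right ?_ h0
  calc _ = (par j).p * (exw par e i j * 2 ^ ee i) := by ring
    _ ≤ (par j).p * (2 ^ e * ex par i j) := mul_le_mul_of_nonneg_left h2 (by positivity)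
    _ = 2 ^ e * ((par j).p * ex par i j) := by ring
    _ ≤ 2 ^ e * (2 ^ 27 + 1 + 2 ^ 38 * 2 ^ ee i * (2 ^ j / 2 ^ i)) :=
        mul_le_mul_of_nonneg_left h1 (by positivity)
    _ = (2 ^ 27 + 1) * 2 ^ e + 2 ^ 38 * 2 ^ e * (2 ^ j / 2 ^ i) * 2 ^ ee i := by ring
    _ ≤ (2 ^ 27 + 1) * 2 ^ ee i + 2 ^ 38 * 2 ^ e * (2 ^ j / 2 ^ i) * 2 ^ ee i := by
        have := mul_le_mul_of_nonneg_left h3 (show (0 : ℝ) ≤ 2 ^ 27 + 1 by positivity)
        linarith
    _ = _ := by ring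

lemma win_card (I i e : ℕ) : (win I i e).card ≤ sw e := by
  have : win I i e ⊆ Ico (i - sw e) i := by
    intro j hj
    obtain ⟨h1, h2⟩ := mem_filter.1 hj
    have := mem_range.1 (mem_filter.1 h1).1
    exact mem_Ico.2 ⟨by omega, this⟩
  refine (card_le_card this).trans ?_
  rw [Nat.card_Ico]
  omega

lemma Nice.prodw_le {par : ℕ → Par} (h : Nice par) {I i e : ℕ} (hI : 16 ^ 24 ≤ I)
    (he : e ≤ ee i) :
    ∏ s ∈ (win I i e).sigma (fun j => (univ : Finset (ZMod (par j).p))), (1 + exw par e i s.1) ≤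
      2 ^ (2 ^ 29 * sw e + 2 ^ 39 * 2 ^ e) := by
  have h1 : ∏ s ∈ (win I i e).sigma (fun j => (univ : Finset (ZMod (par j).p))),
      (1 + exw par e i s.1) ≤
      Real.exp (∑ s ∈ (win I i e).sigma (fun j => (univ : Finset (ZMod (par j).p))),
        exw par e i s.1) := by
    rw [Real.exp_sum]
    refine prod_le_prod (fun s _ => by have := exw_nonneg par e i s.1; linarith) fun s _ => ?_
    rw [add_comm]; exact Real.add_one_le_exp _
  have h2 : ∑ s ∈ (win I i e).sigma (fun j => (univ : Finset (ZMod (par j).p))), exw par e i s.1 ≤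
      ((2 ^ 28 * sw e + 2 ^ 38 * 2 ^ e : ℕ) : ℝ) := by
    rw [sum_sigma]
    have a1 : ∀ j ∈ win I i e, ∑ _X : ZMod (par j).p, exw par e i j ≤
        2 ^ 27 + 1 + 2 ^ 38 * 2 ^ e * (2 ^ j / 2 ^ i) := by
      intro j hj
      rw [sum_const, card_univ, ZMod.card, nsmul_eq_mul]
      exact h.exw_le hI (mem_filter.1 hj).1 he
    refine (sum_le_sum a1).trans ?_
    rw [sum_add_distrib, ← mul_sum, ← sum_div, sum_const, nsmul_eq_mul]
    have a2 : (∑ j ∈ win I i e, (2 : ℝ) ^ j) / 2 ^ i ≤ 1 := by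
      rw [div_le_one (by positivity)]
      refine (sum_le_sum_of_subset_of_nonneg ((filter_subset _ _).trans (filter_subset _ _))
        (fun j _ _ => by positivity)).trans ?_
      exact_mod_cast (two_pow_sum i).le
    have a3 : ((win I i e).card : ℝ) ≤ sw e := by exact_mod_cast win_card I i e
    have a4 := mul_le_mul_of_nonneg_left a2 (show (0 : ℝ) ≤ 2 ^ 38 * 2 ^ e by positivity)
    have a5 : (0 : ℝ) ≤ sw e := by positivity
    push_cast
    nlinarith
  refine h1.trans ((Real.exp_le_exp.2 h2).trans ?_)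
  rw [← Real.exp_one_pow, show 2 ^ 29 * sw e + 2 ^ 39 * 2 ^ e =
    2 * (2 ^ 28 * sw e + 2 ^ 38 * 2 ^ e) by ring, pow_mul 2 2]
  refine pow_le_pow_left₀ (Real.exp_pos 1).le ?_ _
  have := Real.exp_one_lt_d9
  linarith

/-- number of hits of the window -/
def HH (par : ℕ → Par)
    (ω : ∀ s : (Σ j, ZMod (par j).p), ZMod (par s.1).q × ZMod (par s.1).q) (J : Finset ℕ)
    (i n : ℕ) (l : Lay) : ℕ :=
  ∑ s ∈ J.sigma (fun j => (univ : Finset (ZMod (par j).p))),
    hit (par s.1) (Cand (par i) (par s.1) (fun Y => ω ⟨i, Y⟩) n l s.2) l.2.1 (ω s)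

lemma pick_sum {α β : Type} [Fintype β] (T u : Finset α) (g : α → β → ℝ) (x : ℝ)
    (hg : ∀ a b, 0 ≤ g a b) (hu : ∀ n ∈ u, n ∈ T ∧ ∃ l, x ≤ g n l) :
    u.card * x ≤ ∑ c ∈ T ×ˢ (univ : Finset β), g c.1 c.2 := by
  rw [sum_product, ← nsmul_eq_mul]
  refine (card_nsmul_le_sum u (fun n => ∑ l, g n l) x (fun n hn => ?_)).trans
    (sum_le_sum_of_subset_of_nonneg (fun n hn => (hu n hn).1)
      (fun n _ _ => sum_nonneg fun l _ => hg n l))
  obtain ⟨l, hl⟩ := (hu n hn).2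
  exact hl.trans (single_le_sum (f := g n) (fun l _ => hg n l) (mem_univ l))

theorem Nice.exists_shift2 {par : ℕ → Par} (h : Nice par) {I : ℕ} (hI : 16 ^ 24 ≤ I) :
    ∃ ω : (∀ s : (Σ j, ZMod (par j).p), ZMod (par s.1).q × ZMod (par s.1).q),
      ∀ i, I ≤ i → ∀ e, 1 ≤ e → e ≤ ee i → ∀ u : Finset ℕ,
        (∀ n ∈ u, n < 2 ^ (8 * i + 23) ∧ ∃ l, kk e ≤ HH par ω (win I i e) i n l) →
          u.card * 2 ^ (2 ^ 40 * (e * 16 ^ e)) ≤ 2 ^ (8 * i) := by
  classical
  refine Exists.imp (fun ω hω => ?_) (exists_left (ι := Σ j, ZMod (par j).p)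
    (Ω := fun s => ZMod (par s.1).q × ZMod (par s.1).q) (κ := ℕ × Lay) (fun s => s.1) sw
    (fun i => if I ≤ i then Icc 1 (ee i) else ∅)
    (fun i => range (2 ^ (8 * i + 23)) ×ˢ univ)
    (fun i e => (win I i e).sigma (fun j => (univ : Finset (ZMod (par j).p))))
    (fun i e c s ω => ((2 : ℝ) ^ e) ^
      hit (par s.1) (Cand (par i) (par s.1) (fun Y => ω ⟨i, Y⟩) c.1 c.2 s.2) c.2.2.1 (ω s))
    (fun i e s => 1 + exw par e i s.1)
    (fun i e => (2 : ℝ) ^ (8 * i + 47 + (2 ^ 29 * sw e + 2 ^ 39 * 2 ^ e) + (sw e + e + 2)))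
    (fun i e c s ω => by positivity) (fun i e s => by have := exw_nonneg par e i s.1; linarith)
    (fun i e => by positivity) ?_ ?_ ?_ ?_ ?_ ?_)
  · intro i hi e he1 he2 u hu
    have h1 := hω i e (by simp [hi, he1, he2])
    simp only [prod_pow_eq_pow_sum] at h1
    have h2 := pick_sum (range (2 ^ (8 * i + 23))) u
      (fun n (l : Lay) => ((2 : ℝ) ^ e) ^ HH par ω (win I i e) i n l) (((2 : ℝ) ^ e) ^ kk e)
      (fun _ _ => by positivity) (fun n hn => ⟨mem_range.2 (hu n hn).1, (hu n hn).2.imp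
        fun l hl => pow_le_pow_right₀ (one_le_pow₀ (by norm_num)) hl⟩)
    unfold HH at h2
    have h3 := h2.trans h1.le
    rw [← pow_mul] at h3
    have h4 : u.card * 2 ^ (e * kk e) ≤
        2 ^ (8 * i + 47 + (2 ^ 29 * sw e + 2 ^ 39 * 2 ^ e) + (sw e + e + 2)) := by
      exact_mod_cast h3
    have b1 : 2 ^ e ≤ 16 ^ e := Nat.pow_le_pow_left (by norm_num) _
    have b2 : 16 ^ e ≤ e * 16 ^ e := Nat.le_mul_of_pos_left _ he1
    have b3 : e ≤ e * 16 ^ e := Nat.le_mul_of_pos_right _ (by positivity)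
    have b4 : e * kk e = 2 ^ 40 * (e * 16 ^ e) + 2 ^ 40 * (e * 16 ^ e) := by unfold kk; ring
    have b5 : 8 * i + 47 + (2 ^ 29 * sw e + 2 ^ 39 * 2 ^ e) + (sw e + e + 2) ≤
        8 * i + 2 ^ 40 * (e * 16 ^ e) := by
      unfold sw
      omega
    have h5 := h4.trans (pw_le b5)
    rw [b4, pow_add, pow_add, ← mul_assoc] at h5
    exact Nat.le_of_mul_le_mul_right h5 (by positivity)
  · intro i e c s _ t ht hts ω v
    have ht1 : t.1 < i := mem_range.1 (mem_filter.1 (mem_filter.1 (mem_sigma.1 ht).1).1).1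
    have e1 : (fun Y => update ω t v ⟨i, Y⟩) = fun Y => ω ⟨i, Y⟩ := by
      funext Y
      refine update_of_ne ?_ _ _
      rintro rfl
      exact lt_irrefl _ ht1
    simp only [e1, update_of_ne hts.symm]
  · intro i e _ c _ s hs ω
    obtain ⟨h1, h2, -⟩ := mem_filter.1 (mem_filter.1 (mem_sigma.1 hs).1).1
    have hs1 : s.1 < i := mem_range.1 h1
    have e1 : ∀ v, (fun Y => update ω s v ⟨i, Y⟩) = fun Y => ω ⟨i, Y⟩ := by
      intro v
      funext Y
      refine update_of_ne ?_ _ _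
      rintro rfl
      exact lt_irrefl _ hs1
    simp only [e1, update_self]
    have h3 : 3 ≤ s.1 := le_trans (by norm_num) (hI.trans h2)
    refine (mgf (par s.1) _ _ _ (h.cand h3 hs1 _ c.1 c.2 s.2) _
      (one_le_pow₀ (by norm_num))).trans (le_of_eq ?_)
    have hq : (0 : ℝ) < (par s.1).q := by exact_mod_cast (par s.1).q_pos
    rw [Fintype.card_prod, ZMod.card]
    unfold exw
    push_cast
    field_simp
    ring
  · intro i e s hs
    exact (mem_filter.1 (mem_sigma.1 hs).1).2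
  · intro i e c s hs t ht ω v
    have hs1 : s.1 < i := mem_range.1 (mem_filter.1 (mem_filter.1 (mem_sigma.1 hs).1).1).1
    have e1 : (fun Y => update ω t v ⟨i, Y⟩) = fun Y => ω ⟨i, Y⟩ := by
      funext Y
      refine update_of_ne ?_ _ _
      rintro rfl
      exact lt_irrefl _ ht
    have e2 : s ≠ t := by
      rintro rfl
      exact lt_asymm hs1 ht
    simp only [e1, update_of_ne e2]
  · intro i
    refine ⟨(mid I i).sigma (fun j => (univ : Finset (ZMod (par j).p))) ∪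
      univ.image (fun Y : ZMod (par i).p => (⟨i, Y⟩ : Σ j, ZMod (par j).p)), ?_⟩
    intro e c s hs ω ω' hh
    have e1 : (fun Y => ω ⟨i, Y⟩) = fun Y => ω' ⟨i, Y⟩ := by
      funext Y
      exact hh _ (mem_union_right _ (mem_image.2 ⟨Y, mem_univ _, rfl⟩))
    simp only [e1, hh s (mem_union_left _ (mem_sigma.2
      ⟨(mem_filter.1 (mem_sigma.1 hs).1).1, mem_univ _⟩))]
  · intro i e he
    by_cases hi : I ≤ i
    swap
    · simp [hi] at he
    simp only [hi, if_true] at he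
    have a1 : ((range (2 ^ (8 * i + 23)) ×ˢ (univ : Finset Lay)).card : ℝ) ≤ 2 ^ (8 * i + 47) := by
      rw [card_product, card_range, card_univ]
      have := Nat.mul_le_mul_left (2 ^ (8 * i + 23)) card_lay
      rw [← pow_add] at this
      exact_mod_cast this
    have a2 := h.prodw_le hI (mem_Icc.1 he).2
    refine (mul_le_mul a1 a2 (prod_nonneg fun s _ => by
      have := exw_nonneg par e i s.1; linarith) (by positivity)).trans ?_
    rw [le_div_iff₀ (by positivity), ← pow_add, ← pow_add]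

end Pool.Agent.P.MP_d5a1e1_nt.Thin
end

-- part Pool.Agent.P.MP_d5a1e1_nt.MomScale
section

/-! The factorial moment of the number of representations at one scale. -/

namespace Pool.Agent.P.MP_d5a1e1_nt.Thin

open Finset

/-- pairs whose first entry lies in block `i` and whose second entry lies no later -/
def PP (par : ℕ → Par)
    (ω : ∀ s : (Σ j, ZMod (par j).p), ZMod (par s.1).q × ZMod (par s.1).q) (I i n : ℕ)
    (y : ℕ × ℕ) : Prop :=
  y.1 ∈ (par i).B (fun X => ω ⟨i, X⟩) ∧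
    (y.2 < 2 ^ (8 * I + 8) ∨ ∃ j, I ≤ j ∧ j ≤ i ∧ y.2 ∈ (par j).B (fun X => ω ⟨j, X⟩)) ∧
    y.1 + y.2 = n

open Classical in
noncomputable def RR (par : ℕ → Par)
    (ω : ∀ s : (Σ j, ZMod (par j).p), ZMod (par s.1).q × ZMod (par s.1).q) (I i n : ℕ) : ℕ :=
  ((antidiagonal n).filter (PP par ω I i n)).card

lemma le_RR (par : ℕ → Par)
    (ω : ∀ s : (Σ j, ZMod (par j).p), ZMod (par s.1).q × ZMod (par s.1).q) (I i n : ℕ)
    (u : Finset (ℕ × ℕ)) (hu : ∀ y ∈ u, PP par ω I i n y) : u.card ≤ RR par ω I i n := by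
  classical
  unfold RR
  refine card_le_card fun y hy => ?_
  simp only [mem_filter]
  exact ⟨HasAntidiagonal.mem_antidiagonal.2 (hu y hy).2.2, hu y hy⟩

lemma scale_split {par : ℕ → Par} (h : Nice par) {I : ℕ} (hI3 : 3 ≤ I)
    (ω : ∀ s : (Σ j, ZMod (par j).p), ZMod (par s.1).q × ZMod (par s.1).q)
    (i n : ℕ) (hi : 2 * I + 2 ≤ i) (J : Finset ℕ)
    (hJ : ∀ j ∈ mid I i, ∀ a ∈ (par i).B (fun X => ω ⟨i, X⟩),
      ∀ b ∈ (par j).B (fun X => ω ⟨j, X⟩), a + b = n → j ∈ J) :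
    RR par ω I i n ≤ 2 ^ 54 + ∑ l : Lay, HH par ω J i n l := by
  classical
  obtain ⟨u, hu0, hu⟩ : ∃ u : Finset (ℕ × ℕ), RR par ω I i n = u.card ∧
      ∀ y ∈ u, PP par ω I i n y := ⟨_, rfl, fun y hy => by
        simp only [mem_filter] at hy
        exact hy.2⟩
  rw [hu0]
  have hsub : u ⊆ u.filter (fun y => y.2 ∈ (par i).B (fun X => ω ⟨i, X⟩)) ∪
      u.filter (fun y => y.2 ≤ (par i).D) ∪
      u.filter (fun y => ∃ j ∈ J, y.2 ∈ (par j).B (fun X => ω ⟨j, X⟩)) := by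
    intro y hy
    obtain ⟨h1, h2, h3⟩ := hu y hy
    obtain ⟨d1, -⟩ := h.D (i := i) (by omega)
    simp only [mem_union, mem_filter]
    rcases h2 with h2 | ⟨j, hj1, hj2, h2⟩
    · exact Or.inl (Or.inr ⟨hy, h2.le.trans ((pw_le (by omega)).trans d1)⟩)
    · rcases hj2.lt_or_eq with hj | rfl
      · by_cases hm : 4 * i < 8 * j + 22
        · exact Or.inr ⟨hy, j, hJ j (mem_filter.2 ⟨mem_range.2 hj, hj1, hm⟩) _ h1 _ h2 h3, h2⟩
        · have := (h.B_range (by omega) h2).2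
          exact Or.inl (Or.inr ⟨hy, this.le.trans ((pw_le (by omega)).trans d1)⟩)
      · exact Or.inl (Or.inl ⟨hy, h2⟩)
  have c1 := (par i).same (fun X => ω ⟨i, X⟩) n
    (u.filter (fun y => y.2 ∈ (par i).B (fun X => ω ⟨i, X⟩))) (fun y hy =>
      ⟨(hu y (mem_filter.1 hy).1).1, (mem_filter.1 hy).2, (hu y (mem_filter.1 hy).1).2.2⟩)
  have c2 : (u.filter (fun y => y.2 ≤ (par i).D)).card ≤ 2 ^ 25 := by
    have hinj : Set.InjOn (fun y : ℕ × ℕ => y.1) (u.filter (fun y => y.2 ≤ (par i).D)) := by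
      intro y hy y' hy' e
      have a1 := (hu y (mem_filter.1 hy).1).2.2
      have a2 := (hu y' (mem_filter.1 hy').1).2.2
      simp only at e
      exact Prod.ext e (by omega)
    rw [← card_image_of_injOn hinj]
    refine (par i).window (fun X => ω ⟨i, X⟩) _ ?_ ?_
    · intro a ha
      obtain ⟨y, hy, rfl⟩ := mem_image.1 ha
      exact (hu y (mem_filter.1 hy).1).1
    · intro a ha a' ha'
      obtain ⟨y, hy, rfl⟩ := mem_image.1 ha
      obtain ⟨y', hy', rfl⟩ := mem_image.1 ha'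
      have a1 := (hu y (mem_filter.1 hy).1).2.2
      have a2 := (hu y' (mem_filter.1 hy').1).2.2
      have a3 := (mem_filter.1 hy).2
      omega
  have c3 := mid_card (par i) (fun X => ω ⟨i, X⟩) par ω J n
    (u.filter (fun y => ∃ j ∈ J, y.2 ∈ (par j).B (fun X => ω ⟨j, X⟩))) (fun y hy =>
      ⟨(hu y (mem_filter.1 hy).1).1, (mem_filter.1 hy).2, (hu y (mem_filter.1 hy).1).2.2⟩)
  have c6 := (card_le_card hsub).trans
    ((card_union_le _ _).trans (Nat.add_le_add_right (card_union_le _ _) _))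
  unfold HH
  omega

lemma Nice.B_card {par : ℕ → Par} (h : Nice par) {i : ℕ} (hi : 3 ≤ i)
    (ω : ZMod (par i).p → ZMod (par i).q × ZMod (par i).q) :
    ((par i).B ω).card ≤ 2 ^ (4 * i + 26) := by
  unfold Par.B
  refine card_image_le.trans ?_
  rw [card_univ, Fintype.card_prod, Fintype.card_prod (ZMod _), ZMod.card, ZMod.card]
  calc _ ≤ 2 ^ 24 * 2 ^ (4 * i + 2) := Nat.mul_le_mul card_lay (h.pq hi).2
    _ = _ := by ring

lemma geo16 (m : ℕ) : ∑ j ∈ range m, 16 ^ j ≤ 16 ^ m := by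
  induction m with
  | zero => simp
  | succ m ih => rw [sum_range_succ, pow_succ]; omega

lemma far_card {par : ℕ → Par} (h : Nice par) {i : ℕ} (hi : 3 ≤ i)
    (ω : ∀ s : (Σ j, ZMod (par j).p), ZMod (par s.1).q × ZMod (par s.1).q) (s : ℕ) (u : Finset ℕ)
    (hu : ∀ n ∈ u, ∃ j, 3 ≤ j ∧ j + s < i ∧ ∃ a ∈ (par i).B (fun X => ω ⟨i, X⟩),
      ∃ b ∈ (par j).B (fun X => ω ⟨j, X⟩), a + b = n) :
    u.card * 2 ^ (4 * s) ≤ 2 ^ (8 * i + 52) := by
  classical
  rcases u.eq_empty_or_nonempty with rfl | ⟨n0, hn0⟩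
  · simp
  obtain ⟨j0, -, hj0, -⟩ := hu n0 hn0
  obtain ⟨m, rfl⟩ : ∃ m, i = m + s := ⟨i - s, by omega⟩
  have hsub : u ⊆ ((range m).filter (fun j => 3 ≤ j)).biUnion (fun j =>
      image₂ (· + ·) ((par (m + s)).B (fun X => ω ⟨m + s, X⟩)) ((par j).B (fun X => ω ⟨j, X⟩))) := by
    intro n hn
    obtain ⟨j, h1, h2, a, ha, b, hb, e⟩ := hu n hn
    exact mem_biUnion.2 ⟨j, mem_filter.2 ⟨mem_range.2 (by omega), h1⟩,
      mem_image₂.2 ⟨a, ha, b, hb, e⟩⟩
  have h1 := (card_le_card hsub).trans card_biUnion_le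
  have h2 : ∀ j ∈ (range m).filter (fun j => 3 ≤ j), (image₂ (· + ·)
      ((par (m + s)).B (fun X => ω ⟨m + s, X⟩)) ((par j).B (fun X => ω ⟨j, X⟩))).card ≤
      2 ^ (4 * (m + s) + 52) * 16 ^ j := by
    intro j hj
    refine (card_image₂_le _ _ _).trans
      ((Nat.mul_le_mul (h.B_card hi _) (h.B_card (mem_filter.1 hj).2 _)).trans (le_of_eq ?_))
    rw [show (16 : ℕ) = 2 ^ 4 by norm_num, ← pow_mul]
    ring
  have h3 := (h1.trans (sum_le_sum h2)).trans (sum_le_sum_of_subset (filter_subset _ _))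
  rw [← mul_sum] at h3
  have h4 := Nat.mul_le_mul_right (2 ^ (4 * s)) (h3.trans (Nat.mul_le_mul_left _ (geo16 m)))
  refine h4.trans (le_of_eq ?_)
  rw [show (16 : ℕ) = 2 ^ 4 by norm_num, ← pow_mul]
  ring

lemma split_two {α : Type} (u : Finset α) (Q : α → Prop) : ∃ u1 u2 : Finset α,
    u1.card + u2.card = u.card ∧ (∀ n ∈ u1, n ∈ u ∧ Q n) ∧ (∀ n ∈ u2, n ∈ u ∧ ¬ Q n) := by
  classical
  exact ⟨u.filter Q, u.filter (fun n => ¬ Q n), card_filter_add_card_filter_not Q,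
    fun n hn => mem_filter.1 hn, fun n hn => mem_filter.1 hn⟩

lemma sum_lay (g : Lay → ℕ) (m : ℕ) (hg : ∀ l, g l ≤ m) : ∑ l, g l ≤ 2 ^ 24 * m := by
  have c1 := sum_le_card_nsmul (univ : Finset Lay) g m (fun l _ => hg l)
  rw [card_univ, smul_eq_mul] at c1
  exact c1.trans (Nat.mul_le_mul_right _ card_lay)

lemma comb (c1 c2 x N : ℕ) (hx : 1 ≤ x) : c1 * 2 ^ (2 ^ 40 * x) ≤ N →
    c2 * 2 ^ (4 * (2 ^ 9 * x)) ≤ N * 2 ^ 52 → (c1 + c2) * 2 ^ (2 ^ 10 * x) ≤ N := by
  have e1 : 2 ^ 10 * x + 1 ≤ 2 ^ 40 * x := by omega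
  have e2 : 2 ^ 10 * x + 1 + 52 ≤ 4 * (2 ^ 9 * x) := by omega
  intro h1 h2
  have d1 := (Nat.mul_le_mul_left _ (pw_le e1)).trans h1
  have d2 := (Nat.mul_le_mul_left _ (pw_le e2)).trans h2
  rw [pow_add _ _ 52, ← mul_assoc] at d2
  have d3 := Nat.le_of_mul_le_mul_right d2 (by positivity)
  rw [pow_succ 2 (2 ^ 10 * x), ← mul_assoc] at d1 d3
  rw [add_mul]
  clear h1 h2 d2
  generalize c1 * 2 ^ (2 ^ 10 * x) = y1 at *
  generalize c2 * 2 ^ (2 ^ 10 * x) = y2 at *
  omega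

lemma tail_card {par : ℕ → Par} (h : Nice par) {I : ℕ} (hI3 : 3 ≤ I)
    (ω : ∀ s : (Σ j, ZMod (par j).p), ZMod (par s.1).q × ZMod (par s.1).q)
    {i e : ℕ} (hi : 2 * I + 2 ≤ i) (he : 1 ≤ e)
    (hω : ∀ u : Finset ℕ,
        (∀ n ∈ u, n < 2 ^ (8 * i + 23) ∧ ∃ l, kk e ≤ HH par ω (win I i e) i n l) →
          u.card * 2 ^ (2 ^ 40 * (e * 16 ^ e)) ≤ 2 ^ (8 * i))
    (u : Finset ℕ) (hu : ∀ n ∈ u, n < 2 ^ (8 * i + 23) ∧ 2 ^ 66 * 16 ^ e ≤ RR par ω I i n) :
    u.card * 2 ^ (2 ^ 10 * (e * 16 ^ e)) ≤ 2 ^ (8 * i) := by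
  classical
  obtain ⟨u1, u2, h3, g1, g2⟩ : ∃ u1 u2 : Finset ℕ, u1.card + u2.card = u.card ∧
      (∀ n ∈ u1, n ∈ u ∧ ∃ l, kk e ≤ HH par ω (win I i e) i n l) ∧
      (∀ n ∈ u2, n ∈ u ∧ ¬ ∃ l, kk e ≤ HH par ω (win I i e) i n l) :=
    split_two u _
  have b1 : 1 ≤ 16 ^ e := Nat.one_le_pow _ _ (by norm_num)
  have b2 : 16 ^ e ≤ e * 16 ^ e := Nat.le_mul_of_pos_left _ he
  have h2 := far_card h (i := i) (by omega) ω (sw e) u2 (fun n hn => by
    obtain ⟨a1, a2⟩ := g2 n hn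
    by_contra hc
    have a3 := scale_split h hI3 ω i n hi (win I i e) (fun j hj a ha b hb hab => by
      refine mem_filter.2 ⟨hj, ?_⟩
      by_contra hlt
      exact hc ⟨j, hI3.trans (mem_filter.1 hj).2.1, by omega, a, ha, b, hb, hab⟩)
    have a4 := sum_lay (fun l => HH par ω (win I i e) i n l) (kk e - 1) (fun l => by
      have : ¬ kk e ≤ HH par ω (win I i e) i n l := fun hl => a2 ⟨l, hl⟩
      omega)
    have a5 := (hu n a1).2
    have a6 := a5.trans (a3.trans (Nat.add_le_add_left a4 _))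
    unfold kk at a6
    omega)
  have h1 := hω u1 (fun n hn => ⟨(hu n (g1 n hn).1).1, (g1 n hn).2⟩)
  rw [pow_add] at h2
  rw [← h3]
  exact comb _ _ _ _ (b1.trans b2) h1 h2

lemma weight_le (R E : ℕ) (hR : R < 2 ^ 66 * 16 ^ E) :
    (R / 2 ^ 70).factorial ≤
      1 + ∑ e ∈ Icc 1 E, if 2 ^ 66 * 16 ^ e ≤ R then 2 ^ (4 * (e * 16 ^ e)) else 0 := by
  by_cases h : R < 2 ^ 70
  · rw [Nat.div_eq_of_lt h]
    simp
  have h1 : 16 ≤ R / 2 ^ 66 := (Nat.le_div_iff_mul_le (by positivity)).2 (by omega)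
  have h2 : 1 ≤ Nat.log 16 (R / 2 ^ 66) := Nat.le_log_of_pow_le (by norm_num) (by simpa using h1)
  have h3 := Nat.pow_log_le_self 16 (show R / 2 ^ 66 ≠ 0 by omega)
  have h4 := Nat.lt_pow_succ_log_self (b := 16) (by norm_num) (R / 2 ^ 66)
  have h5 : Nat.log 16 (R / 2 ^ 66) < E :=
    Nat.log_lt_of_lt_pow (by omega) (Nat.div_lt_of_lt_mul hR)
  generalize Nat.log 16 (R / 2 ^ 66) = e at *
  have h6 : 2 ^ 66 * 16 ^ e ≤ R := by
    rw [mul_comm]; exact (Nat.le_div_iff_mul_le (by positivity)).1 h3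
  have h7 : R / 2 ^ 70 ≤ 16 ^ e := by
    rw [Nat.succ_eq_add_one, pow_succ] at h4
    omega
  have h8 : (R / 2 ^ 70).factorial ≤ 2 ^ (4 * (e * 16 ^ e)) := by
    refine (Nat.factorial_le h7).trans ((Nat.factorial_le_pow _).trans (le_of_eq ?_))
    rw [pow_mul, show (2 : ℕ) ^ 4 = 16 by norm_num, pow_mul]
  have h9 := single_le_sum (f := fun e => if 2 ^ 66 * 16 ^ e ≤ R then 2 ^ (4 * (e * 16 ^ e)) else 0)
    (fun _ _ => Nat.zero_le _) (mem_Icc.2 ⟨h2, h5.le⟩)
  simp only [h6, if_true] at h9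
  omega

theorem scale_moment {par : ℕ → Par} (h : Nice par) {I : ℕ} (hI : 16 ^ 24 ≤ I)
    (ω : ∀ s : (Σ j, ZMod (par j).p), ZMod (par s.1).q × ZMod (par s.1).q)
    {i : ℕ} (hi : 2 * I + 2 ≤ i)
    (hω : ∀ e, 1 ≤ e → e ≤ ee i → ∀ u : Finset ℕ,
        (∀ n ∈ u, n < 2 ^ (8 * i + 23) ∧ ∃ l, kk e ≤ HH par ω (win I i e) i n l) →
          u.card * 2 ^ (2 ^ 40 * (e * 16 ^ e)) ≤ 2 ^ (8 * i))
    (T : Finset ℕ) (hT : ∀ n ∈ T, n < 2 ^ (8 * i + 23)) :
    ∑ n ∈ T, (RR par ω I i n / 2 ^ 70).factorial ≤ 2 ^ (8 * i + 24) := by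
  classical
  have hI3 : 3 ≤ I := le_trans (by norm_num) hI
  obtain ⟨e1, -, e3⟩ := ee_spec (i := i) (by omega)
  have top : ∀ n ∈ T, RR par ω I i n < 2 ^ 66 * 16 ^ ee i := by
    intro n hn
    by_contra hc
    have a1 := tail_card h hI3 ω hi (e := ee i) (by omega) (hω _ (by omega) le_rfl) {n}
      (fun m hm => by rw [mem_singleton.1 hm]; exact ⟨hT n hn, by omega⟩)
    rw [card_singleton, one_mul] at a1
    have a2 := (Nat.pow_le_pow_iff_right (by norm_num)).1 a1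
    have a3 : 24 * 16 ^ ee i ≤ ee i * 16 ^ ee i := Nat.mul_le_mul_right _ e1
    rw [pow_succ] at e3
    omega
  refine (sum_le_sum fun n hn => weight_le _ _ (top n hn)).trans ?_
  rw [sum_add_distrib, sum_comm]
  have c1 : ∑ _n ∈ T, 1 ≤ 2 ^ (8 * i + 23) := by
    rw [sum_const, smul_eq_mul, mul_one]
    refine (card_le_card (t := range (2 ^ (8 * i + 23))) fun n hn => mem_range.2 (hT n hn)).trans ?_
    rw [card_range]
  have c2 : ∀ e ∈ Icc 1 (ee i), ((∑ n ∈ T, if 2 ^ 66 * 16 ^ e ≤ RR par ω I i n then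
      2 ^ (4 * (e * 16 ^ e)) else 0 : ℕ) : ℝ) ≤ 2 ^ (8 * i) * (1 / 2 ^ (e + 2)) := by
    intro e he
    obtain ⟨a1, a2⟩ := mem_Icc.1 he
    have a3 := tail_card h hI3 ω hi a1 (hω e a1 a2)
      (T.filter (fun n => 2 ^ 66 * 16 ^ e ≤ RR par ω I i n))
      (fun n hn => ⟨hT n (mem_filter.1 hn).1, (mem_filter.1 hn).2⟩)
    rw [← sum_filter, sum_const, smul_eq_mul, mul_one_div, le_div_iff₀ (by positivity)]
    have b3 : e ≤ e * 16 ^ e := Nat.le_mul_of_pos_right _ (by positivity)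
    have a4 := (Nat.mul_le_mul_left _ (pw_le
      (show 4 * (e * 16 ^ e) + (e + 2) ≤ 2 ^ 10 * (e * 16 ^ e) by omega))).trans a3
    rw [pow_add, ← mul_assoc] at a4
    exact_mod_cast a4
  have c3 := sum_le_sum c2
  rw [← mul_sum, ← Nat.cast_sum] at c3
  have c4 := c3.trans (mul_le_mul_of_nonneg_left ((half_sum _).trans
    (show (1 : ℝ) / 2 ≤ 1 by norm_num)) (by positivity))
  rw [mul_one] at c4
  have c5 : ∑ e ∈ Icc 1 (ee i), ∑ n ∈ T, (if 2 ^ 66 * 16 ^ e ≤ RR par ω I i n then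
      2 ^ (4 * (e * 16 ^ e)) else 0 : ℕ) ≤ 2 ^ (8 * i) := by exact_mod_cast c4
  have c6 : 2 ^ (8 * i) ≤ 2 ^ (8 * i + 23) := pw_le (by omega)
  rw [show 8 * i + 24 = 8 * i + 23 + 1 by ring, pow_succ 2 (8 * i + 23)]
  omega

end Pool.Agent.P.MP_d5a1e1_nt.Thin
end

-- part Pool.Agent.P.MP_d5a1e1_nt.MomMain
section

/-! A basis of order two whose representation function has a bounded factorial moment. -/

namespace Pool.Agent.P.MP_d5a1e1_nt.Thin

open Finset

lemma weight_four (J : Finset ℕ) (g : ℕ → ℕ) (r : ℕ) (hr : r ≤ ∑ i ∈ J, 2 * g i)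
    (hJ : J.card ≤ 4) : (r / 2 ^ 73).factorial ≤ 1 + ∑ i ∈ J, (g i / 2 ^ 70).factorial := by
  rcases J.eq_empty_or_nonempty with rfl | hne
  · obtain rfl : r = 0 := by simpa using hr
    simp
  obtain ⟨i, hi, hmax⟩ := exists_max_image J g hne
  have h1 := hr.trans (sum_le_card_nsmul J _ (2 * g i) (fun j hj =>
    Nat.mul_le_mul_left _ (hmax j hj)))
  rw [smul_eq_mul] at h1
  have h2 := h1.trans (Nat.mul_le_mul_right _ hJ)
  have h3 : r / 2 ^ 73 ≤ g i / 2 ^ 70 := by omega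
  exact (Nat.factorial_le h3).trans ((single_le_sum (f := fun i => (g i / 2 ^ 70).factorial)
    (fun _ _ => Nat.zero_le _) hi).trans (Nat.le_add_left _ _))

lemma geo_cut (N L : ℕ) : (∑ i ∈ range L, if 2 ^ (8 * i) < N then 2 ^ (8 * i) else 0) ≤ 2 * N ∧
    (∑ i ∈ range L, if 2 ^ (8 * i) < N then 2 ^ (8 * i) else 0) ≤ 2 ^ (8 * L) := by
  induction L with
  | zero => simp
  | succ L ih =>
    rw [sum_range_succ, show 8 * (L + 1) = 8 * L + 8 by ring, pow_add]
    obtain ⟨h1, h2⟩ := ih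
    split_ifs with h
    · constructor <;> omega
    · constructor <;> omega

lemma rep_le (A : Set ℕ) (n : ℕ) :
    Set.ncard {y : ℕ × ℕ | y.1 ∈ A ∧ y.2 ∈ A ∧ y.1 + y.2 = n} ≤ n + 1 := by
  rw [← Nat.card_antidiagonal n, ← Set.ncard_coe_finset]
  exact Set.ncard_le_ncard (fun y hy => mem_coe.2 (HasAntidiagonal.mem_antidiagonal.2 hy.2.2))
    (antidiagonal n).finite_toSet

lemma rep_split {par : ℕ → Par} (h : Nice par) {I : ℕ} (hI3 : 3 ≤ I)
    (ω : ∀ s : (Σ j, ZMod (par j).p), ZMod (par s.1).q × ZMod (par s.1).q) (n : ℕ)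
    (hn : 2 ^ (16 * I + 39) ≤ n) (A : Set ℕ)
    (hA : ∀ a ∈ A, a < 2 ^ (8 * I + 8) ∨ ∃ i, I ≤ i ∧ a ∈ (par i).B (fun X => ω ⟨i, X⟩)) :
    ∃ J : Finset ℕ, J.card ≤ 4 ∧ (∀ i ∈ J, 2 * I + 2 ≤ i ∧ 2 ^ (8 * i) ≤ n ∧ n < 2 ^ (8 * i + 23)) ∧
      Set.ncard {y : ℕ × ℕ | y.1 ∈ A ∧ y.2 ∈ A ∧ y.1 + y.2 = n} ≤
        ∑ i ∈ J, 2 * RR par ω I i n := by
  classical
  have hn0 : n ≠ 0 := by
    have : 0 < 2 ^ (16 * I + 39) := by positivity
    omega
  have a3 : 16 * I + 39 ≤ Nat.log 2 n := Nat.le_log_of_pow_le (by norm_num) hn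
  have hfin : {y : ℕ × ℕ | y.1 ∈ A ∧ y.2 ∈ A ∧ y.1 + y.2 = n}.Finite :=
    (antidiagonal n).finite_toSet.subset fun y hy =>
      mem_coe.2 (HasAntidiagonal.mem_antidiagonal.2 hy.2.2)
  rw [Set.ncard_eq_toFinset_card _ hfin]
  have ht : ∀ y ∈ hfin.toFinset, y.1 ∈ A ∧ y.2 ∈ A ∧ y.1 + y.2 = n :=
    fun y hy => hfin.mem_toFinset.1 hy
  generalize hfin.toFinset = t at ht
  let J : Finset ℕ := (Icc (Nat.log 2 n / 8 - 3) (Nat.log 2 n / 8)).filter
    (fun i => 2 * I + 2 ≤ i ∧ 2 ^ (8 * i) ≤ n ∧ n < 2 ^ (8 * i + 23))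
  have hJ : ∀ i y, I ≤ i → PP par ω I i n y → i ∈ J := by
    rintro i y hi ⟨p1, p2, p3⟩
    obtain ⟨b1, b2⟩ := h.B_range (by omega) p1
    have b3 : y.2 < 2 ^ (8 * i + 22) := by
      rcases p2 with p2 | ⟨j, hj1, hj2, p2⟩
      · exact p2.trans_le (pw_le (by omega))
      · exact (h.B_range (by omega) p2).2.trans_le (pw_le (by omega))
    have b4 : n < 2 ^ (8 * i + 23) := by rw [pow_succ]; omega
    have b5 : 2 ^ (8 * i) ≤ n := by omega
    have b6 : 8 * i ≤ Nat.log 2 n := Nat.le_log_of_pow_le (by norm_num) b5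
    have b7 : Nat.log 2 n < 8 * i + 23 := Nat.log_lt_of_lt_pow hn0 b4
    exact mem_filter.2 ⟨mem_Icc.2 ⟨by omega, by omega⟩, by omega, b5, b4⟩
  have hsub : t ⊆ J.biUnion (fun i => t.filter (fun y => PP par ω I i n y) ∪
      t.filter (fun y => PP par ω I i n y.swap)) := by
    intro y hy
    obtain ⟨h1, h2, h3⟩ := ht y hy
    have key : ∃ i, I ≤ i ∧ (PP par ω I i n y ∨ PP par ω I i n y.swap) := by
      rcases hA _ h1 with h1 | ⟨i, hi, h1⟩
      · rcases hA _ h2 with h2 | ⟨j, hj, h2⟩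
        · exfalso
          have : 2 ^ (8 * I + 8 + 1) ≤ 2 ^ (16 * I + 39) := pw_le (by omega)
          rw [pow_succ] at this
          omega
        · exact ⟨j, hj, Or.inr ⟨h2, Or.inl h1, by simp only [Prod.fst_swap, Prod.snd_swap]; omega⟩⟩
      · rcases hA _ h2 with h2 | ⟨j, hj, h2⟩
        · exact ⟨i, hi, Or.inl ⟨h1, Or.inl h2, h3⟩⟩
        · rcases le_total j i with hji | hji
          · exact ⟨i, hi, Or.inl ⟨h1, Or.inr ⟨j, hj, hji, h2⟩, h3⟩⟩
          · exact ⟨j, hj, Or.inr ⟨h2, Or.inr ⟨i, hi, hji, h1⟩,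
              by simp only [Prod.fst_swap, Prod.snd_swap]; omega⟩⟩
    obtain ⟨i, hi, hP⟩ := key
    refine mem_biUnion.2 ⟨i, hP.elim (hJ i _ hi) (hJ i _ hi), ?_⟩
    rcases hP with hP | hP
    · exact mem_union_left _ (mem_filter.2 ⟨hy, hP⟩)
    · exact mem_union_right _ (mem_filter.2 ⟨hy, hP⟩)
  refine ⟨J, (card_filter_le _ _).trans (by rw [Nat.card_Icc]; omega),
    fun i hi => (mem_filter.1 hi).2,
    ((card_le_card hsub).trans card_biUnion_le).trans (sum_le_sum fun i _ => ?_)⟩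
  have d4 := le_RR par ω I i n (t.filter (fun y => PP par ω I i n y))
    (fun y hy => (mem_filter.1 hy).2)
  have d5 := le_RR par ω I i n ((t.filter (fun y => PP par ω I i n y.swap)).image Prod.swap)
    (fun y hy => by
      obtain ⟨z, hz, rfl⟩ := mem_image.1 hy
      exact (mem_filter.1 hz).2)
  rw [card_image_of_injective _ Prod.swap_injective] at d5
  rw [two_mul]
  exact (card_union_le _ _).trans (Nat.add_le_add d4 d5)

theorem moment_basis : ∃ A : Set ℕ, (∀ n : ℕ, ∃ a ∈ A, ∃ b ∈ A, a + b = n) ∧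
    ∃ C : ℕ, 0 < C ∧ ∀ N : ℕ, ∑ n ∈ range N,
      (Set.ncard {y : ℕ × ℕ | y.1 ∈ A ∧ y.2 ∈ A ∧ y.1 + y.2 = n} / C).factorial ≤ C * N := by
  classical
  obtain ⟨par, hpar⟩ := exists_par
  have h : Nice par := hpar
  obtain ⟨I, hI⟩ : ∃ I : ℕ, 16 ^ 24 ≤ I := ⟨_, le_rfl⟩
  have hI3 : 3 ≤ I := le_trans (by norm_num) hI
  obtain ⟨ω, hω⟩ := h.exists_shift2 hI
  obtain ⟨A, hA⟩ : ∃ A : Set ℕ, ∀ a, a ∈ A ↔
      a < 2 ^ (8 * I + 8) ∨ ∃ i, I ≤ i ∧ a ∈ (par i).B (fun X => ω ⟨i, X⟩) :=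
    ⟨{a | a < 2 ^ (8 * I + 8) ∨ ∃ i, I ≤ i ∧ a ∈ (par i).B (fun X => ω ⟨i, X⟩)}, fun _ => Iff.rfl⟩
  obtain ⟨K, hK⟩ : ∃ K, ∀ m, m ≤ 2 ^ (16 * I + 39) → m.factorial ≤ K :=
    ⟨_, fun _ => Nat.factorial_le⟩
  refine ⟨A, ?_, 2 ^ 73 + K, Nat.add_pos_left (by norm_num) _, ?_⟩
  · intro n
    by_cases hn : n < 2 ^ (8 * I + 8)
    · exact ⟨n, (hA _).2 (Or.inl hn), 0, (hA _).2 (Or.inl (by positivity)), rfl⟩
    have hn0 : n ≠ 0 := by
      have : 0 < 2 ^ (8 * I + 8) := by positivity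
      omega
    have a1 := Nat.pow_log_le_self 2 hn0
    have a2 := Nat.lt_pow_succ_log_self (b := 2) (by norm_num) n
    have a3 : 8 * I + 8 ≤ Nat.log 2 n := Nat.le_log_of_pow_le (by norm_num) (by omega)
    obtain ⟨i, hi⟩ : ∃ i, i + 1 = Nat.log 2 n / 8 := ⟨Nat.log 2 n / 8 - 1, by omega⟩
    obtain ⟨b1, b2⟩ := h.N (i := i) (by omega)
    obtain ⟨a, ha, b, hb, e⟩ := (par i).cover (fun X => ω ⟨i, X⟩) n (by
      have c1 : 2 ^ (8 * i + 5 + 3) ≤ 2 ^ Nat.log 2 n := pw_le (by omega)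
      rw [pow_add] at c1
      omega) (by
      have c1 : 2 ^ (Nat.log 2 n).succ ≤ 2 ^ (8 * i + 16) := pw_le (by omega)
      rw [pow_add _ (8 * i)] at c1
      omega)
    exact ⟨a, (hA _).2 (Or.inr ⟨i, by omega, ha⟩), b, (hA _).2 (Or.inr ⟨i, by omega, hb⟩), e⟩
  · intro N
    have pt : ∀ n ∈ range N,
        (Set.ncard {y : ℕ × ℕ | y.1 ∈ A ∧ y.2 ∈ A ∧ y.1 + y.2 = n} / (2 ^ 73 + K)).factorial ≤
          (K + 1) + ∑ i ∈ range N, if 2 * I + 2 ≤ i ∧ 2 ^ (8 * i) ≤ n ∧ n < 2 ^ (8 * i + 23) then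
            (RR par ω I i n / 2 ^ 70).factorial else 0 := by
      intro n hn
      by_cases hs : n < 2 ^ (16 * I + 39)
      · have a1 := hK _ (((Nat.div_le_self _ (2 ^ 73 + K)).trans (rep_le A n)).trans hs)
        exact a1.trans ((Nat.le_succ _).trans (Nat.le_add_right _ _))
      obtain ⟨J, j1, j2, j3⟩ := rep_split h hI3 ω n (not_lt.1 hs) A (fun a ha => (hA a).1 ha)
      have a1 := weight_four J _ _ j3 j1
      have a2 := Nat.factorial_le (Nat.div_le_div_left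
        (a := Set.ncard {y : ℕ × ℕ | y.1 ∈ A ∧ y.2 ∈ A ∧ y.1 + y.2 = n})
        (Nat.le_add_right (2 ^ 73) K) (by positivity))
      refine a2.trans (a1.trans (Nat.add_le_add (Nat.le_add_left _ _) ?_))
      rw [← sum_filter]
      refine sum_le_sum_of_subset fun i hi => mem_filter.2 ⟨mem_range.2 ?_, j2 i hi⟩
      have b1 := (j2 i hi).2.1
      have b2 : 8 * i < 2 ^ (8 * i) := Nat.lt_two_pow_self
      have b3 := mem_range.1 hn
      omega
    refine (sum_le_sum pt).trans ?_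
    rw [sum_add_distrib, sum_comm, sum_const, card_range, smul_eq_mul]
    have c1 : ∀ i ∈ range N, (∑ n ∈ range N,
        if 2 * I + 2 ≤ i ∧ 2 ^ (8 * i) ≤ n ∧ n < 2 ^ (8 * i + 23) then
          (RR par ω I i n / 2 ^ 70).factorial else 0) ≤
        2 ^ 24 * if 2 ^ (8 * i) < N then 2 ^ (8 * i) else 0 := by
      intro i _
      rw [← sum_filter]
      rcases ((range N).filter (fun n =>
        2 * I + 2 ≤ i ∧ 2 ^ (8 * i) ≤ n ∧ n < 2 ^ (8 * i + 23))).eq_empty_or_nonempty with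
        he | ⟨n, hn⟩
      · rw [he, sum_empty]
        exact Nat.zero_le _
      obtain ⟨d1, d2, d3, -⟩ := mem_filter.1 hn
      rw [if_pos (d3.trans_lt (mem_range.1 d1))]
      refine (scale_moment h hI ω d2 (hω i (by omega)) _
        (fun m hm => (mem_filter.1 hm).2.2.2)).trans (le_of_eq ?_)
      rw [pow_add, mul_comm]
    have c2 := sum_le_sum c1
    rw [← mul_sum] at c2
    have c3 := c2.trans (Nat.mul_le_mul_left _ (geo_cut N N).1)
    refine (Nat.add_le_add_left c3 _).trans ?_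
    rw [mul_add, add_mul, mul_comm K N]
    omega

section
variable (r : ℕ → ℕ) (C : ℕ) (hC : 0 < C)
  (h : ∀ N : ℕ, ∑ n ∈ range N, (r n / C).factorial ≤ C * N)
include hC h

lemma exp_moment (t : ℝ) : ∃ K : ℝ, ∀ N : ℕ, ∑ n ∈ range N, Real.exp (t * r n) ≤ K * N := by
  obtain ⟨x, hx⟩ : ∃ x, x = Real.exp (|t| * C) := ⟨_, rfl⟩
  have hx0 : 0 < x := hx ▸ Real.exp_pos _
  refine ⟨x * Real.exp x * C, fun N => ?_⟩
  have pt : ∀ n ∈ range N, Real.exp (t * r n) ≤ x * Real.exp x * (r n / C).factorial := by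
    intro n _
    have a1 : r n ≤ C * (r n / C + 1) := (Nat.lt_mul_div_succ _ hC).le
    generalize r n / C = m at *
    have a2 : (r n : ℝ) ≤ C * ((m + 1 : ℕ) : ℝ) := by exact_mod_cast a1
    have a3 : t * r n ≤ ((m + 1 : ℕ) : ℝ) * (|t| * C) := by
      calc _ ≤ |t| * r n := mul_le_mul_of_nonneg_right (le_abs_self t) (by positivity)
        _ ≤ |t| * (C * ((m + 1 : ℕ) : ℝ)) := mul_le_mul_of_nonneg_left a2 (abs_nonneg t)
        _ = _ := by ring
    have a4 := Real.pow_div_factorial_le_exp x hx0.le m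
    rw [div_le_iff₀ (by positivity)] at a4
    calc _ ≤ _ := Real.exp_le_exp.2 a3
      _ = x * x ^ m := by rw [Real.exp_nat_mul, ← hx, pow_succ']
      _ ≤ x * (Real.exp x * m.factorial) := mul_le_mul_of_nonneg_left a4 hx0.le
      _ = _ := by ring
  refine (sum_le_sum pt).trans ?_
  rw [← mul_sum, mul_assoc _ (C : ℝ)]
  refine mul_le_mul_of_nonneg_left ?_ (by positivity)
  exact_mod_cast h N

lemma pow_moment (p : ℕ) : ∃ K : ℝ, ∀ N : ℕ, ∑ n ∈ range N, (r n : ℝ) ^ p ≤ K * N := by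
  obtain ⟨K, hK⟩ := exp_moment r C hC h 1
  refine ⟨p.factorial * K, fun N => ?_⟩
  have pt : ∀ n ∈ range N, (r n : ℝ) ^ p ≤ p.factorial * Real.exp (1 * r n) := by
    intro n _
    have a4 := Real.pow_div_factorial_le_exp (r n : ℝ) (by positivity) p
    rw [div_le_iff₀ (by positivity)] at a4
    rw [one_mul, mul_comm]
    exact a4
  refine (sum_le_sum pt).trans ?_
  rw [← mul_sum, mul_assoc]
  exact mul_le_mul_of_nonneg_left (hK N) (by positivity)

lemma max_order : ∃ K : ℝ, ∃ N : ℕ, ∀ n : ℕ, N ≤ n →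
    (r n : ℝ) ≤ K * (Real.log n / Real.log (Real.log n)) := by
  refine ⟨9 * C, C + 2 ^ 39, fun n hn => ?_⟩
  have a1 : (r n / C).factorial ≤ C * (n + 1) :=
    (single_le_sum (f := fun n => (r n / C).factorial) (fun _ _ => Nat.zero_le _)
      (self_mem_range_succ n)).trans (h (n + 1))
  have a2 : (r n / C).factorial ≤ n ^ 3 := by
    refine a1.trans ?_
    have b1 : n + 1 ≤ n * n := by nlinarith
    calc _ ≤ n * (n * n) := Nat.mul_le_mul (by omega) b1
      _ = _ := by ring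
  have a3 : r n ≤ C * (r n / C + 1) := (Nat.lt_mul_div_succ _ hC).le
  generalize r n / C = m at *
  have a4 : (r n : ℝ) ≤ C * (m + 1) := by exact_mod_cast a3
  have b2 := log_low (a := 39) (n := n) (by omega)
  push_cast at b2
  have hn0 : (0 : ℝ) < n := by
    have : 0 < n := by omega
    exact_mod_cast this
  have a5 : Real.log m.factorial ≤ 3 * Real.log n := by
    have b1 : (m.factorial : ℝ) ≤ (n : ℝ) ^ 3 := by exact_mod_cast a2
    have := Real.log_le_log (by positivity) b1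
    rwa [Real.log_pow, Nat.cast_ofNat] at this
  generalize Real.log n = L at *
  have hL : 0 < L := by linarith
  have l0 : 0 < Real.log L := Real.log_pos (by linarith)
  have hs : 0 < Real.sqrt L := Real.sqrt_pos.2 hL
  have l1 : Real.log L ≤ 2 * Real.sqrt L := by
    have := Real.log_le_sub_one_of_pos hs
    rw [Real.log_sqrt hL.le] at this
    linarith
  have l2 : Real.sqrt L ≤ 2 * (L / Real.log L) := by
    rw [← mul_div_assoc, le_div_iff₀ l0]
    calc _ ≤ Real.sqrt L * (2 * Real.sqrt L) := mul_le_mul_of_nonneg_left l1 hs.le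
      _ = 2 * (Real.sqrt L * Real.sqrt L) := by ring
      _ = _ := by rw [Real.mul_self_sqrt hL.le]
  have l3 : 1 ≤ L / Real.log L := by
    rw [one_le_div l0]
    exact (Real.log_le_sub_one_of_pos hL).trans (by linarith)
  have a6 : (m : ℝ) ≤ 8 * (L / Real.log L) := by
    by_contra hc
    push Not at hc
    have hm : (0 : ℝ) < m := by linarith
    have c1 := Real.pow_div_factorial_le_exp (m : ℝ) hm.le m
    have c2 := Real.log_le_log (by positivity) c1
    rw [Real.log_div (by positivity) (by positivity), Real.log_pow, Real.log_exp] at c2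
    have c3 : Real.exp 1 * Real.sqrt L ≤ m := by
      have := Real.exp_one_lt_d9
      nlinarith
    have c4 := Real.log_le_log (by positivity) c3
    rw [Real.log_mul (by positivity) hs.ne', Real.log_exp, Real.log_sqrt hL.le] at c4
    have c5 : 8 * (L / Real.log L) * (Real.log L / 2) ≤ m * (Real.log m - 1) :=
      mul_le_mul hc.le (by linarith) (by positivity) hm.le
    have c6 : 8 * (L / Real.log L) * (Real.log L / 2) = 4 * L := by field_simp; ring
    nlinarith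
  have hC' : (0 : ℝ) ≤ C := by positivity
  calc _ ≤ _ := a4
    _ ≤ C * (9 * (L / Real.log L)) := mul_le_mul_of_nonneg_left (by linarith) hC'
    _ = _ := by ring

end

end Pool.Agent.P.MP_d5a1e1_nt.Thin
end
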