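import Mathlib

-- part Pool.Agent.P.MP_d5a1e1_nt.GapEnergy
section

set_option autoImplicit false
set_option linter.unusedSectionVars false

namespace Pool.Agent.P.MP_d5a1e1_nt.Gap

open Finset

section Energy

variable {P Q γ : Type} [Fintype P] [Fintype Q] [DecidableEq γ]

/-- weighted number of pairs with equal values -/
def Bil (w : P → ℝ) (s : P → γ) (w' : Q → ℝ) (s' : Q → γ) : ℝ :=
  ∑ p, ∑ q, if s p = s' q then w p * w' q else 0

/-- weighted fibre -/
def Fib (w : P → ℝ) (s : P → γ) (d : γ) : ℝ := ∑ p, if s p = d then w p else 0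

theorem sum_fib (w : P → ℝ) (s : P → γ) (D : Finset γ) (hD : ∀ p, s p ∈ D) (g : γ → ℝ) :
    ∑ d ∈ D, Fib w s d * g d = ∑ p, w p * g (s p) := by
  simp only [Fib, sum_mul]
  rw [sum_comm]
  refine sum_congr rfl fun p _ => ?_
  simp only [ite_mul, zero_mul]
  rw [sum_ite_eq, if_pos (hD p)]

theorem bil_eq (w : P → ℝ) (s : P → γ) (w' : Q → ℝ) (s' : Q → γ) (D : Finset γ)
    (hD : ∀ p, s p ∈ D) : Bil w s w' s' = ∑ d ∈ D, Fib w s d * Fib w' s' d := by
  rw [sum_fib w s D hD]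
  simp only [Bil, Fib, mul_sum, mul_ite, mul_zero, eq_comm]

theorem two_bil_le (w : P → ℝ) (s : P → γ) (w' : Q → ℝ) (s' : Q → γ) :
    2 * Bil w s w' s' ≤ Bil w s w s + Bil w' s' w' s' := by
  let D := univ.image s ∪ univ.image s'
  have h1 : ∀ p, s p ∈ D := fun p => mem_union_left _ (mem_image_of_mem _ (mem_univ p))
  have h2 : ∀ q, s' q ∈ D := fun q => mem_union_right _ (mem_image_of_mem _ (mem_univ q))
  rw [bil_eq w s w' s' D h1, bil_eq w s w s D h1, bil_eq w' s' w' s' D h2, mul_sum,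
    ← sum_add_distrib]
  refine sum_le_sum fun d _ => ?_
  nlinarith [sq_nonneg (Fib w s d - Fib w' s' d)]

theorem bil_shift_le (w : P → ℝ) (s : P → ℤ) (i j : ℤ) :
    Bil w (fun p => s p + i) w (fun p => s p + j) ≤ Bil w s w s := by
  have := two_bil_le w (fun p => s p + i) w (fun p => s p + j)
  simp only [Bil, add_left_inj] at this ⊢
  linarith

theorem geom_le (ρ : ℝ) (N : ℕ) :
    (1 - ρ ^ 2) * ∑ n ∈ range N, (ρ ^ n) ^ 2 ≤ 1 := by
  have : ∑ n ∈ range N, (ρ ^ n) ^ 2 = ∑ n ∈ range N, (ρ ^ 2) ^ n :=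
    sum_congr rfl fun n _ => by rw [← pow_mul, ← pow_mul, mul_comm]
  rw [this, mul_neg_geom_sum]
  have : 0 ≤ (ρ ^ 2) ^ N := by positivity
  linarith

theorem cs_energy {ρ : ℝ} (h0 : 0 ≤ ρ) (h1 : ρ < 1) (w : P → ℝ) (s : P → ℕ) :
    (1 - ρ ^ 2) * (∑ p, w p * ρ ^ s p) ^ 2 ≤ Bil w s w s := by
  let N := univ.sup s + 1
  have hD : ∀ p, s p ∈ range N := fun p =>
    mem_range.2 (Nat.lt_succ_of_le (le_sup (f := s) (mem_univ p)))
  rw [bil_eq w s w s _ hD, ← sum_fib w s _ hD]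
  have hu : 0 ≤ 1 - ρ ^ 2 := by nlinarith
  have cs := sum_mul_sq_le_sq_mul_sq (range N) (Fib w s) (fun n => ρ ^ n)
  have hg := geom_le ρ N
  have hp : 0 ≤ ∑ d ∈ range N, Fib w s d ^ 2 := sum_nonneg fun _ _ => sq_nonneg _
  simp only [← sq]
  calc _ ≤ (1 - ρ ^ 2) * ((∑ d ∈ range N, Fib w s d ^ 2) * ∑ n ∈ range N, (ρ ^ n) ^ 2) :=
        mul_le_mul_of_nonneg_left cs hu
    _ = (∑ d ∈ range N, Fib w s d ^ 2) * ((1 - ρ ^ 2) * ∑ n ∈ range N, (ρ ^ n) ^ 2) := by ring
    _ ≤ _ := by nlinarith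

/-- Fejer smoothing of the energy -/
theorem fejer_lower {ρ : ℝ} (h0 : 0 ≤ ρ) (h1 : ρ < 1) (s : P → ℕ) (L : ℕ) :
    (1 - ρ ^ 2) * ((L : ℝ) * ρ ^ L * ∑ p, ρ ^ (2 * s p)) ^ 2 ≤
      ∑ i : Fin L, ∑ j : Fin L,
        Bil (fun p => ρ ^ s p) (fun p => s p + i) (fun p => ρ ^ s p) (fun p => s p + j) := by
  have key := cs_energy (P := Fin L × P) h0 h1 (fun z => ρ ^ s z.2) (fun z => s z.2 + z.1)
  have e1 : Bil (fun z : Fin L × P => ρ ^ s z.2) (fun z => s z.2 + z.1)
      (fun z : Fin L × P => ρ ^ s z.2) (fun z => s z.2 + z.1) = ∑ i : Fin L, ∑ j : Fin L,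
        Bil (fun p => ρ ^ s p) (fun p => s p + i) (fun p => ρ ^ s p) (fun p => s p + j) := by
    simp only [Bil, Fintype.sum_prod_type]
    refine sum_congr rfl fun i _ => ?_
    rw [sum_comm]
  rw [← e1]
  refine le_trans (mul_le_mul_of_nonneg_left ?_ (by nlinarith)) key
  refine pow_le_pow_left₀ (by positivity) ?_ 2
  rw [Fintype.sum_prod_type]
  calc (L : ℝ) * ρ ^ L * ∑ p, ρ ^ (2 * s p) = ∑ _i : Fin L, ∑ p, ρ ^ (2 * s p + L) := by
        simp only [sum_const, card_univ, Fintype.card_fin, nsmul_eq_mul, pow_add, ← sum_mul]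
        ring
    _ ≤ _ := by
        refine sum_le_sum fun i _ => sum_le_sum fun p _ => ?_
        rw [← pow_add]
        exact pow_le_pow_of_le_one h0 h1.le (by have := i.isLt; dsimp only; omega)

end Energy

section Tuples

variable {β : Type} [Fintype β] [DecidableEq β] (v : β → ℕ) (ρ : ℝ)

/-- sum of a tuple -/
def sg {j : ℕ} (x : Fin j → β) : ℕ := ∑ i, v (x i)

/-- the generating function at `ρ ^ 2` -/
def Mw : ℝ := ∑ b, ρ ^ (2 * v b)

/-- shifted energy of `j`-tuples -/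
def En (j : ℕ) (a b : ℕ) : ℝ :=
  Bil (fun x : Fin j → β => ρ ^ sg v x) (fun x => sg v x + a)
    (fun x : Fin j → β => ρ ^ sg v x) (fun x => sg v x + b)

theorem sum_wt (j : ℕ) : ∑ x : Fin j → β, ρ ^ (2 * sg v x) = Mw v ρ ^ j := by
  rw [Mw, Fintype.sum_pow]
  refine sum_congr rfl fun x _ => ?_
  rw [prod_pow_eq_pow_sum, sg, mul_sum]

theorem sg_insertNth {m : ℕ} (a : Fin (m + 1)) (c : β) (x : Fin m → β) :
    sg v (Fin.insertNth (α := fun _ => β) a c x) = v c + sg v x := by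
  simp [sg, Fin.sum_univ_succAbove _ a]

theorem sum_insertNth {m : ℕ} (a : Fin (m + 1)) (F : (Fin (m + 1) → β) → ℝ) :
    ∑ x, F x = ∑ c : β, ∑ x : Fin m → β, F (Fin.insertNth (α := fun _ => β) a c x) := by
  rw [← (Fin.insertNthEquiv (fun _ => β) a).sum_comp, Fintype.sum_prod_type]
  rfl

theorem sg_comp_perm {j : ℕ} (x : Fin j → β) (π : Equiv.Perm (Fin j)) : sg v (x ∘ π) = sg v x :=
  Equiv.sum_comp π fun i => v (x i)

/-- pairs with a common entry -/
theorem common_eq {m : ℕ} (a b : Fin (m + 1)) (i j : ℕ) :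
    (∑ x : Fin (m + 1) → β, ∑ y : Fin (m + 1) → β,
      if sg v x + i = sg v y + j ∧ x a = y b then ρ ^ sg v x * ρ ^ sg v y else 0) =
      Mw v ρ * En v ρ m i j := by
  rw [sum_insertNth a, Mw, sum_mul]
  refine sum_congr rfl fun c _ => ?_
  rw [En, Bil, mul_sum]
  refine sum_congr rfl fun x _ => ?_
  rw [sum_insertNth b, sum_comm, mul_sum]
  refine sum_congr rfl fun y _ => ?_
  simp only [sg_insertNth, Fin.insertNth_apply_same]
  rw [sum_eq_single c]
  · simp only [and_true, add_assoc, add_right_inj]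
    split_ifs
    · ring
    · simp
  · intro d _ hd
    rw [if_neg]
    exact fun h => hd h.2.symm
  · simp

variable {ρ}

/-- weight of the tuples with a repeated entry -/
def Dg (ρ : ℝ) (j : ℕ) : ℝ := ∑ x : Fin j → β, if Function.Injective x then 0 else ρ ^ (2 * sg v x)

theorem Dg_le (h0 : 0 ≤ ρ) (h1 : ρ < 1) (m : ℕ) :
    Dg v ρ (m + 1) ≤ ((m + 1 : ℕ) : ℝ) * m * Mw v ρ ^ m := by
  have step : ∀ x : Fin (m + 1) → β, (if Function.Injective x then 0 else ρ ^ (2 * sg v x)) ≤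
      ∑ a : Fin (m + 1), ∑ b : Fin m, if x a = x (a.succAbove b) then ρ ^ (2 * sg v x) else 0 := by
    intro x
    have hnn : ∀ (a : Fin (m + 1)) (b : Fin m),
        0 ≤ (if x a = x (a.succAbove b) then ρ ^ (2 * sg v x) else 0) := fun a b => by
      split_ifs <;> positivity
    split_ifs with h
    · exact sum_nonneg fun a _ => sum_nonneg fun b _ => hnn a b
    · simp only [Function.Injective, not_forall] at h
      obtain ⟨a, a', h2, h3⟩ := h
      obtain ⟨b, rfl⟩ := Fin.exists_succAbove_eq (Ne.symm h3)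
      refine le_trans ?_ (single_le_sum (f := fun a => ∑ b : Fin m,
        if x a = x (a.succAbove b) then ρ ^ (2 * sg v x) else 0)
        (fun a _ => sum_nonneg fun b _ => hnn a b) (mem_univ a))
      refine le_trans ?_ (single_le_sum (fun b _ => hnn a b) (mem_univ b))
      rw [if_pos h2]
  refine (sum_le_sum fun x _ => step x).trans ?_
  rw [sum_comm]
  have : ∀ (a : Fin (m + 1)) (b : Fin m), (∑ x : Fin (m + 1) → β,
      if x a = x (a.succAbove b) then ρ ^ (2 * sg v x) else 0) ≤ Mw v ρ ^ m := by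
    intro a b
    rw [sum_insertNth a, sum_comm, ← sum_wt]
    refine sum_le_sum fun x _ => ?_
    simp only [Fin.insertNth_apply_same, Fin.insertNth_apply_succAbove, sg_insertNth]
    rw [sum_ite_eq', if_pos (mem_univ _)]
    exact pow_le_pow_of_le_one h0 h1.le (by omega)
  calc _ ≤ ∑ _a : Fin (m + 1), ∑ _b : Fin m, Mw v ρ ^ m := by
        refine sum_le_sum fun a _ => ?_
        rw [sum_comm]
        exact sum_le_sum fun b _ => this a b
    _ = _ := by simp [mul_assoc]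

/-- the smoothed energy of short tuples is small -/
theorem smooth_le (h0 : 0 < ρ) (h1 : ρ < 1) (m L : ℕ) (W : ℝ)
    (hW : ∀ c : ℕ, ((univ.filter fun y : Fin m → β => c ≤ sg v y + L ∧ sg v y ≤ c + L).card : ℝ) ≤ W) :
    ∑ i : Fin L, ∑ j : Fin L, En v ρ m i j ≤ L * (ρ ^ L)⁻¹ * W * Mw v ρ ^ m := by
  simp only [En, Bil]
  have e1 : ∀ (x y : Fin m → β), (∑ i : Fin L, ∑ j : Fin L,
      if sg v x + i = sg v y + j then ρ ^ sg v x * ρ ^ sg v y else 0) ≤
      if sg v x ≤ sg v y + L ∧ sg v y ≤ sg v x + L then L * (ρ ^ L)⁻¹ * ρ ^ (2 * sg v x) else 0 := by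
    intro x y
    split_ifs with h
    · have b1 : ρ ^ sg v x * ρ ^ sg v y ≤ (ρ ^ L)⁻¹ * ρ ^ (2 * sg v x) := by
        rw [le_inv_mul_iff₀ (by positivity), ← pow_add, ← pow_add]
        exact pow_le_pow_of_le_one h0.le h1.le (by omega)
      calc _ ≤ ∑ _i : Fin L, (ρ ^ L)⁻¹ * ρ ^ (2 * sg v x) := by
            refine sum_le_sum fun i _ => ?_
            by_cases hex : ∃ j : Fin L, sg v x + i = sg v y + j
            · obtain ⟨j, hj⟩ := hex
              rw [sum_eq_single j, if_pos hj]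
              · exact b1
              · intro j' _ hne
                rw [if_neg]
                intro h'
                exact hne (Fin.ext (by omega))
              · simp
            · rw [sum_eq_zero fun j _ => if_neg fun h' => hex ⟨j, h'⟩]
              positivity
        _ = _ := by simp [mul_assoc]
    · refine le_of_eq (sum_eq_zero fun i _ => sum_eq_zero fun j _ => if_neg fun h' => h ?_)
      have := i.isLt
      have := j.isLt
      omega
  calc _ = ∑ x : Fin m → β, ∑ y : Fin m → β, ∑ i : Fin L, ∑ j : Fin L,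
        if sg v x + i = sg v y + j then ρ ^ sg v x * ρ ^ sg v y else 0 := by
        simp only [← Fintype.sum_prod_type']
        exact Fintype.sum_equiv ⟨fun z => (z.2.2.1, z.2.2.2, z.1, z.2.1),
          fun z => (z.2.2.1, z.2.2.2, z.1, z.2.1), fun _ => rfl, fun _ => rfl⟩ _ _ fun _ => rfl
    _ ≤ ∑ x : Fin m → β, L * (ρ ^ L)⁻¹ * W * ρ ^ (2 * sg v x) := by
        refine sum_le_sum fun x _ => (sum_le_sum fun y _ => e1 x y).trans ?_
        rw [← sum_filter, sum_const, nsmul_eq_mul]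
        have := hW (sg v x)
        have hp : 0 ≤ L * (ρ ^ L)⁻¹ * ρ ^ (2 * sg v x) := by positivity
        nlinarith
    _ = _ := by rw [← mul_sum, sum_wt]

end Tuples

end Pool.Agent.P.MP_d5a1e1_nt.Gap
end

-- part Pool.Agent.P.MP_d5a1e1_nt.GapLower
section

set_option autoImplicit false
set_option linter.unusedSectionVars false

namespace Pool.Agent.P.MP_d5a1e1_nt.Gap

open Finset

variable {β : Type} [Fintype β] [DecidableEq β] (v : β → ℕ) {ρ : ℝ} {h : ℕ} (f : Fin h → Bool)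

/-- mix two tuples -/
def pw (x y : Fin h → β) : Fin h → β := fun i => if f i then x i else y i

/-- no entry of the first block equals an entry of the second block -/
def Nd (p : Fin h → β) : Prop := ∀ i j, f i = true → f j = false → p i ≠ p j

instance (p : Fin h → β) : Decidable (Nd f p) := by unfold Nd; infer_instance

/-- signed sum -/
def ss (p : Fin h → β) : ℤ := ∑ i, if f i then (v (p i) : ℤ) else -(v (p i) : ℤ)

theorem pw_pw (x y : Fin h → β) : pw f (pw f x y) (pw f y x) = x := by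
  funext i
  simp only [pw]
  split_ifs <;> rfl

theorem ss_pw (x y : Fin h → β) :
    ss v f (pw f x y) - ss v f (pw f y x) = (sg v x : ℤ) - sg v y := by
  simp only [ss, sg, pw, Nat.cast_sum, ← sum_sub_distrib]
  refine sum_congr rfl fun i _ => ?_
  split_ifs <;> ring

theorem sg_pw (x y : Fin h → β) : sg v (pw f x y) + sg v (pw f y x) = sg v x + sg v y := by
  simp only [sg, pw, ← sum_add_distrib]
  refine sum_congr rfl fun i _ => ?_
  split_ifs <;> ring

/-- energy restricted to non-degenerate pairs -/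
def Nn (ρ : ℝ) (a b : ℕ) : ℝ :=
  ∑ x : Fin h → β, ∑ y : Fin h → β,
    if sg v x + a = sg v y + b ∧ Nd f (pw f x y) ∧ Nd f (pw f y x)
      then ρ ^ sg v x * ρ ^ sg v y else 0

theorem Nn_eq (a b : ℕ) : Nn v f ρ a b =
    Bil (fun p : Fin h → β => if Nd f p then ρ ^ sg v p else 0) (fun p => ss v f p + a)
      (fun p : Fin h → β => if Nd f p then ρ ^ sg v p else 0) (fun p => ss v f p + b) := by
  simp only [Nn, Bil, ← Fintype.sum_prod_type']
  refine Fintype.sum_equiv ⟨fun z => (pw f z.1 z.2, pw f z.2 z.1),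
    fun z => (pw f z.1 z.2, pw f z.2 z.1), fun z => ?_, fun z => ?_⟩ _ _ fun z => ?_
  · simp [pw_pw]
  · simp [pw_pw]
  · obtain ⟨x, y⟩ := z
    have e1 := ss_pw v f x y
    have e2 := sg_pw v f x y
    have e3 : (ss v f (pw f x y) + a = ss v f (pw f y x) + b) ↔ sg v x + a = sg v y + b := by
      omega
    simp only [Equiv.coe_fn_mk, e3]
    by_cases c1 : sg v x + a = sg v y + b <;> by_cases c2 : Nd f (pw f x y) <;>
      by_cases c3 : Nd f (pw f y x) <;> simp [c1, c2, c3, ← pow_add, e2]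

theorem Nn_le (a b : ℕ) : Nn v f ρ a b ≤ Nn v f ρ 0 0 := by
  rw [Nn_eq, Nn_eq]
  simpa using bil_shift_le (fun p : Fin h → β => if Nd f p then ρ ^ sg v p else 0) (ss v f) a b

theorem En_le_Nn (h0 : 0 ≤ ρ) {m : ℕ} (f : Fin (m + 1) → Bool) (a b : ℕ) :
    En v ρ (m + 1) a b ≤ Nn v f ρ a b + ((m + 1 : ℕ) : ℝ) ^ 2 * (Mw v ρ * En v ρ m a b) := by
  have e : ((m + 1 : ℕ) : ℝ) ^ 2 * (Mw v ρ * En v ρ m a b) =
      ∑ x : Fin (m + 1) → β, ∑ y : Fin (m + 1) → β, ∑ i : Fin (m + 1), ∑ j : Fin (m + 1),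
        if sg v x + a = sg v y + b ∧ x i = y j then ρ ^ sg v x * ρ ^ sg v y else 0 := by
    calc _ = ∑ i : Fin (m + 1), ∑ j : Fin (m + 1), ∑ x : Fin (m + 1) → β, ∑ y : Fin (m + 1) → β,
        if sg v x + a = sg v y + b ∧ x i = y j then ρ ^ sg v x * ρ ^ sg v y else 0 := by
          simp only [common_eq, sum_const, card_univ, Fintype.card_fin, nsmul_eq_mul]
          ring
      _ = _ := by
          simp only [← Fintype.sum_prod_type']
          exact Fintype.sum_equiv ⟨fun z => (z.2.2.1, z.2.2.2, z.1, z.2.1),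
            fun z => (z.2.2.1, z.2.2.2, z.1, z.2.1), fun _ => rfl, fun _ => rfl⟩ _ _ fun _ => rfl
  rw [e, En, Bil, Nn, ← sum_add_distrib]
  refine sum_le_sum fun x _ => ?_
  rw [← sum_add_distrib]
  refine sum_le_sum fun y _ => ?_
  have hnn : ∀ i j : Fin (m + 1),
      0 ≤ (if sg v x + a = sg v y + b ∧ x i = y j then ρ ^ sg v x * ρ ^ sg v y else 0) :=
    fun i j => by split_ifs <;> positivity
  have hs : 0 ≤ ∑ i : Fin (m + 1), ∑ j : Fin (m + 1),
      (if sg v x + a = sg v y + b ∧ x i = y j then ρ ^ sg v x * ρ ^ sg v y else 0) :=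
    sum_nonneg fun i _ => sum_nonneg fun j _ => hnn i j
  by_cases c1 : sg v x + a = sg v y + b
  swap
  · rw [if_neg c1, if_neg (fun h => c1 h.1)]; linarith
  by_cases c2 : Nd f (pw f x y) ∧ Nd f (pw f y x)
  · rw [if_pos c1, if_pos ⟨c1, c2⟩]; linarith
  have hex : ∃ i j, x i = y j := by
    by_contra hc
    push Not at hc
    refine c2 ⟨fun i j hi hj => ?_, fun i j hi hj => ?_⟩
    · simpa [pw, hi, hj] using hc i j
    · simpa [pw, hi, hj] using (hc j i).symm
  obtain ⟨i, j, hij⟩ := hex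
  rw [if_pos c1, if_neg (fun h => c2 h.2), zero_add]
  refine le_trans ?_ (single_le_sum (f := fun i => ∑ j : Fin (m + 1),
    (if sg v x + a = sg v y + b ∧ x i = y j then ρ ^ sg v x * ρ ^ sg v y else 0))
    (fun i _ => sum_nonneg fun j _ => hnn i j) (mem_univ i))
  refine le_trans ?_ (single_le_sum (fun j _ => hnn i j) (mem_univ j))
  rw [if_pos ⟨c1, hij⟩]

/-- permutations that move the blocks -/
def badPerms : Finset (Equiv.Perm (Fin h)) := univ.filter fun π => ¬ f ∘ π = f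

theorem Nn_add_le (h0 : 0 ≤ ρ) :
    Nn v f ρ 0 0 + (badPerms f).card * (Mw v ρ ^ h - Dg v ρ h) ≤ En v ρ h 0 0 := by
  rw [← sum_wt, Dg, ← sum_sub_distrib, mul_sum, Nn, En, Bil, ← sum_add_distrib]
  refine sum_le_sum fun x _ => ?_
  have hle : ∀ y : Fin h → β, (if sg v x + 0 = sg v y + 0 ∧ Nd f (pw f x y) ∧ Nd f (pw f y x)
      then ρ ^ sg v x * ρ ^ sg v y else 0) ≤
      (if sg v x + 0 = sg v y + 0 then ρ ^ sg v x * ρ ^ sg v y else 0) := by
    intro y
    split_ifs with c1 c2 c2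
    · exact le_rfl
    · exact (c2 c1.1).elim
    · positivity
    · exact le_rfl
  by_cases hx : Function.Injective x
  swap
  · rw [if_neg hx, sub_self, mul_zero, add_zero]
    exact sum_le_sum fun y _ => hle y
  rw [if_pos hx, sub_zero]
  have hinj : Set.InjOn (fun π : Equiv.Perm (Fin h) => x ∘ π) (badPerms f) := by
    intro π _ τ _ e
    exact Equiv.ext fun i => hx (congrFun e i)
  let S := (badPerms f).image fun π : Equiv.Perm (Fin h) => x ∘ π
  have hc : (badPerms f).card = S.card := (card_image_of_injOn hinj).symm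
  have e : ((badPerms f).card : ℝ) * ρ ^ (2 * sg v x) =
      ∑ y : Fin h → β, if y ∈ S then ρ ^ (2 * sg v x) else 0 := by
    rw [← sum_filter, filter_mem_eq_inter, univ_inter, sum_const, nsmul_eq_mul, hc]
  rw [e, ← sum_add_distrib]
  refine sum_le_sum fun y _ => ?_
  by_cases hy : y ∈ S
  swap
  · rw [if_neg hy, add_zero]; exact hle y
  obtain ⟨π, hπ, rfl⟩ := mem_image.1 hy
  have hbad := (mem_filter.1 hπ).2
  rw [if_pos hy, sg_comp_perm, if_pos rfl, if_neg, zero_add, two_mul, pow_add]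
  rintro ⟨-, n1, n2⟩
  apply hbad
  funext i
  by_contra hne
  cases hi : f i <;> cases hj : f (π i)
  · exact hne (by simp [hi, hj])
  · exact n1 (π i) i hj hi (by simp [pw, hi, hj])
  · exact n2 i (π i) hi hj (by simp [pw, hi, hj])
  · exact hne (by simp [hi, hj])

/-- the lower bound for the additive energy -/
theorem energy_lower (h0 : 0 < ρ) (h1 : ρ < 1) {m : ℕ} (f : Fin (m + 1) → Bool) (L : ℕ)
    (hL : 0 < L) (W : ℝ)
    (hW : ∀ c : ℕ, ((univ.filter fun y : Fin m → β => c ≤ sg v y + L ∧ sg v y ≤ c + L).card : ℝ) ≤ W) :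
    (1 - ρ ^ 2) * (ρ ^ L * Mw v ρ ^ (m + 1)) ^ 2
      + (badPerms f).card * (Mw v ρ ^ (m + 1) - Dg v ρ (m + 1))
      - ((m + 1 : ℕ) : ℝ) ^ 2 * (ρ ^ L)⁻¹ * (W / L) * Mw v ρ ^ (m + 1) ≤ En v ρ (m + 1) 0 0 := by
  have a1 := Nn_add_le v f h0.le
  have a2 := fejer_lower h0.le h1 (fun x : Fin (m + 1) → β => sg v x) L
  rw [sum_wt] at a2
  have a3 := smooth_le v h0 h1 m L W hW
  have hM : 0 ≤ Mw v ρ := sum_nonneg fun _ _ => by positivity
  have a4 : ∑ i : Fin L, ∑ j : Fin L, En v ρ (m + 1) i j ≤ (L : ℝ) ^ 2 * Nn v f ρ 0 0 +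
      ((m + 1 : ℕ) : ℝ) ^ 2 * Mw v ρ * ∑ i : Fin L, ∑ j : Fin L, En v ρ m i j := by
    calc _ ≤ ∑ i : Fin L, ∑ j : Fin L,
          (Nn v f ρ 0 0 + ((m + 1 : ℕ) : ℝ) ^ 2 * (Mw v ρ * En v ρ m i j)) :=
          sum_le_sum fun i _ => sum_le_sum fun j _ =>
            (En_le_Nn v h0.le f i j).trans (by linarith [Nn_le v f (ρ := ρ) i j])
      _ = _ := by
          simp only [sum_add_distrib, sum_const, card_univ, Fintype.card_fin, nsmul_eq_mul,
            mul_sum, mul_assoc]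
          ring
  have hL' : (0 : ℝ) < L := by exact_mod_cast hL
  have a5 : (L : ℝ) ^ 2 * ((1 - ρ ^ 2) * (ρ ^ L * Mw v ρ ^ (m + 1)) ^ 2 -
      ((m + 1 : ℕ) : ℝ) ^ 2 * (ρ ^ L)⁻¹ * (W / L) * Mw v ρ ^ (m + 1)) ≤
      (L : ℝ) ^ 2 * Nn v f ρ 0 0 := by
    have b1 := mul_le_mul_of_nonneg_left a3
      (show 0 ≤ ((m + 1 : ℕ) : ℝ) ^ 2 * Mw v ρ by positivity)
    have b2 : (L : ℝ) ^ 2 * (((m + 1 : ℕ) : ℝ) ^ 2 * (ρ ^ L)⁻¹ * (W / L) * Mw v ρ ^ (m + 1)) =
        ((m + 1 : ℕ) : ℝ) ^ 2 * Mw v ρ * (L * (ρ ^ L)⁻¹ * W * Mw v ρ ^ m) := by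
      field_simp
      ring
    have b3 : (L : ℝ) ^ 2 * ((1 - ρ ^ 2) * (ρ ^ L * Mw v ρ ^ (m + 1)) ^ 2) =
        (1 - ρ ^ 2) * (L * ρ ^ L * Mw v ρ ^ (m + 1)) ^ 2 := by ring
    rw [mul_sub, b2, b3]
    simp only [En] at a4 b1
    linarith
  have a6 := le_of_mul_le_mul_left a5 (by positivity)
  linarith

theorem card_badPerms (k : ℕ) (hk : k ≤ h) :
    (badPerms fun i : Fin h => decide (i.val < k)).card + k.factorial * (h - k).factorial =
      h.factorial := by
  have e1 := DomMulAct.stabilizer_card (fun i : Fin h => decide (i.val < k))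
  rw [Fintype.card_subtype] at e1
  have e2 := card_filter_add_card_filter_not (s := (univ : Finset (Equiv.Perm (Fin h))))
    (fun π => (fun i : Fin h => decide (i.val < k)) ∘ π = fun i : Fin h => decide (i.val < k))
  rw [e1, card_univ, Fintype.card_perm, Fintype.card_fin] at e2
  have c1 : Fintype.card {a : Fin h // decide (a.val < k) = true} = k := by
    simp only [decide_eq_true_eq]
    rw [Fintype.card_subtype, Fin.card_filter_val_lt]
    omega
  have c2 : Fintype.card {a : Fin h // decide (a.val < k) = false} = h - k := by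
    have := Fintype.card_subtype_compl (fun a : Fin h => decide (a.val < k) = true)
    rw [c1, Fintype.card_fin] at this
    rw [← this]
    exact Fintype.card_congr (Equiv.subtypeEquivRight fun a => by simp)
  rw [Fintype.prod_bool, c1, c2] at e2
  rw [badPerms]
  omega

end Pool.Agent.P.MP_d5a1e1_nt.Gap
end

-- part Pool.Agent.P.MP_d5a1e1_nt.GapUpper
section

set_option autoImplicit false
set_option linter.unusedSectionVars false

namespace Pool.Agent.P.MP_d5a1e1_nt.Gap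

open Finset

variable {β : Type} [Fintype β] [DecidableEq β] (v : β → ℕ) {ρ : ℝ}

/-- number of ordered representations -/
def Rc (j n : ℕ) : ℕ := (univ.filter fun x : Fin j → β => sg v x = n).card

/-- number of ordered representations with a repeated entry -/
def Rd (j n : ℕ) : ℕ := (univ.filter fun x : Fin j → β => sg v x = n ∧ ¬ Function.Injective x).card

theorem fib_eq (j n : ℕ) : Fib (fun x : Fin j → β => ρ ^ sg v x) (sg v) n = ρ ^ n * Rc v j n := by
  rw [Fib, Rc, ← sum_filter, mul_comm, ← nsmul_eq_mul, ← sum_const]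
  exact sum_congr rfl fun x hx => by rw [(mem_filter.1 hx).2]

theorem fib_deg (j n : ℕ) : Fib (fun x : Fin j → β => if Function.Injective x then 0 else
    ρ ^ sg v x) (sg v) n = ρ ^ n * Rd v j n := by
  rw [Fib, Rd, mul_comm, ← nsmul_eq_mul, ← sum_const, sum_filter]
  refine sum_congr rfl fun x _ => ?_
  by_cases c1 : sg v x = n <;> by_cases c2 : Function.Injective x <;> simp [c1, c2]

theorem M_eq (j N : ℕ) (hN : ∀ x : Fin j → β, sg v x ∈ range N) :
    Mw v ρ ^ j = ∑ n ∈ range N, (ρ ^ n) ^ 2 * Rc v j n := by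
  have := sum_fib (fun x : Fin j → β => ρ ^ sg v x) (sg v) _ hN (fun n => ρ ^ n)
  simp only [fib_eq, ← pow_add, ← two_mul, sum_wt] at this
  rw [← this]
  exact sum_congr rfl fun n _ => by ring

theorem Dg_eq (j N : ℕ) (hN : ∀ x : Fin j → β, sg v x ∈ range N) :
    Dg v ρ j = ∑ n ∈ range N, (ρ ^ n) ^ 2 * Rd v j n := by
  have := sum_fib (fun x : Fin j → β => if Function.Injective x then 0 else ρ ^ sg v x) (sg v) _ hN
    (fun n => ρ ^ n)
  simp only [fib_deg, ite_mul, zero_mul, ← pow_add, ← two_mul] at this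
  rw [Dg, ← this]
  exact sum_congr rfl fun n _ => by ring

theorem En_eq (j N : ℕ) (hN : ∀ x : Fin j → β, sg v x ∈ range N) :
    En v ρ j 0 0 = ∑ n ∈ range N, (ρ ^ n) ^ 2 * (Rc v j n : ℝ) ^ 2 := by
  simp only [En, add_zero]
  rw [bil_eq _ _ _ _ _ hN]
  simp only [fib_eq]
  exact sum_congr rfl fun n _ => by ring

theorem exists_range (j T : ℕ) : ∃ N, T < N ∧ ∀ x : Fin j → β, sg v x ∈ range N :=
  ⟨max T (univ.sup (sg v (j := j))) + 1, Nat.lt_succ_of_le (le_max_left _ _), fun x =>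
    mem_range.2 (Nat.lt_succ_of_le (le_max_of_le_right (le_sup (f := sg v) (mem_univ x))))⟩

theorem M_le (h0 : 0 ≤ ρ) (h1 : ρ < 1) (j : ℕ) (C : ℝ) (hC : ∀ n, (Rc v j n : ℝ) ≤ C) :
    (1 - ρ ^ 2) * Mw v ρ ^ j ≤ C := by
  obtain ⟨N, -, hN⟩ := exists_range v j 0
  have hu : 0 ≤ 1 - ρ ^ 2 := by nlinarith
  have hC0 : 0 ≤ C := le_trans (by positivity) (hC 0)
  rw [M_eq v j N hN]
  calc _ ≤ (1 - ρ ^ 2) * ∑ n ∈ range N, (ρ ^ n) ^ 2 * C :=
        mul_le_mul_of_nonneg_left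
          (sum_le_sum fun n _ => mul_le_mul_of_nonneg_left (hC n) (by positivity)) hu
    _ = ((1 - ρ ^ 2) * ∑ n ∈ range N, (ρ ^ n) ^ 2) * C := by rw [← sum_mul]; ring
    _ ≤ _ := by nlinarith [geom_le ρ N]

theorem abel_bound (E : ℕ → Prop) [DecidablePred E] {x δ K : ℝ} (h0 : 0 ≤ x) (h1 : x ≤ 1)
    (hE : ∀ N, (((range N).filter E).card : ℝ) ≤ δ * N + K) (T : ℕ) :
    ∑ n ∈ range T, ((if E n then 1 else 0) - δ) * x ^ n ≤ K := by
  have key : ∀ T : ℕ, ∑ n ∈ range T, ((if E n then 1 else 0) - δ) * x ^ n -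
      ((((range T).filter E).card : ℝ) - δ * T) * x ^ T ≤ K * (1 - x ^ T) := by
    intro T
    induction T with
    | zero => simp
    | succ T ih =>
      have e : (((range (T + 1)).filter E).card : ℝ) =
          ((range T).filter E).card + if E T then 1 else 0 := by
        simp only [card_filter, sum_range_succ]
        push_cast
        rfl
      have i1 := hE (T + 1)
      have i2 : 0 ≤ x ^ T - x ^ (T + 1) := sub_nonneg.2 (pow_le_pow_of_le_one h0 h1 (by omega))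
      have i3 := mul_le_mul_of_nonneg_right (sub_le_iff_le_add'.2 i1) i2
      rw [sum_range_succ]
      rw [e] at i3 ⊢
      push_cast at i3 ⊢
      linarith
  have i1 := key T
  have i2 := mul_le_mul_of_nonneg_right (sub_le_iff_le_add'.2 (hE T)) (pow_nonneg h0 T)
  linarith

theorem good_sum (E : ℕ → Prop) [DecidablePred E] {δ K : ℝ} (h0 : 0 ≤ ρ) (h1 : ρ < 1)
    (hδ : 0 ≤ δ) (hE : ∀ N, (((range N).filter E).card : ℝ) ≤ δ * N + K) (n0 T N : ℕ)
    (hT : n0 ≤ T) (hN : T < N) :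
    (ρ ^ 2) ^ n0 - (ρ ^ 2) ^ (T + 1) - δ - (1 - ρ ^ 2) * K ≤
      (1 - ρ ^ 2) * ∑ n ∈ range N, if n0 ≤ n ∧ n ≤ T ∧ ¬ E n then (ρ ^ n) ^ 2 else 0 := by
  have hu : 0 ≤ 1 - ρ ^ 2 := by nlinarith
  have e : ∀ n, (ρ ^ n) ^ 2 = (ρ ^ 2) ^ n := fun n => by rw [← pow_mul, ← pow_mul, mul_comm]
  have g1 : (ρ ^ 2) ^ n0 - (ρ ^ 2) ^ (T + 1) =
      (1 - ρ ^ 2) * ∑ n ∈ range N, if n0 ≤ n ∧ n ≤ T then (ρ ^ n) ^ 2 else 0 := by
    rw [← sum_filter]
    have : (range N).filter (fun n => n0 ≤ n ∧ n ≤ T) = Ico n0 (T + 1) := by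
      ext n; simp only [mem_filter, mem_range, mem_Ico]; omega
    rw [this, sum_Ico_eq_sub _ (by omega), mul_sub]
    simp only [e]
    rw [mul_neg_geom_sum, mul_neg_geom_sum]
    ring
  have g2 := abel_bound E (x := ρ ^ 2) (by positivity) (by linarith) hE N
  have g3 := geom_le ρ N
  simp only [sub_mul, sum_sub_distrib, ← mul_sum, ← e] at g2
  have g4 : (∑ n ∈ range N, if n0 ≤ n ∧ n ≤ T then (ρ ^ n) ^ 2 else 0) ≤
      (∑ n ∈ range N, if n0 ≤ n ∧ n ≤ T ∧ ¬ E n then (ρ ^ n) ^ 2 else 0) +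
      ∑ n ∈ range N, (if E n then 1 else 0) * (ρ ^ n) ^ 2 := by
    rw [← sum_add_distrib]
    refine sum_le_sum fun n _ => ?_
    have : 0 ≤ (ρ ^ n) ^ 2 := by positivity
    by_cases c1 : n0 ≤ n <;> by_cases c2 : n ≤ T <;> by_cases c3 : E n <;> simp [c1, c2, c3, this]
  rw [g1]
  nlinarith [mul_le_mul_of_nonneg_left g4 hu, mul_le_mul_of_nonneg_left g2 hu,
    mul_le_mul_of_nonneg_left g3 hδ]

theorem energy_upper (h0 : 0 ≤ ρ) (h1 : ρ < 1) (j n0 T : ℕ) (hT : n0 ≤ T) (P a b C : ℝ)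
    (hP : 0 ≤ P) (ha : 0 ≤ a) (hb : 0 ≤ b) (E : ℕ → Prop) [DecidablePred E] {δ K : ℝ}
    (hδ : 0 ≤ δ) (hE : ∀ N, (((range N).filter E).card : ℝ) ≤ δ * N + K)
    (H1 : ∀ n, (Rc v j n : ℝ) ≤ C) (H2 : ∀ n, n0 ≤ n → (Rc v j n : ℝ) ≤ P * b)
    (H3 : ∀ n, ¬ E n → n ≤ T → P * a ≤ Rc v j n + P * Rd v j n) :
    (1 - ρ ^ 2) * En v ρ j 0 0 ≤ P * (a + b) * ((1 - ρ ^ 2) * Mw v ρ ^ j)
      - P ^ 2 * a * b * ((ρ ^ 2) ^ n0 - (ρ ^ 2) ^ (T + 1) - δ - (1 - ρ ^ 2) * K)
      + P ^ 2 * b * ((1 - ρ ^ 2) * Dg v ρ j) + (1 - ρ ^ 2) * (C ^ 2 * n0) := by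
  obtain ⟨N, hTN, hN⟩ := exists_range v j T
  have hu : 0 ≤ 1 - ρ ^ 2 := by nlinarith
  have g1 := good_sum E h0 h1 hδ hE n0 T N hT hTN
  have g2 : ∑ n ∈ range N, (if n < n0 then C ^ 2 else 0) ≤ C ^ 2 * n0 := by
    rw [← sum_filter, sum_const, nsmul_eq_mul, mul_comm]
    refine mul_le_mul_of_nonneg_left ?_ (sq_nonneg _)
    have : (range N).filter (fun n => n < n0) ⊆ range n0 := fun n hn =>
      mem_range.2 (mem_filter.1 hn).2
    exact_mod_cast (card_le_card this).trans (card_range n0).le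
  have key : En v ρ j 0 0 ≤ P * (a + b) * Mw v ρ ^ j
      - P ^ 2 * a * b * (∑ n ∈ range N, if n0 ≤ n ∧ n ≤ T ∧ ¬ E n then (ρ ^ n) ^ 2 else 0)
      + P ^ 2 * b * Dg v ρ j + ∑ n ∈ range N, (if n < n0 then C ^ 2 else 0) := by
    rw [En_eq v j N hN, M_eq v j N hN, Dg_eq v j N hN, mul_sum, mul_sum, mul_sum,
      ← sum_sub_distrib, ← sum_add_distrib, ← sum_add_distrib]
    refine sum_le_sum fun n _ => ?_
    have r0 : (0 : ℝ) ≤ Rc v j n := by positivity
    have d0 : (0 : ℝ) ≤ Rd v j n := by positivity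
    have w0 : 0 ≤ (ρ ^ n) ^ 2 := by positivity
    have w1 : (ρ ^ n) ^ 2 ≤ 1 := pow_le_one₀ (by positivity) (pow_le_one₀ h0 h1.le)
    generalize (ρ ^ n) ^ 2 = w at w0 w1
    by_cases c1 : n0 ≤ n
    · have i2 := H2 n c1
      rw [if_neg (not_lt.2 c1)]
      by_cases c2 : n ≤ T ∧ ¬ E n
      · have i3 := H3 n c2.2 c2.1
        rw [if_pos ⟨c1, c2⟩]
        have : (Rc v j n : ℝ) ^ 2 ≤ P * (a + b) * Rc v j n - P ^ 2 * a * b +
            P ^ 2 * b * Rd v j n := by
          nlinarith [mul_nonneg (sub_nonneg.2 i2) (sub_nonneg.2 i3),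
            mul_nonneg (mul_nonneg hP d0) r0]
        nlinarith [mul_le_mul_of_nonneg_left this w0]
      · rw [if_neg (fun h => c2 h.2)]
        have : (Rc v j n : ℝ) ^ 2 ≤ P * (a + b) * Rc v j n + P ^ 2 * b * Rd v j n := by
          nlinarith [mul_nonneg (sub_nonneg.2 i2) r0, mul_nonneg (mul_nonneg hP ha) r0,
            mul_nonneg (mul_nonneg (sq_nonneg P) hb) d0]
        nlinarith [mul_le_mul_of_nonneg_left this w0]
    · rw [if_neg (fun h => c1 h.1), if_pos (not_le.1 c1)]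
      have i1 := H1 n
      have : (Rc v j n : ℝ) ^ 2 ≤ C ^ 2 := pow_le_pow_left₀ r0 i1 2
      have t1 : 0 ≤ P * (a + b) * (w * Rc v j n) := by positivity
      have t2 : 0 ≤ P ^ 2 * b * (w * Rd v j n) := by positivity
      nlinarith [mul_le_mul w1 this (sq_nonneg _) zero_le_one]
  have g3 := mul_le_mul_of_nonneg_left g1 (show 0 ≤ P ^ 2 * a * b by positivity)
  nlinarith [mul_le_mul_of_nonneg_left key hu, mul_le_mul_of_nonneg_left g2 hu]

theorem window (m L : ℕ) (C : ℝ) (H1 : ∀ n, (Rc v (m + 1) n : ℝ) ≤ C) (c : ℕ) :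
    ((univ.filter fun b => v b ≤ L).card : ℝ) *
      ((univ.filter fun y : Fin m → β => c ≤ sg v y + L ∧ sg v y ≤ c + L).card : ℝ) ≤
      (3 * L + 1) * C := by
  have hC0 : 0 ≤ C := le_trans (by positivity) (H1 0)
  let S := (univ.filter fun x : Fin (m + 1) → β => sg v x ∈ Icc (c - L) (c + 2 * L))
  have e1 : (univ.filter fun b => v b ≤ L).card *
      (univ.filter fun y : Fin m → β => c ≤ sg v y + L ∧ sg v y ≤ c + L).card ≤ S.card := by
    rw [← card_product]
    refine card_le_card_of_injOn (fun z => Fin.insertNthEquiv (fun _ => β) 0 z) ?_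
      (Equiv.injective _).injOn
    intro z hz
    obtain ⟨z1, z2⟩ := mem_product.1 (mem_coe.1 hz)
    have z1' := (mem_filter.1 z1).2
    have z2' := (mem_filter.1 z2).2
    refine mem_coe.2 (mem_filter.2 ⟨mem_univ _, ?_⟩)
    have : sg v (Fin.insertNthEquiv (fun _ => β) 0 z) = v z.1 + sg v z.2 := sg_insertNth v 0 z.1 z.2
    rw [this, mem_Icc]
    omega
  have e2 : S.card = ∑ n ∈ Icc (c - L) (c + 2 * L), Rc v (m + 1) n := by
    rw [card_eq_sum_card_fiberwise (f := sg v) (t := Icc (c - L) (c + 2 * L))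
      (fun x hx => mem_coe.2 (mem_filter.1 (mem_coe.1 hx)).2)]
    refine sum_congr rfl fun n hn => ?_
    rw [Rc, filter_filter]
    congr 1
    ext x
    simp only [mem_filter, mem_univ, true_and, and_iff_right_iff_imp]
    rintro rfl
    exact hn
  have e3 : (S.card : ℝ) ≤ (3 * L + 1) * C := by
    rw [e2]
    push_cast
    refine (sum_le_card_nsmul _ _ C fun n _ => H1 n).trans ?_
    rw [nsmul_eq_mul]
    refine mul_le_mul_of_nonneg_right ?_ hC0
    rw [Nat.card_Icc]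
    exact_mod_cast (show c + 2 * L + 1 - (c - L) ≤ 3 * L + 1 by omega)
  exact le_trans (by exact_mod_cast e1) e3

theorem pow_split {M K : ℝ} (hM : 0 ≤ M) (hK : 0 < K) (m : ℕ) :
    M ^ m ≤ M ^ (m + 1) / K + K ^ m := by
  rcases le_total M K with h | h
  · have := pow_le_pow_left₀ hM h m
    have : 0 ≤ M ^ (m + 1) / K := by positivity
    linarith
  · have : M ^ m ≤ M ^ (m + 1) / K := by
      rw [le_div_iff₀ hK, pow_succ]
      exact mul_le_mul_of_nonneg_left h (by positivity)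
    have : 0 ≤ K ^ m := by positivity
    linarith

theorem final_algebra (u X D q G s Z P κ a b C F : ℝ) (hu : 0 ≤ u) (hX : 0 ≤ X) (hD0 : 0 ≤ D)
    (hr1 : q ^ 2 ≤ 1) (hG0 : 0 ≤ G) (hZ0 : 0 ≤ Z) (hP : 1 ≤ P) (hκ1 : κ ≤ 1) (hb : 0 ≤ b)
    (hMC : u * X ≤ C) (hD : u * D ≤ F)
    (lo : u * (u * (q * X) ^ 2 + κ * P * (X - D) - G * X) ≤
      P * (a + b) * (u * X) - P ^ 2 * a * b * s + P ^ 2 * b * (u * D) + Z) :
    a * b - (a + b - κ) ^ 2 / 4 ≤ (1 - q ^ 2) * C ^ 2 + a * b * (1 - s) + (b + 1) * F + Z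
      + G * C := by
  have hP0 : 0 < P := by linarith
  obtain ⟨μ, hμP⟩ : ∃ μ, u * X = μ * P := ⟨u * X / P, by field_simp⟩
  have hμ0 : 0 ≤ μ := by
    have : 0 ≤ μ * P := by rw [← hμP]; positivity
    exact nonneg_of_mul_nonneg_left this hP0
  have hμC : μ ≤ C := by nlinarith
  have hC0 : 0 ≤ C := hμ0.trans hμC
  have hE0 : 0 ≤ u * D := by positivity
  have e1 : u * (u * (q * X) ^ 2 + κ * P * (X - D) - G * X) =
      q ^ 2 * (u * X) ^ 2 + κ * P * (u * X) - κ * P * (u * D) - G * (u * X) := by ring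
  rw [e1, hμP] at lo
  generalize u * D = E at hD lo hE0
  generalize q ^ 2 = r at hr1 lo
  have hP2 : P ≤ P ^ 2 := by nlinarith
  have main2 : r * μ ^ 2 + κ * μ - E - G * C ≤ (a + b) * μ - a * b * s + b * E + Z := by
    refine le_of_mul_le_mul_left ?_ (show 0 < P ^ 2 by positivity)
    have t1 : κ * P * E ≤ P ^ 2 * E := mul_le_mul_of_nonneg_right (by nlinarith) hE0
    have t2 : G * μ * P ≤ G * C * P ^ 2 :=
      mul_le_mul (mul_le_mul_of_nonneg_left hμC hG0) hP2 hP0.le (by positivity)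
    have t3 : 1 * Z ≤ P ^ 2 * Z := mul_le_mul_of_nonneg_right (by linarith) hZ0
    linarith
  have t4 : (1 - r) * μ ^ 2 ≤ (1 - r) * C ^ 2 :=
    mul_le_mul_of_nonneg_left (pow_le_pow_left₀ hμ0 hμC 2) (by linarith)
  have t5 := mul_le_mul_of_nonneg_left hD (show 0 ≤ b + 1 by linarith)
  linarith [sq_nonneg (μ - (a + b - κ) / 2)]

/-- the finite inequality -/
theorem finite_ineq (h0 : 0 < ρ) (h1 : ρ < 1) (m : ℕ) (f : Fin (m + 1) → Bool) (n0 T L : ℕ)
    (hT : n0 ≤ T) (hL : 0 < L) (P κ a b C K α : ℝ) (hP : 1 ≤ P) (hκ : κ * P = (badPerms f).card)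
    (hκ1 : κ ≤ 1) (ha : 0 ≤ a) (hb : 0 ≤ b) (hK : 0 < K) (hα : 0 < α)
    (E : ℕ → Prop) [DecidablePred E] {δ K' : ℝ}
    (hδ : 0 ≤ δ) (hE : ∀ N, (((range N).filter E).card : ℝ) ≤ δ * N + K')
    (H1 : ∀ n, (Rc v (m + 1) n : ℝ) ≤ C) (H2 : ∀ n, n0 ≤ n → (Rc v (m + 1) n : ℝ) ≤ P * b)
    (H3 : ∀ n, ¬ E n → n ≤ T → P * a ≤ Rc v (m + 1) n + P * Rd v (m + 1) n)
    (H4 : α ≤ (univ.filter fun b => v b ≤ L).card) :
    a * b - (a + b - κ) ^ 2 / 4 ≤ (1 - (ρ ^ L) ^ 2) * C ^ 2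
      + a * b * (1 - (ρ ^ 2) ^ n0 + (ρ ^ 2) ^ (T + 1) + δ + (1 - ρ ^ 2) * K')
      + (b + 1) * (((m + 1 : ℕ) : ℝ) ^ 2 * (C / K + (1 - ρ ^ 2) * K ^ m))
      + (1 - ρ ^ 2) * (C ^ 2 * n0) + ((m + 1 : ℕ) : ℝ) ^ 2 * (ρ ^ L)⁻¹ * (4 * C / α) * C := by
  have hC0 : 0 ≤ C := le_trans (by positivity) (H1 0)
  have hu : 0 ≤ 1 - ρ ^ 2 := by nlinarith
  have hL' : (1 : ℝ) ≤ L := by exact_mod_cast hL
  have hM : 0 ≤ Mw v ρ := sum_nonneg fun _ _ => by positivity
  have hP0 : 0 < P := by linarith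
  have hW : ∀ c : ℕ, ((univ.filter fun y : Fin m → β =>
      c ≤ sg v y + L ∧ sg v y ≤ c + L).card : ℝ) ≤ 4 * C / α * L := by
    intro c
    have w1 := window v m L C H1 c
    rw [div_mul_eq_mul_div, le_div_iff₀ hα]
    have w2 := mul_le_mul_of_nonneg_right H4 (show (0 : ℝ) ≤ ((univ.filter fun y : Fin m → β =>
      c ≤ sg v y + L ∧ sg v y ≤ c + L).card : ℝ) by positivity)
    nlinarith
  have lo := energy_lower v h0 h1 f L hL _ hW
  rw [mul_div_cancel_right₀ _ (by positivity), ← hκ] at lo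
  have up := energy_upper v h0.le h1 (m + 1) n0 T hT P a b C hP0.le ha hb E hδ hE H1 H2 H3
  have hMC := M_le v h0.le h1 (m + 1) C H1
  have hD0 : 0 ≤ Dg v ρ (m + 1) := sum_nonneg fun _ _ => by split_ifs <;> positivity
  have hD : (1 - ρ ^ 2) * Dg v ρ (m + 1) ≤
      ((m + 1 : ℕ) : ℝ) ^ 2 * (C / K + (1 - ρ ^ 2) * K ^ m) := by
    have d1 := Dg_le v h0.le h1 m
    have d2 := pow_split hM hK m
    have d3 : (1 - ρ ^ 2) * Mw v ρ ^ m ≤ C / K + (1 - ρ ^ 2) * K ^ m := by
      have := mul_le_mul_of_nonneg_left d2 hu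
      have d4 : (1 - ρ ^ 2) * (Mw v ρ ^ (m + 1) / K) ≤ C / K := by
        rw [← mul_div_assoc]
        exact div_le_div_of_nonneg_right hMC hK.le
      linarith
    have d5 : ((m + 1 : ℕ) : ℝ) * m ≤ ((m + 1 : ℕ) : ℝ) ^ 2 := by
      push_cast
      have : (0 : ℝ) ≤ m := by positivity
      nlinarith
    have d6 : 0 ≤ (1 - ρ ^ 2) * Mw v ρ ^ m := by positivity
    calc _ ≤ (1 - ρ ^ 2) * (((m + 1 : ℕ) : ℝ) * m * Mw v ρ ^ m) := mul_le_mul_of_nonneg_left d1 hu
      _ = ((m + 1 : ℕ) : ℝ) * m * ((1 - ρ ^ 2) * Mw v ρ ^ m) := by ring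
      _ ≤ _ := mul_le_mul d5 d3 d6 (by positivity)
  have lo' := (mul_le_mul_of_nonneg_left lo hu).trans up
  have hr1 : (ρ ^ L) ^ 2 ≤ 1 := pow_le_one₀ (by positivity) (pow_le_one₀ h0.le h1.le)
  have fin := final_algebra (1 - ρ ^ 2) (Mw v ρ ^ (m + 1)) (Dg v ρ (m + 1)) (ρ ^ L)
    (((m + 1 : ℕ) : ℝ) ^ 2 * (ρ ^ L)⁻¹ * (4 * C / α))
    ((ρ ^ 2) ^ n0 - (ρ ^ 2) ^ (T + 1) - δ - (1 - ρ ^ 2) * K')
    ((1 - ρ ^ 2) * (C ^ 2 * n0)) P κ a b C _ hu (by positivity) hD0 hr1 (by positivity)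
    (by positivity) hP hκ1 hb hMC hD lo'
  have t6 : 1 - (ρ ^ 2) ^ n0 + (ρ ^ 2) ^ (T + 1) + δ + (1 - ρ ^ 2) * K' =
      1 - ((ρ ^ 2) ^ n0 - (ρ ^ 2) ^ (T + 1) - δ - (1 - ρ ^ 2) * K') := by ring
  rw [t6]
  exact fin

end Pool.Agent.P.MP_d5a1e1_nt.Gap
end

-- part Pool.Agent.P.MP_d5a1e1_nt.GapMain
section

set_option autoImplicit false
set_option linter.unusedSectionVars false

namespace Pool.Agent.P.MP_d5a1e1_nt.Gap

open Finset Filter Topology

section

variable {β : Type} [Fintype β] [DecidableEq β] (v : β → ℕ)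

/-- the multiset of values of a tuple -/
def ms {j : ℕ} (x : Fin j → β) : Multiset ℕ := univ.val.map fun i => v (x i)

theorem ms_comp_perm {j : ℕ} (x : Fin j → β) (π : Equiv.Perm (Fin j)) : ms v (x ∘ π) = ms v x := by
  unfold ms
  conv_rhs => rw [← Multiset.map_univ_val_equiv π, Multiset.map_map]
  rfl

theorem exists_perm_of_ms (hv : Function.Injective v) {j : ℕ} {x y : Fin j → β}
    (h : ms v x = ms v y) : ∃ π : Equiv.Perm (Fin j), y ∘ π = x := by
  have hc : ∀ c : β, Fintype.card {i // x i = c} = Fintype.card {i // y i = c} := by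
    intro c
    have := congrArg (Multiset.count (v c)) h
    simp only [ms, Multiset.count_map, hv.eq_iff] at this
    rw [Fintype.card_subtype, Fintype.card_subtype]
    simp only [eq_comm (b := c)]
    exact this
  exact ⟨Equiv.ofFiberEquiv fun c => Fintype.equivOfCardEq (hc c),
    funext fun i => Equiv.ofFiberEquiv_map _ i⟩

theorem Rc_le_image (hv : Function.Injective v) (j n : ℕ) :
    Rc v j n ≤ j.factorial *
      ((univ.filter fun x : Fin j → β => sg v x = n).image (ms v)).card := by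
  refine card_le_mul_card_image _ _ fun s hs => ?_
  obtain ⟨y, -, rfl⟩ := mem_image.1 hs
  calc _ ≤ (univ.image fun π : Equiv.Perm (Fin j) => y ∘ π).card := by
        refine card_le_card fun x hx => ?_
        obtain ⟨π, hπ⟩ := exists_perm_of_ms v hv (mem_filter.1 hx).2
        exact mem_image.2 ⟨π, mem_univ _, hπ⟩
    _ ≤ _ := card_image_le.trans (by rw [card_univ, Fintype.card_perm, Fintype.card_fin])

theorem image_le_Rc (j n : ℕ) :
    j.factorial * ((univ.filter fun x : Fin j → β => sg v x = n).image (ms v)).card ≤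
      Rc v j n + j.factorial * Rd v j n := by
  let S1 := univ.filter fun x : Fin j → β => sg v x = n ∧ Function.Injective x
  let S2 := univ.filter fun x : Fin j → β => sg v x = n ∧ ¬ Function.Injective x
  have e1 : (univ.filter fun x : Fin j → β => sg v x = n) ⊆ S1 ∪ S2 := by
    intro x hx
    by_cases c : Function.Injective x
    · exact mem_union_left _ (mem_filter.2 ⟨mem_univ _, (mem_filter.1 hx).2, c⟩)
    · exact mem_union_right _ (mem_filter.2 ⟨mem_univ _, (mem_filter.1 hx).2, c⟩)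
  have e2 : ((univ.filter fun x : Fin j → β => sg v x = n).image (ms v)).card ≤
      (S1.image (ms v)).card + Rd v j n := by
    refine (card_le_card (image_subset_image e1)).trans ?_
    rw [image_union]
    exact (card_union_le _ _).trans (Nat.add_le_add_left card_image_le _)
  have e3 : j.factorial * (S1.image (ms v)).card ≤ S1.card := by
    refine mul_card_image_le_card _ _ fun s hs => ?_
    obtain ⟨y, hy, rfl⟩ := mem_image.1 hs
    obtain ⟨y1, y2⟩ := (mem_filter.1 hy).2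
    calc j.factorial = (univ : Finset (Equiv.Perm (Fin j))).card := by
          rw [card_univ, Fintype.card_perm, Fintype.card_fin]
      _ ≤ _ := by
          refine card_le_card_of_injOn (fun π => y ∘ π) (fun π _ => ?_) fun π _ τ _ e => ?_
          · exact mem_coe.2 (mem_filter.2 ⟨mem_filter.2 ⟨mem_univ _, by rw [sg_comp_perm, y1],
              y2.comp π.injective⟩, ms_comp_perm v y π⟩)
          · exact Equiv.ext fun i => y2 (congrFun e i)
  have e4 : S1.card ≤ Rc v j n :=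
    card_le_card fun x hx => mem_filter.2 ⟨mem_univ _, (mem_filter.1 hx).2.1⟩
  have := Nat.mul_le_mul_left j.factorial e2
  rw [mul_add] at this
  omega

end

/-- the set of unordered representations -/
def Rep (h : ℕ) (A : Set ℕ) (n : ℕ) : Set (Multiset ℕ) :=
  {s : Multiset ℕ | Multiset.card s = h ∧ (∀ a ∈ s, a ∈ A) ∧ s.sum = n}

open Classical in
/-- truncation of `A` -/
abbrev Tr (A : Set ℕ) (T : ℕ) : Type := {x // x ∈ (range (T + 1)).filter fun x => x ∈ A}

open Classical in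
theorem image_subset_Rep (h : ℕ) (A : Set ℕ) (T n : ℕ) :
    (((univ.filter fun x : Fin h → Tr A T => sg Subtype.val x = n).image (ms Subtype.val) :
      Finset (Multiset ℕ)) : Set (Multiset ℕ)) ⊆ Rep h A n := by
  intro s hs
  obtain ⟨x, hx, rfl⟩ := mem_image.1 (mem_coe.1 hs)
  refine ⟨by simp [ms], fun a ha => ?_, (mem_filter.1 hx).2⟩
  obtain ⟨i, -, rfl⟩ := Multiset.mem_map.1 ha
  exact (mem_filter.1 (x i).2).2

open Classical in
theorem Rep_eq (h : ℕ) (A : Set ℕ) (T n : ℕ) (hT : n ≤ T) : Rep h A n =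
    (((univ.filter fun x : Fin h → Tr A T => sg Subtype.val x = n).image (ms Subtype.val) :
      Finset (Multiset ℕ)) : Set (Multiset ℕ)) := by
  refine Set.Subset.antisymm ?_ (image_subset_Rep h A T n)
  rintro s ⟨h1, h2, h3⟩
  induction s using Quotient.inductionOn with
  | h l =>
    simp only [Multiset.quot_mk_to_coe, Multiset.coe_card] at h1 h2 h3
    subst h1
    have hm : ∀ i : Fin l.length, l.get i ∈ (range (T + 1)).filter fun x => x ∈ A := by
      intro i
      have e : l.get i ∈ (l : Multiset ℕ) := Multiset.mem_coe.2 (List.get_mem l i)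
      have := Multiset.le_sum_of_mem e
      exact mem_filter.2 ⟨mem_range.2 (by omega), h2 _ e⟩
    have e : ms Subtype.val (fun i => (⟨l.get i, hm i⟩ : Tr A T)) = (l : Multiset ℕ) := by
      simp only [ms, Fin.univ_val_map, List.ofFn_get]
    refine mem_coe.2 (mem_image.2 ⟨fun i => ⟨l.get i, hm i⟩, mem_filter.2 ⟨mem_univ _, ?_⟩, e⟩)
    rw [← h3, ← e]
    rfl

theorem Rep_finite (h : ℕ) (A : Set ℕ) (n : ℕ) : (Rep h A n).Finite := by
  rw [Rep_eq h A n n le_rfl]
  exact finite_toSet _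

open Classical in
theorem Rc_le_Rep (h : ℕ) (A : Set ℕ) (T n : ℕ) :
    Rc (Subtype.val : Tr A T → ℕ) h n ≤ h.factorial * (Rep h A n).ncard := by
  refine (Rc_le_image _ Subtype.val_injective h n).trans (Nat.mul_le_mul_left _ ?_)
  rw [← Set.ncard_coe_finset]
  exact Set.ncard_le_ncard (image_subset_Rep h A T n) (Rep_finite h A n)

open Classical in
theorem Rep_le_Rc (h : ℕ) (A : Set ℕ) (T n : ℕ) (hT : n ≤ T) :
    h.factorial * (Rep h A n).ncard ≤ Rc (Subtype.val : Tr A T → ℕ) h n +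
      h.factorial * Rd (Subtype.val : Tr A T → ℕ) h n := by
  rw [Rep_eq h A T n hT, Set.ncard_coe_finset]
  exact image_le_Rc _ h n

theorem rep_zero_of_finite {h : ℕ} {A : Set ℕ} (hf : A.Finite) :
    ∃ B, ∀ n, B ≤ n → (Rep h A n).ncard = 0 := by
  obtain ⟨B, hB⟩ := hf.bddAbove
  refine ⟨h * B + 1, fun n hn => ?_⟩
  by_contra hc
  obtain ⟨s, h1, h2, h3⟩ := Set.nonempty_of_ncard_ne_zero hc
  have := Multiset.sum_le_card_nsmul s B fun x hx => hB (h2 x hx)
  rw [h1, h3, smul_eq_mul] at this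
  omega

open Classical in
theorem quad_ineq (m k : ℕ) (hk : k ≤ m + 1) (A : Set ℕ) (hinf : A.Infinite) (a b n0 : ℕ)
    (H : ∀ n, n0 ≤ n → (Rep (m + 1) A n).ncard ≤ b) (δ K' : ℝ) (hδ : 0 ≤ δ)
    (hE : ∀ N, (((range N).filter fun n => (Rep (m + 1) A n).ncard < a).card : ℝ) ≤ δ * N + K') :
    (a : ℝ) * b - (a + b - (1 - 1 / ((m + 1).choose k : ℝ))) ^ 2 / 4 ≤ a * b * δ := by
  set κ : ℝ := 1 - 1 / ((m + 1).choose k : ℝ) with hκdef
  set P : ℝ := ((m + 1).factorial : ℝ) with hPdef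
  let f : Fin (m + 1) → Bool := fun i => decide (i.val < k)
  have hP : 1 ≤ P := by
    rw [hPdef]; exact_mod_cast Nat.factorial_pos (m + 1)
  have hch : (0 : ℝ) < ((m + 1).choose k : ℝ) := by exact_mod_cast Nat.choose_pos hk
  have hκ : κ * P = (badPerms f).card := by
    have e1 : ((badPerms f).card : ℝ) + k.factorial * (m + 1 - k).factorial = P := by
      rw [hPdef]; exact_mod_cast card_badPerms k hk
    have e2 : ((m + 1).choose k : ℝ) * k.factorial * (m + 1 - k).factorial = P := by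
      rw [hPdef]; exact_mod_cast Nat.choose_mul_factorial_mul_factorial hk
    rw [hκdef, sub_mul, one_mul, one_div, inv_mul_eq_div]
    have : P / ((m + 1).choose k : ℝ) = k.factorial * (m + 1 - k).factorial := by
      rw [div_eq_iff hch.ne', ← e2]; ring
    linarith
  have hκ1 : κ ≤ 1 := by
    have : 0 ≤ 1 / ((m + 1).choose k : ℝ) := by positivity
    linarith
  set C : ℝ := P * b + ∑ n ∈ range n0, P * (Rep (m + 1) A n).ncard with hC
  have hs0 : 0 ≤ ∑ n ∈ range n0, P * (Rep (m + 1) A n).ncard :=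
    sum_nonneg fun _ _ => by positivity
  have U : ∀ T n, (Rc (Subtype.val : Tr A T → ℕ) (m + 1) n : ℝ) ≤ P * (Rep (m + 1) A n).ncard :=
    fun T n => by rw [hPdef]; exact_mod_cast Rc_le_Rep (m + 1) A T n
  have H2 : ∀ T n, n0 ≤ n → (Rc (Subtype.val : Tr A T → ℕ) (m + 1) n : ℝ) ≤ P * b := fun T n hn =>
    (U T n).trans (mul_le_mul_of_nonneg_left (by exact_mod_cast H n hn) (by linarith))
  have H1 : ∀ T n, (Rc (Subtype.val : Tr A T → ℕ) (m + 1) n : ℝ) ≤ C := by
    intro T n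
    rcases le_or_gt n0 n with hn | hn
    · linarith [H2 T n hn]
    · have := single_le_sum (f := fun n => P * (Rep (m + 1) A n).ncard)
        (fun _ _ => by positivity) (mem_range.2 hn)
      have hb : 0 ≤ P * b := by positivity
      linarith [U T n]
  have H3 : ∀ T n, ¬ (Rep (m + 1) A n).ncard < a → n ≤ T → P * a ≤ Rc (Subtype.val : Tr A T → ℕ) (m + 1) n +
      P * Rd (Subtype.val : Tr A T → ℕ) (m + 1) n := by
    intro T n hn hT
    refine (mul_le_mul_of_nonneg_left (show (a : ℝ) ≤ (Rep (m + 1) A n).ncard by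
      exact_mod_cast not_lt.1 hn) (by linarith)).trans ?_
    rw [hPdef]; exact_mod_cast Rep_le_Rc (m + 1) A T n hT
  set c := (a : ℝ) * b - (a + b - κ) ^ 2 / 4 with hc
  set q : ℝ := ((m + 1 : ℕ) : ℝ) ^ 2 with hq
  have step : ∀ N : ℕ, 0 < N → c ≤ a * b * δ + ((b + 1) * (q * C) + q * (4 * C) * C) / N := by
    intro N hN
    have hN' : (0 : ℝ) < N := by exact_mod_cast hN
    obtain ⟨F, hF, hFc⟩ := hinf.exists_subset_card_eq N
    set L := F.sup id + 1 with hL
    have H4 : ∀ T, L ≤ T → (N : ℝ) ≤ (univ.filter fun b : Tr A T => b.val ≤ L).card := by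
      intro T hT
      have : F ⊆ (univ.filter fun b : Tr A T => b.val ≤ L).image Subtype.val := by
        intro x hx
        have hx' : x ≤ F.sup id := le_sup (f := id) hx
        exact mem_image.2 ⟨⟨x, mem_filter.2 ⟨mem_range.2 (by omega), hF hx⟩⟩,
          mem_filter.2 ⟨mem_univ _, by show x ≤ L; omega⟩, rfl⟩
      exact_mod_cast hFc ▸ (card_le_card this).trans card_image_le
    let g : ℝ → ℝ → ℝ := fun ρ t => (1 - (ρ ^ L) ^ 2) * C ^ 2
      + a * b * (1 - (ρ ^ 2) ^ n0 + t + δ + (1 - ρ ^ 2) * K')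
      + (b + 1) * (q * (C / N + (1 - ρ ^ 2) * (N : ℝ) ^ m))
      + (1 - ρ ^ 2) * (C ^ 2 * n0) + q * (ρ ^ L)⁻¹ * (4 * C / N) * C
    have s1 : ∀ ρ : ℝ, 0 < ρ → ρ < 1 → c ≤ g ρ 0 := by
      intro ρ h0 h1
      have t1 : Tendsto (fun T : ℕ => (ρ ^ 2) ^ (T + 1)) atTop (𝓝 0) :=
        (tendsto_pow_atTop_nhds_zero_of_lt_one (by positivity) (by nlinarith)).comp
          (tendsto_add_atTop_nat 1)
      have t2 : Continuous (g ρ) := by unfold g; fun_prop
      refine ge_of_tendsto ((t2.tendsto 0).comp t1) ?_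
      filter_upwards [eventually_ge_atTop (max n0 L)] with T hT
      exact finite_ineq Subtype.val h0 h1 m f n0 T L (le_of_max_le_left hT) (by omega) P κ a b C N N
        hP hκ hκ1 (by positivity) (by positivity) hN' hN' _ hδ hE (H1 T) (H2 T) (H3 T)
        (H4 T (le_of_max_le_right hT))
    have s2 : ContinuousAt (fun ρ => g ρ 0) 1 := by
      unfold g
      fun_prop (disch := simp)
    have s3 : c ≤ g 1 0 := by
      refine ge_of_tendsto (s2.tendsto.mono_left (nhdsWithin_le_nhds (s := Set.Iio 1))) ?_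
      filter_upwards [Ioo_mem_nhdsLT (show (0 : ℝ) < 1 by norm_num)] with ρ hρ
      exact s1 ρ hρ.1 hρ.2
    refine s3.trans (le_of_eq ?_)
    simp only [g, one_pow, sub_self, zero_mul, add_zero, mul_zero, inv_one, mul_one, zero_add]
    field_simp
    ring
  have lim := (tendsto_const_div_atTop_nhds_zero_nat
    ((b + 1) * (q * C) + q * (4 * C) * C)).const_add (a * b * δ)
  rw [add_zero] at lim
  refine ge_of_tendsto lim ?_
  filter_upwards [eventually_gt_atTop 0] with N hN using step N hN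

theorem linear_bound (c : ℕ → ℕ) (hc : ∀ N, c N ≤ N) {d : ℝ} (hd : 0 ≤ d)
    (h : limsup (fun N : ℕ => (c N : ℝ) / N) atTop < d) : ∃ K : ℝ, ∀ N : ℕ, (c N : ℝ) ≤ d * N + K := by
  have hb : IsBoundedUnder (· ≤ ·) atTop fun N : ℕ => (c N : ℝ) / N :=
    isBoundedUnder_of ⟨1, fun N => div_le_one_of_le₀ (by exact_mod_cast hc N) (by positivity)⟩
  obtain ⟨N0, hN0⟩ := eventually_atTop.1 (eventually_lt_of_limsup_lt h hb)
  refine ⟨N0 + 1, fun N => ?_⟩
  rcases le_or_gt (N0 + 1) N with hN | hN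
  · have := hN0 N (by omega)
    rw [div_lt_iff₀ (by exact_mod_cast (show 0 < N by omega))] at this
    have : (0 : ℝ) ≤ N0 + 1 := by positivity
    linarith
  · have h1 : (c N : ℝ) ≤ N0 + 1 := by exact_mod_cast (hc N).trans hN.le
    have : 0 ≤ d * N := by positivity
    linarith

theorem main (h : ℕ) (hh : 2 ≤ h) (A : Set ℕ) (a b : ℕ)
    (H : ∃ N : ℕ, ∀ n : ℕ, N ≤ n →
      Set.ncard {s : Multiset ℕ | Multiset.card s = h ∧ (∀ x ∈ s, x ∈ A) ∧ s.sum = n} ≤ b) :
    4 * (a : ℝ) * b * (1 - Filter.limsup (fun N : ℕ => (Set.ncard {n : ℕ | n < N ∧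
        Set.ncard {s : Multiset ℕ | Multiset.card s = h ∧ (∀ x ∈ s, x ∈ A) ∧ s.sum = n} < a} : ℝ)
          / N) Filter.atTop) ≤
      ((a : ℝ) + b - (1 - 1 / (h.choose (h / 2) : ℝ))) ^ 2 := by
  classical
  obtain ⟨n0, H⟩ := H
  obtain ⟨m, rfl⟩ : ∃ m, h = m + 1 := ⟨h - 1, by omega⟩
  let c : ℕ → ℕ := fun N => ((range N).filter fun n => (Rep (m + 1) A n).ncard < a).card
  have ec : ∀ N : ℕ, Set.ncard {n : ℕ | n < N ∧
      Set.ncard {s : Multiset ℕ | Multiset.card s = m + 1 ∧ (∀ x ∈ s, x ∈ A) ∧ s.sum = n} < a} =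
      c N := by
    intro N
    simp only [c]
    rw [← Set.ncard_coe_finset]
    congr 1
    ext n
    simp [Rep]
  simp only [ec]
  have hc : ∀ N, c N ≤ N := fun N => (card_filter_le _ _).trans (card_range N).le
  set d := limsup (fun N : ℕ => (c N : ℝ) / N) atTop with hd
  have hab : (0 : ℝ) ≤ a * b := by positivity
  have hb : IsBoundedUnder (· ≤ ·) atTop fun N : ℕ => (c N : ℝ) / N :=
    isBoundedUnder_of ⟨1, fun N => div_le_one_of_le₀ (by exact_mod_cast hc N) (by positivity)⟩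
  have hd0 : 0 ≤ d := le_limsup_of_frequently_le
    (Frequently.of_forall fun N => by positivity) hb
  rcases A.finite_or_infinite with hf | hinf
  · rcases Nat.eq_zero_or_pos a with rfl | ha
    · simp only [Nat.cast_zero, mul_zero, zero_mul]; positivity
    obtain ⟨B, hB⟩ := rep_zero_of_finite (h := m + 1) hf
    have hd1 : 1 ≤ d := by
      by_contra hlt
      obtain ⟨d', h1, h2⟩ := exists_between (not_le.1 hlt)
      obtain ⟨K, hK⟩ := linear_bound c hc (hd0.trans h1.le) h1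
      obtain ⟨N, hN⟩ := exists_nat_gt ((K + B) / (1 - d'))
      rw [div_lt_iff₀ (by linarith)] at hN
      have e1 : N ≤ c N + B := by
        have : range N ⊆ ((range N).filter fun n => (Rep (m + 1) A n).ncard < a) ∪ range B := by
          intro n hn
          rcases lt_or_ge n B with h | h
          · exact mem_union_right _ (mem_range.2 h)
          · exact mem_union_left _ (mem_filter.2 ⟨hn, by rw [hB n h]; exact ha⟩)
        have := (card_le_card this).trans (card_union_le _ _)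
        rwa [card_range, card_range] at this
      have e2 : (N : ℝ) ≤ c N + B := by exact_mod_cast e1
      have := hK N
      linarith
    nlinarith [sq_nonneg ((a : ℝ) + b - (1 - 1 / (((m + 1).choose ((m + 1) / 2) : ℕ) : ℝ)))]
  · have key : ∀ d', d < d' → (a : ℝ) * b -
        (a + b - (1 - 1 / ((m + 1).choose ((m + 1) / 2) : ℝ))) ^ 2 / 4 ≤ a * b * d' := by
      intro d' h1
      obtain ⟨K, hK⟩ := linear_bound c hc (hd0.trans h1.le) h1
      exact quad_ineq m _ (Nat.div_le_self _ _) A hinf a b n0 H d' K (hd0.trans h1.le) hK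
    have t : Tendsto (fun d' : ℝ => (a : ℝ) * b * d') (𝓝[>] d) (𝓝 (a * b * d)) :=
      ((continuous_const.mul continuous_id).tendsto d).mono_left nhdsWithin_le_nhds
    have := ge_of_tendsto t (eventually_nhdsWithin_of_forall key)
    linarith

/-- asymptotic bases of order at least three have at least four representations infinitely often -/
theorem four_le (h : ℕ) (hh : 3 ≤ h) (A : Set ℕ)
    (hA : ∃ N : ℕ, ∀ n : ℕ, N ≤ n →
      ∃ s : Multiset ℕ, Multiset.card s = h ∧ (∀ a ∈ s, a ∈ A) ∧ s.sum = n) (N : ℕ) :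
    ∃ n : ℕ, N ≤ n ∧
      3 < Set.ncard {s : Multiset ℕ | Multiset.card s = h ∧ (∀ a ∈ s, a ∈ A) ∧ s.sum = n} := by
  classical
  by_contra hcon
  push Not at hcon
  obtain ⟨n0, hA⟩ := hA
  obtain ⟨m, rfl⟩ : ∃ m, h = m + 1 := ⟨h - 1, by omega⟩
  have h1 : ∀ n, n0 ≤ n → 1 ≤ (Rep (m + 1) A n).ncard := fun n hn =>
    (Set.ncard_pos (Rep_finite _ _ _)).2 (hA n hn)
  have hinf : A.Infinite := by
    intro hf
    obtain ⟨B, hB⟩ := rep_zero_of_finite (h := m + 1) hf
    have := h1 (max n0 B) (le_max_left _ _)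
    rw [hB _ (le_max_right _ _)] at this
    omega
  have := quad_ineq m 1 (by omega) A hinf 1 3 N hcon 0 n0 le_rfl fun T => by
    have : ((range T).filter fun n => (Rep (m + 1) A n).ncard < 1) ⊆ range n0 := by
      intro n hn
      rw [mem_range]
      by_contra hc
      have := h1 n (not_lt.1 hc)
      have := (mem_filter.1 hn).2
      omega
    have := (card_le_card this).trans (card_range n0).le
    rw [zero_mul, zero_add]
    exact_mod_cast this
  rw [Nat.choose_one_right] at this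
  have h3 : (3 : ℝ) ≤ ((m + 1 : ℕ) : ℝ) := by exact_mod_cast hh
  have h4 : 1 / ((m + 1 : ℕ) : ℝ) ≤ 1 / 3 := one_div_le_one_div_of_le (by norm_num) h3
  have h5 : 0 ≤ 1 / ((m + 1 : ℕ) : ℝ) := by positivity
  generalize 1 / ((m + 1 : ℕ) : ℝ) = t at this h4 h5
  push_cast at this
  nlinarith

end Pool.Agent.P.MP_d5a1e1_nt.Gap
end
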