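import Mathlib

-- part Pool.Agent.P.MP_d5a1e1_nt.Energy
section

/-! Quadratic forms attached to an integer valued map on a finite index set. -/

namespace Pool.Agent.P.MP_d5a1e1_nt

open Finset

/-- indicator of zero -/
def dl (k : ℤ) : ℝ := if k = 0 then 1 else 0

/-- triangular window weight -/
noncomputable def fej (K : ℕ) (k : ℤ) : ℝ :=
  (∑ i ∈ range K, ∑ j ∈ range K, dl (k + i - j)) / (K : ℝ) ^ 2

/-- bilinear form with kernel depending on differences of values of `g` -/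
def form {ι : Type*} (β : ℤ → ℝ) (s : Finset ι) (g : ι → ℤ) (F G : ι → ℝ) : ℝ :=
  ∑ p ∈ s, ∑ q ∈ s, β (g p - g q) * (F p * G q)

/-- fibre sum -/
def fib {ι : Type*} (s : Finset ι) (g : ι → ℤ) (F : ι → ℝ) (d : ℤ) : ℝ :=
  ∑ p ∈ s, dl (g p - d) * F p

lemma dl_nonneg (k : ℤ) : 0 ≤ dl k := by unfold dl; split_ifs <;> norm_num

lemma dl_zero : dl 0 = 1 := by simp [dl]

lemma dl_ne {k : ℤ} (h : k ≠ 0) : dl k = 0 := by simp [dl, h]

lemma dl_neg (k : ℤ) : dl (-k) = dl k := by simp [dl]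

lemma fej_nonneg (K : ℕ) (k : ℤ) : 0 ≤ fej K k :=
  div_nonneg (sum_nonneg fun _ _ => sum_nonneg fun _ _ => dl_nonneg _) (by positivity)

lemma fej_neg (K : ℕ) (k : ℤ) : fej K (-k) = fej K k := by
  unfold fej
  rw [sum_comm]
  congr 1
  refine sum_congr rfl fun i _ => sum_congr rfl fun j _ => ?_
  rw [← dl_neg]; congr 1; ring

lemma fej_eq_zero {K : ℕ} {k : ℤ} (h : (K : ℤ) ≤ |k|) : fej K k = 0 := by
  unfold fej
  rw [sum_eq_zero, zero_div]
  intro i hi
  refine sum_eq_zero fun j hj => dl_ne ?_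
  have hi' := mem_range.1 hi
  have hj' := mem_range.1 hj
  intro h0
  have : k = (j : ℤ) - i := by linarith
  rw [this] at h
  rcases abs_cases ((j : ℤ) - i) with h1 | h1 <;> omega

lemma dl_eq_sum (T : Finset ℤ) (a b : ℤ) (ha : a ∈ T) :
    dl (a - b) = ∑ d ∈ T, dl (a - d) * dl (b - d) := by
  rw [sum_eq_single a]
  · simp only [sub_self, dl_zero, one_mul]
    rw [← dl_neg]; congr 1; ring
  · intro d _ hd
    rw [dl_ne (sub_ne_zero.2 (Ne.symm hd)), zero_mul]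
  · intro h; exact absurd ha h

variable {ι : Type*}

lemma form_shift (s : Finset ι) (g : ι → ℤ) (F G : ι → ℝ) (c : ℤ) (T : Finset ℤ)
    (hT : ∀ p ∈ s, g p ∈ T) :
    form (fun k => dl (k + c)) s g F G = ∑ d ∈ T, fib s g F d * fib s g G (d + c) := by
  unfold form fib
  simp only [sum_mul_sum]
  rw [sum_comm (s := T)]
  refine sum_congr rfl fun p hp => ?_
  rw [sum_comm (s := T)]
  refine sum_congr rfl fun q _ => ?_
  have h := dl_eq_sum T (g p) (g q - c) (hT p hp)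
  have e1 : g p - g q + c = g p - (g q - c) := by ring
  rw [e1, h, sum_mul]
  refine sum_congr rfl fun d _ => ?_
  have e2 : g q - c - d = g q - (d + c) := by ring
  rw [e2]; ring

lemma form_dl (s : Finset ι) (g : ι → ℤ) (F G : ι → ℝ) (T : Finset ℤ)
    (hT : ∀ p ∈ s, g p ∈ T) :
    form dl s g F G = ∑ d ∈ T, fib s g F d * fib s g G d := by
  have := form_shift s g F G 0 T hT
  simpa using this

lemma sum_fib_sq_le (s : Finset ι) (g : ι → ℤ) (F : ι → ℝ) (U : Finset ℤ) :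
    ∑ d ∈ U, fib s g F d ^ 2 ≤ form dl s g F F := by
  classical
  rw [form_dl s g F F (U ∪ s.image g) (fun p hp => mem_union_right _ (mem_image_of_mem g hp))]
  simp only [← sq]
  exact sum_le_sum_of_subset_of_nonneg subset_union_left fun _ _ _ => sq_nonneg _

lemma form_dl_nonneg (s : Finset ι) (g : ι → ℤ) (F : ι → ℝ) : 0 ≤ form dl s g F F := by
  simpa using sum_fib_sq_le s g F ∅

lemma sum_fib_shift_sq_le {κ : Type*} (s : Finset ι) (g : ι → ℤ) (F : ι → ℝ) (U : Finset κ)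
    (e : κ → ℤ) (he : Set.InjOn e U) :
    ∑ d ∈ U, fib s g F (e d) ^ 2 ≤ form dl s g F F := by
  classical
  have := sum_fib_sq_le s g F (U.image e)
  rwa [sum_image he] at this

lemma form_shift_le (s : Finset ι) (g : ι → ℤ) (F : ι → ℝ) (c : ℤ) :
    form (fun k => dl (k + c)) s g F F ≤ form dl s g F F := by
  classical
  rw [form_shift s g F F c (s.image g) (fun p hp => mem_image_of_mem g hp)]
  have h1 := sum_fib_sq_le s g F (s.image g)
  have h2 := sum_fib_shift_sq_le s g F (s.image g) (fun d => d + c)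
    (fun a _ b _ h => by simpa using h)
  have h3 : ∑ d ∈ s.image g, fib s g F d * fib s g F (d + c) ≤
      ∑ d ∈ s.image g, (fib s g F d ^ 2 + fib s g F (d + c) ^ 2) / 2 :=
    sum_le_sum fun d _ => by nlinarith [sq_nonneg (fib s g F d - fib s g F (d + c))]
  rw [← sum_div, sum_add_distrib] at h3
  linarith

lemma form_fej_eq (K : ℕ) (s : Finset ι) (g : ι → ℤ) (F G : ι → ℝ) :
    form (fej K) s g F G =
      (∑ i ∈ range K, ∑ j ∈ range K, form (fun k => dl (k + ((i : ℤ) - j))) s g F G) /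
        (K : ℝ) ^ 2 := by
  unfold form fej
  simp only [div_mul_eq_mul_div, ← sum_div, sum_mul]
  congr 1
  symm
  calc ∑ i ∈ range K, ∑ j ∈ range K, ∑ p ∈ s, ∑ q ∈ s,
        dl (g p - g q + ((i : ℤ) - j)) * (F p * G q)
      = ∑ i ∈ range K, ∑ p ∈ s, ∑ j ∈ range K, ∑ q ∈ s,
        dl (g p - g q + ((i : ℤ) - j)) * (F p * G q) :=
        sum_congr rfl fun i _ => sum_comm
    _ = ∑ p ∈ s, ∑ i ∈ range K, ∑ j ∈ range K, ∑ q ∈ s,
        dl (g p - g q + ((i : ℤ) - j)) * (F p * G q) := sum_comm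
    _ = ∑ p ∈ s, ∑ i ∈ range K, ∑ q ∈ s, ∑ j ∈ range K,
        dl (g p - g q + ((i : ℤ) - j)) * (F p * G q) :=
        sum_congr rfl fun p _ => sum_congr rfl fun i _ => sum_comm
    _ = ∑ p ∈ s, ∑ q ∈ s, ∑ i ∈ range K, ∑ j ∈ range K,
        dl (g p - g q + ((i : ℤ) - j)) * (F p * G q) :=
        sum_congr rfl fun p _ => sum_comm
    _ = _ := by
        refine sum_congr rfl fun p _ => sum_congr rfl fun q _ => sum_congr rfl fun i _ =>
          sum_congr rfl fun j _ => ?_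
        congr 2; ring

/-- the window form is dominated by the diagonal form -/
lemma form_fej_le (K : ℕ) (s : Finset ι) (g : ι → ℤ) (F : ι → ℝ) :
    form (fej K) s g F F ≤ form dl s g F F := by
  rw [form_fej_eq]
  rcases Nat.eq_zero_or_pos K with rfl | hK
  · simpa using form_dl_nonneg s g F
  have hK' : (0 : ℝ) < (K : ℝ) ^ 2 := by positivity
  rw [div_le_iff₀ hK']
  calc _ ≤ ∑ i ∈ range K, ∑ j ∈ range K, form dl s g F F :=
        sum_le_sum fun i _ => sum_le_sum fun j _ => form_shift_le s g F _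
    _ = _ := by simp; ring

lemma form_fej_prod (K : ℕ) (s : Finset ι) (g : ι → ℤ) (F G : ι → ℝ) :
    form (fej K) s g F G =
      form dl (s ×ˢ range K) (fun p => g p.1 + p.2) (fun p => F p.1 / K) (fun p => G p.1 / K) := by
  unfold form fej
  simp only [sum_product, div_mul_eq_mul_div, sum_mul]
  refine sum_congr rfl fun p _ => ?_
  rw [sum_comm (s := range K)]
  refine sum_congr rfl fun q _ => ?_
  simp only [sum_div]
  refine sum_congr rfl fun i _ => sum_congr rfl fun j _ => ?_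
  have : g p - g q + i - j = g p + i - (g q + j) := by ring
  rw [this]; ring

lemma form_dl_test (s : Finset ι) (g : ι → ℤ) (F : ι → ℝ) (η : ℤ → ℝ) (T : Finset ℤ)
    (hT : ∀ p ∈ s, g p ∈ T) :
    2 * ∑ p ∈ s, F p * η (g p) - ∑ m ∈ T, η m ^ 2 ≤ form dl s g F F := by
  rw [form_dl s g F F T hT]
  have h : ∑ p ∈ s, F p * η (g p) = ∑ m ∈ T, fib s g F m * η m := by
    unfold fib
    simp only [sum_mul]
    rw [sum_comm]
    refine sum_congr rfl fun p hp => ?_
    rw [sum_eq_single (g p)]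
    · simp [dl_zero]
    · intro d _ hd
      rw [dl_ne (sub_ne_zero.2 (Ne.symm hd))]; simp
    · intro h; exact absurd (hT p hp) h
  rw [h, mul_sum, ← sum_sub_distrib]
  exact sum_le_sum fun m _ => by nlinarith [sq_nonneg (fib s g F m - η m)]

/-- lower bound for the window form by a test sequence -/
lemma form_fej_test (K : ℕ) (s : Finset ι) (g : ι → ℤ) (F : ι → ℝ) (η : ℤ → ℝ) (T : Finset ℤ)
    (hT : ∀ p ∈ s, ∀ i ∈ range K, g p + i ∈ T) :
    2 * ((∑ i ∈ range K, ∑ p ∈ s, F p * η (g p + i)) / K) - ∑ m ∈ T, η m ^ 2 ≤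
      form (fej K) s g F F := by
  rw [form_fej_prod]
  have h := form_dl_test (s ×ˢ range K) (fun p => g p.1 + p.2) (fun p => F p.1 / K) η T
    (fun p hp => hT p.1 (mem_product.1 hp).1 p.2 (mem_product.1 hp).2)
  refine le_trans (le_of_eq ?_) h
  congr 2
  rw [sum_product, sum_comm, sum_div]
  refine sum_congr rfl fun i _ => ?_
  rw [sum_div]
  refine sum_congr rfl fun p _ => ?_
  ring

lemma form_fej_nonneg (K : ℕ) (s : Finset ι) (g : ι → ℤ) (F : ι → ℝ) :
    0 ≤ form (fej K) s g F F := by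
  rw [form_fej_prod]; exact form_dl_nonneg _ _ _

/-- the window average at the origin is small -/
lemma fej_pt_sq_le (K : ℕ) (hK : 0 < K) (s : Finset ι) (g : ι → ℤ) (F : ι → ℝ) :
    (∑ p ∈ s, fej K (g p) * F p) ^ 2 ≤ form dl s g F F / K := by
  have hK' : (0 : ℝ) < K := by exact_mod_cast hK
  have e : ∑ p ∈ s, fej K (g p) * F p =
      (∑ i ∈ range K, ∑ j ∈ range K, fib s g F ((j : ℤ) - i)) / (K : ℝ) ^ 2 := by
    unfold fej fib
    simp only [div_mul_eq_mul_div, ← sum_div, sum_mul]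
    congr 1
    rw [sum_comm]
    refine sum_congr rfl fun i _ => ?_
    rw [sum_comm]
    refine sum_congr rfl fun j _ => sum_congr rfl fun p _ => ?_
    congr 2; ring
  have h1 : ∀ i ∈ range K, (∑ j ∈ range K, fib s g F ((j : ℤ) - i)) ^ 2 ≤
      K * form dl s g F F := by
    intro i _
    have a1 := sq_sum_le_card_mul_sum_sq (s := range K) (f := fun j : ℕ => fib s g F ((j : ℤ) - i))
    have a2 := sum_fib_shift_sq_le s g F (range K) (fun j : ℕ => (j : ℤ) - i)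
      (fun a _ b _ h => by simpa using h)
    rw [card_range] at a1
    exact a1.trans (mul_le_mul_of_nonneg_left a2 hK'.le)
  have h2 := sq_sum_le_card_mul_sum_sq (s := range K)
    (f := fun i : ℕ => ∑ j ∈ range K, fib s g F ((j : ℤ) - i))
  rw [card_range] at h2
  have h3 : ∑ i ∈ range K, (∑ j ∈ range K, fib s g F ((j : ℤ) - i)) ^ 2 ≤
      K * (K * form dl s g F F) := by
    refine (sum_le_sum h1).trans (le_of_eq ?_)
    simp
  rw [e, div_pow, div_le_div_iff₀ (by positivity) hK']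
  have h4 := h2.trans (mul_le_mul_of_nonneg_left h3 hK'.le)
  nlinarith

lemma sum_sq_le_form_dl (s : Finset ι) (g : ι → ℤ) (F : ι → ℝ) (hF : ∀ p ∈ s, 0 ≤ F p) :
    ∑ p ∈ s, F p ^ 2 ≤ form dl s g F F := by
  unfold form
  refine sum_le_sum fun p hp => ?_
  have := single_le_sum (f := fun q => dl (g p - g q) * (F p * F q))
    (fun q hq => mul_nonneg (dl_nonneg _) (mul_nonneg (hF p hp) (hF q hq))) hp
  simpa [dl_zero, sq] using this

/-- the kernel delta minus window -/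
noncomputable def bet (K : ℕ) (k : ℤ) : ℝ := dl k - fej K k

lemma form_bet (K : ℕ) (s : Finset ι) (g : ι → ℤ) (F G : ι → ℝ) :
    form (bet K) s g F G = form dl s g F G - form (fej K) s g F G := by
  unfold form bet
  simp only [sub_mul, sum_sub_distrib]

lemma form_bet_nonneg (K : ℕ) (s : Finset ι) (g : ι → ℤ) (F : ι → ℝ) :
    0 ≤ form (bet K) s g F F := by
  rw [form_bet]; linarith [form_fej_le K s g F]

lemma bet_neg (K : ℕ) (k : ℤ) : bet K (-k) = bet K k := by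
  unfold bet; rw [dl_neg, fej_neg]

lemma abs_bet_le (K : ℕ) (k : ℤ) : |bet K k| ≤ dl k + fej K k := by
  unfold bet
  have := dl_nonneg k
  have := fej_nonneg K k
  rw [abs_le]; constructor <;> linarith

lemma abs_bet_mul_le (K : ℕ) (k : ℤ) : |bet K k| * |(k : ℝ)| ≤ K * fej K k := by
  by_cases hk : k = 0
  · subst hk; simp; exact mul_nonneg (Nat.cast_nonneg _) (fej_nonneg _ _)
  have e : |bet K k| = fej K k := by
    unfold bet; rw [dl_ne hk, zero_sub, abs_neg, abs_of_nonneg (fej_nonneg _ _)]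
  rw [e]
  by_cases h : (K : ℤ) ≤ |k|
  · rw [fej_eq_zero h]; simp
  · have h1 : |k| ≤ K := by omega
    have h2 : |(k : ℝ)| ≤ K := by exact_mod_cast h1
    rw [mul_comm]
    exact mul_le_mul_of_nonneg_right h2 (fej_nonneg _ _)

/-- test of the form at the origin -/
lemma form_bet_test (K : ℕ) (s : Finset ι) (g : ι → ℤ) (F H : ι → ℝ)
    (hH : ∀ p ∈ s, g p ≠ 0 → H p = 0) :
    2 * (∑ p ∈ s, H p) * (∑ p ∈ s, bet K (g p) * F p) - (∑ p ∈ s, H p) ^ 2 ≤
      form (bet K) s g F F := by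
  have h0 := form_bet_nonneg K s g (fun p => F p - H p)
  have e1 : ∀ (G : ι → ℝ), ∑ p ∈ s, ∑ q ∈ s, bet K (g p - g q) * (G p * H q) =
      (∑ p ∈ s, bet K (g p) * G p) * ∑ p ∈ s, H p := by
    intro G
    rw [sum_mul_sum]
    refine sum_congr rfl fun p _ => sum_congr rfl fun q hq => ?_
    by_cases h : g q = 0
    · rw [h, sub_zero]; ring
    · rw [hH q hq h]; ring
  have e2 : ∑ p ∈ s, ∑ q ∈ s, bet K (g p - g q) * (H p * F q) =
      (∑ p ∈ s, bet K (g p) * F p) * ∑ p ∈ s, H p := by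
    rw [← e1 F, sum_comm]
    refine sum_congr rfl fun p _ => sum_congr rfl fun q _ => ?_
    rw [← bet_neg]; congr 1
    · congr 1; ring
    · ring
  have e3 : ∑ p ∈ s, bet K (g p) * H p = bet K 0 * ∑ p ∈ s, H p := by
    rw [mul_sum]
    refine sum_congr rfl fun p hp => ?_
    by_cases h : g p = 0
    · rw [h]
    · rw [hH p hp h]; ring
  have e4 : form (bet K) s g (fun p => F p - H p) (fun p => F p - H p) =
      form (bet K) s g F F - ∑ p ∈ s, ∑ q ∈ s, bet K (g p - g q) * (F p * H q)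
        - ∑ p ∈ s, ∑ q ∈ s, bet K (g p - g q) * (H p * F q)
        + ∑ p ∈ s, ∑ q ∈ s, bet K (g p - g q) * (H p * H q) := by
    unfold form
    simp only [← sum_sub_distrib, ← sum_add_distrib]
    refine sum_congr rfl fun p _ => sum_congr rfl fun q _ => ?_
    ring
  rw [e4, e1 F, e2, e1 H, e3] at h0
  have hb : bet K 0 ≤ 1 := by
    unfold bet; rw [dl_zero]; linarith [fej_nonneg K 0]
  nlinarith [sq_nonneg (∑ p ∈ s, H p)]

end Pool.Agent.P.MP_d5a1e1_nt
end

-- part Pool.Agent.P.MP_d5a1e1_nt.Tame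
section

/-! Polynomial growth bounds for functions of four real variables. -/

namespace Pool.Agent.P.MP_d5a1e1_nt

/-- polynomial growth together with a Lipschitz bound in the last variable -/
def Tame (f : ℝ → ℝ → ℝ → ℝ → ℝ) : Prop :=
  ∃ (C : ℝ) (n : ℕ), 0 ≤ C ∧ ∀ S x y e : ℝ, |x| ≤ 2 * S → |y| ≤ 2 * S → |e| ≤ 2 * S →
    |f S x y e| ≤ C * (1 + S) ^ n ∧ |f S x y e - f S x y 0| ≤ C * |e| * (1 + S) ^ n

namespace Tame

lemma const (c : ℝ) : Tame (fun _ _ _ _ => c) :=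
  ⟨|c|, 0, abs_nonneg _, fun S x y e _ _ _ => ⟨by simp, by simp; positivity⟩⟩

lemma v1 : Tame (fun S _ _ _ => S) :=
  ⟨1, 1, zero_le_one, fun S x y e hx _ _ => by
    have : 0 ≤ S := by linarith [abs_nonneg x]
    refine ⟨by rw [abs_of_nonneg this]; linarith, ?_⟩
    simp; positivity⟩

lemma v2 : Tame (fun _ x _ _ => x) :=
  ⟨2, 1, by norm_num, fun S x y e hx _ _ => by
    have : 0 ≤ S := by linarith [abs_nonneg x]
    refine ⟨by linarith, ?_⟩
    simp; positivity⟩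

lemma v3 : Tame (fun _ _ y _ => y) :=
  ⟨2, 1, by norm_num, fun S x y e hx hy _ => by
    have : 0 ≤ S := by linarith [abs_nonneg x]
    refine ⟨by linarith, ?_⟩
    simp; positivity⟩

lemma v4 : Tame (fun _ _ _ e => e) :=
  ⟨2, 1, by norm_num, fun S x y e hx _ he => by
    have : 0 ≤ S := by linarith [abs_nonneg x]
    refine ⟨by linarith, ?_⟩
    have := abs_nonneg e
    simp only [sub_zero, pow_one]
    nlinarith⟩

lemma add {f g : ℝ → ℝ → ℝ → ℝ → ℝ} (hf : Tame f) (hg : Tame g) :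
    Tame (fun S x y e => f S x y e + g S x y e) := by
  obtain ⟨C, n, hC, h⟩ := hf
  obtain ⟨D, m, hD, k⟩ := hg
  refine ⟨C + D, n + m, by positivity, fun S x y e hx hy he => ?_⟩
  have hS : 0 ≤ S := by linarith [abs_nonneg x]
  obtain ⟨h1, h2⟩ := h S x y e hx hy he
  obtain ⟨k1, k2⟩ := k S x y e hx hy he
  have p1 : (1 + S) ^ n ≤ (1 + S) ^ (n + m) := pow_le_pow_right₀ (by linarith) (by omega)
  have p2 : (1 + S) ^ m ≤ (1 + S) ^ (n + m) := pow_le_pow_right₀ (by linarith) (by omega)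
  have he0 := abs_nonneg e
  constructor
  · calc _ ≤ |f S x y e| + |g S x y e| := abs_add_le _ _
      _ ≤ C * (1 + S) ^ (n + m) + D * (1 + S) ^ (n + m) := by
        have := mul_le_mul_of_nonneg_left p1 hC
        have := mul_le_mul_of_nonneg_left p2 hD
        linarith
      _ = _ := by ring
  · calc _ = |(f S x y e - f S x y 0) + (g S x y e - g S x y 0)| := by congr 1; ring
      _ ≤ |f S x y e - f S x y 0| + |g S x y e - g S x y 0| := abs_add_le _ _
      _ ≤ C * |e| * (1 + S) ^ (n + m) + D * |e| * (1 + S) ^ (n + m) := by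
        have := mul_le_mul_of_nonneg_left p1 (mul_nonneg hC he0)
        have := mul_le_mul_of_nonneg_left p2 (mul_nonneg hD he0)
        linarith
      _ = _ := by ring

lemma mul {f g : ℝ → ℝ → ℝ → ℝ → ℝ} (hf : Tame f) (hg : Tame g) :
    Tame (fun S x y e => f S x y e * g S x y e) := by
  obtain ⟨C, n, hC, h⟩ := hf
  obtain ⟨D, m, hD, k⟩ := hg
  refine ⟨2 * (C * D), n + m, by positivity, fun S x y e hx hy he => ?_⟩
  have hS : 0 ≤ S := by linarith [abs_nonneg x]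
  obtain ⟨h1, h2⟩ := h S x y e hx hy he
  obtain ⟨k1, k2⟩ := k S x y e hx hy he
  obtain ⟨k3, -⟩ := k S x y 0 hx hy (by simpa using hS)
  have he0 := abs_nonneg e
  have p1 : 0 ≤ (1 + S) ^ n := by positivity
  have p2 : 0 ≤ (1 + S) ^ m := by positivity
  constructor
  · rw [abs_mul, pow_add]
    have := mul_le_mul h1 k1 (abs_nonneg _) (by positivity)
    have h3 : 0 ≤ C * D * ((1 + S) ^ n * (1 + S) ^ m) := by positivity
    nlinarith
  · calc _ = |f S x y e * (g S x y e - g S x y 0) + (f S x y e - f S x y 0) * g S x y 0| := by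
          congr 1; ring
      _ ≤ |f S x y e| * |g S x y e - g S x y 0| + |f S x y e - f S x y 0| * |g S x y 0| := by
          rw [← abs_mul, ← abs_mul]; exact abs_add_le _ _
      _ ≤ (C * (1 + S) ^ n) * (D * |e| * (1 + S) ^ m) +
          (C * |e| * (1 + S) ^ n) * (D * (1 + S) ^ m) :=
          add_le_add (mul_le_mul h1 k2 (abs_nonneg _) (by positivity))
            (mul_le_mul h2 k3 (abs_nonneg _) (by positivity))
      _ = _ := by rw [pow_add]; ring

lemma sub {f g : ℝ → ℝ → ℝ → ℝ → ℝ} (hf : Tame f) (hg : Tame g) :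
    Tame (fun S x y e => f S x y e - g S x y e) := by
  have := add hf (mul (const (-1)) hg)
  simpa [sub_eq_add_neg] using this

lemma pow {f : ℝ → ℝ → ℝ → ℝ → ℝ} (hf : Tame f) (n : ℕ) :
    Tame (fun S x y e => f S x y e ^ n) := by
  induction n with
  | zero => simpa using const 1
  | succ n ih => simpa [pow_succ] using mul ih hf

lemma div_const {f : ℝ → ℝ → ℝ → ℝ → ℝ} (hf : Tame f) (c : ℝ) :
    Tame (fun S x y e => f S x y e / c) := by
  simpa [div_eq_mul_inv] using mul hf (const c⁻¹)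

lemma pow_le_exp (n : ℕ) : ∃ D : ℝ, 0 ≤ D ∧ ∀ S : ℝ, 0 ≤ S →
    (1 + S) ^ n * Real.exp (-S) ≤ D * Real.exp (-(S / 2)) := by
  refine ⟨2 ^ n * n.factorial * Real.exp (1 / 2), by positivity, fun S hS => ?_⟩
  have h := Real.pow_div_factorial_le_exp ((1 + S) / 2) (by positivity) n
  have hf : (0 : ℝ) < n.factorial := by positivity
  rw [div_le_iff₀ hf, div_pow, div_le_iff₀ (by positivity)] at h
  have e : Real.exp ((1 + S) / 2) * Real.exp (-S) = Real.exp (1 / 2) * Real.exp (-(S / 2)) := by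
    rw [← Real.exp_add, ← Real.exp_add]; congr 1; ring
  calc _ ≤ Real.exp ((1 + S) / 2) * n.factorial * 2 ^ n * Real.exp (-S) :=
        mul_le_mul_of_nonneg_right h (Real.exp_pos _).le
    _ = 2 ^ n * n.factorial * (Real.exp ((1 + S) / 2) * Real.exp (-S)) := by ring
    _ = _ := by rw [e]; ring

lemma exp_bound {f : ℝ → ℝ → ℝ → ℝ → ℝ} (hf : Tame f) :
    ∃ C : ℝ, 0 ≤ C ∧ ∀ S x y e : ℝ, |x| ≤ 2 * S → |y| ≤ 2 * S → |e| ≤ 2 * S →
      |f S x y e * Real.exp (-S)| ≤ C * Real.exp (-(S / 2)) ∧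
      |(f S x y e - f S x y 0) * Real.exp (-S)| ≤ C * |e| * Real.exp (-(S / 2)) := by
  obtain ⟨C, n, hC, h⟩ := hf
  obtain ⟨D, hD, k⟩ := pow_le_exp n
  refine ⟨C * D, by positivity, fun S x y e hx hy he => ?_⟩
  have hS : 0 ≤ S := by linarith [abs_nonneg x]
  obtain ⟨h1, h2⟩ := h S x y e hx hy he
  have k1 := k S hS
  have hp := (Real.exp_pos (-S)).le
  have he0 := abs_nonneg e
  constructor
  · rw [abs_mul, abs_of_nonneg hp]
    calc _ ≤ C * (1 + S) ^ n * Real.exp (-S) := mul_le_mul_of_nonneg_right h1 hp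
      _ = C * ((1 + S) ^ n * Real.exp (-S)) := by ring
      _ ≤ C * (D * Real.exp (-(S / 2))) := mul_le_mul_of_nonneg_left k1 hC
      _ = _ := by ring
  · rw [abs_mul, abs_of_nonneg hp]
    calc _ ≤ C * |e| * (1 + S) ^ n * Real.exp (-S) := mul_le_mul_of_nonneg_right h2 hp
      _ = C * |e| * ((1 + S) ^ n * Real.exp (-S)) := by ring
      _ ≤ C * |e| * (D * Real.exp (-(S / 2))) := mul_le_mul_of_nonneg_left k1 (by positivity)
      _ = _ := by ring

end Tame

end Pool.Agent.P.MP_d5a1e1_nt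
end

-- part Pool.Agent.P.MP_d5a1e1_nt.Quad
section

/-! Weighted sums over pairs and quadruples of a finite set of naturals. -/

namespace Pool.Agent.P.MP_d5a1e1_nt

open Finset

noncomputable def Phi (β : ℤ → ℝ) (A : Finset ℕ) (u : ℝ) (P : ℝ → ℝ → ℝ → ℝ → ℝ) : ℝ :=
  ∑ a ∈ A, ∑ c ∈ A, ∑ d ∈ A, ∑ b ∈ A, β ((a : ℤ) + c - (d + b)) *
    (P (u * (((a : ℝ) + c + d + b) / 2)) (u * ((a : ℝ) - c)) (u * ((d : ℝ) - b))
      (u * ((a : ℝ) + c - (d + b))) * Real.exp (-(u * (((a : ℝ) + c + d + b) / 2))))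

def sm (p : ℕ × ℕ) : ℤ := (p.1 : ℤ) + p.2

def df (p : ℕ × ℕ) : ℤ := (p.1 : ℤ) - p.2

noncomputable def wt (u : ℝ) (p : ℕ × ℕ) : ℝ := Real.exp (-(u * (((p.1 : ℝ) + p.2) / 2)))

noncomputable def En (A : Finset ℕ) (u : ℝ) : ℝ := form dl (A ×ˢ A) sm (wt u) (wt u)

noncomputable def Psi (A : Finset ℕ) (u : ℝ) (Q : ℝ → ℝ → ℝ) : ℝ :=
  ∑ a ∈ A, ∑ c ∈ A, Q (u * ((a : ℝ) + c)) (u * ((a : ℝ) - c)) * Real.exp (-(u * ((a : ℝ) + c)))

lemma form_sm (β : ℤ → ℝ) (A : Finset ℕ) (u : ℝ) :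
    form β (A ×ˢ A) sm (wt u) (wt u) = Phi β A u (fun _ _ _ _ => 1) := by
  unfold form Phi sm wt
  simp only [sum_product]
  refine sum_congr rfl fun a _ => sum_congr rfl fun c _ => sum_congr rfl fun d _ =>
    sum_congr rfl fun b _ => ?_
  rw [← Real.exp_add, one_mul]
  congr 2; ring

lemma form_df (β : ℤ → ℝ) (A : Finset ℕ) (u : ℝ) (γ : ℝ → ℝ → ℝ) :
    form β (A ×ˢ A) df (fun p => γ (u * p.1) (u * p.2) * wt u p)
        (fun p => γ (u * p.1) (u * p.2) * wt u p) =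
      Phi β A u (fun S x y e => γ ((S + e / 2 + x) / 2) ((S - e / 2 - y) / 2) *
        γ ((S - e / 2 + y) / 2) ((S + e / 2 - x) / 2)) := by
  unfold form Phi df wt
  simp only [sum_product]
  refine sum_congr rfl fun a _ => ?_
  have key : ∀ f : ℕ → ℕ → ℕ → ℝ, ∑ b ∈ A, ∑ d ∈ A, ∑ c ∈ A, f b d c =
      ∑ c ∈ A, ∑ d ∈ A, ∑ b ∈ A, f b d c := by
    intro f
    calc ∑ b ∈ A, ∑ d ∈ A, ∑ c ∈ A, f b d c = ∑ b ∈ A, ∑ c ∈ A, ∑ d ∈ A, f b d c :=
          sum_congr rfl fun b _ => sum_comm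
      _ = ∑ c ∈ A, ∑ b ∈ A, ∑ d ∈ A, f b d c := sum_comm
      _ = _ := sum_congr rfl fun c _ => sum_comm
  rw [key]
  refine sum_congr rfl fun c _ => sum_congr rfl fun d _ => sum_congr rfl fun b _ => ?_
  have e1 : (a : ℤ) - b - (d - c) = a + c - (d + b) := by ring
  have e2 : (u * (((a : ℝ) + c + d + b) / 2) + u * ((a : ℝ) + c - (d + b)) / 2 +
      u * ((a : ℝ) - c)) / 2 = u * a := by ring
  have e3 : (u * (((a : ℝ) + c + d + b) / 2) - u * ((a : ℝ) + c - (d + b)) / 2 -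
      u * ((d : ℝ) - b)) / 2 = u * b := by ring
  have e4 : (u * (((a : ℝ) + c + d + b) / 2) - u * ((a : ℝ) + c - (d + b)) / 2 +
      u * ((d : ℝ) - b)) / 2 = u * d := by ring
  have e5 : (u * (((a : ℝ) + c + d + b) / 2) + u * ((a : ℝ) + c - (d + b)) / 2 -
      u * ((a : ℝ) - c)) / 2 = u * c := by ring
  have e6 : Real.exp (-(u * (((a : ℝ) + c + d + b) / 2))) =
      Real.exp (-(u * (((a : ℝ) + b) / 2))) * Real.exp (-(u * (((d : ℝ) + c) / 2))) := by
    rw [← Real.exp_add]; congr 1; ring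
  rw [e1, e2, e3, e4, e5, e6]
  ring

lemma Phi_negx (β : ℤ → ℝ) (A : Finset ℕ) (u : ℝ) (P : ℝ → ℝ → ℝ → ℝ → ℝ) :
    Phi β A u P = Phi β A u (fun S x y e => P S (-x) y e) := by
  unfold Phi
  rw [sum_comm]
  refine sum_congr rfl fun a _ => sum_congr rfl fun c _ => sum_congr rfl fun d _ =>
    sum_congr rfl fun b _ => ?_
  have e1 : (c : ℤ) + a - (d + b) = a + c - (d + b) := by ring
  have e2 : ((c : ℝ) + a + d + b) / 2 = ((a : ℝ) + c + d + b) / 2 := by ring
  have e3 : u * ((c : ℝ) - a) = -(u * ((a : ℝ) - c)) := by ring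
  have e4 : (c : ℝ) + a - (d + b) = a + c - (d + b) := by ring
  rw [e1, e2, e3, e4]

lemma Phi_negy (β : ℤ → ℝ) (A : Finset ℕ) (u : ℝ) (P : ℝ → ℝ → ℝ → ℝ → ℝ) :
    Phi β A u P = Phi β A u (fun S x y e => P S x (-y) e) := by
  unfold Phi
  refine sum_congr rfl fun a _ => sum_congr rfl fun c _ => ?_
  rw [sum_comm]
  refine sum_congr rfl fun d _ => sum_congr rfl fun b _ => ?_
  have e1 : (a : ℤ) + c - (b + d) = a + c - (d + b) := by ring
  have e2 : ((a : ℝ) + c + b + d) / 2 = ((a : ℝ) + c + d + b) / 2 := by ring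
  have e3 : u * ((b : ℝ) - d) = -(u * ((d : ℝ) - b)) := by ring
  have e4 : (a : ℝ) + c - (b + d) = a + c - (d + b) := by ring
  rw [e1, e2, e3, e4]

lemma Phi_lin (β : ℤ → ℝ) (A : Finset ℕ) (u : ℝ) (P Q : ℝ → ℝ → ℝ → ℝ → ℝ) (s t : ℝ) :
    Phi β A u (fun S x y e => s * P S x y e + t * Q S x y e) =
      s * Phi β A u P + t * Phi β A u Q := by
  unfold Phi
  simp only [mul_sum, ← sum_add_distrib]
  refine sum_congr rfl fun a _ => sum_congr rfl fun c _ => sum_congr rfl fun d _ =>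
    sum_congr rfl fun b _ => ?_
  ring

lemma Phi_sym (β : ℤ → ℝ) (A : Finset ℕ) (u : ℝ) (P : ℝ → ℝ → ℝ → ℝ → ℝ) :
    Phi β A u P = Phi β A u (fun S x y e =>
      (P S x y e + P S (-x) y e + P S x (-y) e + P S (-x) (-y) e) / 4) := by
  have h1 := Phi_lin β A u P (fun S x y e => P S (-x) y e) (1 / 2) (1 / 2)
  rw [← Phi_negx] at h1
  have h2 := Phi_lin β A u (fun S x y e => 1 / 2 * P S x y e + 1 / 2 * P S (-x) y e)
    (fun S x y e => 1 / 2 * P S x (-y) e + 1 / 2 * P S (-x) (-y) e) (1 / 2) (1 / 2)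
  rw [← Phi_negy β A u (fun S x y e => 1 / 2 * P S x y e + 1 / 2 * P S (-x) y e), h1] at h2
  have h3 : (fun S x y e => (P S x y e + P S (-x) y e + P S x (-y) e + P S (-x) (-y) e) / 4) =
      (fun S x y e => 1 / 2 * (1 / 2 * P S x y e + 1 / 2 * P S (-x) y e) +
        1 / 2 * (1 / 2 * P S x (-y) e + 1 / 2 * P S (-x) (-y) e)) := by
    funext S x y e; ring
  rw [h3, h2]; ring

lemma quad_args (u : ℝ) (hu : 0 ≤ u) (a c d b : ℕ) :
    |u * ((a : ℝ) - c)| ≤ 2 * (u * (((a : ℝ) + c + d + b) / 2)) ∧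
    |u * ((d : ℝ) - b)| ≤ 2 * (u * (((a : ℝ) + c + d + b) / 2)) ∧
    |u * ((a : ℝ) + c - (d + b))| ≤ 2 * (u * (((a : ℝ) + c + d + b) / 2)) := by
  have ha := mul_nonneg hu (Nat.cast_nonneg (α := ℝ) a)
  have hc := mul_nonneg hu (Nat.cast_nonneg (α := ℝ) c)
  have hd := mul_nonneg hu (Nat.cast_nonneg (α := ℝ) d)
  have hb := mul_nonneg hu (Nat.cast_nonneg (α := ℝ) b)
  refine ⟨?_, ?_, ?_⟩ <;> rw [abs_le] <;> constructor <;> nlinarith

lemma Phi_abs_le (β β' : ℤ → ℝ) (A : Finset ℕ) (u : ℝ) (P : ℝ → ℝ → ℝ → ℝ → ℝ) (C : ℝ)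
    (h : ∀ a c d b : ℕ, |β ((a : ℤ) + c - (d + b))| *
      |P (u * (((a : ℝ) + c + d + b) / 2)) (u * ((a : ℝ) - c)) (u * ((d : ℝ) - b))
      (u * ((a : ℝ) + c - (d + b))) * Real.exp (-(u * (((a : ℝ) + c + d + b) / 2)))| ≤
      C * (β' ((a : ℤ) + c - (d + b)) * Real.exp (-(u * (((a : ℝ) + c + d + b) / 2) / 2)))) :
    |Phi β A u P| ≤ C * Phi β' A (u / 2) (fun _ _ _ _ => 1) := by
  unfold Phi
  simp only [mul_sum]
  refine (abs_sum_le_sum_abs _ _).trans (sum_le_sum fun a _ => ?_)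
  refine (abs_sum_le_sum_abs _ _).trans (sum_le_sum fun c _ => ?_)
  refine (abs_sum_le_sum_abs _ _).trans (sum_le_sum fun d _ => ?_)
  refine (abs_sum_le_sum_abs _ _).trans (sum_le_sum fun b _ => ?_)
  rw [abs_mul]
  refine (h a c d b).trans (le_of_eq ?_)
  rw [one_mul]
  congr 4; ring

lemma En_nonneg (A : Finset ℕ) (u : ℝ) : 0 ≤ En A u := form_dl_nonneg _ _ _

lemma Phi_dl_fej_le (K : ℕ) (A : Finset ℕ) (u : ℝ) :
    Phi (fun k => dl k + fej K k) A u (fun _ _ _ _ => 1) ≤ 2 * En A u := by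
  rw [← form_sm]
  have : form (fun k => dl k + fej K k) (A ×ˢ A) sm (wt u) (wt u) =
      form dl (A ×ˢ A) sm (wt u) (wt u) + form (fej K) (A ×ˢ A) sm (wt u) (wt u) := by
    unfold form; simp only [add_mul, sum_add_distrib]
  rw [this]
  have := form_fej_le K (A ×ˢ A) sm (wt u)
  unfold En; linarith

lemma Phi_bound {P : ℝ → ℝ → ℝ → ℝ → ℝ} (hP : Tame P) :
    ∃ C : ℝ, 0 ≤ C ∧ ∀ (K : ℕ) (A : Finset ℕ) (u : ℝ), 0 ≤ u →
      |Phi (bet K) A u P| ≤ C * En A (u / 2) ∧ |Phi dl A u P| ≤ C * En A (u / 2) ∧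
      |Phi (bet K) A u P - Phi (bet K) A u (fun S x y _ => P S x y 0)| ≤
        C * (u * K) * En A (u / 2) := by
  obtain ⟨C, hC, h⟩ := hP.exp_bound
  have gen : ∀ (β : ℤ → ℝ) (K : ℕ) (A : Finset ℕ) (u : ℝ), 0 ≤ u →
      (∀ k, |β k| ≤ dl k + fej K k) → |Phi β A u P| ≤ 2 * C * En A (u / 2) := by
    intro β K A u hu hβ
    have h1 := Phi_abs_le β (fun k => dl k + fej K k) A u P C (fun a c d b => by
      obtain ⟨q1, q2, q3⟩ := quad_args u hu a c d b
      have := mul_le_mul (hβ ((a : ℤ) + c - (d + b))) (h _ _ _ _ q1 q2 q3).1 (abs_nonneg _)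
        (add_nonneg (dl_nonneg _) (fej_nonneg _ _))
      linarith)
    have h2 := mul_le_mul_of_nonneg_left (Phi_dl_fej_le K A (u / 2)) hC
    linarith
  refine ⟨2 * C, by positivity, fun K A u hu => ⟨gen _ K A u hu (abs_bet_le K), gen _ K A u hu
    (fun k => by rw [abs_of_nonneg (dl_nonneg k)]; linarith [fej_nonneg K k]), ?_⟩⟩
  have e : Phi (bet K) A u P - Phi (bet K) A u (fun S x y _ => P S x y 0) =
      Phi (bet K) A u (fun S x y e => P S x y e - P S x y 0) := by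
    have := Phi_lin (bet K) A u P (fun S x y _ => P S x y 0) 1 (-1)
    simp only [one_mul, neg_mul, ← sub_eq_add_neg] at this
    exact this.symm
  rw [e]
  have h1 := Phi_abs_le (bet K) (fej K) A u (fun S x y e => P S x y e - P S x y 0) (C * (u * K))
    (fun a c d b => by
      obtain ⟨q1, q2, q3⟩ := quad_args u hu a c d b
      have h2 := (h _ _ _ _ q1 q2 q3).2
      have h3 := abs_bet_mul_le K ((a : ℤ) + c - (d + b))
      have h4 : |u * ((a : ℝ) + c - (d + b))| = u * |(((a : ℤ) + c - (d + b) : ℤ) : ℝ)| := by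
        rw [abs_mul, abs_of_nonneg hu]; push_cast; rfl
      rw [h4] at h2
      have hE := (Real.exp_pos (-(u * (((a : ℝ) + c + d + b) / 2) / 2))).le
      calc _ ≤ |bet K ((a : ℤ) + c - (d + b))| * (C * (u * |(((a : ℤ) + c - (d + b) : ℤ) : ℝ)|) *
            Real.exp (-(u * (((a : ℝ) + c + d + b) / 2) / 2))) :=
            mul_le_mul_of_nonneg_left h2 (abs_nonneg _)
        _ = (C * u * Real.exp (-(u * (((a : ℝ) + c + d + b) / 2) / 2))) *
            (|bet K ((a : ℤ) + c - (d + b))| * |(((a : ℤ) + c - (d + b) : ℤ) : ℝ)|) := by ring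
        _ ≤ (C * u * Real.exp (-(u * (((a : ℝ) + c + d + b) / 2) / 2))) *
            (K * fej K ((a : ℤ) + c - (d + b))) :=
            mul_le_mul_of_nonneg_left h3 (by positivity)
        _ = _ := by ring)
  rw [← form_sm] at h1
  have h2 := form_fej_le K (A ×ˢ A) sm (wt (u / 2))
  have h3 : 0 ≤ C * (u * K) := by positivity
  have h4 := mul_le_mul_of_nonneg_left h2 h3
  have h5 := mul_nonneg h3 (En_nonneg A (u / 2))
  unfold En at h5 ⊢
  linarith

lemma Psi_one_le (A : Finset ℕ) (u : ℝ) : Psi A u (fun _ _ => 1) ≤ En A u := by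
  have h := sum_sq_le_form_dl (A ×ˢ A) sm (wt u) (fun p _ => (Real.exp_pos _).le)
  refine le_trans (le_of_eq ?_) h
  unfold Psi wt
  rw [sum_product]
  refine sum_congr rfl fun a _ => sum_congr rfl fun c _ => ?_
  rw [one_mul, sq, ← Real.exp_add]; congr 1; ring

lemma Psi_bound {Q : ℝ → ℝ → ℝ} (hQ : Tame (fun S x _ _ => Q S x)) :
    ∃ C : ℝ, 0 ≤ C ∧ ∀ (A : Finset ℕ) (u : ℝ), 0 ≤ u → |Psi A u Q| ≤ C * En A (u / 2) := by
  obtain ⟨C, hC, h⟩ := hQ.exp_bound
  refine ⟨C, hC, fun A u hu => ?_⟩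
  refine le_trans ?_ (mul_le_mul_of_nonneg_left (Psi_one_le A (u / 2)) hC)
  unfold Psi
  simp only [mul_sum]
  refine (abs_sum_le_sum_abs _ _).trans (sum_le_sum fun a _ => ?_)
  refine (abs_sum_le_sum_abs _ _).trans (sum_le_sum fun c _ => ?_)
  have ha := mul_nonneg hu (Nat.cast_nonneg (α := ℝ) a)
  have hc := mul_nonneg hu (Nat.cast_nonneg (α := ℝ) c)
  have h0 : |(0 : ℝ)| ≤ 2 * (u * ((a : ℝ) + c)) := by rw [abs_zero]; nlinarith
  have h1 := (h (u * ((a : ℝ) + c)) (u * ((a : ℝ) - c)) 0 0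
    (by rw [abs_le]; constructor <;> nlinarith) h0 h0).1
  refine h1.trans (le_of_eq ?_)
  rw [one_mul]; congr 3; ring

lemma Psi_lin (A : Finset ℕ) (u : ℝ) (P Q : ℝ → ℝ → ℝ) (s t : ℝ) :
    Psi A u (fun S x => s * P S x + t * Q S x) = s * Psi A u P + t * Psi A u Q := by
  unfold Psi
  simp only [mul_sum, ← sum_add_distrib]
  refine sum_congr rfl fun a _ => sum_congr rfl fun c _ => ?_
  ring

/-- `R'` is the scale derivative of `R` -/
def DP (R R' : ℝ → ℝ → ℝ → ℝ) : Prop :=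
  ∀ σ x y u : ℝ, HasDerivAt (fun u => u * (R (u * σ) (u * x) (u * y) * Real.exp (-(u * σ))))
    (R' (u * σ) (u * x) (u * y) * Real.exp (-(u * σ))) u

lemma poly_exp_deriv (c1 c2 c3 c4 c5 c6 σ u : ℝ) :
    HasDerivAt (fun u => (c1 * u + c2 * u ^ 2 + c3 * u ^ 3 + c4 * u ^ 4 + c5 * u ^ 5 + c6 * u ^ 6) *
      Real.exp (-(u * σ)))
      ((c1 + 2 * c2 * u + 3 * c3 * u ^ 2 + 4 * c4 * u ^ 3 + 5 * c5 * u ^ 4 + 6 * c6 * u ^ 5 -
        σ * (c1 * u + c2 * u ^ 2 + c3 * u ^ 3 + c4 * u ^ 4 + c5 * u ^ 5 + c6 * u ^ 6)) *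
        Real.exp (-(u * σ))) u := by
  have h1 : HasDerivAt (fun u : ℝ => c1 * u + c2 * u ^ 2 + c3 * u ^ 3 + c4 * u ^ 4 + c5 * u ^ 5 +
      c6 * u ^ 6) (c1 * 1 + c2 * (2 * u ^ 1) + c3 * (3 * u ^ 2) + c4 * (4 * u ^ 3) +
      c5 * (5 * u ^ 4) + c6 * (6 * u ^ 5)) u :=
    ((((((hasDerivAt_id' u).const_mul c1).add ((hasDerivAt_pow 2 u).const_mul c2)).add
      ((hasDerivAt_pow 3 u).const_mul c3)).add ((hasDerivAt_pow 4 u).const_mul c4)).add
      ((hasDerivAt_pow 5 u).const_mul c5)).add ((hasDerivAt_pow 6 u).const_mul c6)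
  have h2 : HasDerivAt (fun u : ℝ => Real.exp (-(u * σ))) (Real.exp (-(u * σ)) * (-(1 * σ))) u :=
    (((hasDerivAt_id' u).mul_const σ).neg).exp
  refine (h1.mul h2).congr_deriv ?_
  ring

lemma Phi_deriv {R R' : ℝ → ℝ → ℝ → ℝ} (h : DP R R') (β : ℤ → ℝ) (A : Finset ℕ) (u : ℝ) :
    HasDerivAt (fun u => u * Phi β A u (fun S x y _ => R S x y))
      (Phi β A u (fun S x y _ => R' S x y)) u := by
  unfold Phi
  simp only [mul_sum]
  refine HasDerivAt.fun_sum fun a _ => HasDerivAt.fun_sum fun c _ => HasDerivAt.fun_sum fun d _ =>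
    HasDerivAt.fun_sum fun b _ => ?_
  have := (h (((a : ℝ) + c + d + b) / 2) ((a : ℝ) - c) ((d : ℝ) - b) u).const_mul
    (β ((a : ℤ) + c - (d + b)))
  refine this.congr_of_eventuallyEq (Filter.Eventually.of_forall fun v => ?_)
  ring

lemma Psi_deriv {R R' : ℝ → ℝ → ℝ} (h : DP (fun S x _ => R S x) (fun S x _ => R' S x))
    (A : Finset ℕ) (u : ℝ) :
    HasDerivAt (fun u => u * Psi A u R) (Psi A u R') u := by
  unfold Psi
  simp only [mul_sum]
  refine HasDerivAt.fun_sum fun a _ => HasDerivAt.fun_sum fun c _ => ?_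
  exact h ((a : ℝ) + c) ((a : ℝ) - c) 0 u

end Pool.Agent.P.MP_d5a1e1_nt
end

-- part Pool.Agent.P.MP_d5a1e1_nt.Window
section

/-! Lower bound for the window form on the sum side (projection on two Laguerre modes). -/

namespace Pool.Agent.P.MP_d5a1e1_nt

open Finset

lemma geo_bounds {u : ℝ} (hu : 0 < u) :
    0 < 1 - Real.exp (-u) ∧ 1 ≤ u / (1 - Real.exp (-u)) ∧ u / (1 - Real.exp (-u)) ≤ 1 + u := by
  have h1 : Real.exp (-u) < 1 := Real.exp_lt_one_iff.2 (by linarith)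
  have h2 := Real.add_one_le_exp (-u)
  have h3 := Real.add_one_le_exp u
  have h4 : Real.exp (-u) * Real.exp u = 1 := by rw [← Real.exp_add]; simp
  have h5 := Real.exp_pos (-u)
  have h0 : 0 < 1 - Real.exp (-u) := by linarith
  refine ⟨h0, ?_, ?_⟩
  · rw [le_div_iff₀ h0]; linarith
  · rw [div_le_iff₀ h0]; nlinarith

lemma exp_pow_nat (u : ℝ) (n : ℕ) : Real.exp (-u) ^ n = Real.exp (-(u * n)) := by
  rw [← Real.exp_nat_mul]; congr 1; ring

lemma geo_sum_le {u : ℝ} (hu : 0 < u) (M : ℕ) :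
    u * ∑ m ∈ range M, Real.exp (-(u * m)) ≤ 1 + u := by
  obtain ⟨g0, -, g2⟩ := geo_bounds hu
  have H0 := hasSum_geometric_of_lt_one (Real.exp_pos (-u)).le (by linarith)
  have := sum_le_hasSum (range M) (fun i _ => by positivity) H0
  simp only [exp_pow_nat] at this
  calc _ ≤ u * (1 - Real.exp (-u))⁻¹ := mul_le_mul_of_nonneg_left this hu.le
    _ ≤ _ := by rw [← div_eq_mul_inv]; exact g2

lemma geo_sum_ge {u : ℝ} (hu : 0 < u) (M : ℕ) :
    1 - Real.exp (-(u * M)) ≤ u * ∑ m ∈ range M, Real.exp (-(u * m)) := by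
  obtain ⟨g0, g1, -⟩ := geo_bounds hu
  have h := mul_neg_geom_sum (Real.exp (-u)) M
  simp only [exp_pow_nat] at h
  have hs : 0 ≤ ∑ m ∈ range M, Real.exp (-(u * m)) := sum_nonneg fun _ _ => by positivity
  rw [le_div_iff₀ g0] at g1
  nlinarith

lemma lag_sum_le {u : ℝ} (hu : 0 < u) (hu1 : u ≤ 1) (c0 c1 : ℝ) (M : ℕ) :
    u * ∑ m ∈ range M, (c0 + c1 * (1 - u * m)) ^ 2 * Real.exp (-(u * m)) ≤
      (1 + 30 * u) * (c0 ^ 2 + c1 ^ 2) := by
  obtain ⟨g0, g1, g2⟩ := geo_bounds hu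
  have hr : ‖Real.exp (-u)‖ < 1 := by
    rw [Real.norm_eq_abs, abs_of_pos (Real.exp_pos _)]; linarith
  have H0 := hasSum_choose_mul_geometric_of_norm_lt_one 0 hr
  have H1 := hasSum_choose_mul_geometric_of_norm_lt_one 1 hr
  have H2 := hasSum_choose_mul_geometric_of_norm_lt_one 2 hr
  set z := 1 / (1 - Real.exp (-u)) with hz
  have e0 : 1 / (1 - Real.exp (-u)) ^ (0 + 1) = z := by rw [hz]; simp
  have e1 : 1 / (1 - Real.exp (-u)) ^ (1 + 1) = z ^ 2 := by rw [hz]; simp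
  have e2 : 1 / (1 - Real.exp (-u)) ^ (2 + 1) = z ^ 3 := by rw [hz]; simp
  rw [e0] at H0; rw [e1] at H1; rw [e2] at H2
  have H := ((H0.mul_left ((c0 + c1) ^ 2 + 2 * (c0 + c1) * c1 * u + c1 ^ 2 * u ^ 2)).add
    (H1.mul_left (-2 * (c0 + c1) * c1 * u - 3 * c1 ^ 2 * u ^ 2))).add
    (H2.mul_left (2 * c1 ^ 2 * u ^ 2))
  have hf : (fun n : ℕ => ((c0 + c1) ^ 2 + 2 * (c0 + c1) * c1 * u + c1 ^ 2 * u ^ 2) *
      (((n + 0).choose 0 : ℕ) * Real.exp (-u) ^ n) +
      (-2 * (c0 + c1) * c1 * u - 3 * c1 ^ 2 * u ^ 2) *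
      (((n + 1).choose 1 : ℕ) * Real.exp (-u) ^ n) +
      2 * c1 ^ 2 * u ^ 2 * (((n + 2).choose 2 : ℕ) * Real.exp (-u) ^ n)) =
      fun n : ℕ => (c0 + c1 * (1 - u * n)) ^ 2 * Real.exp (-(u * n)) := by
    funext n
    rw [exp_pow_nat, Nat.cast_choose_two]
    simp only [Nat.choose_zero_right, Nat.choose_one_right]
    push_cast
    ring
  rw [hf] at H
  have h := sum_le_hasSum (range M) (fun i _ => by positivity) H
  have hw : u / (1 - Real.exp (-u)) = u * z := by rw [hz]; ring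
  rw [hw] at g1 g2
  refine (mul_le_mul_of_nonneg_left h hu.le).trans ?_
  set w := u * z with hw'
  have e : u * (((c0 + c1) ^ 2 + 2 * (c0 + c1) * c1 * u + c1 ^ 2 * u ^ 2) * z +
      (-2 * (c0 + c1) * c1 * u - 3 * c1 ^ 2 * u ^ 2) * z ^ 2 + 2 * c1 ^ 2 * u ^ 2 * z ^ 3) =
      c0 ^ 2 * w + 2 * c0 * c1 * (w * (1 + u - w)) +
        c1 ^ 2 * (w - 2 * w ^ 2 + 2 * u * w + 2 * w ^ 3 - 3 * u * w ^ 2 + u ^ 2 * w) := by
    rw [hw']; ring
  rw [e]
  have a1 : 0 ≤ w * (1 + u - w) := mul_nonneg (by linarith) (by linarith)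
  have a2 : w * (1 + u - w) ≤ 2 * u := by nlinarith
  have w2 : 1 ≤ w ^ 2 := by nlinarith
  have w3 : w ^ 3 ≤ 1 + 7 * u := by
    have : w ^ 3 ≤ (1 + u) ^ 3 := pow_le_pow_left₀ (by linarith) g2 3
    nlinarith [mul_nonneg hu.le (sub_nonneg.2 hu1), mul_nonneg (mul_nonneg hu.le hu.le)
      (sub_nonneg.2 hu1)]
  have a3 : w - 2 * w ^ 2 + 2 * u * w + 2 * w ^ 3 - 3 * u * w ^ 2 + u ^ 2 * w ≤ 1 + 21 * u := by
    have b1 : u * w ≤ 2 * u := by nlinarith
    have b2 : 0 ≤ u * w ^ 2 := by positivity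
    have b3 : u ^ 2 * w ≤ 2 * u := by nlinarith
    linarith
  have c1' := mul_le_mul_of_nonneg_left a3 (sq_nonneg c1)
  have c0' := mul_le_mul_of_nonneg_left g2 (sq_nonneg c0)
  have c2' : 2 * c0 * c1 * (w * (1 + u - w)) ≤ (c0 ^ 2 + c1 ^ 2) * (2 * u) := by
    have : 2 * c0 * c1 ≤ c0 ^ 2 + c1 ^ 2 := by nlinarith [sq_nonneg (c0 - c1)]
    calc _ ≤ (c0 ^ 2 + c1 ^ 2) * (w * (1 + u - w)) := mul_le_mul_of_nonneg_right this a1
      _ ≤ _ := mul_le_mul_of_nonneg_left a2 (by positivity)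
  nlinarith [mul_nonneg hu.le (sq_nonneg c0), mul_nonneg hu.le (sq_nonneg c1)]

noncomputable def mu (A : Finset ℕ) (u : ℝ) : ℝ := u * Psi A u (fun _ _ => 1)

noncomputable def la (A : Finset ℕ) (u : ℝ) : ℝ := u * Psi A u (fun S _ => 1 - S)

lemma fej_lower (K : ℕ) (hK : 0 < K) (A : Finset ℕ) {u : ℝ} (hu : 0 < u) (hu1 : u ≤ 1) :
    (1 - 2 * (u * K) - 30 * u) * (mu A u ^ 2 + la A u ^ 2) ≤
      u * form (fej K) (A ×ˢ A) sm (wt u) (wt u) := by
  classical
  have hK' : (0 : ℝ) < K := by exact_mod_cast hK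
  set c0 := mu A u with hc0
  set c1 := la A u with hc1
  set M := 2 * A.sup id + K with hM
  let η : ℤ → ℝ := fun m => (c0 + c1 * (1 - u * m)) * Real.exp (-(u * (m / 2)))
  have h := form_fej_test K (A ×ˢ A) sm (wt u) η ((range M).image (fun n : ℕ => (n : ℤ)))
    (fun p hp i hi => by
      refine mem_image.2 ⟨p.1 + p.2 + i, mem_range.2 ?_, by simp [sm]⟩
      have h1 : p.1 ≤ A.sup id := le_sup (f := id) (mem_product.1 hp).1
      have h2 : p.2 ≤ A.sup id := le_sup (f := id) (mem_product.1 hp).2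
      have := mem_range.1 hi
      omega)
  rw [sum_image (fun a _ b _ h => by simpa using h)] at h
  have h2 : ∑ m ∈ range M, η (m : ℕ) ^ 2 =
      ∑ m ∈ range M, (c0 + c1 * (1 - u * m)) ^ 2 * Real.exp (-(u * m)) := by
    refine sum_congr rfl fun m _ => ?_
    simp only [η]
    rw [mul_pow, sq (Real.exp _), ← Real.exp_add]
    push_cast
    congr 2; ring
  rw [h2] at h
  have h3 := lag_sum_le hu hu1 c0 c1 M
  have h4 : ∀ i ∈ range K, (1 - u * K) * (c0 ^ 2 + c1 ^ 2) ≤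
      u * ∑ p ∈ A ×ˢ A, wt u p * η (sm p + i) := by
    intro i hi
    have hi' : (i : ℝ) ≤ K := by exact_mod_cast (mem_range.1 hi).le
    have e : ∑ p ∈ A ×ˢ A, wt u p * η (sm p + i) = Real.exp (-(u * (i / 2))) *
        Psi A u (fun S x => (c0 - c1 * (u * i)) * 1 + c1 * (1 - S)) := by
      unfold Psi
      rw [sum_product]
      simp only [mul_sum]
      refine sum_congr rfl fun a _ => sum_congr rfl fun c _ => ?_
      simp only [η, wt, sm]
      push_cast
      have : Real.exp (-(u * (((a : ℝ) + c) / 2))) * Real.exp (-(u * (((a : ℝ) + c + i) / 2))) =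
          Real.exp (-(u * (i / 2))) * Real.exp (-(u * ((a : ℝ) + c))) := by
        rw [← Real.exp_add, ← Real.exp_add]; congr 1; ring
      linear_combination (c0 + c1 * (1 - u * ((a : ℝ) + c + i))) * this
    rw [e, Psi_lin]
    have e2 : u * (Real.exp (-(u * (i / 2))) * ((c0 - c1 * (u * i)) * Psi A u (fun _ _ => 1) +
        c1 * Psi A u (fun S _ => 1 - S))) =
        Real.exp (-(u * (i / 2))) * (c0 ^ 2 + c1 ^ 2 - (u * i) * (c0 * c1)) := by
      have a1 : c0 = u * Psi A u (fun _ _ => 1) := hc0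
      have a2 : c1 = u * Psi A u (fun S _ => 1 - S) := hc1
      linear_combination (Real.exp (-(u * (i / 2))) * (c0 - c1 * (u * i))) * (-a1) +
        (Real.exp (-(u * (i / 2))) * c1) * (-a2)
    rw [e2]
    have x1 := Real.add_one_le_exp (-(u * (i / 2)))
    have x2 : Real.exp (-(u * (i / 2))) ≤ 1 := Real.exp_le_one_iff.2 (by
      have : 0 ≤ u * ((i : ℝ) / 2) := by positivity
      linarith)
    have x3 := Real.exp_pos (-(u * (i / 2)))
    set E := Real.exp (-(u * (i / 2)))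
    have ui : 0 ≤ u * i := by positivity
    have uK : u * i ≤ u * K := mul_le_mul_of_nonneg_left hi' hu.le
    have y1 : E * (c0 * c1) ≤ (c0 ^ 2 + c1 ^ 2) / 2 := by
      have : c0 * c1 ≤ (c0 ^ 2 + c1 ^ 2) / 2 := by nlinarith [sq_nonneg (c0 - c1)]
      calc E * (c0 * c1) ≤ E * ((c0 ^ 2 + c1 ^ 2) / 2) := mul_le_mul_of_nonneg_left this x3.le
        _ ≤ 1 * ((c0 ^ 2 + c1 ^ 2) / 2) := mul_le_mul_of_nonneg_right x2 (by positivity)
        _ = _ := one_mul _
    have y2 := mul_le_mul_of_nonneg_left y1 ui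
    have y3 : 0 ≤ c0 ^ 2 + c1 ^ 2 := by positivity
    have y4 := mul_le_mul_of_nonneg_right x1 y3
    have y5 := mul_le_mul_of_nonneg_right uK y3
    nlinarith
  have h5 : (1 - u * K) * (c0 ^ 2 + c1 ^ 2) ≤
      u * ((∑ i ∈ range K, ∑ p ∈ A ×ˢ A, wt u p * η (sm p + i)) / K) := by
    rw [← mul_div_assoc, le_div_iff₀ hK', mul_sum]
    refine le_trans (le_of_eq ?_) (sum_le_sum h4)
    simp; ring
  have h6 := mul_le_mul_of_nonneg_left h hu.le
  nlinarith

end Pool.Agent.P.MP_d5a1e1_nt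
end

-- part Pool.Agent.P.MP_d5a1e1_nt.Cert
section

/-! The polynomial certificate and the differential inequality. -/

namespace Pool.Agent.P.MP_d5a1e1_nt

open Finset

def gam (a b : ℝ) : ℝ := 731 + 435 * a - 72 * b - 72 * a ^ 2 - 264 * (a * b) + 192 * (a ^ 2 * b)

noncomputable def PP (S x y e : ℝ) : ℝ :=
  gam ((S + e / 2 + x) / 2) ((S - e / 2 - y) / 2) * gam ((S - e / 2 + y) / 2) ((S + e / 2 - x) / 2)

noncomputable def R1 (S x y : ℝ) : ℝ :=
  (-845019 / 2) + (-314313 / 4) * S + ((-1776) * y ^ 2 + (-1776) * x ^ 2 + (-56148) * S ^ 2) +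
    (5796 * (S * y ^ 2) + 5796 * (S * x ^ 2) + (-12888) * S ^ 3) +
    ((-1152) * (x ^ 2 * y ^ 2) + 288 * (S ^ 2 * y ^ 2) + 288 * (S ^ 2 * x ^ 2) + 576 * S ^ 4) +
    ((-576) * (S * (x ^ 2 * y ^ 2)) + 576 * (S ^ 3 * y ^ 2) + 576 * (S ^ 3 * x ^ 2) +
      (-576) * S ^ 5)

noncomputable def R1d (S x y : ℝ) : ℝ :=
  (PP S x y 0 + PP S (-x) y 0 + PP S x (-y) 0 + PP S (-x) (-y) 0) / 4 - 1913741 / 2

noncomputable def R2 (S x : ℝ) : ℝ := (-315 / 2) + (-120) * S + ((-24) * S ^ 2 + (-72) * x ^ 2)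

noncomputable def R2d (S x : ℝ) : ℝ :=
  (gam ((S + x) / 2) ((S + x) / 2) + gam ((S - x) / 2) ((S - x) / 2)) / 2 - 2041 / 2 +
    528 * ((1 / 2 - (S + x) / 2) * (1 / 2 - (S - x) / 2))

lemma dp1 : DP R1 R1d := by
  intro σ x y u
  have h := poly_exp_deriv (-845019 / 2) ((-314313 / 4) * σ)
    ((-1776) * y ^ 2 + (-1776) * x ^ 2 + (-56148) * σ ^ 2)
    (5796 * (σ * y ^ 2) + 5796 * (σ * x ^ 2) + (-12888) * σ ^ 3)
    ((-1152) * (x ^ 2 * y ^ 2) + 288 * (σ ^ 2 * y ^ 2) + 288 * (σ ^ 2 * x ^ 2) + 576 * σ ^ 4)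
    ((-576) * (σ * (x ^ 2 * y ^ 2)) + 576 * (σ ^ 3 * y ^ 2) + 576 * (σ ^ 3 * x ^ 2) +
      (-576) * σ ^ 5) σ u
  refine (h.congr_of_eventuallyEq (Filter.Eventually.of_forall fun v => ?_)).congr_deriv ?_
  · simp only [R1]; ring
  · congr 1
    simp only [R1d, PP, gam]; ring

lemma dp2 : DP (fun S x _ => R2 S x) (fun S x _ => R2d S x) := by
  intro σ x y u
  have h := poly_exp_deriv (-315 / 2) ((-120) * σ) ((-24) * σ ^ 2 + (-72) * x ^ 2) 0 0 0 σ u
  refine (h.congr_of_eventuallyEq (Filter.Eventually.of_forall fun v => ?_)).congr_deriv ?_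
  · simp only [R2]; ring
  · congr 1
    simp only [R2d, gam]; ring

lemma tame_gam {f g : ℝ → ℝ → ℝ → ℝ → ℝ} (hf : Tame f) (hg : Tame g) :
    Tame (fun S x y e => gam (f S x y e) (g S x y e)) :=
  ((((((Tame.const 731).add ((Tame.const 435).mul hf)).sub ((Tame.const 72).mul hg)).sub
    ((Tame.const 72).mul (hf.pow 2))).sub ((Tame.const 264).mul (hf.mul hg))).add
    ((Tame.const 192).mul ((hf.pow 2).mul hg)))

lemma tame_PP : Tame PP :=
  (tame_gam (((Tame.v1.add (Tame.v4.div_const 2)).add Tame.v2).div_const 2)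
    (((Tame.v1.sub (Tame.v4.div_const 2)).sub Tame.v3).div_const 2)).mul
  (tame_gam (((Tame.v1.sub (Tame.v4.div_const 2)).add Tame.v3).div_const 2)
    (((Tame.v1.add (Tame.v4.div_const 2)).sub Tame.v2).div_const 2))

lemma tame_R1 : Tame (fun S x y _ => R1 S x y) := by
  unfold R1
  have s := Tame.v1
  have x := Tame.v2
  have y := Tame.v3
  have c := Tame.const
  exact (((((c _).add ((c _).mul s)).add ((((c _).mul (y.pow 2)).add ((c _).mul (x.pow 2))).add
    ((c _).mul (s.pow 2)))).add ((((c _).mul (s.mul (y.pow 2))).add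
    ((c _).mul (s.mul (x.pow 2)))).add ((c _).mul (s.pow 3)))).add
    (((((c _).mul ((x.pow 2).mul (y.pow 2))).add ((c _).mul ((s.pow 2).mul (y.pow 2)))).add
    ((c _).mul ((s.pow 2).mul (x.pow 2)))).add ((c _).mul (s.pow 4)))).add
    (((((c _).mul (s.mul ((x.pow 2).mul (y.pow 2)))).add ((c _).mul ((s.pow 3).mul (y.pow 2)))).add
    ((c _).mul ((s.pow 3).mul (x.pow 2)))).add ((c _).mul (s.pow 5)))

lemma tame_R2 : Tame (fun S x _ _ => R2 S x) := by
  unfold R2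
  have s := Tame.v1
  have x := Tame.v2
  have c := Tame.const
  exact ((c _).add ((c _).mul s)).add (((c _).mul (s.pow 2)).add ((c _).mul (x.pow 2)))

lemma tame_la : Tame (fun S _ _ _ => 1 - S) := (Tame.const 1).sub Tame.v1

noncomputable def mom (A : Finset ℕ) (u : ℝ) (f : ℝ → ℝ) : ℝ :=
  ∑ a ∈ A, f (u * a) * Real.exp (-(u * a))

lemma Psi_prod (A : Finset ℕ) (u : ℝ) (f h : ℝ → ℝ) :
    Psi A u (fun S x => f ((S + x) / 2) * h ((S - x) / 2)) = mom A u f * mom A u h := by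
  unfold Psi mom
  rw [sum_mul_sum]
  refine sum_congr rfl fun a _ => sum_congr rfl fun c _ => ?_
  have e1 : (u * ((a : ℝ) + c) + u * ((a : ℝ) - c)) / 2 = u * a := by ring
  have e2 : (u * ((a : ℝ) + c) - u * ((a : ℝ) - c)) / 2 = u * c := by ring
  have e3 : Real.exp (-(u * ((a : ℝ) + c))) = Real.exp (-(u * a)) * Real.exp (-(u * c)) := by
    rw [← Real.exp_add]; congr 1; ring
  simp only []
  rw [e1, e2, e3]; ring

lemma Psi_one (A : Finset ℕ) (u : ℝ) : Psi A u (fun _ _ => 1) = mom A u (fun _ => 1) ^ 2 := by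
  have := Psi_prod A u (fun _ => 1) (fun _ => 1)
  simpa [sq] using this

lemma Psi_la (A : Finset ℕ) (u : ℝ) :
    Psi A u (fun S _ => 1 - S) = 2 * (mom A u (fun _ => 1) * mom A u (fun t => 1 / 2 - t)) := by
  have h1 := Psi_prod A u (fun _ => 1) (fun t => 1 / 2 - t)
  have h2 := Psi_prod A u (fun t => 1 / 2 - t) (fun _ => 1)
  have h3 := Psi_lin A u (fun S x => 1 * (1 / 2 - (S - x) / 2))
    (fun S x => (1 / 2 - (S + x) / 2) * 1) 1 1
  have h4 : (fun S x : ℝ => 1 * (1 * (1 / 2 - (S - x) / 2)) + 1 * ((1 / 2 - (S + x) / 2) * 1)) =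
      fun S _ => 1 - S := by
    funext S x; ring
  rw [h4, h1, h2] at h3
  rw [h3]; ring

lemma Psi_R2d (A : Finset ℕ) (u : ℝ) :
    Psi A u R2d = mom A u (fun t => gam t t) * mom A u (fun _ => 1) -
      2041 / 2 * mom A u (fun _ => 1) ^ 2 + 528 * mom A u (fun t => 1 / 2 - t) ^ 2 := by
  have h1 := Psi_prod A u (fun t => gam t t) (fun _ => 1)
  have h2 := Psi_prod A u (fun _ => 1) (fun t => gam t t)
  have h3 := Psi_prod A u (fun t => 1 / 2 - t) (fun t => 1 / 2 - t)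
  have h4 := Psi_one A u
  have k1 := Psi_lin A u (fun S x => gam ((S + x) / 2) ((S + x) / 2) * 1)
    (fun S x => 1 * gam ((S - x) / 2) ((S - x) / 2)) (1 / 2) (1 / 2)
  have k2 := Psi_lin A u (fun _ _ => 1)
    (fun S x => (1 / 2 - (S + x) / 2) * (1 / 2 - (S - x) / 2)) (-(2041 / 2)) 528
  have k3 := Psi_lin A u (fun S x => 1 / 2 * (gam ((S + x) / 2) ((S + x) / 2) * 1) +
      1 / 2 * (1 * gam ((S - x) / 2) ((S - x) / 2)))
    (fun S x => -(2041 / 2) * 1 + 528 * ((1 / 2 - (S + x) / 2) * (1 / 2 - (S - x) / 2))) 1 1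
  have e : R2d = fun S x => 1 * (1 / 2 * (gam ((S + x) / 2) ((S + x) / 2) * 1) +
      1 / 2 * (1 * gam ((S - x) / 2) ((S - x) / 2))) +
      1 * (-(2041 / 2) * 1 + 528 * ((1 / 2 - (S + x) / 2) * (1 / 2 - (S - x) / 2))) := by
    funext S x; simp only [R2d]; ring
  rw [e, k3, k1, k2, h1, h2, h3, h4]; ring

lemma sum_diag (A : Finset ℕ) (f : ℕ × ℕ → ℝ) :
    ∑ p ∈ A ×ˢ A, dl (df p) * f p = ∑ a ∈ A, f (a, a) := by
  rw [sum_product]
  refine sum_congr rfl fun a ha => ?_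
  rw [sum_eq_single a]
  · simp [df, dl_zero]
  · intro b _ hb
    rw [dl_ne, zero_mul]
    simp only [df]
    omega
  · intro h; exact absurd ha h

lemma wt_diag (u : ℝ) (a : ℕ) : wt u (a, a) = Real.exp (-(u * a)) := by
  unfold wt; congr 1; simp

/-- lower bound coming from the zero difference -/
lemma diff_lower (K : ℕ) (hK : 0 < K) (θ : ℝ) (hθ : 0 < θ) (A : Finset ℕ) (u : ℝ) :
    2041 * (mom A u (fun t => gam t t) * mom A u (fun _ => 1)) -
      (1 + θ) * (2041 / 2) ^ 2 * mom A u (fun _ => 1) ^ 2 - Phi dl A u PP / (θ * K) ≤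
      Phi (bet K) A u PP := by
  have hK' : (0 : ℝ) < K := by exact_mod_cast hK
  set F : ℕ × ℕ → ℝ := fun p => gam (u * p.1) (u * p.2) * wt u p with hF
  have e1 : ∀ β, form β (A ×ˢ A) df F F = Phi β A u PP := fun β => form_df β A u gam
  have h := form_bet_test K (A ×ˢ A) df F (fun p => dl (df p) * (2041 / 2 * wt u p))
    (fun p _ hp => by rw [dl_ne hp, zero_mul])
  have h2 := fej_pt_sq_le K hK (A ×ˢ A) df F
  rw [e1] at h h2
  have e2 : ∑ p ∈ A ×ˢ A, dl (df p) * (2041 / 2 * wt u p) = 2041 / 2 * mom A u (fun _ => 1) := by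
    rw [sum_diag, mom, mul_sum]
    refine sum_congr rfl fun a _ => ?_
    rw [wt_diag, one_mul]
  have e3 : ∑ p ∈ A ×ˢ A, bet K (df p) * F p =
      mom A u (fun t => gam t t) - ∑ p ∈ A ×ˢ A, fej K (df p) * F p := by
    unfold bet
    simp only [sub_mul, sum_sub_distrib]
    rw [sum_diag, mom]
    congr 1
    refine sum_congr rfl fun a _ => ?_
    simp only [hF, wt_diag]
  rw [e2, e3] at h
  set c := ∑ p ∈ A ×ˢ A, fej K (df p) * F p
  set φ := mom A u (fun _ => 1)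
  have h3 : c ^ 2 / θ ≤ Phi dl A u PP / (θ * K) := by
    rw [mul_comm, ← div_div]
    exact div_le_div_of_nonneg_right h2 hθ.le
  have h4 : 2041 * φ * c ≤ θ * (2041 / 2) ^ 2 * φ ^ 2 + c ^ 2 / θ := by
    have : 0 ≤ (θ * (2041 / 2) * φ - c) ^ 2 / θ := by positivity
    have e : (θ * (2041 / 2) * φ - c) ^ 2 / θ =
        θ * (2041 / 2) ^ 2 * φ ^ 2 + c ^ 2 / θ - 2041 * φ * c := by
      field_simp; ring
    linarith
  nlinarith

noncomputable def GG (K : ℕ) (A : Finset ℕ) (u : ℝ) : ℝ :=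
  u * Phi (bet K) A u (fun S x y _ => R1 S x y) - 2041 * (u * Psi A u R2)

noncomputable def GGd (K : ℕ) (A : Finset ℕ) (u : ℝ) : ℝ :=
  Phi (bet K) A u (fun S x y _ => R1d S x y) - 2041 * Psi A u R2d

lemma GG_deriv (K : ℕ) (A : Finset ℕ) (u : ℝ) : HasDerivAt (GG K A) (GGd K A u) u :=
  (Phi_deriv dp1 (bet K) A u).sub ((Psi_deriv dp2 A u).const_mul 2041)

lemma Phi_R1d (K : ℕ) (A : Finset ℕ) (u : ℝ) :
    Phi (bet K) A u (fun S x y _ => R1d S x y) =
      Phi (bet K) A u (fun S x y _ => PP S x y 0) -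
        1913741 / 2 * (En A u - form (fej K) (A ×ˢ A) sm (wt u) (wt u)) := by
  have h1 := Phi_sym (bet K) A u (fun S x y _ => PP S x y 0)
  have h2 := Phi_lin (bet K) A u (fun S x y _ =>
    (PP S x y 0 + PP S (-x) y 0 + PP S x (-y) 0 + PP S (-x) (-y) 0) / 4) (fun _ _ _ _ => 1)
    1 (-(1913741 / 2))
  have e : (fun S x y (_ : ℝ) => R1d S x y) = fun S x y _ =>
      1 * ((PP S x y 0 + PP S (-x) y 0 + PP S x (-y) 0 + PP S (-x) (-y) 0) / 4) +
        -(1913741 / 2) * 1 := by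
    funext S x y e; simp only [R1d]; ring
  rw [e, h2, ← h1, ← form_sm, form_bet, En]; ring

/-- the differential inequality with explicit error terms -/
lemma key_ineq : ∃ C : ℝ, 0 ≤ C ∧ ∀ (K : ℕ), 0 < K → ∀ θ : ℝ, 0 < θ → ∀ (A : Finset ℕ) (u : ℝ),
    0 < u → u ≤ 1 →
    |GG K A u| ≤ C * (u * En A (u / 2)) ∧ |la A u| ≤ C * (u * En A (u / 2)) ∧
    (3 / 10 ≤ mu A u →
      (2041 / 2) ^ 2 * mu A u + 1913741 / 2 * (mu A u ^ 2 - u * En A u)
        - θ * (2041 / 2) ^ 2 * mu A u - C * (1 / (θ * K) + u * K) * (u * En A (u / 2))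
        - 1913741 / 2 * (2 * (u * K) + 30 * u) * (mu A u ^ 2 + la A u ^ 2) ≤ u * GGd K A u) := by
  obtain ⟨C1, hC1, h1⟩ := Phi_bound tame_PP
  obtain ⟨C2, hC2, h2⟩ := Phi_bound tame_R1
  obtain ⟨C3, hC3, h3⟩ := Psi_bound (Q := R2) tame_R2
  obtain ⟨C4, hC4, h4⟩ := Psi_bound (Q := fun S _ => 1 - S) tame_la
  refine ⟨C1 + C2 + 2041 * C3 + C4, by positivity, fun K hK θ hθ A u hu hu1 => ?_⟩
  have hK' : (0 : ℝ) < K := by exact_mod_cast hK
  have hE := En_nonneg A (u / 2)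
  have huE := mul_nonneg hu.le hE
  obtain ⟨-, a2, a3⟩ := h1 K A u hu.le
  obtain ⟨b1, -, -⟩ := h2 K A u hu.le
  have c1 := h3 A u hu.le
  have d1 := h4 A u hu.le
  refine ⟨?_, ?_, fun hmu => ?_⟩
  · unfold GG
    refine (abs_sub _ _).trans ?_
    rw [abs_mul, abs_mul, abs_mul, abs_of_pos hu, abs_of_pos (by norm_num : (0 : ℝ) < 2041)]
    have := mul_le_mul_of_nonneg_left b1 hu.le
    have := mul_le_mul_of_nonneg_left c1 hu.le
    nlinarith [mul_nonneg hC1 huE, mul_nonneg hC4 huE]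
  · unfold la
    rw [abs_mul, abs_of_pos hu]
    have := mul_le_mul_of_nonneg_left d1 hu.le
    nlinarith [mul_nonneg hC1 huE, mul_nonneg hC2 huE, mul_nonneg hC3 huE]
  · have k1 := diff_lower K hK θ hθ A u
    have k2 := fej_lower K hK A hu hu1
    have k3 : mu A u = u * mom A u (fun _ => 1) ^ 2 := by rw [mu, Psi_one]
    have k4 : la A u ^ 2 = 4 * mu A u * (u * mom A u (fun t => 1 / 2 - t) ^ 2) := by
      rw [k3, la, Psi_la]; ring
    have k5 : Phi dl A u PP / (θ * K) ≤ C1 * En A (u / 2) / (θ * K) :=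
      div_le_div_of_nonneg_right (le_trans (le_abs_self _) a2) (by positivity)
    have k6 := (abs_le.1 a3).2
    unfold GGd
    rw [Phi_R1d, Psi_R2d]
    set φ := mom A u (fun _ => 1)
    set ζ := mom A u (fun t => 1 / 2 - t)
    set X := mom A u (fun t => gam t t)
    set Fj := form (fej K) (A ×ˢ A) sm (wt u) (wt u)
    set P0 := Phi (bet K) A u (fun S x y _ => PP S x y 0)
    set E2 := En A (u / 2)
    set m := mu A u
    set l := la A u
    have k7 : 2041 * (X * φ) - (1 + θ) * (2041 / 2) ^ 2 * φ ^ 2 -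
        C1 * (1 / (θ * K) + u * K) * E2 ≤ P0 := by
      have : C1 * (1 / (θ * K) + u * K) * E2 = C1 * E2 / (θ * K) + C1 * (u * K) * E2 := by ring
      linarith
    have k8 := mul_le_mul_of_nonneg_left k7 hu.le
    have k9 : 0 ≤ u * ζ ^ 2 := by positivity
    have k10 : 2041 * 528 * (u * ζ ^ 2) ≤ 1913741 / 2 * l ^ 2 := by
      rw [k4]; nlinarith
    have k11 : C1 * (1 / (θ * K) + u * K) * (u * E2) ≤
        (C1 + C2 + 2041 * C3 + C4) * (1 / (θ * K) + u * K) * (u * E2) := by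
      have : 0 ≤ (1 / (θ * K) + u * K) * (u * E2) := by positivity
      nlinarith [mul_nonneg hC2 this, mul_nonneg hC3 this, mul_nonneg hC4 this]
    have k12 : u * (P0 - 1913741 / 2 * (En A u - Fj) -
        2041 * (X * φ - 2041 / 2 * φ ^ 2 + 528 * ζ ^ 2)) =
        u * P0 - 1913741 / 2 * (u * En A u) + 1913741 / 2 * (u * Fj) - 2041 * (u * (X * φ)) +
          2 * (2041 / 2) ^ 2 * m - 2041 * 528 * (u * ζ ^ 2) := by
      rw [k3]; ring
    have k13 : u * (2041 * (X * φ) - (1 + θ) * (2041 / 2) ^ 2 * φ ^ 2 -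
        C1 * (1 / (θ * K) + u * K) * E2) = 2041 * (u * (X * φ)) - (1 + θ) * (2041 / 2) ^ 2 * m -
        C1 * (1 / (θ * K) + u * K) * (u * E2) := by
      rw [k3]; ring
    rw [k12]
    rw [k13] at k8
    linarith

end Pool.Agent.P.MP_d5a1e1_nt
end

-- part Pool.Agent.P.MP_d5a1e1_nt.Growth
section

/-! Integration of the differential inequality over a long range of scales. -/

namespace Pool.Agent.P.MP_d5a1e1_nt

open Finset

lemma log_growth (G G' : ℝ → ℝ) (δ u0 u1 : ℝ) (h0 : 0 < u0) (h01 : u0 ≤ u1)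
    (hd : ∀ u, HasDerivAt G (G' u) u) (hb : ∀ u ∈ Set.Icc u0 u1, δ ≤ u * G' u) :
    δ * (Real.log u1 - Real.log u0) ≤ G u1 - G u0 := by
  have hH : ∀ u, 0 < u → HasDerivAt (fun v => G v - δ * Real.log v) (G' u - δ * u⁻¹) u :=
    fun u hu => (hd u).sub ((Real.hasDerivAt_log hu.ne').const_mul δ)
  have hm : MonotoneOn (fun v => G v - δ * Real.log v) (Set.Icc u0 u1) := by
    refine monotoneOn_of_deriv_nonneg (convex_Icc _ _) ?_ ?_ ?_
    · intro u hu
      exact (hH u (by linarith [hu.1])).continuousAt.continuousWithinAt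
    · intro u hu
      rw [interior_Icc] at hu
      exact (hH u (by linarith [hu.1])).differentiableAt.differentiableWithinAt
    · intro u hu
      rw [interior_Icc] at hu
      have hu0 : 0 < u := by linarith [hu.1]
      rw [(hH u hu0).deriv]
      have := hb u ⟨hu.1.le, hu.2.le⟩
      have h2 : δ * u⁻¹ ≤ G' u := by
        rw [← div_eq_mul_inv, div_le_iff₀ hu0]; linarith
      linarith
  have := hm ⟨le_refl _, h01⟩ ⟨h01, le_refl _⟩ h01
  simp only at this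
  linarith

lemma mu_nonneg (A : Finset ℕ) {u : ℝ} (hu : 0 ≤ u) : 0 ≤ mu A u := by
  rw [mu, Psi_one]; positivity

lemma mu_le (A : Finset ℕ) {u : ℝ} (hu : 0 ≤ u) : mu A u ≤ u * En A u :=
  mul_le_mul_of_nonneg_left (Psi_one_le A u) hu

lemma mu_sq_le (A : Finset ℕ) {u : ℝ} (hu : 0 < u) (hu1 : u ≤ 1) :
    (1 - 32 * u) * mu A u ^ 2 ≤ u * En A u := by
  by_cases h : 1 - 32 * u ≤ 0
  · exact le_trans (mul_nonpos_of_nonpos_of_nonneg h (sq_nonneg _))
      (mul_nonneg hu.le (En_nonneg A u))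
  have h1 := fej_lower 1 one_pos A hu hu1
  have h2 := mul_le_mul_of_nonneg_left (form_fej_le 1 (A ×ˢ A) sm (wt u)) hu.le
  have h3 : (1 - 2 * (u * ((1 : ℕ) : ℝ)) - 30 * u) = 1 - 32 * u := by push_cast; ring
  rw [h3] at h1
  have h4 : 0 ≤ (1 - 32 * u) * la A u ^ 2 := mul_nonneg (by linarith) (sq_nonneg _)
  unfold En
  nlinarith

/-- in every long window of small scales there is a scale with large variance -/
lemma exists_scale (C1 δ : ℝ) (hC1 : 0 ≤ C1) (hδ : 0 < δ) :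
    ∃ us : ℝ, 0 < us ∧ us ≤ 1 ∧ ∃ L : ℝ, ∀ A : Finset ℕ,
      (∀ v, 0 < v → v ≤ 1 → v * En A v ≤ C1) →
      ∀ u0 u1 : ℝ, 0 < u0 → u0 ≤ u1 → u1 ≤ us → L ≤ Real.log u1 - Real.log u0 →
        ∃ u ∈ Set.Icc u0 u1, (3 / 10 ≤ mu A u →
          (2041 / 2) ^ 2 * mu A u + 1913741 / 2 * (mu A u ^ 2 - u * En A u) < 2 * δ) := by
  obtain ⟨C, hC, h⟩ := key_ineq
  set θ : ℝ := δ / (4 * ((2041 / 2) ^ 2 * C1 + 1)) with hθ
  have hθ0 : 0 < θ := by positivity
  obtain ⟨K, hK⟩ := exists_nat_gt (8 * C * C1 / (θ * δ))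
  have hK0 : (0 : ℝ) < K := lt_of_le_of_lt (by positivity) hK
  have hK1 : 0 < K := by exact_mod_cast hK0
  set Z : ℝ := C * K * (2 * C1) + 1913741 / 2 * (2 * K + 30) * (C1 ^ 2 + (C * (2 * C1)) ^ 2)
    with hZ
  have hZ0 : 0 ≤ Z := by positivity
  refine ⟨min 1 (δ / (2 * (Z + 1))), lt_min one_pos (by positivity), min_le_left _ _,
    (2 * (C * (2 * C1)) + 1) / δ, fun A hA u0 u1 h0 h01 h1 hL => ?_⟩
  by_contra hcon
  push Not at hcon
  have hE : ∀ u, 0 < u → u ≤ 1 → u * En A (u / 2) ≤ 2 * C1 := by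
    intro u hu hu1
    have := hA (u / 2) (by linarith) (by linarith)
    linarith
  have hu1 : u1 ≤ 1 := h1.trans (min_le_left _ _)
  have hu2 : u1 ≤ δ / (2 * (Z + 1)) := h1.trans (min_le_right _ _)
  have hb : ∀ u ∈ Set.Icc u0 u1, δ ≤ u * GGd K A u := by
    intro u hu
    have hu0 : 0 < u := by linarith [hu.1]
    have hu' : u ≤ 1 := by linarith [hu.2]
    obtain ⟨-, a2, a3⟩ := h K hK1 θ hθ0 A u hu0 hu'
    obtain ⟨b1, b2⟩ := hcon u hu
    have a4 := a3 b1
    have e0 := hE u hu0 hu'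
    have e1 : mu A u ≤ C1 := (mu_le A hu0.le).trans (hA u hu0 hu')
    have e2 : 0 ≤ mu A u := mu_nonneg A hu0.le
    have e3 : |la A u| ≤ C * (2 * C1) := a2.trans (mul_le_mul_of_nonneg_left e0 hC)
    have e4 : la A u ^ 2 ≤ (C * (2 * C1)) ^ 2 := by
      rw [← sq_abs]; exact pow_le_pow_left₀ (abs_nonneg _) e3 2
    have e5 : mu A u ^ 2 ≤ C1 ^ 2 := pow_le_pow_left₀ e2 e1 2
    have f1 : θ * (2041 / 2) ^ 2 * mu A u ≤ δ / 4 := by
      have g1 : θ * (4 * ((2041 / 2) ^ 2 * C1 + 1)) = δ := by rw [hθ]; field_simp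
      have g2 : θ * (2041 / 2) ^ 2 * mu A u ≤ θ * (2041 / 2) ^ 2 * C1 :=
        mul_le_mul_of_nonneg_left e1 (by positivity)
      nlinarith
    have hE0 : 0 ≤ u * En A (u / 2) := mul_nonneg hu0.le (En_nonneg _ _)
    have f2 : C * (1 / (θ * K)) * (u * En A (u / 2)) ≤ δ / 4 := by
      have g1 : C * (1 / (θ * K)) * (u * En A (u / 2)) ≤ C * (1 / (θ * K)) * (2 * C1) :=
        mul_le_mul_of_nonneg_left e0 (by positivity)
      refine g1.trans ?_
      rw [div_lt_iff₀ (by positivity)] at hK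
      have g2 : C * (1 / (θ * K)) * (2 * C1) = 2 * C * C1 / (θ * K) := by ring
      rw [g2, div_le_iff₀ (by positivity)]
      nlinarith
    have f3 : C * (u * K) * (u * En A (u / 2)) +
        1913741 / 2 * (2 * (u * K) + 30 * u) * (mu A u ^ 2 + la A u ^ 2) ≤ δ / 2 := by
      have g1 : C * (u * K) * (u * En A (u / 2)) ≤ C * (u * K) * (2 * C1) :=
        mul_le_mul_of_nonneg_left e0 (by positivity)
      have g2 : 1913741 / 2 * (2 * (u * K) + 30 * u) * (mu A u ^ 2 + la A u ^ 2) ≤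
          1913741 / 2 * (2 * (u * K) + 30 * u) * (C1 ^ 2 + (C * (2 * C1)) ^ 2) :=
        mul_le_mul_of_nonneg_left (add_le_add e5 e4) (by positivity)
      have g3 : C * (u * K) * (2 * C1) +
          1913741 / 2 * (2 * (u * K) + 30 * u) * (C1 ^ 2 + (C * (2 * C1)) ^ 2) = u * Z := by
        rw [hZ]; ring
      have g4 : u ≤ δ / (2 * (Z + 1)) := hu.2.trans hu2
      rw [le_div_iff₀ (by positivity)] at g4
      nlinarith
    have f4 : C * (1 / (θ * K) + u * K) * (u * En A (u / 2)) =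
        C * (1 / (θ * K)) * (u * En A (u / 2)) + C * (u * K) * (u * En A (u / 2)) := by ring
    linarith
  have hg := log_growth (GG K A) (GGd K A) δ u0 u1 h0 h01 (GG_deriv K A) hb
  have hu10 : 0 < u1 := by linarith
  have p1 := (h K hK1 θ hθ0 A u1 hu10 hu1).1.trans
    (mul_le_mul_of_nonneg_left (hE u1 hu10 hu1) hC)
  have p0 := (h K hK1 θ hθ0 A u0 h0 (by linarith)).1.trans
    (mul_le_mul_of_nonneg_left (hE u0 h0 (by linarith)) hC)
  rw [div_le_iff₀ hδ] at hL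
  have := (abs_le.1 p1).2
  have := (abs_le.1 p0).1
  nlinarith

end Pool.Agent.P.MP_d5a1e1_nt
end

-- part Pool.Agent.P.MP_d5a1e1_nt.MeanSq
section

/-! Mean square lower bound for the ordered representation function of order two. -/

namespace Pool.Agent.P.MP_d5a1e1_nt

open Finset

/-- ordered representation count for a finite set -/
def rf (B : Finset ℕ) (n : ℕ) : ℕ := ((B ×ˢ B).filter (fun p => p.1 + p.2 = n)).card

/-- ordered representation count -/
noncomputable def rr (A : Set ℕ) (n : ℕ) : ℕ :=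
  Set.ncard {p : ℕ × ℕ | p.1 ∈ A ∧ p.2 ∈ A ∧ p.1 + p.2 = n}

lemma fib_wt (B : Finset ℕ) (u : ℝ) (n : ℕ) :
    fib (B ×ˢ B) sm (wt u) (n : ℤ) = rf B n * Real.exp (-(u * (n / 2))) := by
  unfold fib rf
  rw [card_filter]
  push_cast
  rw [sum_mul]
  refine sum_congr rfl fun p _ => ?_
  by_cases h : p.1 + p.2 = n
  · have h1 : sm p - n = 0 := by simp only [sm]; omega
    have h2 : ((p.1 : ℝ) + p.2) = n := by exact_mod_cast h
    rw [h1, dl_zero, if_pos h, wt, h2]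
  · have h1 : sm p - n ≠ 0 := by simp only [sm]; omega
    rw [dl_ne h1, if_neg h]; simp

lemma En_eq (B : Finset ℕ) (u : ℝ) (N : ℕ) (hN : ∀ a ∈ B, 2 * a < N) :
    En B u = ∑ n ∈ range N, (rf B n : ℝ) ^ 2 * Real.exp (-(u * n)) := by
  classical
  unfold En
  rw [form_dl _ _ _ _ ((range N).image (fun n : ℕ => (n : ℤ))) (fun p hp => by
    refine mem_image.2 ⟨p.1 + p.2, mem_range.2 ?_, by simp [sm]⟩
    have h1 := hN _ (mem_product.1 hp).1
    have h2 := hN _ (mem_product.1 hp).2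
    omega), sum_image (fun a _ b _ h => by simpa using h)]
  refine sum_congr rfl fun n _ => ?_
  rw [fib_wt]
  have : Real.exp (-(u * n)) = Real.exp (-(u * (n / 2))) * Real.exp (-(u * (n / 2))) := by
    rw [← Real.exp_add]; congr 1; ring
  rw [this]; ring

lemma mu_eq (B : Finset ℕ) (u : ℝ) (N : ℕ) (hN : ∀ a ∈ B, 2 * a < N) :
    mu B u = u * ∑ n ∈ range N, (rf B n : ℝ) * Real.exp (-(u * n)) := by
  unfold mu Psi
  congr 1
  rw [← sum_product']
  rw [← sum_fiberwise_of_maps_to (s := B ×ˢ B) (t := range N) (g := fun p => p.1 + p.2)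
    (fun p hp => by
      have h1 := hN _ (mem_product.1 hp).1
      have h2 := hN _ (mem_product.1 hp).2
      exact mem_range.2 (by omega))]
  refine sum_congr rfl fun n _ => ?_
  unfold rf
  rw [← nsmul_eq_mul, ← sum_const]
  refine sum_congr rfl fun p hp => ?_
  have h : ((p.1 : ℝ) + p.2) = n := by exact_mod_cast (mem_filter.1 hp).2
  rw [h, one_mul]

lemma rr_finite (A : Set ℕ) (n : ℕ) :
    {p : ℕ × ℕ | p.1 ∈ A ∧ p.2 ∈ A ∧ p.1 + p.2 = n}.Finite :=
  (antidiagonal n).finite_toSet.subset fun p hp => by simpa using hp.2.2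

open Classical in
/-- truncation of a set -/
noncomputable def tr (A : Set ℕ) (M : ℕ) : Finset ℕ := (range M).filter (· ∈ A)

lemma mem_tr {A : Set ℕ} {M a : ℕ} : a ∈ tr A M ↔ a < M ∧ a ∈ A := by simp [tr]

lemma rf_le (A : Set ℕ) (M n : ℕ) : rf (tr A M) n ≤ rr A n := by
  unfold rf rr
  rw [← Set.ncard_coe_finset]
  refine Set.ncard_le_ncard (fun p hp => ?_) (rr_finite A n)
  simp only [coe_filter, mem_product, mem_tr, Set.mem_ofPred_eq] at hp
  exact ⟨hp.1.1.2, hp.1.2.2, hp.2⟩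

lemma rf_eq (A : Set ℕ) (M n : ℕ) (h : n < M) : rf (tr A M) n = rr A n := by
  unfold rf rr
  rw [← Set.ncard_coe_finset]
  congr 1
  ext p
  simp only [coe_filter, mem_product, mem_tr, Set.mem_ofPred_eq]
  constructor
  · intro hp; exact ⟨hp.1.1.2, hp.1.2.2, hp.2⟩
  · intro hp; exact ⟨⟨⟨by omega, hp.1⟩, ⟨by omega, hp.2.1⟩⟩, hp.2.2⟩

lemma abel_aux (d w : ℕ → ℝ) (C : ℝ) (hd : ∀ N, ∑ n ∈ range N, d n ≤ C)
    (hw : ∀ n, w (n + 1) ≤ w n) (N : ℕ) :
    ∑ n ∈ range N, d n * w n ≤ C * (w 0 - w N) + (∑ n ∈ range N, d n) * w N := by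
  induction N with
  | zero => simp
  | succ N ih =>
    rw [sum_range_succ]
    have h1 := hd (N + 1)
    have h2 := hw N
    rw [sum_range_succ] at h1 ⊢
    nlinarith [mul_nonneg (sub_nonneg.2 h1) (sub_nonneg.2 h2)]

lemma abel_exp (f : ℕ → ℝ) (γ C : ℝ) (hγ : 0 ≤ γ) (hf : ∀ N : ℕ, ∑ n ∈ range N, f n ≤ γ * N + C)
    {u : ℝ} (hu : 0 < u) (N : ℕ) :
    u * ∑ n ∈ range N, f n * Real.exp (-(u * n)) ≤ γ * (1 + u) + C * u := by
  have hd : ∀ N : ℕ, ∑ n ∈ range N, (f n - γ) ≤ C := by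
    intro N
    rw [sum_sub_distrib, sum_const, card_range, nsmul_eq_mul]
    linarith [hf N]
  have h := abel_aux (fun n => f n - γ) (fun n => Real.exp (-(u * n))) C hd (fun n => by
    apply Real.exp_le_exp.2; push_cast; nlinarith) N
  have h1 := hd N
  have h2 := Real.exp_pos (-(u * N))
  have h3 : ∑ n ∈ range N, (f n - γ) * Real.exp (-(u * n)) =
      ∑ n ∈ range N, f n * Real.exp (-(u * n)) - γ * ∑ n ∈ range N, Real.exp (-(u * n)) := by
    rw [mul_sum, ← sum_sub_distrib]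
    exact sum_congr rfl fun n _ => by ring
  have h4 := geo_sum_le hu N
  simp only [Nat.cast_zero, mul_zero, neg_zero, Real.exp_zero] at h
  rw [h3] at h
  have h5 : ∑ n ∈ range N, f n * Real.exp (-(u * n)) ≤
      C + γ * ∑ n ∈ range N, Real.exp (-(u * n)) := by
    nlinarith [mul_le_mul_of_nonneg_right h1 h2.le]
  have h6 := mul_le_mul_of_nonneg_left h5 hu.le
  have h7 := mul_le_mul_of_nonneg_left h4 hγ
  nlinarith

/-- mean square lower bound -/
theorem mean_square (A : Set ℕ) (c γ C : ℝ) (hc : 3 / 2 ≤ c)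
    (hγ : γ < 4165681 / 3827482 * c - (4165681 / 3827482) ^ 2 / 4)
    (h : ∀ N : ℕ, ∑ n ∈ range N, ((rr A n : ℝ) - c) ^ 2 ≤ γ * N + C) : False := by
  have hC : 0 ≤ C := by simpa using h 0
  have hγ0 : 0 ≤ γ := by
    by_contra hneg
    push Not at hneg
    obtain ⟨N, hN⟩ := exists_nat_gt (C / (-γ))
    rw [div_lt_iff₀ (by linarith)] at hN
    have h1 := h N
    have h2 : 0 ≤ ∑ n ∈ range N, ((rr A n : ℝ) - c) ^ 2 := sum_nonneg fun _ _ => sq_nonneg _
    nlinarith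
  -- square means of r are bounded
  have hsq : ∀ N : ℕ, ∑ n ∈ range N, (rr A n : ℝ) ^ 2 ≤ (2 * γ + 2 * c ^ 2) * N + 2 * C := by
    intro N
    have h1 : ∑ n ∈ range N, (rr A n : ℝ) ^ 2 ≤
        ∑ n ∈ range N, (2 * ((rr A n : ℝ) - c) ^ 2 + 2 * c ^ 2) :=
      sum_le_sum fun n _ => by nlinarith [sq_nonneg ((rr A n : ℝ) - 2 * c)]
    rw [sum_add_distrib, ← mul_sum, sum_const, card_range, nsmul_eq_mul] at h1
    nlinarith [h N]
  set C1 : ℝ := (2 * γ + 2 * c ^ 2) * 2 + 2 * C with hC1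
  have hC10 : 0 ≤ C1 := by positivity
  have hab : ∀ v : ℝ, 0 < v → v ≤ 1 → ∀ N : ℕ,
      v * ∑ n ∈ range N, (rr A n : ℝ) ^ 2 * Real.exp (-(v * n)) ≤ C1 := by
    intro v hv hv1 N
    have := abel_exp (fun n => (rr A n : ℝ) ^ 2) _ _ (by positivity) hsq hv N
    have h2 : 0 ≤ 2 * γ + 2 * c ^ 2 := by positivity
    nlinarith
  have hN : ∀ M, ∀ a ∈ tr A M, 2 * a < M + M := fun M a ha => by
    have := (mem_tr.1 ha).1; omega
  have hrle : ∀ M n, (rf (tr A M) n : ℝ) ^ 2 ≤ (rr A n : ℝ) ^ 2 := fun M n =>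
    pow_le_pow_left₀ (Nat.cast_nonneg _) (by exact_mod_cast rf_le A M n) 2
  have hEn : ∀ M, ∀ v : ℝ, 0 < v → v ≤ 1 → v * En (tr A M) v ≤ C1 := by
    intro M v hv hv1
    rw [En_eq _ _ _ (hN M)]
    refine le_trans (mul_le_mul_of_nonneg_left (sum_le_sum fun n _ => ?_) hv.le)
      (hab v hv hv1 (M + M))
    exact mul_le_mul_of_nonneg_right (hrle M n) (Real.exp_pos _).le
  set η : ℝ := 4165681 / 3827482 * c - (4165681 / 3827482) ^ 2 / 4 - γ with hη
  have hη0 : 0 < η := by linarith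
  obtain ⟨us, hus0, hus1, L, hL⟩ := exists_scale C1 (η / 8) hC10 (by positivity)
  set Z : ℝ := γ + C + 32 * C1 ^ 2 with hZ
  have hZ0 : 0 ≤ Z := by positivity
  set u1 : ℝ := min us (η / (4 * (Z + 1))) with hu1
  have hu10 : 0 < u1 := lt_min hus0 (by positivity)
  set u0 : ℝ := u1 * Real.exp (-|L|) with hu0
  have hu00 : 0 < u0 := by positivity
  have hu01 : u0 ≤ u1 := by
    have : Real.exp (-|L|) ≤ 1 := Real.exp_le_one_iff.2 (by linarith [abs_nonneg L])
    nlinarith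
  have hlog : L ≤ Real.log u1 - Real.log u0 := by
    rw [hu0, Real.log_mul hu10.ne' (Real.exp_pos _).ne', Real.log_exp]
    linarith [le_abs_self L]
  obtain ⟨M, hM⟩ := exists_nat_gt (8 * (2 * C1 + c ^ 2) / (η * u0))
  obtain ⟨u, ⟨hua, hub⟩, hu⟩ := hL (tr A M) (hEn M) u0 u1 hu00 hu01 (min_le_left _ _) hlog
  have hu' : 0 < u := by linarith
  have hu1' : u ≤ 1 := hub.trans ((min_le_left _ _).trans hus1)
  have huZ : u * Z ≤ η / 4 := by
    have : u ≤ η / (4 * (Z + 1)) := hub.trans (min_le_right _ _)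
    rw [le_div_iff₀ (by positivity)] at this
    nlinarith
  -- the tail factor is small
  have hM0 : (0 : ℝ) < M := lt_of_le_of_lt (by positivity) hM
  set τ : ℝ := Real.exp (-(u / 2 * M)) with hτ
  have hτ0 : 0 < τ := Real.exp_pos _
  have hτ1 : τ * (u / 2 * M) ≤ 1 := by
    have a1 := Real.add_one_le_exp (u / 2 * M)
    have a2 : τ * Real.exp (u / 2 * M) = 1 := by rw [hτ, ← Real.exp_add]; simp
    nlinarith
  have hτ2 : τ * (2 * C1 + c ^ 2) ≤ η / 4 := by
    rw [div_lt_iff₀ (by positivity)] at hM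
    have a1 : M * (η * u0) ≤ M * (η * u) :=
      mul_le_mul_of_nonneg_left (mul_le_mul_of_nonneg_left hua hη0.le) hM0.le
    have a2 : 8 * (2 * C1 + c ^ 2) * τ ≤ M * (η * u) * τ :=
      mul_le_mul_of_nonneg_right (by linarith) hτ0.le
    have a3 := mul_le_mul_of_nonneg_left hτ1 hη0.le
    nlinarith
  have hτ3 : Real.exp (-(u * M)) ≤ τ := by
    apply Real.exp_le_exp.2
    have : 0 ≤ u * M := by positivity
    linarith
  -- the basic upper bound
  have hup : u * En (tr A M) u - 2 * c * mu (tr A M) u ≤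
      γ * (1 + u) + C * u - c ^ 2 + τ * (2 * C1 + c ^ 2) := by
    rw [En_eq _ _ _ (hN M), mu_eq _ _ _ (hN M), sum_range_add, sum_range_add]
    have a1 : ∑ n ∈ range M, (rf (tr A M) n : ℝ) ^ 2 * Real.exp (-(u * n)) -
        2 * c * ∑ n ∈ range M, (rf (tr A M) n : ℝ) * Real.exp (-(u * n)) =
        ∑ n ∈ range M, ((rr A n : ℝ) - c) ^ 2 * Real.exp (-(u * n)) -
        c ^ 2 * ∑ n ∈ range M, Real.exp (-(u * n)) := by
      simp only [mul_sum, ← sum_sub_distrib]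
      refine sum_congr rfl fun n hn => ?_
      rw [rf_eq A M n (mem_range.1 hn)]; ring
    have a2 := abel_exp (fun n => ((rr A n : ℝ) - c) ^ 2) γ C hγ0 h hu' M
    have a3 := geo_sum_ge hu' M
    have a4 : 0 ≤ ∑ n ∈ range M, (rf (tr A M) (M + n) : ℝ) * Real.exp (-(u * (M + n : ℕ))) :=
      sum_nonneg fun _ _ => by positivity
    have a5 : ∑ n ∈ range M, (rf (tr A M) (M + n) : ℝ) ^ 2 * Real.exp (-(u * (M + n : ℕ))) ≤
        τ * ∑ n ∈ range M, (rr A (M + n) : ℝ) ^ 2 * Real.exp (-(u / 2 * (M + n : ℕ))) := by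
      rw [mul_sum]
      refine sum_le_sum fun n _ => ?_
      have b1 : Real.exp (-(u * (M + n : ℕ))) ≤ τ * Real.exp (-(u / 2 * (M + n : ℕ))) := by
        rw [hτ, ← Real.exp_add]
        apply Real.exp_le_exp.2
        push_cast
        have : 0 ≤ u * n := by positivity
        linarith
      calc _ ≤ (rr A (M + n) : ℝ) ^ 2 * (τ * Real.exp (-(u / 2 * (M + n : ℕ)))) :=
            mul_le_mul (hrle M _) b1 (Real.exp_pos _).le (sq_nonneg _)
        _ = _ := by ring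
    have a6 := hab (u / 2) (by linarith) (by linarith) (M + M)
    rw [sum_range_add] at a6
    have a7 : 0 ≤ ∑ n ∈ range M, (rr A n : ℝ) ^ 2 * Real.exp (-(u / 2 * n)) :=
      sum_nonneg fun _ _ => by positivity
    have a8 : u * ∑ n ∈ range M, (rr A (M + n) : ℝ) ^ 2 * Real.exp (-(u / 2 * (M + n : ℕ))) ≤
        2 * C1 := by nlinarith
    have a9 := mul_le_mul_of_nonneg_left a5 hu'.le
    have a10 := mul_le_mul_of_nonneg_left a8 hτ0.le
    have a11 := mul_le_mul_of_nonneg_left a3 (sq_nonneg c)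
    have a12 := mul_le_mul_of_nonneg_left hτ3 (sq_nonneg c)
    have a13 : 0 ≤ c * (u * ∑ n ∈ range M,
        (rf (tr A M) (M + n) : ℝ) * Real.exp (-(u * (M + n : ℕ)))) :=
      mul_nonneg (by linarith) (mul_nonneg hu'.le a4)
    have a14 := congrArg (fun t => u * t) a1
    linarith
  have m0 := mu_nonneg (tr A M) hu'.le
  have m1 := (mu_le (tr A M) hu'.le).trans (hEn M u hu' hu1')
  have m2 := mu_sq_le (tr A M) hu' hu1'
  set m := mu (tr A M) u
  set E := u * En (tr A M) u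
  have m3 : m ^ 2 ≤ C1 ^ 2 := pow_le_pow_left₀ m0 m1 2
  have m4 : u * γ + u * C + 32 * u * C1 ^ 2 ≤ η / 4 := by rw [hZ] at huZ; linarith
  have m5 : u * m ^ 2 ≤ u * C1 ^ 2 := mul_le_mul_of_nonneg_left m3 hu'.le
  have m6 : 0 ≤ u * C1 ^ 2 := by positivity
  by_cases hm : 3 / 10 ≤ m
  · have k := hu hm
    nlinarith [sq_nonneg (m - c + 4165681 / 3827482 / 2)]
  · push Not at hm
    have k1 : (c - 3 / 10) ^ 2 ≤ (c - m) ^ 2 := pow_le_pow_left₀ (by linarith) (by linarith) 2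
    nlinarith [sq_nonneg (c - 3 / 2)]

end Pool.Agent.P.MP_d5a1e1_nt
end

-- part Pool.Agent.P.MP_d5a1e1_nt.Eight
section

/-! Four representations with distinct summands infinitely often. -/

namespace Pool.Agent.P.MP_d5a1e1_nt

open Finset

/-- number of representations with increasing summands -/
noncomputable def rlt (A : Set ℕ) (n : ℕ) : ℕ :=
  Set.ncard {p : ℕ × ℕ | p.1 ∈ A ∧ p.2 ∈ A ∧ p.1 < p.2 ∧ p.1 + p.2 = n}

open Classical in
lemma rr_eq (A : Set ℕ) (n : ℕ) :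
    rr A n = 2 * rlt A n + if ∃ a ∈ A, a + a = n then 1 else 0 := by
  set S := (antidiagonal n).filter (fun p : ℕ × ℕ => p.1 ∈ A ∧ p.2 ∈ A) with hS
  have h1 : rr A n = S.card := by
    unfold rr
    rw [← Set.ncard_coe_finset]
    congr 1; ext p; simp [hS]; tauto
  have h2 : rlt A n = (S.filter (fun p => p.1 < p.2)).card := by
    unfold rlt
    rw [← Set.ncard_coe_finset]
    congr 1; ext p; simp [hS]; tauto
  have h3 : (S.filter (fun p => p.2 < p.1)).card = (S.filter (fun p => p.1 < p.2)).card := by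
    refine card_bij (fun p _ => p.swap) ?_ ?_ ?_
    · intro p hp
      simp only [hS, mem_filter, HasAntidiagonal.mem_antidiagonal, Prod.fst_swap, Prod.snd_swap] at hp ⊢
      exact ⟨⟨by omega, hp.1.2.2, hp.1.2.1⟩, hp.2⟩
    · intro p _ q _ h
      exact Prod.swap_injective h
    · intro p hp
      refine ⟨p.swap, ?_, by simp⟩
      simp only [hS, mem_filter, HasAntidiagonal.mem_antidiagonal, Prod.fst_swap, Prod.snd_swap] at hp ⊢
      exact ⟨⟨by omega, hp.1.2.2, hp.1.2.1⟩, hp.2⟩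
  have h4 : (S.filter (fun p => p.1 = p.2)).card = if ∃ a ∈ A, a + a = n then 1 else 0 := by
    split_ifs with h
    · obtain ⟨a, ha, han⟩ := h
      rw [card_eq_one]
      refine ⟨(a, a), ?_⟩
      ext ⟨x, y⟩
      simp only [hS, mem_filter, HasAntidiagonal.mem_antidiagonal, mem_singleton, Prod.mk.injEq]
      constructor
      · intro hp; omega
      · rintro ⟨rfl, rfl⟩; exact ⟨⟨han, ha, ha⟩, rfl⟩
    · rw [card_eq_zero, eq_empty_iff_forall_notMem]
      rintro ⟨x, y⟩ hp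
      simp only [hS, mem_filter, HasAntidiagonal.mem_antidiagonal] at hp
      exact h ⟨x, hp.1.2.1, by omega⟩
  have h5 : S.card = (S.filter (fun p => p.1 < p.2)).card + (S.filter (fun p => p.2 < p.1)).card +
      (S.filter (fun p => p.1 = p.2)).card := by
    simp only [card_filter, ← sum_add_distrib]
    rw [card_eq_sum_ones]
    refine sum_congr rfl fun p _ => ?_
    rcases lt_trichotomy p.1 p.2 with h | h | h
    · rw [if_pos h, if_neg (by omega), if_neg (by omega)]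
    · rw [if_neg (by omega), if_neg (by omega), if_pos h]
    · rw [if_neg (by omega), if_pos h, if_neg (by omega)]
  rw [h1, h2, h5, h3, h4]; ring

lemma rr_pos (A : Set ℕ) (n : ℕ) (h : ∃ a ∈ A, ∃ b ∈ A, a + b = n) : 0 < rr A n := by
  obtain ⟨a, ha, b, hb, hab⟩ := h
  exact (Set.ncard_pos (rr_finite A n)).2 ⟨(a, b), ha, hb, hab⟩

lemma card_tr_sq (A : Set ℕ) (R : ℕ) (hR : ∀ n, rr A n ≤ R) (N : ℕ) :
    (tr A N).card ^ 2 ≤ 2 * N * R := by
  have h := card_eq_sum_card_fiberwise (s := tr A N ×ˢ tr A N) (t := range (2 * N))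
    (f := fun p => p.1 + p.2) (fun p hp => by
      have hp' := mem_product.1 (mem_coe.1 hp)
      have h1 := (mem_tr.1 hp'.1).1
      have h2 := (mem_tr.1 hp'.2).1
      simp only [coe_range, Set.mem_Iio]
      omega)
  rw [card_product, ← sq] at h
  rw [h]
  calc _ ≤ ∑ n ∈ range (2 * N), R := sum_le_sum fun n _ => (rf_le A N n).trans (hR n)
    _ = _ := by simp

theorem four_reps (A : Set ℕ)
    (hE : ∃ N₀ : ℕ, ∀ N : ℕ, N₀ ≤ N →
      210 * Set.ncard {n : ℕ | n < N ∧ ¬ ∃ a ∈ A, ∃ b ∈ A, a + b = n} ≤ N) (N₁ : ℕ) :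
    ∃ n : ℕ, N₁ ≤ n ∧
      4 ≤ Set.ncard {p : ℕ × ℕ | p.1 ∈ A ∧ p.2 ∈ A ∧ p.1 < p.2 ∧ p.1 + p.2 = n} := by
  classical
  by_contra hcon
  push Not at hcon
  have hlt : ∀ n, N₁ ≤ n → rlt A n ≤ 3 := fun n hn => Nat.lt_succ_iff.1 (hcon n hn)
  obtain ⟨N₀, hN₀⟩ := hE
  set R := 7 + (range N₁).sup (rr A) with hR
  have hRb : ∀ n, rr A n ≤ R := by
    intro n
    by_cases hn : N₁ ≤ n
    · have := hlt n hn
      rw [rr_eq]; split_ifs <;> omega
    · have : rr A n ≤ (range N₁).sup (rr A) := le_sup (f := rr A) (mem_range.2 (by omega))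
      omega
  have hR7 : (7 : ℝ) ≤ R := by exact_mod_cast (by omega : 7 ≤ R)
  have hpt : ∀ n, ((rr A n : ℝ) - 4) ^ 2 ≤ 4 +
      12 * (if ¬ ∃ a ∈ A, ∃ b ∈ A, a + b = n then (1 : ℝ) else 0) +
      12 * (if ∃ a ∈ A, a + a = n then (1 : ℝ) else 0) +
      (R : ℝ) ^ 2 * (if n < N₁ then (1 : ℝ) else 0) := by
    intro n
    have i1 : (0 : ℝ) ≤ if ¬ ∃ a ∈ A, ∃ b ∈ A, a + b = n then (1 : ℝ) else 0 := by
      split_ifs <;> norm_num
    have i2 : (0 : ℝ) ≤ if ∃ a ∈ A, a + a = n then (1 : ℝ) else 0 := by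
      split_ifs <;> norm_num
    by_cases hn : n < N₁
    · rw [if_pos hn]
      have a1 : (rr A n : ℝ) ≤ R := by exact_mod_cast hRb n
      have a2 : (0 : ℝ) ≤ rr A n := Nat.cast_nonneg _
      nlinarith
    · rw [if_neg hn]
      have a1 := hlt n (by omega)
      have a2 := rr_eq A n
      by_cases h2 : ∃ a ∈ A, a + a = n
      · rw [if_pos h2] at a2 ⊢
        have a3 : (rr A n : ℝ) ≤ 7 := by exact_mod_cast (by omega : rr A n ≤ 7)
        have a4 : (0 : ℝ) ≤ rr A n := Nat.cast_nonneg _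
        nlinarith
      · rw [if_neg h2] at a2 ⊢
        by_cases h3 : ∃ a ∈ A, ∃ b ∈ A, a + b = n
        · have a3 := rr_pos A n h3
          have a4 : (rr A n : ℝ) ≤ 6 := by exact_mod_cast (by omega : rr A n ≤ 6)
          have a5 : (2 : ℝ) ≤ rr A n := by exact_mod_cast (by omega : 2 ≤ rr A n)
          nlinarith
        · rw [if_pos h3]
          have a4 : (rr A n : ℝ) ≤ 6 := by exact_mod_cast (by omega : rr A n ≤ 6)
          have a5 : (0 : ℝ) ≤ rr A n := Nat.cast_nonneg _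
          nlinarith
  have hR0 : (0 : ℝ) < R := by linarith
  refine mean_square A 4 (4 + 12 / 210 + 1 / 10000)
    (12 * N₀ + (R : ℝ) ^ 2 * N₁ + 720000 * R) (by norm_num) (by norm_num) fun N => ?_
  have s1 : ∑ n ∈ range N, (if ¬ ∃ a ∈ A, ∃ b ∈ A, a + b = n then (1 : ℝ) else 0) ≤
      N / 210 + N₀ := by
    rw [sum_boole]
    have e : ((range N).filter (fun n => ¬ ∃ a ∈ A, ∃ b ∈ A, a + b = n)).card =
        Set.ncard {n : ℕ | n < N ∧ ¬ ∃ a ∈ A, ∃ b ∈ A, a + b = n} := by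
      rw [← Set.ncard_coe_finset]
      congr 1; ext n; simp
    by_cases hN : N₀ ≤ N
    · have := hN₀ N hN
      rw [← e] at this
      have h2 : (210 : ℝ) *
          ((range N).filter (fun n => ¬ ∃ a ∈ A, ∃ b ∈ A, a + b = n)).card ≤ N := by
        exact_mod_cast this
      have : (0 : ℝ) ≤ N₀ := Nat.cast_nonneg _
      linarith
    · have h1 : ((range N).filter (fun n => ¬ ∃ a ∈ A, ∃ b ∈ A, a + b = n)).card ≤ N₀ :=
        (card_filter_le _ _).trans (by rw [card_range]; omega)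
      have h2 : (((range N).filter (fun n => ¬ ∃ a ∈ A, ∃ b ∈ A, a + b = n)).card : ℝ) ≤ N₀ := by
        exact_mod_cast h1
      have : (0 : ℝ) ≤ N / 210 := by positivity
      linarith
  have s2 : ∑ n ∈ range N, (if ∃ a ∈ A, a + a = n then (1 : ℝ) else 0) ≤ (tr A N).card := by
    rw [sum_boole]
    have : ((range N).filter (fun n => ∃ a ∈ A, a + a = n)).card ≤ (tr A N).card := by
      refine le_trans (card_le_card ?_) (card_image_le (s := tr A N) (f := fun a => a + a))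
      intro n hn
      obtain ⟨h1, a, ha, han⟩ := mem_filter.1 hn
      have := mem_range.1 h1
      exact mem_image.2 ⟨a, mem_tr.2 ⟨by omega, ha⟩, han⟩
    exact_mod_cast this
  have s3 : ∑ n ∈ range N, (if n < N₁ then (1 : ℝ) else 0) ≤ N₁ := by
    rw [sum_boole]
    have : ((range N).filter (fun n => n < N₁)).card ≤ N₁ := by
      refine le_trans (card_le_card (t := range N₁) ?_) (by simp)
      intro n hn
      exact mem_range.2 (mem_filter.1 hn).2
    exact_mod_cast this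
  have s4 : ((tr A N).card : ℝ) ^ 2 ≤ 2 * N * R := by exact_mod_cast card_tr_sq A R hRb N
  have s5 : 12 * ((tr A N).card : ℝ) ≤ 1 / 10000 * N + 720000 * R := by
    have h1 : 0 ≤ (((tr A N).card : ℝ) - 120000 * R) ^ 2 := sq_nonneg _
    have h2 : R * (12 * ((tr A N).card : ℝ)) ≤ R * (1 / 10000 * N + 720000 * R) := by nlinarith
    exact le_of_mul_le_mul_left h2 hR0
  have s6 := sum_le_sum (s := range N) fun n _ => hpt n
  rw [sum_add_distrib, sum_add_distrib, sum_add_distrib, ← mul_sum, ← mul_sum, ← mul_sum,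
    sum_const, card_range, nsmul_eq_mul] at s6
  have s7 := mul_le_mul_of_nonneg_left s3 (sq_nonneg (R : ℝ))
  linarith

end Pool.Agent.P.MP_d5a1e1_nt
end
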