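import Mathlib

-- part Pool.Agent.P.MP_d5a1e1_nt.TBProb
section

/-! Random subsets of a finite set: basic rules, tail bounds for graphs, compactness. -/

namespace Pool.Agent.P.MP_d5a1e1_nt.TB

open Finset

variable {α : Type*} [DecidableEq α]

/-- Probability that the random subset of `S` equals `A`. -/
def wt (S : Finset α) (π : α → ℝ) (A : Finset α) : ℝ := ∏ a ∈ S, if a ∈ A then π a else 1 - π a

open Classical in
/-- Probability of an event; every `a ∈ S` is chosen independently with probability `π a`. -/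
noncomputable def pr (S : Finset α) (π : α → ℝ) (E : Finset α → Prop) : ℝ :=
  ∑ A ∈ S.powerset, if E A then wt S π A else 0

variable {S : Finset α} {π : α → ℝ}

theorem wt_nonneg (h0 : ∀ a, 0 ≤ π a) (h1 : ∀ a, π a ≤ 1) (A : Finset α) : 0 ≤ wt S π A :=
  prod_nonneg fun a _ => by
    split_ifs
    · exact h0 a
    · linarith [h1 a]

theorem pr_nonneg (h0 : ∀ a, 0 ≤ π a) (h1 : ∀ a, π a ≤ 1) (E : Finset α → Prop) :
    0 ≤ pr S π E :=
  sum_nonneg fun A _ => by
    split_ifs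
    · exact wt_nonneg h0 h1 A
    · exact le_rfl

theorem pr_congr {E E' : Finset α → Prop} (h : ∀ A ⊆ S, E A ↔ E' A) : pr S π E = pr S π E' :=
  sum_congr rfl fun A hA => by
    have := h A (mem_powerset.1 hA)
    by_cases hE : E A
    · rw [if_pos hE, if_pos (this.1 hE)]
    · rw [if_neg hE, if_neg fun h' => hE (this.2 h')]

theorem pr_mono (h0 : ∀ a, 0 ≤ π a) (h1 : ∀ a, π a ≤ 1) {E E' : Finset α → Prop}
    (h : ∀ A ⊆ S, E A → E' A) : pr S π E ≤ pr S π E' :=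
  sum_le_sum fun A hA => by
    split_ifs with ha hb
    · exact le_rfl
    · exact absurd (h A (mem_powerset.1 hA) ha) hb
    · exact wt_nonneg h0 h1 A
    · exact le_rfl

theorem pr_eq_zero {E : Finset α → Prop} (h : ∀ A ⊆ S, ¬E A) : pr S π E = 0 :=
  sum_eq_zero fun A hA => if_neg (h A (mem_powerset.1 hA))

theorem pr_insert {a : α} (ha : a ∉ S) (E : Finset α → Prop) :
    pr (insert a S) π E = π a * pr S π (fun A => E (insert a A)) + (1 - π a) * pr S π E := by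
  unfold pr
  rw [sum_powerset_insert ha, add_comm, mul_sum, mul_sum]
  congr 1
  · refine sum_congr rfl fun A _ => ?_
    split_ifs
    · unfold wt
      rw [prod_insert ha, if_pos (mem_insert_self _ _)]
      congr 1
      refine prod_congr rfl fun b hb => ?_
      have : b ≠ a := fun h => ha (h ▸ hb)
      simp [this]
    · simp
  · refine sum_congr rfl fun A hA => ?_
    split_ifs
    · unfold wt
      rw [prod_insert ha, if_neg fun h => ha (mem_powerset.1 hA h)]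
    · simp

theorem pr_true (S : Finset α) (π : α → ℝ) : pr S π (fun _ => True) = 1 := by
  induction S using Finset.induction_on with
  | empty => simp [pr, wt]
  | insert a S ha ih => rw [pr_insert ha, ih]; ring

theorem pr_le_one (h0 : ∀ a, 0 ≤ π a) (h1 : ∀ a, π a ≤ 1) (E : Finset α → Prop) :
    pr S π E ≤ 1 :=
  (pr_mono h0 h1 fun _ _ _ => trivial).trans (pr_true S π).le

theorem exists_not_of_pr_lt_one {E : Finset α → Prop} (h : pr S π E < 1) : ∃ A ⊆ S, ¬E A := by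
  by_contra hc
  push Not at hc
  rw [pr_congr (E' := fun _ => True) fun A hA => iff_true_intro (hc A hA), pr_true] at h
  exact lt_irrefl _ h

theorem pr_split (E Q : Finset α → Prop) :
    pr S π E = pr S π (fun A => Q A ∧ E A) + pr S π (fun A => ¬Q A ∧ E A) := by
  unfold pr
  rw [← sum_add_distrib]
  refine sum_congr rfl fun A _ => ?_
  by_cases hE : E A <;> by_cases hQ : Q A <;> simp [hE, hQ]

theorem pr_or_le (h0 : ∀ a, 0 ≤ π a) (h1 : ∀ a, π a ≤ 1) (E E' : Finset α → Prop) :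
    pr S π (fun A => E A ∨ E' A) ≤ pr S π E + pr S π E' := by
  rw [pr_split _ E]
  exact add_le_add (pr_mono h0 h1 fun A _ h => h.1)
    (pr_mono h0 h1 fun A _ h => h.2.resolve_left h.1)

/-- Union bound. -/
theorem pr_exists_le (h0 : ∀ a, 0 ≤ π a) (h1 : ∀ a, π a ≤ 1) {κ : Type*} (I : Finset κ)
    (E : κ → Finset α → Prop) :
    pr S π (fun A => ∃ i ∈ I, E i A) ≤ ∑ i ∈ I, pr S π (E i) := by
  classical
  induction I using Finset.induction_on with
  | empty => rw [pr_eq_zero fun A _ => by simp]; simp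
  | insert i I hi ih =>
    rw [sum_insert hi]
    refine le_trans (pr_mono h0 h1 (E' := fun A => E i A ∨ ∃ j ∈ I, E j A) ?_)
      ((pr_or_le h0 h1 _ _).trans (add_le_add le_rfl ih))
    rintro A - ⟨j, hj, hA⟩
    rcases mem_insert.1 hj with rfl | hj
    · exact Or.inl hA
    · exact Or.inr ⟨j, hj, hA⟩

theorem pr_mem_and {a : α} (ha : a ∈ S) {Q : Finset α → Prop}
    (hQ : ∀ A, Q (insert a A) ↔ Q A) : pr S π (fun A => a ∈ A ∧ Q A) = π a * pr S π Q := by
  rw [← insert_erase ha, pr_insert (notMem_erase a S), pr_insert (notMem_erase a S),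
    pr_eq_zero (E := fun A => a ∈ A ∧ Q A) fun A hA h => notMem_erase a S (hA h.1),
    pr_congr (E := fun A => a ∈ insert a A ∧ Q (insert a A)) (E' := Q) fun A _ => by simp [hQ],
    pr_congr (E := fun A => Q (insert a A)) (E' := Q) fun A _ => hQ A]
  ring

theorem pr_notMem_and {a : α} (ha : a ∈ S) {Q : Finset α → Prop}
    (hQ : ∀ A, Q (insert a A) ↔ Q A) :
    pr S π (fun A => a ∉ A ∧ Q A) = (1 - π a) * pr S π Q := by
  have h := pr_split (S := S) (π := π) Q fun A => a ∈ A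
  rw [pr_mem_and ha hQ] at h
  linarith

/-- All elements of `Y` are chosen. -/
theorem pr_subset_le (h0 : ∀ a, 0 ≤ π a) (h1 : ∀ a, π a ≤ 1) (Y : Finset α) :
    pr S π (fun A => Y ⊆ A) ≤ ∏ a ∈ Y, π a := by
  induction Y using Finset.induction_on with
  | empty => simpa using pr_le_one h0 h1 _
  | insert a Y ha ih =>
    by_cases hS : a ∈ S
    · rw [prod_insert ha, pr_congr (E' := fun A => a ∈ A ∧ Y ⊆ A) fun A _ => insert_subset_iff,
        pr_mem_and hS fun A => subset_insert_iff_of_notMem ha]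
      exact mul_le_mul_of_nonneg_left ih (h0 a)
    · rw [pr_eq_zero fun A hA h => hS (hA (h (mem_insert_self _ _)))]
      exact prod_nonneg fun b _ => h0 b

/-- No element of `Y` is chosen, together with an event that does not depend on `Y`. -/
theorem pr_avoid_and (Y : Finset α) (hY : Y ⊆ S) {Q : Finset α → Prop}
    (hQ : ∀ b ∈ Y, ∀ A, Q (insert b A) ↔ Q A) :
    pr S π (fun A => (∀ b ∈ Y, b ∉ A) ∧ Q A) = (∏ b ∈ Y, (1 - π b)) * pr S π Q := by
  induction Y using Finset.induction_on with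
  | empty => simp
  | insert a Y ha ih =>
    rw [prod_insert ha, mul_assoc, ← ih (fun b hb => hY (mem_insert_of_mem hb))
      fun b hb => hQ b (mem_insert_of_mem hb), ← pr_notMem_and (hY (mem_insert_self _ _))]
    · exact pr_congr fun A _ => by simp [and_assoc]
    · intro A
      rw [hQ a (mem_insert_self _ _)]
      refine and_congr_left' (forall₂_congr fun b hb => ?_)
      have : b ≠ a := fun h => ha (h ▸ hb)
      simp [this]

/-- An event that depends only on the part in `D`. -/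
theorem pr_restrict {D : Finset α} (hD : D ⊆ S) (E : Finset α → Prop) :
    pr S π (fun A => E (A ∩ D)) = pr D π E := by
  have key : ∀ T : Finset α, Disjoint D T →
      pr (D ∪ T) π (fun A => E (A ∩ D)) = pr D π E := by
    intro T
    induction T using Finset.induction_on with
    | empty =>
      intro _
      rw [union_empty]
      exact pr_congr fun A hA => by rw [inter_eq_left.2 hA]
    | insert a T ha ih =>
      intro h
      rw [disjoint_insert_right] at h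
      rw [union_insert, pr_insert (by simp [ha, h.1]), ih h.2,
        pr_congr (E := fun A => E (insert a A ∩ D)) (E' := fun A => E (A ∩ D))
          fun A _ => by rw [insert_inter_of_notMem h.1], ih h.2]
      ring
  have := key (S \ D) disjoint_sdiff
  rwa [union_sdiff_of_subset hD] at this

omit [DecidableEq α] in
theorem esymm_le {β : Type*} [DecidableEq β] (Y : Finset β) (w : β → ℝ) (hw : ∀ b, 0 ≤ w b)
    (g : ℕ) : (g.factorial : ℝ) * ∑ Z ∈ powersetCard g Y, ∏ b ∈ Z, w b ≤ (∑ b ∈ Y, w b) ^ g := by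
  induction g with
  | zero => simp
  | succ g ih =>
    have h1 : ((g : ℝ) + 1) * ∑ Z ∈ powersetCard (g + 1) Y, ∏ b ∈ Z, w b ≤
        (∑ b ∈ Y, w b) * ∑ Z ∈ powersetCard g Y, ∏ b ∈ Z, w b := by
      have e1 : ((g : ℝ) + 1) * ∑ Z ∈ powersetCard (g + 1) Y, ∏ b ∈ Z, w b =
          ∑ b ∈ Y, ∑ Z ∈ powersetCard (g + 1) Y with b ∈ Z, ∏ c ∈ Z, w c := by
        simp only [sum_filter]
        rw [sum_comm, mul_sum]
        refine sum_congr rfl fun Z hZ => ?_
        obtain ⟨hs, hc⟩ := mem_powersetCard.1 hZ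
        rw [← sum_filter, sum_const, filter_mem_eq_inter, inter_eq_right.2 hs, hc]
        simp
      rw [e1, sum_mul]
      refine sum_le_sum fun b _ => ?_
      have e2 : ∑ Z ∈ powersetCard (g + 1) Y with b ∈ Z, ∏ c ∈ Z, w c =
          w b * ∑ Z ∈ powersetCard (g + 1) Y with b ∈ Z, ∏ c ∈ Z.erase b, w c := by
        rw [mul_sum]
        exact sum_congr rfl fun Z hZ => (mul_prod_erase Z w (mem_filter.1 hZ).2).symm
      rw [e2]
      refine mul_le_mul_of_nonneg_left ?_ (hw b)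
      rw [← sum_image (s := (powersetCard (g + 1) Y).filter (b ∈ ·)) (g := fun Z => Z.erase b)
        (f := fun Z => ∏ c ∈ Z, w c)]
      · refine sum_le_sum_of_subset_of_nonneg ?_ fun Z _ _ => prod_nonneg fun c _ => hw c
        intro Z' hZ'
        obtain ⟨Z, hZ, rfl⟩ := mem_image.1 hZ'
        obtain ⟨hZ1, hZ2⟩ := mem_filter.1 hZ
        obtain ⟨hs, hc⟩ := mem_powersetCard.1 hZ1
        exact mem_powersetCard.2
          ⟨(erase_subset _ _).trans hs, by rw [card_erase_of_mem hZ2, hc]; rfl⟩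
      · intro Z hZ Z' hZ' h
        have h2 := (mem_filter.1 (mem_coe.1 hZ)).2
        have h3 := (mem_filter.1 (mem_coe.1 hZ')).2
        rw [← insert_erase h2, ← insert_erase h3]
        exact congrArg (insert b) h
    have h2 : 0 ≤ ∑ b ∈ Y, w b := sum_nonneg fun b _ => hw b
    have h3 : (0 : ℝ) ≤ g.factorial := Nat.cast_nonneg _
    rw [Nat.factorial_succ, pow_succ]
    push_cast
    nlinarith [mul_le_mul_of_nonneg_left h1 h3, mul_le_mul_of_nonneg_left ih h2]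

omit [DecidableEq α] in
theorem esymm_le' {β : Type*} [DecidableEq β] (Y : Finset β) (w : β → ℝ) (hw : ∀ b, 0 ≤ w b)
    (g : ℕ) : ∑ Z ∈ powersetCard g Y, ∏ b ∈ Z, w b ≤ (∑ b ∈ Y, w b) ^ g := by
  refine le_trans ?_ (esymm_le Y w hw g)
  have h1 : (1 : ℝ) ≤ g.factorial := by exact_mod_cast Nat.factorial_pos g
  exact le_mul_of_one_le_left (sum_nonneg fun Z _ => prod_nonneg fun c _ => hw c) h1

/-- At least `g` elements of `Y` are chosen. -/
theorem pr_many_le (h0 : ∀ a, 0 ≤ π a) (h1 : ∀ a, π a ≤ 1) (Y : Finset α) (g : ℕ) :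
    pr S π (fun A => g ≤ (Y.filter (· ∈ A)).card) ≤ (∑ a ∈ Y, π a) ^ g := by
  refine le_trans (pr_mono h0 h1 (E' := fun A => ∃ Z ∈ powersetCard g Y, Z ⊆ A) ?_)
    ((pr_exists_le h0 h1 _ _).trans
      ((sum_le_sum fun Z _ => pr_subset_le h0 h1 Z).trans (esymm_le' Y π h0 g)))
  intro A _ h
  obtain ⟨Z, hZ, hc⟩ := exists_subset_card_eq h
  exact ⟨Z, mem_powersetCard.2 ⟨hZ.trans (filter_subset _ _), hc⟩,
    fun a ha => (mem_filter.1 (hZ ha)).2⟩

/-- A chosen vertex with `k + 1` chosen out-neighbours. -/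
theorem pr_star_le (h0 : ∀ a, 0 ≤ π a) (h1 : ∀ a, π a ≤ 1) (E : Finset (α × α)) {μ δ : ℝ}
    (hδ : 0 ≤ δ) (hμ : ∑ e ∈ E, π e.1 * π e.2 ≤ μ)
    (hout : ∀ a, ∑ e ∈ E with e.1 = a, π e.2 ≤ δ) (k : ℕ) :
    pr S π (fun A => ∃ a ∈ A, k + 1 ≤ (E.filter fun e => e.1 = a ∧ e.2 ≠ a ∧ e.2 ∈ A).card) ≤
      μ * δ ^ k := by
  let N : α → Finset α := fun a => ((E.filter fun e => e.1 = a).image Prod.snd).erase a
  have hN : ∀ a, ∑ b ∈ N a, π b ≤ ∑ e ∈ E with e.1 = a, π e.2 := fun a =>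
    (sum_le_sum_of_subset_of_nonneg (erase_subset _ _) fun b _ _ => h0 b).trans
      (sum_image_le_of_nonneg fun b _ => h0 b)
  refine le_trans (pr_mono h0 h1 (E' := fun A => ∃ a ∈ E.image Prod.fst,
    ∃ Z ∈ powersetCard (k + 1) (N a), insert a Z ⊆ A) ?_) ((pr_exists_le h0 h1 _ _).trans ?_)
  · rintro A - ⟨a, ha, h⟩
    have hinj : Set.InjOn Prod.snd
        ((E.filter fun e => e.1 = a ∧ e.2 ≠ a ∧ e.2 ∈ A : Finset (α × α)) : Set (α × α)) := by
      intro e he e' he' h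
      exact Prod.ext ((mem_filter.1 (mem_coe.1 he)).2.1.trans
        (mem_filter.1 (mem_coe.1 he')).2.1.symm) h
    obtain ⟨e, he⟩ := card_pos.1 (lt_of_lt_of_le (Nat.succ_pos k) h)
    rw [← card_image_of_injOn hinj] at h
    obtain ⟨Z, hZ, hc⟩ := exists_subset_card_eq h
    refine ⟨a, mem_image.2 ⟨e, (mem_filter.1 he).1, (mem_filter.1 he).2.1⟩, Z,
      mem_powersetCard.2 ⟨fun b hb => ?_, hc⟩, insert_subset ha fun b hb => ?_⟩
    · obtain ⟨e', he', rfl⟩ := mem_image.1 (hZ hb)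
      obtain ⟨h2, h3, h4, -⟩ := mem_filter.1 he'
      exact mem_erase.2 ⟨h4, mem_image.2 ⟨e', mem_filter.2 ⟨h2, h3⟩, rfl⟩⟩
    · obtain ⟨e', he', rfl⟩ := mem_image.1 (hZ hb)
      exact (mem_filter.1 he').2.2.2
  · calc _ ≤ ∑ a ∈ E.image Prod.fst, π a * (∑ e ∈ E with e.1 = a, π e.2) * δ ^ k := by
          refine sum_le_sum fun a _ => (pr_exists_le h0 h1 _ _).trans ?_
          have h2 : ∀ Z ∈ powersetCard (k + 1) (N a),
              pr S π (fun A => insert a Z ⊆ A) ≤ π a * ∏ b ∈ Z, π b := by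
            intro Z hZ
            refine (pr_subset_le h0 h1 _).trans_eq (prod_insert fun h => ?_)
            exact notMem_erase a _ ((mem_powersetCard.1 hZ).1 h)
          refine (sum_le_sum h2).trans ?_
          rw [← mul_sum, mul_assoc]
          refine mul_le_mul_of_nonneg_left ((esymm_le' _ π h0 _).trans ?_) (h0 a)
          have h3 : 0 ≤ ∑ b ∈ N a, π b := sum_nonneg fun b _ => h0 b
          rw [pow_succ']
          exact mul_le_mul (hN a) (pow_le_pow_left₀ h3 ((hN a).trans (hout a)) k)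
            (pow_nonneg h3 k) (h3.trans (hN a))
      _ = (∑ e ∈ E, π e.1 * π e.2) * δ ^ k := by
          rw [← sum_mul]
          congr 1
          rw [← sum_fiberwise_of_maps_to (s := E) (t := E.image Prod.fst) (g := Prod.fst)
            fun e he => mem_image_of_mem _ he]
          refine sum_congr rfl fun a _ => ?_
          rw [mul_sum]
          exact sum_congr rfl fun e he => by rw [(mem_filter.1 he).2]
      _ ≤ _ := mul_le_mul_of_nonneg_right hμ (pow_nonneg hδ k)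

/-- Sets of pairwise disjoint edges that are not loops. -/
def Matching (Z : Finset (α × α)) : Prop :=
  (∀ e ∈ Z, e.1 ≠ e.2) ∧
    ∀ e ∈ Z, ∀ e' ∈ Z, e ≠ e' → Disjoint ({e.1, e.2} : Finset α) {e'.1, e'.2}

/-- A matching of `m` chosen edges. -/
theorem pr_matching_le (h0 : ∀ a, 0 ≤ π a) (h1 : ∀ a, π a ≤ 1) (E : Finset (α × α)) {μ : ℝ}
    (hμ : ∑ e ∈ E, π e.1 * π e.2 ≤ μ) (m : ℕ) :
    pr S π (fun A => ∃ Z ∈ powersetCard m E, Matching Z ∧ ∀ e ∈ Z, e.1 ∈ A ∧ e.2 ∈ A) ≤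
      μ ^ m / m.factorial := by
  have hw : ∀ e : α × α, 0 ≤ π e.1 * π e.2 := fun e => mul_nonneg (h0 _) (h0 _)
  refine (pr_exists_le h0 h1 _ _).trans ?_
  have h2 : ∀ Z ∈ powersetCard m E,
      pr S π (fun A => Matching Z ∧ ∀ e ∈ Z, e.1 ∈ A ∧ e.2 ∈ A) ≤ ∏ e ∈ Z, π e.1 * π e.2 := by
    intro Z _
    by_cases hZ : Matching Z
    · refine (pr_mono h0 h1 (E' := fun A => (Z.biUnion fun e => {e.1, e.2}) ⊆ A) ?_).trans
        ((pr_subset_le h0 h1 _).trans_eq ?_)
      · rintro A - ⟨-, h⟩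
        exact biUnion_subset.2 fun e he =>
          insert_subset (h e he).1 (singleton_subset_iff.2 (h e he).2)
      · rw [prod_biUnion fun e he e' he' h => hZ.2 e he e' he' h]
        exact prod_congr rfl fun e he => prod_pair (hZ.1 e he)
    · rw [pr_eq_zero fun A _ h => hZ h.1]
      exact prod_nonneg fun e _ => hw e
  refine (sum_le_sum h2).trans ?_
  have h3 : (0 : ℝ) < m.factorial := by exact_mod_cast Nat.factorial_pos m
  rw [le_div_iff₀ h3, mul_comm]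
  exact (esymm_le E _ hw m).trans (pow_le_pow_left₀ (sum_nonneg fun e _ => hw e) hμ m)

/-- Without a large matching, star or set of loops a graph has few edges. -/
theorem card_le_of_no_matching (F : Finset (α × α)) (m g : ℕ)
    (hm : ∀ Z ∈ powersetCard m F, ¬Matching Z)
    (hout : ∀ a, (F.filter fun e => e.1 = a ∧ e.2 ≠ a).card ≤ g)
    (hin : ∀ a, (F.filter fun e => e.2 = a ∧ e.1 ≠ a).card ≤ g)
    (hl : (F.filter fun e => e.1 = e.2).card ≤ g) : F.card ≤ 4 * g * m + g := by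
  classical
  obtain ⟨Z, hZ, hmax⟩ := exists_max_image (F.powerset.filter Matching) card
    ⟨∅, mem_filter.2 ⟨empty_mem_powerset _, by simp [Matching]⟩⟩
  obtain ⟨hZF, hZM⟩ := mem_filter.1 hZ
  have hZm : Z.card ≤ m := by
    by_contra hc
    obtain ⟨Z', hZ', hc'⟩ := exists_subset_card_eq (not_le.1 hc).le
    exact hm Z' (mem_powersetCard.2 ⟨hZ'.trans (mem_powerset.1 hZF), hc'⟩)
      ⟨fun e he => hZM.1 e (hZ' he), fun e he e' he' => hZM.2 e (hZ' he) e' (hZ' he')⟩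
  let V : Finset α := Z.biUnion fun e => {e.1, e.2}
  have hV : V.card ≤ Z.card * 2 :=
    card_biUnion_le_card_mul _ _ _ fun e _ => card_le_two
  have hcov : F ⊆ (V.biUnion fun a => (F.filter fun e => e.1 = a ∧ e.2 ≠ a) ∪
      F.filter fun e => e.2 = a ∧ e.1 ≠ a) ∪ F.filter fun e => e.1 = e.2 := by
    intro e he
    by_cases hloop : e.1 = e.2
    · exact mem_union_right _ (mem_filter.2 ⟨he, hloop⟩)
    refine mem_union_left _ (mem_biUnion.2 ?_)
    by_cases h1 : e.1 ∈ V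
    · exact ⟨e.1, h1, mem_union_left _ (mem_filter.2 ⟨he, rfl, Ne.symm hloop⟩)⟩
    by_cases h2 : e.2 ∈ V
    · exact ⟨e.2, h2, mem_union_right _ (mem_filter.2 ⟨he, rfl, hloop⟩)⟩
    exfalso
    have hd : ∀ e' ∈ Z, Disjoint ({e.1, e.2} : Finset α) {e'.1, e'.2} := by
      intro e' he'
      rw [disjoint_insert_left, disjoint_singleton_left]
      exact ⟨fun h => h1 (mem_biUnion.2 ⟨e', he', h⟩), fun h => h2 (mem_biUnion.2 ⟨e', he', h⟩)⟩
    have hn : e ∉ Z := fun h => h1 (mem_biUnion.2 ⟨e, h, mem_insert_self _ _⟩)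
    have := hmax (insert e Z) (mem_filter.2
      ⟨mem_powerset.2 (insert_subset he (mem_powerset.1 hZF)), ?_, ?_⟩)
    · rw [card_insert_of_notMem hn] at this
      omega
    · intro x hx
      rcases mem_insert.1 hx with rfl | hx
      · exact hloop
      · exact hZM.1 x hx
    · intro x hx y hy hxy
      rcases mem_insert.1 hx with rfl | hx' <;> rcases mem_insert.1 hy with rfl | hy'
      · exact absurd rfl hxy
      · exact hd y hy'
      · exact (hd x hx').symm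
      · exact hZM.2 x hx' y hy' hxy
  have h3 := card_biUnion_le_card_mul V (fun a => (F.filter fun e => e.1 = a ∧ e.2 ≠ a) ∪
      F.filter fun e => e.2 = a ∧ e.1 ≠ a) (g + g)
    fun a _ => (card_union_le _ _).trans (add_le_add (hout a) (hin a))
  have h4 := (card_le_card hcov).trans (card_union_le _ _)
  have h5 : V.card * (g + g) ≤ m * 2 * (g + g) := Nat.mul_le_mul_right _ (by omega)
  have h6 : m * 2 * (g + g) = 4 * g * m := by ring
  omega

/-- P1: the number of directed edges with both ends chosen is rarely large. -/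
theorem pr_edges_le (h0 : ∀ a, 0 ≤ π a) (h1 : ∀ a, π a ≤ 1) (E : Finset (α × α)) {μ δ : ℝ}
    (hδ : 0 ≤ δ) (hμ : ∑ e ∈ E, π e.1 * π e.2 ≤ μ)
    (hout : ∀ a, ∑ e ∈ E with e.1 = a, π e.2 ≤ δ) (hin : ∀ b, ∑ e ∈ E with e.2 = b, π e.1 ≤ δ)
    (hl : ∑ e ∈ E with e.1 = e.2, π e.1 ≤ δ) (m k : ℕ) :
    pr S π (fun A => 4 * k * m + k < (E.filter fun e => e.1 ∈ A ∧ e.2 ∈ A).card) ≤
      μ ^ m / m.factorial + 2 * μ * δ ^ k + δ ^ (k + 1) := by
  let E' : Finset (α × α) := E.image Prod.swap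
  have hsw : ∀ (P : α × α → Prop) [DecidablePred P],
      E'.filter P = (E.filter fun e => P e.swap).image Prod.swap := fun P _ => filter_image
  have hμ' : ∑ e ∈ E', π e.1 * π e.2 ≤ μ := by
    rw [sum_image Prod.swap_injective.injOn]
    simpa [mul_comm] using hμ
  have hout' : ∀ a, ∑ e ∈ E' with e.1 = a, π e.2 ≤ δ := fun a => by
    rw [hsw, sum_image Prod.swap_injective.injOn]
    simpa using hin a
  let L : Finset α := (E.filter fun e => e.1 = e.2).image Prod.fst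
  have hL : ∑ a ∈ L, π a ≤ δ := (sum_image_le_of_nonneg fun a _ => h0 a).trans hl
  have b1 := pr_matching_le (S := S) h0 h1 E hμ m
  have b2 := pr_star_le (S := S) h0 h1 E hδ hμ hout k
  have b3 := pr_star_le (S := S) h0 h1 E' hδ hμ' hout' k
  have b4 := (pr_many_le (S := S) h0 h1 L (k + 1)).trans
    (pow_le_pow_left₀ (sum_nonneg fun a _ => h0 a) hL (k + 1))
  have b5 := (pr_or_le (S := S) h0 h1 _ _).trans (add_le_add b1 ((pr_or_le h0 h1 _ _).trans
    (add_le_add b2 ((pr_or_le h0 h1 _ _).trans (add_le_add b3 b4)))))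
  refine le_trans (pr_mono h0 h1 fun A _ h => ?_) (b5.trans_eq (by ring))
  by_contra hc
  simp only [not_or, not_exists, not_and, not_le] at hc
  obtain ⟨c1, c2, c3, c4⟩ := hc
  refine absurd h (not_lt.2 (card_le_of_no_matching _ m k (fun Z hZ hM => ?_) (fun a => ?_)
    (fun a => ?_) ?_))
  · obtain ⟨hs, hc⟩ := mem_powersetCard.1 hZ
    exact c1 Z (mem_powersetCard.2 ⟨hs.trans (filter_subset _ _), hc⟩) hM
      fun e he => (mem_filter.1 (hs he)).2
  · by_cases ha : a ∈ A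
    · refine (card_le_card fun e he => ?_).trans (Nat.lt_succ_iff.1 (c2 a ha))
      obtain ⟨h2, h3, h4⟩ := mem_filter.1 he
      exact mem_filter.2 ⟨(mem_filter.1 h2).1, h3, h4, (mem_filter.1 h2).2.2⟩
    · refine (card_eq_zero.2 (filter_eq_empty_iff.2 fun e he h => ha ?_)).trans_le (Nat.zero_le _)
      exact h.1 ▸ (mem_filter.1 he).2.1
  · by_cases ha : a ∈ A
    · have h5 := Nat.lt_succ_iff.1 (c3 a ha)
      rw [hsw, card_image_of_injective _ Prod.swap_injective] at h5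
      refine (card_le_card fun e he => ?_).trans h5
      obtain ⟨h2, h3, h4⟩ := mem_filter.1 he
      exact mem_filter.2 ⟨(mem_filter.1 h2).1, h3, h4, (mem_filter.1 h2).2.1⟩
    · refine (card_eq_zero.2 (filter_eq_empty_iff.2 fun e he h => ha ?_)).trans_le (Nat.zero_le _)
      exact h.1 ▸ (mem_filter.1 he).2.2
  · refine (card_le_card_of_injOn Prod.fst (fun e he => ?_) fun e he e' he' h => ?_).trans
      (Nat.lt_succ_iff.1 c4)
    · obtain ⟨h2, h3⟩ := mem_filter.1 (mem_coe.1 he)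
      exact mem_coe.2 (mem_filter.2 ⟨mem_image.2 ⟨e, mem_filter.2 ⟨(mem_filter.1 h2).1, h3⟩, rfl⟩,
        (mem_filter.1 h2).2.1⟩)
    · exact Prod.ext h ((mem_filter.1 (mem_coe.1 he)).2.symm.trans
        (h.trans (mem_filter.1 (mem_coe.1 he')).2))

theorem exp_step {p d : ℝ} (hp : 0 ≤ p) (hd0 : 0 ≤ d) (hd : d ≤ 1) :
    p * Real.exp (-(2 * d / 3)) + (1 - p) ≤ Real.exp (-(p * d / 3)) := by
  have h1 : Real.exp (-(2 * d / 3)) ≤ 1 - d / 3 := by
    rw [Real.exp_neg, inv_le_iff_one_le_mul₀ (Real.exp_pos _)]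
    have := Real.add_one_le_exp (2 * d / 3)
    nlinarith
  have h2 := Real.add_one_le_exp (-(p * d / 3))
  nlinarith

/-- P2: a bipartite graph with degree weights at most one rarely has no chosen edge. -/
theorem pr_no_edge_le (h0 : ∀ a, 0 ≤ π a) (h1 : ∀ a, π a ≤ 1) (E : Finset (α × α))
    (hS : ∀ e ∈ E, e.1 ∈ S ∧ e.2 ∈ S) (hb : ∀ e ∈ E, ∀ e' ∈ E, e.1 ≠ e'.2)
    (hout : ∀ a, ∑ e ∈ E with e.1 = a, π e.2 ≤ 1) (hin : ∀ b, ∑ e ∈ E with e.2 = b, π e.1 ≤ 1) :
    pr S π (fun A => ∀ e ∈ E, ¬(e.1 ∈ A ∧ e.2 ∈ A)) ≤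
      Real.exp (-((∑ e ∈ E, π e.1 * π e.2) / 3)) := by
  induction E using Finset.strongInduction with
  | H E ih =>
  rcases E.eq_empty_or_nonempty with rfl | ⟨e₀, he₀⟩
  · simpa using pr_le_one h0 h1 _
  have ih' : ∀ F ⊆ E, (∀ e ∈ F, e.1 ≠ e₀.1) → pr S π (fun A => ∀ e ∈ F, ¬(e.1 ∈ A ∧ e.2 ∈ A)) ≤
      Real.exp (-((∑ e ∈ F, π e.1 * π e.2) / 3)) := by
    intro F hF hne
    exact ih F (ssubset_of_subset_of_ne hF fun h => hne e₀ (h ▸ he₀) rfl)
      (fun e he => hS e (hF he)) (fun e he e' he' => hb e (hF he) e' (hF he'))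
      (fun a => (sum_le_sum_of_subset_of_nonneg (filter_subset_filter _ hF)
        fun e _ _ => h0 _).trans (hout a))
      fun a => (sum_le_sum_of_subset_of_nonneg (filter_subset_filter _ hF)
        fun e _ _ => h0 _).trans (hin a)
  obtain ⟨a, ha⟩ : ∃ a, a = e₀.1 := ⟨_, rfl⟩
  rw [← ha] at ih'
  have haS : a ∈ S := ha ▸ (hS e₀ he₀).1
  have har : ∀ e ∈ E, e.2 ≠ a := fun e he => ha ▸ (hb e₀ he₀ e he).symm
  let N : Finset α := (E.filter fun e => e.1 = a).image Prod.snd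
  let E₁ : Finset (α × α) := E.filter fun e => ¬e.1 = a
  let E₂ : Finset (α × α) := E₁.filter fun e => ¬e.2 ∈ N
  have hE₁ : E₁ ⊆ E := filter_subset _ _
  have hE₂ : E₂ ⊆ E₁ := filter_subset _ _
  have hinv : ∀ F : Finset (α × α), ∀ b, (∀ e ∈ F, e.1 ≠ b ∧ e.2 ≠ b) → ∀ A : Finset α,
      (∀ e ∈ F, ¬(e.1 ∈ insert b A ∧ e.2 ∈ insert b A)) ↔ ∀ e ∈ F, ¬(e.1 ∈ A ∧ e.2 ∈ A) := by
    intro F b h A
    exact forall₂_congr fun e he => by simp [(h e he).1, (h e he).2]
  have hN : ∀ b ∈ N, ∃ e ∈ E, e.1 = a ∧ e.2 = b := fun b hb' => by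
    obtain ⟨e, he, rfl⟩ := mem_image.1 hb'
    exact ⟨e, (mem_filter.1 he).1, (mem_filter.1 he).2, rfl⟩
  have hd : ∑ b ∈ N, π b = ∑ e ∈ E with e.1 = a, π e.2 :=
    sum_image fun e he e' he' h => Prod.ext ((mem_filter.1 (mem_coe.1 he)).2.trans
      (mem_filter.1 (mem_coe.1 he')).2.symm) h
  set d := ∑ b ∈ N, π b with hdd
  have hd0 : 0 ≤ d := sum_nonneg fun b _ => h0 b
  have hd1 : d ≤ 1 := hd ▸ hout a
  set μ₁ := ∑ e ∈ E₁, π e.1 * π e.2 with hμ₁
  set μ₂ := ∑ e ∈ E₂, π e.1 * π e.2 with hμ₂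
  have hμ : ∑ e ∈ E, π e.1 * π e.2 = π a * d + μ₁ := by
    rw [← sum_filter_add_sum_filter_not E fun e => e.1 = a, hd, mul_sum]
    congr 1
    exact sum_congr rfl fun e he => by rw [(mem_filter.1 he).2]
  have hμ' : μ₁ ≤ d + μ₂ := by
    rw [hμ₁, ← sum_filter_add_sum_filter_not E₁ fun e => e.2 ∈ N]
    refine add_le_add ?_ le_rfl
    rw [← sum_fiberwise_of_maps_to (s := E₁.filter fun e => e.2 ∈ N) (t := N) (g := Prod.snd)
      fun e he => (mem_filter.1 he).2]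
    refine sum_le_sum fun b _ => ?_
    calc _ = (∑ e ∈ E₁.filter (fun e => e.2 ∈ N) with e.2 = b, π e.1) * π b := by
          rw [sum_mul]
          exact sum_congr rfl fun e he => by rw [(mem_filter.1 he).2]
      _ ≤ 1 * π b := mul_le_mul_of_nonneg_right ((sum_le_sum_of_subset_of_nonneg
          (filter_subset_filter _ ((filter_subset _ _).trans hE₁)) fun e _ _ => h0 _).trans
            (hin b)) (h0 b)
      _ = π b := one_mul _
  have p1 : pr S π (fun A => a ∉ A ∧ ∀ e ∈ E, ¬(e.1 ∈ A ∧ e.2 ∈ A)) ≤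
      (1 - π a) * Real.exp (-(μ₁ / 3)) := by
    refine (pr_mono h0 h1 (E' := fun A => a ∉ A ∧ ∀ e ∈ E₁, ¬(e.1 ∈ A ∧ e.2 ∈ A))
      fun A _ h => ⟨h.1, fun e he => h.2 e (hE₁ he)⟩).trans ?_
    rw [pr_notMem_and haS (hinv E₁ a fun e he => ⟨(mem_filter.1 he).2, har e (hE₁ he)⟩)]
    exact mul_le_mul_of_nonneg_left (ih' E₁ hE₁ fun e he => (mem_filter.1 he).2)
      (by linarith [h1 a])
  have p2 : pr S π (fun A => a ∈ A ∧ ∀ e ∈ E, ¬(e.1 ∈ A ∧ e.2 ∈ A)) ≤
      π a * (Real.exp (-d) * Real.exp (-(μ₂ / 3))) := by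
    refine (pr_mono h0 h1 (E' := fun A => a ∈ A ∧ (∀ b ∈ N, b ∉ A) ∧
      ∀ e ∈ E₂, ¬(e.1 ∈ A ∧ e.2 ∈ A)) fun A _ h => ⟨h.1, fun b hb' hA => ?_,
        fun e he => h.2 e (hE₁ (hE₂ he))⟩).trans ?_
    · obtain ⟨e, he, e1, e2⟩ := hN b hb'
      exact h.2 e he ⟨e1 ▸ h.1, e2 ▸ hA⟩
    rw [pr_mem_and haS, pr_avoid_and N]
    · refine mul_le_mul_of_nonneg_left (mul_le_mul ?_ (ih' E₂ (hE₂.trans hE₁)
        fun e he => (mem_filter.1 (hE₂ he)).2) (pr_nonneg h0 h1 _) (Real.exp_pos _).le) (h0 a)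
      rw [hdd, ← sum_neg_distrib, Real.exp_sum]
      exact prod_le_prod (fun b _ => by linarith [h1 b])
        fun b _ => by linarith [Real.add_one_le_exp (-π b)]
    · intro b hb'
      obtain ⟨e, he, -, e2⟩ := hN b hb'
      exact e2 ▸ (hS e he).2
    · intro b hb'
      obtain ⟨e', he', -, e2⟩ := hN b hb'
      exact hinv E₂ b fun e he => ⟨e2 ▸ hb e (hE₁ (hE₂ he)) e' he',
        fun h => (mem_filter.1 he).2 (h ▸ hb')⟩
    · intro A
      rw [hinv E₂ a fun e he => ⟨(mem_filter.1 (hE₂ he)).2, har e (hE₁ (hE₂ he))⟩]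
      refine and_congr_left' (forall₂_congr fun b hb' => ?_)
      obtain ⟨e', he', -, e2⟩ := hN b hb'
      have : b ≠ a := e2 ▸ har e' he'
      simp [this]
  have p3 : Real.exp (-d) * Real.exp (-(μ₂ / 3)) ≤
      Real.exp (-(2 * d / 3)) * Real.exp (-(μ₁ / 3)) := by
    rw [← Real.exp_add, ← Real.exp_add]
    exact Real.exp_le_exp.2 (by linarith)
  have p4 := mul_le_mul_of_nonneg_right (exp_step (h0 a) hd0 hd1) (Real.exp_pos (-(μ₁ / 3))).le
  have p5 : Real.exp (-((π a * d + μ₁) / 3)) =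
      Real.exp (-(π a * d / 3)) * Real.exp (-(μ₁ / 3)) := by
    rw [← Real.exp_add]
    congr 1
    ring
  rw [pr_split _ fun A => a ∈ A, hμ, p5]
  nlinarith [mul_le_mul_of_nonneg_left p3 (h0 a)]

open Classical in
/-- P3: countably many events, each on a finite set of coordinates, can all be avoided. -/
theorem exists_avoid (h0 : ∀ a, 0 ≤ π a) (h1 : ∀ a, π a ≤ 1) (D : ℕ → Finset α)
    (bad : ℕ → Finset α → Prop) (hb : ∀ i, pr (D i) π (bad i) ≤ 1 / 2 ^ (i + 1)) :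
    ∃ A : Set α, ∀ i, ¬bad i ((D i).filter (· ∈ A)) := by
  have fin : ∀ I : ℕ, ∃ A : Finset α, ∀ i < I, ¬bad i (A ∩ D i) := by
    intro I
    have h4 : ∀ I : ℕ, ∑ i ∈ range I, (1 : ℝ) / 2 ^ (i + 1) = 1 - 1 / 2 ^ I := by
      intro I
      induction I with
      | zero => simp
      | succ I ih => rw [sum_range_succ, ih]; field_simp; ring
    have h5 : pr ((range I).biUnion D) π (fun A => ∃ i ∈ range I, bad i (A ∩ D i)) < 1 := by
      refine (pr_exists_le h0 h1 _ _).trans_lt ((sum_le_sum fun i hi =>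
        (pr_restrict (subset_biUnion_of_mem D hi) (bad i)).trans_le (hb i)).trans_lt ?_)
      rw [h4]
      have : (0 : ℝ) < 1 / 2 ^ I := by positivity
      linarith
    obtain ⟨A, -, hA⟩ := exists_not_of_pr_lt_one h5
    exact ⟨A, fun i hi h => hA ⟨i, mem_range.2 hi, h⟩⟩
  choose W hW using fin
  refine ⟨{a | {I | a ∈ W I} ∈ Filter.hyperfilter ℕ}, fun i => ?_⟩
  have e1 : ∀ᶠ I in (Filter.hyperfilter ℕ : Filter ℕ), ∀ a ∈ D i,
      (a ∈ W I ↔ {I | a ∈ W I} ∈ Filter.hyperfilter ℕ) := by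
    refine (Filter.eventually_all_finset _).2 fun a _ => ?_
    by_cases h : {I | a ∈ W I} ∈ Filter.hyperfilter ℕ
    · exact Filter.mem_of_superset h fun I hI => iff_of_true hI h
    · exact Filter.mem_of_superset (Ultrafilter.compl_mem_iff_notMem.2 h)
        fun I hI => iff_of_false hI h
  have e2 : ∀ᶠ I in (Filter.hyperfilter ℕ : Filter ℕ), i < I := by
    refine Filter.hyperfilter_le_cofinite ?_
    rw [Nat.cofinite_eq_atTop]
    exact Filter.eventually_gt_atTop i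
  obtain ⟨I, hI1, hI2⟩ := (e1.and e2).exists
  have e3 : W I ∩ D i = (D i).filter (· ∈ {a | {I | a ∈ W I} ∈ Filter.hyperfilter ℕ}) := by
    ext a
    rw [mem_inter, mem_filter]
    exact ⟨fun h => ⟨h.2, (hI1 a h.2).1 h.1⟩, fun h => ⟨(hI1 a h.1).2 h.2, h.1⟩⟩
  rw [← e3]
  exact hW I i hI2

end Pool.Agent.P.MP_d5a1e1_nt.TB
end

-- part Pool.Agent.P.MP_d5a1e1_nt.TBProb2
section

/-! Expectations, star and matching bounds, hashing and sequential choice. -/

namespace Pool.Agent.P.MP_d5a1e1_nt.TB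

open Finset

section

variable {α : Type*} [DecidableEq α]

/-- Expectation over the random subset of `S`. -/
def ex (S : Finset α) (π : α → ℝ) (g : Finset α → ℝ) : ℝ := ∑ A ∈ S.powerset, wt S π A * g A

/-- Indicator that `a` is chosen. -/
def chs (a : α) (A : Finset α) : ℝ := if a ∈ A then 1 else 0

variable {S : Finset α} {π : α → ℝ}

theorem chs_insert {a b : α} (h : a ≠ b) (A : Finset α) : chs a (insert b A) = chs a A := by
  simp [chs, h]

theorem chs_nonneg (a : α) (A : Finset α) : 0 ≤ chs a A := by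
  unfold chs
  split_ifs <;> norm_num

theorem ex_congr {g g' : Finset α → ℝ} (h : ∀ A ⊆ S, g A = g' A) : ex S π g = ex S π g' :=
  sum_congr rfl fun A hA => by rw [h A (mem_powerset.1 hA)]

theorem ex_mono (h0 : ∀ a, 0 ≤ π a) (h1 : ∀ a, π a ≤ 1) {g g' : Finset α → ℝ}
    (h : ∀ A ⊆ S, g A ≤ g' A) : ex S π g ≤ ex S π g' :=
  sum_le_sum fun A hA =>
    mul_le_mul_of_nonneg_left (h A (mem_powerset.1 hA)) (wt_nonneg h0 h1 A)

theorem ex_const (c : ℝ) : ex S π (fun _ => c) = c := by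
  have h := pr_true S π
  simp only [pr, if_true] at h
  unfold ex
  rw [← sum_mul, h, one_mul]

theorem ex_mul_left (c : ℝ) (g : Finset α → ℝ) : ex S π (fun A => c * g A) = c * ex S π g := by
  unfold ex
  rw [mul_sum]
  exact sum_congr rfl fun A _ => by ring

theorem ex_add (g g' : Finset α → ℝ) :
    ex S π (fun A => g A + g' A) = ex S π g + ex S π g' := by
  unfold ex
  rw [← sum_add_distrib]
  exact sum_congr rfl fun A _ => by ring

/-- Markov's inequality. -/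
theorem pr_le_ex (h0 : ∀ a, 0 ≤ π a) (h1 : ∀ a, π a ≤ 1) {E : Finset α → Prop}
    {g : Finset α → ℝ} (hg : ∀ A ⊆ S, 0 ≤ g A) (hE : ∀ A ⊆ S, E A → 1 ≤ g A) :
    pr S π E ≤ ex S π g :=
  sum_le_sum fun A hA => by
    split_ifs with h
    · exact le_mul_of_one_le_right (wt_nonneg h0 h1 A) (hE A (mem_powerset.1 hA) h)
    · exact mul_nonneg (wt_nonneg h0 h1 A) (hg A (mem_powerset.1 hA))

theorem ex_insert {a : α} (ha : a ∉ S) (g : Finset α → ℝ) :
    ex (insert a S) π g = π a * ex S π (fun A => g (insert a A)) + (1 - π a) * ex S π g := by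
  unfold ex
  rw [sum_powerset_insert ha, add_comm, mul_sum, mul_sum]
  congr 1
  · refine sum_congr rfl fun A _ => ?_
    unfold wt
    rw [prod_insert ha, if_pos (mem_insert_self _ _), mul_assoc]
    congr 2
    refine prod_congr rfl fun b hb => ?_
    have : b ≠ a := fun h => ha (h ▸ hb)
    simp [this]
  · refine sum_congr rfl fun A hA => ?_
    unfold wt
    rw [prod_insert ha, if_neg fun h => ha (mem_powerset.1 hA h), mul_assoc]

theorem ex_mul_chs {a : α} (ha : a ∈ S) {g : Finset α → ℝ} (hg : ∀ A, g (insert a A) = g A) :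
    ex S π (fun A => g A * chs a A) = π a * ex S π g := by
  rw [← insert_erase ha, ex_insert (notMem_erase a S), ex_insert (notMem_erase a S),
    ex_congr (g := fun A => g A * chs a A) (g' := fun _ => 0) fun A hA => by
      have : a ∉ A := fun h => notMem_erase a S (hA h)
      simp [chs, this],
    ex_congr (g := fun A => g (insert a A) * chs a (insert a A)) (g' := g)
      fun A _ => by simp [chs, hg],
    ex_congr (g := fun A => g (insert a A)) (g' := g) fun A _ => hg A, ex_const]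
  ring

/-- P1: independent coordinates can be averaged out of a product. -/
theorem ex_prod {κ : Type*} (I : Finset κ) (c : κ → α) (hc : Set.InjOn c I)
    (hS : ∀ i ∈ I, c i ∈ S) (g : Finset α → ℝ) (a : κ → Finset α → ℝ)
    (hg : ∀ i ∈ I, ∀ A, g (insert (c i) A) = g A)
    (ha : ∀ i ∈ I, ∀ j ∈ I, ∀ A, a j (insert (c i) A) = a j A) :
    ex S π (fun A => g A * ∏ i ∈ I, (1 + a i A * chs (c i) A)) =
      ex S π (fun A => g A * ∏ i ∈ I, (1 + π (c i) * a i A)) := by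
  classical
  induction I using Finset.induction_on generalizing g with
  | empty => rfl
  | insert i I hi ih =>
    have hi' := mem_insert_self i I
    have key : ∀ G : Finset α → ℝ, (∀ A, G (insert (c i) A) = G A) →
        ex S π (fun A => G A * (1 + a i A * chs (c i) A)) =
          ex S π (fun A => G A * (1 + π (c i) * a i A)) := by
      intro G hG
      rw [ex_congr (g' := fun A => G A + G A * a i A * chs (c i) A) fun A _ => by ring, ex_add,
        ex_mul_chs (hS i hi') fun A => by rw [hG, ha i hi' i hi'], ← ex_mul_left, ← ex_add]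
      exact ex_congr fun A _ => by ring
    calc _ = ex S π (fun A => (g A * ∏ j ∈ I, (1 + a j A * chs (c j) A)) *
          (1 + a i A * chs (c i) A)) := ex_congr fun A _ => by rw [prod_insert hi]; ring
      _ = ex S π (fun A => (g A * ∏ j ∈ I, (1 + a j A * chs (c j) A)) *
          (1 + π (c i) * a i A)) := by
        refine key _ fun A => ?_
        rw [hg i hi']
        congr 1
        refine prod_congr rfl fun j hj => ?_
        have hj' := mem_insert_of_mem (b := i) hj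
        rw [ha i hi' j hj', chs_insert fun h => hi (hc (mem_coe.2 hj') (mem_coe.2 hi') h ▸ hj)]
      _ = ex S π (fun A => (g A * (1 + π (c i) * a i A)) *
          ∏ j ∈ I, (1 + a j A * chs (c j) A)) := ex_congr fun A _ => by ring
      _ = ex S π (fun A => (g A * (1 + π (c i) * a i A)) *
          ∏ j ∈ I, (1 + π (c j) * a j A)) :=
        ih (hc.mono (coe_subset.2 (subset_insert _ _)))
          (fun j hj => hS j (mem_insert_of_mem hj)) _
          (fun j hj A => by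
            rw [hg j (mem_insert_of_mem hj), ha j (mem_insert_of_mem hj) i hi'])
          fun j hj k hk => ha j (mem_insert_of_mem hj) k (mem_insert_of_mem hk)
      _ = _ := ex_congr fun A _ => by rw [prod_insert hi]; ring

/-- P1 with constant coefficients. -/
theorem ex_prod_const {κ : Type*} (I : Finset κ) (c : κ → α) (hc : Set.InjOn c I)
    (hS : ∀ i ∈ I, c i ∈ S) (a : κ → ℝ) :
    ex S π (fun A => ∏ i ∈ I, (1 + a i * chs (c i) A)) = ∏ i ∈ I, (1 + π (c i) * a i) := by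
  have := ex_prod (π := π) I c hc hS (fun _ => 1) (fun i _ => a i) (fun _ _ _ => rfl)
    fun _ _ _ _ _ => rfl
  simpa [ex_const] using this

theorem exp_sub_one_le {x : ℝ} (h0 : 0 ≤ x) (h1 : x ≤ 1) : Real.exp x - 1 ≤ 2 * x := by
  have := Real.abs_exp_sub_one_le (x := x) (by rwa [abs_of_nonneg h0])
  rw [abs_of_nonneg h0] at this
  exact (le_abs_self _).trans this

/-- Exponential moment of a weighted count of chosen elements. -/
theorem ex_exp_le (h0 : ∀ a, 0 ≤ π a) (Y : Finset α) (hY : Y ⊆ S) (a : α → ℝ)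
    (ha0 : ∀ v ∈ Y, 0 ≤ a v) (ha1 : ∀ v ∈ Y, a v ≤ 1) :
    ex S π (fun A => Real.exp (∑ v ∈ Y, a v * chs v A)) ≤
      Real.exp (2 * ∑ v ∈ Y, π v * a v) := by
  rw [ex_congr (g' := fun A => ∏ v ∈ Y, (1 + (Real.exp (a v) - 1) * chs (id v) A)) fun A _ => by
    rw [Real.exp_sum]
    refine prod_congr rfl fun v _ => ?_
    unfold chs
    rw [id]
    split_ifs <;> simp, ex_prod_const Y id (Set.injOn_id _) hY, mul_sum, Real.exp_sum]
  refine prod_le_prod (fun v hv => ?_) fun v hv => ?_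
  · have := mul_nonneg (h0 v) (sub_nonneg.2 (Real.one_le_exp (ha0 v hv)))
    rw [id]
    linarith
  · have := mul_le_mul_of_nonneg_left (exp_sub_one_le (ha0 v hv) (ha1 v hv)) (h0 v)
    rw [id]
    linarith [Real.add_one_le_exp (2 * (π v * a v))]

/-- P4: upper tail of a weighted count. -/
theorem pr_weight_le (h0 : ∀ a, 0 ≤ π a) (h1 : ∀ a, π a ≤ 1) (Y : Finset α) (a : α → ℝ)
    (ha0 : ∀ v ∈ Y, 0 ≤ a v) (ha1 : ∀ v ∈ Y, a v ≤ 1) {μ : ℝ} (hμ : ∑ v ∈ Y, π v * a v ≤ μ)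
    (g : ℝ) :
    pr S π (fun A => g ≤ ∑ v ∈ Y with v ∈ A, a v) ≤ Real.exp (2 * μ - g) := by
  have hsub : Y ∩ S ⊆ Y := inter_subset_left
  refine (pr_le_ex h0 h1
    (g := fun A => Real.exp (-g) * Real.exp (∑ v ∈ Y ∩ S, a v * chs v A))
    (fun A _ => by positivity) fun A hA h => ?_).trans ?_
  · rw [← Real.exp_add]
    refine Real.one_le_exp ?_
    have : ∑ v ∈ Y with v ∈ A, a v = ∑ v ∈ Y ∩ S, a v * chs v A := by
      simp only [chs, mul_ite, mul_one, mul_zero, ← sum_filter]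
      refine sum_congr ?_ fun _ _ => rfl
      ext v
      simp only [mem_filter, mem_inter]
      exact ⟨fun h => ⟨⟨h.1, hA h.2⟩, h.2⟩, fun h => ⟨h.1.1, h.2⟩⟩
    linarith
  · rw [ex_mul_left, sub_eq_neg_add, Real.exp_add]
    refine mul_le_mul_of_nonneg_left ((ex_exp_le h0 _ inter_subset_right a
      (fun v hv => ha0 v (hsub hv)) fun v hv => ha1 v (hsub hv)).trans
        (Real.exp_le_exp.2 ?_)) (Real.exp_pos _).le
    have := sum_le_sum_of_subset_of_nonneg (f := fun v => π v * a v) hsub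
      fun v hv _ => mul_nonneg (h0 v) (ha0 v hv)
    linarith

/-- P2: edges are determined by their first end (the child); many chosen edges are rare. -/
theorem pr_stars_le (h0 : ∀ a, 0 ≤ π a) (h1 : ∀ a, π a ≤ 1) (E : Finset (α × α))
    (hf : ∀ e ∈ E, ∀ e' ∈ E, e.1 = e'.1 → e = e') (hb : ∀ e ∈ E, ∀ e' ∈ E, e.1 ≠ e'.2)
    (hin : ∀ b, ∑ e ∈ E with e.2 = b, π e.1 ≤ 1) {μ : ℝ} (hμ : ∑ e ∈ E, π e.1 * π e.2 ≤ μ)
    (g : ℕ) :
    pr S π (fun A => g ≤ (E.filter fun e => e.1 ∈ A ∧ e.2 ∈ A).card) ≤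
      Real.exp (2 * μ) / 2 ^ g := by
  let F : Finset (α × α) := E.filter fun e => e.1 ∈ S ∧ e.2 ∈ S
  have hF : F ⊆ E := filter_subset _ _
  let m : α → ℝ := fun b => ∑ e ∈ F with e.2 = b, π e.1
  have hmap : ∀ e ∈ F, e.2 ∈ F.image Prod.snd := fun e he => mem_image_of_mem _ he
  refine (pr_le_ex h0 h1
    (g := fun A => (1 / 2 ^ g) * (1 * ∏ e ∈ F, (1 + chs e.2 A * chs e.1 A)))
    (fun A _ => mul_nonneg (by positivity) (mul_nonneg zero_le_one (prod_nonneg fun e _ =>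
      add_nonneg zero_le_one (mul_nonneg (chs_nonneg _ _) (chs_nonneg _ _)))))
    fun A hA h => ?_).trans ?_
  · have e1 : ∏ e ∈ F, (1 + chs e.2 A * chs e.1 A) =
        2 ^ (E.filter fun e => e.1 ∈ A ∧ e.2 ∈ A).card := by
      have e2 : (E.filter fun e => e.1 ∈ A ∧ e.2 ∈ A) = F.filter fun e => e.1 ∈ A ∧ e.2 ∈ A := by
        ext e
        simp only [F, mem_filter]
        exact ⟨fun h => ⟨⟨h.1, hA h.2.1, hA h.2.2⟩, h.2⟩, fun h => ⟨h.1.1, h.2⟩⟩
      rw [e2, ← prod_const]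
      refine Eq.trans (prod_congr rfl fun e _ => ?_) (prod_filter _ _).symm
      unfold chs
      by_cases ha : e.1 ∈ A <;> by_cases hb : e.2 ∈ A <;> simp [ha, hb]
      norm_num
    rw [e1, one_mul, one_div, inv_mul_eq_div, le_div_iff₀ (by positivity), one_mul]
    exact pow_le_pow_right₀ (by norm_num) h
  · rw [ex_mul_left, ex_prod F Prod.fst (fun e he e' he' h => hf e (hF he) e' (hF he') h)
      (fun e he => (mem_filter.1 he).2.1) (fun _ => 1) (fun e A => chs e.2 A) (fun _ _ _ => rfl)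
      fun e he e' he' A => chs_insert (hb e (hF he) e' (hF he')).symm A, one_div, inv_mul_eq_div]
    refine div_le_div_of_nonneg_right ?_ (by positivity)
    refine (ex_mono h0 h1 (g' := fun A => Real.exp (∑ b ∈ F.image Prod.snd, m b * chs b A))
      fun A _ => ?_).trans ((ex_exp_le h0 _ ?_ m (fun b _ => sum_nonneg fun e _ => h0 _)
        fun b _ => ?_).trans (Real.exp_le_exp.2 ?_))
    · have e1 : ∑ b ∈ F.image Prod.snd, m b * chs b A = ∑ e ∈ F, π e.1 * chs e.2 A := by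
        rw [← sum_fiberwise_of_maps_to hmap]
        refine sum_congr rfl fun b _ => ?_
        rw [sum_mul]
        exact sum_congr rfl fun e he => by rw [(mem_filter.1 he).2]
      rw [one_mul, e1, Real.exp_sum]
      exact prod_le_prod
        (fun e _ => add_nonneg zero_le_one (mul_nonneg (h0 _) (chs_nonneg _ _)))
        fun e _ => by linarith [Real.add_one_le_exp (π e.1 * chs e.2 A)]
    · intro b hb'
      obtain ⟨e, he, rfl⟩ := mem_image.1 hb'
      exact (mem_filter.1 he).2.2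
    · exact (sum_le_sum_of_subset_of_nonneg (filter_subset_filter _ hF)
        fun e _ _ => h0 _).trans (hin b)
    · have e1 : ∑ b ∈ F.image Prod.snd, π b * m b = ∑ e ∈ F, π e.1 * π e.2 := by
        rw [← sum_fiberwise_of_maps_to hmap]
        refine sum_congr rfl fun b _ => ?_
        rw [mul_sum]
        exact sum_congr rfl fun e he => by rw [(mem_filter.1 he).2, mul_comm]
      have := sum_le_sum_of_subset_of_nonneg (f := fun e : α × α => π e.1 * π e.2) hF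
        fun e _ _ => mul_nonneg (h0 _) (h0 _)
      rw [e1]
      linarith

/-- P3: a matching rarely has no chosen edge. -/
theorem pr_no_match_le (h0 : ∀ a, 0 ≤ π a) (h1 : ∀ a, π a ≤ 1) (E : Finset (α × α))
    (hS : ∀ e ∈ E, e.1 ∈ S ∧ e.2 ∈ S) (hf : ∀ e ∈ E, ∀ e' ∈ E, e.1 = e'.1 → e = e')
    (hf' : ∀ e ∈ E, ∀ e' ∈ E, e.2 = e'.2 → e = e') (hb : ∀ e ∈ E, ∀ e' ∈ E, e.1 ≠ e'.2)
    {μ : ℝ} (hμ : μ ≤ ∑ e ∈ E, π e.1 * π e.2) :
    pr S π (fun A => ∀ e ∈ E, ¬(e.1 ∈ A ∧ e.2 ∈ A)) ≤ Real.exp (-μ) := by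
  refine (pr_le_ex h0 h1 (g := fun A => 1 * ∏ e ∈ E, (1 + -chs e.2 A * chs e.1 A))
    (fun A _ => mul_nonneg zero_le_one (prod_nonneg fun e _ => ?_)) fun A _ h => ?_).trans ?_
  · unfold chs
    split_ifs <;> norm_num
  · rw [one_mul]
    refine (prod_eq_one fun e he => ?_).ge
    have := h e he
    unfold chs
    by_cases ha : e.1 ∈ A <;> by_cases hb : e.2 ∈ A <;> simp_all
  · rw [ex_prod E Prod.fst (fun e he e' he' h => hf e he e' he' h) (fun e he => (hS e he).1)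
      (fun _ => 1) (fun e A => -chs e.2 A) (fun _ _ _ => rfl)
      fun e he e' he' A => by rw [chs_insert (hb e he e' he').symm A],
      ex_congr (g' := fun A => ∏ e ∈ E, (1 + -π e.1 * chs e.2 A))
        fun A _ => by rw [one_mul]; exact prod_congr rfl fun e _ => by ring,
      ex_prod_const E Prod.snd (fun e he e' he' h => hf' e he e' he' h) fun e he => (hS e he).2]
    refine le_trans ?_ (Real.exp_le_exp.2 (neg_le_neg hμ))
    rw [← sum_neg_distrib, Real.exp_sum]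
    refine prod_le_prod (fun e _ => ?_)
      fun e _ => by linarith [Real.add_one_le_exp (-(π e.1 * π e.2))]
    have := mul_le_one₀ (h1 e.2) (h0 e.1) (h1 e.1)
    linarith

end

/-- P6: a hash function that spreads each of few small sets. -/
theorem exists_hash {β κ : Type*} (Φ : Finset κ) (A : κ → Finset β) {H X G : ℕ} (hH : 0 < H)
    (hA : ∀ φ ∈ Φ, (A φ).card ≤ X) (h : Φ.card * H * X ^ G < H ^ G) :
    ∃ f : β → ℕ, (∀ b, f b < H) ∧ ∀ φ ∈ Φ, ∀ η, ((A φ).filter fun b => f b = η).card < G := by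
  classical
  let U : Finset β := Φ.biUnion A
  let T : Finset (U → ℕ) := Fintype.piFinset fun _ => range H
  let bad : Finset β → ℕ → Finset (U → ℕ) := fun Z η =>
    Fintype.piFinset fun u : U => if (u : β) ∈ Z then {η} else range H
  have hT : T.card = H ^ U.card := by simp [T, Fintype.card_piFinset]
  have hbad : ∀ Z ⊆ U, ∀ η, (bad Z η).card * H ^ Z.card = H ^ U.card := by
    intro Z hZ η
    have e1 : (bad Z η).card = ∏ u ∈ U, if u ∈ Z then 1 else H := by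
      rw [Fintype.card_piFinset, ← prod_coe_sort U]
      refine prod_congr rfl fun u _ => ?_
      split_ifs <;> simp
    have e2 : H ^ Z.card = ∏ u ∈ U, if u ∈ Z then H else 1 := by
      rw [← prod_filter, filter_mem_eq_inter, inter_eq_right.2 hZ, prod_const]
    rw [e1, e2, ← prod_mul_distrib, ← prod_const]
    refine prod_congr rfl fun u _ => ?_
    split_ifs <;> simp
  let B : Finset (U → ℕ) := Φ.biUnion fun φ => (range H).biUnion fun η =>
    (powersetCard G (A φ)).biUnion fun Z => bad Z η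
  have hG : 0 < H ^ G := pow_pos hH G
  have hB : B.card ≤ Φ.card * (H * (X ^ G * (H ^ U.card / H ^ G))) := by
    refine card_biUnion_le_card_mul _ _ _ fun φ hφ => ?_
    refine (card_biUnion_le_card_mul _ _ (X ^ G * (H ^ U.card / H ^ G)) fun η _ => ?_).trans_eq
      (by rw [card_range])
    refine (card_biUnion_le_card_mul _ _ (H ^ U.card / H ^ G) fun Z hZ => ?_).trans
      (Nat.mul_le_mul_right _ ?_)
    · obtain ⟨hs, hc⟩ := mem_powersetCard.1 hZ
      rw [Nat.le_div_iff_mul_le hG, ← hc, hbad Z (hs.trans (subset_biUnion_of_mem A hφ))]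
    · rw [card_powersetCard]
      exact (Nat.choose_le_pow _ _).trans (Nat.pow_le_pow_left (hA φ hφ) G)
  have hlt : B.card < T.card := by
    rw [hT]
    have h1 : H ^ U.card / H ^ G * H ^ G ≤ H ^ U.card := Nat.div_mul_le_self _ _
    have h2 : 0 < H ^ U.card := pow_pos hH _
    rcases Nat.eq_zero_or_pos (H ^ U.card / H ^ G) with h3 | h3
    · rw [h3] at hB
      omega
    · have h4 := Nat.mul_lt_mul_of_pos_right h h3
      calc _ ≤ _ := hB
        _ = Φ.card * H * X ^ G * (H ^ U.card / H ^ G) := by ring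
        _ < H ^ G * (H ^ U.card / H ^ G) := h4
        _ ≤ _ := by rw [mul_comm]; exact h1
  obtain ⟨f, hfT, hfB⟩ := exists_mem_notMem_of_card_lt_card hlt
  have hfH : ∀ u, f u < H := fun u => mem_range.1 (Fintype.mem_piFinset.1 hfT u)
  refine ⟨fun b => if hb : b ∈ U then f ⟨b, hb⟩ else 0, fun b => ?_, fun φ hφ η => ?_⟩
  · by_cases hb : b ∈ U
    · simp only [dif_pos hb]
      exact hfH _
    · simp only [dif_neg hb]
      exact hH
  · by_contra hc
    obtain ⟨Z, hZ, hcard⟩ := exists_subset_card_eq (not_lt.1 hc)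
    have hZf : ∀ u : U, (u : β) ∈ Z → f u = η := fun u hu => by
      simpa [u.2] using (mem_filter.1 (hZ hu)).2
    have hmem : ∀ η' < H, (∀ u : U, (u : β) ∈ Z → f u = η') → False := fun η' hη hz =>
      hfB (mem_biUnion.2 ⟨φ, hφ, mem_biUnion.2 ⟨η', mem_range.2 hη, mem_biUnion.2
        ⟨Z, mem_powersetCard.2 ⟨hZ.trans (filter_subset _ _), hcard⟩,
          Fintype.mem_piFinset.2 fun u => by
            split_ifs with hu
            · exact mem_singleton.2 (hz u hu)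
            · exact mem_range.2 (hfH u)⟩⟩⟩)
    rcases Z.eq_empty_or_nonempty with rfl | ⟨b, hb⟩
    · exact hmem 0 hH fun u hu => absurd hu (notMem_empty _)
    · have hbU : b ∈ U := subset_biUnion_of_mem A hφ (filter_subset _ _ (hZ hb))
      exact hmem η (hZf ⟨b, hbU⟩ hb ▸ hfH _) hZf

/-- SEQ: sequential choice keeping finitely many multiplicative potentials below one. -/
theorem exists_seq {ω κ : Type*} (Om : Finset ω) (hOm : Om.Nonempty) (Φ : Finset κ)
    (c : κ → ℝ) (g : κ → ℕ → (ℕ → ω) → ℝ) (hc0 : ∀ φ ∈ Φ, 0 ≤ c φ) (hc : ∑ φ ∈ Φ, c φ < 1)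
    (hg0 : ∀ φ ∈ Φ, ∀ i ξ, 0 ≤ g φ i ξ)
    (hdep : ∀ φ ∈ Φ, ∀ i ξ ξ', (∀ t ≤ i, ξ t = ξ' t) → g φ i ξ = g φ i ξ') (m : ℕ)
    (hmean : ∀ i < m, ∀ ξ : ℕ → ω, (∀ t, ξ t ∈ Om) →
      (∀ j ≤ i, ∀ ψ ∈ Φ, c ψ * ∏ t ∈ range j, g ψ t ξ < 1) →
        ∀ φ ∈ Φ, ∑ o ∈ Om, g φ i (Function.update ξ i o) ≤ Om.card) :
    ∃ ξ : ℕ → ω, (∀ t, ξ t ∈ Om) ∧ ∀ j ≤ m, ∀ φ ∈ Φ, c φ * ∏ t ∈ range j, g φ t ξ < 1 := by
  have one : ∀ (ξ : ℕ → ω) (j : ℕ), ∑ φ ∈ Φ, c φ * ∏ t ∈ range j, g φ t ξ < 1 →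
      ∀ φ ∈ Φ, c φ * ∏ t ∈ range j, g φ t ξ < 1 := fun ξ j h φ hφ =>
    (single_le_sum (f := fun φ => c φ * ∏ t ∈ range j, g φ t ξ) (fun ψ hψ =>
      mul_nonneg (hc0 ψ hψ) (prod_nonneg fun t _ => hg0 ψ hψ t ξ)) hφ).trans_lt h
  have key : ∀ i ≤ m, ∃ ξ : ℕ → ω, (∀ t, ξ t ∈ Om) ∧
      ∀ j ≤ i, ∑ φ ∈ Φ, c φ * ∏ t ∈ range j, g φ t ξ < 1 := by
    intro i
    induction i with
    | zero =>
      intro _
      obtain ⟨o, ho⟩ := hOm
      refine ⟨fun _ => o, fun _ => ho, fun j hj => ?_⟩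
      rw [Nat.le_zero.1 hj]
      simpa using hc
    | succ i ih =>
      intro hi
      obtain ⟨ξ, hξ, hP⟩ := ih (by omega)
      have hm := hmean i (by omega) ξ hξ fun j hj => one ξ j (hP j hj)
      have hup : ∀ o, ∀ φ ∈ Φ, ∀ j ≤ i, ∏ t ∈ range j, g φ t (Function.update ξ i o) =
          ∏ t ∈ range j, g φ t ξ := fun o φ hφ j hj =>
        prod_congr rfl fun t ht => hdep φ hφ t _ _ fun s hs =>
          Function.update_of_ne (by have := mem_range.1 ht; omega) _ _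
      have hsum : ∑ o ∈ Om, ∑ φ ∈ Φ, c φ * ∏ t ∈ range (i + 1), g φ t (Function.update ξ i o) <
          ∑ _o ∈ Om, (1 : ℝ) := by
        have hcard : (0 : ℝ) < Om.card := by exact_mod_cast hOm.card_pos
        rw [sum_comm, sum_const, nsmul_eq_mul, mul_one]
        calc _ ≤ ∑ φ ∈ Φ, (c φ * ∏ t ∈ range i, g φ t ξ) * Om.card := by
              refine sum_le_sum fun φ hφ => ?_
              refine le_trans (le_of_eq ?_) (mul_le_mul_of_nonneg_left (hm φ hφ)
                (mul_nonneg (hc0 φ hφ) (prod_nonneg fun t _ => hg0 φ hφ t ξ)))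
              rw [mul_sum]
              exact sum_congr rfl fun o _ => by rw [prod_range_succ, hup o φ hφ i le_rfl, mul_assoc]
          _ < _ := by
              rw [← sum_mul]
              exact mul_lt_of_lt_one_left hcard (hP i le_rfl)
      obtain ⟨o, ho, hlt⟩ := exists_lt_of_sum_lt hsum
      refine ⟨Function.update ξ i o, fun t => ?_, fun j hj => ?_⟩
      · by_cases ht : t = i
        · rw [ht, Function.update_self]
          exact ho
        · rw [Function.update_of_ne ht]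
          exact hξ t
      · rcases Nat.lt_or_ge i j with h | h
        · rwa [show j = i + 1 by omega]
        · rw [sum_congr rfl fun φ hφ => by rw [hup o φ hφ j h]]
          exact hP j h
  obtain ⟨ξ, hξ, hP⟩ := key m le_rfl
  exact ⟨ξ, hξ, fun j hj => one ξ j (hP j hj)⟩

end Pool.Agent.P.MP_d5a1e1_nt.TB
end

-- part Pool.Agent.P.MP_d5a1e1_nt.TBBox
section

/-! Boxes of digit vectors and truncation. -/

namespace Pool.Agent.P.MP_d5a1e1_nt.TB

open Finset

/-- Truncation to the first `n` coordinates. -/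
def tr (n : ℕ) (f : ℕ → ℕ) : ℕ → ℕ := fun i => if i < n then f i else 0

/-- Vectors with `f i < N (i / 2)` for `i < n` that vanish from `n` on. -/
noncomputable def Box (n : ℕ) (N : ℕ → ℕ) : Finset (ℕ → ℕ) :=
  open Classical in
  (Fintype.piFinset fun i : Fin n => range (N (i / 2))).image
    fun g i => if h : i < n then g ⟨i, h⟩ else 0

theorem tr_lt {n i : ℕ} (h : i < n) (f : ℕ → ℕ) : tr n f i = f i := if_pos h

theorem tr_ge {n i : ℕ} (h : n ≤ i) (f : ℕ → ℕ) : tr n f i = 0 := if_neg (by omega)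

theorem mem_Box {n : ℕ} {N f : ℕ → ℕ} :
    f ∈ Box n N ↔ (∀ i < n, f i < N (i / 2)) ∧ ∀ i, n ≤ i → f i = 0 := by
  classical
  simp only [Box, mem_image, Fintype.mem_piFinset, mem_range]
  constructor
  · rintro ⟨g, hg, rfl⟩
    exact ⟨fun i hi => by simpa [hi] using hg ⟨i, hi⟩, fun i hi => dif_neg (by omega)⟩
  · rintro ⟨h1, h2⟩
    refine ⟨fun i => f i, fun i => h1 i i.2, funext fun i => ?_⟩
    split_ifs with h
    · rfl
    · exact (h2 i (by omega)).symm

theorem Box_ext {n : ℕ} {N N' f g : ℕ → ℕ} (hf : f ∈ Box n N) (hg : g ∈ Box n N')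
    (h : ∀ i < n, f i = g i) : f = g := by
  funext i
  by_cases hi : i < n
  · exact h i hi
  · rw [(mem_Box.1 hf).2 i (by omega), (mem_Box.1 hg).2 i (by omega)]

theorem tr_mem_Box {n : ℕ} {N f : ℕ → ℕ} (h : ∀ i < n, f i < N (i / 2)) : tr n f ∈ Box n N :=
  mem_Box.2 ⟨fun i hi => by rw [tr_lt hi]; exact h i hi, fun _ hi => tr_ge hi f⟩

theorem card_Box (n : ℕ) (N : ℕ → ℕ) : (Box n N).card = ∏ i ∈ range n, N (i / 2) := by
  classical
  rw [Box, card_image_of_injective, Fintype.card_piFinset]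
  · simp only [card_range]
    exact Fin.prod_univ_eq_prod_range (fun i => N (i / 2)) n
  · intro g g' h
    funext i
    have := congrFun h i
    simpa using this

end Pool.Agent.P.MP_d5a1e1_nt.TB
end

-- part Pool.Agent.P.MP_d5a1e1_nt.T3Defs
section

/-! Definitions for the thin basis with exponent close to two thirds. -/

namespace Pool.Agent.P.MP_d5a1e1_nt.T3

open Finset TB

noncomputable section

scoped instance decFun : DecidableEq (ℕ → ℕ) := Classical.decEq _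

/-! ### Parameters -/

/-- The free parameter of the construction. -/
class Kap where
  κ : ℕ
  big : 200 ≤ κ

def cw (x : ℕ) : ℝ := (Nat.centralBinom x : ℝ) / 4 ^ x

@[ext] structure Cell where
  k : ℕ
  i : ℕ
  η : ℕ
  x : ℕ → ℕ
  z : ℕ

scoped instance decCell : DecidableEq Cell := Classical.decEq _

@[ext] structure Tup where
  i : ℕ
  i' : ℕ
  yb : ℕ → ℕ
  η : ℕ
  η' : ℕ
  o₀ : ℕ
  o₁ : ℕ

scoped instance decTup : DecidableEq Tup := Classical.decEq _

@[irreducible] def ka [K : Kap] : ℕ := K.κ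

variable [Kap]

/-- The base of the merge counter. -/
@[irreducible] def CC : ℕ := 2 ^ (2 * ka)
def LL (u : ℕ) : ℕ := Nat.log CC u + 1
def yy (u : ℕ) : ℕ := 2 ^ LL u
def tau (u : ℕ) : ℕ := CC ^ LL u
def gr (u : ℕ) : ℕ := Nat.log 2 (LL u)
def TT (g : ℕ) : ℕ := CC ^ 2 ^ (g + 1)
def bb (g : ℕ) : ℕ := TT g ^ 4
@[irreducible] def ga (g : ℕ) : ℕ := ka * 2 ^ (g + 7)
/-- The largest label digit in group `g`. -/
def cap (g : ℕ) : ℕ := 32 * bb g * ga g
def Ru (u : ℕ) : ℕ := cap (gr u)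
def DD (u : ℕ) : ℕ := 16 * Ru u
/-- The number of units below `k` in group `g`. -/
def nn (k g : ℕ) : ℕ := #{u ∈ range k | gr u = g}
/-- The budget of group `g` at state `k`. -/
def RR (k g : ℕ) : ℕ := 32 * bb g * nn k g
def sg (u : ℕ) : ℕ := yy u ^ (4 * ka + 12)
/-- The prime of epoch `L`. -/
@[irreducible] def pe (L : ℕ) : ℕ :=
  (Nat.exists_prime_lt_and_le_two_mul (2 ^ (2 ^ L) ^ (4 * ka + 12)) (by positivity)).choose
def pp (u : ℕ) : ℕ := pe (LL u)
def BB (u : ℕ) : ℕ := DD u * pp u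
def WW (i : ℕ) : ℕ := ∏ s ∈ range i, BB (s / 2)
def Del (k : ℕ) : ℕ := ∏ u ∈ range k, DD u
def Om (k : ℕ) : ℝ := ∏ g ∈ range (gr k + 1), cw (nn k g)
def ph (k : ℕ) : ℝ := ∏ g ∈ range (gr k + 1), ((RR k g + nn k g).choose (nn k g) : ℝ)
def lam (k : ℕ) : ℝ := √((yy k : ℝ) ^ (2 * ka + 4) * Om k)
def Gb (k : ℕ) : ℝ := yy k * Om k
def Lam (k : ℕ) : ℕ := yy k ^ (2 * ka + 8)
def rho (k : ℕ) : ℕ := ⌈√((yy k : ℝ) ^ (2 * ka + 10) / Om k)⌉₊
def gg (k : ℕ) : ℕ := 600 * yy k ^ (4 * ka + 19)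
def HH (k : ℕ) : ℕ := 2 ^ (4 * yy k ^ (2 * ka + 1))
def XB (k : ℕ) : ℕ := 2 ^ (3 * yy k ^ (2 * ka + 1))
def ZZ (k : ℕ) : ℕ := 5 * BB k ^ 2 * BB (k + 1)
def MM (k : ℕ) : ℕ := 18 ^ (3 * LL k + 1) * (27 * (CC + 1) ^ CC) ^ 2
def EE (k : ℕ) : ℕ := (9 * (k + 1)) ^ k
@[irreducible] def d0 : ℕ := 40 * 2 ^ (4 * ka + 12)
@[irreducible] def k0 : ℕ := CC ^ (100 * ka)

/-! ### Digit vectors -/

def vl (n : ℕ) (f : ℕ → ℕ) : ℕ := ∑ i ∈ range n, WW i * f i
def dig (n i : ℕ) : ℕ := n / WW i % BB (i / 2)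
/-- The coarse digits of `n` below `2 j`. -/
def gd (j n : ℕ) : ℕ → ℕ := tr (2 * j) fun i => dig n i / pp (i / 2)
/-- `g - ξ - ξ'` modulo the coarse radices. -/
def ym (j : ℕ) (g ξ ξ' : ℕ → ℕ) : ℕ → ℕ :=
  tr (2 * j) fun i => (g i + 2 * DD (i / 2) - ξ i - ξ' i) % DD (i / 2)
/-- The carry into digit `i`. -/
def gam (j : ℕ) (g ξ ξ' : ℕ → ℕ) : ℕ → ℕ
  | 0 => 0
  | i + 1 => (ym j g ξ ξ' i + ξ i + ξ' i - g i) / DD (i / 2)
/-- The lower part of an element. -/
def lo (n : ℕ) (d ξ x : ℕ → ℕ) : ℕ := vl n fun s => d s + pp (s / 2) * (ξ s + x s)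

/-- The fine points. -/
structure Fine (Pt : ℕ → Finset (ℕ → ℕ)) : Prop where
  box : ∀ k, Pt k ⊆ Box (2 * k) pp
  cover : ∀ k (γ r : ℕ → ℕ), ∃ d ∈ Pt k, ∃ d' ∈ Pt k,
    ∀ i < 2 * k, d i + d' i + γ i ≡ r i [MOD pp (i / 2)]
  near : ∀ j k, k = j ∨ k = j + 1 → ∀ (γ r : ℕ → ℕ) (Z : Finset (ℕ → ℕ)),
    (∀ e ∈ Z, ∃ d ∈ Pt j, ∃ d' ∈ Pt k, e = tr (2 * j) d' ∧
      ∀ i < 2 * j, d i + d' i + γ i ≡ r i [MOD pp (i / 2)]) → Z.card ≤ MM j
  top : ∀ k v (Z : Finset ℕ),
    (∀ u ∈ Z, ∃ d ∈ Pt (k + 1), d (2 * k) = u ∧ d (2 * k + 1) = v) → Z.card ≤ 6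
  far : ∀ j k, j < k → ∀ (r : ℕ → ℕ) (Z : Finset (ℕ → ℕ)),
    (∀ d' ∈ Z, d' ∈ Pt k ∧ (∃ d ∈ Pt j, ∀ i < 2 * j, d i + d' i = r i) ∧
      ∀ u, j ≤ u → u < k → d' (2 * u + 1) = r (2 * u + 1)) → Z.card ≤ EE k

/-! ### Labels -/

def gsum (n g : ℕ) (x : ℕ → ℕ) : ℕ := ∑ i ∈ range n with gr (i / 2) = g, x i
open Classical in
/-- The labels: capped digits, group sums in a shell below the budget. -/
def XX (k : ℕ) : Finset (ℕ → ℕ) :=
  (Box (2 * k) fun u => Ru u + 1).filter fun x =>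
    ∀ g, gsum (2 * k) g x ≤ RR k g ∧ RR k g ≤ gsum (2 * k) g x + cap g
open Classical in
/-- The labels that stay labels after subtracting carries. -/
def XM (k : ℕ) : Finset (ℕ → ℕ) :=
  (XX k).filter fun x => (∀ i < 2 * k, 2 ≤ x i) ∧
    ∀ g, RR k g + 4 * TT g ≤ gsum (2 * k) g x + cap g
open Classical in
def SS (k : ℕ) : Finset (ℕ → ℕ) :=
  (Box (2 * k) DD).filter fun y => ∀ g, gsum (2 * k) g y ≤ 2 * RR k g + 32 * bb g + 4 * TT g
def ff (k : ℕ) (x : ℕ → ℕ) : ℝ := ∏ i ∈ range (2 * k), cw (x i)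
open Classical in
def GG (j k : ℕ) (y : ℕ → ℕ) : ℝ := ∑ x ∈ XX j, ∑ x' ∈ XX k,
  if ∀ i < 2 * j, x i + x' i = y i then ff j x * ff k x' else 0
open Classical in
def Gm (k : ℕ) (y : ℕ → ℕ) : ℝ := ∑ x ∈ XX k, ∑ x' ∈ XM k,
  if ∀ i < 2 * k, x i + x' i = y i then ff k x * ff k x' else 0
/-- The number of types. -/
def mm (k : ℕ) : ℕ := ⌈lam k * Del k / ph k⌉₊

/-- The types: `ξ k i` is type `i` of state `k`. -/
structure Types (ξ : ℕ → ℕ → ℕ → ℕ) : Prop where
  box : ∀ k, k0 ≤ k → ∀ i < mm k, ξ k i ∈ Box (2 * k) DD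
  deg : ∀ j k, k0 ≤ k → k = j ∨ k = j + 1 → ∀ g ∈ Box (2 * j) DD, ∀ ξ₀ : ℕ → ℕ,
    (∀ s < 2 * j, ξ₀ s < DD (s / 2)) →
    #{i ∈ range (mm k) | ym j g ξ₀ (ξ k i) ∈ SS j} ≤ yy k
  list : ∀ j k, k0 ≤ j → k = j ∨ k = j + 1 → ∀ g ∈ Box (2 * j) DD,
    #{q ∈ range (mm j) ×ˢ range (mm k) | ym j g (ξ j q.1) (ξ k q.2) ∈ SS j} ≤ Lam k
  low : ∀ k, k0 ≤ k → ∀ g ∈ Box (2 * k) DD, lam k ^ 2 / 64 ≤
    ∑ q ∈ range (mm k) ×ˢ range (mm k), Gm k (ym k g (ξ k q.1) (ξ k q.2))

/-! ### Cells and frames -/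

def cells (k : ℕ) : Finset Cell :=
  (range (mm k) ×ˢ range (HH k) ×ˢ XX k ×ˢ Ico (BB k) (ZZ k)).image
    fun q => ⟨k, q.1, q.2.1, q.2.2.1, q.2.2.2⟩

/-- The probability of a cell. -/
def qq (c : Cell) : ℝ := min 1 (rho c.k * ff c.k c.x * cw c.z)

def tups (j k : ℕ) : Finset Tup :=
  (range (mm j) ×ˢ range (mm k) ×ˢ Box (2 * j) DD ×ˢ range (HH j) ×ˢ range (HH k) ×ˢ
    range (DD j) ×ˢ range (DD j)).image
    fun q => ⟨q.1, q.2.1, q.2.2.1, q.2.2.2.1, q.2.2.2.2.1, q.2.2.2.2.2.1, q.2.2.2.2.2.2⟩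

/-- A frame. -/
structure Fr (j k N : ℕ) (P : Finset Tup) : Prop where
  lt : N < 2 ^ (11 * sg (j + 2))
  sub : P ⊆ tups j k
  card : P.card ≤ Lam k
  one : ∀ t ∈ P, ∀ t' ∈ P, t.i = t'.i → t.i' = t'.i' → t = t'
  out : ∀ i, #{t ∈ P | t.i = i} ≤ yy k
  inn : ∀ i', #{t ∈ P | t.i' = i'} ≤ yy k

/-- The cells `c`, `c'` fit the tuple `t` in the lower digits. -/
def Fit (j k : ℕ) (t : Tup) (c c' : Cell) : Prop :=
  c ∈ cells j ∧ c' ∈ cells k ∧ c.i = t.i ∧ c'.i = t.i' ∧ c.η = t.η ∧ c'.η = t.η' ∧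
    ∀ s < 2 * j, c.x s + c'.x s = t.yb s

/-- An edge inside state `k`. -/
def Ed0 (k N : ℕ) (P : Finset Tup) (c c' : Cell) : Prop :=
  ∃ t ∈ P, Fit k k t c c' ∧ c.z + c'.z = N ∧ c.z < c'.z

/-- An edge between the states `j` and `j + 1`. -/
def Ed1 (Pt : ℕ → Finset (ℕ → ℕ)) (j N : ℕ) (P : Finset Tup) (c c' : Cell) : Prop :=
  ∃ t ∈ P, Fit j (j + 1) t c c' ∧ ∃ d ∈ Pt (j + 1),
    c.z + (d (2 * j) + pp j * (t.o₀ + c'.x (2 * j))) +
      BB j * (d (2 * j + 1) + pp j * (t.o₁ + c'.x (2 * j + 1))) + BB j ^ 2 * c'.z = N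

/-- An element of state `k` with fine point `d` and cell `c`. -/
def el (ξ : ℕ → ℕ → ℕ → ℕ) (d : ℕ → ℕ) (c : Cell) : ℕ :=
  lo (2 * c.k) d (ξ c.k c.i) c.x + WW (2 * c.k) * c.z

def K0 (K : Set Cell) (k : ℕ) : Prop :=
  ∀ N P, Fr k k N P →
    ∀ Z : Finset (Cell × Cell), (∀ e ∈ Z, e.1 ∈ K ∧ e.2 ∈ K ∧ Ed0 k N P e.1 e.2) → Z.card < gg k

def K1 (Pt : ℕ → Finset (ℕ → ℕ)) (K : Set Cell) (j : ℕ) : Prop :=
  ∀ N P, Fr j (j + 1) N P →
    ∀ Z : Finset (Cell × Cell), (∀ e ∈ Z, e.1 ∈ K ∧ e.2 ∈ K ∧ Ed1 Pt j N P e.1 e.2) →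
      Z.card < gg (j + 1)

def KC (K : Set Cell) (k : ℕ) : Prop :=
  ∀ N P, Fr k k N P → lam k ^ 2 / 192 ≤ ∑ t ∈ P, GG k k t.yb → 4 * BB k ≤ N → N < ZZ k →
    ∃ c ∈ K, ∃ c' ∈ K, Ed0 k N P c c'

def KA (K : Set Cell) (k : ℕ) : Prop :=
  ∀ z (Z : Finset Cell), (∀ c ∈ Z, c ∈ K ∧ c ∈ cells k ∧ c.z = z) → Z.card < d0

/-- `d'` completes an element of state `j` to the sum `n`. -/
def Cand (Pt : ℕ → Finset (ℕ → ℕ)) (ξ : ℕ → ℕ → ℕ → ℕ) (K : Set Cell)
    (h : ℕ → (ℕ → ℕ) → ℕ) (j k n : ℕ) (d' : ℕ → ℕ) : Prop :=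
  d' ∈ Pt k ∧ ∃ d ∈ Pt j, ∃ c ∈ K, c ∈ cells j ∧ c.η = h j (tr (2 * j - 2) d) ∧
    el ξ d c + vl (2 * k) d' = n

def KF (Pt : ℕ → Finset (ℕ → ℕ)) (ξ : ℕ → ℕ → ℕ → ℕ) (K : Set Cell)
    (h : ℕ → (ℕ → ℕ) → ℕ) (j k : ℕ) : Prop :=
  ∀ n < 2 * WW (2 * k), ∀ Z : Finset (ℕ → ℕ), (∀ d' ∈ Z, Cand Pt ξ K h j k n d') →
    Z.card ≤ EE k * (72 * 2 ^ yy j ^ (2 * ka + 1) + 5 * k * sg k)

structure Good (Pt : ℕ → Finset (ℕ → ℕ)) (ξ : ℕ → ℕ → ℕ → ℕ) (K : Set Cell)
    (h : ℕ → (ℕ → ℕ) → ℕ) : Prop where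
  k0' : ∀ k, k0 ≤ k → K0 K k
  k1 : ∀ j, k0 ≤ j → K1 Pt K j
  kc : ∀ k, k0 ≤ k → KC K k
  ka : ∀ k, k0 ≤ k → KA K k
  kf : ∀ j k, k0 ≤ j → j + 2 ≤ k → KF Pt ξ K h j k

/-- `f` spreads the candidates of state `k`. -/
def Spread (Pt : ℕ → Finset (ℕ → ℕ)) (ξ : ℕ → ℕ → ℕ → ℕ) (K : Set Cell)
    (h : ℕ → (ℕ → ℕ) → ℕ) (k : ℕ) (f : (ℕ → ℕ) → ℕ) : Prop :=
  ∀ n < 2 * WW (2 * k), ∀ η (Z : Finset (ℕ → ℕ)),
    (∀ e ∈ Z, f e = η ∧ ∃ d', e = tr (2 * k - 2) d' ∧
      ∃ j, k0 ≤ j ∧ j + 2 ≤ k ∧ Cand Pt ξ K h j k n d') → Z.card < sg k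

/-- The hash functions. -/
structure Hash (Pt : ℕ → Finset (ℕ → ℕ)) (ξ : ℕ → ℕ → ℕ → ℕ) (K : Set Cell)
    (h : ℕ → (ℕ → ℕ) → ℕ) : Prop where
  lt : ∀ k e, h k e < HH k
  few : ∀ k, k0 ≤ k → Spread Pt ξ K h k (h k)

/-- All the data of the construction. -/
structure Data where
  Pt : ℕ → Finset (ℕ → ℕ)
  ξ : ℕ → ℕ → ℕ → ℕ
  K : Set Cell
  h : ℕ → (ℕ → ℕ) → ℕ
  fine : Fine Pt
  types : Types ξ
  good : Good Pt ξ K h
  hash : Hash Pt ξ K h

/-- `(d, c)` is a valid description of an element of state `k`. -/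
def Data.Ok (D : Data) (k : ℕ) (d : ℕ → ℕ) (c : Cell) : Prop :=
  d ∈ D.Pt k ∧ c ∈ D.K ∧ c ∈ cells k ∧ c.η = D.h k (tr (2 * k - 2) d)

/-- The elements of state `k`. -/
def Data.A (D : Data) (k : ℕ) : Set ℕ := {a | ∃ d c, D.Ok k d c ∧ a = el D.ξ d c}

end

end Pool.Agent.P.MP_d5a1e1_nt.T3
end

-- part Pool.Agent.P.MP_d5a1e1_nt.T3Par
section

/-! Elementary facts on the parameters. -/

namespace Pool.Agent.P.MP_d5a1e1_nt.T3

open Finset TB

variable [Kap]

theorem ka_big : 200 ≤ ka := by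
  unfold ka
  exact Kap.big

theorem CC_eq : CC = 2 ^ (2 * ka) := by
  unfold CC
  rfl

theorem CC_ge : 32 ≤ CC := by
  rw [CC_eq]
  exact Nat.pow_le_pow_right (n := 2) (i := 5) (by norm_num) (by have := ka_big; omega)

theorem LL_pos (u : ℕ) : 1 ≤ LL u := Nat.le_add_left _ _

theorem yy_ge (u : ℕ) : 2 ≤ yy u := Nat.le_self_pow (by have := LL_pos u; omega) 2

theorem tau_eq (u : ℕ) : tau u = yy u ^ (2 * ka) := by
  rw [tau, yy, CC_eq, pow_right_comm]

theorem lt_tau (u : ℕ) : u < tau u := Nat.lt_pow_succ_log_self (by have := CC_ge; omega) u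

theorem CC_le_tau (u : ℕ) : CC ≤ tau u := Nat.le_self_pow (by have := LL_pos u; omega) CC

theorem LL_mono : Monotone LL := fun _ _ h => Nat.succ_le_succ (Nat.log_mono_right h)

theorem yy_mono : Monotone yy := fun _ _ h => Nat.pow_le_pow_right (by norm_num) (LL_mono h)

theorem tau_mono : Monotone tau := fun _ _ h =>
  Nat.pow_le_pow_right (by have := CC_ge; omega) (LL_mono h)

theorem gr_mono : Monotone gr := fun _ _ h => Nat.log_mono_right (LL_mono h)

theorem TT_mono : Monotone TT := fun _ _ h => Nat.pow_le_pow_right (by have := CC_ge; omega)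
  (Nat.pow_le_pow_right (by norm_num) (Nat.succ_le_succ h))

theorem bb_mono : Monotone bb := fun _ _ h => Nat.pow_le_pow_left (TT_mono h) 4

theorem ga_eq (g : ℕ) : ga g = ka * 2 ^ (g + 7) := by
  unfold ga
  rfl

theorem ga_mono : Monotone ga := fun _ _ h => by
  rw [ga_eq, ga_eq]
  exact Nat.mul_le_mul_left _ (Nat.pow_le_pow_right (by norm_num) (Nat.add_le_add_right h 7))

theorem cap_mono : Monotone cap := fun _ _ h =>
  Nat.mul_le_mul (Nat.mul_le_mul_left 32 (bb_mono h)) (ga_mono h)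

theorem Ru_mono : Monotone Ru := fun _ _ h => cap_mono (gr_mono h)

theorem DD_mono : Monotone DD := fun _ _ h => Nat.mul_le_mul_left 16 (Ru_mono h)

theorem sg_mono : Monotone sg := fun _ _ h => Nat.pow_le_pow_left (yy_mono h) _

theorem T3Par_pe (L : ℕ) : (pe L).Prime ∧ 2 ^ (2 ^ L) ^ (4 * ka + 12) < pe L ∧
    pe L ≤ 2 * 2 ^ (2 ^ L) ^ (4 * ka + 12) := by
  unfold pe
  exact Exists.choose_spec (p := fun p => Nat.Prime p ∧ 2 ^ (2 ^ L) ^ (4 * ka + 12) < p ∧
    p ≤ 2 * 2 ^ (2 ^ L) ^ (4 * ka + 12)) _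

theorem pp_mono : Monotone pp := fun a b h => by
  rcases (LL_mono h).eq_or_lt with e | e
  · exact (congrArg pe e).le
  · have h1 : (2 ^ LL a) ^ (4 * ka + 12) < (2 ^ LL b) ^ (4 * ka + 12) :=
      Nat.pow_lt_pow_left (Nat.pow_lt_pow_right (by norm_num) e) (by omega)
    have h2 := (T3Par_pe (LL a)).2.2
    rw [← pow_succ'] at h2
    exact (h2.trans (Nat.pow_le_pow_right (by norm_num) h1)).trans (T3Par_pe (LL b)).2.1.le

theorem BB_mono : Monotone BB := fun _ _ h => Nat.mul_le_mul (DD_mono h) (pp_mono h)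

theorem HH_mono : Monotone HH := fun _ _ h => Nat.pow_le_pow_right (by norm_num)
  (Nat.mul_le_mul_left 4 (Nat.pow_le_pow_left (yy_mono h) _))

theorem MM_mono : Monotone MM := fun _ _ h => Nat.mul_le_mul_right _ (Nat.pow_le_pow_right (by norm_num)
  (Nat.succ_le_succ (Nat.mul_le_mul_left 3 (LL_mono h))))

theorem gg_mono : Monotone gg := fun _ _ h => Nat.mul_le_mul_left 600 (Nat.pow_le_pow_left (yy_mono h) _)

theorem T3Par_yy {k m : ℕ} (hk : 1 ≤ k) (h : m ≤ k * CC) : yy m ≤ 2 * yy k := by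
  have h1 := Nat.log_mono_right (b := CC) h
  rw [Nat.log_mul_base (by have := CC_ge; omega) (by omega)] at h1
  rw [yy, yy, ← pow_succ']
  exact Nat.pow_le_pow_right (by norm_num) (Nat.succ_le_succ h1)

theorem yy_add_two {k : ℕ} (hk : 1 ≤ k) : yy (k + 2) ≤ 2 * yy k :=
  T3Par_yy hk (by have := Nat.mul_le_mul_left k CC_ge; omega)

theorem sg_add_two {k : ℕ} (hk : 1 ≤ k) : sg (k + 2) ≤ 2 ^ (4 * ka + 12) * sg k := by
  rw [sg, sg, ← mul_pow]
  exact Nat.pow_le_pow_left (yy_add_two hk) _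

theorem pe_prime (L : ℕ) : (pe L).Prime := (T3Par_pe L).1

theorem pp_prime (u : ℕ) : (pp u).Prime := pe_prime _

theorem pp_gt (u : ℕ) : 2 ^ sg u < pp u := (T3Par_pe (LL u)).2.1

theorem pp_le (u : ℕ) : pp u ≤ 2 ^ (sg u + 1) := by
  rw [pow_succ']
  exact (T3Par_pe (LL u)).2.2

theorem pp_sys (u : ℕ) : 2 ^ (CC ^ (Nat.log CC u + 1)) ^ 2 < pp u := by
  refine lt_of_le_of_lt (Nat.pow_le_pow_right (by norm_num) ?_) (pp_gt u)
  change tau u ^ 2 ≤ _
  rw [tau_eq, ← pow_mul]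
  exact Nat.pow_le_pow_right (by have := yy_ge u; omega) (by omega)

theorem gr_lt (u : ℕ) : gr u + 1 ≤ LL u := Nat.log_lt_self 2 (by have := LL_pos u; omega)

theorem CC_le_TT (g : ℕ) : CC ^ 2 ≤ TT g := Nat.pow_le_pow_right (by have := CC_ge; omega)
  (Nat.le_self_pow (by omega) 2)

theorem tau_le_TT (u : ℕ) : tau u ≤ TT (gr u) := Nat.pow_le_pow_right (by have := CC_ge; omega)
  (Nat.lt_pow_succ_log_self (by norm_num) _).le

theorem TT_le (u : ℕ) : TT (gr u) ≤ tau u ^ 2 := by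
  rw [TT, tau, ← pow_mul, pow_succ]
  exact Nat.pow_le_pow_right (by have := CC_ge; omega) (Nat.mul_le_mul_right 2
    (Nat.pow_log_le_self 2 (by have := LL_pos u; omega)))

theorem prod_TT_le (u : ℕ) : ∏ g ∈ range (gr u), TT g ≤ tau u ^ 2 := by
  refine le_trans ?_ (TT_le u)
  induction gr u with
  | zero => exact Nat.one_le_pow _ _ (by have := CC_ge; omega)
  | succ n ih =>
    rw [prod_range_succ, show TT (n + 1) = TT n * TT n by
      rw [TT, TT, ← pow_add, pow_succ 2 (n + 1), mul_two]]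
    exact Nat.mul_le_mul_right _ ih

theorem sum_inv_TT (n : ℕ) : ∑ g ∈ range n, (1 : ℝ) / TT g ≤ 1 / 128 := by
  have h : ∀ g, (1 : ℝ) / TT g ≤ 1 / 2 ^ (g + 8) := fun g => by
    have h1 : g + 1 < 2 ^ (g + 1) := Nat.lt_two_pow_self
    have h2 : 2 ^ (g + 8) ≤ TT g := by
      refine le_trans ?_ (Nat.pow_le_pow_left CC_ge _)
      rw [show 32 = 2 ^ 5 by norm_num, ← pow_mul]
      exact Nat.pow_le_pow_right (by norm_num) (by omega)
    exact one_div_le_one_div_of_le (by positivity) (by exact_mod_cast h2)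
  have key : ∑ g ∈ range n, (1 : ℝ) / TT g ≤ 1 / 128 - 1 / 2 ^ (n + 7) := by
    induction n with
    | zero => norm_num
    | succ n ih =>
      have h3 : (1 : ℝ) / 2 ^ (n + 7) = 2 * (1 / 2 ^ (n + 8)) := by
        rw [pow_succ _ (n + 7)]
        field_simp
      have := h n
      rw [sum_range_succ, show n + 1 + 7 = n + 8 by omega]
      linarith
  have : (0 : ℝ) ≤ 1 / 2 ^ (n + 7) := by positivity
  linarith

theorem TT_pos (g : ℕ) : 0 < TT g := Nat.pow_pos (by have := CC_ge; omega)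

theorem TT_big (g : ℕ) : 1024 ≤ TT g :=
  le_trans (Nat.pow_le_pow_left CC_ge 2) (CC_le_TT g)

theorem bb_pos (g : ℕ) : 0 < bb g := Nat.pow_pos (TT_pos g)

theorem ga_big (g : ℕ) : 128 ≤ ga g := by
  have h1 : 2 ^ 7 ≤ 2 ^ (g + 7) := Nat.pow_le_pow_right (by norm_num) (by omega)
  have h2 := Nat.mul_le_mul (show 1 ≤ ka by have := ka_big; omega) h1
  rw [ga_eq]
  exact le_trans (by norm_num) h2

theorem two_pow_ga (g : ℕ) : 2 ^ ga g = TT g ^ 32 := by
  rw [TT, CC_eq, ← pow_mul, ← pow_mul, ga_eq]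
  congr 1
  ring

theorem two_pow_gr (u : ℕ) : 2 ^ gr u ≤ LL u :=
  Nat.pow_log_le_self 2 (by have := LL_pos u; omega)

theorem ga_le (u : ℕ) : ga (gr u) ≤ 128 * ka * LL u := by
  rw [ga_eq, pow_add]
  have := Nat.mul_le_mul_left (128 * ka) (two_pow_gr u)
  nlinarith

theorem two_LL_le (u : ℕ) : 2 * LL u ≤ yy u := by
  obtain ⟨m, hm⟩ := Nat.exists_eq_add_of_le' (LL_pos u)
  have : m < 2 ^ m := Nat.lt_two_pow_self
  rw [yy, hm, pow_succ]
  omega

theorem Ru_ge (u : ℕ) : yy u ^ (8 * ka) ≤ Ru u := by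
  rw [show 8 * ka = 2 * ka * 4 by ring, pow_mul, ← tau_eq]
  refine (Nat.pow_le_pow_left (tau_le_TT u) 4).trans ?_
  have := ga_big (gr u)
  exact (Nat.le_mul_of_pos_left _ (by norm_num)).trans (Nat.le_mul_of_pos_right _ (by omega))

theorem pp_pos (u : ℕ) : 0 < pp u := (pp_prime u).pos

theorem T3Par_sg (u : ℕ) : 32 * ka * yy u ≤ sg u := by
  rw [sg, pow_succ]
  refine Nat.mul_le_mul_right _ (le_trans ?_ (Nat.pow_le_pow_left (yy_ge u) _))
  have h1 : ka < 2 ^ ka := Nat.lt_two_pow_self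
  have h2 : 2 ^ (ka + 5) ≤ 2 ^ (4 * ka + 11) := Nat.pow_le_pow_right (by norm_num) (by omega)
  rw [pow_add] at h2
  omega

theorem sg_big (u : ℕ) : 6400 * yy u ≤ sg u :=
  (Nat.mul_le_mul_right _ (by have := ka_big; omega)).trans (T3Par_sg u)

theorem pp_big (u : ℕ) : 2304 ≤ pp u := by
  have h1 := sg_big u
  have h2 := yy_ge u
  exact le_trans (le_trans (by norm_num) (Nat.pow_le_pow_right (n := 2) (i := 12) (by norm_num)
    (by omega))) (pp_gt u).le

theorem Ru_pos (u : ℕ) : 1 ≤ Ru u := (Nat.one_le_pow _ _ (by have := yy_ge u; omega)).trans (Ru_ge u)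

theorem BB_pos (u : ℕ) : 0 < BB u := Nat.mul_pos (Nat.mul_pos (by norm_num) (Ru_pos u)) (pp_pos u)

theorem DD_pos (u : ℕ) : 0 < DD u := Nat.mul_pos (by norm_num) (Ru_pos u)

theorem DD_le (u : ℕ) : DD u ≤ 2 ^ (20 * ka * LL u) := by
  have h1 : bb (gr u) ≤ 2 ^ (16 * (ka * LL u)) := by
    refine (Nat.pow_le_pow_left (TT_le u) 4).trans (le_of_eq ?_)
    rw [tau_eq, yy, ← pow_mul, ← pow_mul, ← pow_mul]
    congr 1
    ring
  have h2 : 200 ≤ ka * LL u := ka_big.trans (Nat.le_mul_of_pos_right _ (LL_pos u))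
  have h3 : ka * LL u < 2 ^ (ka * LL u) := Nat.lt_two_pow_self
  have h4 : ga (gr u) ≤ 2 ^ 7 * 2 ^ (ka * LL u) := by
    have := ga_le u
    rw [mul_assoc] at this
    omega
  have h5 : DD u ≤ 2 ^ 4 * (2 ^ 5 * 2 ^ (16 * (ka * LL u)) * (2 ^ 7 * 2 ^ (ka * LL u))) :=
    Nat.mul_le_mul_left 16 (Nat.mul_le_mul (Nat.mul_le_mul_left 32 h1) h4)
  refine h5.trans ?_
  simp only [← pow_add]
  rw [mul_assoc 20]
  exact Nat.pow_le_pow_right (by norm_num) (by omega)

theorem BB_gt (u : ℕ) : 16 * 2 ^ sg u < BB u :=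
  Nat.mul_lt_mul_of_le_of_lt (Nat.le_mul_of_pos_right 16 (Ru_pos u)) (pp_gt u) (DD_pos u)

theorem BB_le (u : ℕ) : BB u ≤ 2 ^ (2 * sg u) := by
  have h1 := T3Par_sg u
  have h2 : LL u < yy u := Nat.lt_two_pow_self
  refine (Nat.mul_le_mul (DD_le u) (pp_le u)).trans ?_
  rw [← pow_add]
  have h3 := Nat.mul_le_mul_left (20 * ka) h2
  have h4 := ka_big
  exact Nat.pow_le_pow_right (by norm_num) (by nlinarith)

theorem WW_zero : WW 0 = 1 := rfl

theorem WW_succ (i : ℕ) : WW (i + 1) = WW i * BB (i / 2) := prod_range_succ _ _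

theorem WW_pos (i : ℕ) : 0 < WW i := prod_pos fun _ _ => BB_pos _

theorem WW_odd (k : ℕ) : WW (2 * k + 1) = WW (2 * k) * BB k := by
  rw [WW_succ, Nat.mul_div_cancel_left k (by norm_num)]

theorem WW_even (k : ℕ) : WW (2 * k + 2) = WW (2 * k) * BB k ^ 2 := by
  rw [WW_succ, WW_odd, show (2 * k + 1) / 2 = k by omega, mul_assoc, sq]

theorem WW_three (k : ℕ) : WW (2 * k + 3) = WW (2 * k) * (BB k ^ 2 * BB (k + 1)) := by
  rw [WW_succ, WW_even, show (2 * k + 2) / 2 = k + 1 by omega, mul_assoc]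

theorem WW_step (i : ℕ) : 16 * WW i ≤ WW (i + 1) := by
  have h1 := BB_gt (i / 2)
  have h2 : 0 < 2 ^ sg (i / 2) := by positivity
  rw [WW_succ, mul_comm]
  exact Nat.mul_le_mul_left _ (by omega)

theorem WW_mono : Monotone WW := monotone_nat_of_le_succ fun i => by
  have := WW_step i
  omega

theorem WW_le (k : ℕ) : WW (2 * k) ≤ 2 ^ (4 * k * sg k) := by
  refine (prod_le_pow_card _ _ (2 ^ (2 * sg k)) fun s hs => (BB_mono ?_).trans (BB_le k)).trans
    (le_of_eq ?_)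
  · have := mem_range.1 hs
    omega
  · rw [card_range, ← pow_mul]
    congr 1
    ring

theorem Del_pos (k : ℕ) : 0 < Del k := prod_pos fun _ _ => DD_pos _

theorem Del_succ (k : ℕ) : Del (k + 1) = Del k * DD k := prod_range_succ _ _

theorem LL_big {k : ℕ} (hk : k0 ≤ k) : 100 * ka + 1 ≤ LL k := by
  have h1 : 1 < CC := lt_of_lt_of_le (by norm_num) CC_ge
  have h2 : 100 * ka ≤ Nat.log CC k := by
    refine Nat.le_log_of_pow_le h1 ?_
    unfold k0 at hk
    exact hk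
  unfold LL
  omega

theorem yy_big {k : ℕ} (hk : k0 ≤ k) : 2 ^ (20 * ka) * LL k ≤ yy k := by
  obtain ⟨m, hm⟩ := Nat.exists_eq_add_of_le (LL_big hk)
  have h1 : m + 80 * ka < 2 ^ (m + 80 * ka) := Nat.lt_two_pow_self
  rw [yy, show LL k = 20 * ka + (m + 80 * ka + 1) by omega, pow_add 2 (20 * ka),
    pow_succ 2 (m + 80 * ka)]
  exact Nat.mul_le_mul_left _ (by omega)

theorem yy_big' {k : ℕ} (hk : k0 ≤ k) : 32768 * ka * LL k ≤ yy k := by
  refine (Nat.mul_le_mul_right _ ?_).trans (yy_big hk)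
  have h1 : ka < 2 ^ ka := Nat.lt_two_pow_self
  have h2 : 2 ^ (ka + 15) ≤ 2 ^ (20 * ka) :=
    Nat.pow_le_pow_right (by norm_num) (by have := ka_big; omega)
  rw [pow_add] at h2
  omega

theorem T3Par_big {k : ℕ} (hk : k0 ≤ k) : 32768 * LL k ≤ yy k :=
  (Nat.mul_le_mul_right _ (Nat.le_mul_of_pos_right _ (by have := ka_big; omega))).trans (yy_big' hk)

theorem T3Par_div (k : ℕ) : yy k / 2 = 2 ^ Nat.log CC k := by
  rw [yy, LL, pow_succ, Nat.mul_div_cancel _ (by norm_num)]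

theorem T3Par_half {k : ℕ} (hk : k0 ≤ k) : (yy k / 2) ^ (2 * ka) ≤ k := by
  have h1 := LL_big hk
  rw [T3Par_div, pow_right_comm, ← CC_eq]
  refine Nat.pow_log_le_self _ ?_
  rintro rfl
  have := ka_big
  simp [LL] at h1
  omega

theorem yy_le {k : ℕ} (hk : k0 ≤ k) : yy k ^ (2 * ka - 1) ≤ k := by
  have h1 := LL_big hk
  refine le_trans ?_ (T3Par_half hk)
  rw [T3Par_div, yy, ← pow_mul, ← pow_mul]
  unfold LL at h1 ⊢
  refine Nat.pow_le_pow_right (by norm_num) ?_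
  obtain ⟨m, hm⟩ : ∃ m, 2 * ka = m + 1 := ⟨2 * ka - 1, by have := ka_big; omega⟩
  rw [hm, Nat.add_sub_cancel]
  nlinarith

theorem Del_le {k : ℕ} (hk : k0 ≤ k) : Del k ^ 4 ≤ 2 ^ yy k ^ (2 * ka + 1) := by
  have h1 : Del k ≤ (2 ^ (20 * ka * LL k)) ^ k := by
    have := prod_le_pow_card (range k) DD (2 ^ (20 * ka * LL k)) fun u hu =>
      (DD_mono (mem_range.1 hu).le).trans (DD_le k)
    rwa [card_range] at this
  refine (Nat.pow_le_pow_left h1 4).trans ?_
  rw [← pow_mul, ← pow_mul]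
  refine Nat.pow_le_pow_right (by norm_num) ?_
  have h2 := Nat.mul_le_mul (yy_big' hk) (lt_tau k).le
  rw [tau_eq, ← pow_succ'] at h2
  refine le_trans ?_ h2
  nlinarith [Nat.zero_le (ka * LL k * k)]

theorem EE_le {k : ℕ} (hk : k0 ≤ k) : EE k ≤ 2 ^ yy k ^ (2 * ka + 1) := by
  have h1 := yy_big' hk
  have h0 := ka_big
  have h2 := LL_pos k
  have h3 := lt_tau k
  have h4 : 9 * (k + 1) ≤ 2 ^ yy k := by
    have h5 : 2 ^ 4 * tau k ≤ 2 ^ yy k := by
      rw [tau_eq, yy, ← pow_mul, ← pow_add]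
      exact Nat.pow_le_pow_right (by norm_num) (by rw [yy] at h1; nlinarith)
    omega
  refine (Nat.pow_le_pow_left h4 k).trans ?_
  rw [← pow_mul, pow_succ' _ (2 * ka), ← tau_eq]
  exact Nat.pow_le_pow_right (by norm_num) (Nat.mul_le_mul_left _ h3.le)

theorem WW_ge {k : ℕ} (hk : k0 ≤ k) : 2 ^ (yy k / 2) ^ (6 * ka + 12) ≤ WW (2 * k) := by
  have h0 := T3Par_half hk
  have h1 := LL_big hk
  have h2 : 2 ≤ k := by
    refine le_trans ?_ h0
    rw [T3Par_div, ← pow_mul]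
    exact Nat.le_self_pow (Nat.mul_ne_zero (by unfold LL at h1; have := ka_big; omega)
      (by have := ka_big; omega)) 2
  have h3 : yy k ≤ 2 * yy (k / 2) :=
    T3Par_yy (by omega) (by have := Nat.mul_le_mul_left (k / 2) CC_ge; omega)
  have h4 : (yy k / 2) ^ (4 * ka + 12) ≤ sg (k / 2) := Nat.pow_le_pow_left (by omega) _
  have h5 : (2 ^ sg (k / 2)) ^ (Ico k (2 * k)).card ≤ ∏ s ∈ Ico k (2 * k), BB (s / 2) :=
    pow_card_le_prod _ _ _ fun s hs => by
      have h6 := BB_gt (k / 2)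
      have h7 := BB_mono (Nat.div_le_div_right (c := 2) (mem_Ico.1 hs).1)
      omega
  rw [Nat.card_Ico, show 2 * k - k = k by omega, ← pow_mul] at h5
  rw [show 6 * ka + 12 = 4 * ka + 12 + 2 * ka by ring, pow_add]
  refine (Nat.pow_le_pow_right (by norm_num) (Nat.mul_le_mul h4 h0)).trans (h5.trans ?_)
  exact prod_le_prod_of_subset_of_one_le' (fun s hs => mem_range.2 (mem_Ico.1 hs).2)
    fun s _ _ => BB_pos _

theorem MM_le : ∃ K : ℕ, ∀ k, MM k ≤ K * yy k ^ 13 := by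
  refine ⟨18 * (27 * (CC + 1) ^ CC) ^ 2, fun k => ?_⟩
  rw [MM, mul_right_comm]
  refine Nat.mul_le_mul_right _ ?_
  rw [pow_succ', pow_mul, yy, pow_right_comm 2]
  exact Nat.mul_le_mul_left _ (Nat.pow_le_pow_left (by norm_num) _)

theorem card_group (k g : ℕ) : #{u ∈ range k | gr u = g} ≤ TT g := by
  refine (card_le_card fun u hu => mem_range.2 ?_).trans (card_range _).le
  rw [← (mem_filter.1 hu).2]
  exact (lt_tau u).trans_le (tau_le_TT u)

theorem card_group_digit (k g : ℕ) :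
    #{i ∈ range (2 * k) | gr (i / 2) = g} = 2 * #{u ∈ range k | gr u = g} := by
  rw [card_filter, card_filter]
  induction k with
  | zero => rfl
  | succ k ih =>
    rw [mul_add, mul_one, sum_range_succ, sum_range_succ, sum_range_succ, ih,
      show (2 * k + 1) / 2 = k by omega, show 2 * k / 2 = k by omega]
    ring

theorem nn_le (k g : ℕ) : nn k g ≤ TT g := card_group k g

theorem nn_le_self (k g : ℕ) : nn k g ≤ k := (card_filter_le _ _).trans (card_range k).le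

theorem nn_succ (k g : ℕ) : nn (k + 1) g = nn k g + if gr k = g then 1 else 0 := by
  simp only [nn, card_filter, sum_range_succ]

theorem nn_zero {k g : ℕ} (h : gr k < g) : nn k g = 0 := by
  rw [nn, card_eq_zero, filter_eq_empty_iff]
  intro u hu e
  have := gr_mono (mem_range.1 hu).le
  omega

theorem four_pow_gr (u : ℕ) : 4 ^ (gr u + 1) ≤ yy u ^ 2 := by
  rw [show 4 = 2 ^ 2 by norm_num, pow_right_comm, pow_succ' 2 (gr u)]
  exact Nat.pow_le_pow_left ((Nat.mul_le_mul_left 2 (two_pow_gr u)).trans (two_LL_le u)) 2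

theorem T3Par_quad {G : ℕ} (h : 14 ≤ G) : (G + 1) * (4 * G + 25) ≤ 2 ^ G := by
  induction G, h using Nat.le_induction with
  | base => norm_num
  | succ G h ih =>
    rw [pow_succ]
    nlinarith

theorem prod_ga_le {k : ℕ} (hk : k0 ≤ k) : ∏ g ∈ range (gr k + 1), 512 * ga g ^ 2 ≤ yy k := by
  have h0 := LL_big hk
  have h1 := ka_big
  have h2 : LL k < 2 ^ (gr k + 1) := Nat.lt_pow_succ_log_self (by norm_num) _
  have h3 : 14 ≤ gr k := by
    by_contra h
    have : 2 ^ (gr k + 1) ≤ 2 ^ 14 := Nat.pow_le_pow_right (by norm_num) (by omega)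
    omega
  have h4 : ∀ g ∈ range (gr k + 1), 512 * ga g ^ 2 ≤ 2 ^ (4 * gr k + 25) := fun g hg => by
    have h5 : ga g ≤ 2 ^ (gr k + 1) * 2 ^ (gr k + 7) :=
      (ga_mono (Nat.lt_succ_iff.1 (mem_range.1 hg))).trans
        ((ga_eq _).trans_le (Nat.mul_le_mul_right _ (by omega)))
    refine (Nat.mul_le_mul_left 512 (Nat.pow_le_pow_left h5 2)).trans (le_of_eq ?_)
    rw [show 512 = 2 ^ 9 by norm_num, ← pow_add, ← pow_mul, ← pow_add]
    congr 1
    ring
  refine (prod_le_pow_card _ _ _ h4).trans ?_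
  rw [card_range, ← pow_mul, mul_comm]
  exact Nat.pow_le_pow_right (by norm_num) ((T3Par_quad h3).trans (two_pow_gr k))

theorem ga_small {k : ℕ} (hk : k0 ≤ k) : 256 * ga (gr k) ≤ yy k := by
  have h1 := ga_le k
  have h2 := yy_big' hk
  rw [mul_assoc] at h1 h2
  omega

theorem k0_pos : 1 ≤ k0 := by
  unfold k0
  exact Nat.pow_pos (by have := CC_ge; omega)

theorem d0_eq : d0 = 40 * 2 ^ (4 * ka + 12) := by
  unfold d0
  rfl

end Pool.Agent.P.MP_d5a1e1_nt.T3
end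

-- part Pool.Agent.P.MP_d5a1e1_nt.T3Box
section

/-! Boxes of digit vectors. -/

namespace Pool.Agent.P.MP_d5a1e1_nt.T3

open Finset TB

variable [Kap]

theorem tr_tr {m n : ℕ} (h : m ≤ n) (f : ℕ → ℕ) : tr m (tr n f) = tr m f := by
  funext i
  by_cases hi : i < m
  · rw [tr_lt hi, tr_lt hi, tr_lt (by omega)]
  · rw [tr_ge (by omega), tr_ge (by omega)]

theorem tr_eq_self {n : ℕ} {N f : ℕ → ℕ} (h : f ∈ Box n N) : tr n f = f := by
  funext i
  by_cases hi : i < n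
  · exact tr_lt hi f
  · rw [tr_ge (by omega), (mem_Box.1 h).2 i (by omega)]

theorem box_upd {n : ℕ} {N f : ℕ → ℕ} (hf : f ∈ Box (n + 1) N) :
    Function.update (tr n f) n (f n) = f := by
  funext i
  by_cases hn : i = n
  · subst hn
    exact Function.update_self ..
  · rw [Function.update_of_ne hn]
    by_cases hi : i < n
    · exact tr_lt hi f
    · rw [tr_ge (by omega), (mem_Box.1 hf).2 i (by omega)]

theorem sum_Box_succ (n : ℕ) (N : ℕ → ℕ) (F : (ℕ → ℕ) → ℝ) :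
    ∑ f ∈ Box (n + 1) N, F f = ∑ f ∈ Box n N, ∑ m ∈ range (N (n / 2)), F (Function.update f n m) := by
  rw [← sum_product' (f := fun f m => F (Function.update f n m))]
  refine sum_nbij' (fun f => (tr n f, f n)) (fun q => Function.update q.1 n q.2) ?_ ?_ ?_ ?_ ?_
  · intro f hf
    have h := mem_Box.1 hf
    exact mem_product.2 ⟨tr_mem_Box fun i hi => h.1 i (by omega), mem_range.2 (h.1 n (by omega))⟩
  · rintro ⟨f, m⟩ hq
    obtain ⟨hf, hm⟩ := mem_product.1 hq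
    have h := mem_Box.1 hf
    refine mem_Box.2 ⟨fun i hi => ?_, fun i hi => ?_⟩
    · by_cases hn : i = n
      · subst hn
        rw [Function.update_self]
        exact mem_range.1 hm
      · rw [Function.update_of_ne hn]
        exact h.1 i (by omega)
    · rw [Function.update_of_ne (by omega)]
      exact h.2 i (by omega)
  · intro f hf
    exact box_upd hf
  · rintro ⟨f, m⟩ hq
    obtain ⟨hf, -⟩ := mem_product.1 hq
    refine Prod.ext ?_ (Function.update_self ..)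
    funext i
    change tr n (Function.update f n m) i = f i
    by_cases hi : i < n
    · rw [tr_lt hi, Function.update_of_ne (by omega)]
    · rw [tr_ge (by omega)]
      exact ((mem_Box.1 hf).2 i (by omega)).symm
  · intro f hf
    rw [box_upd hf]

theorem card_Gam (k : ℕ) : (Box (2 * k) DD).card = Del k ^ 2 := by
  rw [card_Box]
  induction k with
  | zero => simp [Del]
  | succ k ih =>
    rw [show 2 * (k + 1) = 2 * k + 1 + 1 by ring, prod_range_succ, prod_range_succ, ih, Del_succ,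
      show 2 * k / 2 = k by omega, show (2 * k + 1) / 2 = k by omega]
    ring

theorem ym_comm (j : ℕ) (g ξ ξ' : ℕ → ℕ) : ym j g ξ ξ' = ym j g ξ' ξ := by
  unfold ym
  congr 1
  funext i
  rw [Nat.sub_right_comm]

theorem ym_mem (j : ℕ) (g ξ ξ' : ℕ → ℕ) : ym j g ξ ξ' ∈ Box (2 * j) DD :=
  tr_mem_Box fun _ _ => Nat.mod_lt _ (DD_pos _)

theorem gd_mem (j n : ℕ) : gd j n ∈ Box (2 * j) DD :=
  tr_mem_Box fun i _ => by
    rw [Nat.div_lt_iff_lt_mul (pp_pos _)]
    exact Nat.mod_lt _ (BB_pos _)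

theorem box_shift {D g a b : ℕ} (ha : a < D) (hb : b < D) :
    (g + 2 * D - a - b) % D = ((g + 2 * D - a - 0) % D + 2 * D - 0 - b) % D := by
  have h1 : (g + 2 * D - a - 0) % D + 2 * D - 0 - b = (g + 2 * D - a - 0) % D + (2 * D - b) := by
    omega
  have h2 : g + 2 * D - a - 0 + (2 * D - b) = g + 2 * D - a - b + D + D := by omega
  rw [h1, Nat.mod_add_mod, h2, Nat.add_mod_right, Nat.add_mod_right]

/-- Shifting the first point into the target. -/
theorem ym_shift (j : ℕ) {g ξ ξ' : ℕ → ℕ} (hξ : ∀ s < 2 * j, ξ s < DD (s / 2))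
    (hξ' : ∀ s < 2 * j, ξ' s < DD (s / 2)) :
    ym j g ξ ξ' = ym j (ym j g ξ fun _ => 0) (fun _ => 0) ξ' := by
  funext i
  by_cases hi : i < 2 * j
  · simp only [ym, tr_lt hi]
    exact box_shift (hξ i hi) (hξ' i hi)
  · simp only [ym, tr_ge (Nat.not_lt.1 hi)]

theorem tr_ym {j k : ℕ} (h : j ≤ k) (g ξ ξ' : ℕ → ℕ) :
    tr (2 * j) (ym k g ξ ξ') = ym j (tr (2 * j) g) ξ ξ' := by
  funext i
  by_cases hi : i < 2 * j
  · simp only [ym, tr_lt hi, tr_lt (show i < 2 * k by omega)]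
  · simp only [ym, tr_ge (Nat.not_lt.1 hi)]

theorem ym_congr (j : ℕ) (g ξ₀ : ℕ → ℕ) {ξ ξ' : ℕ → ℕ} (h : ∀ i < 2 * j, ξ i = ξ' i) :
    ym j g ξ₀ ξ = ym j g ξ₀ ξ' := by
  funext i
  by_cases hi : i < 2 * j
  · simp only [ym, tr_lt hi, h i hi]
  · simp only [ym, tr_ge (Nat.not_lt.1 hi)]

theorem box_inv {D g a b : ℕ} (ha : a < D) (hb : b < D) :
    (g + 2 * D - a - (g + 2 * D - a - b) % D) % D = b := by
  have h1 := Nat.div_add_mod (g + 2 * D - a - b) D
  have h2 : g + 2 * D - a - (g + 2 * D - a - b) % D = b + D * ((g + 2 * D - a - b) / D) := by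
    omega
  rw [h2, Nat.add_mul_mod_self_left, Nat.mod_eq_of_lt hb]

theorem ym_ym (j : ℕ) (g : ℕ → ℕ) {ξ₀ ξ : ℕ → ℕ} (hξ : ∀ s < 2 * j, ξ₀ s < DD (s / 2))
    (h : ξ ∈ Box (2 * j) DD) : ym j g ξ₀ (ym j g ξ₀ ξ) = ξ := by
  refine Box_ext (ym_mem ..) h fun i hi => ?_
  simp only [ym, tr_lt hi]
  exact box_inv (hξ i hi) ((mem_Box.1 h).1 i hi)

theorem box_drop (n : ℕ) (N : ℕ → ℕ) (G : (ℕ → ℕ) → ℝ)
    (hG : ∀ f m, G (Function.update f n m) = G f) :
    ∑ f ∈ Box (n + 1) N, G f = N (n / 2) * ∑ f ∈ Box n N, G f := by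
  rw [sum_Box_succ, mul_sum]
  refine sum_congr rfl fun f _ => ?_
  simp only [hG, sum_const, card_range, nsmul_eq_mul]

/-- Translation invariance. -/
theorem sum_ym {j k : ℕ} (h : j ≤ k) (g : ℕ → ℕ) {ξ₀ : ℕ → ℕ} (hξ : ∀ s < 2 * j, ξ₀ s < DD (s / 2))
    (F : (ℕ → ℕ) → ℝ) :
    (∑ ξ ∈ Box (2 * k) DD, F (ym j g ξ₀ ξ)) * (Del j : ℝ) ^ 2 =
      (Del k : ℝ) ^ 2 * ∑ y ∈ Box (2 * j) DD, F y := by
  induction k, h using Nat.le_induction with
  | base =>
    rw [mul_comm]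
    congr 1
    exact sum_nbij' (ym j g ξ₀) (ym j g ξ₀) (fun _ _ => ym_mem ..) (fun _ _ => ym_mem ..)
      (fun _ h => ym_ym j g hξ h) (fun _ h => ym_ym j g hξ h) fun _ _ => rfl
  | succ k hk ih =>
    have hu : ∀ n, 2 * j ≤ n → ∀ f m, F (ym j g ξ₀ (Function.update f n m)) = F (ym j g ξ₀ f) :=
      fun n hn f m => congrArg F (ym_congr j g ξ₀ fun i hi => Function.update_of_ne (by omega) ..)
    rw [show 2 * (k + 1) = 2 * k + 1 + 1 by ring, box_drop _ _ _ (hu _ (by omega)),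
      box_drop _ _ _ (hu _ (by omega)), show 2 * k / 2 = k by omega,
      show (2 * k + 1) / 2 = k by omega, Del_succ, mul_assoc, mul_assoc, ih]
    push_cast
    ring

theorem box_two {D g a b : ℕ} (ha : a < D) (hb : b < D)
    (h : (g + 2 * D - a - a) % D = (g + 2 * D - b - b) % D) (h2 : 2 * a / D = 2 * b / D) :
    a = b := by
  have h3 : g + 2 * D - a - a + (2 * a + 2 * b) ≡ g + 2 * D - b - b + (2 * a + 2 * b) [MOD D] :=
    Nat.ModEq.add_right _ h
  rw [show g + 2 * D - a - a + (2 * a + 2 * b) = g + 2 * D + 2 * b by omega,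
    show g + 2 * D - b - b + (2 * a + 2 * b) = g + 2 * D + 2 * a by omega] at h3
  have h4 : 2 * b % D = 2 * a % D := Nat.ModEq.add_left_cancel' _ h3
  have h5 := Nat.div_add_mod (2 * a) D
  have h6 := Nat.div_add_mod (2 * b) D
  rw [h2] at h5
  omega

/-- Doubling is at most two to one in every digit. -/
theorem card_diag (k : ℕ) (g : ℕ → ℕ) (S : Finset (ℕ → ℕ)) :
    #{ξ ∈ Box (2 * k) DD | ym k g ξ ξ ∈ S} ≤ 4 ^ k * S.card := by
  refine card_le_mul_card_image_of_maps_to (f := fun ξ => ym k g ξ ξ)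
    (fun ξ hξ => (mem_filter.1 hξ).2) _ fun y _ => ?_
  have hc : (Box (2 * k) fun _ => 2).card = 4 ^ k := by
    rw [card_Box, prod_const, card_range, pow_mul]
    norm_num
  rw [← hc]
  refine card_le_card_of_injOn (fun ξ => tr (2 * k) fun i => 2 * ξ i / DD (i / 2)) ?_ ?_
  · intro ξ hξ
    have h := (mem_filter.1 (mem_filter.1 (mem_coe.1 hξ)).1).1
    refine mem_coe.2 (tr_mem_Box fun i hi => ?_)
    have := (mem_Box.1 h).1 i hi
    rw [Nat.div_lt_iff_lt_mul (DD_pos _)]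
    omega
  · intro ξ hξ ξ' hξ' he
    have h := mem_filter.1 (mem_coe.1 hξ)
    have h' := mem_filter.1 (mem_coe.1 hξ')
    have b := (mem_filter.1 h.1).1
    have b' := (mem_filter.1 h'.1).1
    refine Box_ext b b' fun i hi => ?_
    have e1 := congrFun (h.2.trans h'.2.symm) i
    have e2 := congrFun he i
    simp only [ym, tr_lt hi] at e1 e2
    exact box_two ((mem_Box.1 b).1 i hi) ((mem_Box.1 b').1 i hi) e1 e2

end Pool.Agent.P.MP_d5a1e1_nt.T3
end

-- part Pool.Agent.P.MP_d5a1e1_nt.TBW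
section

/-! Generalised binomial coefficients and the weights `C(2x,x) / 4 ^ x`. -/

namespace Pool.Agent.P.MP_d5a1e1_nt.TB.Lab

open Finset

/-- The coefficient of `x ^ h` in `(1 - x) ^ (-s)`. -/
noncomputable def nb (s : ℝ) : ℕ → ℝ
  | 0 => 1
  | h + 1 => nb s h * (s + h) / (h + 1)

/-- The weight `C(2x,x) / 4 ^ x`. -/
noncomputable def cw (x : ℕ) : ℝ := nb (1 / 2) x

theorem nb_zero (s : ℝ) : nb s 0 = 1 := rfl

theorem nb_succ (s : ℝ) (h : ℕ) : ((h : ℝ) + 1) * nb s (h + 1) = (s + h) * nb s h := by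
  have : (h : ℝ) + 1 ≠ 0 := by positivity
  rw [nb]
  field_simp

theorem nb_pos {s : ℝ} (hs : 0 < s) (h : ℕ) : 0 < nb s h := by
  induction h with
  | zero => exact one_pos
  | succ h ih => rw [nb]; positivity

theorem nb_one (h : ℕ) : nb 1 h = 1 := by
  induction h with
  | zero => rfl
  | succ h ih =>
    have : (h : ℝ) + 1 ≠ 0 := by positivity
    rw [nb, ih]
    field_simp
    ring

/-- Vandermonde's identity. -/
theorem nb_conv (s t : ℝ) (h : ℕ) :
    ∑ p ∈ antidiagonal h, nb s p.1 * nb t p.2 = nb (s + t) h := by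
  induction h with
  | zero => simp [nb]
  | succ h ih =>
    have h0 : (h : ℝ) + 1 ≠ 0 := by positivity
    refine mul_left_cancel₀ h0 ?_
    have e1 : ∑ p ∈ antidiagonal (h + 1), (p.1 : ℝ) * nb s p.1 * nb t p.2 =
        ∑ p ∈ antidiagonal h, (s + p.1) * nb s p.1 * nb t p.2 := by
      rw [Nat.sum_antidiagonal_succ]
      simp only [Nat.cast_zero, zero_mul, zero_add, Nat.cast_add, Nat.cast_one, nb_succ]
    have e2 : ∑ p ∈ antidiagonal (h + 1), nb s p.1 * ((p.2 : ℝ) * nb t p.2) =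
        ∑ p ∈ antidiagonal h, nb s p.1 * ((t + p.2) * nb t p.2) := by
      rw [Nat.sum_antidiagonal_succ']
      simp only [Nat.cast_zero, zero_mul, mul_zero, zero_add, Nat.cast_add, Nat.cast_one, nb_succ]
    rw [nb_succ, ← ih, mul_sum, mul_sum]
    calc _ = ∑ p ∈ antidiagonal (h + 1),
          ((p.1 : ℝ) * nb s p.1 * nb t p.2 + nb s p.1 * ((p.2 : ℝ) * nb t p.2)) := by
          refine sum_congr rfl fun p hp => ?_
          have : (p.1 : ℝ) + p.2 = h + 1 := by exact_mod_cast mem_antidiagonal.1 hp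
          rw [← this]
          ring
      _ = _ := by
          rw [sum_add_distrib, e1, e2, ← sum_add_distrib]
          refine sum_congr rfl fun p hp => ?_
          have : (p.1 : ℝ) + p.2 = h := by exact_mod_cast mem_antidiagonal.1 hp
          rw [← this]
          ring

theorem nb_nat (n h : ℕ) : nb (n + 1) h = (h + n).choose n := by
  induction h with
  | zero => simp [nb]
  | succ h ih =>
    have h0 : (h : ℝ) + 1 ≠ 0 := by positivity
    refine mul_left_cancel₀ h0 ?_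
    rw [nb_succ, ih]
    have e := Nat.choose_mul_succ_eq (h + n) n
    have e2 : h + n + 1 - n = h + 1 := by omega
    rw [e2] at e
    have e3 : ((h + n).choose n : ℝ) * (h + n + 1) = (h + n + 1).choose n * (h + 1) := by
      exact_mod_cast e
    rw [show h + 1 + n = h + n + 1 by ring]
    linarith

theorem nb_mono_right {s : ℝ} (hs : 1 ≤ s) : Monotone (nb s) := by
  refine monotone_nat_of_le_succ fun h => ?_
  have h0 : (0 : ℝ) < h + 1 := by positivity
  refine le_of_mul_le_mul_left ?_ h0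
  rw [nb_succ]
  exact mul_le_mul_of_nonneg_right (by linarith) (nb_pos (by linarith) h).le

/-- Half a step in `s` multiplies by at least `sqrt ((s + h) / s)`. -/
theorem nb_half_sq {s : ℝ} (hs : 0 < s) (h : ℕ) :
    nb s h ^ 2 * (s + h) ≤ nb (s + 1 / 2) h ^ 2 * s := by
  induction h with
  | zero => simp [nb]
  | succ h ih =>
    have h0 : (0 : ℝ) < ((h : ℝ) + 1) ^ 2 := by positivity
    refine le_of_mul_le_mul_left ?_ h0
    have e1 : ((h : ℝ) + 1) ^ 2 * (nb s (h + 1) ^ 2 * (s + (h + 1 : ℕ))) =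
        (nb s h ^ 2 * (s + h)) * ((s + h) * (s + h + 1)) := by
      rw [← mul_assoc, ← mul_pow, nb_succ]
      push_cast
      ring
    have e2 : ((h : ℝ) + 1) ^ 2 * (nb (s + 1 / 2) (h + 1) ^ 2 * s) =
        (nb (s + 1 / 2) h ^ 2 * s) * (s + 1 / 2 + h) ^ 2 := by
      rw [← mul_assoc, ← mul_pow, nb_succ]
      ring
    rw [e1, e2]
    exact mul_le_mul ih (by nlinarith) (by positivity) (by positivity)

theorem cw_zero : cw 0 = 1 := rfl

theorem cw_one : cw 1 = 1 / 2 := by norm_num [cw, nb]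

theorem cw_pos (x : ℕ) : 0 < cw x := nb_pos (by norm_num) x

/-- W1. -/
theorem cw_succ (x : ℕ) : ((x : ℝ) + 1) * cw (x + 1) = (1 / 2 + x) * cw x := nb_succ _ x

/-- W2. -/
theorem cw_conv (n : ℕ) : ∑ p ∈ antidiagonal n, cw p.1 * cw p.2 = 1 := by
  unfold cw
  rw [nb_conv, add_halves, nb_one]

theorem cw_conv_range (n : ℕ) : ∑ a ∈ range (n + 1), cw a * cw (n - a) = 1 := by
  rw [← cw_conv n, Nat.sum_antidiagonal_eq_sum_range_succ_mk]

theorem cw_anti : Antitone cw := by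
  refine antitone_nat_of_succ_le fun h => ?_
  have h0 : (0 : ℝ) < h + 1 := by positivity
  refine le_of_mul_le_mul_left ?_ h0
  rw [cw_succ]
  exact mul_le_mul_of_nonneg_right (by linarith) (cw_pos h).le

theorem cw_le_one (x : ℕ) : cw x ≤ 1 := cw_anti (Nat.zero_le x)

/-- W3, upper bound. -/
theorem cw_sq_le (x : ℕ) : cw x ^ 2 * (2 * x + 1) ≤ 1 := by
  have := nb_half_sq (s := 1 / 2) (by norm_num) x
  rw [add_halves, nb_one] at this
  unfold cw
  linarith

/-- W3, lower bound. -/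
theorem le_cw_sq {x : ℕ} (hx : 1 ≤ x) : 1 ≤ cw x ^ 2 * (4 * x) := by
  induction x, hx using Nat.le_induction with
  | base => norm_num [cw_one]
  | succ x hx ih =>
    have h0 : (0 : ℝ) < ((x : ℝ) + 1) ^ 2 := by positivity
    refine le_of_mul_le_mul_left ?_ h0
    have e1 : ((x : ℝ) + 1) ^ 2 * (cw (x + 1) ^ 2 * (4 * (x + 1 : ℕ))) =
        cw x ^ 2 * ((1 / 2 + x) ^ 2 * (4 * (x + 1))) := by
      rw [← mul_assoc, ← mul_pow, cw_succ]
      push_cast
      ring
    have e2 : cw x ^ 2 * (4 * x * (x + 1) ^ 2) ≤ cw x ^ 2 * ((1 / 2 + x) ^ 2 * (4 * (x + 1))) :=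
      mul_le_mul_of_nonneg_left (by nlinarith [Nat.cast_nonneg (α := ℝ) x]) (sq_nonneg _)
    rw [e1]
    nlinarith [mul_le_mul_of_nonneg_right ih h0.le]

theorem cw_eq (x : ℕ) : cw x = x.centralBinom / 4 ^ x := by
  induction x with
  | zero => simp [cw_zero]
  | succ x ih =>
    have h0 : (x : ℝ) + 1 ≠ 0 := by positivity
    refine mul_left_cancel₀ h0 ?_
    have e : ((x : ℝ) + 1) * (x + 1).centralBinom = 2 * (2 * x + 1) * x.centralBinom := by
      exact_mod_cast Nat.succ_mul_centralBinom_succ x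
    rw [cw_succ, ih, ← mul_div_assoc, ← mul_div_assoc, e, pow_succ]
    field_simp
    ring

/-- Partial sums of the weights. -/
theorem sum_cw_le (n : ℕ) : (∑ x ∈ range n, cw x) ^ 2 ≤ 2 * n := by
  have key : ∀ n : ℕ, ∑ x ∈ range n, cw x = 2 * n * cw n := by
    intro n
    induction n with
    | zero => simp
    | succ n ih =>
      rw [sum_range_succ, ih]
      have := cw_succ n
      push_cast
      linarith
  rw [key]
  have h1 := cw_sq_le n
  have h2 : (0 : ℝ) ≤ n := Nat.cast_nonneg n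
  nlinarith [mul_le_mul_of_nonneg_left h1 h2, mul_nonneg h2 (sq_nonneg (cw n))]

end Pool.Agent.P.MP_d5a1e1_nt.TB.Lab
end

-- part Pool.Agent.P.MP_d5a1e1_nt.TBJ
section

/-! Sums of the weights `cw` over the top digits. -/

namespace Pool.Agent.P.MP_d5a1e1_nt.TB.Lab

open Finset

/-- A set of top digit pairs: at most six `u` for each `v`. -/
structure TopOK (p : ℕ) (T : Finset (ℕ × ℕ)) : Prop where
  lt : ∀ q ∈ T, q.1 < p ∧ q.2 < p
  six : ∀ v, #{q ∈ T | q.2 = v} ≤ 6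

theorem TopOK.sum_le {p : ℕ} {T : Finset (ℕ × ℕ)} (h : TopOK p T) (g : ℕ → ℝ)
    (hg : ∀ v, 0 ≤ g v) : ∑ q ∈ T, g q.2 ≤ 6 * ∑ v ∈ range p, g v := by
  rw [← sum_fiberwise_of_maps_to (g := Prod.snd) (t := range p)
    (fun q hq => mem_range.2 (h.lt q hq).2), mul_sum]
  refine sum_le_sum fun v _ => ?_
  rw [sum_congr rfl (fun q hq => by rw [(mem_filter.1 hq).2] :
    ∀ q ∈ {q ∈ T | q.2 = v}, g q.2 = g v), sum_const, nsmul_eq_mul]
  exact mul_le_mul_of_nonneg_right (by exact_mod_cast h.six v) (hg v)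

theorem TopOK.card_le {p : ℕ} {T : Finset (ℕ × ℕ)} (h : TopOK p T) : T.card ≤ 6 * p := by
  have := h.sum_le (fun _ => 1) (fun _ => zero_le_one)
  simp only [sum_const, card_range, nsmul_eq_mul, mul_one] at this
  exact_mod_cast this

theorem cw_le_inv_sqrt {B z : ℕ} (hB : 0 < B) (h : B ≤ z) : cw z ≤ 1 / √(2 * B) := by
  have h1 := cw_sq_le z
  have hB' : (0 : ℝ) < B := by exact_mod_cast hB
  have hz : (B : ℝ) ≤ z := by exact_mod_cast h
  rw [le_div_iff₀ (Real.sqrt_pos.2 (by positivity))]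
  apply le_of_sq_le_sq _ zero_le_one
  rw [mul_pow, Real.sq_sqrt (by positivity)]
  nlinarith [sq_nonneg (cw z)]

/-- Scaling of the weights. -/
theorem cw_scale {B m z : ℕ} (hB : 0 < B) (hm : 1 ≤ m) (h : B * m ≤ z) :
    cw z ≤ √(2 / B) * cw m := by
  have h1 := cw_sq_le z
  have h2 := le_cw_sq hm
  have hB' : (0 : ℝ) < B := by exact_mod_cast hB
  have hm' : (1 : ℝ) ≤ m := by exact_mod_cast hm
  have hz : (B : ℝ) * m ≤ z := by exact_mod_cast h
  apply le_of_sq_le_sq _ (mul_nonneg (Real.sqrt_nonneg _) (cw_pos m).le)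
  rw [mul_pow, Real.sq_sqrt (by positivity), div_mul_eq_mul_div, le_div_iff₀ hB']
  have h3 : cw z ^ 2 * (2 * (B * m)) ≤ 1 := by nlinarith [sq_nonneg (cw z)]
  have h4 : (cw z ^ 2 * B) * (2 * m) ≤ (2 * cw m ^ 2) * (2 * m) := by nlinarith
  exact le_of_mul_le_mul_right h4 (by positivity)

theorem sum_cw_le_sqrt (n : ℕ) : ∑ x ∈ range n, cw x ≤ √(2 * n) :=
  Real.le_sqrt_of_sq_le (sum_cw_le n)

theorem sum_cw_sub_le (a p : ℕ) :
    ∑ v ∈ range p, (if v < a then cw (a - 1 - v) else 0) ≤ √(2 * p) := by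
  rw [← sum_filter]
  have e : {v ∈ range p | v < a} = range (min p a) := by
    ext v; simp
  rw [e]
  calc _ ≤ ∑ v ∈ range (min p a), cw (min p a - 1 - v) :=
        sum_le_sum fun v _ => cw_anti (by omega)
    _ = ∑ v ∈ range (min p a), cw v := sum_range_reflect _ _
    _ ≤ √(2 * (min p a : ℕ)) := sum_cw_le_sqrt _
    _ ≤ √(2 * p) := by
      refine Real.sqrt_le_sqrt ?_
      have : ((min p a : ℕ) : ℝ) ≤ p := by exact_mod_cast min_le_left p a
      linarith

/-- W2 on a part of the range. -/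
theorem sum_cw_cw_le (N : ℕ) (s : Finset ℕ) (hs : ∀ z ∈ s, z ≤ N) :
    ∑ z ∈ s, cw z * cw (N - z) ≤ 1 := by
  rw [← cw_conv_range N]
  exact sum_le_sum_of_subset_of_nonneg (fun z hz => mem_range.2 (Nat.lt_succ_of_le (hs z hz)))
    fun z _ _ => (mul_pos (cw_pos _) (cw_pos _)).le

/-- J1: the weight of the children of one parent. -/
theorem TopOK.one {D p : ℕ} {T : Finset (ℕ × ℕ)} (h : TopOK p T) (hD : 0 < D) (hp : 0 < p)
    (A : ℕ) : ∑ q ∈ T with D * p + q.1 + D * p * q.2 ≤ A, cw (A - q.1 - D * p * q.2) ≤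
      12 / √D := by
  set B := D * p with hBd
  have hB : 0 < B := Nat.mul_pos hD hp
  have hpB : p ≤ B := Nat.le_mul_of_pos_left p hD
  have hD' : (0 : ℝ) < D := by exact_mod_cast hD
  have hp' : (0 : ℝ) < p := by exact_mod_cast hp
  set a := A / B with ha
  have h1 : ∑ q ∈ T with B + q.1 + B * q.2 ≤ A, cw (A - q.1 - B * q.2) ≤
      ∑ q ∈ T, √(2 / B) * (if q.2 < a then cw (a - 1 - q.2) else 0) := by
    rw [sum_filter]
    refine sum_le_sum fun q hq => ?_
    split_ifs with c1 c2 c2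
    · have hu := (h.lt q hq).1
      have hA : B * a ≤ A := Nat.mul_div_le A B
      rcases Nat.eq_zero_or_pos (a - 1 - q.2) with e | e
      · refine (cw_scale hB le_rfl (by omega)).trans ?_
        exact mul_le_mul_of_nonneg_left (cw_anti (by omega)) (Real.sqrt_nonneg _)
      · refine cw_scale hB e ?_
        obtain ⟨m, hm⟩ : ∃ m, a = m + 1 + q.2 := ⟨a - 1 - q.2, by omega⟩
        have e2 : a - 1 - q.2 = m := by omega
        have e3 : B * a = B * m + B + B * q.2 := by rw [hm]; ring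
        rw [e2]; omega
    · exfalso
      apply c2
      refine Nat.lt_of_succ_le ((Nat.le_div_iff_mul_le hB).2 ?_)
      have : q.2.succ * B = B + B * q.2 := by rw [Nat.succ_eq_add_one]; ring
      omega
    · exact mul_nonneg (Real.sqrt_nonneg _) (cw_pos _).le
    · simp
  refine h1.trans ?_
  rw [← mul_sum]
  have h2 := h.sum_le (fun v => if v < a then cw (a - 1 - v) else 0)
    (fun v => by split_ifs; exacts [(cw_pos _).le, le_rfl])
  have h3 := sum_cw_sub_le a p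
  have h4 : √(2 / (B : ℝ)) * √(2 * p) = 2 / √D := by
    rw [← Real.sqrt_mul (by positivity), hBd]
    have : (2 : ℝ) / ((D * p : ℕ) : ℝ) * (2 * p) = 2 ^ 2 / D := by
      push_cast; field_simp
    rw [this, Real.sqrt_div (by positivity), Real.sqrt_sq (by norm_num)]
  calc _ ≤ √(2 / (B : ℝ)) * (6 * √(2 * p)) :=
        mul_le_mul_of_nonneg_left (by linarith) (Real.sqrt_nonneg _)
    _ = 6 * (√(2 / (B : ℝ)) * √(2 * p)) := by ring
    _ = 12 / √D := by rw [h4]; ring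

/-- J: the weight of all pairs between two consecutive states. -/
theorem TopOK.two {D p : ℕ} {T : Finset (ℕ × ℕ)} (h : TopOK p T) (hD : 1 ≤ D) (hp : 128 ≤ p)
    (N : ℕ) (s : Finset ℕ) (hs : ∀ z ∈ s, D * p ≤ z) :
    ∑ z ∈ s, ∑ q ∈ T with D * p + q.1 + D * p * q.2 + (D * p) ^ 2 * z ≤ N,
      cw z * cw (N - q.1 - D * p * q.2 - (D * p) ^ 2 * z) ≤ 10 / D := by
  have h1 := fun A => h.one (D := D) (by omega) (by omega) A
  set B := D * p with hBd
  have hB : 0 < B := Nat.mul_pos (by omega) (by omega)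
  have hD' : (0 : ℝ) < D := by exact_mod_cast (show 0 < D by omega)
  have hp' : (128 : ℝ) ≤ p := by exact_mod_cast hp
  have hB' : (B : ℝ) = D * p := by rw [hBd]; push_cast; ring
  have hB2 : 0 < B ^ 2 := by positivity
  set n := N / B ^ 2 with hn
  have hN : B ^ 2 * n ≤ N := Nat.mul_div_le N _
  have hN' : N < B ^ 2 * (n + 1) := Nat.lt_mul_div_succ N hB2
  have hsmall : ∀ q ∈ T, q.1 + B * q.2 ≤ B ^ 2 := by
    intro q hq
    obtain ⟨a1, a2⟩ := h.lt q hq
    have b1 : p ≤ B := Nat.le_mul_of_pos_left p (by omega)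
    have b2 : B * (q.2 + 1) ≤ B * B := Nat.mul_le_mul_left B (by omega)
    rw [pow_two]
    rw [mul_add, mul_one] at b2
    omega
  set F : ℕ → ℝ := fun z => ∑ q ∈ T with B + q.1 + B * q.2 + B ^ 2 * z ≤ N,
    cw z * cw (N - q.1 - B * q.2 - B ^ 2 * z) with hF
  have hF0 : ∀ z, 0 ≤ F z := fun z => sum_nonneg fun q _ => (mul_pos (cw_pos _) (cw_pos _)).le
  -- far part
  have far : ∀ z, z + 2 ≤ n → F z ≤ 6 * √2 / D * (cw z * cw (n - 1 - z)) := by
    intro z hz
    have hsq : √(2 / ((B ^ 2 : ℕ) : ℝ)) = √2 / B := by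
      push_cast
      rw [Real.sqrt_div (by norm_num), Real.sqrt_sq (by positivity)]
    have hb : ∀ q ∈ {q ∈ T | B + q.1 + B * q.2 + B ^ 2 * z ≤ N},
        cw z * cw (N - q.1 - B * q.2 - B ^ 2 * z) ≤ √2 / B * (cw z * cw (n - 1 - z)) := by
      intro q hq
      have c1 := hsmall q (mem_filter.1 hq).1
      obtain ⟨m, hm⟩ : ∃ m, n = m + 1 + z := ⟨n - 1 - z, by omega⟩
      have e2 : n - 1 - z = m := by omega
      have e3 : B ^ 2 * n = B ^ 2 * m + B ^ 2 + B ^ 2 * z := by rw [hm]; ring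
      have c2 := cw_scale (z := N - q.1 - B * q.2 - B ^ 2 * z) hB2 (show 1 ≤ m by omega)
        (by omega)
      rw [hsq] at c2
      rw [e2, mul_left_comm]
      exact mul_le_mul_of_nonneg_left c2 (cw_pos z).le
    refine (sum_le_card_nsmul _ _ _ hb).trans ?_
    rw [nsmul_eq_mul, ← mul_assoc]
    refine mul_le_mul_of_nonneg_right ?_ (mul_pos (cw_pos _) (cw_pos _)).le
    have c3 : ((#{q ∈ T | B + q.1 + B * q.2 + B ^ 2 * z ≤ N} : ℕ) : ℝ) ≤ 6 * p := by
      exact_mod_cast (card_filter_le _ _).trans h.card_le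
    calc _ ≤ 6 * p * (√2 / B) := mul_le_mul_of_nonneg_right c3 (by positivity)
      _ = 6 * √2 / D := by rw [hB']; field_simp
  -- near part
  have near : ∀ z, B ≤ z → F z ≤ 3 / 4 / D := by
    intro z hz
    have c1 : F z ≤ cw z * (12 / √D) := by
      refine le_trans ?_ (mul_le_mul_of_nonneg_left (h1 (N - B ^ 2 * z)) (cw_pos z).le)
      rw [mul_sum, hF]
      refine le_trans (le_of_eq (sum_congr rfl fun q _ => ?_)) (sum_le_sum_of_subset_of_nonneg
        (fun q hq => ?_) fun q _ _ => (mul_pos (cw_pos _) (cw_pos _)).le)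
      · congr 2; omega
      · rw [mem_filter] at hq ⊢
        exact ⟨hq.1, by omega⟩
    have c2 := cw_le_inv_sqrt hB hz
    have c3 : 16 * √D ≤ √(2 * (B : ℝ)) := by
      apply Real.le_sqrt_of_sq_le
      rw [mul_pow, Real.sq_sqrt hD'.le, hB']
      nlinarith
    have hs0 : 0 < √(D : ℝ) := Real.sqrt_pos.2 hD'
    have c4 : cw z ≤ 1 / (16 * √D) := c2.trans (one_div_le_one_div_of_le (by positivity) c3)
    calc F z ≤ 1 / (16 * √D) * (12 / √D) :=
          c1.trans (mul_le_mul_of_nonneg_right c4 (by positivity))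
      _ = 3 / 4 / (√D * √D) := by field_simp; norm_num
      _ = 3 / 4 / D := by rw [Real.mul_self_sqrt hD'.le]
  have none : ∀ z, n < z → F z = 0 := by
    intro z hz
    refine sum_eq_zero fun q hq => ?_
    have c1 := (mem_filter.1 hq).2
    have c2 : B ^ 2 * (n + 1) ≤ B ^ 2 * z := Nat.mul_le_mul_left _ hz
    omega
  change ∑ z ∈ s, F z ≤ _
  rw [← sum_filter_add_sum_filter_not s (fun z => z + 2 ≤ n)]
  have p1 : ∑ z ∈ s with z + 2 ≤ n, F z ≤ 6 * √2 / D := by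
    refine (sum_le_sum fun z hz => far z (mem_filter.1 hz).2).trans ?_
    rw [← mul_sum]
    exact mul_le_of_le_one_right (by positivity)
      (sum_cw_cw_le (n - 1) _ fun z hz => by have := (mem_filter.1 hz).2; omega)
  have p2 : ∑ z ∈ s with ¬z + 2 ≤ n, F z ≤ 2 * (3 / 4 / D) := by
    rw [← sum_filter_add_sum_filter_not _ (fun z => n < z),
      sum_eq_zero (fun z hz => none z (mem_filter.1 hz).2), zero_add]
    refine (sum_le_card_nsmul _ _ _ fun z hz =>
      near z (hs z (mem_filter.1 (mem_filter.1 hz).1).1)).trans ?_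
    rw [nsmul_eq_mul]
    refine mul_le_mul_of_nonneg_right ?_ (by positivity)
    have : #{z ∈ {z ∈ s | ¬z + 2 ≤ n} | ¬n < z} ≤ 2 := by
      refine le_trans (card_le_card (t := {n - 1, n}) fun z hz => ?_) card_le_two
      simp only [mem_filter, mem_insert, mem_singleton] at hz ⊢
      omega
    exact_mod_cast this
  have p3 : √2 ≤ 17 / 12 := Real.sqrt_le_iff.2 ⟨by norm_num, by norm_num⟩
  have p4 : 6 * √2 / D ≤ 17 / 2 / (D : ℝ) := div_le_div_of_nonneg_right (by linarith) hD'.le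
  have p5 : (17 / 2 / D + 2 * (3 / 4 / D) : ℝ) = 10 / D := by ring
  linarith

/-- The lower bound used for covering. -/
theorem sum_cw_cw_ge {N : ℕ} (hN : 20 ≤ N) :
    1 / 10 ≤ ∑ z ∈ range N with N ≤ 4 * z ∧ 2 * z < N, cw z * cw (N - z) := by
  have hN' : (20 : ℝ) ≤ N := by exact_mod_cast hN
  have hb : ∀ z ∈ {z ∈ range N | N ≤ 4 * z ∧ 2 * z < N}, 1 / (2 * (N : ℝ)) ≤ cw z * cw (N - z) := by
    intro z hz
    obtain ⟨-, c1, c2⟩ := mem_filter.1 hz
    have d1 := le_cw_sq (show 1 ≤ z by omega)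
    have d2 := le_cw_sq (show 1 ≤ N - z by omega)
    rw [Nat.cast_sub (by omega)] at d2
    rw [div_le_iff₀ (by positivity)]
    apply le_of_sq_le_sq _ (by have := cw_pos z; have := cw_pos (N - z); positivity)
    have d3 := mul_le_mul d1 d2 zero_le_one (le_trans zero_le_one d1)
    have d4 : (4 * (z : ℝ)) * (4 * (N - z)) ≤ (2 * N) ^ 2 := by nlinarith [sq_nonneg ((N : ℝ) - 2 * z)]
    have d5 := mul_le_mul_of_nonneg_left d4 (sq_nonneg (cw z * cw (N - z)))
    nlinarith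
  refine le_trans ?_ (card_nsmul_le_sum _ _ _ hb)
  have hc : N ≤ 5 * #{z ∈ range N | N ≤ 4 * z ∧ 2 * z < N} := by
    have : Ico ((N + 3) / 4) ((N + 1) / 2) ⊆ {z ∈ range N | N ≤ 4 * z ∧ 2 * z < N} := by
      intro z hz
      simp only [mem_Ico, mem_filter, mem_range] at hz ⊢
      omega
    have := card_le_card this
    rw [Nat.card_Ico] at this
    omega
  have hc' : (N : ℝ) ≤ 5 * (#{z ∈ range N | N ≤ 4 * z ∧ 2 * z < N} : ℕ) := by exact_mod_cast hc
  rw [nsmul_eq_mul, mul_one_div, le_div_iff₀ (by positivity)]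
  linarith

end Pool.Agent.P.MP_d5a1e1_nt.TB.Lab
end

-- part Pool.Agent.P.MP_d5a1e1_nt.T3Cw
section

/-! The central binomial weights. -/

namespace Pool.Agent.P.MP_d5a1e1_nt.T3

open Finset TB

theorem cw_eq_tb : cw = TB.Lab.cw := funext fun x => (TB.Lab.cw_eq x).symm

theorem cw_zero : cw 0 = 1 := by rw [cw_eq_tb]; exact TB.Lab.cw_zero
theorem cw_pos (x : ℕ) : 0 < cw x := by rw [cw_eq_tb]; exact TB.Lab.cw_pos x
theorem cw_succ (x : ℕ) : ((x : ℝ) + 1) * cw (x + 1) = (x + 1 / 2) * cw x := by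
  rw [cw_eq_tb, TB.Lab.cw_succ, add_comm]
theorem cw_anti : Antitone cw := by rw [cw_eq_tb]; exact TB.Lab.cw_anti
theorem cw_le_one (x : ℕ) : cw x ≤ 1 := by rw [cw_eq_tb]; exact TB.Lab.cw_le_one x
theorem cw_conv (n : ℕ) : ∑ m ∈ range (n + 1), cw m * cw (n - m) = 1 := by
  rw [cw_eq_tb]; exact TB.Lab.cw_conv_range n
theorem cw_sq_le (x : ℕ) : cw x ^ 2 * (2 * x + 1) ≤ 1 := by
  rw [cw_eq_tb]; exact TB.Lab.cw_sq_le x
theorem cw_sq_ge {x : ℕ} (hx : 1 ≤ x) : 1 ≤ 4 * x * cw x ^ 2 := by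
  rw [cw_eq_tb, mul_comm]; exact TB.Lab.le_cw_sq hx
theorem cw_le_sqrt {x : ℕ} {a : ℝ} (ha : 0 < a) (hx : a ≤ x) : cw x ≤ 1 / √a := by
  have h1 := cw_sq_le x
  rw [le_div_iff₀ (Real.sqrt_pos.2 ha)]
  apply le_of_sq_le_sq _ zero_le_one
  rw [mul_pow, Real.sq_sqrt ha.le]
  nlinarith [sq_nonneg (cw x)]
theorem cw_le_two_pow {x s : ℕ} (hx : 2 ^ (2 * s) ≤ x) : cw x ≤ 1 / 2 ^ s := by
  have h := cw_le_sqrt (x := x) (a := ((2 : ℝ) ^ s) ^ 2) (by positivity)
    (by rw [← pow_mul, mul_comm]; exact_mod_cast hx)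
  rwa [Real.sqrt_sq (by positivity)] at h
theorem sum_inv_sqrt (n : ℕ) : ∑ t ∈ range n, 1 / √((t : ℝ) + 1) ≤ 2 * √n := by
  induction n with
  | zero => simp
  | succ n ih =>
    rw [sum_range_succ]
    push_cast
    have h0 : (0 : ℝ) ≤ n := Nat.cast_nonneg n
    have hb : 0 < √((n : ℝ) + 1) := Real.sqrt_pos.2 (by positivity)
    have e1 := Real.mul_self_sqrt h0
    have e2 := Real.mul_self_sqrt (show (0 : ℝ) ≤ n + 1 by positivity)
    have h3 : 1 / √((n : ℝ) + 1) ≤ 2 * √((n : ℝ) + 1) - 2 * √(n : ℝ) := by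
      rw [div_le_iff₀ hb]
      nlinarith [sq_nonneg (√((n : ℝ) + 1) - √(n : ℝ))]
    linarith
theorem conv_le (N : ℕ) (Z : Finset ℕ) (hZ : ∀ z ∈ Z, z ≤ N) :
    ∑ z ∈ Z, cw z * cw (N - z) ≤ 1 := by
  rw [cw_eq_tb]; exact TB.Lab.sum_cw_cw_le N Z hZ
theorem conv_ge {N : ℕ} (hN : 20 ≤ N) :
    1 / 10 ≤ ∑ z ∈ range N with N ≤ 4 * z ∧ 2 * z < N, cw z * cw (N - z) := by
  rw [cw_eq_tb]; exact TB.Lab.sum_cw_cw_ge hN
theorem sum_far (B : ℕ) (hB : 1 ≤ B) : ∑ t ∈ range B, 1 / √((B : ℝ) * (max 1 t : ℕ)) ≤ 3 := by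
  obtain ⟨n, rfl⟩ : ∃ n, B = n + 1 := ⟨B - 1, by omega⟩
  have h0 : (0 : ℝ) ≤ n := Nat.cast_nonneg n
  have hb : 1 ≤ √((n : ℝ) + 1) := Real.one_le_sqrt.2 (by linarith)
  have hle : √(n : ℝ) ≤ √((n : ℝ) + 1) := Real.sqrt_le_sqrt (by linarith)
  rw [sum_range_succ']
  have e : ∀ t ∈ range n, 1 / √(((n + 1 : ℕ) : ℝ) * (max 1 (t + 1) : ℕ)) =
      1 / √((n : ℝ) + 1) * (1 / √((t : ℝ) + 1)) := by
    intro t _
    rw [max_eq_right (by omega), one_div_mul_one_div, ← Real.sqrt_mul (by positivity)]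
    push_cast
    rfl
  rw [sum_congr rfl e, ← mul_sum]
  have h1 := sum_inv_sqrt n
  have h2 : 1 / √((n : ℝ) + 1) * ∑ t ∈ range n, 1 / √((t : ℝ) + 1) ≤ 2 := by
    rw [one_div_mul_eq_div, div_le_iff₀ (by linarith)]
    linarith
  have h3 : 1 / √(((n + 1 : ℕ) : ℝ) * (max 1 0 : ℕ)) ≤ 1 := by
    rw [max_eq_left (by omega)]
    push_cast
    rw [mul_one, div_le_iff₀ (by linarith)]
    linarith
  linarith
/-- The weight seen from one parent. -/
theorem top_sum {p D : ℕ} (hp : 1 ≤ p) (hD : 1 ≤ D) (T : Finset (ℕ × ℕ))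
    (hT : ∀ q ∈ T, q.1 < p ∧ q.2 < p) (h6 : ∀ v, #{q ∈ T | q.2 = v} ≤ 6) (N : ℕ) :
    ∑ q ∈ T with q.1 + D * p * q.2 + D * p ≤ N, cw (N - (q.1 + D * p * q.2)) ≤ 24 / √D := by
  have h := Lab.TopOK.one ⟨hT, h6⟩ hD hp N
  rw [cw_eq_tb]
  refine le_trans (le_of_eq ?_) (h.trans
    (div_le_div_of_nonneg_right (by norm_num) (Real.sqrt_nonneg _)))
  exact sum_congr (filter_congr fun q _ => by omega) fun q _ => by rw [Nat.sub_sub]
/-- The total weight of a junction. -/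
theorem junction_sum {p D : ℕ} (hp : 2304 ≤ p) (hD : 1 ≤ D) (T : Finset (ℕ × ℕ))
    (hT : ∀ q ∈ T, q.1 < p ∧ q.2 < p) (h6 : ∀ v, #{q ∈ T | q.2 = v} ≤ 6) (N : ℕ) (Z : Finset ℕ)
    (hZ : ∀ z ∈ Z, D * p ≤ z) :
    ∑ z ∈ Z, ∑ q ∈ T with q.1 + D * p * q.2 + (D * p) ^ 2 * z + D * p ≤ N,
      cw z * cw (N - (q.1 + D * p * q.2 + (D * p) ^ 2 * z)) ≤ 10 / D := by
  have h := Lab.TopOK.two ⟨hT, h6⟩ hD (by omega) N Z hZ
  rw [cw_eq_tb]
  refine le_trans (le_of_eq (sum_congr rfl fun z _ => ?_)) h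
  exact sum_congr (filter_congr fun q _ => by omega) fun q _ => by
    rw [Nat.sub_sub, Nat.sub_sub, add_assoc]

end Pool.Agent.P.MP_d5a1e1_nt.T3
end

-- part Pool.Agent.P.MP_d5a1e1_nt.TBLab
section

/-! Label vectors with bounded group sums and their masses. -/

namespace Pool.Agent.P.MP_d5a1e1_nt.TB.Lab

open Finset

/-- Sum of the digits below `n` whose unit lies in group `g`. -/
def gsum (n : ℕ) (gr : ℕ → ℕ) (g : ℕ) (x : ℕ → ℕ) : ℕ := ∑ i ∈ range n with gr (i / 2) = g, x i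

/-- Number of digits below `n` whose unit lies in group `g`. -/
def gcnt (n : ℕ) (gr : ℕ → ℕ) (g : ℕ) : ℕ := ((range n).filter fun i => gr (i / 2) = g).card

/-- Number of units below `k` in group `g`. -/
def ucnt (k : ℕ) (gr : ℕ → ℕ) (g : ℕ) : ℕ := ((range k).filter fun u => gr u = g).card

open Classical in
/-- Vectors on `n` digits with group sums at most `R`. -/
noncomputable def Xs (n : ℕ) (gr R : ℕ → ℕ) : Finset (ℕ → ℕ) :=
  (Box n fun u => R (gr u) + 1).filter fun x => ∀ g, gsum n gr g x ≤ R g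

/-- Weight of a label vector. -/
noncomputable def fw (n : ℕ) (x : ℕ → ℕ) : ℝ := ∏ i ∈ range n, cw (x i)

/-- Total weight of the label vectors on `k` units. -/
noncomputable def phi (k : ℕ) (gr R : ℕ → ℕ) : ℝ := ∑ x ∈ Xs (2 * k) gr R, fw (2 * k) x

variable {n : ℕ} {gr R : ℕ → ℕ}

theorem fw_pos (n : ℕ) (x : ℕ → ℕ) : 0 < fw n x := prod_pos fun _ _ => cw_pos _

theorem fw_le_one (n : ℕ) (x : ℕ → ℕ) : fw n x ≤ 1 :=
  prod_le_one (fun _ _ => (cw_pos _).le) fun _ _ => cw_le_one _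

theorem le_gsum {i : ℕ} (hi : i < n) (x : ℕ → ℕ) : x i ≤ gsum n gr (gr (i / 2)) x :=
  single_le_sum (f := x) (fun _ _ => Nat.zero_le _) (mem_filter.2 ⟨mem_range.2 hi, rfl⟩)

theorem gsum_le_gsum {x y : ℕ → ℕ} (h : ∀ i < n, x i ≤ y i) (g : ℕ) :
    gsum n gr g x ≤ gsum n gr g y :=
  sum_le_sum fun i hi => h i (mem_range.1 (mem_filter.1 hi).1)

theorem gsum_mono {n' : ℕ} (h : n ≤ n') (g : ℕ) (x : ℕ → ℕ) : gsum n gr g x ≤ gsum n' gr g x :=
  sum_le_sum_of_subset (filter_subset_filter _ (range_subset_range.2 h))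

theorem gsum_succ (g : ℕ) (x : ℕ → ℕ) :
    gsum (n + 1) gr g x = gsum n gr g x + if gr (n / 2) = g then x n else 0 := by
  simp only [gsum, sum_filter, sum_range_succ]

theorem gcnt_succ (g : ℕ) :
    gcnt (n + 1) gr g = gcnt n gr g + if gr (n / 2) = g then 1 else 0 := by
  simp only [gcnt, card_filter, sum_range_succ]

theorem ucnt_succ (k g : ℕ) : ucnt (k + 1) gr g = ucnt k gr g + if gr k = g then 1 else 0 := by
  simp only [ucnt, card_filter, sum_range_succ]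

theorem ucnt_le (k g : ℕ) : ucnt k gr g ≤ k := (card_filter_le _ _).trans (card_range k).le

theorem gcnt_two_mul (k g : ℕ) : gcnt (2 * k) gr g = 2 * ucnt k gr g := by
  induction k with
  | zero => simp [gcnt, ucnt]
  | succ k ih =>
    rw [show 2 * (k + 1) = 2 * k + 1 + 1 by ring, gcnt_succ, gcnt_succ, ucnt_succ, ih,
      show (2 * k + 1) / 2 = k by omega, show 2 * k / 2 = k by omega]
    split_ifs <;> ring

theorem mem_Xs {x : ℕ → ℕ} :
    x ∈ Xs n gr R ↔ (∀ i, n ≤ i → x i = 0) ∧ ∀ g, gsum n gr g x ≤ R g := by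
  classical
  rw [Xs, mem_filter, mem_Box]
  exact ⟨fun h => ⟨h.1.2, h.2⟩, fun h =>
    ⟨⟨fun i hi => Nat.lt_succ_of_le ((le_gsum hi x).trans (h.2 _)), h.1⟩, h.2⟩⟩

theorem Xs_subset : Xs n gr R ⊆ Box n fun u => R (gr u) + 1 := by
  classical
  exact filter_subset _ _

theorem le_of_mem_Xs {x : ℕ → ℕ} (hx : x ∈ Xs n gr R) (i : ℕ) : x i ≤ R (gr (i / 2)) := by
  by_cases hi : i < n
  · exact (le_gsum hi x).trans ((mem_Xs.1 hx).2 _)
  · rw [(mem_Xs.1 hx).1 i (not_lt.1 hi)]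
    exact Nat.zero_le _

theorem mem_Xs_of_le {x y : ℕ → ℕ} (hy : y ∈ Xs n gr R) (h : ∀ i, x i ≤ y i) : x ∈ Xs n gr R :=
  mem_Xs.2 ⟨fun i hi => Nat.le_zero.1 ((h i).trans ((mem_Xs.1 hy).1 i hi).le),
    fun g => (gsum_le_gsum (fun i _ => h i) g).trans ((mem_Xs.1 hy).2 g)⟩

theorem tr_mem_Xs {n' : ℕ} (h : n ≤ n') {x : ℕ → ℕ} (hx : x ∈ Xs n' gr R) :
    tr n x ∈ Xs n gr R :=
  mem_Xs.2 ⟨fun _ hi => tr_ge hi x, fun g =>
    (gsum_le_gsum (fun _ hi => (tr_lt hi x).le) g).trans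
      ((gsum_mono h g x).trans ((mem_Xs.1 hx).2 g))⟩

theorem card_Xs_le : (Xs n gr R).card ≤ ∏ i ∈ range n, (R (gr (i / 2)) + 1) :=
  (card_le_card Xs_subset).trans (card_Box _ _).le

theorem sum_Xs_succ (F : (ℕ → ℕ) → ℝ) :
    ∑ x ∈ Xs (n + 1) gr R, F x = ∑ p ∈ antidiagonal (R (gr (n / 2))),
      ∑ x ∈ Xs n gr (Function.update R (gr (n / 2)) p.2), F (Function.update x n p.1) := by
  rw [sum_sigma']
  have hup : ∀ (x : ℕ → ℕ) (a g : ℕ), gsum n gr g (Function.update x n a) = gsum n gr g x :=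
    fun x a g => sum_congr rfl fun i hi =>
      Function.update_of_ne (mem_range.1 (mem_filter.1 hi).1).ne _ _
  symm
  refine sum_bij' (fun q _ => Function.update q.2 n q.1.1)
    (fun x _ => ⟨(x n, R (gr (n / 2)) - x n), Function.update x n 0⟩) ?_ ?_ ?_ ?_ ?_
  · rintro ⟨p, x⟩ hq
    obtain ⟨hp, hx⟩ := mem_sigma.1 hq
    have hp' := mem_antidiagonal.1 hp
    obtain ⟨h1, h2⟩ := mem_Xs.1 hx
    refine mem_Xs.2 ⟨fun i hi => ?_, fun g => ?_⟩
    · rw [Function.update_of_ne (by omega)]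
      exact h1 i (by omega)
    · have := h2 g
      rw [gsum_succ, hup, Function.update_self]
      split_ifs with h
      · subst h
        rw [Function.update_self] at this
        dsimp only at this hp' ⊢
        omega
      · rw [Function.update_of_ne (Ne.symm h)] at this
        exact this
  · intro x hx
    obtain ⟨h1, h2⟩ := mem_Xs.1 hx
    have h3 := le_of_mem_Xs hx n
    refine mem_sigma.2 ⟨mem_antidiagonal.2 (by dsimp only; omega),
      mem_Xs.2 ⟨fun i hi => ?_, fun g => ?_⟩⟩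
    · dsimp only
      by_cases h : i = n
      · rw [h, Function.update_self]
      · rw [Function.update_of_ne h]
        exact h1 i (by omega)
    · have := h2 g
      dsimp only
      rw [gsum_succ] at this
      rw [hup]
      split_ifs at this with h
      · subst h
        rw [Function.update_self]
        omega
      · rw [Function.update_of_ne (Ne.symm h)]
        exact this
  · rintro ⟨p, x⟩ hq
    obtain ⟨hp, hx⟩ := mem_sigma.1 hq
    have hp' := mem_antidiagonal.1 hp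
    have h0 := (mem_Xs.1 hx).1 n le_rfl
    dsimp only at hp' h0 ⊢
    rw [Function.update_self, Function.update_idem, ← h0, Function.update_eq_self,
      show R (gr (n / 2)) - p.1 = p.2 by omega]
  · intro x _
    dsimp only
    rw [Function.update_idem, Function.update_eq_self]
  · intro q _
    rfl

/-- Mass of one group with `c` digits, digit weight `u` and budget `r`. -/
noncomputable def cm (u : ℕ → ℝ) (s : ℝ) (c r : ℕ) : ℝ :=
  PowerSeries.coeff r (PowerSeries.mk u ^ c * PowerSeries.mk (nb s))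

theorem cm_zero (u : ℕ → ℝ) (s : ℝ) (r : ℕ) : cm u s 0 r = nb s r := by simp [cm]

theorem cm_succ (u : ℕ → ℝ) (s : ℝ) (c r : ℕ) :
    cm u s (c + 1) r = ∑ p ∈ antidiagonal r, u p.1 * cm u s c p.2 := by
  simp only [cm]
  rw [pow_succ', mul_assoc, PowerSeries.coeff_mul]
  simp only [PowerSeries.coeff_mk]

theorem mk_nb_mul (s t : ℝ) :
    PowerSeries.mk (nb s) * PowerSeries.mk (nb t) = PowerSeries.mk (nb (s + t)) := by
  ext r
  simp only [PowerSeries.coeff_mul, PowerSeries.coeff_mk, nb_conv]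

theorem cm_nb (t s : ℝ) (c r : ℕ) : cm (nb t) s c r = nb (c * t + s) r := by
  induction c generalizing r with
  | zero => simp [cm_zero]
  | succ c ih =>
    rw [cm_succ]
    simp only [ih]
    rw [nb_conv]
    push_cast
    congr 1
    ring

/-- The mass is a product over the groups. -/
theorem sum_Xs_prod (u : ℕ → ℝ) (G : Finset ℕ) (hG : ∀ i < n, gr (i / 2) ∈ G) :
    ∑ x ∈ Xs n gr R, ∏ i ∈ range n, u (x i) = ∏ g ∈ G, cm u 1 (gcnt n gr g) (R g) := by
  induction n generalizing R with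
  | zero =>
    have : Xs 0 gr R = {0} := by
      ext x
      rw [mem_Xs, mem_singleton]
      exact ⟨fun h => funext fun i => h.1 i (Nat.zero_le _), fun h => by simp [h, gsum]⟩
    simp [this, gcnt, cm_zero, nb_one]
  | succ n ih =>
    have hg := hG n (Nat.lt_succ_self n)
    rw [sum_Xs_succ, ← mul_prod_erase G _ hg, gcnt_succ, if_pos rfl, cm_succ, sum_mul]
    refine sum_congr rfl fun p _ => ?_
    have e1 : ∀ x : ℕ → ℕ, ∏ i ∈ range (n + 1), u (Function.update x n p.1 i) =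
        u p.1 * ∏ i ∈ range n, u (x i) := fun x => by
      rw [prod_range_succ, Function.update_self, mul_comm]
      congr 1
      exact prod_congr rfl fun i hi => by rw [Function.update_of_ne (mem_range.1 hi).ne]
    simp only [e1]
    rw [← mul_sum, ih fun i hi => hG i (by omega), ← mul_prod_erase G _ hg,
      Function.update_self, mul_assoc]
    congr 2
    refine prod_congr rfl fun g hg' => ?_
    have := (mem_erase.1 hg').1
    rw [gcnt_succ, if_neg (Ne.symm this), add_zero, Function.update_of_ne this]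

theorem sum_fw_eq (G : Finset ℕ) (hG : ∀ i < n, gr (i / 2) ∈ G) :
    ∑ x ∈ Xs n gr R, fw n x = ∏ g ∈ G, nb (gcnt n gr g * (1 / 2) + 1) (R g) := by
  simp only [← cm_nb]
  exact sum_Xs_prod _ G hG

theorem phi_eq {k : ℕ} (G : Finset ℕ) (hG : ∀ u < k, gr u ∈ G) :
    phi k gr R = ∏ g ∈ G, ((R g + ucnt k gr g).choose (ucnt k gr g) : ℝ) := by
  rw [phi, sum_fw_eq G fun i hi => hG _ (by omega)]
  refine prod_congr rfl fun g _ => ?_
  rw [gcnt_two_mul, ← nb_nat]
  push_cast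
  congr 1
  ring

theorem card_Xs_eq (G : Finset ℕ) (hG : ∀ i < n, gr (i / 2) ∈ G) :
    ((Xs n gr R).card : ℝ) = ∏ g ∈ G, ((R g + gcnt n gr g).choose (gcnt n gr g) : ℝ) := by
  have := sum_Xs_prod (R := R) (nb 1) G hG
  simp only [cm_nb, nb_one, mul_one, nb_nat] at this
  simpa using this

theorem phi_zero : phi 0 gr R = 1 := by
  rw [phi_eq ∅ fun u hu => absurd hu (Nat.not_lt_zero u), prod_empty]

theorem phi_succ (k : ℕ) : ((ucnt k gr (gr k) : ℝ) + 1) * phi (k + 1) gr R =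
    (R (gr k) + ucnt k gr (gr k) + 1) * phi k gr R := by
  have hG : ∀ u < k + 1, gr u ∈ (range (k + 1)).image gr := fun u hu =>
    mem_image_of_mem _ (mem_range.2 hu)
  have hg := hG k (Nat.lt_succ_self k)
  rw [phi_eq _ hG, phi_eq _ fun u hu => hG u (by omega), ← mul_prod_erase _ _ hg,
    ← mul_prod_erase _ _ hg, ← mul_assoc, ← mul_assoc]
  congr 1
  · rw [ucnt_succ, if_pos rfl]
    have := Nat.add_one_mul_choose_eq (R (gr k) + ucnt k gr (gr k)) (ucnt k gr (gr k))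
    rw [mul_comm, ← add_assoc]
    exact_mod_cast this.symm
  · refine prod_congr rfl fun g hg' => ?_
    rw [ucnt_succ, if_neg (mem_erase.1 hg').1.symm, add_zero]

/-- L1, lower bound. -/
theorem one_le_phi (k : ℕ) : 1 ≤ phi k gr R := by
  rw [phi_eq _ fun u hu => mem_image_of_mem gr (mem_range.2 hu)]
  refine prod_induction _ (fun x : ℝ => 1 ≤ x)
    (fun _ _ ha hb => one_le_mul_of_one_le_of_one_le ha hb) le_rfl fun g _ => ?_
  exact_mod_cast Nat.choose_pos (Nat.le_add_left _ _)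

/-- L1, upper bound. -/
theorem phi_le (k : ℕ) : phi k gr R ≤ ∏ u ∈ range k, ((R (gr u) : ℝ) + 1) := by
  induction k with
  | zero => simp [phi_zero]
  | succ k ih =>
    have h0 : (0 : ℝ) ≤ ucnt k gr (gr k) := Nat.cast_nonneg _
    have h1 : (0 : ℝ) ≤ R (gr k) := Nat.cast_nonneg _
    have h2 := one_le_phi (gr := gr) (R := R) k
    refine le_of_mul_le_mul_left ?_ (by positivity : (0 : ℝ) < ucnt k gr (gr k) + 1)
    rw [phi_succ, prod_range_succ, mul_comm (∏ u ∈ range k, _), ← mul_assoc]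
    exact mul_le_mul (by nlinarith) ih (by linarith) (by positivity)

/-- L1, growth. -/
theorem le_phi_succ (k : ℕ) : R (gr k) * phi k gr R ≤ (k + 1) * phi (k + 1) gr R := by
  have h0 : (0 : ℝ) ≤ ucnt k gr (gr k) := Nat.cast_nonneg _
  have h1 : (ucnt k gr (gr k) : ℝ) ≤ k := by exact_mod_cast ucnt_le k _
  have h2 := one_le_phi (gr := gr) (R := R) k
  have h3 := one_le_phi (gr := gr) (R := R) (k + 1)
  have h4 := phi_succ (gr := gr) (R := R) k
  nlinarith

end Pool.Agent.P.MP_d5a1e1_nt.TB.Lab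
end

-- part Pool.Agent.P.MP_d5a1e1_nt.TBSh
section

/-! The mass of a capped shell. -/

namespace Pool.Agent.P.MP_d5a1e1_nt.TB.Lab

open Finset PowerSeries

variable {n : ℕ} {gr R : ℕ → ℕ}

/-- Mass of one group with digit weight `u` and slack weight `v`. -/
noncomputable def cg (u v : ℕ → ℝ) (c r : ℕ) : ℝ := coeff r (mk u ^ c * mk v)

theorem cg_zero (u v : ℕ → ℝ) (r : ℕ) : cg u v 0 r = v r := by simp [cg]

theorem cg_succ (u v : ℕ → ℝ) (c r : ℕ) :
    cg u v (c + 1) r = ∑ p ∈ antidiagonal r, u p.1 * cg u v c p.2 := by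
  simp only [cg]
  rw [pow_succ', mul_assoc, coeff_mul]
  simp only [coeff_mk]

theorem sum_Xs_gen (u v : ℕ → ℕ → ℝ) (G : Finset ℕ) (hG : ∀ i < n, gr (i / 2) ∈ G) :
    ∑ x ∈ Xs n gr R, (∏ i ∈ range n, u (gr (i / 2)) (x i)) *
      ∏ g ∈ G, v g (R g - gsum n gr g x) = ∏ g ∈ G, cg (u g) (v g) (gcnt n gr g) (R g) := by
  induction n generalizing R with
  | zero =>
    have : Xs 0 gr R = {0} := by
      ext x
      rw [mem_Xs, mem_singleton]
      exact ⟨fun h => funext fun i => h.1 i (Nat.zero_le _), fun h => by simp [h, gsum]⟩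
    simp [this, gcnt, cg_zero, gsum]
  | succ n ih =>
    have hg := hG n (Nat.lt_succ_self n)
    rw [sum_Xs_succ, ← mul_prod_erase G _ hg, gcnt_succ, if_pos rfl, cg_succ, sum_mul]
    refine sum_congr rfl fun p hp => ?_
    have hp' := mem_antidiagonal.1 hp
    have e1 : ∀ x : ℕ → ℕ, ∏ i ∈ range (n + 1), u (gr (i / 2)) (Function.update x n p.1 i) =
        u (gr (n / 2)) p.1 * ∏ i ∈ range n, u (gr (i / 2)) (x i) := fun x => by
      rw [prod_range_succ, Function.update_self, mul_comm]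
      congr 1
      exact prod_congr rfl fun i hi => by rw [Function.update_of_ne (mem_range.1 hi).ne]
    have e2 : ∀ (x : ℕ → ℕ) (g : ℕ), R g - gsum (n + 1) gr g (Function.update x n p.1) =
        Function.update R (gr (n / 2)) p.2 g - gsum n gr g x := fun x g => by
      have hup : gsum n gr g (Function.update x n p.1) = gsum n gr g x :=
        sum_congr rfl fun i hi => Function.update_of_ne (mem_range.1 (mem_filter.1 hi).1).ne _ _
      rw [gsum_succ, hup, Function.update_self]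
      split_ifs with h
      · subst h
        rw [Function.update_self]
        omega
      · rw [Function.update_of_ne (Ne.symm h), add_zero]
    simp only [e1, e2, mul_assoc]
    rw [← mul_sum, ih fun i hi => hG i (by omega), ← mul_prod_erase G _ hg,
      Function.update_self]
    congr 2
    refine prod_congr rfl fun g hg' => ?_
    have := (mem_erase.1 hg').1
    rw [gcnt_succ, if_neg (Ne.symm this), add_zero, Function.update_of_ne this]

/-- All coefficients are nonnegative. -/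
def Nn (f : ℝ⟦X⟧) : Prop := ∀ r, 0 ≤ coeff r f

theorem Nn.add {f g : ℝ⟦X⟧} (hf : Nn f) (hg : Nn g) : Nn (f + g) := fun r => by
  rw [map_add]
  exact add_nonneg (hf r) (hg r)

theorem Nn.mul {f g : ℝ⟦X⟧} (hf : Nn f) (hg : Nn g) : Nn (f * g) := fun r => by
  rw [coeff_mul]
  exact sum_nonneg fun p _ => mul_nonneg (hf _) (hg _)

theorem Nn.pow {f : ℝ⟦X⟧} (hf : Nn f) (c : ℕ) : Nn (f ^ c) := by
  induction c with
  | zero =>
    intro r
    rw [pow_zero, coeff_one]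
    split_ifs <;> norm_num
  | succ c ih => rw [pow_succ]; exact ih.mul hf

theorem Nn.mk {u : ℕ → ℝ} (h : ∀ x, 0 ≤ u x) : Nn (mk u) := fun r => by
  rw [coeff_mk]
  exact h r

theorem Nn.pow_sub {U B : ℝ⟦X⟧} (hU : Nn U) (hB : Nn B) (c : ℕ) : Nn ((U + B) ^ c - U ^ c) := by
  induction c with
  | zero =>
    intro r
    simp
  | succ c ih =>
    rw [show (U + B) ^ (c + 1) - U ^ (c + 1) = U * ((U + B) ^ c - U ^ c) + B * (U + B) ^ c by ring]
    exact (hU.mul ih).add (hB.mul ((hU.add hB).pow c))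

theorem Nn.union {U B : ℝ⟦X⟧} (hU : Nn U) (hB : Nn B) (c : ℕ) :
    Nn (((c : ℝ⟦X⟧) + 1) * (B * (U + B) ^ c) - ((U + B) ^ (c + 1) - U ^ (c + 1))) := by
  induction c with
  | zero =>
    intro r
    simp
  | succ c ih =>
    rw [show (((c + 1 : ℕ) : ℝ⟦X⟧) + 1) * (B * (U + B) ^ (c + 1)) -
        ((U + B) ^ (c + 1 + 1) - U ^ (c + 1 + 1)) =
        (U + B) * (((c : ℝ⟦X⟧) + 1) * (B * (U + B) ^ c) - ((U + B) ^ (c + 1) - U ^ (c + 1))) +
          B * ((U + B) ^ (c + 1) - U ^ (c + 1)) by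
      push_cast
      ring]
    exact ((hU.add hB).mul ih).add (hB.mul (hU.pow_sub hB _))

theorem mk_cw_pow (c : ℕ) (s : ℝ) : mk cw ^ c * mk (nb s) = mk (nb (c * (1 / 2) + s)) := by
  ext r
  rw [coeff_mk, ← cm_nb]
  rfl

/-- Union bound for one group. -/
theorem cg_ge {u b v v' : ℕ → ℝ} (hu : ∀ x, 0 ≤ u x) (hb : ∀ x, 0 ≤ b x) (hv' : ∀ x, 0 ≤ v' x)
    (h1 : ∀ x, u x + b x = cw x) (h2 : ∀ x, v x + v' x = 1) (c r : ℕ) :
    nb ((c + 1 : ℕ) * (1 / 2) + 1) r -
      (c + 1) * ∑ p ∈ antidiagonal r, b p.1 * nb (c * (1 / 2) + 1) p.2 -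
      ∑ p ∈ antidiagonal r, nb (c * (1 / 2) + 1 / 2) p.1 * v' p.2 ≤ cg u v (c + 1) r := by
  have e1 : mk u + mk b = mk cw := by
    ext x
    simp only [map_add, coeff_mk, h1]
  have e2 : mk v = mk (nb 1) - mk v' := by
    ext x
    simp only [map_sub, coeff_mk, nb_one]
    linarith [h2 x]
  have a1 := ((Nn.mk hu).union (Nn.mk hb) c).mul (Nn.mk fun x => (nb_pos one_pos x).le) r
  have a2 := ((Nn.mk hu).pow_sub (Nn.mk hb) (c + 1)).mul (Nn.mk hv') r
  rw [e1] at a1 a2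
  have e3 : mk cw ^ (c + 1) = mk (nb (c * (1 / 2) + 1 / 2)) := by
    rw [pow_succ, ← mk_cw_pow]
    rfl
  rw [sub_mul, sub_mul, mul_assoc, mul_assoc, mk_cw_pow, mk_cw_pow, map_sub, map_sub, coeff_mk,
    show ((c : ℝ⟦X⟧) + 1) = C ((c : ℝ) + 1) by simp, coeff_C_mul, coeff_mul] at a1
  rw [sub_mul, map_sub, e3, coeff_mul] at a2
  simp only [coeff_mk] at a1 a2
  rw [cg, e2, mul_sub, map_sub]
  linarith

theorem nb_le_add {s t : ℝ} (hs : 0 < s) (ht : 0 < t) (h : ℕ) : nb s h ≤ nb (s + t) h := by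
  rw [← nb_conv]
  have := single_le_sum (f := fun p : ℕ × ℕ => nb s p.1 * nb t p.2)
    (fun p _ => mul_nonneg (nb_pos hs _).le (nb_pos ht _).le)
    (mem_antidiagonal.2 (show ((h, 0) : ℕ × ℕ).1 + (h, 0).2 = h from rfl))
  simpa [nb_zero] using this

theorem nb_up {s q : ℝ} (hs : 0 < s) (hq : 0 ≤ q) {h : ℕ} (hj : ∀ j : ℕ, h ≤ j → s + j ≤ q * (j + 1))
    (m : ℕ) : nb s (h + m) ≤ q ^ m * nb s h := by
  induction m with
  | zero => simp
  | succ m ih =>
    have h0 : (0 : ℝ) < (h + m : ℕ) + 1 := by positivity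
    refine le_of_mul_le_mul_left ?_ h0
    rw [← add_assoc, nb_succ]
    calc _ ≤ q * ((h + m : ℕ) + 1) * (q ^ m * nb s h) :=
          mul_le_mul (hj _ (Nat.le_add_right _ _)) ih (nb_pos hs _).le (by positivity)
      _ = _ := by ring

theorem nb_down {s q : ℝ} (hs : 0 < s) (hq : 0 ≤ q) {h m : ℕ}
    (hj : ∀ j : ℕ, j < h + m → q * (j + 1) ≤ s + j) : q ^ m * nb s h ≤ nb s (h + m) := by
  induction m with
  | zero => simp
  | succ m ih =>
    have h0 : (0 : ℝ) < (h + m : ℕ) + 1 := by positivity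
    refine le_of_mul_le_mul_left ?_ h0
    rw [← add_assoc, nb_succ]
    calc _ = q * ((h + m : ℕ) + 1) * (q ^ m * nb s h) := by ring
      _ ≤ _ := mul_le_mul (hj _ (by omega)) (ih fun j hj' => hj j (by omega))
          (mul_nonneg (by positivity) (nb_pos hs _).le) (by positivity)

/-- Far below the budget the mass is small. -/
theorem nb_decay {β n t h m : ℕ} (hβ : 0 < β) (hr : h + m = β * n) (hm : β * t ≤ m) :
    2 ^ t * nb (n + 1) h ≤ nb (n + 1) (β * n) := by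
  have hβ' : (0 : ℝ) < β := by exact_mod_cast hβ
  have hs : (0 : ℝ) < n + 1 := by positivity
  have h1 : (2 : ℝ) ≤ (1 + 1 / β) ^ β := by
    have := one_add_mul_le_pow (a := (1 : ℝ) / β) (by have := one_div_pos.2 hβ'; linarith) β
    rwa [mul_one_div_cancel hβ'.ne', one_add_one_eq_two] at this
  have h2 : (2 : ℝ) ^ t ≤ (1 + 1 / β) ^ m := by
    refine (pow_le_pow_left₀ (by norm_num) h1 t).trans ?_
    rw [← pow_mul]
    exact pow_le_pow_right₀ (le_add_of_nonneg_right (by positivity)) hm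
  rw [← hr]
  refine (mul_le_mul_of_nonneg_right h2 (nb_pos hs _).le).trans
    (nb_down hs (by positivity) fun j hj => ?_)
  have h3 : (j : ℝ) + 1 ≤ β * n := by exact_mod_cast (show j + 1 ≤ β * n by omega)
  have h4 : 1 / (β : ℝ) * (j + 1) ≤ n := by
    rw [one_div, inv_mul_le_iff₀ hβ']
    exact h3
  linarith

/-- The capped shell carries almost all the mass of the simplex. -/
theorem shell_mass {T β γ n : ℕ} (hT : 1024 ≤ T) (hn : n ≤ T) (hβ : β = 32 * T ^ 4)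
    (hγ : 2 ^ γ = T ^ 32) :
    (1 - 64 / (T : ℝ)) * ((β * n + n).choose n : ℝ) ≤
      cg (fun m => if 2 ≤ m ∧ m ≤ β * γ then cw m else 0)
        (fun m => if m + 4 * T ≤ β * γ then 1 else 0) (2 * n) (β * n) := by
  have hT' : (1024 : ℝ) ≤ T := by exact_mod_cast hT
  have hT0 : (0 : ℝ) < T := by linarith
  have hTβ : 4 * T ≤ β := by
    have : T ≤ T ^ 4 := Nat.le_self_pow (by norm_num) T
    omega
  obtain ⟨γ', rfl⟩ : ∃ γ', γ = γ' + 1 := by
    rcases γ with _ | γ'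
    · have : T ≤ T ^ 32 := Nat.le_self_pow (by norm_num) T
      omega
    · exact ⟨γ', rfl⟩
  rcases Nat.eq_zero_or_pos n with rfl | hn0
  · have : 0 + 4 * T ≤ β * (γ' + 1) := by nlinarith
    have h0 : (0 : ℝ) ≤ 64 / T := by positivity
    simp only [mul_zero, cg_zero, if_pos this, add_zero, Nat.choose_self, Nat.cast_one]
    linarith
  obtain ⟨c, hc⟩ : ∃ c, 2 * n = c + 1 := ⟨2 * n - 1, by omega⟩
  have hc' : (c : ℝ) = 2 * n - 1 := by
    have : ((2 * n : ℕ) : ℝ) = ((c + 1 : ℕ) : ℝ) := by rw [hc]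
    push_cast at this
    linarith
  have hn' : (n : ℝ) ≤ T := by exact_mod_cast hn
  have hn1 : (1 : ℝ) ≤ n := by exact_mod_cast hn0
  have hβ' : (β : ℝ) = 32 * T ^ 4 := by exact_mod_cast hβ
  have hγ' : (2 : ℝ) ^ γ' * 2 = T ^ 32 := by exact_mod_cast (pow_succ 2 γ').symm.trans hγ
  have key := cg_ge (u := fun m => if 2 ≤ m ∧ m ≤ β * (γ' + 1) then cw m else 0)
    (b := fun m => if 2 ≤ m ∧ m ≤ β * (γ' + 1) then 0 else cw m)
    (v := fun m => if m + 4 * T ≤ β * (γ' + 1) then 1 else 0)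
    (v' := fun m => if m + 4 * T ≤ β * (γ' + 1) then 0 else 1)
    (fun x => by split_ifs; exacts [(cw_pos x).le, le_rfl])
    (fun x => by split_ifs; exacts [le_rfl, (cw_pos x).le])
    (fun x => by split_ifs <;> norm_num) (fun x => by split_ifs <;> simp)
    (fun x => by split_ifs <;> simp) c (β * n)
  rw [show ((c + 1 : ℕ) : ℝ) * (1 / 2) + 1 = n + 1 by push_cast; linarith,
    show (c : ℝ) * (1 / 2) + 1 = n + 1 / 2 by linarith,
    show (c : ℝ) * (1 / 2) + 1 / 2 = n by linarith, show (c : ℝ) + 1 = 2 * n by linarith] at key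
  rw [hc, ← nb_nat]
  refine le_trans ?_ key
  set N := nb (n + 1) (β * n) with hN
  have hN0 : 0 < N := nb_pos (by positivity) _
  have hs : (0 : ℝ) < n + 1 / 2 := by positivity
  have dec : ∀ h m : ℕ, h + m = β * n → β * γ' ≤ m → nb (n + 1) h ≤ 2 / T ^ 32 * N := by
    intro h m h1 h2
    have := nb_decay (by omega) h1 h2
    rw [div_mul_eq_mul_div, le_div_iff₀ (by positivity), ← hγ']
    linarith
  have half : nb (n + 1 / 2) (β * n) ≤ 1 / (4 * T ^ 2) * N := by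
    have h1 := nb_half_sq hs (β * n)
    rw [show (n : ℝ) + 1 / 2 + 1 / 2 = n + 1 by ring, ← hN] at h1
    refine (pow_le_pow_iff_left₀ (nb_pos hs _).le (by positivity) two_ne_zero).1 ?_
    have h2 : 16 * (T : ℝ) ^ 4 * (n + 1 / 2) ≤ n + 1 / 2 + (β * n : ℕ) := by
      have : (0 : ℝ) ≤ T ^ 4 := by positivity
      push_cast
      nlinarith
    have h3 := (mul_le_mul_of_nonneg_left h2 (sq_nonneg (nb (n + 1 / 2) (β * n)))).trans h1
    rw [← mul_assoc] at h3
    have h4 := le_of_mul_le_mul_right h3 hs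
    rw [mul_pow, div_pow, div_mul_eq_mul_div, le_div_iff₀ (by positivity)]
    nlinarith
  have hR : ((β * n + 1 : ℕ) : ℝ) ≤ 33 * T ^ 5 := by
    have h1 : (1 : ℝ) ≤ T ^ 5 := one_le_pow₀ (by linarith)
    have h2 : (0 : ℝ) ≤ T ^ 4 := by positivity
    push_cast
    nlinarith
  have s1 : ∑ p ∈ antidiagonal (β * n),
      (if 2 ≤ p.1 ∧ p.1 ≤ β * (γ' + 1) then 0 else cw p.1) * nb (n + 1 / 2) p.2 ≤
      2 * (1 / (4 * T ^ 2) * N) + 33 * T ^ 5 * (2 / T ^ 32 * N) := by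
    have t1 : ∀ p ∈ antidiagonal (β * n),
        (if 2 ≤ p.1 ∧ p.1 ≤ β * (γ' + 1) then 0 else cw p.1) * nb (n + 1 / 2) p.2 ≤
        (if p.1 < 2 then 1 / (4 * T ^ 2) * N else 0) + 2 / T ^ 32 * N := by
      intro p hp
      have hp' := mem_antidiagonal.1 hp
      have w1 := cw_le_one p.1
      have w2 := nb_pos hs p.2
      have w3 : (0 : ℝ) ≤ 2 / T ^ 32 * N := by positivity
      by_cases h2 : p.1 < 2
      · have := (nb_mono_right (s := n + 1 / 2) (by linarith) (show p.2 ≤ β * n by omega)).trans half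
        rw [if_neg (by omega), if_pos h2]
        nlinarith
      · rw [if_neg h2, zero_add]
        split_ifs with h3
        · rwa [zero_mul]
        · have h4 := dec p.2 p.1 (by omega) (by rw [mul_add] at h3; omega)
          have h5 := nb_le_add hs (show (0 : ℝ) < 1 / 2 by norm_num) p.2
          rw [show (n : ℝ) + 1 / 2 + 1 / 2 = n + 1 by ring] at h5
          nlinarith
    refine (sum_le_sum t1).trans ?_
    rw [sum_add_distrib, sum_const, Nat.card_antidiagonal, nsmul_eq_mul, ← sum_filter, sum_const,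
      nsmul_eq_mul]
    refine add_le_add (mul_le_mul_of_nonneg_right ?_ (by positivity))
      (mul_le_mul_of_nonneg_right hR (by positivity))
    have : #{p ∈ antidiagonal (β * n) | p.1 < 2} ≤ (range 2).card :=
      card_le_card_of_injOn (fun p => p.1) (fun p hp => by
        simpa using (mem_filter.1 (mem_coe.1 hp)).2) fun p hp q hq h => by
        have h1 := mem_antidiagonal.1 (mem_filter.1 (mem_coe.1 hp)).1
        have h2 := mem_antidiagonal.1 (mem_filter.1 (mem_coe.1 hq)).1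
        have h3 : p.1 = q.1 := h
        exact Prod.ext h3 (by omega)
    exact_mod_cast this
  have s2 : ∑ p ∈ antidiagonal (β * n),
      nb n p.1 * (if p.2 + 4 * T ≤ β * (γ' + 1) then 0 else 1) ≤
      33 * T ^ 5 * (2 / T ^ 32 * N) := by
    have t1 : ∀ p ∈ antidiagonal (β * n),
        nb n p.1 * (if p.2 + 4 * T ≤ β * (γ' + 1) then 0 else 1) ≤ 2 / T ^ 32 * N := by
      intro p hp
      split_ifs with h3
      · rw [mul_zero]
        positivity
      · rw [mul_one]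
        exact (nb_le_add (by linarith) one_pos _).trans
          (dec p.1 p.2 (mem_antidiagonal.1 hp) (by rw [mul_add] at h3; omega))
    refine (sum_le_sum t1).trans ?_
    rw [sum_const, Nat.card_antidiagonal, nsmul_eq_mul]
    exact mul_le_mul_of_nonneg_right hR (by positivity)
  have f1 : 33 * (T : ℝ) ^ 5 * (2 / T ^ 32 * N) ≤ 1 / T ^ 2 * N := by
    rw [← mul_assoc]
    refine mul_le_mul_of_nonneg_right ?_ hN0.le
    rw [← mul_div_assoc, div_le_div_iff₀ (by positivity) (by positivity)]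
    have h1 : (T : ℝ) ^ 8 ≤ T ^ 32 := pow_le_pow_right₀ (by linarith) (by norm_num)
    have h2 : (0 : ℝ) ≤ T ^ 7 := by positivity
    nlinarith
  have f2 : 1 / (4 * (T : ℝ) ^ 2) * N = 1 / 4 * (1 / T ^ 2 * N) := by
    field_simp
  have f3 : 64 / (T : ℝ) * N = 64 * T * (1 / T ^ 2 * N) := by
    field_simp
  have f4 : (0 : ℝ) ≤ 1 / T ^ 2 * N := by positivity
  have f5 := mul_le_mul hn' (s1.trans (add_le_add le_rfl f1)) (sum_nonneg fun p _ =>
    mul_nonneg (by split_ifs; exacts [le_rfl, (cw_pos _).le]) (nb_pos hs _).le) hT0.le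
  rw [f2] at f5
  rw [sub_mul, f3]
  nlinarith

/-- The doubled simplex against the square of the mass. -/
theorem choose_two {β n E : ℕ} (hβ : 0 < β) (hE : 8 * E ≤ 9 * β) :
    ((2 * (β * n) + E + 2 * n).choose (2 * n) : ℝ) * cw n ≤ 4 * ((β * n + n).choose n : ℝ) ^ 2 := by
  have hβ' : (0 : ℝ) < β := by exact_mod_cast hβ
  have h1 : ((2 * (β * n) + E + 2 * n).choose (2 * n) : ℝ) ≤
      4 * ((2 * (β * n) + 2 * n).choose (2 * n) : ℝ) := by
    rw [← nb_nat, ← nb_nat]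
    have hs : (0 : ℝ) < (2 * n : ℕ) + 1 := by positivity
    refine (nb_up (q := 1 + 1 / β) hs (by positivity) (fun j hj => ?_) E).trans
      (mul_le_mul_of_nonneg_right ?_ (nb_pos hs _).le)
    · have h3 : (β : ℝ) * (2 * n : ℕ) ≤ j + 1 := by
        exact_mod_cast (show β * (2 * n) ≤ j + 1 by nlinarith)
      have h4 : ((2 * n : ℕ) : ℝ) ≤ 1 / (β : ℝ) * (j + 1) := by
        rw [one_div, le_inv_mul_iff₀ hβ']
        exact h3
      linarith
    · have h3 : (1 + 1 / (β : ℝ)) ^ E ≤ Real.exp (1 / β) ^ E :=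
        pow_le_pow_left₀ (by positivity) (by rw [add_comm]; exact Real.add_one_le_exp _) E
      have h4 : (E : ℝ) * (1 / β) ≤ 1 + 1 / 8 := by
        have : (8 : ℝ) * E ≤ 9 * β := by exact_mod_cast hE
        rw [mul_one_div, div_le_iff₀ hβ']
        linarith
      have h5 := Real.exp_bound_div_one_sub_of_interval' (x := 1 / 8) (by norm_num) (by norm_num)
      have h6 := Real.exp_one_lt_d9
      rw [← Real.exp_nat_mul] at h3
      refine h3.trans ((Real.exp_le_exp.2 h4).trans ?_)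
      rw [Real.exp_add]
      have h7 := Real.exp_pos (1 / 8 : ℝ)
      norm_num at h5 h6 h7 ⊢
      nlinarith
  generalize β * n = r at h1 ⊢
  have h2 : ((2 * r + 2 * n).choose (2 * n) : ℝ) * cw n * cw r = ((r + n).choose n : ℝ) ^ 2 * cw (r + n) := by
    simp only [cw_eq, Nat.centralBinom_eq_two_mul_choose]
    rw [Nat.cast_choose _ (show 2 * n ≤ 2 * r + 2 * n by omega),
      Nat.cast_choose _ (show n ≤ r + n by omega), Nat.add_sub_cancel, Nat.add_sub_cancel,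
      Nat.cast_choose _ (show n ≤ 2 * n by omega),
      Nat.cast_choose _ (show r ≤ 2 * r by omega),
      Nat.cast_choose _ (show r + n ≤ 2 * (r + n) by omega), show 2 * n - n = n by omega,
      show 2 * r - r = r by omega, show 2 * (r + n) - (r + n) = r + n by omega,
      show 2 * (r + n) = 2 * r + 2 * n by ring]
    have := Nat.factorial_pos
    field_simp
    ring
  have h3 := mul_le_mul_of_nonneg_left (cw_anti (Nat.le_add_right r n))
    (sq_nonneg ((r + n).choose n : ℝ))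
  rw [← h2] at h3
  have h4 := le_of_mul_le_mul_right h3 (cw_pos r)
  nlinarith [mul_le_mul_of_nonneg_right h1 (cw_pos n).le]

end Pool.Agent.P.MP_d5a1e1_nt.TB.Lab
end

-- part Pool.Agent.P.MP_d5a1e1_nt.T3MassA
section

/-! The products over the groups. -/

namespace Pool.Agent.P.MP_d5a1e1_nt.T3

open Finset TB

theorem choose_step (β n : ℕ) :
    (β * (n + 1) + (n + 1)).choose (n + 1) = (β + 1) * (β * (n + 1) + n).choose n := by
  have h := Nat.add_one_mul_choose_eq (β * (n + 1) + n) n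
  refine Nat.eq_of_mul_eq_mul_right (Nat.succ_pos n) ?_
  rw [← add_assoc, ← h]
  simp only [Nat.succ_eq_add_one]
  ring

theorem choose_step_ge (β n : ℕ) :
    β * (β * n + n).choose n ≤ (β * (n + 1) + (n + 1)).choose (n + 1) := by
  rw [choose_step]
  exact Nat.mul_le_mul (Nat.le_succ β) (Nat.choose_le_choose n (by nlinarith))

theorem choose_step_le {β : ℕ} (hβ : 0 < β) (n : ℕ) :
    ((β * (n + 1) + (n + 1)).choose (n + 1) : ℝ) ≤ 3 * (β + 1) * ((β * n + n).choose n : ℝ) := by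
  have hβ' : (0 : ℝ) < β := by exact_mod_cast hβ
  have hs : (0 : ℝ) < n + 1 := by positivity
  have h1 : ((β * (n + 1) + n).choose n : ℝ) ≤ 3 * ((β * n + n).choose n : ℝ) := by
    rw [← Lab.nb_nat, ← Lab.nb_nat, mul_add, mul_one]
    refine (Lab.nb_up (q := 1 + 1 / β) hs (by positivity) (fun j hj => ?_) β).trans
      (mul_le_mul_of_nonneg_right ?_ (Lab.nb_pos hs _).le)
    · have h3 : (β : ℝ) * n ≤ j + 1 := by exact_mod_cast (show β * n ≤ j + 1 by omega)
      have h4 : (n : ℝ) ≤ 1 / (β : ℝ) * (j + 1) := by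
        rw [one_div, le_inv_mul_iff₀ hβ']
        exact h3
      linarith
    · have h3 : (1 + 1 / (β : ℝ)) ^ β ≤ Real.exp (1 / β) ^ β :=
        pow_le_pow_left₀ (by positivity) (by rw [add_comm]; exact Real.add_one_le_exp _) β
      rw [← Real.exp_nat_mul, mul_one_div_cancel hβ'.ne'] at h3
      have h6 := Real.exp_one_lt_d9
      linarith
  rw [choose_step]
  push_cast
  nlinarith

theorem one_sub_sum_le (s : Finset ℕ) (a : ℕ → ℝ) (h0 : ∀ i, 0 ≤ a i) (h1 : ∀ i, a i ≤ 1) :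
    1 - ∑ i ∈ s, a i ≤ ∏ i ∈ s, (1 - a i) := by
  induction s using Finset.induction_on with
  | empty => simp
  | insert i s hi ih =>
    rw [sum_insert hi, prod_insert hi]
    have h2 : 0 ≤ ∑ i ∈ s, a i := sum_nonneg fun i _ => h0 i
    nlinarith [mul_le_mul_of_nonneg_left ih (sub_nonneg.2 (h1 i)), h0 i]

variable [Kap]

theorem gr_mem (k : ℕ) : ∀ u < k, gr u ∈ range (gr k + 1) := fun _ hu =>
  mem_range.2 (Nat.lt_succ_of_le (gr_mono hu.le))

theorem gr_mem' (k : ℕ) : ∀ i < 2 * k, gr (i / 2) ∈ range (gr k + 1) := fun _ hi =>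
  gr_mem k _ (by omega)

/-- One more unit changes one factor. -/
theorem prod_step (F : ℕ → ℕ → ℝ) (h0 : ∀ g n, 0 ≤ F g n) (h1 : ∀ g, F g 0 = 1) (k : ℕ) :
    ∃ P, 0 ≤ P ∧ ∏ g ∈ range (gr k + 1), F g (nn k g) = F (gr k) (nn k (gr k)) * P ∧
      ∏ g ∈ range (gr (k + 1) + 1), F g (nn (k + 1) g) = F (gr k) (nn k (gr k) + 1) * P := by
  have hm := gr_mono (Nat.le_succ k)
  have hg : gr k ∈ range (gr (k + 1) + 1) := mem_range.2 (Nat.lt_succ_of_le hm)
  refine ⟨∏ g ∈ (range (gr (k + 1) + 1)).erase (gr k), F g (nn k g),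
    prod_nonneg fun _ _ => h0 _ _, ?_, ?_⟩
  · rw [mul_prod_erase _ (fun g => F g (nn k g)) hg]
    refine prod_subset (range_subset_range.2 (Nat.succ_le_succ hm)) fun g _ hg' => ?_
    rw [nn_zero (by simpa using hg'), h1]
  · rw [← mul_prod_erase _ _ hg, nn_succ, if_pos rfl]
    congr 1
    refine prod_congr rfl fun g hg' => ?_
    rw [nn_succ, if_neg (mem_erase.1 hg').1.symm, add_zero]

theorem ph_step (k : ℕ) : ∃ P : ℝ, 0 ≤ P ∧
    ph k = ((32 * bb (gr k) * nn k (gr k) + nn k (gr k)).choose (nn k (gr k)) : ℝ) * P ∧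
    ph (k + 1) = ((32 * bb (gr k) * (nn k (gr k) + 1) + (nn k (gr k) + 1)).choose
      (nn k (gr k) + 1) : ℝ) * P :=
  prod_step (fun g n => ((32 * bb g * n + n).choose n : ℝ)) (fun _ _ => Nat.cast_nonneg _)
    (fun _ => by simp) k

theorem Om_step (k : ℕ) : ∃ P : ℝ, 0 ≤ P ∧ Om k = cw (nn k (gr k)) * P ∧
    Om (k + 1) = cw (nn k (gr k) + 1) * P :=
  prod_step (fun _ n => cw n) (fun _ _ => (cw_pos _).le) (fun _ => cw_zero) k

theorem one_le_ph (k : ℕ) : 1 ≤ ph k := by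
  refine prod_induction _ (fun x : ℝ => 1 ≤ x)
    (fun _ _ ha hb => one_le_mul_of_one_le_of_one_le ha hb) le_rfl fun g _ => ?_
  exact_mod_cast Nat.choose_pos (Nat.le_add_left _ _)

theorem ph_pos (k : ℕ) : 0 < ph k := one_pos.trans_le (one_le_ph k)

theorem ph_le8 (k : ℕ) : ph k * 8 ^ k ≤ Del k := by
  induction k with
  | zero => simp [ph, Del, nn]
  | succ k ih =>
    obtain ⟨P, h0, h1, h2⟩ := ph_step k
    have hb := bb_pos (gr k)
    have h3 := mul_le_mul_of_nonneg_right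
      (choose_step_le (show 0 < 32 * bb (gr k) by omega) (nn k (gr k))) h0
    rw [← h2, mul_assoc, ← h1] at h3
    have h4 : 24 * (32 * bb (gr k) + 1) ≤ DD k := by
      have := Nat.mul_le_mul_left (32 * bb (gr k)) (ga_big (gr k))
      rw [DD, Ru, cap]
      omega
    have h5 : (24 : ℝ) * ((32 * bb (gr k) : ℕ) + 1) ≤ DD k := by exact_mod_cast h4
    rw [Del_succ, Nat.cast_mul, pow_succ]
    calc _ ≤ 3 * ((32 * bb (gr k) : ℕ) + 1) * ph k * (8 ^ k * 8) :=
          mul_le_mul_of_nonneg_right h3 (by positivity)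
      _ = ph k * 8 ^ k * (24 * ((32 * bb (gr k) : ℕ) + 1)) := by ring
      _ ≤ _ := mul_le_mul ih h5 (by positivity) (Nat.cast_nonneg _)

theorem ph_succ (k : ℕ) : DD k * ph k ≤ 16 * ga (gr k) * ph (k + 1) := by
  obtain ⟨P, h0, h1, h2⟩ := ph_step k
  have h3 := mul_le_mul_of_nonneg_right
    (Nat.cast_le (α := ℝ) |>.2 (choose_step_ge (32 * bb (gr k)) (nn k (gr k)))) h0
  rw [← h2, Nat.cast_mul, mul_assoc, ← h1] at h3
  have h4 := mul_le_mul_of_nonneg_left h3 (show (0 : ℝ) ≤ 16 * ga (gr k) by positivity)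
  refine le_trans (le_of_eq ?_) h4
  rw [DD, Ru, cap]
  push_cast
  ring

theorem Om_pos (k : ℕ) : 0 < Om k := prod_pos fun _ _ => cw_pos _

theorem Om_le_one (k : ℕ) : Om k ≤ 1 :=
  prod_le_one (fun _ _ => (cw_pos _).le) fun _ _ => cw_le_one _

theorem Om_succ_le (k : ℕ) : Om (k + 1) ≤ Om k := by
  obtain ⟨P, h0, h1, h2⟩ := Om_step k
  rw [h1, h2]
  exact mul_le_mul_of_nonneg_right (cw_anti (Nat.le_succ _)) h0

theorem Om_anti : Antitone Om := antitone_nat_of_succ_le Om_succ_le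

theorem Om_le_two (k : ℕ) : Om k ≤ 2 * Om (k + 1) := by
  obtain ⟨P, h0, h1, h2⟩ := Om_step k
  rw [h1, h2, ← mul_assoc]
  refine mul_le_mul_of_nonneg_right ?_ h0
  generalize nn k (gr k) = n
  have h3 := cw_succ n
  have h4 := cw_pos n
  have h5 : (0 : ℝ) ≤ n := Nat.cast_nonneg n
  refine le_of_mul_le_mul_left ?_ (show (0 : ℝ) < n + 1 by positivity)
  nlinarith

theorem Om_ge (k : ℕ) : 1 ≤ (yy k : ℝ) ^ (3 * ka + 1) * Om k := by
  have h1 : ∀ n T : ℕ, n ≤ T → 1 ≤ T → 1 ≤ ((4 * T : ℕ) : ℝ) * cw n ^ 2 := fun n T h h' => by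
    have h2 : (n : ℝ) ≤ T := by exact_mod_cast h
    have h3 : (1 : ℝ) ≤ T := by exact_mod_cast h'
    push_cast
    rcases Nat.eq_zero_or_pos n with rfl | hn
    · rw [cw_zero]
      linarith
    · exact (cw_sq_ge hn).trans (mul_le_mul_of_nonneg_right (by linarith) (sq_nonneg _))
  have h2 : 1 ≤ ∏ g ∈ range (gr k + 1),
      ((4 * if g = gr k then tau k else TT g : ℕ) : ℝ) * cw (nn k g) ^ 2 := by
    refine prod_induction _ (fun x : ℝ => 1 ≤ x)
      (fun _ _ ha hb => one_le_mul_of_one_le_of_one_le ha hb) le_rfl fun g _ => h1 _ _ ?_ ?_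
    · split_ifs
      · exact (nn_le_self k g).trans (lt_tau k).le
      · exact nn_le k g
    · split_ifs
      · exact Nat.succ_le_of_lt ((Nat.zero_le k).trans_lt (lt_tau k))
      · exact TT_pos g
  rw [prod_mul_distrib, prod_pow, ← Om, ← Nat.cast_prod, prod_mul_distrib, prod_const, card_range,
    prod_range_succ, if_pos rfl, prod_congr rfl fun g hg => if_neg (mem_range.1 hg).ne] at h2
  have h3 : 4 ^ (gr k + 1) * ((∏ g ∈ range (gr k), TT g) * tau k) ≤ (yy k ^ (3 * ka + 1)) ^ 2 := by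
    refine (Nat.mul_le_mul (four_pow_gr k) (Nat.mul_le_mul_right _ (prod_TT_le k))).trans
      (le_of_eq ?_)
    rw [tau_eq, ← pow_mul, ← pow_mul, ← pow_add, ← pow_add]
    congr 1
    ring
  have h4 := h2.trans (mul_le_mul_of_nonneg_right (Nat.cast_le.2 h3) (sq_nonneg _))
  rw [Nat.cast_pow, Nat.cast_pow, ← mul_pow] at h4
  exact (one_le_sq_iff₀ (mul_nonneg (by positivity) (Om_pos k).le)).1 h4

theorem yy_one (k : ℕ) : (1 : ℝ) ≤ yy k := Nat.one_le_cast.2 (le_trans (by omega) (yy_ge k))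

theorem yy_two (k : ℕ) : (2 : ℝ) ≤ yy k := by exact_mod_cast yy_ge k

theorem lam_sq (k : ℕ) : lam k ^ 2 = (yy k : ℝ) ^ (2 * ka + 4) * Om k :=
  Real.sq_sqrt (mul_nonneg (by positivity) (Om_pos k).le)

theorem lam_pos (k : ℕ) : 0 < lam k :=
  Real.sqrt_pos.2 (mul_pos (by have := yy_one k; positivity) (Om_pos k))

theorem lam_le (k : ℕ) : lam k ≤ (yy k : ℝ) ^ (ka + 2) := by
  refine (pow_le_pow_iff_left₀ (lam_pos k).le (by positivity) two_ne_zero).1 ?_
  rw [lam_sq, ← pow_mul, show (ka + 2) * 2 = 2 * ka + 4 by ring]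
  exact mul_le_of_le_one_right (by positivity) (Om_le_one k)

theorem Gb_pos (k : ℕ) : 0 < Gb k := mul_pos (by have := yy_one k; positivity) (Om_pos k)

theorem T3MassA_one (k : ℕ) : 1 ≤ √((yy k : ℝ) ^ (2 * ka + 10) / Om k) := by
  rw [Real.one_le_sqrt, one_le_div (Om_pos k)]
  exact (Om_le_one k).trans (one_le_pow₀ (yy_one k))

theorem rho_sq_ge (k : ℕ) : (yy k : ℝ) ^ (2 * ka + 10) ≤ (rho k : ℝ) ^ 2 * Om k := by
  rw [← div_le_iff₀ (Om_pos k), ← Real.sq_sqrt (div_nonneg (by positivity) (Om_pos k).le)]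
  exact pow_le_pow_left₀ (Real.sqrt_nonneg _) (Nat.le_ceil _) 2

theorem rho_sq_le (k : ℕ) : (rho k : ℝ) ^ 2 * Om k ≤ 4 * (yy k : ℝ) ^ (2 * ka + 10) := by
  have h1 := T3MassA_one k
  have h2 : (rho k : ℝ) ≤ 2 * √((yy k : ℝ) ^ (2 * ka + 10) / Om k) := by
    have := Nat.ceil_lt_add_one (Real.sqrt_nonneg ((yy k : ℝ) ^ (2 * ka + 10) / Om k))
    rw [rho]
    linarith
  have h3 := pow_le_pow_left₀ (Nat.cast_nonneg _) h2 2
  rw [mul_pow, Real.sq_sqrt (div_nonneg (by positivity) (Om_pos k).le), ← mul_div_assoc,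
    le_div_iff₀ (Om_pos k)] at h3
  linarith

theorem rho_pos (k : ℕ) : 0 < rho k := Nat.ceil_pos.2 (one_pos.trans_le (T3MassA_one k))

theorem rho_mono : Monotone rho := fun a b h => Nat.ceil_mono (Real.sqrt_le_sqrt
  (div_le_div₀ (by positivity) (pow_le_pow_left₀ (Nat.cast_nonneg _) (Nat.cast_le.2 (yy_mono h)) _)
    (Om_pos b) (Om_anti h)))

theorem rho_le (k : ℕ) : rho k ≤ yy k ^ (3 * ka) := by
  have h1 := mul_le_mul_of_nonneg_left (Om_ge k) (sq_nonneg (rho k : ℝ))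
  have h2 := mul_le_mul_of_nonneg_left (rho_sq_le k)
    (show (0 : ℝ) ≤ (yy k : ℝ) ^ (3 * ka + 1) by positivity)
  have h3 : (4 : ℝ) ≤ (yy k : ℝ) ^ 2 := by nlinarith [yy_two k]
  have h4 : (rho k : ℝ) ^ 2 ≤ ((yy k : ℝ) ^ (3 * ka)) ^ 2 := by
    calc (rho k : ℝ) ^ 2 ≤ (yy k : ℝ) ^ (3 * ka + 1) * (4 * (yy k : ℝ) ^ (2 * ka + 10)) := by
          linarith
      _ ≤ (yy k : ℝ) ^ (3 * ka + 1) * ((yy k : ℝ) ^ 2 * (yy k : ℝ) ^ (2 * ka + 10)) := by gcongr
      _ ≤ _ := by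
          rw [← pow_add, ← pow_add, ← pow_mul]
          exact pow_le_pow_right₀ (yy_one k) (by have := ka_big; omega)
  exact_mod_cast (pow_le_pow_iff_left₀ (Nat.cast_nonneg _) (by positivity) two_ne_zero).1 h4

theorem rho_lam (k : ℕ) : (yy k : ℝ) ^ (4 * ka + 14) ≤ (rho k : ℝ) ^ 2 * lam k ^ 2 := by
  rw [lam_sq, mul_left_comm, show 4 * ka + 14 = 2 * ka + 4 + (2 * ka + 10) by ring, pow_add]
  exact mul_le_mul_of_nonneg_left (rho_sq_ge k) (by positivity)

theorem rho_Lam (k : ℕ) : (rho k : ℝ) ^ 2 * (Lam k * Gb k) ≤ 4 * (yy k : ℝ) ^ (4 * ka + 19) := by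
  have h := mul_le_mul_of_nonneg_left (rho_sq_le k)
    (show (0 : ℝ) ≤ (yy k : ℝ) ^ (2 * ka + 9) by positivity)
  rw [Lam, Gb, Nat.cast_pow, show 4 * ka + 19 = 2 * ka + 9 + (2 * ka + 10) by ring,
    pow_add _ (2 * ka + 9)]
  rw [pow_succ _ (2 * ka + 8)] at h ⊢
  linarith

/-- The number of types is large. -/
theorem lam_big {k : ℕ} (hk : k0 ≤ k + 1) : 2 ≤ lam k * 8 ^ k := by
  have h0 := ka_big
  have h1 : yy k ^ ka ≤ k + 1 :=
    (Nat.pow_le_pow_left (yy_mono (Nat.le_succ k)) _).trans ((Nat.pow_le_pow_right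
      (show 0 < yy (k + 1) by have := yy_ge (k + 1); omega)
      (show ka ≤ 2 * ka - 1 by omega)).trans (yy_le hk))
  have h2 : 1 ≤ k := by
    have := (yy_ge k).trans (Nat.le_self_pow (show ka ≠ 0 by omega) _)
    omega
  have h3 : 4 * (k + 1) ≤ (8 ^ k) ^ 2 := by
    have h4 : k + 1 ≤ 2 ^ k := Nat.lt_two_pow_self
    have h5 : 2 ^ (k + 2) ≤ 2 ^ (3 * k * 2) := Nat.pow_le_pow_right (by norm_num) (by omega)
    rw [pow_mul, pow_mul, pow_add] at h5
    norm_num at h5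
    omega
  have h4 : (4 : ℝ) * (yy k : ℝ) ^ ka ≤ (8 ^ k) ^ 2 := by
    exact_mod_cast (Nat.mul_le_mul_left 4 h1).trans h3
  have h5 : 1 ≤ (yy k : ℝ) ^ ka * lam k ^ 2 := by
    rw [lam_sq, ← mul_assoc, ← pow_add]
    exact (Om_ge k).trans (mul_le_mul_of_nonneg_right
      (pow_le_pow_right₀ (yy_one k) (by omega)) (Om_pos k).le)
  refine (pow_le_pow_iff_left₀ (by norm_num) (mul_pos (lam_pos k) (by positivity)).le
    two_ne_zero).1 ?_
  rw [mul_pow]
  nlinarith [mul_le_mul_of_nonneg_left h4 (sq_nonneg (lam k))]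

end Pool.Agent.P.MP_d5a1e1_nt.T3
end

-- part Pool.Agent.P.MP_d5a1e1_nt.T3MassB
section

/-! Sizes and masses of the label sets. -/

namespace Pool.Agent.P.MP_d5a1e1_nt.T3

open Finset TB

variable [Kap]

theorem mem_XX {k : ℕ} {x : ℕ → ℕ} : x ∈ XX k ↔
    (∀ i < 2 * k, x i ≤ Ru (i / 2)) ∧ (∀ i, 2 * k ≤ i → x i = 0) ∧
      ∀ g, gsum (2 * k) g x ≤ RR k g ∧ RR k g ≤ gsum (2 * k) g x + cap g := by
  classical
  rw [XX, mem_filter, mem_Box, and_assoc]
  simp only [Nat.lt_succ_iff]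

theorem mem_XM {k : ℕ} {x : ℕ → ℕ} : x ∈ XM k ↔ x ∈ XX k ∧ (∀ i < 2 * k, 2 ≤ x i) ∧
    ∀ g, RR k g + 4 * TT g ≤ gsum (2 * k) g x + cap g := by
  classical
  rw [XM, mem_filter]

theorem mem_SS {k : ℕ} {y : ℕ → ℕ} : y ∈ SS k ↔
    y ∈ Box (2 * k) DD ∧ ∀ g, gsum (2 * k) g y ≤ 2 * RR k g + 32 * bb g + 4 * TT g := by
  classical
  rw [SS, mem_filter]

theorem ff_pos (k : ℕ) (x : ℕ → ℕ) : 0 < ff k x := prod_pos fun _ _ => cw_pos _

theorem ff_le_one (k : ℕ) (x : ℕ → ℕ) : ff k x ≤ 1 :=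
  prod_le_one (fun _ _ => (cw_pos _).le) fun _ _ => cw_le_one _

theorem T3MassB_DD (u : ℕ) : Ru u + 1 ≤ DD u := by
  have := Ru_pos u
  rw [DD]
  omega

theorem card_XX_le (k : ℕ) : (XX k).card ≤ Del k ^ 2 := by
  rw [← card_Gam]
  exact card_le_card fun x hx => mem_Box.2 ⟨fun i hi =>
    (Nat.lt_succ_of_le ((mem_XX.1 hx).1 i hi)).trans_le (T3MassB_DD _), (mem_XX.1 hx).2.1⟩

theorem gcnt_eq (k g : ℕ) : Lab.gcnt (2 * k) gr g = 2 * nn k g := card_group_digit k g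

theorem TT_le_bb (g : ℕ) : TT g ≤ bb g := Nat.le_self_pow (by norm_num) _

theorem four_TT_le (g : ℕ) : 4 * TT g ≤ cap g := by
  have h1 := TT_le_bb g
  have h2 := Nat.mul_le_mul_left (32 * bb g) (ga_big g)
  rw [cap]
  omega

theorem card_SS_rat (k : ℕ) : ((SS k).card : ℝ) * Om k ≤ (yy k : ℝ) ^ 2 * ph k ^ 2 := by
  have h1 : SS k ⊆ Lab.Xs (2 * k) gr fun g => 2 * RR k g + (32 * bb g + 4 * TT g) := fun y hy =>
    Lab.mem_Xs.2 ⟨(mem_Box.1 (mem_SS.1 hy).1).2, fun g => by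
      rw [← add_assoc]
      exact (mem_SS.1 hy).2 g⟩
  have h2 := (Nat.cast_le (α := ℝ) |>.2 (card_le_card h1)).trans_eq
    (Lab.card_Xs_eq _ (gr_mem' k))
  refine (mul_le_mul_of_nonneg_right h2 (Om_pos k).le).trans ?_
  rw [Om, ← prod_mul_distrib]
  have h3 : ∀ g ∈ range (gr k + 1),
      (((2 * RR k g + (32 * bb g + 4 * TT g) + Lab.gcnt (2 * k) gr g).choose
        (Lab.gcnt (2 * k) gr g) : ℕ) : ℝ) * cw (nn k g) ≤
      4 * ((RR k g + nn k g).choose (nn k g) : ℝ) ^ 2 := fun g _ => by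
    rw [gcnt_eq, cw_eq_tb]
    have := TT_le_bb g
    have := bb_pos g
    exact Lab.choose_two (by omega) (by omega)
  refine (prod_le_prod (fun _ _ => mul_nonneg (Nat.cast_nonneg _) (cw_pos _).le) h3).trans ?_
  rw [prod_mul_distrib, prod_const, card_range, prod_pow, ← ph]
  exact mul_le_mul_of_nonneg_right (by exact_mod_cast four_pow_gr k) (sq_nonneg _)

theorem mass_XM (k : ℕ) : ph k / 2 ≤ ∑ x ∈ XM k, ff k x := by
  classical
  have h1 := Lab.sum_Xs_gen (n := 2 * k) (gr := gr) (R := RR k)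
    (fun g m => if 2 ≤ m ∧ m ≤ 32 * bb g * ga g then Lab.cw m else 0)
    (fun g m => if m + 4 * TT g ≤ 32 * bb g * ga g then 1 else 0) _ (gr_mem' k)
  have hT : ∀ g, (1024 : ℝ) ≤ TT g := fun g => by exact_mod_cast TT_big g
  have h2 : ∀ g, 64 / (TT g : ℝ) ≤ 1 := fun g => by
    rw [div_le_one (by linarith [hT g])]
    linarith [hT g]
  have h3 : ph k / 2 ≤ ∏ g ∈ range (gr k + 1),
      (1 - 64 / (TT g : ℝ)) * ((RR k g + nn k g).choose (nn k g) : ℝ) := by
    rw [prod_mul_distrib, ← ph, div_eq_inv_mul]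
    refine mul_le_mul_of_nonneg_right (le_trans ?_
      (one_sub_sum_le _ _ (fun _ => by positivity) h2)) (ph_pos k).le
    have h4 := sum_inv_TT (gr k + 1)
    rw [sum_congr rfl fun g _ => show 64 / (TT g : ℝ) = 64 * (1 / TT g) by ring, ← mul_sum]
    linarith
  refine h3.trans ((prod_le_prod (fun g _ => mul_nonneg (sub_nonneg.2 (h2 g))
    (Nat.cast_nonneg _)) fun g _ => ?_).trans (h1.symm.trans_le ?_))
  · rw [gcnt_eq]
    exact Lab.shell_mass (TT_big g) (nn_le k g) rfl (two_pow_ga g)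
  have h4 : XM k ⊆ Lab.Xs (2 * k) gr (RR k) := fun x hx =>
    Lab.mem_Xs.2 ⟨(mem_XX.1 (mem_XM.1 hx).1).2.1, fun g => ((mem_XX.1 (mem_XM.1 hx).1).2.2 g).1⟩
  rw [← sum_subset h4 fun x hx hx' => ?_]
  · refine sum_le_sum fun x _ => ?_
    refine (mul_le_of_le_one_right (prod_nonneg fun _ _ => ?_)
      (prod_le_one (fun _ _ => ?_) fun _ _ => ?_)).trans (prod_le_prod (fun _ _ => ?_) fun _ _ => ?_)
    · split_ifs
      exacts [(Lab.cw_pos _).le, le_rfl]
    · split_ifs <;> norm_num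
    · split_ifs <;> norm_num
    · split_ifs
      exacts [(Lab.cw_pos _).le, le_rfl]
    · split_ifs
      exacts [(congrFun cw_eq_tb _).ge, (cw_pos _).le]
  · by_contra h
    obtain ⟨h5, h6⟩ := mul_ne_zero_iff.1 h
    rw [prod_ne_zero_iff] at h5 h6
    have h7 : ∀ i < 2 * k, 2 ≤ x i ∧ x i ≤ Ru (i / 2) := fun i hi => by
      by_contra h8
      exact h5 i (mem_range.2 hi) (if_neg h8)
    have h8 : ∀ g, RR k g + 4 * TT g ≤ gsum (2 * k) g x + cap g := fun g => by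
      by_cases hg : g ∈ range (gr k + 1)
      · have h9 : RR k g - gsum (2 * k) g x + 4 * TT g ≤ cap g := by
          by_contra h8
          exact h6 g hg (if_neg h8)
        omega
      · have := four_TT_le g
        rw [RR, nn_zero (by simpa using hg)]
        omega
    exact hx' (mem_XM.2 ⟨mem_XX.2 ⟨fun i hi => (h7 i hi).2, (Lab.mem_Xs.1 hx).1, fun g =>
      ⟨(Lab.mem_Xs.1 hx).2 g, by have := h8 g; omega⟩⟩, fun i hi => (h7 i hi).1, h8⟩)

theorem mm_ge (k : ℕ) : lam k * Del k ≤ mm k * ph k :=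
  (div_le_iff₀ (ph_pos k)).1 (Nat.le_ceil _)

theorem T3MassB_two {k : ℕ} (hk : k0 ≤ k + 1) : 2 * ph k ≤ lam k * Del k :=
  calc 2 * ph k ≤ lam k * 8 ^ k * ph k := mul_le_mul_of_nonneg_right (lam_big hk) (ph_pos k).le
    _ = lam k * (ph k * 8 ^ k) := by ring
    _ ≤ _ := mul_le_mul_of_nonneg_left (ph_le8 k) (lam_pos k).le

theorem mm_le {k : ℕ} (hk : k0 ≤ k + 1) : mm k * ph k ≤ 2 * lam k * Del k := by
  have h0 := ph_pos k
  have h1 : (mm k : ℝ) ≤ lam k * Del k / ph k + 1 :=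
    (Nat.ceil_lt_add_one (div_nonneg (mul_nonneg (lam_pos k).le (Nat.cast_nonneg _)) h0.le)).le
  have h2 := T3MassB_two hk
  have h4 := mul_le_mul_of_nonneg_right h1 h0.le
  rw [add_mul, div_mul_cancel₀ _ h0.ne'] at h4
  linarith

theorem mm_two {k : ℕ} (hk : k0 ≤ k + 1) : 2 ≤ mm k := by
  exact_mod_cast le_of_mul_le_mul_right ((T3MassB_two hk).trans (mm_ge k)) (ph_pos k)

theorem T3MassB_mm {k : ℕ} (hk : k0 ≤ k) : mm k * rho k ≤ Del k ^ 2 := by
  have h0 := ka_big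
  have h1 : mm k ≤ 2 * yy k ^ (ka + 2) * Del k := by
    have := ((le_mul_of_one_le_right (Nat.cast_nonneg _) (one_le_ph k)).trans
      (mm_le (hk.trans (Nat.le_succ k)))).trans (mul_le_mul_of_nonneg_right
        (mul_le_mul_of_nonneg_left (lam_le k) (by norm_num)) (Nat.cast_nonneg _))
    exact_mod_cast this
  have h2 : yy k ^ (ka + 2) * yy k ^ (3 * ka) ≤ k ^ 3 := by
    refine le_trans ?_ (Nat.pow_le_pow_left (yy_le hk) 3)
    rw [← pow_add, ← pow_mul]
    exact Nat.pow_le_pow_right (by have := yy_ge k; omega) (by omega)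
  have h3 : 2 * k ≤ 2 ^ k := by
    obtain ⟨m, rfl⟩ := Nat.exists_eq_add_of_le' (k0_pos.trans hk)
    have : m < 2 ^ m := Nat.lt_two_pow_self
    rw [pow_succ]
    omega
  have h4 : 8 ^ k ≤ Del k := by
    exact_mod_cast (le_mul_of_one_le_left (by positivity) (one_le_ph k)).trans (ph_le8 k)
  have h5 := Nat.pow_le_pow_left h3 3
  rw [mul_pow, ← pow_mul, mul_comm k 3, pow_mul] at h5
  calc _ ≤ 2 * yy k ^ (ka + 2) * Del k * yy k ^ (3 * ka) := Nat.mul_le_mul h1 (rho_le k)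
    _ = 2 * (yy k ^ (ka + 2) * yy k ^ (3 * ka)) * Del k := by ring
    _ ≤ _ := by
      rw [sq]
      exact Nat.mul_le_mul_right _ (by norm_num at h5; omega)

theorem mm_XX_le {k : ℕ} (hk : k0 ≤ k) :
    mm k * (XX k).card * rho k ≤ 2 ^ yy k ^ (2 * ka + 1) := by
  rw [mul_right_comm]
  refine (Nat.mul_le_mul (T3MassB_mm hk) (card_XX_le k)).trans ?_
  rw [← pow_add]
  exact Del_le hk

theorem mm_le_pow {k : ℕ} (hk : k0 ≤ k) : mm k ≤ 2 ^ yy k ^ (2 * ka + 1) :=
  (Nat.le_mul_of_pos_right _ (rho_pos k)).trans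
    ((T3MassB_mm hk).trans ((Nat.pow_le_pow_right (Del_pos k) (by norm_num)).trans (Del_le hk)))

end Pool.Agent.P.MP_d5a1e1_nt.T3
end

-- part Pool.Agent.P.MP_d5a1e1_nt.TBLO
section

/-! Anti-concentration for sums of independent symmetric splittings. -/

namespace Pool.Agent.P.MP_d5a1e1_nt.TB

open Finset

theorem cb_sq (a : ℕ) : (2 * a + 1) * (Nat.centralBinom a) ^ 2 ≤ 16 ^ a := by
  induction a with
  | zero => simp
  | succ a ih =>
    have h := Nat.succ_mul_centralBinom_succ a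
    have h1 : (a + 1) ^ 2 * ((2 * (a + 1) + 1) * (Nat.centralBinom (a + 1)) ^ 2) ≤
        (a + 1) ^ 2 * 16 ^ (a + 1) := by
      calc (a + 1) ^ 2 * ((2 * (a + 1) + 1) * (Nat.centralBinom (a + 1)) ^ 2)
          = (2 * a + 3) * ((a + 1) * Nat.centralBinom (a + 1)) ^ 2 := by ring
        _ = (4 * ((2 * a + 3) * (2 * a + 1))) * ((2 * a + 1) * (Nat.centralBinom a) ^ 2) := by
          rw [h]; ring
        _ ≤ (16 * (a + 1) ^ 2) * 16 ^ a := Nat.mul_le_mul (by nlinarith) ih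
        _ = (a + 1) ^ 2 * 16 ^ (a + 1) := by ring
    exact Nat.le_of_mul_le_mul_left h1 (by positivity)

theorem mid_sq (m : ℕ) : (m + 1) * (m.choose (m / 2)) ^ 2 ≤ 4 ^ m := by
  obtain ⟨a, rfl | rfl⟩ := Nat.even_or_odd' m
  · have := cb_sq a
    rw [Nat.centralBinom_eq_two_mul_choose] at this
    rw [Nat.mul_div_cancel_left _ (by norm_num : 0 < 2), pow_mul]
    exact this
  · have h := cb_sq (a + 1)
    have h2 : Nat.centralBinom (a + 1) = 2 * (2 * a + 1).choose a := by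
      rw [Nat.centralBinom_eq_two_mul_choose, show 2 * (a + 1) = (2 * a + 1) + 1 by ring,
        Nat.choose_succ_succ, Nat.choose_symm_half]
      ring
    rw [show (2 * a + 1) / 2 = a by omega]
    rw [h2, show (16 : ℕ) ^ (a + 1) = 4 * 4 ^ (2 * a + 1) by
      rw [show (16 : ℕ) = 4 ^ 2 by norm_num, ← pow_mul]; ring] at h
    nlinarith [Nat.zero_le (((2 * a + 1).choose a) ^ 2)]

theorem mid_le (m t : ℕ) :
    (m.choose (m / 2) : ℝ) / 2 ^ m ≤ 1 / √(t + 1) + 2 ^ t * (1 / 2) ^ m := by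
  have hs : 0 < √((t : ℝ) + 1) := Real.sqrt_pos.2 (by positivity)
  have hq : ((m : ℝ) + 1) * (m.choose (m / 2) : ℝ) ^ 2 ≤ (2 ^ m) ^ 2 := by
    have := mid_sq m
    rw [← pow_mul, mul_comm m 2, pow_mul]
    exact_mod_cast this
  have h2 : (0 : ℝ) < 2 ^ m := by positivity
  have hc : (0 : ℝ) ≤ (m.choose (m / 2) : ℝ) := by positivity
  rcases le_or_gt t m with h | h
  · have h3 : (m.choose (m / 2) : ℝ) / 2 ^ m ≤ 1 / √(t + 1) := by
      rw [div_le_div_iff₀ h2 hs, one_mul]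
      refine abs_le_of_sq_le_sq' ?_ h2.le |>.2
      rw [mul_pow, Real.sq_sqrt (by positivity)]
      have : (t : ℝ) ≤ m := by exact_mod_cast h
      nlinarith [sq_nonneg (m.choose (m / 2) : ℝ)]
    have : (0 : ℝ) ≤ 2 ^ t * (1 / 2) ^ m := by positivity
    linarith
  · have h3 : (m.choose (m / 2) : ℝ) ≤ 2 ^ m := by
      refine abs_le_of_sq_le_sq' ?_ h2.le |>.2
      nlinarith [sq_nonneg (m.choose (m / 2) : ℝ), (by positivity : (0 : ℝ) ≤ m)]
    have h4 : (2 : ℝ) ^ m ≤ 2 ^ t := pow_le_pow_right₀ (by norm_num) h.le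
    have h5 : (m.choose (m / 2) : ℝ) / 2 ^ m ≤ 1 := (div_le_one h2).2 h3
    have h6 : (1 : ℝ) ≤ 2 ^ t * (1 / 2) ^ m := by
      rw [one_div, inv_pow, ← div_eq_mul_inv, le_div_iff₀ h2]; linarith
    have : 0 ≤ 1 / √((t : ℝ) + 1) := by positivity
    linarith

theorem geo_le (s t : ℕ) (h : 4 * t ≤ s) : (2 : ℝ) ^ t * (3 / 4) ^ s ≤ 1 / √(t + 1) := by
  have hs : 0 < √((t : ℝ) + 1) := Real.sqrt_pos.2 (by positivity)
  have h1 : ((3 : ℝ) / 4) ^ s ≤ (3 / 4) ^ (4 * t) :=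
    pow_le_pow_of_le_one (by norm_num) (by norm_num) h
  have h2 : (2 : ℝ) ^ t * (3 / 4) ^ (4 * t) = (81 / 128) ^ t := by
    rw [pow_mul, ← mul_pow]; norm_num
  have h3 : ((81 : ℝ) / 128) ^ t * √(t + 1) ≤ 1 := by
    refine abs_le_of_sq_le_sq' ?_ zero_le_one |>.2
    rw [mul_pow, Real.sq_sqrt (by positivity), ← pow_mul, mul_comm t 2, pow_mul]
    have h4 : ((t : ℝ) + 1) ≤ 2 ^ t := by exact_mod_cast Nat.lt_two_pow_self
    have h5 : (((81 : ℝ) / 128) ^ 2) ^ t ≤ (1 / 2) ^ t :=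
      pow_le_pow_left₀ (by norm_num) (by norm_num) t
    calc (((81 : ℝ) / 128) ^ 2) ^ t * (t + 1) ≤ (1 / 2) ^ t * 2 ^ t :=
          mul_le_mul h5 h4 (by positivity) (by positivity)
      _ = 1 ^ 2 := by rw [← mul_pow]; norm_num
  rw [le_div_iff₀ hs]
  calc (2 : ℝ) ^ t * (3 / 4) ^ s * √(t + 1) ≤ 2 ^ t * (3 / 4) ^ (4 * t) * √(t + 1) := by gcongr
    _ ≤ 1 := by rw [h2]; exact h3

/-- The part `a` of `y` is far from the middle. -/
def Far (b y a : ℕ) : Prop := 2 * a + b ≤ y ∨ y + b ≤ 2 * a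

instance (b y a : ℕ) : Decidable (Far b y a) := by unfold Far; infer_instance

section
variable {w : ℕ → ℝ} (hw0 : ∀ x, 0 ≤ w x)
  (hw1 : ∀ n, ∑ a ∈ range (n + 1), w a * w (n - a) = 1)
  (hw2 : ∀ x : ℕ, w x ^ 2 * (2 * x + 1) ≤ 1)

include hw2 in
theorem near_le {b y : ℕ} (hb : 0 < b) (h : 3 * b ≤ y) :
    ∑ a ∈ (range (y + 1)).filter (fun a => ¬Far b y a), w a * w (y - a) ≤ 1 / 2 := by
  have hb' : (0 : ℝ) < b := by exact_mod_cast hb
  have key : ∀ x : ℕ, b ≤ x → w x ^ 2 ≤ 1 / (2 * b) := fun x hx => by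
    rw [le_div_iff₀ (by positivity)]
    have : (b : ℝ) ≤ x := by exact_mod_cast hx
    nlinarith [hw2 x, sq_nonneg (w x)]
  have hc : ((range (y + 1)).filter (fun a => ¬Far b y a)).card ≤ b := by
    calc _ ≤ (Ico ((y - b) / 2 + 1) ((y - b) / 2 + 1 + b)).card := by
          refine card_le_card fun a ha => ?_
          simp only [mem_filter, mem_range, Far, not_or, not_le] at ha
          rw [mem_Ico]; omega
      _ = b := by simp
  calc _ ≤ ∑ a ∈ (range (y + 1)).filter (fun a => ¬Far b y a), 1 / (2 * (b : ℝ)) := by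
        refine sum_le_sum fun a ha => ?_
        simp only [mem_filter, mem_range, Far, not_or, not_le] at ha
        have h1 := key a (by omega)
        have h2 := key (y - a) (by omega)
        nlinarith [sq_nonneg (w a - w (y - a))]
    _ ≤ b * (1 / (2 * (b : ℝ))) := by
        rw [sum_const, nsmul_eq_mul]
        exact mul_le_mul_of_nonneg_right (by exact_mod_cast hc) (by positivity)
    _ = 1 / 2 := by field_simp

variable {ι : Type*} [Fintype ι] [DecidableEq ι]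

/-- Splittings of `y`. -/
def Bx (y : ι → ℕ) : Finset (ι → ℕ) := Fintype.piFinset fun i => range (y i + 1)

/-- Weight of a splitting. -/
def Pw (w : ℕ → ℝ) (y x : ι → ℕ) : ℝ := ∏ i, w (x i) * w (y i - x i)

/-- The far coordinates. -/
def Gd (b : ℕ) (y x : ι → ℕ) : Finset ι := univ.filter fun i => Far b (y i) (x i)

/-- Reflection of the coordinates in `E`. -/
def tg (y : ι → ℕ) (E : Finset ι) (x : ι → ℕ) : ι → ℕ :=
  fun i => if i ∈ E then y i - x i else x i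

theorem mem_Bx {y x : ι → ℕ} : x ∈ Bx y ↔ ∀ i, x i ≤ y i := by
  simp [Bx, Fintype.mem_piFinset]

omit [DecidableEq ι] in
include hw0 in
theorem Pw_nonneg (y x : ι → ℕ) : 0 ≤ Pw w y x :=
  prod_nonneg fun _ _ => mul_nonneg (hw0 _) (hw0 _)

include hw1 in
theorem sum_Pw (y : ι → ℕ) : ∑ x ∈ Bx y, Pw w y x = 1 := by
  unfold Bx Pw
  rw [← prod_univ_sum (fun i => range (y i + 1)) fun i a => w a * w (y i - a)]
  simp [hw1]

include hw0 hw1 hw2 in
theorem sum_half_le {b : ℕ} (hb : 0 < b) (y : ι → ℕ) :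
    ∑ x ∈ Bx y, Pw w y x * (1 / 2) ^ (Gd b y x).card ≤
      (3 / 4) ^ (univ.filter fun i => 3 * b ≤ y i).card := by
  have h1 : ∀ x : ι → ℕ, Pw w y x * (1 / 2) ^ (Gd b y x).card =
      ∏ i, w (x i) * w (y i - x i) * (if Far b (y i) (x i) then (1 / 2 : ℝ) else 1) := by
    intro x
    rw [prod_mul_distrib, prod_ite, prod_const, prod_const_one, mul_one]
    rfl
  simp only [h1]
  unfold Bx
  rw [← prod_univ_sum (fun i => range (y i + 1))
    fun i a => w a * w (y i - a) * (if Far b (y i) a then (1 / 2 : ℝ) else 1)]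
  have h2 : ((3 : ℝ) / 4) ^ (univ.filter fun i => 3 * b ≤ y i).card =
      ∏ i, if 3 * b ≤ y i then (3 / 4 : ℝ) else 1 := by
    rw [prod_ite, prod_const, prod_const_one, mul_one]
  rw [h2]
  refine prod_le_prod (fun i _ => sum_nonneg fun a _ =>
    mul_nonneg (mul_nonneg (hw0 _) (hw0 _)) (by split_ifs <;> norm_num)) fun i _ => ?_
  have h3 : ∑ a ∈ range (y i + 1), w a * w (y i - a) * (if Far b (y i) a then (1 / 2 : ℝ) else 1) =
      1 / 2 * ∑ a ∈ range (y i + 1), w a * w (y i - a) +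
        1 / 2 * ∑ a ∈ (range (y i + 1)).filter (fun a => ¬Far b (y i) a), w a * w (y i - a) := by
    rw [sum_filter, mul_sum, mul_sum, ← sum_add_distrib]
    refine sum_congr rfl fun a _ => ?_
    split_ifs <;> ring
  rw [h3, hw1]
  split_ifs with h
  · linarith [near_le hw2 hb h]
  · have : ∑ a ∈ (range (y i + 1)).filter (fun a => ¬Far b (y i) a), w a * w (y i - a) ≤
        ∑ a ∈ range (y i + 1), w a * w (y i - a) :=
      sum_le_sum_of_subset_of_nonneg (filter_subset _ _) fun a _ _ => mul_nonneg (hw0 _) (hw0 _)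
    rw [hw1] at this
    linarith

theorem tg_mem {y x : ι → ℕ} (hx : x ∈ Bx y) (E : Finset ι) : tg y E x ∈ Bx y := by
  rw [mem_Bx] at hx ⊢
  intro i
  have := hx i
  unfold tg; split_ifs <;> omega

theorem tg_tg {y x : ι → ℕ} (hx : x ∈ Bx y) (E : Finset ι) : tg y E (tg y E x) = x := by
  funext i
  have := mem_Bx.1 hx i
  unfold tg; split_ifs <;> omega

theorem Gd_tg {y x : ι → ℕ} (hx : x ∈ Bx y) (b : ℕ) (E : Finset ι) :
    Gd b y (tg y E x) = Gd b y x := by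
  refine filter_congr fun i _ => ?_
  have := mem_Bx.1 hx i
  unfold tg Far; split_ifs <;> omega

theorem Pw_tg {y x : ι → ℕ} (hx : x ∈ Bx y) (E : Finset ι) : Pw w y (tg y E x) = Pw w y x := by
  refine prod_congr rfl fun i _ => ?_
  have := mem_Bx.1 hx i
  unfold tg; split_ifs
  · rw [Nat.sub_sub_self this, mul_comm]
  · rfl

/-- Sperner step. -/
theorem card_window {y x : ι → ℕ} (hx : x ∈ Bx y) {b : ℕ} (lo : ℕ) :
    ((Gd b y x).powerset.filter fun E =>
      lo ≤ ∑ i, tg y E x i ∧ ∑ i, tg y E x i < lo + b).card ≤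
      (Gd b y x).card.choose ((Gd b y x).card / 2) := by
  set G := Gd b y x with hG
  let U : Finset ι := univ.filter fun i => y i < 2 * x i
  let φ : Finset ι → Finset G := fun E => univ.filter fun i : G => (i.1 ∈ E ↔ i.1 ∉ U)
  let 𝒜 := G.powerset.filter fun E => lo ≤ ∑ i, tg y E x i ∧ ∑ i, tg y E x i < lo + b
  have hinj : Set.InjOn φ 𝒜 := by
    intro E hE E' hE' h
    have h1 : E ⊆ G := mem_powerset.1 (mem_filter.1 hE).1
    have h2 : E' ⊆ G := mem_powerset.1 (mem_filter.1 hE').1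
    have h3 : ∀ i ∈ G, (i ∈ E ↔ i ∈ E') := fun i hi => by
      have : (⟨i, hi⟩ : G) ∈ φ E ↔ (⟨i, hi⟩ : G) ∈ φ E' := by rw [h]
      simp only [φ, mem_filter, mem_univ, true_and] at this
      tauto
    ext i
    exact ⟨fun hi => (h3 i (h1 hi)).1 hi, fun hi => (h3 i (h2 hi)).2 hi⟩
  have hanti : IsAntichain (· ⊆ ·) ((𝒜.image φ : Finset (Finset G)) : Set (Finset G)) := by
    intro A hA B hB hne hsub
    obtain ⟨E, hE, rfl⟩ := mem_image.1 (mem_coe.1 hA)
    obtain ⟨E', hE', rfl⟩ := mem_image.1 (mem_coe.1 hB)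
    obtain ⟨i0, hi0, hi1⟩ := exists_of_ssubset (ssubset_of_subset_of_ne hsub hne)
    have h1 : E ⊆ G := mem_powerset.1 (mem_filter.1 hE).1
    have h2 : E' ⊆ G := mem_powerset.1 (mem_filter.1 hE').1
    have h3 : ∀ i, tg y E x i + (if i = i0.1 then b else 0) ≤ tg y E' x i := by
      intro i
      have hxy := mem_Bx.1 hx i
      by_cases hi : i ∈ G
      · have hs : (⟨i, hi⟩ : G) ∈ φ E → (⟨i, hi⟩ : G) ∈ φ E' := fun h => hsub h
        have hf : Far b (y i) (x i) := (mem_filter.1 hi).2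
        simp only [φ, U, mem_filter, mem_univ, true_and] at hs hi0 hi1
        unfold Far at hf
        by_cases h0 : i = i0.1
        · subst h0
          unfold tg
          by_cases a1 : i0.1 ∈ E <;> by_cases a2 : i0.1 ∈ E' <;>
            simp only [a1, a2, true_iff, false_iff, not_not, if_true, if_false] at hi0 hi1 ⊢ <;>
            omega
        · unfold tg
          by_cases a1 : i ∈ E <;> by_cases a2 : i ∈ E' <;>
            simp only [a1, a2, h0, true_iff, false_iff, not_not, if_true, if_false] at hs ⊢ <;>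
            omega
      · have h0 : i ≠ i0.1 := fun h => hi (h ▸ i0.2)
        unfold tg
        rw [if_neg h0, if_neg fun h => hi (h1 h), if_neg fun h => hi (h2 h)]
        rfl
    have h4 := sum_le_sum fun i (_ : i ∈ (univ : Finset ι)) => h3 i
    rw [sum_add_distrib, sum_ite_eq' univ i0.1 fun _ => b, if_pos (mem_univ _)] at h4
    have h5 := (mem_filter.1 hE).2
    have h6 := (mem_filter.1 hE').2
    omega
  have := hanti.sperner
  rw [card_image_of_injOn hinj, Fintype.card_coe] at this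
  exact this

include hw0 in
theorem sum_window_le {b : ℕ} (y : ι → ℕ) (lo : ℕ) :
    ∑ x ∈ (Bx y).filter (fun x => lo ≤ ∑ i, x i ∧ ∑ i, x i < lo + b), Pw w y x ≤
      ∑ x ∈ Bx y, Pw w y x *
        (((Gd b y x).card.choose ((Gd b y x).card / 2) : ℝ) / 2 ^ (Gd b y x).card) := by
  let A : (ι → ℕ) → Prop := fun x => lo ≤ ∑ i, x i ∧ ∑ i, x i < lo + b
  let T : Finset (Σ _ : ι → ℕ, Finset ι) := (Bx y).sigma fun x => (Gd b y x).powerset
  let u : (ι → ℕ) → ℝ := fun x => Pw w y x / 2 ^ (Gd b y x).card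
  have h1 : ∑ x ∈ (Bx y).filter A, Pw w y x = ∑ z ∈ T, if A z.1 then u z.1 else 0 := by
    rw [sum_sigma, sum_filter]
    refine sum_congr rfl fun x _ => ?_
    simp only [sum_const, card_powerset, nsmul_eq_mul]
    split_ifs
    · simp only [u]; push_cast; field_simp
    · simp
  have h2 : ∑ z ∈ T, (if A z.1 then u z.1 else 0) =
      ∑ z ∈ T, if A (tg y z.2 z.1) then u z.1 else 0 := by
    refine sum_nbij' (fun z => ⟨tg y z.2 z.1, z.2⟩) (fun z => ⟨tg y z.2 z.1, z.2⟩) ?_ ?_ ?_ ?_ ?_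
    · intro z hz
      rw [mem_sigma] at hz ⊢
      exact ⟨tg_mem hz.1 _, by rw [Gd_tg hz.1]; exact hz.2⟩
    · intro z hz
      rw [mem_sigma] at hz ⊢
      exact ⟨tg_mem hz.1 _, by rw [Gd_tg hz.1]; exact hz.2⟩
    · intro z hz
      simp only [tg_tg (mem_sigma.1 hz).1]
    · intro z hz
      simp only [tg_tg (mem_sigma.1 hz).1]
    · intro z hz
      have hz1 := (mem_sigma.1 hz).1
      simp only [tg_tg hz1, u, Pw_tg hz1, Gd_tg hz1]
  rw [h1, h2, sum_sigma]
  refine sum_le_sum fun x hx => ?_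
  dsimp only
  rw [← sum_filter, sum_const, nsmul_eq_mul]
  have h3 : (((Gd b y x).powerset.filter fun E => A (tg y E x)).card : ℝ) ≤
      ((Gd b y x).card.choose ((Gd b y x).card / 2) : ℝ) := by
    exact_mod_cast card_window hx lo
  have h4 : 0 ≤ u x := div_nonneg (Pw_nonneg hw0 y x) (by positivity)
  calc _ ≤ ((Gd b y x).card.choose ((Gd b y x).card / 2) : ℝ) * u x :=
        mul_le_mul_of_nonneg_right h3 h4
    _ = _ := by simp only [u]; ring

include hw0 hw1 hw2 in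
theorem window_le {b : ℕ} (hb : 0 < b) (y : ι → ℕ) (lo t : ℕ)
    (ht : 4 * t ≤ (univ.filter fun i => 3 * b ≤ y i).card) :
    ∑ x ∈ (Bx y).filter (fun x => lo ≤ ∑ i, x i ∧ ∑ i, x i < lo + b), Pw w y x ≤
      2 / √(t + 1) := by
  refine (sum_window_le hw0 y lo).trans ?_
  calc _ ≤ ∑ x ∈ Bx y, Pw w y x * (1 / √(t + 1) + 2 ^ t * (1 / 2) ^ (Gd b y x).card) :=
        sum_le_sum fun x _ => mul_le_mul_of_nonneg_left (mid_le _ t) (Pw_nonneg hw0 y x)
    _ = 1 / √(t + 1) * ∑ x ∈ Bx y, Pw w y x +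
          2 ^ t * ∑ x ∈ Bx y, Pw w y x * (1 / 2) ^ (Gd b y x).card := by
        rw [mul_sum, mul_sum, ← sum_add_distrib]
        exact sum_congr rfl fun x _ => by ring
    _ ≤ 1 / √(t + 1) + 1 / √(t + 1) := by
        rw [sum_Pw hw1, mul_one]
        have h1 := sum_half_le hw0 hw1 hw2 hb y
        have h2 := geo_le _ t ht
        have h3 := mul_le_mul_of_nonneg_left h1 (by positivity : (0 : ℝ) ≤ 2 ^ t)
        linarith
    _ = 2 / √(t + 1) := by ring

include hw0 hw1 hw2 in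
theorem windows_le {b : ℕ} (hb : 0 < b) (y : ι → ℕ) (lo t q : ℕ)
    (ht : 4 * t ≤ (univ.filter fun i => 3 * b ≤ y i).card) :
    ∑ x ∈ (Bx y).filter (fun x => lo ≤ ∑ i, x i ∧ ∑ i, x i < lo + q * b), Pw w y x ≤
      q * (2 / √(t + 1)) := by
  induction q with
  | zero =>
    rw [filter_false_of_mem fun x _ => by omega]
    simp
  | succ q ih =>
    have h1 := window_le hw0 hw1 hw2 hb y (lo + q * b) t ht
    have h2 : ∑ x ∈ (Bx y).filter (fun x => lo ≤ ∑ i, x i ∧ ∑ i, x i < lo + (q + 1) * b),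
        Pw w y x =
        ∑ x ∈ (Bx y).filter (fun x => lo ≤ ∑ i, x i ∧ ∑ i, x i < lo + q * b), Pw w y x +
        ∑ x ∈ (Bx y).filter (fun x => lo + q * b ≤ ∑ i, x i ∧ ∑ i, x i < lo + q * b + b),
          Pw w y x := by
      rw [sum_filter, sum_filter, sum_filter, ← sum_add_distrib]
      refine sum_congr rfl fun x _ => ?_
      rw [add_mul, one_mul]
      split_ifs <;> first | omega | ring
    rw [h2]; push_cast; linarith

include hw0 hw1 hw2 in
/-- One group of `2 n` digits. -/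
theorem shell_le (hw3 : ∀ n : ℕ, 0 < n → 1 ≤ 4 * n * w n ^ 2) {b γ n : ℕ} (hb : 0 < b)
    (hγ : 0 < γ) (hn : Fintype.card ι = 2 * n) (y : ι → ℕ) (hy : ∀ i, y i ≤ 64 * b * γ) :
    ∑ x ∈ (Bx y).filter
      (fun x => ∑ i, x i ≤ 32 * b * n ∧ 32 * b * n ≤ ∑ i, x i + 32 * b * γ), Pw w y x ≤
      512 * γ ^ 2 * w n := by
  have hγ' : (1 : ℝ) ≤ γ := by exact_mod_cast hγ
  rcases Nat.eq_zero_or_pos n with rfl | hn0
  · have h0 : w 0 = 1 := by
      have := hw1 0
      simp only [zero_add, range_one, sum_singleton, tsub_zero] at this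
      nlinarith [hw0 0]
    have h1 := sum_le_sum_of_subset_of_nonneg (filter_subset
      (fun x : ι → ℕ => ∑ i, x i ≤ 32 * b * 0 ∧ 32 * b * 0 ≤ ∑ i, x i + 32 * b * γ) (Bx y))
      fun x _ _ => Pw_nonneg hw0 y x
    rw [sum_Pw hw1] at h1
    rw [h0]
    nlinarith
  rcases ((Bx y).filter (fun x => ∑ i, x i ≤ 32 * b * n ∧
      32 * b * n ≤ ∑ i, x i + 32 * b * γ)).eq_empty_or_nonempty with he | ⟨x0, hx0⟩
  · rw [he, sum_empty]
    exact mul_nonneg (by positivity) (hw0 n)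
  set s := (univ.filter fun i => 3 * b ≤ y i).card with hs
  have hsum : ∑ i, y i ≤ 2 * n * (3 * b) + s * (64 * b * γ) := by
    calc ∑ i, y i ≤ ∑ i, (3 * b + if 3 * b ≤ y i then 64 * b * γ else 0) :=
          sum_le_sum fun i _ => by
            have := hy i
            split_ifs <;> omega
      _ = _ := by
          rw [sum_add_distrib, ← sum_filter, sum_const, sum_const, card_univ, hn]
          rfl
  have hx1 : ∑ i, x0 i ≤ ∑ i, y i := sum_le_sum fun i _ => mem_Bx.1 (mem_filter.1 hx0).1 i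
  have hx2 := (mem_filter.1 hx0).2.2
  have h26 : 26 * n ≤ 64 * γ * s + 32 * γ := by
    refine Nat.le_of_mul_le_mul_left (c := b) ?_ hb
    nlinarith
  have ht : n ≤ 12 * γ * (s / 4 + 1) := by
    have : s ≤ 4 * (s / 4 + 1) := by omega
    nlinarith [Nat.mul_le_mul_left γ this, Nat.zero_le (γ * (s / 4))]
  have h1 := windows_le hw0 hw1 hw2 hb y (32 * b * n - 32 * b * γ) (s / 4) (32 * γ + 1)
    (by omega)
  have h2 : ∑ x ∈ (Bx y).filter
      (fun x => ∑ i, x i ≤ 32 * b * n ∧ 32 * b * n ≤ ∑ i, x i + 32 * b * γ), Pw w y x ≤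
      ∑ x ∈ (Bx y).filter (fun x => 32 * b * n - 32 * b * γ ≤ ∑ i, x i ∧
        ∑ i, x i < 32 * b * n - 32 * b * γ + (32 * γ + 1) * b), Pw w y x := by
    refine sum_le_sum_of_subset_of_nonneg (fun x hx => ?_) fun x _ _ => Pw_nonneg hw0 y x
    rw [mem_filter] at hx ⊢
    refine ⟨hx.1, by omega, ?_⟩
    have : (32 * γ + 1) * b = 32 * b * γ + b := by ring
    omega
  refine h2.trans (h1.trans ?_)
  have hq : 0 < √(((s / 4 : ℕ) : ℝ) + 1) := Real.sqrt_pos.2 (by positivity)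
  have h3 : 1 ≤ 7 * γ * w n * √(((s / 4 : ℕ) : ℝ) + 1) := by
    refine abs_le_of_sq_le_sq' ?_ (mul_nonneg (mul_nonneg (by positivity) (hw0 n)) hq.le) |>.2
    rw [mul_pow, Real.sq_sqrt (by positivity)]
    have h4 := hw3 n hn0
    have h5 : (n : ℝ) ≤ 12 * γ * (((s / 4 : ℕ) : ℝ) + 1) := by exact_mod_cast ht
    have h6 : (0 : ℝ) ≤ w n ^ 2 * (((s / 4 : ℕ) : ℝ) + 1) := by positivity
    have h7 := mul_le_mul_of_nonneg_right h5 (sq_nonneg (w n))
    have h8 : (γ : ℝ) ≤ γ ^ 2 := by nlinarith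
    have h9 := mul_le_mul_of_nonneg_right h8 h6
    nlinarith
  have h4 : 2 / √(((s / 4 : ℕ) : ℝ) + 1) ≤ 14 * γ * w n := by
    rw [div_le_iff₀ hq]; linarith
  push_cast
  have h5 : (0 : ℝ) ≤ γ * w n := mul_nonneg (by positivity) (hw0 n)
  calc (32 * (γ : ℝ) + 1) * (2 / √(((s / 4 : ℕ) : ℝ) + 1)) ≤ (33 * γ) * (14 * γ * w n) :=
        mul_le_mul (by linarith) h4 (by positivity) (by positivity)
    _ ≤ 512 * γ ^ 2 * w n := by nlinarith

/-- Sums over a product set of functions that factor over the fibres of `gr`. -/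
theorem sum_fibre_prod {κ : Type*} [Fintype κ] [DecidableEq κ] (gr : ι → κ) (t : ι → Finset ℕ)
    (F : ∀ g, ({i // gr i = g} → ℕ) → ℝ) :
    ∑ x ∈ Fintype.piFinset t, ∏ g, F g (fun i => x i) =
      ∏ g, ∑ x ∈ Fintype.piFinset (fun i : {i // gr i = g} => t i), F g x := by
  rw [prod_univ_sum]
  refine sum_nbij' (fun x g i => x i) (fun z i => z (gr i) ⟨i, rfl⟩) ?_ ?_ ?_ ?_ ?_
  · intro x hx
    simp only [Fintype.mem_piFinset] at hx ⊢
    exact fun g i => hx i
  · intro z hz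
    simp only [Fintype.mem_piFinset] at hz ⊢
    exact fun i => hz (gr i) ⟨i, rfl⟩
  · intro x _
    rfl
  · intro z _
    funext g ⟨i, hi⟩
    subst hi
    rfl
  · intro x _
    rfl

include hw0 hw1 hw2 in
/-- All groups at once, for digit vectors on the naturals. -/
theorem shells_le (hw3 : ∀ n : ℕ, 0 < n → 1 ≤ 4 * n * w n ^ 2) (N : ℕ) (gr : ℕ → ℕ)
    (G : Finset ℕ) (hG : ∀ i < N, gr i ∈ G) (b γ n : ℕ → ℕ) (hb : ∀ g, 0 < b g)
    (hγ : ∀ g, 0 < γ g) (hn : ∀ g ∈ G, ((range N).filter fun i => gr i = g).card = 2 * n g)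
    (y : ℕ → ℕ) (hy : ∀ i < N, y i ≤ 64 * b (gr i) * γ (gr i)) (X : Finset (ℕ → ℕ))
    (hX0 : ∀ x ∈ X, ∀ i, N ≤ i → x i = 0) (hX1 : ∀ x ∈ X, ∀ i < N, x i ≤ y i)
    (hX2 : ∀ x ∈ X, ∀ g ∈ G, ∑ i ∈ (range N).filter (fun i => gr i = g), x i ≤ 32 * b g * n g ∧
      32 * b g * n g ≤ ∑ i ∈ (range N).filter (fun i => gr i = g), x i + 32 * b g * γ g) :
    ∑ x ∈ X, ∏ i ∈ range N, w (x i) * w (y i - x i) ≤ ∏ g ∈ G, 512 * (γ g : ℝ) ^ 2 * w (n g) := by
  let gr' : Fin N → G := fun i => ⟨gr i, hG i i.2⟩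
  let F : ∀ g : G, ({i // gr' i = g} → ℕ) → ℝ := fun g x =>
    if ∑ i, x i ≤ 32 * b g * n g ∧ 32 * b g * n g ≤ ∑ i, x i + 32 * b g * γ g then
      Pw w (fun i : {i // gr' i = g} => y i.1) x else 0
  have hF : ∀ g x, 0 ≤ F g x := fun g x => by
    simp only [F]; split_ifs
    · exact Pw_nonneg hw0 _ _
    · exact le_rfl
  have hfib : ∀ (g : G) (u : ℕ → ℕ), ∑ i : {i // gr' i = g}, u i.1 =
      ∑ i ∈ (range N).filter (fun i => gr i = g), u i := by
    intro g u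
    refine sum_bij (fun i _ => (i.1 : ℕ)) ?_ ?_ ?_ ?_
    · intro i _
      exact mem_filter.2 ⟨mem_range.2 i.1.2, congrArg Subtype.val i.2⟩
    · intro i _ j _ h
      exact Subtype.ext (Fin.ext h)
    · intro i hi
      exact ⟨⟨⟨i, mem_range.1 (mem_filter.1 hi).1⟩, Subtype.ext (mem_filter.1 hi).2⟩,
        mem_univ _, rfl⟩
    · intro i _
      rfl
  have h1 : ∑ x ∈ X, ∏ i ∈ range N, w (x i) * w (y i - x i) =
      ∑ x ∈ X.image (fun x (i : Fin N) => x i), ∏ g, F g (fun i => x i) := by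
    rw [sum_image]
    · refine sum_congr rfl fun x hx => ?_
      rw [← Fin.prod_univ_eq_prod_range (fun i => w (x i) * w (y i - x i)) N,
        ← Fintype.prod_fiberwise gr' fun i : Fin N => w (x i) * w (y i - x i)]
      refine prod_congr rfl fun g _ => ?_
      simp only [F]
      rw [hfib g x, if_pos (hX2 x hx g g.2)]
      rfl
    · intro x hx x' hx' h
      funext i
      by_cases hi : i < N
      · exact congrFun h ⟨i, hi⟩
      · rw [hX0 x hx i (by omega), hX0 x' hx' i (by omega)]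
  have h2 : ∑ x ∈ X.image (fun x (i : Fin N) => x i), ∏ g, F g (fun i => x i) ≤
      ∑ x ∈ Fintype.piFinset (fun i : Fin N => range (y i + 1)), ∏ g, F g (fun i => x i) := by
    refine sum_le_sum_of_subset_of_nonneg (fun z hz => ?_)
      fun x _ _ => prod_nonneg fun g _ => hF g _
    obtain ⟨x, hx, rfl⟩ := mem_image.1 hz
    exact Fintype.mem_piFinset.2 fun i => mem_range.2 (Nat.lt_succ_of_le (hX1 x hx i i.2))
  rw [h1, ← prod_coe_sort G]
  refine h2.trans ?_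
  rw [sum_fibre_prod]
  refine prod_le_prod (fun g _ => sum_nonneg fun x _ => hF g x) fun g _ => ?_
  have h3 := shell_le (ι := {i // gr' i = g}) hw0 hw1 hw2 hw3 (hb g) (hγ g) (n := n g)
    (by
      have := hfib g fun _ => 1
      rw [← card_eq_sum_ones, ← card_eq_sum_ones, card_univ] at this
      rw [this, hn g g.2])
    (fun i => y i.1) (fun i => by
      have := hy i.1 i.1.2
      rwa [show gr i.1 = g from congrArg Subtype.val i.2] at this)
  rw [sum_filter] at h3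
  exact h3

end

end Pool.Agent.P.MP_d5a1e1_nt.TB
end

-- part Pool.Agent.P.MP_d5a1e1_nt.T3G
section

/-! The convolution weight. -/

namespace Pool.Agent.P.MP_d5a1e1_nt.T3

open Finset TB

variable [Kap]

theorem T3G_term {p : Prop} [Decidable p] (j k : ℕ) (x x' : ℕ → ℕ) :
    0 ≤ if p then ff j x * ff k x' else 0 := by
  split_ifs
  · exact (mul_pos (ff_pos _ _) (ff_pos _ _)).le
  · exact le_rfl

theorem GG_nonneg (j k : ℕ) (y : ℕ → ℕ) : 0 ≤ GG j k y :=
  sum_nonneg fun _ _ => sum_nonneg fun _ _ => T3G_term _ _ _ _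

theorem Gm_nonneg (k : ℕ) (y : ℕ → ℕ) : 0 ≤ Gm k y :=
  sum_nonneg fun _ _ => sum_nonneg fun _ _ => T3G_term _ _ _ _

open Classical in
/-- Anti-concentration on the shells. -/
theorem shell_sum {j : ℕ} (hj : k0 ≤ j) (y : ℕ → ℕ) (hy : ∀ i < 2 * j, y i ≤ 2 * Ru (i / 2)) :
    ∑ x ∈ XX j with ∀ i < 2 * j, x i ≤ y i, ∏ i ∈ range (2 * j), cw (x i) * cw (y i - x i) ≤
      Gb j := by
  refine (shells_le (fun x => (cw_pos x).le) cw_conv cw_sq_le (fun n hn => cw_sq_ge hn) (2 * j)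
    (fun i => gr (i / 2)) _ (gr_mem' j) bb ga (nn j) bb_pos (fun g => by have := ga_big g; omega)
    (fun g _ => card_group_digit j g) y (fun i hi => (hy i hi).trans (le_of_eq ?_)) _
    (fun x hx => (mem_XX.1 (mem_filter.1 hx).1).2.1) (fun x hx => (mem_filter.1 hx).2)
    fun x hx g _ => (mem_XX.1 (mem_filter.1 hx).1).2.2 g).trans ?_
  · rw [Ru, cap]
    ring
  · rw [prod_mul_distrib, ← Om, Gb]
    refine mul_le_mul_of_nonneg_right ?_ (Om_pos j).le
    exact_mod_cast prod_ga_le hj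

open Classical in
theorem T3G_le {j k : ℕ} (hj : k0 ≤ j) (hjk : j ≤ k) {c : ℝ} (h0 : 0 ≤ c)
    (hc : ∀ a : ℕ → ℕ, ∑ x' ∈ XX k with ∀ i < 2 * j, x' i = a i, ff k x' ≤
      c * ∏ i ∈ range (2 * j), cw (a i)) (y : ℕ → ℕ) : GG j k y ≤ c * Gb j := by
  by_cases hy : ∀ i < 2 * j, y i ≤ 2 * Ru (i / 2)
  · refine le_trans ?_ (mul_le_mul_of_nonneg_left (shell_sum hj y hy) h0)
    rw [GG, sum_filter, mul_sum]
    refine sum_le_sum fun x _ => ?_
    split_ifs with h
    · rw [← sum_filter, ← mul_sum, prod_mul_distrib, mul_left_comm]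
      refine mul_le_mul_of_nonneg_left (le_trans (sum_le_sum_of_subset_of_nonneg (fun x' hx' => ?_)
        fun _ _ _ => (ff_pos _ _).le) (hc fun i => y i - x i)) (ff_pos _ _).le
      refine mem_filter.2 ⟨(mem_filter.1 hx').1, fun i hi => ?_⟩
      have := (mem_filter.1 hx').2 i hi
      omega
    · rw [mul_zero]
      refine le_of_eq (sum_eq_zero fun x' _ => if_neg fun h' => h fun i hi => ?_)
      have := h' i hi
      omega
  · refine le_of_eq_of_le (sum_eq_zero fun x hx => sum_eq_zero fun x' hx' =>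
      if_neg fun h' => hy fun i hi => ?_) (mul_nonneg h0 (Gb_pos j).le)
    have h1 := h' i hi
    have h2 := (mem_XX.1 hx).1 i hi
    have h3 := (mem_XX.1 hx').1 i (by omega)
    omega

theorem GG_le_Gb {k : ℕ} (hk : k0 ≤ k) (y : ℕ → ℕ) : GG k k y ≤ Gb k := by
  classical
  refine (T3G_le hk le_rfl zero_le_one (fun a => ?_) y).trans_eq (one_mul _)
  rw [one_mul]
  have h1 : 0 ≤ ∏ i ∈ range (2 * k), cw (a i) := prod_nonneg fun _ _ => (cw_pos _).le
  refine (sum_le_card_nsmul _ _ (∏ i ∈ range (2 * k), cw (a i)) fun x hx => le_of_eq ?_).trans ?_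
  · exact prod_congr rfl fun i hi => by rw [(mem_filter.1 hx).2 i (mem_range.1 hi)]
  · rw [nsmul_eq_mul]
    refine mul_le_of_le_one_left h1 (Nat.cast_le_one.2 (card_le_one.2 fun x hx x' hx' => ?_))
    funext i
    by_cases hi : i < 2 * k
    · rw [(mem_filter.1 hx).2 i hi, (mem_filter.1 hx').2 i hi]
    · rw [(mem_XX.1 (mem_filter.1 hx).1).2.1 i (by omega),
        (mem_XX.1 (mem_filter.1 hx').1).2.1 i (by omega)]

theorem GG_le_D {j : ℕ} (hj : k0 ≤ j) (y : ℕ → ℕ) : GG j (j + 1) y ≤ DD j * Gb j := by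
  classical
  refine T3G_le hj (Nat.le_succ j) (Nat.cast_nonneg _) (fun a => ?_) y
  have h0 : 0 ≤ ∏ i ∈ range (2 * j), cw (a i) := prod_nonneg fun _ _ => (cw_pos _).le
  have hinj : Set.InjOn (fun x : ℕ → ℕ => (x (2 * j), x (2 * j + 1)))
      ((XX (j + 1)).filter fun x' => ∀ i < 2 * j, x' i = a i : Finset (ℕ → ℕ)) := by
    intro x hx x' hx' h
    obtain ⟨h1, h2⟩ := mem_filter.1 (mem_coe.1 hx)
    obtain ⟨h3, h4⟩ := mem_filter.1 (mem_coe.1 hx')
    have h5 : x (2 * j) = x' (2 * j) := congrArg Prod.fst h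
    have h6 : x (2 * j + 1) = x' (2 * j + 1) := congrArg Prod.snd h
    funext s
    by_cases e : s < 2 * j
    · rw [h2 s e, h4 s e]
    · by_cases e1 : s = 2 * j
      · rw [e1, h5]
      · by_cases e2 : s = 2 * j + 1
        · rw [e2, h6]
        · rw [(mem_XX.1 h1).2.1 s (by omega), (mem_XX.1 h3).2.1 s (by omega)]
  calc ∑ x' ∈ XX (j + 1) with ∀ i < 2 * j, x' i = a i, ff (j + 1) x'
      = ∑ x' ∈ XX (j + 1) with ∀ i < 2 * j, x' i = a i,
          (fun q : ℕ × ℕ => cw q.1 * cw q.2) (x' (2 * j), x' (2 * j + 1)) *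
            ∏ i ∈ range (2 * j), cw (a i) := by
        refine sum_congr rfl fun x hx => ?_
        rw [ff, show 2 * (j + 1) = 2 * j + 1 + 1 by ring, prod_range_succ, prod_range_succ,
          prod_congr rfl fun s hs => by rw [(mem_filter.1 hx).2 s (mem_range.1 hs)]]
        ring
    _ ≤ _ := by
        rw [← sum_mul, ← sum_image (f := fun q : ℕ × ℕ => cw q.1 * cw q.2) hinj]
        refine mul_le_mul_of_nonneg_right ((sum_le_sum_of_subset_of_nonneg
          (t := range (Ru j + 1) ×ˢ range (Ru j + 1)) (fun q hq => ?_)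
          fun q _ _ => (mul_pos (cw_pos _) (cw_pos _)).le).trans ?_) h0
        · rw [mem_image] at hq
          obtain ⟨x, hx, hq⟩ := hq
          rw [← hq]
          have h1 := (mem_XX.1 (mem_filter.1 hx).1).1
          have h2 := h1 (2 * j) (by omega)
          have h3 := h1 (2 * j + 1) (by omega)
          rw [show 2 * j / 2 = j by omega] at h2
          rw [show (2 * j + 1) / 2 = j by omega] at h3
          exact mk_mem_product (mem_range.2 (Nat.lt_succ_of_le h2))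
            (mem_range.2 (Nat.lt_succ_of_le h3))
        · have h1 := Lab.sum_cw_le (Ru j + 1)
          have h3 : (1 : ℝ) ≤ Ru j := by exact_mod_cast Ru_pos j
          rw [← cw_eq_tb, sq, sum_mul_sum, ← sum_product'] at h1
          refine h1.trans ?_
          rw [DD]
          push_cast
          linarith

theorem GG_le_next {j : ℕ} (hj : k0 ≤ j) (y : ℕ → ℕ) :
    GG j (j + 1) y ≤ 2 * DD j * Gb (j + 1) := by
  refine (GG_le_D hj y).trans ?_
  have h1 : (yy j : ℝ) ≤ yy (j + 1) := Nat.cast_le.2 (yy_mono (Nat.le_succ j))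
  have h2 := mul_le_mul h1 (Om_le_two j) (Om_pos j).le (Nat.cast_nonneg _)
  have h3 := mul_le_mul_of_nonneg_left h2 (Nat.cast_nonneg (α := ℝ) (DD j))
  rw [Gb, Gb]
  linarith

theorem T3G_two (k g : ℕ) {x y : ℕ → ℕ} (h : ∀ i < 2 * k, y i ≤ x i + 2) :
    gsum (2 * k) g y ≤ gsum (2 * k) g x + 4 * TT g := by
  have h3 := card_group k g
  have h4 : gsum (2 * k) g y ≤ ∑ i ∈ range (2 * k) with gr (i / 2) = g, (x i + 2) :=
    sum_le_sum fun i hi => h i (mem_range.1 (mem_filter.1 hi).1)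
  rw [sum_add_distrib, sum_const, card_group_digit, smul_eq_mul] at h4
  unfold gsum at h4 ⊢
  omega

theorem mem_SS_of_sum {j k : ℕ} (hk : k = j ∨ k = j + 1) {x x' y : ℕ → ℕ} (hx : x ∈ XX j)
    (hx' : x' ∈ XX k) (hy : y ∈ Box (2 * j) DD) (h : ∀ i < 2 * j, y i ≤ x i + x' i + 2) :
    y ∈ SS j := by
  refine mem_SS.2 ⟨hy, fun g => ?_⟩
  have h1 := ((mem_XX.1 hx).2.2 g).1
  have h2 : gsum (2 * j) g x' ≤ RR k g :=
    (Lab.gsum_mono (gr := gr) (by omega) g x').trans ((mem_XX.1 hx').2.2 g).1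
  have h3 : RR k g ≤ RR j g + 32 * bb g := by
    rcases hk with rfl | rfl
    · omega
    · rw [RR, RR, nn_succ, ← mul_add_one]
      refine Nat.mul_le_mul_left _ ?_
      split_ifs <;> omega
  have h4 := T3G_two j g (x := fun i => x i + x' i) h
  unfold gsum at h1 h2 h4 ⊢
  rw [sum_add_distrib] at h4
  omega

theorem T3G_ex {k : ℕ} {y : ℕ → ℕ} (h : Gm k y ≠ 0) :
    ∃ x ∈ XX k, ∃ x' ∈ XM k, ∀ i < 2 * k, x i + x' i = y i := by
  by_contra hc
  refine h ?_
  unfold Gm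
  exact sum_eq_zero fun x hx => sum_eq_zero fun x' hx' => if_neg fun h' => hc ⟨x, hx, x', hx', h'⟩

theorem Gm_supp {k : ℕ} {y : ℕ → ℕ} (hy : y ∈ Box (2 * k) DD) (h : Gm k y ≠ 0) : y ∈ SS k := by
  obtain ⟨x, hx, x', hx', h1⟩ := T3G_ex h
  refine mem_SS_of_sum (Or.inl rfl) hx (mem_XM.1 hx').1 hy fun i hi => ?_
  have := h1 i hi
  omega

theorem Gm_two {k : ℕ} {y : ℕ → ℕ} (h : Gm k y ≠ 0) : ∀ i < 2 * k, 2 ≤ y i := fun i hi => by
  obtain ⟨x, -, x', hx', h1⟩ := T3G_ex h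
  have h2 := h1 i hi
  have h3 := (mem_XM.1 hx').2.1 i hi
  omega

/-- Subtracting carries does not lower the weight. -/
theorem Gm_le_GG {k : ℕ} {y y' : ℕ → ℕ} (h : ∀ i < 2 * k, y' i ≤ y i ∧ y i ≤ y' i + 2) :
    Gm k y ≤ GG k k y' := by
  classical
  refine sum_le_sum fun x _ => ?_
  rw [← sum_filter, ← sum_filter, ← mul_sum, ← mul_sum]
  refine mul_le_mul_of_nonneg_left ?_ (ff_pos _ _).le
  have hinj : Set.InjOn (fun x' : ℕ → ℕ => fun i => x' i - (y i - y' i))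
      ((XM k).filter fun x' => ∀ i < 2 * k, x i + x' i = y i : Finset (ℕ → ℕ)) := by
    intro a ha b hb _
    obtain ⟨h1, h2⟩ := mem_filter.1 (mem_coe.1 ha)
    obtain ⟨h3, h4⟩ := mem_filter.1 (mem_coe.1 hb)
    funext i
    by_cases hi : i < 2 * k
    · have := h2 i hi
      have := h4 i hi
      omega
    · rw [(mem_XX.1 (mem_XM.1 h1).1).2.1 i (by omega), (mem_XX.1 (mem_XM.1 h3).1).2.1 i (by omega)]
  refine le_trans (sum_le_sum fun a _ => ?_) ((sum_image (f := ff k) hinj).symm.trans_le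
    (sum_le_sum_of_subset_of_nonneg (fun b hb => ?_) fun _ _ _ => (ff_pos _ _).le))
  · exact prod_le_prod (fun _ _ => (cw_pos _).le) fun i _ => cw_anti (Nat.sub_le _ _)
  · obtain ⟨a, ha, rfl⟩ := mem_image.1 hb
    obtain ⟨h1, h2⟩ := mem_filter.1 ha
    obtain ⟨h3, h4, h5⟩ := mem_XM.1 h1
    obtain ⟨h6, h7, h8⟩ := mem_XX.1 h3
    refine mem_filter.2 ⟨mem_XX.2 ⟨fun i hi => (Nat.sub_le _ _).trans (h6 i hi),
      fun i hi => by rw [h7 i hi, Nat.zero_sub], fun g => ⟨le_trans ?_ (h8 g).1, ?_⟩⟩,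
      fun i hi => ?_⟩
    · exact sum_le_sum fun i _ => Nat.sub_le _ _
    · have h9 := T3G_two k g (x := fun i => a i - (y i - y' i)) (y := a) fun i hi => by
        have := h i hi
        omega
      have := h5 g
      omega
    · have := h i hi
      have := h2 i hi
      have := h4 i hi
      beta_reduce
      omega

theorem Gm_le_Gb {k : ℕ} (hk : k0 ≤ k) (y : ℕ → ℕ) : Gm k y ≤ Gb k :=
  (Gm_le_GG fun _ _ => ⟨le_rfl, Nat.le_add_right _ _⟩).trans (GG_le_Gb hk y)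

theorem Gm_sum (k : ℕ) : ph k ^ 2 / 4 ≤ ∑ y ∈ Box (2 * k) DD, Gm k y := by
  classical
  have h1 := mass_XM k
  have h2 : ph k / 2 ≤ ∑ x ∈ XX k, ff k x := h1.trans (sum_le_sum_of_subset_of_nonneg
    (fun _ hx => (mem_XM.1 hx).1) fun _ _ _ => (ff_pos _ _).le)
  have h3 := ph_pos k
  have h4 := mul_le_mul h2 h1 (by positivity) (le_trans (by positivity) h2)
  rw [sum_mul_sum] at h4
  refine le_trans (le_of_eq (by ring)) (h4.trans ?_)
  simp only [Gm]
  rw [sum_comm (s := Box (2 * k) DD)]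
  refine sum_le_sum fun x hx => ?_
  rw [sum_comm (s := Box (2 * k) DD)]
  refine sum_le_sum fun x' hx' => ?_
  have h5 : x + x' ∈ Box (2 * k) DD := by
    have hx'' := (mem_XM.1 hx').1
    refine mem_Box.2 ⟨fun i hi => ?_, fun i hi => ?_⟩
    · have := (mem_XX.1 hx).1 i hi
      have := (mem_XX.1 hx'').1 i hi
      have := Ru_pos (i / 2)
      rw [Pi.add_apply, DD]
      omega
    · rw [Pi.add_apply, (mem_XX.1 hx).2.1 i hi, (mem_XX.1 hx'').2.1 i hi]
  refine le_trans (le_of_eq ?_) (single_le_sum (f := fun y : ℕ → ℕ =>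
    if ∀ i < 2 * k, x i + x' i = y i then ff k x * ff k x' else 0)
    (fun _ _ => T3G_term _ _ _ _) h5)
  exact (if_pos fun _ _ => rfl).symm

end Pool.Agent.P.MP_d5a1e1_nt.T3
end

-- part Pool.Agent.P.MP_d5a1e1_nt.TBDec
section

/-! Mixed radix digits and the decoding of a sum with carries. -/

namespace Pool.Agent.P.MP_d5a1e1_nt.TB

open Finset

/-- `W` is the sequence of place values for the radices `B (i / 2)`. -/
structure Radix (B W : ℕ → ℕ) : Prop where
  pos : ∀ u, 0 < B u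
  zero : W 0 = 1
  succ : ∀ i, W (i + 1) = W i * B (i / 2)

namespace Radix

variable {B W : ℕ → ℕ} (h : Radix B W)
include h

theorem W_pos (i : ℕ) : 0 < W i := by
  induction i with
  | zero => rw [h.zero]; exact one_pos
  | succ i ih => rw [h.succ]; exact Nat.mul_pos ih (h.pos _)

theorem W_eq (n : ℕ) : W n = ∏ i ∈ range n, B (i / 2) := by
  induction n with
  | zero => simp [h.zero]
  | succ n ih => rw [h.succ, prod_range_succ, ih]

theorem W_dvd {m n : ℕ} (hmn : m ≤ n) : W m ∣ W n := by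
  induction hmn with
  | refl => exact dvd_rfl
  | step _ ih => rw [Nat.succ_eq_add_one, h.succ]; exact ih.mul_right _

theorem W_mono {m n : ℕ} (hmn : m ≤ n) : W m ≤ W n := Nat.le_of_dvd (h.W_pos n) (h.W_dvd hmn)

theorem div_succ (n i : ℕ) : n / W (i + 1) = n / W i / B (i / 2) := by
  rw [h.succ, Nat.div_div_eq_div_mul]

/-- Digits at most `c (B - 1)` give a value at most `c (W - 1)`. -/
theorem val_le {f : ℕ → ℕ} {c m : ℕ} (hf : ∀ i < m, f i + c ≤ c * B (i / 2)) :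
    ∑ i ∈ range m, W i * f i + c ≤ c * W m := by
  induction m with
  | zero => simp [h.zero]
  | succ m ih =>
    have h1 := ih fun i hi => hf i (by omega)
    have h2 := Nat.mul_le_mul_left (W m) (hf m (by omega))
    rw [sum_range_succ, h.succ]
    nlinarith

theorem val_lt {f : ℕ → ℕ} {m : ℕ} (hf : ∀ i < m, f i < B (i / 2)) :
    ∑ i ∈ range m, W i * f i < W m := by
  have := h.val_le (c := 1) (f := f) (m := m) fun i hi => by have := hf i hi; omega
  omega

theorem val_lt_two {f : ℕ → ℕ} {m : ℕ} (hf : ∀ i < m, f i + 2 ≤ 2 * B (i / 2)) :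
    ∑ i ∈ range m, W i * f i < 2 * W m := by
  have := h.val_le (c := 2) hf
  omega

/-- Expansion of `n` into `m` digits and a quotient. -/
theorem expand (n m : ℕ) :
    ∑ i ∈ range m, W i * (n / W i % B (i / 2)) + W m * (n / W m) = n := by
  induction m with
  | zero => simp [h.zero]
  | succ m ih =>
    rw [sum_range_succ, h.div_succ, h.succ, add_assoc, mul_assoc, ← mul_add, Nat.mod_add_div, ih]

/-- A value with proper digits is decoded digit by digit. -/
theorem eq_iff {f : ℕ → ℕ} {m t n : ℕ} (hf : ∀ i < m, f i < B (i / 2)) :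
    ∑ i ∈ range m, W i * f i + W m * t = n ↔
      (∀ i < m, f i = n / W i % B (i / 2)) ∧ t = n / W m := by
  induction m generalizing t with
  | zero => simp [h.zero]
  | succ m ih =>
    have h1 := hf m (by omega)
    rw [sum_range_succ, h.div_succ, h.succ, add_assoc, mul_assoc, ← mul_add,
      ih fun i hi => hf i (by omega)]
    constructor
    · rintro ⟨h2, h3⟩
      have h4 : f m = n / W m % B (m / 2) := by
        rw [← h3, Nat.add_mul_mod_self_left, Nat.mod_eq_of_lt h1]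
      refine ⟨fun i hi => ?_, by
        rw [← h3, Nat.add_mul_div_left _ _ (h.pos _), Nat.div_eq_of_lt h1, zero_add]⟩
      rcases Nat.lt_succ_iff_lt_or_eq.1 hi with hi | rfl
      · exact h2 i hi
      · exact h4
    · rintro ⟨h2, h3⟩
      exact ⟨fun i hi => h2 i (by omega), by rw [h2 m (by omega), h3, Nat.mod_add_div]⟩

theorem unique {f f' : ℕ → ℕ} {m t t' : ℕ} (hf : ∀ i < m, f i < B (i / 2))
    (hf' : ∀ i < m, f' i < B (i / 2))
    (e : ∑ i ∈ range m, W i * f i + W m * t = ∑ i ∈ range m, W i * f' i + W m * t') :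
    (∀ i < m, f i = f' i) ∧ t = t' := by
  obtain ⟨h1, h2⟩ := (h.eq_iff hf).1 e
  obtain ⟨h3, h4⟩ := (h.eq_iff hf').1 (rfl : _ = ∑ i ∈ range m, W i * f' i + W m * t')
  exact ⟨fun i hi => (h1 i hi).trans (h3 i hi).symm, h2.trans h4.symm⟩

/-- The place values from position `2 j` on, relative to `W (2 j)`. -/
theorem shift (j : ℕ) : Radix (fun u => B (j + u)) fun i => W (2 * j + i) / W (2 * j) := by
  refine ⟨fun u => h.pos _, Nat.div_self (h.W_pos _), fun i => ?_⟩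
  rw [← add_assoc, h.succ, show (2 * j + i) / 2 = j + i / 2 by omega,
    Nat.div_mul_right_comm (h.W_dvd (Nat.le_add_right _ _))]

/-- Splitting a value at position `m`. -/
theorem split (f : ℕ → ℕ) (m l : ℕ) : ∑ i ∈ range (m + l), W i * f i =
    ∑ i ∈ range m, W i * f i + W m * ∑ i ∈ range l, W (m + i) / W m * f (m + i) := by
  rw [sum_range_add, mul_sum]
  congr 1
  refine sum_congr rfl fun i _ => ?_
  rw [← mul_assoc, Nat.mul_div_cancel' (h.W_dvd (Nat.le_add_right _ _))]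

end Radix

/-- One digit of the decoding. -/
theorem dec_digit {D p e a b y t N : ℕ} (hp : 0 < p) (hb : b + e / p < D) (hy : y < D)
    (hm : y + a ≡ N % (D * p) / p [MOD D]) :
    e + p * (a + b) + D * p * t = N ↔
      (e ≡ N % (D * p) [MOD p] ∧ b + e / p = y) ∧ t + (y + a) / D = N / (D * p) := by
  have hD : 0 < D := by omega
  rw [Nat.mod_mul_left_div_self, Nat.ModEq, Nat.mod_mod] at hm
  rw [Nat.ModEq, Nat.mod_mul_left_mod, mul_comm D p, ← Nat.div_div_eq_div_mul]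
  constructor
  · intro h
    have h1 : N / p = e / p + (a + b) + D * t := by
      rw [← h, add_assoc, mul_assoc, ← mul_add, Nat.add_mul_div_left _ _ hp]
      omega
    have h2 : b + e / p = y := by
      have h3 : b + e / p + a ≡ y + a [MOD D] := by
        rw [Nat.ModEq, hm, h1, Nat.add_mul_mod_self_left]
        congr 1
        omega
      exact Nat.ModEq.eq_of_lt_of_lt (Nat.ModEq.add_right_cancel' a h3) hb hy
    refine ⟨⟨by rw [← h, add_assoc, mul_assoc, ← mul_add, Nat.add_mul_mod_self_left], h2⟩, ?_⟩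
    rw [h1, Nat.add_mul_div_left _ _ hD, add_comm, ← h2]
    congr 2
    omega
  · rintro ⟨⟨h1, h2⟩, h3⟩
    have h4 := Nat.mod_add_div N p
    have h5 := Nat.mod_add_div (N / p) D
    have h6 := Nat.mod_add_div (y + a) D
    have h7 := Nat.mod_add_div e p
    have h8 : e / p + (a + b) + D * t = N / p := by
      rw [← h5, ← h3, ← hm, mul_add]
      omega
    rw [← h4, ← h8, ← h1, mul_add p (e / p + (a + b)), mul_add p (e / p), mul_assoc]
    omega

/-- The carries are at most two. -/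
theorem carry_le {D ξ ξ' y γ : ℕ → ℕ} {m : ℕ} (h0 : γ 0 = 0)
    (hγ : ∀ i < m, γ (i + 1) = (y i + ξ i + ξ' i) / D (i / 2))
    (hy : ∀ i < m, y i < D (i / 2) ∧ ξ i < D (i / 2) ∧ ξ' i < D (i / 2)) : ∀ i ≤ m, γ i ≤ 2 := by
  intro i hi
  rcases i with _ | i
  · omega
  · obtain ⟨h1, h2, h3⟩ := hy i (by omega)
    rw [hγ i (by omega)]
    exact Nat.lt_succ_iff.1 ((Nat.div_lt_iff_lt_mul (by omega)).2 (by omega))

theorem fine_carry_le {p d d' γ : ℕ} (hd : d < p) (hd' : d' < p) (hγ : γ ≤ 2) :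
    (d + d' + γ) / p ≤ 2 :=
  Nat.lt_succ_iff.1 ((Nat.div_lt_iff_lt_mul (by omega)).2 (by omega))

/-- Decoding of a sum of two elements: the carries `γ` depend on `n`, `ξ`, `ξ'` only. -/
theorem dec {D p W d d' ξ ξ' x x' y γ : ℕ → ℕ} (h : Radix (fun u => D u * p u) W) {m n t : ℕ}
    (h0 : γ 0 = 0) (hγ : ∀ i < m, γ (i + 1) = (y i + ξ i + ξ' i) / D (i / 2))
    (hy : ∀ i < m, y i < D (i / 2) ∧ ξ i < D (i / 2) ∧ ξ' i < D (i / 2))
    (hm : ∀ i < m, y i + ξ i + ξ' i ≡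
      n / W i % (D (i / 2) * p (i / 2)) / p (i / 2) [MOD D (i / 2)])
    (hd : ∀ i < m, d i < p (i / 2) ∧ d' i < p (i / 2))
    (hx : ∀ i < m, x i + x' i + 2 < D (i / 2)) :
    ∑ i ∈ range m, W i * (d i + p (i / 2) * (ξ i + x i)) +
        ∑ i ∈ range m, W i * (d' i + p (i / 2) * (ξ' i + x' i)) + W m * t = n ↔
      (∀ i < m, d i + d' i + γ i ≡ n / W i % (D (i / 2) * p (i / 2)) [MOD p (i / 2)] ∧
        x i + x' i + (d i + d' i + γ i) / p (i / 2) = y i) ∧ t + γ m = n / W m := by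
  have hc := carry_le h0 hγ hy
  induction m generalizing t with
  | zero => simp [h.zero, h0]
  | succ m ih =>
    obtain ⟨d1, d2⟩ := hd m (by omega)
    have h1 := fine_carry_le d1 d2 (hc m (by omega))
    have h2 := dec_digit (e := d m + d' m + γ m) (a := ξ m + ξ' m) (b := x m + x' m) (t := t)
      (N := n / W m) (by omega : 0 < p (m / 2)) (by have := hx m (by omega); omega)
      (hy m (by omega)).1 (by rw [← add_assoc]; exact hm m (by omega))
    have h3 := ih (t := d m + d' m + p (m / 2) * (ξ m + ξ' m + (x m + x' m)) +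
      D (m / 2) * p (m / 2) * t) (fun i hi => hγ i (by omega)) (fun i hi => hy i (by omega))
      (fun i hi => hm i (by omega)) (fun i hi => hd i (by omega)) (fun i hi => hx i (by omega))
      fun i hi => hc i (by omega)
    have h4 : ∑ i ∈ range (m + 1), W i * (d i + p (i / 2) * (ξ i + x i)) +
        ∑ i ∈ range (m + 1), W i * (d' i + p (i / 2) * (ξ' i + x' i)) + W (m + 1) * t =
        ∑ i ∈ range m, W i * (d i + p (i / 2) * (ξ i + x i)) +
        ∑ i ∈ range m, W i * (d' i + p (i / 2) * (ξ' i + x' i)) +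
        W m * (d m + d' m + p (m / 2) * (ξ m + ξ' m + (x m + x' m)) +
          D (m / 2) * p (m / 2) * t) := by
      rw [sum_range_succ, sum_range_succ, h.succ]
      ring
    have h5 : d m + d' m + p (m / 2) * (ξ m + ξ' m + (x m + x' m)) + D (m / 2) * p (m / 2) * t +
        γ m = d m + d' m + γ m + p (m / 2) * (ξ m + ξ' m + (x m + x' m)) +
        D (m / 2) * p (m / 2) * t := by ring
    rw [h4]
    refine h3.trans ?_
    rw [h5, h2, h.div_succ, hγ m (by omega), add_assoc (y m)]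
    constructor
    · rintro ⟨g1, g2, g3⟩
      refine ⟨fun i hi => ?_, g3⟩
      rcases Nat.lt_succ_iff_lt_or_eq.1 hi with hi | rfl
      · exact g1 i hi
      · exact g2
    · rintro ⟨g1, g2⟩
      exact ⟨fun i hi => g1 i (by omega), g1 m (by omega), g2⟩

/-- The residue `(g - ξ - ξ') mod D` in natural numbers. -/
theorem sub_mod_spec {D g ξ ξ' : ℕ} (h : ξ < D) (h' : ξ' < D) :
    (g + 2 * D - ξ - ξ') % D < D ∧ (g + 2 * D - ξ - ξ') % D + ξ + ξ' ≡ g [MOD D] := by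
  refine ⟨Nat.mod_lt _ (by omega), ?_⟩
  have h1 : g + 2 * D - ξ - ξ' + ξ + ξ' = g + 2 * D := by omega
  have h2 := ((Nat.mod_modEq (g + 2 * D - ξ - ξ') D).add_right ξ).add_right ξ'
  rw [h1] at h2
  exact h2.trans (by simp [Nat.ModEq])

end Pool.Agent.P.MP_d5a1e1_nt.TB
end

-- part Pool.Agent.P.MP_d5a1e1_nt.T3Dec
section

/-! Digits and carries. -/

namespace Pool.Agent.P.MP_d5a1e1_nt.T3

open Finset TB

variable [Kap]

theorem T3Dec_radix : Radix (fun u => DD u * pp u) WW := ⟨BB_pos, WW_zero, WW_succ⟩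

theorem T3Dec_gd_lt (j n i : ℕ) : gd j n i < DD (i / 2) := by
  unfold gd tr
  split_ifs
  · exact Nat.div_lt_of_lt_mul (by rw [mul_comm]; exact Nat.mod_lt _ (BB_pos _))
  · exact DD_pos _

theorem T3Dec_ym {j : ℕ} {g ξ ξ' : ℕ → ℕ} {i : ℕ} (hi : i < 2 * j) (h : ξ i < DD (i / 2))
    (h' : ξ' i < DD (i / 2)) : ym j g ξ ξ' i < DD (i / 2) ∧
      ym j g ξ ξ' i + ξ i + ξ' i ≡ g i [MOD DD (i / 2)] := by
  rw [ym, tr_lt hi]
  exact sub_mod_spec h h'

theorem T3Dec_gam {j : ℕ} {g ξ ξ' : ℕ → ℕ} {i : ℕ} (hi : i < 2 * j) (hg : g i < DD (i / 2))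
    (h : ξ i < DD (i / 2)) (h' : ξ' i < DD (i / 2)) :
    gam j g ξ ξ' (i + 1) = (ym j g ξ ξ' i + ξ i + ξ' i) / DD (i / 2) := by
  have h1 := (T3Dec_ym (g := g) hi h h').2
  rw [Nat.ModEq, Nat.mod_eq_of_lt hg] at h1
  have h2 := Nat.mod_add_div (ym j g ξ ξ' i + ξ i + ξ' i) (DD (i / 2))
  rw [gam, show ym j g ξ ξ' i + ξ i + ξ' i - g i =
    DD (i / 2) * ((ym j g ξ ξ' i + ξ i + ξ' i) / DD (i / 2)) by omega,
    Nat.mul_div_cancel_left _ (DD_pos _)]

theorem vl_succ (n : ℕ) (f : ℕ → ℕ) : vl (n + 1) f = vl n f + WW n * f n :=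
  sum_range_succ _ _

theorem vl_congr {n : ℕ} {f g : ℕ → ℕ} (h : ∀ i < n, f i = g i) : vl n f = vl n g :=
  sum_congr rfl fun i hi => by rw [h i (mem_range.1 hi)]

theorem vl_add (n : ℕ) (f g : ℕ → ℕ) : vl n (fun i => f i + g i) = vl n f + vl n g := by
  simp only [vl, mul_add, sum_add_distrib]

theorem vl_lt {n : ℕ} {f : ℕ → ℕ} (h : ∀ i < n, f i < BB (i / 2)) : vl n f < WW n :=
  T3Dec_radix.val_lt h

theorem dig_vl {n : ℕ} {f : ℕ → ℕ} (h : ∀ i < n, f i < BB (i / 2)) (t : ℕ) {i : ℕ} (hi : i < n) :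
    dig (vl n f + WW n * t) i = f i :=
  (((T3Dec_radix.eq_iff h).1 rfl).1 i hi).symm

theorem div_vl {n : ℕ} {f : ℕ → ℕ} (h : ∀ i < n, f i < BB (i / 2)) (t : ℕ) :
    (vl n f + WW n * t) / WW n = t :=
  ((T3Dec_radix.eq_iff h).1 rfl).2.symm

theorem vl_dig (n m : ℕ) : vl n (dig m) + WW n * (m / WW n) = m := T3Dec_radix.expand m n

theorem lo_eq (n : ℕ) (d ξ x : ℕ → ℕ) :
    lo n d ξ x = vl n d + vl n fun s => pp (s / 2) * (ξ s + x s) := vl_add _ _ _

theorem lo_lt {n : ℕ} {d ξ x : ℕ → ℕ} (hd : ∀ i < n, d i < pp (i / 2))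
    (hξ : ∀ i < n, ξ i < DD (i / 2)) (hx : ∀ i < n, x i ≤ Ru (i / 2)) : lo n d ξ x < 2 * WW n :=
  T3Dec_radix.val_lt_two fun i hi => by
    have h1 := hd i hi
    have h2 := hξ i hi
    have h3 := hx i hi
    have h4 := Ru_pos (i / 2)
    have h5 : ξ i + x i + 2 ≤ 2 * DD (i / 2) := by
      unfold DD at h2 ⊢
      omega
    have h6 := Nat.mul_le_mul_left (pp (i / 2)) h5
    nlinarith

theorem lo_unit (j : ℕ) (d ξ x : ℕ → ℕ) : lo (2 * (j + 1)) d ξ x = lo (2 * j) d ξ x +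
    WW (2 * j) * ((d (2 * j) + pp j * (ξ (2 * j) + x (2 * j))) +
      BB j * (d (2 * j + 1) + pp j * (ξ (2 * j + 1) + x (2 * j + 1)))) := by
  rw [lo, lo, mul_add 2 j, mul_one, vl_succ, vl_succ, WW_odd, show 2 * j / 2 = j by omega,
    show (2 * j + 1) / 2 = j by omega]
  ring

theorem gam_le (j : ℕ) (g : ℕ → ℕ) {ξ ξ' : ℕ → ℕ} (hξ : ∀ i < 2 * j, ξ i < DD (i / 2))
    (hξ' : ∀ i < 2 * j, ξ' i < DD (i / 2)) {i : ℕ} (hi : i ≤ 2 * j) : gam j g ξ ξ' i ≤ 2 := by
  rcases i with _ | i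
  · exact Nat.zero_le _
  · have h1 := hξ i (by omega)
    have h2 := hξ' i (by omega)
    have h3 := (T3Dec_ym (j := j) (g := g) (by omega) h1 h2).1
    rw [gam]
    exact Nat.lt_succ_iff.1 ((Nat.div_lt_iff_lt_mul (by omega)).2 (by omega))

theorem dec_fwd {j n top : ℕ} {d d' ξ ξ' x x' : ℕ → ℕ}
    (hd : ∀ i < 2 * j, d i < pp (i / 2) ∧ d' i < pp (i / 2))
    (hξ : ∀ i < 2 * j, ξ i < DD (i / 2) ∧ ξ' i < DD (i / 2))
    (hx : ∀ i < 2 * j, x i ≤ Ru (i / 2) ∧ x' i ≤ Ru (i / 2))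
    (h : lo (2 * j) d ξ x + lo (2 * j) d' ξ' x' + WW (2 * j) * top = n) :
    (∀ i < 2 * j, d i + d' i + gam j (gd j n) ξ ξ' i ≡ dig n i [MOD pp (i / 2)] ∧
      x i + x' i + (d i + d' i + gam j (gd j n) ξ ξ' i) / pp (i / 2) = ym j (gd j n) ξ ξ' i) ∧
    top + gam j (gd j n) ξ ξ' (2 * j) = n / WW (2 * j) :=
  (dec (D := DD) (p := pp) T3Dec_radix rfl
    (fun i hi => T3Dec_gam hi (T3Dec_gd_lt j n i) (hξ i hi).1 (hξ i hi).2)
    (fun i hi => ⟨(T3Dec_ym hi (hξ i hi).1 (hξ i hi).2).1, hξ i hi⟩)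
    (fun i hi => by
      have := (T3Dec_ym (g := gd j n) hi (hξ i hi).1 (hξ i hi).2).2
      rwa [show gd j n i = dig n i / pp (i / 2) from tr_lt hi _] at this)
    hd fun i hi => by
      have := hx i hi
      have := Ru_pos (i / 2)
      unfold DD
      omega).1 h

theorem dec_bwd {j n top : ℕ} {d d' ξ ξ' x x' : ℕ → ℕ}
    (hξ : ∀ i < 2 * j, ξ i < DD (i / 2) ∧ ξ' i < DD (i / 2))
    (h1 : ∀ i < 2 * j, d i + d' i + gam j (gd j n) ξ ξ' i ≡ dig n i [MOD pp (i / 2)] ∧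
      x i + x' i + (d i + d' i + gam j (gd j n) ξ ξ' i) / pp (i / 2) = ym j (gd j n) ξ ξ' i)
    (h2 : top + gam j (gd j n) ξ ξ' (2 * j) = n / WW (2 * j)) :
    lo (2 * j) d ξ x + lo (2 * j) d' ξ' x' + WW (2 * j) * top = n := by
  have key : ∀ m ≤ 2 * j, ∀ t, t + gam j (gd j n) ξ ξ' m = n / WW m →
      lo m d ξ x + lo m d' ξ' x' + WW m * t = n := by
    intro m
    induction m with
    | zero =>
      intro _ t ht
      simpa [lo, vl, WW_zero, gam] using ht
    | succ m ih =>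
      intro hm t ht
      obtain ⟨a1, a2⟩ := hξ m (by omega)
      obtain ⟨b1, b2⟩ := T3Dec_ym (g := gd j n) (by omega : m < 2 * j) a1 a2
      obtain ⟨c1, c2⟩ := h1 m (by omega)
      rw [show gd j n m = dig n m / pp (m / 2) from tr_lt (by omega) _, add_assoc] at b2
      rw [T3Dec_gam (by omega) (T3Dec_gd_lt j n m) a1 a2, T3Dec_radix.div_succ,
        add_assoc (ym j (gd j n) ξ ξ' m)] at ht
      have h3 := (dec_digit (t := t) (N := n / WW m) (pp_pos (m / 2)) (c2 ▸ b1) b1 b2).2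
        ⟨⟨c1, c2⟩, ht⟩
      have h4 := ih (by omega) (d m + d' m + pp (m / 2) * (ξ m + ξ' m + (x m + x' m)) +
        DD (m / 2) * pp (m / 2) * t) (by rw [← h3]; ring)
      rw [← h4, lo, lo, vl_succ, vl_succ, WW_succ, BB, lo, lo]
      ring
  exact key _ le_rfl top h2

theorem carry_le {p a b c : ℕ} (ha : a < p) (hb : b < p) (hc : c ≤ 2) : (a + b + c) / p ≤ 2 :=
  fine_carry_le ha hb hc

/-- The new unit is read off the sum. -/
theorem top_unique {j o₀ o₁ u v x y z u' v' x' y' z' : ℕ} (hu : u < pp j) (hv : v < pp j)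
    (hu' : u' < pp j) (hv' : v' < pp j) (hx : x ≤ Ru j) (hy : y ≤ Ru j) (hx' : x' ≤ Ru j)
    (hy' : y' ≤ Ru j)
    (h : (u + pp j * (o₀ + x)) + BB j * (v + pp j * (o₁ + y)) + BB j ^ 2 * z =
      (u' + pp j * (o₀ + x')) + BB j * (v' + pp j * (o₁ + y')) + BB j ^ 2 * z') :
    u = u' ∧ v = v' ∧ x = x' ∧ y = y' ∧ z = z' := by
  have hp := pp_pos j
  have hD := DD_pos j
  have hR : Ru j < DD j := by
    have := Ru_pos j
    unfold DD
    omega
  have step : ∀ {o u x t u' x' t' : ℕ}, u < pp j → u' < pp j → x ≤ Ru j → x' ≤ Ru j →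
      u + pp j * (o + x) + BB j * t = u' + pp j * (o + x') + BB j * t' →
      u = u' ∧ x = x' ∧ t = t' := by
    intro o u x t u' x' t' a1 a2 a3 a4 e
    have e1 : u + pp j * (o + x + DD j * t) = u' + pp j * (o + x' + DD j * t') := by
      unfold BB at e
      linarith
    have e2 : u = u' := by
      have := congrArg (· % pp j) e1
      simpa [Nat.mod_eq_of_lt a1, Nat.mod_eq_of_lt a2] using this
    have e3 : x + DD j * t = x' + DD j * t' := by
      have := Nat.eq_of_mul_eq_mul_left hp (Nat.add_left_cancel (e2 ▸ e1))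
      omega
    have e4 : x = x' := by
      have := congrArg (· % DD j) e3
      simpa [Nat.mod_eq_of_lt (a3.trans_lt hR), Nat.mod_eq_of_lt (a4.trans_lt hR)] using this
    exact ⟨e2, e4, Nat.eq_of_mul_eq_mul_left hD (Nat.add_left_cancel (e4 ▸ e3))⟩
  obtain ⟨g1, g2, g3⟩ := step (o := o₀) (t := v + pp j * (o₁ + y) + BB j * z)
    (t' := v' + pp j * (o₁ + y') + BB j * z') hu hu' hx hx' (by linarith)
  obtain ⟨g4, g5, g6⟩ := step hv hv' hy hy' g3
  exact ⟨g1, g4, g2, g5, g6⟩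


end Pool.Agent.P.MP_d5a1e1_nt.T3
end

-- part Pool.Agent.P.MP_d5a1e1_nt.T3Cells
section

/-! Cells, tuples, frames. -/

namespace Pool.Agent.P.MP_d5a1e1_nt.T3

open Finset TB

variable [Kap]

theorem mem_cells {k : ℕ} {c : Cell} : c ∈ cells k ↔
    c.k = k ∧ c.i < mm k ∧ c.η < HH k ∧ c.x ∈ XX k ∧ BB k ≤ c.z ∧ c.z < ZZ k := by
  simp only [cells, mem_image, mem_product, mem_range, mem_Ico]
  constructor
  · rintro ⟨q, ⟨h1, h2, h3, h4, h5⟩, rfl⟩
    exact ⟨rfl, h1, h2, h3, h4, h5⟩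
  · rintro ⟨h0, h1, h2, h3, h4, h5⟩
    exact ⟨(c.i, c.η, c.x, c.z), ⟨h1, h2, h3, h4, h5⟩, Cell.ext h0.symm rfl rfl rfl rfl⟩
theorem mem_tups {j k : ℕ} {t : Tup} : t ∈ tups j k ↔ t.i < mm j ∧ t.i' < mm k ∧
    t.yb ∈ Box (2 * j) DD ∧ t.η < HH j ∧ t.η' < HH k ∧ t.o₀ < DD j ∧ t.o₁ < DD j := by
  simp only [tups, mem_image, mem_product, mem_range]
  constructor
  · rintro ⟨q, h, rfl⟩
    exact h
  · intro h
    exact ⟨(t.i, t.i', t.yb, t.η, t.η', t.o₀, t.o₁), h, rfl⟩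
theorem qq_nonneg (c : Cell) : 0 ≤ qq c :=
  le_min zero_le_one
    (mul_nonneg (mul_nonneg (Nat.cast_nonneg _) (ff_pos _ _).le) (cw_pos _).le)
theorem qq_le_one (c : Cell) : qq c ≤ 1 := min_le_left _ _
theorem qq_le (c : Cell) : qq c ≤ rho c.k * ff c.k c.x * cw c.z := min_le_right _ _
theorem cw_cell {k : ℕ} {c : Cell} (h : c ∈ cells k) : cw c.z ≤ 1 / 2 ^ (sg k / 2) := by
  refine cw_le_two_pow ?_
  have h1 := (mem_cells.1 h).2.2.2.2.1
  have h2 := BB_gt k
  have h3 : 2 ^ (2 * (sg k / 2)) ≤ 2 ^ sg k := Nat.pow_le_pow_right (by omega) (by omega)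
  omega
theorem T3Cellsa_pow (k : ℕ) : yy k * rho k ≤ 2 ^ (sg k / 2) := by
  have h1 := T3Par_sg k
  have h2 := ka_big
  have h3 : yy k * (3 * ka + 1) ≤ sg k / 2 := by
    rw [Nat.le_div_iff_mul_le (by norm_num)]
    nlinarith
  calc yy k * rho k ≤ yy k * yy k ^ (3 * ka) := Nat.mul_le_mul_left _ (rho_le k)
    _ = yy k ^ (3 * ka + 1) := (pow_succ' _ _).symm
    _ ≤ (2 ^ yy k) ^ (3 * ka + 1) := Nat.pow_le_pow_left Nat.lt_two_pow_self.le _
    _ = 2 ^ (yy k * (3 * ka + 1)) := (pow_mul 2 _ _).symm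
    _ ≤ _ := Nat.pow_le_pow_right (by omega) h3
theorem T3Cellsa_small {k : ℕ} {c : Cell} (h : c ∈ cells k) :
    yy k * (rho k * ff k c.x * cw c.z) ≤ 1 := by
  have h1 : ((yy k * rho k : ℕ) : ℝ) ≤ ((2 ^ (sg k / 2) : ℕ) : ℝ) := Nat.cast_le.2 (T3Cellsa_pow k)
  rw [Nat.cast_pow, Nat.cast_ofNat] at h1
  have h2 : ff k c.x * cw c.z ≤ 1 / 2 ^ (sg k / 2) :=
    (mul_le_of_le_one_left (cw_pos _).le (ff_le_one _ _)).trans (cw_cell h)
  have h3 : (0 : ℝ) < 2 ^ (sg k / 2) := by positivity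
  calc (yy k : ℝ) * (rho k * ff k c.x * cw c.z)
      = ((yy k * rho k : ℕ) : ℝ) * (ff k c.x * cw c.z) := by
        rw [Nat.cast_mul, mul_assoc, mul_assoc]
    _ ≤ 2 ^ (sg k / 2) * (1 / 2 ^ (sg k / 2)) :=
        mul_le_mul h1 h2 (mul_pos (ff_pos _ _) (cw_pos _)).le h3.le
    _ = 1 := mul_one_div_cancel h3.ne'
theorem qq_eq {k : ℕ} {c : Cell} (h : c ∈ cells k) : qq c = rho k * ff k c.x * cw c.z := by
  have h1 := T3Cellsa_small h
  have h2 : (1 : ℝ) ≤ yy k := Nat.one_le_cast.2 (le_trans (by omega) (yy_ge k))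
  have h3 : (0 : ℝ) ≤ rho k * ff k c.x * cw c.z :=
    mul_nonneg (mul_nonneg (Nat.cast_nonneg _) (ff_pos _ _).le) (cw_pos _).le
  rw [qq, (mem_cells.1 h).1]
  exact min_eq_right ((le_mul_of_one_le_left h3 h2).trans h1)
theorem qq_small {k : ℕ} {c : Cell} (h : c ∈ cells k) : yy k * qq c ≤ 1 := by
  rw [qq_eq h]
  exact T3Cellsa_small h
theorem el_ge {ξ : ℕ → ℕ → ℕ → ℕ} {k : ℕ} {d : ℕ → ℕ} {c : Cell} (hc : c ∈ cells k) :
    WW (2 * k + 1) ≤ el ξ d c := by
  obtain ⟨h0, -, -, -, h1, -⟩ := mem_cells.1 hc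
  rw [el, h0, WW_odd]
  exact (Nat.mul_le_mul_left _ h1).trans (Nat.le_add_left _ _)
theorem T3Cellsa_lo {ξ : ℕ → ℕ → ℕ → ℕ} (hξ : Types ξ) {k : ℕ} (hk : k0 ≤ k) {d : ℕ → ℕ}
    (hd : d ∈ Box (2 * k) pp) {c : Cell} (hc : c ∈ cells k) :
    lo (2 * k) d (ξ k c.i) c.x < 2 * WW (2 * k) := by
  obtain ⟨-, h1, -, h2, -, -⟩ := mem_cells.1 hc
  exact lo_lt (mem_Box.1 hd).1 (mem_Box.1 (hξ.box k hk _ h1)).1 (mem_XX.1 h2).1
theorem el_lt {ξ : ℕ → ℕ → ℕ → ℕ} (hξ : Types ξ) {k : ℕ} (hk : k0 ≤ k) {d : ℕ → ℕ}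
    (hd : d ∈ Box (2 * k) pp) {c : Cell} (hc : c ∈ cells k) : el ξ d c < 6 * WW (2 * k + 3) := by
  have h1 := T3Cellsa_lo hξ hk hd hc
  obtain ⟨h0, -, -, -, -, h2⟩ := mem_cells.1 hc
  rw [ZZ, mul_assoc] at h2
  have h3 : 0 < BB k ^ 2 * BB (k + 1) := Nat.mul_pos (Nat.pow_pos (BB_pos k)) (BB_pos _)
  rw [el, h0, WW_three]
  generalize BB k ^ 2 * BB (k + 1) = X at h2 h3
  have h4 : WW (2 * k) * (c.z + 2) ≤ WW (2 * k) * (6 * X) := Nat.mul_le_mul_left _ (by omega)
  rw [mul_add, mul_left_comm] at h4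
  omega
theorem lo_cell {ξ : ℕ → ℕ → ℕ → ℕ} (hξ : Types ξ) {k : ℕ} (hk : k0 ≤ k) {d : ℕ → ℕ}
    (hd : d ∈ Box (2 * k) pp) {c : Cell} (hc : c ∈ cells k) :
    lo (2 * k) d (ξ k c.i) c.x < 2 * WW (2 * k) := T3Cellsa_lo hξ hk hd hc
/-- A large subfamily on which the value is a function of the key. -/
theorem exists_class {τ κ β : Type*} (T : Finset τ) (key : τ → κ) (v : τ → β) (M : ℕ)
    (h : ∀ a (Z : Finset β), (∀ b ∈ Z, ∃ t ∈ T, key t = a ∧ v t = b) → Z.card ≤ M) :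
    ∃ T' ⊆ T, T.card ≤ M * T'.card ∧ ∀ t ∈ T', ∀ t' ∈ T', key t = key t' → v t = v t' := by
  classical
  have h1 : ∀ a, ∃ f : β → ℕ, (∀ t ∈ T, key t = a → f (v t) < M) ∧
      ∀ t ∈ T, ∀ t' ∈ T, key t = a → key t' = a → f (v t) = f (v t') → v t = v t' := fun a => by
    obtain ⟨Z, hZ⟩ : ∃ Z : Finset β, Z = (T.filter fun t => key t = a).image v := ⟨_, rfl⟩
    have hm : ∀ t ∈ T, key t = a → v t ∈ Z := fun t ht e =>
      hZ ▸ mem_image_of_mem v (mem_filter.2 ⟨ht, e⟩)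
    have hc : Z.card ≤ M := h a Z fun b hb => by
      rw [hZ] at hb
      obtain ⟨t, ht, e⟩ := mem_image.1 hb
      exact ⟨t, (mem_filter.1 ht).1, (mem_filter.1 ht).2, e⟩
    refine ⟨fun b => if hb : b ∈ Z then (Z.equivFin ⟨b, hb⟩ : ℕ) else 0, fun t ht e => ?_,
      fun t ht t' ht' e e' hf => ?_⟩
    · simp only [dif_pos (hm t ht e)]
      exact (Fin.is_lt _).trans_le hc
    · simp only [dif_pos (hm t ht e), dif_pos (hm t' ht' e')] at hf
      exact congrArg Subtype.val (Z.equivFin.injective (Fin.ext hf))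
  choose f hf hf' using h1
  rcases Nat.eq_zero_or_pos M with rfl | hM
  · refine ⟨∅, empty_subset _, ?_, by simp⟩
    rw [eq_empty_of_forall_notMem fun t ht => Nat.not_lt_zero _ (hf _ t ht rfl)]
    simp
  obtain ⟨c, -, hc⟩ := exists_max_image (range M)
    (fun c => (T.filter fun t => f (key t) (v t) = c).card) ⟨0, mem_range.2 hM⟩
  refine ⟨T.filter fun t => f (key t) (v t) = c, filter_subset _ _, ?_, fun t ht t' ht' e => ?_⟩
  · rw [card_eq_sum_card_fiberwise (f := fun t => f (key t) (v t)) (t := range M)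
      fun t ht => mem_coe.2 (mem_range.2 (hf _ t ht rfl))]
    simpa using sum_le_card_nsmul _ _ _ hc
  · obtain ⟨h2, h3⟩ := mem_filter.1 ht
    obtain ⟨h4, h5⟩ := mem_filter.1 ht'
    exact hf' (key t) t h2 t' h4 rfl e.symm (by rw [h3, e, h5])

theorem T3Cellsb_subsets {α : Type*} [DecidableEq α] (s : Finset α) (L : ℕ) :
    ((range (L + 1)).biUnion fun i => powersetCard i s).card ≤ (s.card + 1) ^ L := by
  refine card_biUnion_le.trans ?_
  rw [add_pow]
  refine sum_le_sum fun i hi => ?_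
  rw [card_powersetCard, one_pow, mul_one]
  refine (Nat.choose_le_pow _ _).trans (Nat.le_mul_of_pos_right _ ?_)
  exact Nat.choose_pos (Nat.lt_succ_iff.1 (mem_range.1 hi))

theorem T3Cellsb_big {k : ℕ} (hk : k0 ≤ k) : 16 * 2 ^ (4 * ka + 12) ≤ yy k := by
  rw [show 16 = 2 ^ 4 by norm_num, ← pow_add]
  exact (Nat.pow_le_pow_right (by norm_num) (by have := ka_big; omega)).trans
    ((Nat.le_mul_of_pos_right _ (LL_pos k)).trans (yy_big hk))

theorem T3Cellsb_LL {k : ℕ} (hk : k0 ≤ k) : 32768 * LL k ≤ yy k := T3Par_big hk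

theorem T3Cellsb_tups {j k : ℕ} (hj : k0 ≤ j) (hjk : j ≤ k) :
    (tups j k).card ≤ 2 ^ (13 * yy k ^ (2 * ka + 1)) := by
  have hk : k0 ≤ k := hj.trans hjk
  have hy : yy j ≤ yy k := yy_mono hjk
  have e2 : yy j ^ (2 * ka + 1) ≤ yy k ^ (2 * ka + 1) := Nat.pow_le_pow_left hy _
  have two : ∀ {a b : ℕ}, a ≤ b → 2 ^ a ≤ 2 ^ b := fun h => Nat.pow_le_pow_right (by norm_num) h
  have h1 : mm j ≤ 2 ^ yy k ^ (2 * ka + 1) := (mm_le_pow hj).trans (two e2)
  have h2 : mm k ≤ 2 ^ yy k ^ (2 * ka + 1) := mm_le_pow hk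
  have h3 : Del j ^ 2 ≤ 2 ^ yy k ^ (2 * ka + 1) :=
    (Nat.pow_le_pow_right (Del_pos j) (by norm_num : 2 ≤ 4)).trans ((Del_le hj).trans (two e2))
  have h5 : HH k ≤ 2 ^ (4 * yy k ^ (2 * ka + 1)) := le_rfl
  have h4 : HH j ≤ 2 ^ (4 * yy k ^ (2 * ka + 1)) := (HH_mono hjk).trans h5
  have h6 : DD j ≤ 2 ^ yy k ^ (2 * ka + 1) := by
    refine (DD_le j).trans (two ?_)
    have h := yy_big' hj
    have h' : yy k ≤ yy k ^ (2 * ka + 1) := Nat.le_self_pow (by omega) _
    rw [mul_assoc] at h ⊢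
    omega
  refine card_image_le.trans ?_
  simp only [card_product, card_range, card_Gam]
  refine (Nat.mul_le_mul h1 (Nat.mul_le_mul h2 (Nat.mul_le_mul h3 (Nat.mul_le_mul h4
    (Nat.mul_le_mul h5 (Nat.mul_le_mul h6 h6)))))).trans (le_of_eq ?_)
  simp only [← pow_add]
  congr 1
  omega

/-- There are few frames. -/
theorem exists_frames {j k : ℕ} (hj : k0 ≤ j) (hk : k = j ∨ k = j + 1) :
    ∃ F : Finset (ℕ × Finset Tup), F.card ≤ 2 ^ (12 * sg (j + 2)) ∧
      ∀ N P, Fr j k N P → (N, P) ∈ F := by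
  classical
  have hjk : j ≤ k := by omega
  refine ⟨range (2 ^ (11 * sg (j + 2))) ×ˢ
    (range (Lam k + 1)).biUnion fun i => powersetCard i (tups j k), ?_, fun N P h => ?_⟩
  · rw [card_product, card_range, show 12 * sg (j + 2) = 11 * sg (j + 2) + sg (j + 2) by omega,
      pow_add]
    refine Nat.mul_le_mul_left _ ((T3Cellsb_subsets _ _).trans ?_)
    have hy := T3Cellsb_LL (hj.trans hjk)
    have hL := LL_pos k
    have hp : 1 ≤ yy k ^ (2 * ka + 1) := Nat.one_le_pow _ _ (by omega)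
    have h1 : (tups j k).card + 1 ≤ 2 ^ (14 * yy k ^ (2 * ka + 1)) := by
      have h2 := T3Cellsb_tups hj hjk
      have h3 : 2 ^ (13 * yy k ^ (2 * ka + 1)) < 2 ^ (14 * yy k ^ (2 * ka + 1)) :=
        Nat.pow_lt_pow_right (by norm_num) (by omega)
      omega
    refine (Nat.pow_le_pow_left h1 _).trans ?_
    rw [← pow_mul]
    refine Nat.pow_le_pow_right (by norm_num) (le_trans ?_ (sg_mono (by omega : k ≤ j + 2)))
    rw [Lam, sg, mul_assoc, ← pow_add, show 4 * ka + 12 = 3 + (2 * ka + 1 + (2 * ka + 8)) by ring, pow_add _ 3]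
    exact Nat.mul_le_mul_right _ (le_trans (by omega) (Nat.le_self_pow (by norm_num) (yy k)))
  · exact mem_product.2 ⟨mem_range.2 h.lt, mem_biUnion.2 ⟨P.card,
      mem_range.2 (Nat.lt_succ_of_le h.card), mem_powersetCard.2 ⟨h.sub, rfl⟩⟩⟩

theorem T3Cellsb_exp {a b : ℕ} {c : ℝ} (h : ((a + b : ℕ) : ℝ) ≤ c) :
    (2 : ℝ) ^ a * Real.exp (-c) ≤ 1 / 2 ^ b := by
  have h2 : (2 : ℝ) ≤ Real.exp 1 := by
    have := Real.add_one_le_exp 1
    linarith
  have h1 : (2 : ℝ) ^ (a + b) ≤ Real.exp c := by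
    refine (pow_le_pow_left₀ (by norm_num) h2 _).trans ?_
    rw [← Real.exp_nat_mul, mul_one]
    exact Real.exp_le_exp.2 h
  rw [le_div_iff₀ (by positivity), mul_right_comm, ← pow_add, Real.exp_neg,
    mul_inv_le_iff₀ (Real.exp_pos c), one_mul]
  exact h1

theorem T3Cellsb_nat {j k : ℕ} (hj : k0 ≤ j) (hjk : j ≤ k) :
    12 * sg (j + 2) + (j + 4) ≤ yy k ^ (4 * ka + 13) := by
  have hy : yy j ≤ yy k := yy_mono hjk
  have hj1 : 1 ≤ j := k0_pos.trans hj
  have h0 : 1 ≤ 2 ^ (4 * ka + 12) := Nat.one_le_two_pow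
  have h1 : sg (j + 2) ≤ 2 ^ (4 * ka + 12) * yy k ^ (4 * ka + 12) :=
    (sg_add_two hj1).trans (Nat.mul_le_mul_left _ (Nat.pow_le_pow_left hy _))
  have h2 : j < yy k ^ (4 * ka + 12) := by
    refine (lt_tau j).trans_le ?_
    rw [tau_eq]
    exact (Nat.pow_le_pow_left hy _).trans
      (Nat.pow_le_pow_right (by have := yy_ge k; omega) (by omega))
  have h3 := Nat.mul_le_mul_right (yy k ^ (4 * ka + 12)) ((T3Cellsb_big hj).trans hy)
  have h4 := Nat.mul_le_mul_right (yy k ^ (4 * ka + 12)) h0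
  have h5 := sg_big k
  have h6 := yy_ge k
  rw [sg] at h5
  rw [mul_assoc] at h3
  rw [pow_succ' _ (4 * ka + 12)]
  omega

theorem num_star {j k : ℕ} (hj : k0 ≤ j) (hk : k = j ∨ k = j + 1) :
    (2 : ℝ) ^ (12 * sg (j + 2)) *
      Real.exp ((4 * (130 * (yy k : ℝ) ^ (4 * ka + 19)) - gg k) / yy k) ≤ 1 / 2 ^ (j + 4) := by
  have h1 : ((12 * sg (j + 2) + (j + 4) : ℕ) : ℝ) ≤ (yy k : ℝ) ^ (4 * ka + 18) := by
    refine le_trans ?_ (pow_le_pow_right₀ (yy_one k) (show 4 * ka + 13 ≤ _ by omega))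
    exact_mod_cast T3Cellsb_nat hj (by omega : j ≤ k)
  have hy : (0 : ℝ) < yy k := one_pos.trans_le (yy_one k)
  have h2 : (4 * (130 * (yy k : ℝ) ^ (4 * ka + 19)) - gg k) / yy k =
      -(80 * (yy k : ℝ) ^ (4 * ka + 18)) := by
    rw [gg, Nat.cast_mul, Nat.cast_pow, pow_succ (yy k : ℝ) (4 * ka + 18), div_eq_iff hy.ne']
    generalize (yy k : ℝ) ^ (4 * ka + 18) = z
    push_cast
    ring
  rw [h2]
  refine T3Cellsb_exp (h1.trans ?_)
  have : (0 : ℝ) ≤ (yy k : ℝ) ^ (4 * ka + 18) := by positivity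
  linarith

theorem num_cover {k : ℕ} (hk : k0 ≤ k) :
    (2 : ℝ) ^ (12 * sg (k + 2)) * Real.exp (-((yy k : ℝ) ^ (4 * ka + 14) / 1920 / 3)) ≤
      1 / 2 ^ (k + 4) := by
  have h1 : ((12 * sg (k + 2) + (k + 4) : ℕ) : ℝ) ≤ (yy k : ℝ) ^ (4 * ka + 13) := by
    exact_mod_cast T3Cellsb_nat hk le_rfl
  have hy : (5760 : ℝ) ≤ yy k := by
    have h2 := T3Cellsb_LL hk
    have h3 := LL_pos k
    exact_mod_cast (by omega : 5760 ≤ yy k)
  refine T3Cellsb_exp (h1.trans ?_)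
  have h4 : (0 : ℝ) ≤ (yy k : ℝ) ^ (4 * ka + 13) := by positivity
  have h5 := mul_le_mul_of_nonneg_left hy h4
  rw [pow_succ (yy k : ℝ) (4 * ka + 13)]
  linarith

theorem top_lt {j k n : ℕ} (hk : k = j ∨ k = j + 1) (hn : n < 12 * WW (2 * k + 3)) :
    n / WW (2 * j) < 2 ^ (11 * sg (j + 2)) := by
  refine Nat.div_lt_of_lt_mul (hn.trans_le ?_)
  have h1 : WW (2 * k + 3) ≤ WW (2 * (j + 1) + 3) := WW_mono (by omega)
  rw [WW_three (j + 1), show 2 * (j + 1) = 2 * j + 2 by omega, WW_even] at h1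
  have hb : ∀ u, u ≤ j + 2 → BB u ≤ 2 ^ (2 * sg (j + 2)) := fun u hu =>
    (BB_mono hu).trans (BB_le _)
  have h2 : 12 ≤ 2 ^ sg (j + 2) := by
    have h3 : 2 ^ 4 ≤ sg (j + 2) :=
      (Nat.pow_le_pow_left (yy_ge (j + 2)) 4).trans
        (Nat.pow_le_pow_right (by have := yy_ge (j + 2); omega) (by omega))
    have h4 : sg (j + 2) < 2 ^ sg (j + 2) := Nat.lt_two_pow_self
    omega
  have h5 : BB j ^ 2 * (BB (j + 1) ^ 2 * BB (j + 1 + 1)) ≤ 2 ^ (10 * sg (j + 2)) := by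
    refine (Nat.mul_le_mul (Nat.pow_le_pow_left (hb j (by omega)) 2) (Nat.mul_le_mul
      (Nat.pow_le_pow_left (hb (j + 1) (by omega)) 2) (hb (j + 1 + 1) le_rfl))).trans (le_of_eq ?_)
    simp only [← pow_mul, ← pow_add]
    congr 1
    omega
  rw [mul_assoc] at h1
  rw [show 11 * sg (j + 2) = sg (j + 2) + 10 * sg (j + 2) by omega, pow_add, mul_left_comm]
  exact Nat.mul_le_mul h2 (h1.trans (Nat.mul_le_mul_left _ h5))

/-- The weight of a frame. -/
theorem Fr.weight {j k N : ℕ} {P : Finset Tup} (h : Fr j k N P) {c : ℝ} (hc : 0 ≤ c)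
    (hG : ∀ y, GG j k y ≤ c * Gb k) :
    (rho k : ℝ) ^ 2 * ∑ t ∈ P, GG j k t.yb ≤ c * (4 * (yy k : ℝ) ^ (4 * ka + 19)) := by
  have h1 : ∑ t ∈ P, GG j k t.yb ≤ Lam k * (c * Gb k) := by
    refine (sum_le_card_nsmul _ _ _ fun t _ => hG t.yb).trans ?_
    rw [nsmul_eq_mul]
    exact mul_le_mul_of_nonneg_right (Nat.cast_le.2 h.card) (mul_nonneg hc (Gb_pos k).le)
  refine (mul_le_mul_of_nonneg_left h1 (sq_nonneg _)).trans ?_
  rw [mul_left_comm (Lam k : ℝ), mul_left_comm]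
  exact mul_le_mul_of_nonneg_left (rho_Lam k) hc

end Pool.Agent.P.MP_d5a1e1_nt.T3
end

-- part Pool.Agent.P.MP_d5a1e1_nt.T3Star
section

/-! Tail bounds: stars, weighted sums, hashing. -/

namespace Pool.Agent.P.MP_d5a1e1_nt.T3

open Finset TB

variable {α : Type*} [DecidableEq α] {S : Finset α} {π : α → ℝ}

-- PART a
/-- Bipartite graphs with bounded left degree and bounded right degree weight. -/
theorem pr_star (h0 : ∀ a, 0 ≤ π a) (h1 : ∀ a, π a ≤ 1) (E : Finset (α × α))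
    (hb : ∀ e ∈ E, ∀ e' ∈ E, e.1 ≠ e'.2) {d : ℕ} (hd : 2 ≤ d)
    (hout : ∀ a, #{e ∈ E | e.1 = a} ≤ d) (hin : ∀ b, ∑ e ∈ E with e.2 = b, π e.1 ≤ 1)
    {μ : ℝ} (hμ : ∑ e ∈ E, π e.1 * π e.2 ≤ μ) (g : ℝ) :
    pr S π (fun A => g ≤ #{e ∈ E | e.1 ∈ A ∧ e.2 ∈ A}) ≤ Real.exp ((4 * μ - g) / d) := by
  have hd' : (2 : ℝ) ≤ d := by exact_mod_cast hd
  have hd0 : (0 : ℝ) < d := by linarith
  let F : Finset (α × α) := E.filter fun e => e.1 ∈ S ∧ e.2 ∈ S
  have hF : F ⊆ E := filter_subset _ _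
  let m : α → ℝ := fun b => 2 / d * ∑ e ∈ F with e.2 = b, π e.1
  let t : α → Finset α → ℝ := fun v A => (∑ e ∈ F with e.1 = v, chs e.2 A) / d
  have hmap : ∀ e ∈ F, e.2 ∈ F.image Prod.snd := fun e he => mem_image_of_mem _ he
  have hmap' : ∀ e ∈ F, e.1 ∈ F.image Prod.fst := fun e he => mem_image_of_mem _ he
  have ht0 : ∀ v A, 0 ≤ t v A := fun v A =>
    div_nonneg (sum_nonneg fun e _ => chs_nonneg _ _) hd0.le
  have ht1 : ∀ v A, t v A ≤ 1 := fun v A => by
    refine (div_le_one hd0).2 ((sum_le_card_nsmul _ _ 1 fun e _ => ?_).trans ?_)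
    · unfold chs
      split_ifs <;> norm_num
    · rw [nsmul_eq_mul, mul_one]
      exact_mod_cast (card_le_card (filter_subset_filter _ hF)).trans (hout v)
  have hfib : ∀ (c : α → ℝ) (A : Finset α), ∑ v ∈ F.image Prod.fst, t v A * c v =
      (∑ e ∈ F, chs e.2 A * c e.1) / d := fun c A => by
    rw [← sum_fiberwise_of_maps_to hmap', sum_div]
    refine sum_congr rfl fun v _ => ?_
    rw [div_mul_eq_mul_div, sum_mul]
    congr 1
    exact sum_congr rfl fun e he => by rw [(mem_filter.1 he).2]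
  have hexp : ∀ A, ∏ v ∈ F.image Prod.fst, (1 + (Real.exp (t v A) - 1) * chs (id v) A) =
      Real.exp (∑ v ∈ F.image Prod.fst, t v A * chs v A) := fun A => by
    rw [Real.exp_sum]
    refine prod_congr rfl fun v _ => ?_
    unfold chs
    rw [id]
    split_ifs <;> simp
  refine (pr_le_ex h0 h1 (g := fun A => Real.exp (-g / d) *
    (1 * ∏ v ∈ F.image Prod.fst, (1 + (Real.exp (t v A) - 1) * chs (id v) A)))
    (fun A _ => by rw [hexp]; positivity) fun A hA h => ?_).trans ?_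
  · have e2 : (#{e ∈ E | e.1 ∈ A ∧ e.2 ∈ A} : ℝ) = ∑ e ∈ F, chs e.2 A * chs e.1 A := by
      have e3 : (E.filter fun e => e.1 ∈ A ∧ e.2 ∈ A) = F.filter fun e => e.1 ∈ A ∧ e.2 ∈ A := by
        ext e
        simp only [F, mem_filter]
        exact ⟨fun h => ⟨⟨h.1, hA h.2.1, hA h.2.2⟩, h.2⟩, fun h => ⟨h.1.1, h.2⟩⟩
      rw [e3, card_filter]
      push_cast
      refine sum_congr rfl fun e _ => ?_
      unfold chs
      by_cases ha : e.1 ∈ A <;> by_cases hb : e.2 ∈ A <;> simp [ha, hb]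
    rw [hexp, one_mul, ← Real.exp_add, hfib (fun v => chs v A), ← e2, ← add_div]
    exact Real.one_le_exp (div_nonneg (by linarith) hd0.le)
  · rw [ex_mul_left, ex_prod (F.image Prod.fst) id (Set.injOn_id _) ?_ (fun _ => 1)
      (fun v A => Real.exp (t v A) - 1) (fun _ _ _ => rfl) ?_, sub_eq_neg_add, add_div,
      Real.exp_add]
    · refine mul_le_mul_of_nonneg_left ?_ (Real.exp_pos _).le
      refine (ex_mono h0 h1 (g' := fun A => Real.exp (∑ b ∈ F.image Prod.snd, m b * chs b A))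
        fun A _ => ?_).trans ((ex_exp_le h0 _ ?_ m
          (fun b _ => mul_nonneg (by positivity) (sum_nonneg fun e _ => h0 _))
          fun b _ => ?_).trans (Real.exp_le_exp.2 ?_))
      · have e1 : ∑ b ∈ F.image Prod.snd, m b * chs b A =
            ∑ v ∈ F.image Prod.fst, 2 * (t v A * π v) := by
          rw [← mul_sum, hfib, ← sum_fiberwise_of_maps_to hmap, sum_div, mul_sum]
          refine sum_congr rfl fun b _ => ?_
          rw [mul_assoc, sum_mul, div_mul_eq_mul_div, mul_div_assoc]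
          congr 2
          exact sum_congr rfl fun e he => by rw [(mem_filter.1 he).2, mul_comm]
        rw [one_mul, e1, Real.exp_sum]
        refine prod_le_prod (fun v _ => add_nonneg zero_le_one
          (mul_nonneg (h0 _) (sub_nonneg.2 (Real.one_le_exp (ht0 v A))))) fun v _ => ?_
        have := mul_le_mul_of_nonneg_left (exp_sub_one_le (ht0 v A) (ht1 v A)) (h0 v)
        rw [id]
        linarith [Real.add_one_le_exp (2 * (t v A * π v))]
      · intro b hb'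
        obtain ⟨e, he, rfl⟩ := mem_image.1 hb'
        exact (mem_filter.1 he).2.2
      · exact mul_le_one₀ ((div_le_one hd0).2 hd') (sum_nonneg fun e _ => h0 _)
          ((sum_le_sum_of_subset_of_nonneg (filter_subset_filter _ hF)
            fun e _ _ => h0 _).trans (hin b))
      · have e1 : ∑ b ∈ F.image Prod.snd, π b * m b = 2 / d * ∑ e ∈ F, π e.1 * π e.2 := by
          rw [← sum_fiberwise_of_maps_to hmap, mul_sum]
          refine sum_congr rfl fun b _ => ?_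
          rw [mul_left_comm, mul_sum]
          congr 1
          exact sum_congr rfl fun e he => by rw [(mem_filter.1 he).2, mul_comm]
        have := (sum_le_sum_of_subset_of_nonneg (f := fun e : α × α => π e.1 * π e.2) hF
          fun e _ _ => mul_nonneg (h0 _) (h0 _)).trans hμ
        rw [e1]
        calc _ ≤ 2 * (2 / d * μ) := by gcongr
          _ = _ := by ring
    · intro v hv
      obtain ⟨e, he, rfl⟩ := mem_image.1 hv
      exact (mem_filter.1 he).2.1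
    · intro v hv w _ A
      obtain ⟨e, he, rfl⟩ := mem_image.1 hv
      have : t w (insert (id e.1) A) = t w A := by
        simp only [t]
        congr 1
        exact sum_congr rfl fun e' he' =>
          chs_insert (hb e (hF he) e' (hF (mem_filter.1 he').1)).symm A
      rw [this]
theorem pr_wsum (h0 : ∀ a, 0 ≤ π a) (h1 : ∀ a, π a ≤ 1) (Y : Finset α) (w : α → ℝ)
    (w0 : ∀ a ∈ Y, 0 ≤ w a) (w1 : ∀ a ∈ Y, w a ≤ 1) {μ : ℝ} (hμ : ∑ a ∈ Y, π a * w a ≤ μ)
    (g : ℝ) : pr S π (fun A => g ≤ ∑ a ∈ Y with a ∈ A, w a) ≤ Real.exp (2 * μ - g) :=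
  pr_weight_le h0 h1 Y w w0 w1 hμ g
-- PART b
/-- A hash function that spreads all sets of a family. -/
theorem exists_spread {β ι : Type*} [DecidableEq β] (Φ : Finset ι) (A : ι → Finset β)
    {H X G : ℕ} (hH : 0 < H) (hA : ∀ φ ∈ Φ, (A φ).card ≤ X)
    (h : Φ.card * H * X ^ G < H ^ G) :
    ∃ f : β → ℕ, (∀ b, f b < H) ∧ ∀ φ ∈ Φ, ∀ η, #{b ∈ A φ | f b = η} < G :=
  exists_hash Φ A hH hA h

end Pool.Agent.P.MP_d5a1e1_nt.T3
end
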