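import Pool.Agent.K.MP_d5a1e1_nt.C3
import Mathlib

-- part Pool.Agent.P.MP_d5a1e1_nt.T3K0
section

/-! Edges inside one state: upper tail and covering. -/

namespace Pool.Agent.P.MP_d5a1e1_nt.T3

open Finset TB

variable [Kap]

open Classical in
/-- All edges of a frame inside state `k`. -/
noncomputable def E0 (k N : ℕ) (P : Finset Tup) : Finset (Cell × Cell) :=
  (cells k ×ˢ cells k).filter fun e => Ed0 k N P e.1 e.2

theorem mem_E0 {k N : ℕ} {P : Finset Tup} {e : Cell × Cell} :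
    e ∈ E0 k N P ↔ Ed0 k N P e.1 e.2 := by
  classical
  simp only [E0, mem_filter, mem_product]
  refine ⟨fun h => h.2, fun h => ⟨?_, h⟩⟩
  obtain ⟨t, -, hf, -⟩ := h
  exact ⟨hf.1, hf.2.1⟩
theorem E0_bip {k N : ℕ} {P : Finset Tup} : ∀ e ∈ E0 k N P, ∀ e' ∈ E0 k N P, e.1 ≠ e'.2 := by
  intro e he e' he' h
  obtain ⟨t, -, -, h1, h2⟩ := mem_E0.1 he
  obtain ⟨t', -, -, h3, h4⟩ := mem_E0.1 he'
  rw [← h] at h3 h4
  omega
theorem T3K0a_choose (k N : ℕ) (P : Finset Tup) : ∃ f : Cell × Cell → Tup, ∀ e ∈ E0 k N P,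
    f e ∈ P ∧ Fit k k (f e) e.1 e.2 ∧ e.1.z + e.2.z = N ∧ e.1.z < e.2.z := by
  have : Nonempty Tup := ⟨⟨0, 0, fun _ => 0, 0, 0, 0, 0⟩⟩
  choose! f hf using fun e (he : e ∈ E0 k N P) => mem_E0.1 he
  exact ⟨f, hf⟩
theorem T3K0a_ext {k : ℕ} {c c' : Cell} (hc : c ∈ cells k) (hc' : c' ∈ cells k) (hi : c.i = c'.i)
    (hη : c.η = c'.η) (hx : ∀ s < 2 * k, c.x s = c'.x s) (hz : c.z = c'.z) : c = c' := by
  obtain ⟨h1, -, -, h2, -⟩ := mem_cells.1 hc
  obtain ⟨h3, -, -, h4, -⟩ := mem_cells.1 hc'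
  refine Cell.ext (h1.trans h3.symm) hi hη (funext fun s => ?_) hz
  by_cases hs : s < 2 * k
  · exact hx s hs
  · rw [(mem_XX.1 h2).2.1 s (by omega), (mem_XX.1 h4).2.1 s (by omega)]
theorem E0_out {k N : ℕ} {P : Finset Tup} (h : Fr k k N P) (a : Cell) :
    #{e ∈ E0 k N P | e.1 = a} ≤ yy k := by
  obtain ⟨f, hf⟩ := T3K0a_choose k N P
  refine le_trans (card_le_card_of_injOn f ?_ ?_) (h.out a.i)
  · intro e he
    obtain ⟨he1, he2⟩ := mem_filter.1 (mem_coe.1 he)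
    obtain ⟨h1, h2, -⟩ := hf e he1
    exact mem_coe.2 (mem_filter.2 ⟨h1, by rw [← he2]; exact h2.2.2.1.symm⟩)
  · intro e he e' he' hee
    obtain ⟨he1, he2⟩ := mem_filter.1 (mem_coe.1 he)
    obtain ⟨he3, he4⟩ := mem_filter.1 (mem_coe.1 he')
    obtain ⟨-, ⟨-, a2, -, a4, -, a6, a7⟩, a8, -⟩ := hf e he1
    obtain ⟨-, ⟨-, b2, -, b4, -, b6, b7⟩, b8, -⟩ := hf e' he3
    rw [← hee] at b4 b6 b7
    rw [he2] at a7 a8
    rw [he4] at b7 b8
    refine Prod.ext (he2.trans he4.symm) (T3K0a_ext a2 b2 (a4.trans b4.symm) (a6.trans b6.symm)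
      (fun s hs => ?_) (by omega))
    have := a7 s hs
    have := b7 s hs
    omega
theorem E0_in {k N : ℕ} {P : Finset Tup} (h : Fr k k N P) (b : Cell) :
    #{e ∈ E0 k N P | e.2 = b} ≤ yy k := by
  obtain ⟨f, hf⟩ := T3K0a_choose k N P
  refine le_trans (card_le_card_of_injOn f ?_ ?_) (h.inn b.i)
  · intro e he
    obtain ⟨he1, he2⟩ := mem_filter.1 (mem_coe.1 he)
    obtain ⟨h1, h2, -⟩ := hf e he1
    exact mem_coe.2 (mem_filter.2 ⟨h1, by rw [← he2]; exact h2.2.2.2.1.symm⟩)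
  · intro e he e' he' hee
    obtain ⟨he1, he2⟩ := mem_filter.1 (mem_coe.1 he)
    obtain ⟨he3, he4⟩ := mem_filter.1 (mem_coe.1 he')
    obtain ⟨-, ⟨a2, -, a4, -, a6, -, a7⟩, a8, -⟩ := hf e he1
    obtain ⟨-, ⟨b2, -, b4, -, b6, -, b7⟩, b8, -⟩ := hf e' he3
    rw [← hee] at b4 b6 b7
    rw [he2] at a7 a8
    rw [he4] at b7 b8
    refine Prod.ext (T3K0a_ext a2 b2 (a4.trans b4.symm) (a6.trans b6.symm)
      (fun s hs => ?_) (by omega)) (he2.trans he4.symm)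
    have := a7 s hs
    have := b7 s hs
    omega
theorem E0_sum_le (k N : ℕ) (P : Finset Tup) :
    ∑ e ∈ E0 k N P, qq e.1 * qq e.2 ≤ (rho k : ℝ) ^ 2 * ∑ t ∈ P, GG k k t.yb := by
  classical
  obtain ⟨f, hf⟩ := T3K0a_choose k N P
  let φ : Cell × Cell → Tup × (ℕ → ℕ) × (ℕ → ℕ) × ℕ := fun e => (f e, e.1.x, e.2.x, e.1.z)
  let w : Tup × (ℕ → ℕ) × (ℕ → ℕ) × ℕ → ℝ := fun q => (rho k : ℝ) ^ 2 *
    ((if ∀ i < 2 * k, q.2.1 i + q.2.2.1 i = q.1.yb i then ff k q.2.1 * ff k q.2.2.1 else 0) *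
      (cw q.2.2.2 * cw (N - q.2.2.2)))
  have hw : ∀ q, 0 ≤ w q := fun q => by
    refine mul_nonneg (by positivity) (mul_nonneg ?_ (mul_nonneg (cw_pos _).le (cw_pos _).le))
    split_ifs
    · exact mul_nonneg (ff_pos _ _).le (ff_pos _ _).le
    · exact le_rfl
  have hinj : Set.InjOn φ (E0 k N P) := by
    intro e he e' he' hee
    obtain ⟨-, ⟨a1, a2, a3, a4, a5, a6, -⟩, a8, -⟩ := hf e (mem_coe.1 he)
    obtain ⟨-, ⟨b1, b2, b3, b4, b5, b6, -⟩, b8, -⟩ := hf e' (mem_coe.1 he')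
    simp only [φ, Prod.mk.injEq] at hee
    obtain ⟨c1, c2, c3, c4⟩ := hee
    rw [← c1] at b3 b4 b5 b6
    exact Prod.ext (T3K0a_ext a1 b1 (a3.trans b3.symm) (a5.trans b5.symm)
      (fun s _ => by rw [c2]) c4) (T3K0a_ext a2 b2 (a4.trans b4.symm) (a6.trans b6.symm)
      (fun s _ => by rw [c3]) (by omega))
  calc ∑ e ∈ E0 k N P, qq e.1 * qq e.2 ≤ ∑ e ∈ E0 k N P, w (φ e) := by
        refine sum_le_sum fun e he => ?_
        obtain ⟨-, ⟨a1, a2, -, -, -, -, a7⟩, a8, -⟩ := hf e he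
        have h1 := qq_le e.1
        have h2 := qq_le e.2
        rw [(mem_cells.1 a1).1] at h1
        rw [(mem_cells.1 a2).1] at h2
        refine (mul_le_mul h1 h2 (qq_nonneg _) ((qq_nonneg _).trans h1)).trans (le_of_eq ?_)
        simp only [w, φ]
        rw [if_pos a7, show N - e.1.z = e.2.z by omega]
        ring
    _ = ∑ q ∈ (E0 k N P).image φ, w q := (sum_image hinj).symm
    _ ≤ ∑ q ∈ P ×ˢ XX k ×ˢ XX k ×ˢ range (N + 1), w q := by
        refine sum_le_sum_of_subset_of_nonneg (fun q hq => ?_) fun q _ _ => hw q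
        obtain ⟨e, he, rfl⟩ := mem_image.1 hq
        obtain ⟨a0, ⟨a1, a2, -⟩, a8, -⟩ := hf e he
        simp only [φ, mem_product, mem_range]
        exact ⟨a0, (mem_cells.1 a1).2.2.2.1, (mem_cells.1 a2).2.2.2.1, by omega⟩
    _ = (rho k : ℝ) ^ 2 * ∑ t ∈ P, GG k k t.yb := by
        rw [mul_sum, sum_product]
        refine sum_congr rfl fun t _ => ?_
        unfold GG
        rw [mul_sum, sum_product]
        refine sum_congr rfl fun x _ => ?_
        rw [mul_sum, sum_product]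
        refine sum_congr rfl fun x' _ => ?_
        simp only [w]
        rw [← mul_sum, ← mul_sum, cw_conv, mul_one]
theorem pr_K0 {k : ℕ} (hk : k0 ≤ k) (S : Finset Cell) :
    pr S qq (fun A => ¬K0 (A : Set Cell) k) ≤ 1 / 2 ^ (k + 4) := by
  classical
  obtain ⟨F, hF, hmem⟩ := exists_frames hk (Or.inl rfl : k = k ∨ k = k + 1)
  let F' := F.filter fun q => Fr k k q.1 q.2
  have h1 : pr S qq (fun A => ¬K0 (A : Set Cell) k) ≤ pr S qq (fun A => ∃ q ∈ F',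
      (gg k : ℝ) ≤ #{e ∈ E0 k q.1 q.2 | e.1 ∈ A ∧ e.2 ∈ A}) := by
    refine pr_mono qq_nonneg qq_le_one fun A _ h => ?_
    unfold K0 at h
    push Not at h
    obtain ⟨N, P, hP, Z, hZ, hc⟩ := h
    refine ⟨(N, P), mem_filter.2 ⟨hmem N P hP, hP⟩, ?_⟩
    have hsub : Z ⊆ {e ∈ E0 k N P | e.1 ∈ A ∧ e.2 ∈ A} := fun e he =>
      mem_filter.2 ⟨mem_E0.2 (hZ e he).2.2, mem_coe.1 (hZ e he).1, mem_coe.1 (hZ e he).2.1⟩
    exact_mod_cast hc.trans (card_le_card hsub)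
  refine h1.trans ((pr_exists_le qq_nonneg qq_le_one _ _).trans ?_)
  have h2 : ∀ q ∈ F', pr S qq (fun A => (gg k : ℝ) ≤ #{e ∈ E0 k q.1 q.2 | e.1 ∈ A ∧ e.2 ∈ A}) ≤
      Real.exp ((4 * (130 * (yy k : ℝ) ^ (4 * ka + 19)) - gg k) / yy k) := by
    intro q hq
    obtain ⟨-, hP⟩ := mem_filter.1 hq
    refine pr_star qq_nonneg qq_le_one _ E0_bip (yy_ge k) (E0_out hP) (fun b => ?_) ?_ _
    · have hy : (0 : ℝ) < yy k := by exact_mod_cast lt_of_lt_of_le (by norm_num) (yy_ge k)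
      have h3 : ∀ e ∈ (E0 k q.1 q.2).filter (fun e => e.2 = b), qq e.1 ≤ 1 / (yy k : ℝ) := by
        intro e he
        obtain ⟨t, -, hf, -⟩ := mem_E0.1 (mem_filter.1 he).1
        rw [le_div_iff₀ hy, mul_comm]
        exact qq_small hf.1
      refine (sum_le_card_nsmul _ _ _ h3).trans ?_
      rw [nsmul_eq_mul, mul_one_div, div_le_one hy]
      exact_mod_cast E0_in hP b
    · refine (E0_sum_le k q.1 q.2).trans
        ((hP.weight zero_le_one fun y => (GG_le_Gb hk y).trans_eq (one_mul _).symm).trans ?_)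
      have h5 : (0 : ℝ) ≤ (yy k : ℝ) ^ (4 * ka + 19) := by positivity
      linarith
  refine (sum_le_card_nsmul _ _ _ h2).trans (le_trans ?_ (num_star hk (Or.inl rfl)))
  rw [nsmul_eq_mul]
  refine mul_le_mul_of_nonneg_right ?_ (Real.exp_pos _).le
  exact_mod_cast (card_filter_le _ _).trans hF
theorem E0_sum_ge {k N : ℕ} {P : Finset Tup} (h : Fr k k N P) (h1 : 4 * BB k ≤ N)
    (h2 : N < ZZ k) :
    (rho k : ℝ) ^ 2 * (∑ t ∈ P, GG k k t.yb) / 10 ≤ ∑ e ∈ E0 k N P, qq e.1 * qq e.2 := by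
  classical
  have hB : 20 ≤ N := by
    have h3 := BB_gt k
    have h4 : 1 ≤ 2 ^ sg k := Nat.one_le_two_pow
    omega
  set Zs : Finset ℕ := (range N).filter fun z => N ≤ 4 * z ∧ 2 * z < N with hZs
  set I : Finset (Tup × (ℕ → ℕ) × (ℕ → ℕ) × ℕ) :=
    (P ×ˢ XX k ×ˢ XX k ×ˢ Zs).filter fun q => ∀ i < 2 * k, q.2.1 i + q.2.2.1 i = q.1.yb i with hI
  let φ : Tup × (ℕ → ℕ) × (ℕ → ℕ) × ℕ → Cell × Cell := fun q =>
    (⟨k, q.1.i, q.1.η, q.2.1, q.2.2.2⟩, ⟨k, q.1.i', q.1.η', q.2.2.1, N - q.2.2.2⟩)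
  have hmem : ∀ q ∈ I, q.1 ∈ P ∧ (φ q).1 ∈ cells k ∧ (φ q).2 ∈ cells k ∧ φ q ∈ E0 k N P := by
    rintro ⟨t, x, x', z⟩ hq
    simp only [hI, hZs, mem_filter, mem_product, mem_range] at hq
    obtain ⟨⟨ht, hx, hx', -, hz1, hz2⟩, hs⟩ := hq
    obtain ⟨t1, t2, -, t4, t5, -, -⟩ := mem_tups.1 (h.sub ht)
    have c1 : (φ (t, x, x', z)).1 ∈ cells k :=
      mem_cells.2 ⟨rfl, t1, t4, hx, by show BB k ≤ z; omega, by show z < ZZ k; omega⟩
    have c2 : (φ (t, x, x', z)).2 ∈ cells k :=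
      mem_cells.2 ⟨rfl, t2, t5, hx', by show BB k ≤ N - z; omega, by show N - z < ZZ k; omega⟩
    refine ⟨ht, c1, c2, mem_E0.2 ⟨t, ht, ⟨c1, c2, rfl, rfl, rfl, rfl, hs⟩, ?_, ?_⟩⟩
    · show z + (N - z) = N
      omega
    · show z < N - z
      omega
  have hinj : Set.InjOn φ I := by
    rintro ⟨t, x, x', z⟩ hq ⟨u, y, y', w⟩ hr he
    have e1 := congrArg Prod.fst he
    have e2 := congrArg Prod.snd he
    simp only [φ, Cell.mk.injEq] at e1 e2
    have e3 : t = u := h.one t (hmem _ hq).1 u (hmem _ hr).1 e1.2.1 e2.2.1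
    rw [e3, e1.2.2.2.1, e2.2.2.2.1, e1.2.2.2.2]
  have hle : ∑ q ∈ I, qq (φ q).1 * qq (φ q).2 ≤ ∑ e ∈ E0 k N P, qq e.1 * qq e.2 := by
    rw [← sum_image (f := fun e : Cell × Cell => qq e.1 * qq e.2) hinj]
    refine sum_le_sum_of_subset_of_nonneg ?_ fun e _ _ => mul_nonneg (qq_nonneg _) (qq_nonneg _)
    intro e he
    obtain ⟨q, hq, rfl⟩ := mem_image.1 he
    exact (hmem q hq).2.2.2
  refine le_trans ?_ hle
  have heq : ∑ q ∈ I, qq (φ q).1 * qq (φ q).2 =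
      (rho k : ℝ) ^ 2 * (∑ t ∈ P, GG k k t.yb) * ∑ z ∈ Zs, cw z * cw (N - z) := by
    rw [sum_congr rfl fun q hq => by rw [qq_eq (hmem q hq).2.1, qq_eq (hmem q hq).2.2.1]]
    rw [hI, sum_filter, sum_product, mul_assoc, sum_mul, mul_sum]
    refine sum_congr rfl fun t _ => ?_
    rw [sum_product, GG, sum_mul, mul_sum]
    refine sum_congr rfl fun x _ => ?_
    rw [sum_product, sum_mul, mul_sum]
    refine sum_congr rfl fun x' _ => ?_
    by_cases hc : ∀ i < 2 * k, x i + x' i = t.yb i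
    · simp only [if_pos hc]
      rw [mul_sum, mul_sum]
      refine sum_congr rfl fun z _ => ?_
      simp only [φ]
      ring
    · simp only [if_neg hc]
      simp
  rw [heq]
  have h3 := conv_ge hB
  have h4 : 0 ≤ (rho k : ℝ) ^ 2 * ∑ t ∈ P, GG k k t.yb :=
    mul_nonneg (sq_nonneg _) (sum_nonneg fun t _ => GG_nonneg _ _ _)
  have h5 := mul_le_mul_of_nonneg_left h3 h4
  linarith
theorem T3K0b_deg {k : ℕ} (s : Finset (Cell × Cell)) (g : Cell × Cell → Cell)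
    (hs : #s ≤ yy k) (hg : ∀ e ∈ s, g e ∈ cells k) : ∑ e ∈ s, qq (g e) ≤ 1 := by
  have hy : (0 : ℝ) < yy k := by
    have := yy_ge k
    exact_mod_cast (by omega : 0 < yy k)
  have h1 : ∑ e ∈ s, qq (g e) ≤ #s • ((1 : ℝ) / yy k) := by
    refine sum_le_card_nsmul _ _ _ fun e he => ?_
    rw [le_div_iff₀ hy, mul_comm]
    exact qq_small (hg e he)
  refine h1.trans ?_
  rw [nsmul_eq_mul, mul_one_div, div_le_one hy]
  exact_mod_cast hs
theorem pr_KC {k : ℕ} (hk : k0 ≤ k) (S : Finset Cell) (hS : cells k ⊆ S) :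
    pr S qq (fun A => ¬KC (A : Set Cell) k) ≤ 1 / 2 ^ (k + 4) := by
  classical
  obtain ⟨F, hF, hFr⟩ := exists_frames hk (Or.inl rfl : k = k ∨ k = k + 1)
  set F' : Finset (ℕ × Finset Tup) := F.filter fun q => Fr k k q.1 q.2 ∧
    lam k ^ 2 / 192 ≤ ∑ t ∈ q.2, GG k k t.yb ∧ 4 * BB k ≤ q.1 ∧ q.1 < ZZ k with hF'
  have hcell : ∀ N P, ∀ e ∈ E0 k N P, e.1 ∈ cells k ∧ e.2 ∈ cells k := by
    intro N P e he
    obtain ⟨t, -, hf, -⟩ := mem_E0.1 he
    exact ⟨hf.1, hf.2.1⟩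
  have h1 : pr S qq (fun A => ¬KC (A : Set Cell) k) ≤
      pr S qq (fun A => ∃ q ∈ F', ∀ e ∈ E0 k q.1 q.2, ¬(e.1 ∈ A ∧ e.2 ∈ A)) := by
    refine pr_mono qq_nonneg qq_le_one fun A _ hA => ?_
    by_contra hc
    refine hA fun N P a1 a2 a3 a4 => ?_
    by_contra hn
    refine hc ⟨(N, P), mem_filter.2 ⟨hFr N P a1, a1, a2, a3, a4⟩, fun e he hm => hn ?_⟩
    exact ⟨e.1, mem_coe.2 hm.1, e.2, mem_coe.2 hm.2, mem_E0.1 he⟩
  refine h1.trans ((pr_exists_le qq_nonneg qq_le_one F' _).trans ?_)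
  have h2 : ∀ q ∈ F', pr S qq (fun A => ∀ e ∈ E0 k q.1 q.2, ¬(e.1 ∈ A ∧ e.2 ∈ A)) ≤
      Real.exp (-((yy k : ℝ) ^ (4 * ka + 14) / 1920 / 3)) := by
    intro q hq
    obtain ⟨-, a1, a2, a3, a4⟩ := mem_filter.1 hq
    refine (pr_no_edge_le qq_nonneg qq_le_one _
      (fun e he => ⟨hS (hcell _ _ e he).1, hS (hcell _ _ e he).2⟩) E0_bip
      (fun a => T3K0b_deg _ Prod.snd (E0_out a1 a) fun e he => (hcell _ _ e (mem_filter.1 he).1).2)
      (fun b => T3K0b_deg _ Prod.fst (E0_in a1 b) fun e he =>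
        (hcell _ _ e (mem_filter.1 he).1).1)).trans ?_
    refine Real.exp_le_exp.2 ?_
    have h3 := E0_sum_ge a1 a3 a4
    have h4 := rho_lam k
    have h5 := mul_le_mul_of_nonneg_left a2 (sq_nonneg (rho k : ℝ))
    linarith
  refine (sum_le_card_nsmul _ _ _ h2).trans (le_trans ?_ (num_cover hk))
  rw [nsmul_eq_mul]
  refine mul_le_mul_of_nonneg_right ?_ (Real.exp_pos _).le
  exact_mod_cast (card_filter_le _ _).trans hF
theorem T3K0c_card (k z : ℕ) :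
    #{c ∈ cells k | c.z = z} ≤ mm k * (HH k * (XX k).card) := by
  have h : #{c ∈ cells k | c.z = z} ≤ (range (mm k) ×ˢ range (HH k) ×ˢ XX k).card := by
    refine card_le_card_of_injOn (fun c => (c.i, c.η, c.x)) (fun c hc => ?_) fun c hc c' hc' h => ?_
    · have h1 := mem_cells.1 (mem_filter.1 (mem_coe.1 hc)).1
      exact mem_coe.2 (mem_product.2 ⟨mem_range.2 h1.2.1,
        mem_product.2 ⟨mem_range.2 h1.2.2.1, h1.2.2.2.1⟩⟩)
    · obtain ⟨h1, h2⟩ := mem_filter.1 (mem_coe.1 hc)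
      obtain ⟨h3, h4⟩ := mem_filter.1 (mem_coe.1 hc')
      obtain ⟨h5, h6⟩ := Prod.mk.inj h
      obtain ⟨h7, h8⟩ := Prod.mk.inj h6
      exact Cell.ext ((mem_cells.1 h1).1.trans (mem_cells.1 h3).1.symm) h5 h7 h8
        (h2.trans h4.symm)
  rwa [card_product, card_product, card_range, card_range] at h

theorem T3K0c_num (k : ℕ) : 40 * yy k ^ (2 * ka + 1) ≤ sg k ∧ k + 4 ≤ sg k ∧ 32 ≤ sg k := by
  have hy := yy_ge k
  have hy0 : 0 < yy k := by omega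
  have h1 : k < yy k ^ (2 * ka) := tau_eq k ▸ lt_tau k
  have h2 : 64 * yy k ^ (2 * ka + 1) ≤ sg k := by
    have h3 : 2 ^ 6 ≤ yy k ^ (2 * ka + 11) :=
      (Nat.pow_le_pow_left hy 6).trans (Nat.pow_le_pow_right hy0 (by omega))
    have h4 : sg k = yy k ^ (2 * ka + 11) * yy k ^ (2 * ka + 1) := by
      rw [← pow_add, sg]
      congr 1
      ring
    rw [h4]
    exact Nat.mul_le_mul_right _ h3
  have h5 : yy k ^ (2 * ka) ≤ yy k ^ (2 * ka + 1) := Nat.pow_le_pow_right hy0 (by omega)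
  omega

theorem T3K0c_sum {k : ℕ} (hk : k0 ≤ k) (z : ℕ) :
    ∑ c ∈ cells k with c.z = z, qq c ≤ 1 / 2 ^ (sg k / 4) := by
  have h1 : ∀ c ∈ (cells k).filter fun c => c.z = z,
      qq c ≤ (rho k : ℝ) * (1 / 2 ^ (sg k / 2)) := by
    intro c hc
    have h2 := (mem_filter.1 hc).1
    rw [qq_eq h2, mul_assoc]
    refine mul_le_mul_of_nonneg_left ?_ (Nat.cast_nonneg _)
    exact (mul_le_of_le_one_left (cw_pos _).le (ff_le_one _ _)).trans (cw_cell h2)
  refine (sum_le_card_nsmul _ _ _ h1).trans ?_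
  have h2 : #{c ∈ cells k | c.z = z} * rho k * 2 ^ (sg k / 4) ≤ 2 ^ (sg k / 2) := by
    have h3 := (T3K0c_num k).1
    calc #{c ∈ cells k | c.z = z} * rho k * 2 ^ (sg k / 4)
        ≤ mm k * (HH k * (XX k).card) * rho k * 2 ^ (sg k / 4) :=
          Nat.mul_le_mul_right _ (Nat.mul_le_mul_right _ (T3K0c_card k z))
      _ = mm k * (XX k).card * rho k * HH k * 2 ^ (sg k / 4) := by ring
      _ ≤ 2 ^ yy k ^ (2 * ka + 1) * HH k * 2 ^ (sg k / 4) :=
          Nat.mul_le_mul_right _ (Nat.mul_le_mul_right _ (mm_XX_le hk))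
      _ = 2 ^ (yy k ^ (2 * ka + 1) + 4 * yy k ^ (2 * ka + 1) + sg k / 4) := by rw [HH, ← pow_add, ← pow_add]
      _ ≤ 2 ^ (sg k / 2) := Nat.pow_le_pow_right (by norm_num) (by omega)
  have h3 : (#{c ∈ cells k | c.z = z} : ℝ) * rho k * 2 ^ (sg k / 4) ≤ 2 ^ (sg k / 2) := by
    exact_mod_cast h2
  rw [nsmul_eq_mul, ← mul_assoc, mul_one_div, div_le_div_iff₀ (by positivity) (by positivity),
    one_mul]
  exact h3

theorem T3K0c_ZZ (k : ℕ) : ZZ k ≤ 2 ^ (7 * sg (k + 2)) := by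
  have h1 : BB k ≤ 2 ^ (2 * sg (k + 2)) := (BB_mono (by omega)).trans (BB_le (k + 2))
  have h2 : BB (k + 1) ≤ 2 ^ (2 * sg (k + 2)) := (BB_mono (by omega)).trans (BB_le (k + 2))
  have h3 : 5 ≤ 2 ^ sg (k + 2) :=
    le_trans (by norm_num) (Nat.pow_le_pow_right (by norm_num)
      (le_trans (by norm_num : 3 ≤ 32) (T3K0c_num (k + 2)).2.2))
  calc ZZ k ≤ 2 ^ sg (k + 2) * (2 ^ (2 * sg (k + 2))) ^ 2 * 2 ^ (2 * sg (k + 2)) :=
        Nat.mul_le_mul (Nat.mul_le_mul h3 (Nat.pow_le_pow_left h1 2)) h2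
    _ = 2 ^ (7 * sg (k + 2)) := by
        rw [← pow_mul, ← pow_add, ← pow_add]
        congr 1
        ring

theorem T3K0c_exp {k : ℕ} (hk : 1 ≤ k) :
    0 < d0 ∧ 7 * sg (k + 2) + (k + 4) ≤ sg k / 4 * d0 := by
  obtain ⟨c, hc, h1, h2⟩ : ∃ c, 0 < c ∧ d0 = 40 * c ∧ sg (k + 2) ≤ c * sg k :=
    ⟨2 ^ (4 * ka + 12), Nat.two_pow_pos _, d0_eq, sg_add_two hk⟩
  obtain ⟨-, h3, h4⟩ := T3K0c_num k
  rw [h1]
  refine ⟨by omega, ?_⟩
  generalize sg (k + 2) = s' at h2 ⊢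
  generalize sg k = s at h2 h3 h4 ⊢
  have h5 : s ≤ 5 * (s / 4) := by omega
  have h6 : c * s ≤ c * (5 * (s / 4)) := Nat.mul_le_mul_left c h5
  have h7 : 1 * s ≤ c * s := Nat.mul_le_mul_right s hc
  have h8 : c * (5 * (s / 4)) = 5 * (c * (s / 4)) := by ring
  have h9 : s / 4 * (40 * c) = 40 * (c * (s / 4)) := by ring
  omega

theorem pr_KA {k : ℕ} (hk : k0 ≤ k) (S : Finset Cell) :
    pr S qq (fun A => ¬KA (A : Set Cell) k) ≤ 1 / 2 ^ (k + 4) := by
  have hk1 : 1 ≤ k := k0_pos.trans hk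
  obtain ⟨hd, he⟩ := T3K0c_exp hk1
  refine le_trans (pr_mono qq_nonneg qq_le_one (E' := fun A => ∃ z ∈ range (ZZ k),
    d0 ≤ (((cells k).filter fun c => c.z = z).filter (· ∈ A)).card) ?_)
    ((pr_exists_le qq_nonneg qq_le_one _ _).trans ?_)
  · intro A _ h
    unfold KA at h
    push Not at h
    obtain ⟨z, Z, h1, h2⟩ := h
    obtain ⟨c, hc⟩ := card_pos.1 (hd.trans_le h2)
    refine ⟨z, mem_range.2 ((h1 c hc).2.2 ▸ (mem_cells.1 (h1 c hc).2.1).2.2.2.2.2),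
      h2.trans (card_le_card fun c' hc' => ?_)⟩
    exact mem_filter.2 ⟨mem_filter.2 (h1 c' hc').2, mem_coe.1 (h1 c' hc').1⟩
  · have h1 : ∀ z ∈ range (ZZ k), pr S qq (fun A =>
        d0 ≤ (((cells k).filter fun c => c.z = z).filter (· ∈ A)).card) ≤
        1 / 2 ^ (sg k / 4 * d0) := by
      intro z _
      refine (pr_many_le qq_nonneg qq_le_one _ _).trans ?_
      rw [pow_mul, ← one_div_pow]
      exact pow_le_pow_left₀ (sum_nonneg fun c _ => qq_nonneg c) (T3K0c_sum hk z) _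
    refine (sum_le_card_nsmul _ _ _ h1).trans ?_
    have h2 : ZZ k * 2 ^ (k + 4) ≤ 2 ^ (sg k / 4 * d0) :=
      (Nat.mul_le_mul_right _ (T3K0c_ZZ k)).trans (by
        rw [← pow_add]
        exact Nat.pow_le_pow_right (by norm_num) he)
    have h3 : (ZZ k : ℝ) * 2 ^ (k + 4) ≤ 2 ^ (sg k / 4 * d0) := by exact_mod_cast h2
    rw [card_range, nsmul_eq_mul, mul_one_div, div_le_div_iff₀ (by positivity) (by positivity),
      one_mul]
    exact h3

end Pool.Agent.P.MP_d5a1e1_nt.T3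
end

-- part Pool.Agent.P.MP_d5a1e1_nt.T3K1
section

/-! Edges between consecutive states. -/

namespace Pool.Agent.P.MP_d5a1e1_nt.T3

open Finset TB

variable [Kap] {Pt : ℕ → Finset (ℕ → ℕ)}

open Classical in
/-- All edges of a frame between the states `j` and `j + 1`. -/
noncomputable def E1 (Pt : ℕ → Finset (ℕ → ℕ)) (j N : ℕ) (P : Finset Tup) :
    Finset (Cell × Cell) :=
  (cells j ×ˢ cells (j + 1)).filter fun e => Ed1 Pt j N P e.1 e.2

/-- The points of the new unit. -/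
noncomputable def Top (Pt : ℕ → Finset (ℕ → ℕ)) (j : ℕ) : Finset (ℕ × ℕ) :=
  (Pt (j + 1)).image fun d => (d (2 * j), d (2 * j + 1))

theorem mem_E1 {j N : ℕ} {P : Finset Tup} {e : Cell × Cell} :
    e ∈ E1 Pt j N P ↔ Ed1 Pt j N P e.1 e.2 := by
  classical
  unfold E1
  rw [mem_filter, mem_product]
  refine ⟨fun h => h.2, fun h => ⟨?_, h⟩⟩
  obtain ⟨t, -, hf, -⟩ := h
  exact ⟨hf.1, hf.2.1⟩
theorem T3K1a_lt (hF : Fine Pt) {j : ℕ} {d : ℕ → ℕ} (hd : d ∈ Pt (j + 1)) :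
    d (2 * j) < pp j ∧ d (2 * j + 1) < pp j := by
  have hb := (mem_Box.1 (hF.box (j + 1) hd)).1
  have h0 := hb (2 * j) (by omega)
  have h1 := hb (2 * j + 1) (by omega)
  rw [show 2 * j / 2 = j by omega] at h0
  rw [show (2 * j + 1) / 2 = j by omega] at h1
  exact ⟨h0, h1⟩
theorem Top_lt (hF : Fine Pt) (j : ℕ) : ∀ q ∈ Top Pt j, q.1 < pp j ∧ q.2 < pp j := by
  intro q hq
  unfold Top at hq
  obtain ⟨d, hd, rfl⟩ := mem_image.1 hq
  exact T3K1a_lt hF hd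
theorem Top_six (hF : Fine Pt) (j v : ℕ) : #{q ∈ Top Pt j | q.2 = v} ≤ 6 := by
  have hinj : Set.InjOn Prod.fst (({q ∈ Top Pt j | q.2 = v} : Finset (ℕ × ℕ)) : Set (ℕ × ℕ)) := by
    intro q hq q' hq' h
    have h1 := (mem_filter.1 (mem_coe.1 hq)).2
    have h2 := (mem_filter.1 (mem_coe.1 hq')).2
    exact Prod.ext h (h1.trans h2.symm)
  rw [← card_image_of_injOn hinj]
  refine hF.top j v _ fun u hu => ?_
  obtain ⟨q, hq, rfl⟩ := mem_image.1 hu
  obtain ⟨hq1, hq2⟩ := mem_filter.1 hq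
  unfold Top at hq1
  obtain ⟨d, hd, rfl⟩ := mem_image.1 hq1
  exact ⟨d, hd, rfl, hq2⟩
theorem T3K1a_x {j : ℕ} {c : Cell} (hc : c ∈ cells (j + 1)) :
    c.x (2 * j) ≤ Ru j ∧ c.x (2 * j + 1) ≤ Ru j := by
  have hb := (mem_XX.1 (mem_cells.1 hc).2.2.2.1).1
  have h0 := hb (2 * j) (by omega)
  have h1 := hb (2 * j + 1) (by omega)
  rw [show 2 * j / 2 = j by omega] at h0
  rw [show (2 * j + 1) / 2 = j by omega] at h1
  exact ⟨h0, h1⟩
theorem E1_out (hF : Fine Pt) {j N : ℕ} {P : Finset Tup} (h : Fr j (j + 1) N P) (a : Cell) :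
    #{e ∈ E1 Pt j N P | e.1 = a} ≤ yy (j + 1) := by
  refine le_trans ?_ (h.out a.i)
  refine card_le_card_of_forall_subsingleton
    (fun (e : Cell × Cell) (t : Tup) => Fit j (j + 1) t e.1 e.2 ∧ ∃ d ∈ Pt (j + 1),
      e.1.z + (d (2 * j) + pp j * (t.o₀ + e.2.x (2 * j))) +
        BB j * (d (2 * j + 1) + pp j * (t.o₁ + e.2.x (2 * j + 1))) + BB j ^ 2 * e.2.z = N)
    ?_ ?_
  · intro e he
    obtain ⟨he1, he2⟩ := mem_filter.1 he
    obtain ⟨t, ht, hf, hd⟩ := mem_E1.1 he1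
    refine ⟨t, mem_filter.2 ⟨ht, ?_⟩, hf, hd⟩
    rw [← he2]
    exact hf.2.2.1.symm
  · intro t _ e he e' he'
    obtain ⟨he0, hf, d, hd, hN⟩ := he
    obtain ⟨he0', hf', d', hd', hN'⟩ := he'
    have e1 : e.1 = a := (mem_filter.1 (mem_coe.1 he0)).2
    have e1' : e'.1 = a := (mem_filter.1 (mem_coe.1 he0')).2
    obtain ⟨-, hc, -, hi, -, hη, hx⟩ := hf
    obtain ⟨-, hc', -, hi', -, hη', hx'⟩ := hf'
    rw [e1] at hN hx
    rw [e1'] at hN' hx'
    obtain ⟨-, -, u1, u2, u3⟩ := top_unique (o₀ := t.o₀) (o₁ := t.o₁) (z := e.2.z) (z' := e'.2.z)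
      (T3K1a_lt hF hd).1 (T3K1a_lt hF hd).2 (T3K1a_lt hF hd').1 (T3K1a_lt hF hd').2
      (T3K1a_x hc).1 (T3K1a_x hc).2 (T3K1a_x hc').1 (T3K1a_x hc').2 (by omega)
    refine Prod.ext (e1.trans e1'.symm) (Cell.ext ?_ (hi.trans hi'.symm) (hη.trans hη'.symm) ?_ u3)
    · exact (mem_cells.1 hc).1.trans (mem_cells.1 hc').1.symm
    · funext s
      by_cases hs : s < 2 * j
      · have := hx s hs
        have := hx' s hs
        omega
      · by_cases hs0 : s = 2 * j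
        · rw [hs0]; exact u1
        · by_cases hs1 : s = 2 * j + 1
          · rw [hs1]; exact u2
          · rw [(mem_XX.1 (mem_cells.1 hc).2.2.2.1).2.1 s (by omega),
              (mem_XX.1 (mem_cells.1 hc').2.2.2.1).2.1 s (by omega)]
theorem T3K1a_sum {α β : Type*} (s : Finset α) (t : Finset β) (f : α → ℝ) (w : β → ℝ)
    (r : α → β → Prop) (hw : ∀ b ∈ t, 0 ≤ w b) (h1 : ∀ a ∈ s, ∃ b ∈ t, r a b ∧ f a ≤ w b)
    (h2 : ∀ a ∈ s, ∀ a' ∈ s, ∀ b, r a b → r a' b → a = a') : ∑ a ∈ s, f a ≤ ∑ b ∈ t, w b := by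
  classical
  have h3 : ∀ a : s, ∃ b ∈ t, r a b ∧ f a ≤ w b := fun a => h1 a a.2
  choose φ hφ using h3
  have hinj : Function.Injective φ := fun a a' h =>
    Subtype.ext (h2 a a.2 a' a'.2 (φ a) (hφ a).2.1 (h ▸ (hφ a').2.1))
  calc ∑ a ∈ s, f a = ∑ a : s, f a := (sum_coe_sort s f).symm
    _ ≤ ∑ a : s, w (φ a) := sum_le_sum fun a _ => (hφ a).2.2
    _ = ∑ b ∈ univ.image φ, w b := (sum_image fun a _ a' _ h => hinj h).symm
    _ ≤ ∑ b ∈ t, w b := by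
      refine sum_le_sum_of_subset_of_nonneg ?_ fun b hb _ => hw b hb
      intro b hb
      obtain ⟨a, -, rfl⟩ := mem_image.1 hb
      exact (hφ a).1
theorem T3K1a_num {j : ℕ} (hj : k0 ≤ j) :
    (yy (j + 1) : ℝ) * (rho j * (24 / √(DD j))) ≤ 1 := by
  have hy2 := yy_ge j
  have h0 := ka_big
  have h1 : yy (j + 1) ≤ 2 * yy j :=
    (yy_mono (by omega : j + 1 ≤ j + 2)).trans (yy_add_two (k0_pos.trans hj))
  have h2 : yy (j + 1) * rho j * 24 ≤ 4 * yy j ^ (4 * ka) := by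
    have h3 : 2 ^ 4 ≤ yy j ^ (ka - 1) :=
      (Nat.pow_le_pow_left hy2 4).trans (Nat.pow_le_pow_right (by omega) (by omega))
    have h4 : yy j ^ (4 * ka) = yy j ^ (ka - 1) * (yy j * yy j ^ (3 * ka)) := by
      rw [← pow_succ', ← pow_add]
      congr 1
      omega
    have h5 := Nat.mul_le_mul h1 (rho_le j)
    have h6 := Nat.mul_le_mul_right (yy j * yy j ^ (3 * ka)) h3
    rw [mul_assoc] at h5
    omega
  have h3 : (4 * yy j ^ (4 * ka)) ^ 2 ≤ DD j := by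
    rw [mul_pow, ← pow_mul, show 4 * ka * 2 = 8 * ka by ring]
    exact Nat.mul_le_mul_left 16 (Ru_ge j)
  have hs : ((4 * yy j ^ (4 * ka) : ℕ) : ℝ) ≤ √(DD j) :=
    Real.le_sqrt_of_sq_le (by exact_mod_cast h3)
  have hsq : 0 < √(DD j : ℝ) := Real.sqrt_pos.2 (by exact_mod_cast DD_pos j)
  rw [← mul_assoc, ← mul_div_assoc, div_le_one hsq]
  exact le_trans (by exact_mod_cast h2) hs

theorem E1_in (hF : Fine Pt) {j N : ℕ} (hj : k0 ≤ j) {P : Finset Tup} (h : Fr j (j + 1) N P)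
    (b : Cell) : ∑ e ∈ E1 Pt j N P with e.2 = b, qq e.1 ≤ 1 := by
  classical
  let M : Tup → ℕ := fun t => N - (pp j * (t.o₀ + b.x (2 * j)) +
    BB j * (pp j * (t.o₁ + b.x (2 * j + 1))) + BB j ^ 2 * b.z)
  have hrho : (0 : ℝ) ≤ rho j := Nat.cast_nonneg _
  have key := T3K1a_sum ({e ∈ E1 Pt j N P | e.2 = b})
    (({t ∈ P | t.i' = b.i} : Finset Tup).sigma fun t =>
      ({q ∈ Top Pt j | q.1 + DD j * pp j * q.2 + DD j * pp j ≤ M t} : Finset (ℕ × ℕ)))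
    (fun e => qq e.1)
    (fun w => (rho j : ℝ) * cw (M w.1 - (w.2.1 + DD j * pp j * w.2.2)))
    (fun e w => Fit j (j + 1) w.1 e.1 b ∧ e.1.z = M w.1 - (w.2.1 + DD j * pp j * w.2.2))
    (fun w _ => mul_nonneg hrho (cw_pos _).le) ?_ ?_
  · refine key.trans ?_
    rw [sum_sigma]
    refine le_trans (sum_le_card_nsmul _ _ ((rho j : ℝ) * (24 / √(DD j))) fun t _ => ?_) ?_
    · rw [← mul_sum]
      exact mul_le_mul_of_nonneg_left
        (top_sum (pp_pos j) (DD_pos j) (Top Pt j) (Top_lt hF j) (Top_six hF j) (M t)) hrho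
    · rw [nsmul_eq_mul]
      refine le_trans ?_ (T3K1a_num hj)
      refine mul_le_mul_of_nonneg_right ?_ (by positivity)
      exact_mod_cast h.inn b.i
  · intro e he
    obtain ⟨he1, he2⟩ := mem_filter.1 he
    obtain ⟨t, ht, hf, d, hd, hN⟩ := mem_E1.1 he1
    rw [he2] at hf hN
    have hc := mem_cells.1 hf.1
    have hB : BB j = DD j * pp j := rfl
    have hM : M t = e.1.z + (d (2 * j) + DD j * pp j * d (2 * j + 1)) := by
      show N - _ = _
      rw [← hB, ← hN, mul_add (BB j)]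
      omega
    have hz : e.1.z = M t - (d (2 * j) + DD j * pp j * d (2 * j + 1)) := by omega
    refine ⟨⟨t, (d (2 * j), d (2 * j + 1))⟩, mem_sigma.2 ⟨mem_filter.2 ⟨ht, hf.2.2.2.1.symm⟩,
      mem_filter.2 ⟨?_, ?_⟩⟩, ⟨hf, hz⟩, ?_⟩
    · unfold Top
      exact mem_image.2 ⟨d, hd, rfl⟩
    · have := hc.2.2.2.2.1
      show d (2 * j) + DD j * pp j * d (2 * j + 1) + DD j * pp j ≤ M t
      omega
    · show qq e.1 ≤ (rho j : ℝ) * cw (M t - (d (2 * j) + DD j * pp j * d (2 * j + 1)))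
      rw [← hz]
      refine (qq_le e.1).trans ?_
      rw [hc.1]
      refine mul_le_mul_of_nonneg_right ?_ (cw_pos _).le
      exact mul_le_of_le_one_right hrho (ff_le_one _ _)
  · intro e he e' he' w hw hw'
    obtain ⟨⟨hc, -, hi, -, hη, -, hx⟩, hz⟩ := hw
    obtain ⟨⟨hc', -, hi', -, hη', -, hx'⟩, hz'⟩ := hw'
    refine Prod.ext (Cell.ext ?_ (hi.trans hi'.symm) (hη.trans hη'.symm) ?_ (hz.trans hz'.symm))
      ((mem_filter.1 he).2.trans (mem_filter.1 he').2.symm)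
    · exact (mem_cells.1 hc).1.trans (mem_cells.1 hc').1.symm
    · funext s
      by_cases hs : s < 2 * j
      · have := hx s hs
        have := hx' s hs
        omega
      · rw [(mem_XX.1 (mem_cells.1 hc).2.2.2.1).2.1 s (by omega),
          (mem_XX.1 (mem_cells.1 hc').2.2.2.1).2.1 s (by omega)]
theorem T3K1b_sum {α β : Type*} (E : Finset α) (I : Finset β) (φ : β → α) (f : α → ℝ) (g : β → ℝ)
    (h : ∀ e ∈ E, ∃ i ∈ I, φ i = e ∧ f e ≤ g i) (hg : ∀ i ∈ I, 0 ≤ g i) :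
    ∑ e ∈ E, f e ≤ ∑ i ∈ I, g i := by
  classical
  rcases E.eq_empty_or_nonempty with rfl | ⟨e₀, h₀⟩
  · exact sum_empty.le.trans (sum_nonneg hg)
  have : Nonempty β := ⟨(h e₀ h₀).choose⟩
  choose! ψ h1 h2 h3 using h
  refine (sum_le_sum h3).trans ?_
  rw [← sum_image (s := E) (g := ψ) (f := g) fun e he e' he' e1 => by
    rw [← h2 e he, e1, h2 e' he']]
  exact sum_le_sum_of_subset_of_nonneg (image_subset_iff.2 h1) fun i hi _ => hg i hi

theorem T3K1b_ff (k : ℕ) (x : ℕ → ℕ) : 0 ≤ ff k x := prod_nonneg fun _ _ => (cw_pos _).le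

theorem E1_sum_le (hF : Fine Pt) (j N : ℕ) (P : Finset Tup) :
    ∑ e ∈ E1 Pt j N P, qq e.1 * qq e.2 ≤
      (rho (j + 1) : ℝ) ^ 2 * (10 / DD j) * ∑ t ∈ P, GG j (j + 1) t.yb := by
  classical
  let M : Tup → (ℕ → ℕ) → ℕ := fun t x' =>
    N - (pp j * (t.o₀ + x' (2 * j)) + BB j * (pp j * (t.o₁ + x' (2 * j + 1))))
  let A : Tup → (ℕ → ℕ) → (ℕ → ℕ) → ℝ := fun t x x' =>
    if ∀ i < 2 * j, x i + x' i = t.yb i then ff j x * ff (j + 1) x' else 0
  let J : ℕ → ℕ → ℕ × ℕ → ℝ := fun n z q =>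
    if q.1 + DD j * pp j * q.2 + (DD j * pp j) ^ 2 * z + DD j * pp j ≤ n then
      cw z * cw (n - (q.1 + DD j * pp j * q.2 + (DD j * pp j) ^ 2 * z)) else 0
  have hA : ∀ t x x', 0 ≤ A t x x' := fun t x x' => by
    simp only [A]
    split_ifs
    · exact mul_nonneg (T3K1b_ff _ _) (T3K1b_ff _ _)
    · exact le_rfl
  have hJ : ∀ n z q, 0 ≤ J n z q := fun n z q => by
    simp only [J]
    split_ifs
    · exact mul_nonneg (cw_pos _).le (cw_pos _).le
    · exact le_rfl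
  have hJs : ∀ n, ∑ z ∈ Ico (BB (j + 1)) (ZZ (j + 1)), ∑ q ∈ Top Pt j, J n z q ≤ 10 / DD j :=
    fun n => by
      have h1 := junction_sum (pp_big j) (DD_pos j) (Top Pt j) (Top_lt hF j) (Top_six hF j) n
        (Ico (BB (j + 1)) (ZZ (j + 1))) fun z hz =>
          (BB_mono (Nat.le_succ j)).trans (mem_Ico.1 hz).1
      simp only [sum_filter] at h1
      exact h1
  refine (T3K1b_sum _
    (P ×ˢ XX j ×ˢ XX (j + 1) ×ˢ Ico (BB (j + 1)) (ZZ (j + 1)) ×ˢ Top Pt j)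
    (fun i => ((⟨j, i.1.i, i.1.η, i.2.1, M i.1 i.2.2.1 - (i.2.2.2.2.1 + DD j * pp j * i.2.2.2.2.2 +
      (DD j * pp j) ^ 2 * i.2.2.2.1)⟩ : Cell), (⟨j + 1, i.1.i', i.1.η', i.2.2.1, i.2.2.2.1⟩ : Cell)))
    _ (fun i => (rho (j + 1) : ℝ) ^ 2 * A i.1 i.2.1 i.2.2.1 * J (M i.1 i.2.2.1) i.2.2.2.1 i.2.2.2.2)
    (fun e he => ?_) fun i _ => mul_nonneg (mul_nonneg (sq_nonneg _) (hA _ _ _)) (hJ _ _ _)).trans ?_
  · obtain ⟨t, ht, ⟨c1, c2, c3, c4, c5, c6, c7⟩, d, hd, hN⟩ := mem_E1.1 he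
    obtain ⟨a1, -, -, a4, a5, -⟩ := mem_cells.1 c1
    obtain ⟨b1, -, -, b4, b5, b6⟩ := mem_cells.1 c2
    have hB : BB j = DD j * pp j := rfl
    have hM : M t e.2.x = e.1.z + (d (2 * j) + DD j * pp j * d (2 * j + 1) +
        (DD j * pp j) ^ 2 * e.2.z) := by
      simp only [M]
      rw [← hN, ← hB, mul_add (BB j)]
      omega
    refine ⟨(t, e.1.x, e.2.x, e.2.z, d (2 * j), d (2 * j + 1)), mem_product.2 ⟨ht, mem_product.2
      ⟨a4, mem_product.2 ⟨b4, mem_product.2 ⟨mem_Ico.2 ⟨b5, b6⟩, mem_image_of_mem _ hd⟩⟩⟩⟩,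
      Prod.ext (Cell.ext a1.symm c3.symm c5.symm rfl ?_)
        (Cell.ext b1.symm c4.symm c6.symm rfl rfl), ?_⟩
    · dsimp only
      rw [hM, Nat.add_sub_cancel]
    · have h1 := qq_le e.1
      have h2 := qq_le e.2
      rw [a1] at h1
      rw [b1] at h2
      have h3 : (rho j : ℝ) ≤ rho (j + 1) :=
        Nat.cast_le.2 (rho_mono (Nat.le_succ j))
      have h4 := mul_le_mul_of_nonneg_right (mul_le_mul_of_nonneg_right h3 (T3K1b_ff j e.1.x))
        (cw_pos e.1.z).le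
      refine (mul_le_mul (h1.trans h4) h2 (qq_nonneg _)
        ((qq_nonneg _).trans (h1.trans h4))).trans (le_of_eq ?_)
      simp only [A, J]
      rw [if_pos c7, hM, if_pos (by rw [← hB]; omega), Nat.add_sub_cancel]
      ring
  · simp only [sum_product, GG, mul_sum]
    refine sum_le_sum fun t _ => sum_le_sum fun x _ => sum_le_sum fun x' _ => ?_
    simp only [← mul_sum]
    rw [mul_right_comm]
    exact mul_le_mul_of_nonneg_right (mul_le_mul_of_nonneg_left (hJs _) (sq_nonneg _)) (hA t x x')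
theorem T3K1_bip {j N : ℕ} {P : Finset Tup} :
    ∀ e ∈ E1 Pt j N P, ∀ e' ∈ E1 Pt j N P, e.1 ≠ e'.2 := by
  intro e he e' he' h
  obtain ⟨t, -, hf, -⟩ := mem_E1.1 he
  obtain ⟨t', -, hf', -⟩ := mem_E1.1 he'
  have h1 := (mem_cells.1 hf.1).1
  have h2 := (mem_cells.1 hf'.2.1).1
  rw [h, h2] at h1
  omega

theorem T3K1_mean (hF : Fine Pt) {j N : ℕ} (hj : k0 ≤ j) {P : Finset Tup}
    (h : Fr j (j + 1) N P) :
    ∑ e ∈ E1 Pt j N P, qq e.1 * qq e.2 ≤ 130 * (yy (j + 1) : ℝ) ^ (4 * ka + 19) := by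
  have hD : (0 : ℝ) < DD j := by exact_mod_cast DD_pos j
  have h1 := mul_le_mul_of_nonneg_left (h.weight (by positivity) (GG_le_next hj))
    (show (0 : ℝ) ≤ 10 / DD j by positivity)
  have h2 : (0 : ℝ) ≤ (yy (j + 1) : ℝ) ^ (4 * ka + 19) := by positivity
  have h3 : 10 / (DD j : ℝ) * (2 * DD j * (4 * (yy (j + 1) : ℝ) ^ (4 * ka + 19))) =
      80 * (yy (j + 1) : ℝ) ^ (4 * ka + 19) := by
    field_simp
    ring
  have h4 := E1_sum_le hF j N P
  rw [mul_right_comm, mul_comm] at h4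
  linarith

theorem pr_K1 (hF : Fine Pt) {j : ℕ} (hj : k0 ≤ j) (S : Finset Cell) :
    pr S qq (fun A => ¬K1 Pt (A : Set Cell) j) ≤ 1 / 2 ^ (j + 4) := by
  classical
  obtain ⟨F, hc, hall⟩ := exists_frames hj (Or.inr rfl)
  let G : Finset (ℕ × Finset Tup) := F.filter fun q => Fr j (j + 1) q.1 q.2
  have h1 : pr S qq (fun A => ¬K1 Pt (A : Set Cell) j) ≤ pr S qq fun A => ∃ q ∈ G,
      (gg (j + 1) : ℝ) ≤ #{e ∈ E1 Pt j q.1 q.2 | e.1 ∈ A ∧ e.2 ∈ A} := by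
    refine pr_mono qq_nonneg qq_le_one fun A _ hA => ?_
    by_contra hn
    refine hA fun N P hfr Z hZ => ?_
    by_contra hz
    refine hn ⟨(N, P), mem_filter.2 ⟨hall N P hfr, hfr⟩, ?_⟩
    have h2 : Z ⊆ {e ∈ E1 Pt j N P | e.1 ∈ A ∧ e.2 ∈ A} := fun e he =>
      mem_filter.2 ⟨mem_E1.2 (hZ e he).2.2, (hZ e he).1, (hZ e he).2.1⟩
    exact_mod_cast (not_lt.1 hz).trans (card_le_card h2)
  refine h1.trans ((pr_exists_le qq_nonneg qq_le_one G _).trans ?_)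
  refine le_trans (sum_le_card_nsmul G _ (Real.exp ((4 * (130 * (yy (j + 1) : ℝ) ^ (4 * ka + 19)) -
    gg (j + 1)) / yy (j + 1))) fun q hq => ?_) ?_
  · obtain ⟨-, hfr⟩ := mem_filter.1 hq
    exact pr_star qq_nonneg qq_le_one _ T3K1_bip (yy_ge _) (E1_out hF hfr) (E1_in hF hj hfr)
      (T3K1_mean hF hj hfr) _
  · rw [nsmul_eq_mul]
    refine le_trans (mul_le_mul_of_nonneg_right ?_ (Real.exp_pos _).le)
      (num_star hj (Or.inr rfl))
    exact_mod_cast (card_filter_le _ _).trans hc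

end Pool.Agent.P.MP_d5a1e1_nt.T3
end

-- part Pool.Agent.P.MP_d5a1e1_nt.T3KF
section

/-! Far pairs: few candidates. -/

namespace Pool.Agent.P.MP_d5a1e1_nt.T3

open Finset TB

variable [Kap] {Pt : ℕ → Finset (ℕ → ℕ)} {ξ : ℕ → ℕ → ℕ → ℕ}

open Classical in
/-- The number of fine points that complete an element of the cell `c` to the sum `n`. -/
noncomputable def NN (Pt : ℕ → Finset (ℕ → ℕ)) (ξ : ℕ → ℕ → ℕ → ℕ) (k n : ℕ) (c : Cell) : ℕ :=
  #{d' ∈ Pt k | ∃ d ∈ Pt c.k, el ξ d c + vl (2 * k) d' = n}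

theorem T3KFa_two (u : ℕ) : 2 * pp u ≤ BB u := by
  have h := Ru_pos u
  unfold BB DD
  exact Nat.mul_le_mul_right _ (by omega)

theorem T3KFa_lt {n : ℕ} {d : ℕ → ℕ} (hd : d ∈ Box n pp) (i : ℕ) : d i < pp (i / 2) := by
  by_cases h : i < n
  · exact (mem_Box.1 hd).1 i h
  · rw [(mem_Box.1 hd).2 i (by omega)]; exact pp_pos _

theorem T3KFa_dig {n : ℕ} {d : ℕ → ℕ} (hd : d ∈ Box n pp) {i : ℕ} (hi : i < n) :
    dig (vl n d) i = d i := by
  have h := dig_vl (n := n) (f := d) (fun s _ => by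
    have h1 := T3KFa_lt hd s
    have h2 := T3KFa_two (s / 2)
    omega) 0 hi
  rwa [mul_zero, add_zero] at h

theorem T3KFa_dvd {m n : ℕ} (h : m ≤ n) : WW m ∣ WW n := by
  induction h with
  | refl => exact dvd_rfl
  | step _ ih => rw [Nat.succ_eq_add_one, WW_succ]; exact ih.mul_right _

theorem T3KFa_high {m a b i : ℕ} (h : a / WW m = b / WW m) (hi : m ≤ i) : dig a i = dig b i := by
  obtain ⟨c, hc⟩ := T3KFa_dvd hi
  unfold dig
  rw [hc, ← Nat.div_div_eq_div_mul, ← Nat.div_div_eq_div_mul, h]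

theorem T3KFa_ext {m n : ℕ} {d : ℕ → ℕ} (hd : d ∈ Box m pp) (h : m ≤ n) : vl n d = vl m d := by
  induction h with
  | refl => rfl
  | step hle ih => rw [Nat.succ_eq_add_one, vl_succ, ih, (mem_Box.1 hd).2 _ hle, mul_zero, add_zero]

theorem NN_le (hF : Fine Pt) {j k : ℕ} (hjk : j < k) (n : ℕ) {c : Cell} (hc : c.k = j) :
    NN Pt ξ k n c ≤ EE k := by
  classical
  subst hc
  unfold NN
  refine hF.far c.k k hjk (dig (n - (vl (2 * c.k) fun s => pp (s / 2) * (ξ c.k c.i s + c.x s)) -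
    WW (2 * c.k) * c.z)) _ fun d' hd' => ?_
  obtain ⟨h1, d, h2, h3⟩ := mem_filter.1 hd'
  have b1 := hF.box _ h1
  have b2 := hF.box _ h2
  have e : n - (vl (2 * c.k) fun s => pp (s / 2) * (ξ c.k c.i s + c.x s)) - WW (2 * c.k) * c.z =
      vl (2 * k) (fun i => d i + d' i) + WW (2 * k) * 0 := by
    rw [vl_add, T3KFa_ext b2 (by omega : 2 * c.k ≤ 2 * k)]
    unfold el at h3
    rw [lo_eq] at h3
    omega
  have hdig : ∀ i < 2 * k, dig (vl (2 * k) (fun i => d i + d' i) + WW (2 * k) * 0) i =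
      d i + d' i := fun i hi => dig_vl (fun s _ => by
        have := T3KFa_lt b1 s
        have := T3KFa_lt b2 s
        have := T3KFa_two (s / 2)
        omega) 0 hi
  rw [e]
  refine ⟨h1, ⟨d, h2, fun i hi => (hdig i (by omega)).symm⟩, fun u u1 u2 => ?_⟩
  rw [hdig _ (by omega), (mem_Box.1 b2).2 _ (by omega), zero_add]

/-- The digits below `2 j` and the quotient of a far sum. -/
theorem T3KFa_split {j k n₀ z : ℕ} (hjk : j + 2 ≤ k) {d d' : ℕ → ℕ} (b2 : d ∈ Box (2 * j) pp)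
    (b1 : d' ∈ Box (2 * k) pp) (h : vl (2 * j) d + WW (2 * j) * z + vl (2 * k) d' = n₀) :
    (∀ i < 2 * j, d i + d' i = dig n₀ i) ∧
      n₀ / WW (2 * j) = z + d' (2 * j) + BB j * d' (2 * j + 1) + BB j ^ 2 * d' (2 * j + 2) +
        BB j ^ 2 * BB (j + 1) * (vl (2 * k) d' / WW (2 * j + 3)) := by
  have h1 := vl_dig (2 * j + 3) (vl (2 * k) d')
  rw [vl_congr (g := d') (fun i hi => T3KFa_dig b1 (by omega)), vl_succ, vl_succ, vl_succ] at h1
  set e := vl (2 * k) d' / WW (2 * j + 3)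
  rw [WW_odd, show 2 * j + 1 + 1 = 2 * j + 2 from rfl, WW_even, WW_three] at h1
  have h2 : n₀ = vl (2 * j) (fun i => d i + d' i) + WW (2 * j) * (z + d' (2 * j) +
      BB j * d' (2 * j + 1) + BB j ^ 2 * d' (2 * j + 2) + BB j ^ 2 * BB (j + 1) * e) := by
    rw [vl_add, ← h, ← h1]; ring
  have hb : ∀ s < 2 * j, d s + d' s < BB (s / 2) := fun s _ => by
    have := T3KFa_lt b1 s
    have := T3KFa_lt b2 s
    have := T3KFa_two (s / 2)
    omega
  rw [h2]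
  exact ⟨fun i hi => (dig_vl hb _ hi).symm, div_vl hb _⟩

theorem T3KFa_mid {B N z a b c : ℕ} (hB : 0 < B) (h : N = z + a + B * b + B ^ 2 * c) :
    N / B % B = (z / B % B + (z % B + a) / B + b) % B := by
  have h1 : N = z % B + a + B * (z / B + b + B * c) := by
    have := Nat.mod_add_div z B
    rw [h, mul_add, mul_add, ← mul_assoc, ← pow_two]; omega
  rw [h1, Nat.add_mul_div_left _ _ hB, ← add_assoc, Nat.add_mul_mod_self_left]
  have h2 : z / B % B + (z % B + a) / B + b ≡ z / B + (z % B + a) / B + b [MOD B] :=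
    ((Nat.mod_modEq _ _).add_right _).add_right _
  rw [h2]
  congr 1
  omega

theorem T3KFa_top {B B' N z a b c e : ℕ} (ha : a < B) (hb : b < B) (hc : c < B')
    (hz : z < 5 * B ^ 2 * B') (h : N = z + a + B * b + B ^ 2 * c + B ^ 2 * B' * e) :
    e ≤ N / (B ^ 2 * B') ∧ N / (B ^ 2 * B') < e + 6 := by
  have hp : 0 < B ^ 2 * B' := Nat.mul_pos (pow_pos (by omega) 2) (by omega)
  constructor
  · rw [Nat.le_div_iff_mul_le hp, mul_comm]; omega
  · rw [Nat.div_lt_iff_lt_mul hp]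
    have h1 : B * (b + 1) ≤ B * B := Nat.mul_le_mul_left B hb
    have h2 : B ^ 2 * (c + 1) ≤ B ^ 2 * B' := Nat.mul_le_mul_left _ hc
    have h3 : (e + 6) * (B ^ 2 * B') = B ^ 2 * B' * e + 5 * B ^ 2 * B' + B ^ 2 * B' := by ring
    rw [mul_add, mul_one, ← pow_two] at h1
    rw [mul_add, mul_one] at h2
    omega

theorem NN_sum (hF : Fine Pt) {j k : ℕ} (hjk : j + 2 ≤ k) (n i η : ℕ) (x : ℕ → ℕ) :
    ∑ z ∈ Ico (BB j) (ZZ j), cw z * NN Pt ξ k n ⟨j, i, η, x, z⟩ ≤ 36 * EE k := by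
  classical
  set n₀ := n - vl (2 * j) fun s => pp (s / 2) * (ξ j i s + x s) with hn₀
  set S := {q ∈ Ico (BB j) (ZZ j) ×ˢ Pt k |
    ∃ d ∈ Pt j, el ξ d ⟨j, i, η, x, q.1⟩ + vl (2 * k) q.2 = n} with hS
  have hB := BB_pos j
  have e1 : ∑ z ∈ Ico (BB j) (ZZ j), cw z * NN Pt ξ k n ⟨j, i, η, x, z⟩ = ∑ q ∈ S, cw q.1 := by
    rw [hS, sum_filter, sum_product]
    refine sum_congr rfl fun z _ => ?_
    rw [← sum_filter]
    dsimp only
    rw [sum_const, nsmul_eq_mul, mul_comm]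
    unfold NN
    congr 2
  have fact : ∀ q ∈ S, BB j ≤ q.1 ∧ q.1 < ZZ j ∧ q.2 ∈ Pt k ∧
      (∃ d ∈ Pt j, ∀ s < 2 * j, d s + q.2 s = dig n₀ s) ∧
      n₀ / WW (2 * j) = q.1 + q.2 (2 * j) + BB j * q.2 (2 * j + 1) + BB j ^ 2 * q.2 (2 * j + 2) +
        BB j ^ 2 * BB (j + 1) * (vl (2 * k) q.2 / WW (2 * j + 3)) := by
    intro q hq
    obtain ⟨h1, d, h2, h3⟩ := mem_filter.1 hq
    obtain ⟨h4, h5⟩ := mem_product.1 h1
    unfold el at h3
    rw [lo_eq] at h3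
    have h6 := T3KFa_split (n₀ := n₀) (z := q.1) hjk (hF.box _ h2) (hF.box _ h5) (by
      simp only at h3
      omega)
    exact ⟨(mem_Ico.1 h4).1, (mem_Ico.1 h4).2, h5, ⟨d, h2, h6.1⟩, h6.2⟩
  have small : ∀ q ∈ S, q.2 (2 * j) < BB j ∧ q.2 (2 * j + 1) < BB j ∧
      q.2 (2 * j + 2) < BB (j + 1) := by
    intro q hq
    have hb := hF.box _ (fact q hq).2.2.1
    have a0 := T3KFa_lt hb (2 * j)
    have a1 := T3KFa_lt hb (2 * j + 1)
    have a2 := T3KFa_lt hb (2 * j + 2)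
    rw [show 2 * j / 2 = j by omega] at a0
    rw [show (2 * j + 1) / 2 = j by omega] at a1
    rw [show (2 * j + 2) / 2 = j + 1 by omega] at a2
    have := T3KFa_two j
    have := T3KFa_two (j + 1)
    omega
  have top : ∀ q ∈ S, vl (2 * k) q.2 / WW (2 * j + 3) ≤ n₀ / WW (2 * j) / (BB j ^ 2 * BB (j + 1)) ∧
      n₀ / WW (2 * j) / (BB j ^ 2 * BB (j + 1)) < vl (2 * k) q.2 / WW (2 * j + 3) + 6 := by
    intro q hq
    obtain ⟨a0, a1, a2⟩ := small q hq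
    exact T3KFa_top a0 a1 a2 (fact q hq).2.1 (fact q hq).2.2.2.2
  have mid : ∀ q ∈ S, n₀ / WW (2 * j) / BB j % BB j =
      (q.1 / BB j % BB j + (q.1 % BB j + q.2 (2 * j)) / BB j + q.2 (2 * j + 1)) % BB j := by
    intro q hq
    refine T3KFa_mid (c := q.2 (2 * j + 2) + BB (j + 1) * (vl (2 * k) q.2 / WW (2 * j + 3))) hB ?_
    rw [(fact q hq).2.2.2.2]; ring
  set key : ℕ × (ℕ → ℕ) → ℕ × ℕ × ℕ := fun q => (q.1 / BB j % BB j,
    (q.1 % BB j + q.2 (2 * j)) / BB j,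
    n₀ / WW (2 * j) / (BB j ^ 2 * BB (j + 1)) - vl (2 * k) q.2 / WW (2 * j + 3)) with hkey
  have maps : ∀ q ∈ S, key q ∈ range (BB j) ×ˢ range 2 ×ˢ range 6 := by
    intro q hq
    have a0 := (small q hq).1
    have a1 := Nat.mod_lt q.1 hB
    have a2 := top q hq
    simp only [hkey, mem_product, mem_range]
    exact ⟨Nat.mod_lt _ hB, (Nat.div_lt_iff_lt_mul hB).2 (by omega), by omega⟩
  have cnt : ∀ κ, #{q ∈ S | key q = κ} ≤ EE k := by
    intro κ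
    rcases ({q ∈ S | key q = κ} : Finset _).eq_empty_or_nonempty with h0 | ⟨q₀, hq₀⟩
    · rw [h0]; exact Nat.zero_le _
    obtain ⟨s₀, k₀⟩ := mem_filter.1 hq₀
    rw [← card_image_of_injOn (f := Prod.snd) (fun q hq q' hq' e => by
      have f1 := (fact q (mem_filter.1 hq).1).2.2.2.2
      have f2 := (fact q' (mem_filter.1 hq').1).2.2.2.2
      rw [e] at f1
      exact Prod.ext (by omega) e)]
    refine hF.far j k (by omega) (fun s => if s < 2 * j then dig n₀ s else q₀.2 s) _ fun d' hd' => ?_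
    obtain ⟨q, hq, rfl⟩ := mem_image.1 hd'
    obtain ⟨s₁, k₁⟩ := mem_filter.1 hq
    obtain ⟨-, -, f3, ⟨d, f4, f5⟩, -⟩ := fact q s₁
    refine ⟨f3, ⟨d, f4, fun s hs => by rw [if_pos hs]; exact f5 s hs⟩, fun u u1 u2 => ?_⟩
    rw [if_neg (by omega)]
    have ek := k₁.trans k₀.symm
    simp only [hkey, Prod.mk.injEq] at ek
    obtain ⟨e1, e2, e3⟩ := ek
    rcases u1.eq_or_lt with rfl | hu
    · have m1 := (mid q s₁).symm.trans (mid q₀ s₀)
      rw [e1, e2] at m1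
      exact Nat.ModEq.eq_of_lt_of_lt (Nat.ModEq.add_left_cancel' _ m1) (small q s₁).2.1
        (small q₀ s₀).2.1
    · have t1 := top q s₁
      have t0 := top q₀ s₀
      rw [← T3KFa_dig (hF.box _ f3) (by omega : 2 * u + 1 < 2 * k),
        ← T3KFa_dig (hF.box _ (fact q₀ s₀).2.2.1) (by omega : 2 * u + 1 < 2 * k)]
      exact T3KFa_high (m := 2 * j + 3) (by omega) (by omega)
  have wt : ∀ κ, ∀ q ∈ {q ∈ S | key q = κ},
      cw q.1 ≤ 1 / √((BB j : ℝ) * (max 1 κ.1 : ℕ)) := by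
    intro κ q hq
    obtain ⟨s₁, k₁⟩ := mem_filter.1 hq
    have f1 := (fact q s₁).1
    refine cw_le_sqrt (by
      have : 0 < BB j * max 1 κ.1 := Nat.mul_pos hB (by omega)
      exact_mod_cast this) ?_
    have a1 : κ.1 ≤ q.1 / BB j := by rw [← k₁]; exact Nat.mod_le _ _
    have a2 : 1 ≤ q.1 / BB j := (Nat.le_div_iff_mul_le hB).2 (by omega)
    have a3 : BB j * max 1 κ.1 ≤ q.1 :=
      (Nat.mul_le_mul_left _ (max_le a2 a1)).trans (Nat.mul_div_le _ _)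
    exact_mod_cast a3
  rw [e1, ← sum_fiberwise_of_maps_to maps]
  calc _ ≤ ∑ κ ∈ range (BB j) ×ˢ range 2 ×ˢ range 6,
        (EE k : ℝ) * (1 / √((BB j : ℝ) * (max 1 κ.1 : ℕ))) := by
        refine sum_le_sum fun κ _ => (sum_le_card_nsmul _ _ _ (wt κ)).trans ?_
        rw [nsmul_eq_mul]
        exact mul_le_mul_of_nonneg_right (by exact_mod_cast cnt κ) (by positivity)
    _ = 12 * EE k * ∑ t ∈ range (BB j), 1 / √((BB j : ℝ) * (max 1 t : ℕ)) := by
        rw [sum_product, mul_sum]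
        refine sum_congr rfl fun t _ => ?_
        simp only [sum_const, card_product, card_range, nsmul_eq_mul]
        push_cast
        ring
    _ ≤ 12 * EE k * 3 := mul_le_mul_of_nonneg_left (sum_far _ hB) (by positivity)
    _ = 36 * EE k := by ring

open Classical in
/-- The same count, for the elements that carry the hash value of the cell. -/
noncomputable def NH (Pt : ℕ → Finset (ℕ → ℕ)) (ξ : ℕ → ℕ → ℕ → ℕ) (f : (ℕ → ℕ) → ℕ) (k n : ℕ)
    (c : Cell) : ℕ :=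
  #{d' ∈ Pt k | ∃ d ∈ Pt c.k, c.η = f (tr (2 * c.k - 2) d) ∧ el ξ d c + vl (2 * k) d' = n}

theorem NH_le (f : (ℕ → ℕ) → ℕ) (k n : ℕ) (c : Cell) : NH Pt ξ f k n c ≤ NN Pt ξ k n c := by
  classical
  refine card_le_card fun d' hd' => ?_
  obtain ⟨h1, d, h2, -, h3⟩ := mem_filter.1 hd'
  exact mem_filter.2 ⟨h1, d, h2, h3⟩

theorem NH_sum (hF : Fine Pt) (f : (ℕ → ℕ) → ℕ) (H j k n i z : ℕ) (x : ℕ → ℕ) :
    ∑ η ∈ range H, NH Pt ξ f k n ⟨j, i, η, x, z⟩ ≤ NN Pt ξ k n ⟨j, i, 0, x, z⟩ := by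
  classical
  unfold NH
  rw [← card_biUnion]
  · refine card_le_card fun d' hd' => ?_
    obtain ⟨η, -, h0⟩ := mem_biUnion.1 hd'
    obtain ⟨h1, d, h2, -, h3⟩ := mem_filter.1 h0
    exact mem_filter.2 ⟨h1, d, h2, h3⟩
  · intro η _ η' _ hne
    refine disjoint_left.2 fun d' h0 h0' => hne ?_
    obtain ⟨-, d, h2, h3, h4⟩ := mem_filter.1 h0
    obtain ⟨-, e, h5, h6, h7⟩ := mem_filter.1 h0'
    unfold el at h4 h7
    rw [lo_eq] at h4 h7
    dsimp only at h2 h3 h4 h5 h6 h7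
    have h8 : vl (2 * j) d = vl (2 * j) e := by omega
    have h9 : d = e := Box_ext (hF.box _ h2) (hF.box _ h5) fun s hs => by
      rw [← T3KFa_dig (hF.box _ h2) hs, h8, T3KFa_dig (hF.box _ h5) hs]
    rw [h3, h6, h9]

theorem T3KFb_EE (k : ℕ) : (0 : ℝ) < EE k := by
  have : 0 < EE k := by unfold EE; positivity
  exact_mod_cast this

theorem T3KFb_mean (hF : Fine Pt) (f : (ℕ → ℕ) → ℕ) {j k : ℕ} (hj : k0 ≤ j) (hjk : j + 2 ≤ k)
    (n : ℕ) :
    ∑ c ∈ cells j, qq c * ((NH Pt ξ f k n c : ℝ) / EE k) ≤ 36 * 2 ^ yy j ^ (2 * ka + 1) := by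
  have hE := T3KFb_EE k
  have hw : ∀ c, (0 : ℝ) ≤ (NH Pt ξ f k n c : ℝ) / EE k := fun c => by positivity
  have hz : ∀ i x, ∑ η ∈ range (HH j), ∑ z ∈ Ico (BB j) (ZZ j),
      qq ⟨j, i, η, x, z⟩ * ((NH Pt ξ f k n ⟨j, i, η, x, z⟩ : ℝ) / EE k) ≤ rho j * 36 := by
    intro i x
    have h1 := NN_sum (ξ := ξ) hF hjk n i 0 x
    rw [sum_comm]
    calc _ ≤ ∑ z ∈ Ico (BB j) (ZZ j),
          (rho j : ℝ) / EE k * (cw z * NN Pt ξ k n ⟨j, i, 0, x, z⟩) := by
          refine sum_le_sum fun z _ => ?_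
          have h3 : ∑ η ∈ range (HH j), (NH Pt ξ f k n ⟨j, i, η, x, z⟩ : ℝ) ≤
              NN Pt ξ k n ⟨j, i, 0, x, z⟩ := by exact_mod_cast NH_sum hF f (HH j) j k n i z x
          refine le_trans (sum_le_sum fun η _ => ?_) ((mul_sum _ _ _).symm.trans_le
            (mul_le_mul_of_nonneg_left ((mul_sum _ _ _).symm.trans_le
              (mul_le_mul_of_nonneg_left h3 (cw_pos z).le)) (by positivity)))
          have h2 : qq ⟨j, i, η, x, z⟩ ≤ rho j * cw z :=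
            (qq_le _).trans (mul_le_mul_of_nonneg_right
              (mul_le_of_le_one_right (Nat.cast_nonneg _) (ff_le_one j x)) (cw_pos z).le)
          refine (mul_le_mul_of_nonneg_right h2 (hw _)).trans (le_of_eq ?_)
          ring
      _ ≤ (rho j : ℝ) / EE k * (36 * EE k) := by
          rw [← mul_sum]
          exact mul_le_mul_of_nonneg_left h1 (by positivity)
      _ = rho j * 36 := by field_simp
  have hm : ((mm j : ℝ) * (XX j).card * rho j) ≤ 2 ^ yy j ^ (2 * ka + 1) := by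
    exact_mod_cast mm_XX_le hj
  unfold cells
  refine (sum_image_le_of_nonneg fun c _ => mul_nonneg (qq_nonneg c) (hw c)).trans ?_
  rw [sum_product]
  calc _ ≤ ∑ _i ∈ range (mm j), ∑ _x ∈ XX j, (rho j : ℝ) * 36 := by
        refine sum_le_sum fun i _ => ?_
        rw [sum_product]
        simp only [sum_product]
        rw [sum_comm]
        exact sum_le_sum fun x _ => hz i x
    _ = 36 * ((mm j : ℝ) * (XX j).card * rho j) := by
        simp only [sum_const, card_range, nsmul_eq_mul]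
        ring
    _ ≤ _ := mul_le_mul_of_nonneg_left hm (by positivity)

theorem T3KFb_sg (k : ℕ) : 5 ≤ sg k := by
  have h := yy_ge k
  have h1 : yy k ^ 3 ≤ sg k := Nat.pow_le_pow_right (by omega) (by omega)
  exact le_trans (by norm_num) ((Nat.pow_le_pow_left h 3).trans h1)

theorem T3KFb_num {k : ℕ} (hk : 2 ≤ k) :
    ((2 * WW (2 * k) : ℕ) : ℝ) * Real.exp (-(5 * k * sg k : ℕ)) ≤ 1 / 2 ^ (2 * k + 4) := by
  have h1 : ((2 * WW (2 * k) : ℕ) : ℝ) ≤ 2 ^ (4 * k * sg k + 1) := by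
    have := WW_le k
    have h : 2 * WW (2 * k) ≤ 2 ^ (4 * k * sg k + 1) := by rw [pow_succ]; omega
    exact_mod_cast h
  have h2 : ∀ N : ℕ, Real.exp (-(N : ℝ)) ≤ 1 / 2 ^ N := fun N => by
    rw [Real.exp_neg, one_div]
    refine inv_anti₀ (by positivity) ?_
    rw [← Real.exp_one_pow]
    exact pow_le_pow_left₀ (by norm_num) (by linarith [Real.add_one_le_exp (1 : ℝ)]) N
  have h3 : 4 * k * sg k + 1 + (2 * k + 4) ≤ 5 * k * sg k := by
    have := Nat.mul_le_mul_left k (T3KFb_sg k)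
    nlinarith
  refine (mul_le_mul h1 (h2 _) (Real.exp_pos _).le (by positivity)).trans ?_
  rw [mul_one_div, div_le_div_iff₀ (by positivity) (by positivity), one_mul, ← pow_add]
  exact pow_le_pow_right₀ (by norm_num) h3

theorem pr_KF (hF : Fine Pt) (f : ℕ → (ℕ → ℕ) → ℕ) {j k : ℕ} (hj : k0 ≤ j) (hjk : j + 2 ≤ k)
    (S : Finset Cell) :
    pr S qq (fun A => ¬KF Pt ξ (A : Set Cell) f j k) ≤ 1 / 2 ^ (2 * k + 4) := by
  classical
  have hE := T3KFb_EE k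
  refine le_trans (pr_mono qq_nonneg qq_le_one (E' := fun A => ∃ n ∈ range (2 * WW (2 * k)),
    ((72 * 2 ^ yy j ^ (2 * ka + 1) + 5 * k * sg k : ℕ) : ℝ) ≤
      ∑ c ∈ cells j with c ∈ A, (NH Pt ξ (f j) k n c : ℝ) / EE k) ?_)
    ((pr_exists_le qq_nonneg qq_le_one _ _).trans ?_)
  · intro A _ h
    unfold KF at h
    push Not at h
    obtain ⟨n, hn, Z, hZ, hlt⟩ := h
    refine ⟨n, mem_range.2 hn, ?_⟩
    have hsub : Z ⊆ ((cells j).filter (· ∈ A)).biUnion fun c =>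
        (Pt k).filter fun d' => ∃ d ∈ Pt c.k, c.η = f j (tr (2 * c.k - 2) d) ∧
          el ξ d c + vl (2 * k) d' = n := by
      intro d' hd'
      obtain ⟨h1, d, hd, c, hcA, hc, hη, he⟩ := hZ d' hd'
      exact mem_biUnion.2 ⟨c, mem_filter.2 ⟨hc, hcA⟩,
        mem_filter.2 ⟨h1, d, (mem_cells.1 hc).1.symm ▸ hd, (mem_cells.1 hc).1.symm ▸ hη, he⟩⟩
    have hc : Z.card ≤ ∑ c ∈ cells j with c ∈ A, NH Pt ξ (f j) k n c :=
      (card_le_card hsub).trans card_biUnion_le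
    rw [← sum_div, le_div_iff₀ hE, ← Nat.cast_sum, ← Nat.cast_mul, Nat.cast_le, mul_comm]
    exact hlt.le.trans hc
  · refine le_trans (sum_le_sum fun n _ => pr_wsum qq_nonneg qq_le_one (cells j)
      (fun c => (NH Pt ξ (f j) k n c : ℝ) / EE k) (fun c _ => by positivity)
      (fun c hc => (div_le_one hE).2 (by
        exact_mod_cast (NH_le _ _ _ _).trans (NN_le hF (by omega : j < k) n (mem_cells.1 hc).1)))
      (T3KFb_mean hF (f j) hj hjk n) _) ?_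
    rw [sum_const, card_range, nsmul_eq_mul]
    refine le_trans (le_of_eq ?_) (T3KFb_num (k := k) (by omega))
    congr 2
    push_cast
    ring

end Pool.Agent.P.MP_d5a1e1_nt.T3
end

-- part Pool.Agent.P.MP_d5a1e1_nt.T3Seq
section

/-! Choosing points one at a time with a potential. -/

namespace Pool.Agent.P.MP_d5a1e1_nt.T3

open Finset TB

theorem seq_exp {ω κ : Type*} (Γ : Finset ω) (hΓ : Γ.Nonempty) (Φ : Finset κ) (l : ℝ)
    (hN : (Φ.card : ℝ) < Real.exp l) (e : κ → ℕ → (ℕ → ω) → ℝ)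
    (hdep : ∀ φ ∈ Φ, ∀ i ξ ξ', (∀ t ≤ i, ξ t = ξ' t) → e φ i ξ = e φ i ξ') (m : ℕ)
    (hmean : ∀ i < m, ∀ ξ : ℕ → ω, (∀ t, ξ t ∈ Γ) → (∀ ψ ∈ Φ, ∑ t ∈ range i, e ψ t ξ < l) →
      ∀ φ ∈ Φ, ∑ o ∈ Γ, Real.exp (e φ i (Function.update ξ i o)) ≤ Γ.card) :
    ∃ ξ : ℕ → ω, (∀ t, ξ t ∈ Γ) ∧ ∀ φ ∈ Φ, ∑ t ∈ range m, e φ t ξ < l := by
  have key : ∀ (j : ℕ) (φ : κ) (ξ : ℕ → ω),
      Real.exp (-l) * ∏ t ∈ range j, Real.exp (e φ t ξ) < 1 → ∑ t ∈ range j, e φ t ξ < l := by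
    intro j φ ξ h
    rw [← Real.exp_sum, ← Real.exp_add, Real.exp_lt_one_iff] at h
    linarith
  obtain ⟨ξ, h1, h2⟩ := exists_seq Γ hΓ Φ (fun _ => Real.exp (-l))
    (fun φ i ξ => Real.exp (e φ i ξ)) (fun _ _ => (Real.exp_pos _).le)
    (by
      rw [sum_const, nsmul_eq_mul, Real.exp_neg, ← div_eq_mul_inv, div_lt_one (Real.exp_pos _)]
      exact hN)
    (fun _ _ _ _ => (Real.exp_pos _).le)
    (fun φ hφ i ξ ξ' h => by rw [hdep φ hφ i ξ ξ' h]) m
    (fun i hi ξ hξ h => hmean i hi ξ hξ fun ψ hψ => key i ψ ξ (h i le_rfl ψ hψ))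
  exact ⟨ξ, h1, fun φ hφ => key m φ ξ (h2 m le_rfl φ hφ)⟩

theorem seq_up {ω : Type*} (Γ : Finset ω) {d ν : ℝ} (hd : 0 < d) (A : ω → ℝ)
    (h0 : ∀ o ∈ Γ, 0 ≤ A o) (h1 : ∀ o ∈ Γ, A o ≤ d) (h : ∑ o ∈ Γ, A o ≤ ν * Γ.card) :
    ∑ o ∈ Γ, Real.exp (A o / d - 2 * ν / d) ≤ Γ.card := by
  have h2 : ∀ o ∈ Γ, Real.exp (A o / d - 2 * ν / d) ≤
      (1 + 2 / d * A o) * Real.exp (-(2 * ν / d)) := by
    intro o ho
    rw [sub_eq_add_neg, Real.exp_add]
    refine mul_le_mul_of_nonneg_right ?_ (Real.exp_pos _).le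
    have a0 : 0 ≤ A o / d := div_nonneg (h0 o ho) hd.le
    have a1 : A o / d ≤ 1 := (div_le_one hd).2 (h1 o ho)
    have a2 := (abs_le.1 (Real.abs_exp_sub_one_sub_id_le (x := A o / d)
      (abs_le.2 ⟨by linarith, a1⟩))).2
    have a3 : 2 / d * A o = 2 * (A o / d) := by ring
    nlinarith
  refine (sum_le_sum h2).trans ?_
  rw [← sum_mul, sum_add_distrib, sum_const, nsmul_eq_mul, mul_one, ← mul_sum, Real.exp_neg,
    ← div_eq_mul_inv, div_le_iff₀ (Real.exp_pos _)]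
  have h3 := Real.add_one_le_exp (2 * ν / d)
  have h4 : 2 / d * ∑ o ∈ Γ, A o ≤ 2 / d * (ν * Γ.card) :=
    mul_le_mul_of_nonneg_left h (by positivity)
  have h5 : (Γ.card : ℝ) * (2 * ν / d + 1) ≤ Γ.card * Real.exp (2 * ν / d) :=
    mul_le_mul_of_nonneg_left h3 (Nat.cast_nonneg _)
  have h6 : 2 / d * (ν * Γ.card) = Γ.card * (2 * ν / d) := by ring
  linarith

theorem seq_low {ω : Type*} (Γ : Finset ω) {d ν : ℝ} (hd : 0 < d) (A : ω → ℝ)
    (h0 : ∀ o ∈ Γ, 0 ≤ A o) (h1 : ∀ o ∈ Γ, A o ≤ d) (h : ν * Γ.card ≤ ∑ o ∈ Γ, A o) :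
    ∑ o ∈ Γ, Real.exp (ν / (2 * d) - A o / d) ≤ Γ.card := by
  have h2 : ∀ o ∈ Γ, Real.exp (ν / (2 * d) - A o / d) ≤
      (1 - 1 / (2 * d) * A o) * Real.exp (ν / (2 * d)) := by
    intro o ho
    rw [Real.exp_sub, div_le_iff₀ (Real.exp_pos _), mul_right_comm]
    refine le_mul_of_one_le_left (Real.exp_pos _).le ?_
    have a0 : 0 ≤ A o / d := div_nonneg (h0 o ho) hd.le
    have a1 : A o / d ≤ 1 := (div_le_one hd).2 (h1 o ho)
    have a2 := Real.add_one_le_exp (A o / d)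
    have a3 : 1 / (2 * d) * A o = A o / d / 2 := by field_simp
    rw [a3]
    nlinarith
  refine (sum_le_sum h2).trans ?_
  rw [← sum_mul, sum_sub_distrib, sum_const, nsmul_eq_mul, mul_one, ← mul_sum,
    ← le_div_iff₀ (Real.exp_pos _), div_eq_mul_inv (Γ.card : ℝ), ← Real.exp_neg]
  have h3 := Real.add_one_le_exp (-(ν / (2 * d)))
  have h4 : 1 / (2 * d) * (ν * Γ.card) ≤ 1 / (2 * d) * ∑ o ∈ Γ, A o :=
    mul_le_mul_of_nonneg_left h (by positivity)
  have h5 : (Γ.card : ℝ) * (-(ν / (2 * d)) + 1) ≤ Γ.card * Real.exp (-(ν / (2 * d))) :=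
    mul_le_mul_of_nonneg_left h3 (Nat.cast_nonneg _)
  have h6 : 1 / (2 * d) * (ν * Γ.card) = Γ.card * (ν / (2 * d)) := by ring
  linarith

theorem seq_hit {ω : Type*} [DecidableEq ω] (U : Finset ω) {j m d : ℕ} (hj : j ≤ m) {l a : ℝ}
    (ha : 1 < a) (hl : Real.exp (l + 1) ≤ a ^ d) (ξ : ℕ → ω)
    (h : ∑ t ∈ range j, ((if ξ t ∈ U then Real.log a else 0) - 1 / (m : ℝ)) < l) :
    #{i ∈ range j | ξ i ∈ U} ≤ d := by
  rw [sum_sub_distrib, ← sum_filter, sum_const, sum_const, nsmul_eq_mul, nsmul_eq_mul,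
    card_range] at h
  have h1 : (j : ℝ) * (1 / m) ≤ 1 := by
    rw [mul_one_div]
    exact div_le_one_of_le₀ (by exact_mod_cast hj) (Nat.cast_nonneg _)
  have h2 : l + 1 ≤ d * Real.log a := by
    rw [← Real.log_pow]
    exact (Real.le_log_iff_exp_le (by positivity)).2 hl
  have h3 : (#{i ∈ range j | ξ i ∈ U} : ℝ) * Real.log a < d * Real.log a := by linarith
  have h4 := lt_of_mul_lt_mul_right h3 (Real.log_pos ha).le
  exact_mod_cast h4.le

theorem seq_hit_mean {ω : Type*} [DecidableEq ω] (Γ U : Finset ω) {m : ℕ} (hm : 0 < m) {a : ℝ}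
    (ha : 1 < a) (hU : m * a * (U ∩ Γ).card ≤ Γ.card) :
    ∑ o ∈ Γ, Real.exp ((if o ∈ U then Real.log a else 0) - 1 / (m : ℝ)) ≤ Γ.card := by
  have h2 : ∀ o ∈ Γ, Real.exp ((if o ∈ U then Real.log a else 0) - 1 / (m : ℝ)) ≤
      (1 + if o ∈ U then a else 0) * Real.exp (-(1 / (m : ℝ))) := by
    intro o _
    rw [sub_eq_add_neg, Real.exp_add]
    refine mul_le_mul_of_nonneg_right ?_ (Real.exp_pos _).le
    split_ifs
    · rw [Real.exp_log (by linarith)]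
      linarith
    · simp
  refine (sum_le_sum h2).trans ?_
  rw [← sum_mul, sum_add_distrib, sum_const, nsmul_eq_mul, mul_one, ← sum_filter, sum_const,
    nsmul_eq_mul, filter_mem_eq_inter, inter_comm, Real.exp_neg, ← div_eq_mul_inv,
    div_le_iff₀ (Real.exp_pos _)]
  have hm' : (0 : ℝ) < m := by exact_mod_cast hm
  have h3 := Real.add_one_le_exp (1 / (m : ℝ))
  have h5 : (Γ.card : ℝ) * (1 / m + 1) ≤ Γ.card * Real.exp (1 / m) :=
    mul_le_mul_of_nonneg_left h3 (Nat.cast_nonneg _)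
  have h6 : ((U ∩ Γ).card : ℝ) * a ≤ Γ.card * (1 / m) := by
    rw [mul_one_div, le_div_iff₀ hm']
    linarith
  linarith

theorem seq_gauss (m : ℕ) : ∑ t ∈ range m, (t : ℝ) = m * (m - 1) / 2 := by
  induction m with
  | zero => simp
  | succ m ih =>
    rw [sum_range_succ, ih]
    push_cast
    ring

theorem seq_points {Ω ι κ κ' : Type*} [DecidableEq Ω] (Γ : Finset Ω) (hΓ : Γ.Nonempty)
    (m d : ℕ) (hd : 1 ≤ d) (l a : ℝ) (ha : 1 < a) (hl : Real.exp (l + 1) ≤ a ^ d)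
    (Φ : Finset ι) (U : ι → Finset Ω) (hU : ∀ φ ∈ Φ, m * a * (U φ ∩ Γ).card ≤ Γ.card)
    (Ψ : Finset κ) (ψ : κ → Ω → Ω → ℝ) (μ : κ → ℝ)
    (h0 : ∀ b ∈ Ψ, ∀ ω ω', 0 ≤ ψ b ω ω') (h1 : ∀ b ∈ Ψ, ∀ ω ω', ψ b ω ω' ≤ 1)
    (hs : ∀ b ∈ Ψ, ∀ ω ∈ Γ, ∃ φ ∈ Φ, ∀ ω' ∈ Γ, ψ b ω' ω ≠ 0 → ω' ∈ U φ)
    (hμ : ∀ b ∈ Ψ, ∀ ω' ∈ Γ, ∑ ω ∈ Γ, ψ b ω' ω = μ b * Γ.card)
    (X : Finset κ') (χ : κ' → Ω → ℝ) (ν : κ' → ℝ)
    (c0 : ∀ b ∈ X, ∀ ω ∈ Γ, 0 ≤ χ b ω) (c1 : ∀ b ∈ X, ∀ ω ∈ Γ, χ b ω ≤ d)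
    (hν : ∀ b ∈ X, ∑ ω ∈ Γ, χ b ω ≤ ν b * Γ.card)
    (hN : (Φ.card + 2 * Ψ.card + X.card : ℝ) < Real.exp l) :
    ∃ ξ : ℕ → Ω, (∀ i < m, ξ i ∈ Γ) ∧ (∀ φ ∈ Φ, #{i ∈ range m | ξ i ∈ U φ} ≤ d) ∧
      (∀ b ∈ Ψ, μ b * (m * (m - 1)) / 4 - d * l ≤
          ∑ i' ∈ range m, ∑ i ∈ range i', ψ b (ξ i) (ξ i') ∧
        ∑ i' ∈ range m, ∑ i ∈ range i', ψ b (ξ i) (ξ i') ≤ μ b * (m * (m - 1)) + d * l) ∧
      ∀ b ∈ X, ∑ i ∈ range m, χ b (ξ i) ≤ 2 * m * ν b + d * l := by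
  have hd' : (0 : ℝ) < d := by exact_mod_cast hd
  let e : ι ⊕ κ ⊕ κ ⊕ κ' → ℕ → (ℕ → Ω) → ℝ := Sum.elim
    (fun φ i ξ => (if ξ i ∈ U φ then Real.log a else 0) - 1 / (m : ℝ)) (Sum.elim
    (fun b i ξ => (∑ t ∈ range i, ψ b (ξ t) (ξ i)) / d - 2 * (i * μ b) / d) (Sum.elim
    (fun b i ξ => i * μ b / (2 * d) - (∑ t ∈ range i, ψ b (ξ t) (ξ i)) / d)
    fun b i ξ => χ b (ξ i) / d - 2 * ν b / d))
  obtain ⟨ξ, g1, g2⟩ := seq_exp Γ hΓ (Φ.disjSum (Ψ.disjSum (Ψ.disjSum X))) l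
    (by
      simp only [card_disjSum]
      push_cast
      linarith) e
    (by
      intro φ _ i ξ ξ' h
      have h2 : ∀ b, ∑ t ∈ range i, ψ b (ξ t) (ξ' i) = ∑ t ∈ range i, ψ b (ξ' t) (ξ' i) :=
        fun b => sum_congr rfl fun t ht => by rw [h t (mem_range.1 ht).le]
      rcases φ with φ | b | b | b <;> simp only [e, Sum.elim_inl, Sum.elim_inr, h2, h i le_rfl]) m
    (by
      intro i hi ξ hξ h φ hφ
      have u1 : ∀ b o, ∑ t ∈ range i, ψ b (Function.update ξ i o t) o =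
          ∑ t ∈ range i, ψ b (ξ t) o := fun b o =>
        sum_congr rfl fun t ht => by rw [Function.update_of_ne (mem_range.1 ht).ne]
      have u2 : ∀ b ∈ Ψ, ∀ o ∈ Γ, 0 ≤ ∑ t ∈ range i, ψ b (ξ t) o :=
        fun b hb o _ => sum_nonneg fun t _ => h0 b hb _ _
      have u3 : ∀ b ∈ Ψ, ∀ o ∈ Γ, ∑ t ∈ range i, ψ b (ξ t) o ≤ d := by
        intro b hb o ho
        obtain ⟨φ, hφ, h3⟩ := hs b hb o ho
        have h4 := seq_hit (U φ) hi.le ha hl ξ (h (Sum.inl φ) (inl_mem_disjSum.2 hφ))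
        have h5 : ∑ t ∈ range i, ψ b (ξ t) o ≤
            ∑ t ∈ range i, if ξ t ∈ U φ then (1 : ℝ) else 0 := by
          refine sum_le_sum fun t _ => ?_
          split_ifs with h6
          · exact h1 b hb _ _
          · exact le_of_eq (by_contra fun h7 => h6 (h3 _ (hξ t) h7))
        rw [sum_boole] at h5
        exact h5.trans (by exact_mod_cast h4)
      have u4 : ∀ b ∈ Ψ, ∑ o ∈ Γ, ∑ t ∈ range i, ψ b (ξ t) o = i * μ b * Γ.card := by
        intro b hb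
        rw [sum_comm, sum_congr rfl fun t _ => hμ b hb _ (hξ t), sum_const, card_range,
          nsmul_eq_mul, mul_assoc]
      rcases φ with φ | b | b | b <;>
        simp only [e, Sum.elim_inl, Sum.elim_inr, Function.update_self, u1] <;>
        simp only [inl_mem_disjSum, inr_mem_disjSum] at hφ
      · exact seq_hit_mean Γ (U φ) (by omega) ha (hU φ hφ)
      · exact seq_up Γ hd' _ (u2 b hφ) (u3 b hφ) (u4 b hφ).le
      · exact seq_low Γ hd' _ (u2 b hφ) (u3 b hφ) (u4 b hφ).ge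
      · exact seq_up Γ hd' _ (c0 b hφ) (c1 b hφ) (hν b hφ))
  refine ⟨ξ, fun i _ => g1 i, fun φ hφ => ?_, fun b hb => ⟨?_, ?_⟩, fun b hb => ?_⟩
  · exact seq_hit (U φ) le_rfl ha hl ξ (g2 (Sum.inl φ) (inl_mem_disjSum.2 hφ))
  · have h := g2 (Sum.inr (Sum.inr (Sum.inl b))) (by simpa using hb)
    simp only [e, Sum.elim_inl, Sum.elim_inr] at h
    rw [sum_sub_distrib, ← sum_div, ← sum_div, ← sum_mul, seq_gauss, div_mul_eq_div_div,
      ← sub_div, div_lt_iff₀ hd'] at h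
    linarith
  · have h := g2 (Sum.inr (Sum.inl b)) (by simpa using hb)
    simp only [e, Sum.elim_inl, Sum.elim_inr] at h
    rw [sum_sub_distrib, ← sum_div, ← sum_div, ← mul_sum, ← sum_mul, seq_gauss,
      ← sub_div, div_lt_iff₀ hd'] at h
    linarith
  · have h := g2 (Sum.inr (Sum.inr (Sum.inr b))) (by simpa using hb)
    simp only [e, Sum.elim_inr] at h
    rw [sum_sub_distrib, ← sum_div, ← sum_div, sum_const, card_range, nsmul_eq_mul,
      ← sub_div, div_lt_iff₀ hd'] at h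
    linarith

end Pool.Agent.P.MP_d5a1e1_nt.T3
end

-- part Pool.Agent.P.MP_d5a1e1_nt.T3TypA
section

/-! The choice of the types. -/

namespace Pool.Agent.P.MP_d5a1e1_nt.T3

open Finset TB

theorem T3TypAa_dens {S φ Δ m a c O Y r B : ℝ} (hS : 0 ≤ S) (hφ : 0 ≤ φ) (hm : 0 ≤ m)
    (ha : 0 ≤ a) (hr : 0 ≤ r) (hY : 0 ≤ Y) (hΔ : 0 ≤ Δ) (h1 : S * O ≤ r * φ ^ 2) (h2 : φ * B ≤ Δ)
    (h3 : m * φ ≤ c * Δ) (h4 : 1 ≤ Y * O) (h5 : c * a * r * Y ≤ B) : m * a * S ≤ Δ ^ 2 :=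
  calc m * a * S ≤ m * a * S * (Y * O) := le_mul_of_one_le_right (by positivity) h4
    _ = m * a * Y * (S * O) := by ring
    _ ≤ m * a * Y * (r * φ ^ 2) := by gcongr
    _ = a * r * Y * φ * (m * φ) := by ring
    _ ≤ a * r * Y * φ * (c * Δ) := by gcongr
    _ = c * a * r * Y * (φ * Δ) := by ring
    _ ≤ B * (φ * Δ) := by gcongr
    _ = φ * B * Δ := by ring
    _ ≤ Δ * Δ := by gcongr
    _ = Δ ^ 2 := by ring

theorem T3TypAa_list {S φ Δ m m' c c' O r B : ℝ} (hφ : 0 ≤ φ) (hm : 0 ≤ m) (hm' : 0 ≤ m')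
    (hr : 0 ≤ r) (hO : 0 < O) (hΔ : 0 < Δ) (h1 : S * O ≤ r * φ ^ 2) (h2 : m * φ ≤ c * Δ)
    (h3 : m' * φ ≤ c' * Δ) (h4 : c * c' ≤ B * O) : m * m' * S / Δ ^ 2 ≤ r * B := by
  rw [div_le_iff₀ (by positivity)]
  refine le_of_mul_le_mul_right ?_ hO
  calc m * m' * S * O = m * m' * (S * O) := by ring
    _ ≤ m * m' * (r * φ ^ 2) := by gcongr
    _ = r * ((m * φ) * (m' * φ)) := by ring
    _ ≤ r * ((c * Δ) * (c' * Δ)) := mul_le_mul_of_nonneg_left
        (mul_le_mul h2 h3 (by positivity) (le_trans (by positivity) h2)) hr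
    _ = r * Δ ^ 2 * (c * c') := by ring
    _ ≤ r * Δ ^ 2 * (B * O) := by gcongr
    _ = _ := by ring

theorem T3TypAb_pairs (f : ℕ → ℕ → ℝ) (hf : ∀ a b, f a b = f b a) (m : ℕ) :
    ∑ q ∈ range m ×ˢ range m, f q.1 q.2 =
      2 * ∑ i' ∈ range m, ∑ i ∈ range i', f i i' + ∑ i ∈ range m, f i i := by
  rw [sum_product']
  induction m with
  | zero => simp
  | succ m ih =>
    simp only [sum_range_succ, sum_add_distrib, ih]
    rw [sum_congr rfl fun b _ => hf m b]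
    ring

theorem T3TypAb_le {α : Type*} (s : Finset α) (P : α → Prop) [DecidablePred P] (F : α → ℝ)
    (h1 : ∀ i ∈ s, F i ≤ 1) (h2 : ∀ i ∈ s, F i ≠ 0 → P i) : ∑ i ∈ s, F i ≤ #{i ∈ s | P i} := by
  rw [← sum_boole]
  refine sum_le_sum fun i hi => ?_
  split_ifs with h
  · exact h1 i hi
  · exact le_of_eq (by_contra fun h3 => h (h2 i hi h3))

theorem T3TypAb_low {D φ m l S : ℝ} (hD : 0 < D) (hl : 0 ≤ l) (hm : 2 ≤ m)
    (h : l * D ≤ m * φ) (hS : φ ^ 2 / 4 ≤ S) : l ^ 2 / 8 ≤ S / D ^ 2 * (m * (m - 1)) := by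
  rw [div_mul_eq_mul_div S, le_div_iff₀ (by positivity)]
  have h1 : (l * D) ^ 2 ≤ (m * φ) ^ 2 := pow_le_pow_left₀ (by positivity) h 2
  have h2 : φ ^ 2 / 4 * (m * m / 2) ≤ S * (m * (m - 1)) :=
    mul_le_mul hS (by nlinarith) (by positivity) (le_trans (by positivity) hS)
  nlinarith

theorem T3TypA_rec {α : Type} (K : ℕ) (O : ℕ → α → Prop) (C : ℕ → α → α → Prop) {a : α}
    (h₀ : O K a) (h : ∀ j x, ∃ x', K ≤ j → O j x → O (j + 1) x' ∧ C j x x') :
    ∃ t : ℕ → α, ∀ k, K ≤ k → O k (t k) ∧ C k (t k) (t (k + 1)) := by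
  choose F hF using h
  let s : ℕ → α := fun n => Nat.rec a (fun n x => F (K + n) x) n
  have hs : ∀ n, O (K + n) (s n) := by
    intro n
    induction n with
    | zero => exact h₀
    | succ n ih => exact (hF (K + n) (s n) (Nat.le_add_right _ _) ih).1
  have hc : ∀ n, C (K + n) (s n) (s (n + 1)) := fun n =>
    (hF (K + n) (s n) (Nat.le_add_right _ _) (hs n)).2
  refine ⟨fun k => s (k - K), fun k hk => ⟨?_, ?_⟩⟩
  · have := hs (k - K)
    rwa [Nat.add_sub_cancel' hk] at this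
  · have := hc (k - K)
    rwa [Nat.add_sub_cancel' hk, ← Nat.sub_add_comm hk] at this

variable [Kap]

/-- The properties of the types of one state. -/
structure Own (k : ℕ) (ξ : ℕ → ℕ → ℕ) : Prop where
  box : ∀ i < mm k, ξ i ∈ Box (2 * k) DD
  deg : ∀ j, k = j ∨ k = j + 1 → ∀ g ∈ Box (2 * j) DD, ∀ ξ₀ : ℕ → ℕ,
    (∀ s < 2 * j, ξ₀ s < DD (s / 2)) → #{i ∈ range (mm k) | ym j g ξ₀ (ξ i) ∈ SS j} ≤ yy k
  list : ∀ g ∈ Box (2 * k) DD,
    #{q ∈ range (mm k) ×ˢ range (mm k) | ym k g (ξ q.1) (ξ q.2) ∈ SS k} ≤ Lam k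
  low : ∀ g ∈ Box (2 * k) DD, lam k ^ 2 / 64 ≤
    ∑ q ∈ range (mm k) ×ˢ range (mm k), Gm k (ym k g (ξ q.1) (ξ q.2))

/-- The properties of the types of two consecutive states; `m` old types are used. -/
def Cross (j m : ℕ) (ξ ξ' : ℕ → ℕ → ℕ) : Prop :=
  ∀ g ∈ Box (2 * j) DD,
    #{q ∈ range m ×ˢ range (mm (j + 1)) | ym j g (ξ q.1) (ξ' q.2) ∈ SS j} ≤ Lam (j + 1)

theorem T3TypAa_k {k : ℕ} (hk : k0 ≤ k) : 32768 * (ka * LL k) ≤ k := by
  have h1 : yy k ≤ yy k ^ (2 * ka - 1) := Nat.le_self_pow (by have := ka_big; omega) _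
  rw [← mul_assoc]
  exact (yy_big' hk).trans (h1.trans (yy_le hk))

theorem T3TypAa_L (k : ℕ) : LL k ≤ ka * LL k :=
  Nat.le_mul_of_pos_left _ (by have := ka_big; omega)

theorem T3TypAa_lt (k : ℕ) : k ≤ yy k ^ (2 * ka) := by
  rw [← tau_eq]
  exact (lt_tau k).le

theorem T3TypAa_mm {j : ℕ} (hk : k0 ≤ j + 1) :
    (mm (j + 1) : ℝ) * ph j ≤ 32 * ga (gr j) * lam (j + 1) * Del j := by
  have h1 := mm_le (hk.trans (Nat.le_succ _))
  have h2 := ph_succ j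
  have h3 : (0 : ℝ) < DD j := by exact_mod_cast DD_pos j
  rw [Del_succ] at h1
  push_cast at h1
  refine le_of_mul_le_mul_left ?_ h3
  calc (DD j : ℝ) * (mm (j + 1) * ph j) = mm (j + 1) * (DD j * ph j) := by ring
    _ ≤ mm (j + 1) * (16 * ga (gr j) * ph (j + 1)) := by gcongr
    _ = 16 * ga (gr j) * (mm (j + 1) * ph (j + 1)) := by ring
    _ ≤ 16 * ga (gr j) * (2 * lam (j + 1) * (Del j * DD j)) := by gcongr
    _ = DD j * (32 * ga (gr j) * lam (j + 1) * Del j) := by ring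

theorem T3TypAa_ga {j : ℕ} (hk : k0 ≤ j + 1) : 256 * ga (gr j) ≤ yy (j + 1) :=
  (Nat.mul_le_mul_left _ (ga_mono (gr_mono (Nat.le_succ j)))).trans (ga_small hk)

theorem T3TypAa_Del (k : ℕ) : Del k ^ 2 ≤ 2 ^ (40 * (ka * LL k) * k) := by
  have h1 : Del k ≤ (2 ^ (20 * ka * LL k)) ^ k := by
    have h2 := Finset.prod_le_pow_card (range k) DD (2 ^ (20 * ka * LL k)) fun u hu =>
      (DD_mono (mem_range.1 hu).le).trans (DD_le k)
    rwa [card_range] at h2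
  calc Del k ^ 2 ≤ ((2 ^ (20 * ka * LL k)) ^ k) ^ 2 := Nat.pow_le_pow_left h1 2
    _ = 2 ^ (40 * (ka * LL k) * k) := by
      rw [← pow_mul, ← pow_mul]
      congr 1
      ring

theorem dens_down {j : ℕ} (hk : k0 ≤ j + 1) :
    (mm (j + 1) : ℝ) * 2 ^ ((j + 1) / 4) * (SS j).card ≤ (Del j : ℝ) ^ 2 := by
  refine T3TypAa_dens (by positivity) (ph_pos j).le (by positivity) (by positivity)
    (by positivity) (by positivity) (by positivity) (card_SS_rat j) (ph_le8 j) (T3TypAa_mm hk)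
    (Om_ge j) ?_
  have h1 := T3TypAa_k hk
  have h2 := T3TypAa_L (j + 1)
  have h0 := LL_pos (j + 1)
  have h3 : 32 * ga (gr j) * yy (j + 1) ^ (ka + 2) * 2 ^ ((j + 1) / 4) * yy j ^ 2 *
      yy j ^ (3 * ka + 1) ≤ 8 ^ j :=
    calc _ ≤ yy (j + 1) * yy (j + 1) ^ (ka + 2) * 2 ^ ((j + 1) / 4) * yy (j + 1) ^ 2 *
          yy (j + 1) ^ (3 * ka + 1) := by
          have h4 := T3TypAa_ga hk
          have h5 := yy_mono (Nat.le_succ j)
          gcongr
          omega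
      _ = yy (j + 1) ^ (4 * ka + 6) * 2 ^ ((j + 1) / 4) := by ring
      _ = 2 ^ (4 * (ka * LL (j + 1)) + 6 * LL (j + 1) + (j + 1) / 4) := by
          rw [yy, ← pow_mul, ← pow_add]
          congr 1
          ring
      _ ≤ 2 ^ (3 * j) := Nat.pow_le_pow_right (by norm_num) (by omega)
      _ = 8 ^ j := by
          rw [pow_mul]
          rfl
  refine le_trans ?_ (by exact_mod_cast h3 : 32 * (ga (gr j) : ℝ) * (yy (j + 1) : ℝ) ^ (ka + 2) *
    2 ^ ((j + 1) / 4) * (yy j : ℝ) ^ 2 * (yy j : ℝ) ^ (3 * ka + 1) ≤ 8 ^ j)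
  have := lam_le (j + 1)
  gcongr

theorem dens_diag {k : ℕ} (hk : k0 ≤ k) :
    (mm k : ℝ) * 2 ^ (k / 4) * (4 ^ k * (SS k).card) ≤ (Del k : ℝ) ^ 2 := by
  have h0 := T3TypAa_dens (a := 2 ^ (k / 4) * 4 ^ k) (by positivity) (ph_pos k).le (by positivity)
    (by positivity) (by positivity) (by positivity) (by positivity) (card_SS_rat k) (ph_le8 k)
    (mm_le (hk.trans (Nat.le_succ k))) (Om_ge k) ?_
  · calc (mm k : ℝ) * 2 ^ (k / 4) * (4 ^ k * (SS k).card)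
        = mm k * (2 ^ (k / 4) * 4 ^ k) * (SS k).card := by ring
      _ ≤ _ := h0
  have h1 := T3TypAa_k hk
  have h2 := T3TypAa_L k
  have h4 := LL_pos k
  have h3 : 2 * yy k ^ (ka + 2) * (2 ^ (k / 4) * 4 ^ k) * yy k ^ 2 * yy k ^ (3 * ka + 1) ≤ 8 ^ k :=
    calc _ = yy k ^ (4 * ka + 5) * 2 ^ (k / 4 + 1) * (2 ^ 2) ^ k := by ring
      _ = 2 ^ (4 * (ka * LL k) + 5 * LL k + (k / 4 + 1) + 2 * k) := by
          rw [yy, ← pow_mul, ← pow_mul, ← pow_add, ← pow_add]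
          congr 1
          ring
      _ ≤ 2 ^ (3 * k) := Nat.pow_le_pow_right (by norm_num) (by omega)
      _ = 8 ^ k := by
          rw [pow_mul]
          rfl
  refine le_trans ?_ (by exact_mod_cast h3 : 2 * (yy k : ℝ) ^ (ka + 2) * (2 ^ (k / 4) * 4 ^ k) *
    (yy k : ℝ) ^ 2 * (yy k : ℝ) ^ (3 * ka + 1) ≤ 8 ^ k)
  have := lam_le k
  gcongr

theorem dens_self {k : ℕ} (hk : k0 ≤ k) :
    (mm k : ℝ) * 2 ^ (k / 4) * (SS k).card ≤ (Del k : ℝ) ^ 2 :=
  le_trans (mul_le_mul_of_nonneg_left (le_mul_of_one_le_left (Nat.cast_nonneg _)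
    (one_le_pow₀ (by norm_num))) (by positivity)) (dens_diag hk)

theorem ell_le {k : ℕ} (hk : k0 ≤ k) :
    Real.exp (Real.log (9 * (Del k : ℝ) ^ 2) + 1) ≤ ((2 : ℝ) ^ (k / 4)) ^ yy k := by
  have h0 : (0 : ℝ) < Del k := by exact_mod_cast Del_pos k
  have h1 := T3TypAa_k hk
  have h2 := (LL_pos k).trans (T3TypAa_L k)
  have h3 := yy_big' hk
  have h9 := T3TypAa_Del k
  rw [mul_assoc] at h3
  generalize ka * LL k = L at h1 h2 h3 h9
  have h4 : 5 + 40 * L * k ≤ k / 4 * yy k := by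
    have h5 : k ≤ 8 * (k / 4) := by omega
    have h6 : 1 ≤ k / 4 := by omega
    generalize k / 4 = q at h5 h6
    calc 5 + 40 * L * k ≤ 5 * (q * L) + 40 * L * (8 * q) := by
          have h7 : 1 ≤ q * L := Nat.mul_pos h6 h2
          have h8 : 40 * L * k ≤ 40 * L * (8 * q) := Nat.mul_le_mul_left _ h5
          omega
      _ = q * (325 * L) := by ring
      _ ≤ q * yy k := Nat.mul_le_mul_left _ (by omega)
  have h5 : 32 * Del k ^ 2 ≤ (2 ^ (k / 4)) ^ yy k :=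
    calc 32 * Del k ^ 2 ≤ 2 ^ 5 * 2 ^ (40 * L * k) := Nat.mul_le_mul (by norm_num) h9
      _ = 2 ^ (5 + 40 * L * k) := by rw [pow_add]
      _ ≤ 2 ^ (k / 4 * yy k) := Nat.pow_le_pow_right (by norm_num) h4
      _ = (2 ^ (k / 4)) ^ yy k := by rw [pow_mul]
  have h6 : (32 : ℝ) * (Del k : ℝ) ^ 2 ≤ ((2 : ℝ) ^ (k / 4)) ^ yy k := by exact_mod_cast h5
  rw [Real.exp_add, Real.exp_log (by positivity)]
  have h7 := Real.exp_one_lt_d9
  have h8 : (0 : ℝ) < (Del k : ℝ) ^ 2 := by positivity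
  nlinarith

theorem ell_small {k : ℕ} (hk : k0 ≤ k) :
    yy k * Real.log (9 * (Del k : ℝ) ^ 2) ≤ (yy k : ℝ) ^ (2 * ka + 3) / 64 := by
  have h0 : (0 : ℝ) < Del k := by exact_mod_cast Del_pos k
  have h2 := (LL_pos k).trans (T3TypAa_L k)
  have h3 := yy_big' hk
  have h9 := T3TypAa_Del k
  rw [mul_assoc] at h3
  generalize ka * LL k = L at h2 h3 h9
  have h4 : 9 * Del k ^ 2 ≤ 2 ^ (4 + 40 * L * k) :=
    calc 9 * Del k ^ 2 ≤ 2 ^ 4 * 2 ^ (40 * L * k) := Nat.mul_le_mul (by norm_num) h9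
      _ = 2 ^ (4 + 40 * L * k) := by rw [pow_add]
  have h5 : 9 * (Del k : ℝ) ^ 2 ≤ (2 : ℝ) ^ (4 + 40 * L * k) := by exact_mod_cast h4
  have h6 : Real.log (9 * (Del k : ℝ) ^ 2) ≤ ((4 + 40 * L * k : ℕ) : ℝ) := by
    refine (Real.log_le_log (by positivity) h5).trans ?_
    rw [Real.log_pow]
    have h7 := Real.log_two_lt_d9
    have h8 : (0 : ℝ) ≤ ((4 + 40 * L * k : ℕ) : ℝ) := by positivity
    nlinarith
  have h7 : 64 * (yy k * (4 + 40 * L * k)) ≤ yy k ^ (2 * ka + 3) := by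
    have h8 := T3TypAa_lt k
    have h9 : 1 ≤ yy k ^ (2 * ka) := Nat.one_le_pow _ _ (by omega)
    have h10 : 1 ≤ L * yy k ^ (2 * ka) := Nat.mul_pos h2 h9
    calc 64 * (yy k * (4 + 40 * L * k))
        ≤ 64 * (yy k * (4 * (L * yy k ^ (2 * ka)) + 40 * L * yy k ^ (2 * ka))) := by
          gcongr
          omega
      _ = (2816 * L) * yy k ^ (2 * ka + 1) := by ring
      _ ≤ yy k * yy k ^ (2 * ka + 1) := Nat.mul_le_mul_right _ (by omega)
      _ = yy k ^ (2 * ka + 2) := by ring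
      _ ≤ _ := Nat.pow_le_pow_right (by omega) (by omega)
  have h8 : (64 : ℝ) * (yy k * ((4 + 40 * L * k : ℕ) : ℝ)) ≤ (yy k : ℝ) ^ (2 * ka + 3) := by
    exact_mod_cast h7
  have h9 : (yy k : ℝ) * Real.log (9 * (Del k : ℝ) ^ 2) ≤
      yy k * ((4 + 40 * L * k : ℕ) : ℝ) := by gcongr
  linarith

theorem T3TypAa_y {k : ℕ} (hk : k0 ≤ k) : (16 : ℝ) ≤ yy k := by
  have h1 := T3Par_big hk
  have h2 := LL_pos k
  exact_mod_cast (show 16 ≤ yy k by omega)

theorem list_self {k : ℕ} (hk : k0 ≤ k) :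
    2 * (((SS k).card : ℝ) / (Del k : ℝ) ^ 2 * (mm k * (mm k - 1)) +
      (yy k : ℝ) ^ (2 * ka + 3) / 64) + yy k ≤ Lam k := by
  have h0 : (0 : ℝ) < Del k := by exact_mod_cast Del_pos k
  have h1 := mm_le (hk.trans (Nat.le_succ k))
  have h2 := T3TypAa_list (B := 4 * (yy k : ℝ) ^ (2 * ka + 4)) (ph_pos k).le (Nat.cast_nonneg _)
    (Nat.cast_nonneg _) (by positivity) (Om_pos k) h0 (card_SS_rat k) h1 h1
    (by nlinarith [lam_sq k])
  have h3 : ((SS k).card : ℝ) / (Del k : ℝ) ^ 2 * (mm k * (mm k - 1)) ≤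
      mm k * mm k * ((SS k).card : ℝ) / (Del k : ℝ) ^ 2 := by
    rw [mul_div_assoc, mul_comm]
    gcongr
    linarith
  have hy := T3TypAa_y hk
  have h4 : (yy k : ℝ) ≤ (yy k : ℝ) ^ (2 * ka + 6) := le_self_pow₀ (yy_one k) (by omega)
  have h5 : (yy k : ℝ) ^ (2 * ka + 3) ≤ (yy k : ℝ) ^ (2 * ka + 6) :=
    pow_le_pow_right₀ (yy_one k) (by omega)
  have h6 : (yy k : ℝ) ^ 2 * (4 * (yy k : ℝ) ^ (2 * ka + 4)) = 4 * (yy k : ℝ) ^ (2 * ka + 6) := by
    ring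
  have h7 : (Lam k : ℝ) = (yy k : ℝ) ^ 2 * (yy k : ℝ) ^ (2 * ka + 6) := by
    rw [Lam]
    push_cast
    ring
  have h8 : (0 : ℝ) ≤ (yy k : ℝ) ^ (2 * ka + 6) := by positivity
  have h9 := mul_le_mul_of_nonneg_right (show (16 : ℝ) ≤ (yy k : ℝ) ^ 2 by nlinarith) h8
  linarith

theorem list_cross {j : ℕ} (hk : k0 ≤ j + 1) :
    2 * mm (j + 1) * (mm j * ((SS j).card : ℝ) / (Del j : ℝ) ^ 2) +
      (yy (j + 1) : ℝ) ^ (2 * ka + 3) / 64 ≤ Lam (j + 1) := by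
  have h0 : (0 : ℝ) < Del j := by exact_mod_cast Del_pos j
  have hy := T3TypAa_y hk
  have hm : (yy j : ℝ) ≤ yy (j + 1) := Nat.cast_le.2 (yy_mono (Nat.le_succ j))
  have hg : (256 : ℝ) * ga (gr j) ≤ yy (j + 1) := by exact_mod_cast T3TypAa_ga hk
  have l1 : lam j ^ 2 ≤ (yy (j + 1) : ℝ) ^ (2 * ka + 4) * Om j := by
    have := Om_pos j
    rw [lam_sq]
    gcongr
  have l2 : lam (j + 1) ^ 2 ≤ (yy (j + 1) : ℝ) ^ (2 * ka + 4) * Om j := by
    have := Om_succ_le j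
    rw [lam_sq]
    gcongr
  have l3 : lam (j + 1) * lam j ≤ (yy (j + 1) : ℝ) ^ (2 * ka + 4) * Om j := by
    nlinarith [sq_nonneg (lam (j + 1) - lam j)]
  have h2 := T3TypAa_list (B := 64 * ga (gr j) * (yy (j + 1) : ℝ) ^ (2 * ka + 4)) (ph_pos j).le
    (Nat.cast_nonneg _) (Nat.cast_nonneg _) (by positivity) (Om_pos j) h0 (card_SS_rat j)
    (T3TypAa_mm hk) (mm_le hk)
    (by nlinarith [mul_le_mul_of_nonneg_left l3 (Nat.cast_nonneg (α := ℝ) (ga (gr j)))])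
  have h3 : (yy j : ℝ) ^ 2 * (64 * ga (gr j) * (yy (j + 1) : ℝ) ^ (2 * ka + 4)) ≤
      (yy (j + 1) : ℝ) ^ 2 * (yy (j + 1) * (yy (j + 1) : ℝ) ^ (2 * ka + 4)) := by
    have : (0 : ℝ) ≤ ga (gr j) := Nat.cast_nonneg _
    gcongr
    linarith
  have h5 : (yy (j + 1) : ℝ) ^ (2 * ka + 3) ≤ (yy (j + 1) : ℝ) ^ (2 * ka + 7) :=
    pow_le_pow_right₀ (yy_one _) (by omega)
  have h6 : (yy (j + 1) : ℝ) ^ 2 * (yy (j + 1) * (yy (j + 1) : ℝ) ^ (2 * ka + 4)) =
      (yy (j + 1) : ℝ) ^ (2 * ka + 7) := by ring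
  have h7 : (Lam (j + 1) : ℝ) = yy (j + 1) * (yy (j + 1) : ℝ) ^ (2 * ka + 7) := by
    rw [Lam]
    push_cast
    ring
  have h8 : (0 : ℝ) ≤ (yy (j + 1) : ℝ) ^ (2 * ka + 7) := by positivity
  have h9 := mul_le_mul_of_nonneg_right hy h8
  have h10 : 2 * mm (j + 1) * (mm j * ((SS j).card : ℝ) / (Del j : ℝ) ^ 2) =
      2 * (mm (j + 1) * mm j * ((SS j).card : ℝ) / (Del j : ℝ) ^ 2) := by ring
  linarith

theorem T3TypAb_ind (k : ℕ) :
    ∑ y ∈ Box (2 * k) DD, (if y ∈ SS k then (1 : ℝ) else 0) = (SS k).card := by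
  rw [sum_boole, filter_mem_eq_inter, inter_eq_right.2 fun y hy => (mem_SS.1 hy).1]

/-- The kernels inside one state. -/
noncomputable def T3TypAb_F (k : ℕ) : Fin 2 → (ℕ → ℕ) → ℝ :=
  ![fun y => if y ∈ SS k then 1 else 0, fun y => Gm k y / Gb k]

/-- The kernel between two states. -/
noncomputable def T3TypAb_E (j : ℕ) (y : ℕ → ℕ) : ℝ := if y ∈ SS j then 1 else 0

theorem T3TypAb_E_ok (j : ℕ) (y : ℕ → ℕ) : 0 ≤ T3TypAb_E j y ∧
    T3TypAb_E j y ≤ 1 ∧ (T3TypAb_E j y ≠ 0 → y ∈ SS j) := by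
  unfold T3TypAb_E
  split_ifs with h
  · exact ⟨zero_le_one, le_rfl, fun _ => h⟩
  · exact ⟨le_rfl, zero_le_one, fun h5 => absurd rfl h5⟩

theorem T3TypAb_F_ok {k : ℕ} (hk : k0 ≤ k) (t : Fin 2) (y : ℕ → ℕ) : 0 ≤ T3TypAb_F k t y ∧
    T3TypAb_F k t y ≤ 1 ∧ (y ∈ Box (2 * k) DD → T3TypAb_F k t y ≠ 0 → y ∈ SS k) := by
  fin_cases t
  · exact ⟨(T3TypAb_E_ok k y).1, (T3TypAb_E_ok k y).2.1, fun _ => (T3TypAb_E_ok k y).2.2⟩
  · refine ⟨div_nonneg (Gm_nonneg k y) (Gb_pos k).le, (div_le_one (Gb_pos k)).2 (Gm_le_Gb hk y),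
      fun hy h => Gm_supp hy fun h5 => h ?_⟩
    show Gm k y / Gb k = 0
    rw [h5, zero_div]

theorem T3TypAb_seq {j : ℕ} (hk : k0 ≤ j + 1) {m : ℕ} (ξ : ℕ → ℕ → ℕ)
    (hb : ∀ i < m, ∀ s < 2 * j, ξ i s < DD (s / 2))
    (hd : ∀ g ∈ Box (2 * j) DD, ∀ ξ₀ : ℕ → ℕ, (∀ s < 2 * j, ξ₀ s < DD (s / 2)) →
      #{i ∈ range m | ym j g ξ₀ (ξ i) ∈ SS j} ≤ yy (j + 1)) :
    ∃ ξ' : ℕ → ℕ → ℕ, (∀ i < mm (j + 1), ξ' i ∈ Box (2 * (j + 1)) DD) ∧
      (∀ g ∈ Box (2 * j) DD,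
        #{i ∈ range (mm (j + 1)) | ym j g (fun _ => 0) (ξ' i) ∈ SS j} ≤ yy (j + 1)) ∧
      (∀ g ∈ Box (2 * (j + 1)) DD, #{i ∈ range (mm (j + 1)) |
        ym (j + 1) g (fun _ => 0) (ξ' i) ∈ SS (j + 1)} ≤ yy (j + 1)) ∧
      (∀ g ∈ Box (2 * (j + 1)) DD,
        #{i ∈ range (mm (j + 1)) | ym (j + 1) g (ξ' i) (ξ' i) ∈ SS (j + 1)} ≤ yy (j + 1)) ∧
      (∀ g ∈ Box (2 * (j + 1)) DD, ∀ t,
        (∑ y ∈ Box (2 * (j + 1)) DD, T3TypAb_F (j + 1) t y) / (Del (j + 1) : ℝ) ^ 2 *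
          (mm (j + 1) * (mm (j + 1) - 1)) / 4 - (yy (j + 1) : ℝ) ^ (2 * ka + 3) / 64 ≤
          ∑ i' ∈ range (mm (j + 1)), ∑ i ∈ range i',
            T3TypAb_F (j + 1) t (ym (j + 1) g (ξ' i) (ξ' i')) ∧
        ∑ i' ∈ range (mm (j + 1)), ∑ i ∈ range i',
            T3TypAb_F (j + 1) t (ym (j + 1) g (ξ' i) (ξ' i')) ≤
          (∑ y ∈ Box (2 * (j + 1)) DD, T3TypAb_F (j + 1) t y) / (Del (j + 1) : ℝ) ^ 2 *
          (mm (j + 1) * (mm (j + 1) - 1)) + (yy (j + 1) : ℝ) ^ (2 * ka + 3) / 64) ∧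
      ∀ g ∈ Box (2 * j) DD,
        ∑ i' ∈ range (mm (j + 1)), ∑ i ∈ range m, T3TypAb_E j (ym j g (ξ i) (ξ' i')) ≤
          2 * mm (j + 1) * (m * (∑ y ∈ Box (2 * j) DD, T3TypAb_E j y) / (Del j : ℝ) ^ 2) +
            (yy (j + 1) : ℝ) ^ (2 * ka + 3) / 64 := by
  have dj : (0 : ℝ) < (Del j : ℝ) ^ 2 := pow_pos (by exact_mod_cast Del_pos j) 2
  have dk : (0 : ℝ) < (Del (j + 1) : ℝ) ^ 2 := pow_pos (by exact_mod_cast Del_pos _) 2
  have cj : ((Box (2 * j) DD).card : ℝ) = (Del j : ℝ) ^ 2 := by exact_mod_cast card_Gam j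
  have ck : ((Box (2 * (j + 1)) DD).card : ℝ) = (Del (j + 1) : ℝ) ^ 2 := by
    exact_mod_cast card_Gam (j + 1)
  have z0 : ∀ n, ∀ s < n, (fun _ : ℕ => 0) s < DD (s / 2) := fun _ s _ => DD_pos _
  have hlt : ∀ ω ∈ Box (2 * (j + 1)) DD, ∀ s < 2 * j, ω s < DD (s / 2) :=
    fun ω hω s hs => (mem_Box.1 hω).1 s (by omega)
  have h4 : 1 ≤ (j + 1) / 4 := by
    have h2 := T3TypAa_k hk
    have h3 := (LL_pos (j + 1)).trans (T3TypAa_L (j + 1))
    omega
  have hsm := ell_small hk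
  obtain ⟨ξ', g1, g2, g3, g4⟩ := seq_points (Box (2 * (j + 1)) DD)
    (card_pos.1 (by rw [card_Gam]; exact pow_pos (Del_pos _) 2)) (mm (j + 1)) (yy (j + 1))
    (by have := yy_ge (j + 1); omega) (Real.log (9 * (Del (j + 1) : ℝ) ^ 2))
    ((2 : ℝ) ^ ((j + 1) / 4)) (one_lt_pow₀ (by norm_num) (by omega)) (ell_le hk)
    ((Box (2 * j) DD).disjSum ((Box (2 * (j + 1)) DD).disjSum (Box (2 * (j + 1)) DD)))
    (Sum.elim (fun g => (Box (2 * (j + 1)) DD).filter fun ω => ym j g (fun _ => 0) ω ∈ SS j)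
      (Sum.elim
        (fun g => (Box (2 * (j + 1)) DD).filter fun ω => ym (j + 1) g (fun _ => 0) ω ∈ SS (j + 1))
        fun g => (Box (2 * (j + 1)) DD).filter fun ω => ym (j + 1) g ω ω ∈ SS (j + 1)))
    (by
      rintro (g | g | g) -
      · simp only [Sum.elim_inl]
        rw [inter_eq_left.2 (filter_subset _ _), ck]
        have h1 := sum_ym (Nat.le_succ j) g (z0 _) fun y => if y ∈ SS j then (1 : ℝ) else 0
        rw [T3TypAb_ind, sum_boole] at h1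
        have h2 := mul_le_mul_of_nonneg_left (dens_down hk) dk.le
        refine le_of_mul_le_mul_right ?_ dj
        rw [mul_assoc, h1]
        linarith
      · simp only [Sum.elim_inr, Sum.elim_inl]
        rw [inter_eq_left.2 (filter_subset _ _), ck]
        have h1 := sum_ym (le_refl (j + 1)) g (z0 _)
          fun y => if y ∈ SS (j + 1) then (1 : ℝ) else 0
        rw [T3TypAb_ind, sum_boole, mul_comm] at h1
        rw [mul_left_cancel₀ dk.ne' h1]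
        exact dens_self hk
      · simp only [Sum.elim_inr]
        rw [inter_eq_left.2 (filter_subset _ _), ck]
        refine le_trans (mul_le_mul_of_nonneg_left ?_ (by positivity)) (dens_diag hk)
        exact_mod_cast card_diag (j + 1) g (SS (j + 1)))
    (Box (2 * (j + 1)) DD ×ˢ (univ : Finset (Fin 2)))
    (fun b ω ω' => T3TypAb_F (j + 1) b.2 (ym (j + 1) b.1 ω ω'))
    (fun b => (∑ y ∈ Box (2 * (j + 1)) DD, T3TypAb_F (j + 1) b.2 y) / (Del (j + 1) : ℝ) ^ 2)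
    (fun b _ _ _ => (T3TypAb_F_ok hk _ _).1) (fun b _ _ _ => (T3TypAb_F_ok hk _ _).2.1)
    (by
      intro b _ ω hω
      refine ⟨Sum.inr (Sum.inl (ym (j + 1) b.1 ω fun _ => 0)),
        inr_mem_disjSum.2 (inl_mem_disjSum.2 (ym_mem _ _ _ _)), fun ω' hω' h => ?_⟩
      have h1 := (T3TypAb_F_ok hk _ _).2.2 (ym_mem _ _ _ _) h
      rw [ym_comm, ym_shift _ (mem_Box.1 hω).1 (mem_Box.1 hω').1] at h1
      exact mem_filter.2 ⟨hω', h1⟩)
    (by
      intro b _ ω hω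
      have h1 := sum_ym (le_refl (j + 1)) b.1 (mem_Box.1 hω).1 (T3TypAb_F (j + 1) b.2)
      rw [ck, div_mul_cancel₀ _ dk.ne']
      rw [mul_comm] at h1
      exact mul_left_cancel₀ dk.ne' h1)
    (Box (2 * j) DD)
    (fun b ω => ∑ i ∈ range m, T3TypAb_E j (ym j b (ξ i) ω))
    (fun _ => m * (∑ y ∈ Box (2 * j) DD, T3TypAb_E j y) / (Del j : ℝ) ^ 2)
    (fun b _ _ _ => sum_nonneg fun _ _ => (T3TypAb_E_ok _ _).1)
    (by
      intro b hb' ω hω
      refine (T3TypAb_le (range m) (fun i => ym j b ω (ξ i) ∈ SS j) _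
        (fun _ _ => (T3TypAb_E_ok _ _).2.1) fun i _ h => ?_).trans ?_
      · rw [ym_comm]
        exact (T3TypAb_E_ok _ _).2.2 h
      · exact_mod_cast hd b hb' ω (hlt ω hω))
    (by
      intro b _
      rw [sum_comm, ck]
      refine le_of_eq ?_
      rw [sum_congr rfl fun i hi => eq_div_of_mul_eq dj.ne'
        (sum_ym (Nat.le_succ j) b (hb i (mem_range.1 hi)) (T3TypAb_E j)), sum_const,
        card_range, nsmul_eq_mul]
      ring)
    (by
      rw [Real.exp_log (by positivity)]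
      simp only [card_disjSum, card_product, card_univ, Fintype.card_fin]
      push_cast
      rw [cj, ck]
      have h1 : (16 : ℝ) ≤ DD j := by
        have := Ru_pos j
        have h2 : 16 ≤ DD j := by unfold DD; omega
        exact_mod_cast h2
      have h2 : (Del (j + 1) : ℝ) ^ 2 = (Del j : ℝ) ^ 2 * (DD j : ℝ) ^ 2 := by
        rw [Del_succ]
        push_cast
        ring
      have h3 : (Del j : ℝ) ^ 2 * 4 ≤ (Del j : ℝ) ^ 2 * (DD j : ℝ) ^ 2 :=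
        mul_le_mul_of_nonneg_left (by nlinarith) dj.le
      linarith)
  refine ⟨ξ', g1, fun g hg => ?_, fun g hg => ?_, fun g hg => ?_, fun g hg t => ?_, fun g hg => ?_⟩
  · refine le_trans (card_le_card fun i hi => ?_) (g2 (Sum.inl g) (inl_mem_disjSum.2 hg))
    obtain ⟨h1, h2⟩ := mem_filter.1 hi
    exact mem_filter.2 ⟨h1, mem_filter.2 ⟨g1 i (mem_range.1 h1), h2⟩⟩
  · refine le_trans (card_le_card fun i hi => ?_)
      (g2 (Sum.inr (Sum.inl g)) (inr_mem_disjSum.2 (inl_mem_disjSum.2 hg)))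
    obtain ⟨h1, h2⟩ := mem_filter.1 hi
    exact mem_filter.2 ⟨h1, mem_filter.2 ⟨g1 i (mem_range.1 h1), h2⟩⟩
  · refine le_trans (card_le_card fun i hi => ?_)
      (g2 (Sum.inr (Sum.inr g)) (inr_mem_disjSum.2 (inr_mem_disjSum.2 hg)))
    obtain ⟨h1, h2⟩ := mem_filter.1 hi
    exact mem_filter.2 ⟨h1, mem_filter.2 ⟨g1 i (mem_range.1 h1), h2⟩⟩
  · obtain ⟨h1, h2⟩ := g3 (g, t) (mem_product.2 ⟨hg, mem_univ _⟩)
    exact ⟨le_trans (by linarith) h1, le_trans h2 (by linarith)⟩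
  · exact le_trans (g4 g hg) (by linarith)

theorem types_step {j : ℕ} (hk : k0 ≤ j + 1) {m : ℕ} (hm : m ≤ mm j) (ξ : ℕ → ℕ → ℕ)
    (hb : ∀ i < m, ∀ s < 2 * j, ξ i s < DD (s / 2))
    (hd : ∀ g ∈ Box (2 * j) DD, ∀ ξ₀ : ℕ → ℕ, (∀ s < 2 * j, ξ₀ s < DD (s / 2)) →
      #{i ∈ range m | ym j g ξ₀ (ξ i) ∈ SS j} ≤ yy (j + 1)) :
    ∃ ξ', Own (j + 1) ξ' ∧ Cross j m ξ ξ' := by
  obtain ⟨ξ', g1, g2, g2', g3, g4, g5⟩ := T3TypAb_seq hk ξ hb hd
  have dk : (0 : ℝ) < Del (j + 1) := by exact_mod_cast Del_pos _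
  have m2 : (2 : ℝ) ≤ mm (j + 1) := by exact_mod_cast mm_two (hk.trans (Nat.le_succ _))
  have hm' : (m : ℝ) ≤ mm j := by exact_mod_cast hm
  have pr : ∀ g t, ∑ q ∈ range (mm (j + 1)) ×ˢ range (mm (j + 1)),
      T3TypAb_F (j + 1) t (ym (j + 1) g (ξ' q.1) (ξ' q.2)) =
      2 * ∑ i' ∈ range (mm (j + 1)), ∑ i ∈ range i',
        T3TypAb_F (j + 1) t (ym (j + 1) g (ξ' i) (ξ' i')) +
      ∑ i ∈ range (mm (j + 1)), T3TypAb_F (j + 1) t (ym (j + 1) g (ξ' i) (ξ' i)) := fun g t =>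
    T3TypAb_pairs (fun a b => T3TypAb_F (j + 1) t (ym (j + 1) g (ξ' a) (ξ' b)))
      (fun a b => by rw [ym_comm]) _
  have dg : ∀ g ∈ Box (2 * (j + 1)) DD, ∀ t, ∑ i ∈ range (mm (j + 1)),
      T3TypAb_F (j + 1) t (ym (j + 1) g (ξ' i) (ξ' i)) ≤ yy (j + 1) := by
    intro g hg t
    refine (T3TypAb_le _ (fun i => ym (j + 1) g (ξ' i) (ξ' i) ∈ SS (j + 1)) _
      (fun _ _ => (T3TypAb_F_ok hk _ _).2.1)
      fun i _ h => (T3TypAb_F_ok hk _ _).2.2 (ym_mem _ _ _ _) h).trans ?_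
    exact_mod_cast g3 g hg
  refine ⟨ξ', ⟨g1, ?_, fun g hg => ?_, fun g hg => ?_⟩, fun g hg => ?_⟩
  · rintro j' (h | h) g hg ξ₀ h0
    · subst h
      refine le_trans (card_le_card fun i hi => ?_)
        (g2' (ym (j + 1) g ξ₀ fun _ => 0) (ym_mem _ _ _ _))
      obtain ⟨h1, h2⟩ := mem_filter.1 hi
      rw [ym_shift (j + 1) h0 (mem_Box.1 (g1 i (mem_range.1 h1))).1] at h2
      exact mem_filter.2 ⟨h1, h2⟩
    · obtain rfl : j = j' := by omega
      refine le_trans (card_le_card fun i hi => ?_) (g2 (ym j g ξ₀ fun _ => 0) (ym_mem _ _ _ _))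
      obtain ⟨h1, h2⟩ := mem_filter.1 hi
      rw [ym_shift j h0 fun s hs => (mem_Box.1 (g1 i (mem_range.1 h1))).1 s (by omega)] at h2
      exact mem_filter.2 ⟨h1, h2⟩
  · have h1 : ∑ q ∈ range (mm (j + 1)) ×ˢ range (mm (j + 1)),
        T3TypAb_F (j + 1) 0 (ym (j + 1) g (ξ' q.1) (ξ' q.2)) =
        (#{q ∈ range (mm (j + 1)) ×ˢ range (mm (j + 1)) |
          ym (j + 1) g (ξ' q.1) (ξ' q.2) ∈ SS (j + 1)} : ℕ) := sum_boole _ _
    have h2 : ∑ y ∈ Box (2 * (j + 1)) DD, T3TypAb_F (j + 1) 0 y = (SS (j + 1)).card :=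
      T3TypAb_ind _
    have h3 := (g4 g hg 0).2
    have h4 := dg g hg 0
    have h5 := list_self hk
    rw [h2] at h3
    rw [pr] at h1
    have h6 : ((#{q ∈ range (mm (j + 1)) ×ˢ range (mm (j + 1)) |
          ym (j + 1) g (ξ' q.1) (ξ' q.2) ∈ SS (j + 1)} : ℕ) : ℝ) ≤ Lam (j + 1) := by linarith
    exact_mod_cast h6
  · have h3 := (g4 g hg 1).1
    have h4 : 0 ≤ ∑ i ∈ range (mm (j + 1)),
        T3TypAb_F (j + 1) 1 (ym (j + 1) g (ξ' i) (ξ' i)) :=
      sum_nonneg fun _ _ => (T3TypAb_F_ok hk _ _).1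
    have h5 := T3TypAb_low dk (lam_pos _).le m2 (mm_ge (j + 1)) (Gm_sum _)
    have h7 := pr g 1
    have hG := Gb_pos (j + 1)
    have h1 : ∑ q ∈ range (mm (j + 1)) ×ˢ range (mm (j + 1)),
        T3TypAb_F (j + 1) 1 (ym (j + 1) g (ξ' q.1) (ξ' q.2)) =
        (∑ q ∈ range (mm (j + 1)) ×ˢ range (mm (j + 1)),
          Gm (j + 1) (ym (j + 1) g (ξ' q.1) (ξ' q.2))) / Gb (j + 1) := (sum_div _ _ _).symm
    have h2 : ∑ y ∈ Box (2 * (j + 1)) DD, T3TypAb_F (j + 1) 1 y =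
        (∑ y ∈ Box (2 * (j + 1)) DD, Gm (j + 1) y) / Gb (j + 1) := (sum_div _ _ _).symm
    have h6 : (yy (j + 1) : ℝ) ^ (2 * ka + 3) = lam (j + 1) ^ 2 / Gb (j + 1) := by
      rw [eq_div_iff hG.ne', lam_sq, Gb]
      ring
    have h8 := div_le_div_of_nonneg_right h5 hG.le
    rw [h2, h6, div_right_comm, div_mul_eq_mul_div _ (Gb (j + 1))] at h3
    rw [h1] at h7
    rw [div_right_comm] at h8
    have h9 : 0 ≤ lam (j + 1) ^ 2 / Gb (j + 1) := by positivity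
    refine (div_le_div_iff_of_pos_right hG).1 ?_
    rw [div_right_comm]
    linarith
  · have h1 : ∑ q ∈ range m ×ˢ range (mm (j + 1)), T3TypAb_E j (ym j g (ξ q.1) (ξ' q.2)) =
        (#{q ∈ range m ×ˢ range (mm (j + 1)) | ym j g (ξ q.1) (ξ' q.2) ∈ SS j} : ℕ) :=
      sum_boole _ _
    have h2 : ∑ y ∈ Box (2 * j) DD, T3TypAb_E j y = (SS j).card := T3TypAb_ind _
    have h3 := g5 g hg
    have h5 := list_cross hk
    rw [h2, ← sum_product_right (range m) (range (mm (j + 1)))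
      fun q => T3TypAb_E j (ym j g (ξ q.1) (ξ' q.2)), h1] at h3
    have h4 : 2 * (mm (j + 1) : ℝ) * (m * ((SS j).card : ℝ) / (Del j : ℝ) ^ 2) ≤
        2 * mm (j + 1) * (mm j * ((SS j).card : ℝ) / (Del j : ℝ) ^ 2) := by gcongr
    have h6 : ((#{q ∈ range m ×ˢ range (mm (j + 1)) | ym j g (ξ q.1) (ξ' q.2) ∈ SS j} : ℕ) : ℝ) ≤
        Lam (j + 1) := by linarith
    exact_mod_cast h6

theorem T3TypA_start : ∃ ξ, Own k0 ξ := by
  have h0 := k0_pos
  obtain ⟨j, hj⟩ : ∃ j, k0 = j + 1 := ⟨k0 - 1, by omega⟩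
  obtain ⟨ξ', h, -⟩ := types_step (j := j) hj.le (m := 0) (Nat.zero_le _) (fun _ _ => 0)
    (fun i hi => absurd hi (Nat.not_lt_zero i)) (fun g _ ξ₀ _ => by simp)
  exact ⟨ξ', hj ▸ h⟩

theorem T3TypA_step (j : ℕ) (ξ : ℕ → ℕ → ℕ) :
    ∃ ξ', k0 ≤ j → Own j ξ → Own (j + 1) ξ' ∧ Cross j (mm j) ξ ξ' := by
  by_cases h : k0 ≤ j ∧ Own j ξ
  · obtain ⟨hj, ho⟩ := h
    obtain ⟨ξ', h'⟩ := types_step (j := j) (by omega) (m := mm j) le_rfl ξ
      (fun i hi => (mem_Box.1 (ho.box i hi)).1)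
      (fun g hg ξ₀ h₀ => (ho.deg j (Or.inl rfl) g hg ξ₀ h₀).trans (yy_mono (Nat.le_succ j)))
    exact ⟨ξ', fun _ _ => h'⟩
  · exact ⟨ξ, fun h1 h2 => absurd ⟨h1, h2⟩ h⟩

theorem exists_types : ∃ ξ, Types ξ := by
  obtain ⟨ξ₀, h₀⟩ := T3TypA_start
  obtain ⟨t, ht⟩ := T3TypA_rec k0 Own (fun j => Cross j (mm j)) h₀ T3TypA_step
  refine ⟨t, fun k hk => (ht k hk).1.box, fun j k hk h => (ht k hk).1.deg j h,
    fun j k hj h => ?_, fun k hk => (ht k hk).1.low⟩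
  rcases h with rfl | rfl
  · exact (ht k hj).1.list
  · exact (ht j hj).2

end Pool.Agent.P.MP_d5a1e1_nt.T3
end

-- part Pool.Agent.P.MP_d5a1e1_nt.TBCut
section

/-! The schedule of cuts: pieces are merged lazily. -/

namespace Pool.Agent.P.MP_d5a1e1_nt.TB

namespace Sch

/-- The largest `v` with `C ^ v ∣ q` (for `q > 0`, `C ≥ 2`). -/
def lv (C q : ℕ) : ℕ := Nat.findGreatest (fun v => C ^ v ∣ q) q

/-- The delay of level `v`. -/
def dl (C v : ℕ) : ℕ := if v = 0 then 1 else 1 + C ^ (v - 1)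

/-- `q` is a cut at time `k`. -/
def Cut (C k q : ℕ) : Prop :=
  q = 0 ∨ q = C ^ lv C q ∨ k < q + C ^ lv C q + dl C (lv C q)

instance (C k q : ℕ) : Decidable (Cut C k q) := by unfold Cut; infer_instance

/-- `[a, b)` is a piece of time `k`. -/
def Piece (C k a b : ℕ) : Prop :=
  a < k ∧ a < b ∧ Cut C k a ∧ Cut C k b ∧ ∀ q, a < q → q < b → ¬ Cut C k q

theorem dl_pos (C v : ℕ) : 1 ≤ dl C v := by
  unfold dl; split_ifs <;> omega

theorem dl_lt {C : ℕ} (hC : 2 ≤ C) {v w : ℕ} (h : v < w) : dl C v < dl C w := by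
  unfold dl
  have hw : w ≠ 0 := by omega
  rw [if_neg hw]
  split_ifs with hv
  · have := Nat.one_le_pow (w - 1) C (by omega)
    omega
  · have : C ^ (v - 1) < C ^ (w - 1) := Nat.pow_lt_pow_right (by omega) (by omega)
    omega

theorem dl_mono {C : ℕ} (hC : 2 ≤ C) {v w : ℕ} (h : v ≤ w) : dl C v ≤ dl C w := by
  rcases h.eq_or_lt with rfl | h
  · exact le_rfl
  · exact (dl_lt hC h).le

theorem dl_le_pow {C : ℕ} (hC : 2 ≤ C) (v : ℕ) : dl C v ≤ C ^ v := by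
  unfold dl
  split_ifs with hv
  · subst hv; simp
  · obtain ⟨u, rfl⟩ : ∃ u, v = u + 1 := ⟨v - 1, by omega⟩
    have h1 := Nat.one_le_pow u C (by omega)
    simp only [Nat.add_sub_cancel, pow_succ]
    nlinarith

theorem pow_lv_dvd (C q : ℕ) : C ^ lv C q ∣ q :=
  Nat.findGreatest_spec (P := fun v => C ^ v ∣ q) (Nat.zero_le q) (by simp)

theorem le_lv {C q v : ℕ} (hC : 2 ≤ C) (hq : 0 < q) (h : C ^ v ∣ q) : v ≤ lv C q := by
  refine Nat.le_findGreatest (P := fun v => C ^ v ∣ q) ?_ h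
  have h1 : C ^ v ≤ q := Nat.le_of_dvd hq h
  have h2 : v < C ^ v := Nat.lt_pow_self (by omega)
  omega

theorem dvd_iff_le_lv {C q v : ℕ} (hC : 2 ≤ C) (hq : 0 < q) : C ^ v ∣ q ↔ v ≤ lv C q :=
  ⟨le_lv hC hq, fun h => (pow_dvd_pow C h).trans (pow_lv_dvd C q)⟩

theorem lv_pow {C : ℕ} (hC : 2 ≤ C) (v : ℕ) : lv C (C ^ v) = v := by
  have hp : 0 < C ^ v := by positivity
  apply le_antisymm _ (le_lv hC hp dvd_rfl)
  have := Nat.le_of_dvd hp (pow_lv_dvd C (C ^ v))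
  exact (Nat.pow_le_pow_iff_right (by omega)).1 this

theorem pow_lv_le {C q : ℕ} (hq : 0 < q) : C ^ lv C q ≤ q := Nat.le_of_dvd hq (pow_lv_dvd C q)

theorem cut_zero (C k : ℕ) : Cut C k 0 := Or.inl rfl

theorem cut_pow {C : ℕ} (hC : 2 ≤ C) (k v : ℕ) : Cut C k (C ^ v) :=
  Or.inr (Or.inl (by rw [lv_pow hC]))

/-- S0: cuts only disappear. -/
theorem Cut.mono {C j k q : ℕ} (h : Cut C k q) (hjk : j ≤ k) : Cut C j q := by
  rcases h with h | h | h
  · exact Or.inl h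
  · exact Or.inr (Or.inl h)
  · exact Or.inr (Or.inr (by omega))

/-- S0: every `q ≥ k - 1` is a cut. -/
theorem cut_of_le {C k q : ℕ} (hC : 1 ≤ C) (h : k ≤ q + 1) : Cut C k q := by
  have h1 := Nat.one_le_pow (lv C q) C hC
  have h2 := dl_pos C (lv C q)
  exact Or.inr (Or.inr (by omega))

theorem add_le_of_dvd {d x y : ℕ} (hx : d ∣ x) (hy : d ∣ y) (h : x < y) : x + d ≤ y := by
  obtain ⟨a, rfl⟩ := hx
  obtain ⟨b, rfl⟩ := hy
  have : a < b := lt_of_mul_lt_mul_left h (Nat.zero_le d)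
  calc d * a + d = d * (a + 1) := by ring
    _ ≤ d * b := Nat.mul_le_mul_left d this

/-- S1: few cuts below `k`. -/
theorem card_cuts {C : ℕ} (hC : 2 ≤ C) (k : ℕ) :
    ((Finset.range k).filter (Cut C k)).card ≤ 3 * (Nat.log C k + 1) + 1 := by
  classical
  set L := Nat.log C k + 1
  have hsub : (Finset.range k).filter (Cut C k) ⊆ insert 0 ((Finset.range L).biUnion fun v =>
      ({C ^ v, (k - 1) / C ^ v * C ^ v, (k - 1) / C ^ v * C ^ v - C ^ v} : Finset ℕ)) := by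
    intro q hq
    rw [Finset.mem_filter, Finset.mem_range] at hq
    obtain ⟨hk, hc⟩ := hq
    rcases Nat.eq_zero_or_pos q with rfl | hq0
    · simp
    refine Finset.mem_insert_of_mem (Finset.mem_biUnion.2 ⟨lv C q, ?_, ?_⟩)
    · rw [Finset.mem_range]
      have := Nat.le_log_of_pow_le (b := C) (by omega) ((pow_lv_le (C := C) hq0).trans hk.le)
      omega
    · rcases hc with h | h | h
      · omega
      · simp only [Finset.mem_insert]; exact Or.inl h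
      · simp only [Finset.mem_insert, Finset.mem_singleton]
        right
        have hd := dl_le_pow hC (lv C q)
        obtain ⟨m, hm⟩ := pow_lv_dvd C q
        set d := C ^ lv C q with hdd
        have hdp : 0 < d := by positivity
        have h1 : m ≤ (k - 1) / d := by
          rw [Nat.le_div_iff_mul_le hdp]; rw [mul_comm]; omega
        have h2 : (k - 1) / d < m + 2 := by
          rw [Nat.div_lt_iff_lt_mul hdp]
          have : (m + 2) * d = d * m + d + d := by ring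
          omega
        have h3 : (k - 1) / d = m ∨ (k - 1) / d = m + 1 := by omega
        rcases h3 with h3 | h3
        · left; rw [h3, hm, mul_comm]
        · right; rw [h3, hm, add_mul, one_mul, Nat.add_sub_cancel, mul_comm]
  calc _ ≤ _ := Finset.card_le_card hsub
    _ ≤ _ + 1 := Finset.card_insert_le _ _
    _ ≤ 3 * L + 1 := by
      refine Nat.add_le_add_right ?_ 1
      calc _ ≤ _ := Finset.card_biUnion_le
        _ ≤ ∑ _v ∈ Finset.range L, 3 := Finset.sum_le_sum fun v _ => Finset.card_le_three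
        _ = 3 * L := by simp [mul_comm]

/-- The first cut of time `k` after `a`. -/
def nx (C k a : ℕ) : ℕ :=
  Nat.find (p := fun q => a < q ∧ (Cut C k q ∨ k < q)) ⟨a + k + 1, by omega, Or.inr (by omega)⟩

/-- The last cut of time `k` that is at most `u`. -/
def st (C k u : ℕ) : ℕ := Nat.findGreatest (Cut C k) u

theorem lt_nx (C k a : ℕ) : a < nx C k a :=
  (Nat.find_spec (p := fun q => a < q ∧ (Cut C k q ∨ k < q)) _).1

theorem cut_nx {C : ℕ} (hC : 1 ≤ C) (k a : ℕ) : Cut C k (nx C k a) := by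
  rcases (Nat.find_spec (p := fun q => a < q ∧ (Cut C k q ∨ k < q))
    ⟨a + k + 1, by omega, Or.inr (by omega)⟩).2 with h | h
  · exact h
  · exact cut_of_le hC (by unfold nx; omega)

theorem nx_le {C k a q : ℕ} (h : a < q) (hq : Cut C k q) : nx C k a ≤ q :=
  Nat.find_min' _ ⟨h, Or.inl hq⟩

theorem not_cut_of_lt_nx {C k a q : ℕ} (h : a < q) (hq : q < nx C k a) : ¬ Cut C k q :=
  fun hc => absurd (nx_le h hc) (by omega)

theorem nx_le_time {C k a : ℕ} (hC : 1 ≤ C) (h : a < k) : nx C k a ≤ k :=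
  nx_le h (cut_of_le hC (by omega))

theorem nx_mono {C j k : ℕ} (hC : 1 ≤ C) (hjk : j ≤ k) (a : ℕ) : nx C j a ≤ nx C k a :=
  nx_le (lt_nx C k a) ((cut_nx hC k a).mono hjk)

theorem st_le (C k u : ℕ) : st C k u ≤ u := Nat.findGreatest_le u

theorem cut_st (C k u : ℕ) : Cut C k (st C k u) :=
  Nat.findGreatest_spec (Nat.zero_le u) (cut_zero C k)

theorem le_st {C k u q : ℕ} (h : q ≤ u) (hq : Cut C k q) : q ≤ st C k u :=
  Nat.le_findGreatest h hq

theorem st_anti {C j k : ℕ} (hjk : j ≤ k) (u : ℕ) : st C k u ≤ st C j u :=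
  le_st (st_le C k u) ((cut_st C k u).mono hjk)

theorem piece_iff {C k a b : ℕ} (hC : 1 ≤ C) :
    Piece C k a b ↔ a < k ∧ Cut C k a ∧ b = nx C k a := by
  constructor
  · rintro ⟨h1, h2, h3, h4, h5⟩
    refine ⟨h1, h3, le_antisymm ?_ (nx_le h2 h4)⟩
    by_contra hlt
    exact h5 _ (lt_nx C k a) (by omega) (cut_nx hC k a)
  · rintro ⟨h1, h2, rfl⟩
    exact ⟨h1, lt_nx C k a, h2, cut_nx hC k a, fun q => not_cut_of_lt_nx⟩

theorem piece_nx {C k a : ℕ} (hC : 1 ≤ C) (h : a < k) (hc : Cut C k a) :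
    Piece C k a (nx C k a) := (piece_iff hC).2 ⟨h, hc, rfl⟩

theorem Piece.le_time {C k a b : ℕ} (hC : 1 ≤ C) (h : Piece C k a b) : b ≤ k := by
  obtain ⟨h1, -, rfl⟩ := (piece_iff hC).1 h
  exact nx_le_time hC h1

theorem lt_nx_st {C : ℕ} (hC : 1 ≤ C) (k u : ℕ) : u < nx C k (st C k u) := by
  by_contra h
  have h1 := le_st (not_lt.1 h) (cut_nx hC k (st C k u))
  have h2 := lt_nx C k (st C k u)
  omega

/-- Every `u < k` lies in the piece that starts at `st C k u`. -/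
theorem piece_st {C k u : ℕ} (hC : 1 ≤ C) (h : u < k) :
    Piece C k (st C k u) (nx C k (st C k u)) :=
  piece_nx hC (lt_of_le_of_lt (st_le C k u) h) (cut_st C k u)

theorem Piece.st_eq {C k a b u : ℕ} (h : Piece C k a b) (h1 : a ≤ u) (h2 : u < b) :
    st C k u = a := by
  apply le_antisymm _ (le_st h1 h.2.2.1)
  by_contra hlt
  exact h.2.2.2.2 _ (not_le.1 hlt) (lt_of_le_of_lt (st_le C k u) h2) (cut_st C k u)

/-- Pieces of an earlier time refine pieces of a later time. -/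
theorem Piece.refine {C j k a b u : ℕ} (h : Piece C k a b) (hjk : j ≤ k)
    (h1 : a ≤ u) (h2 : u < b) : a ≤ st C j u ∧ nx C j (st C j u) ≤ b :=
  ⟨le_st h1 (h.2.2.1.mono hjk),
    nx_le (lt_of_le_of_lt (st_le C j u) h2) (h.2.2.2.1.mono hjk)⟩

/-- S2: a piece ends at most at `C ^ (log a + 1)`. -/
theorem Piece.end_le {C k a b : ℕ} (hC : 2 ≤ C) (h : Piece C k a b) :
    b ≤ C ^ (Nat.log C a + 1) := by
  obtain ⟨-, -, rfl⟩ := (piece_iff (by omega)).1 h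
  exact nx_le (Nat.lt_pow_succ_log_self (by omega) a) (cut_pow hC k _)

/-- S2: a piece lies in one epoch. -/
theorem Piece.log_eq {C k a b u : ℕ} (hC : 2 ≤ C) (h : Piece C k a b) (h1 : a ≤ u)
    (h2 : u < b) : Nat.log C u = Nat.log C a := by
  apply le_antisymm _ (Nat.log_mono_right h1)
  have h3 := lt_of_lt_of_le h2 (h.end_le hC)
  rcases Nat.eq_zero_or_pos u with rfl | hu
  · simp
  · exact Nat.lt_succ_iff.1 (Nat.log_lt_of_lt_pow hu.ne' h3)

/-- The left end of the merged piece made when the cut `q` is removed. -/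
def lf (C q : ℕ) : ℕ :=
  if q < C ^ (lv C q + 1) then C ^ lv C q else q / C ^ (lv C q + 1) * C ^ (lv C q + 1)

theorem removed_eq {C k q : ℕ} (h : Cut C k q) (h' : ¬ Cut C (k + 1) q) :
    0 < q ∧ q ≠ C ^ lv C q ∧ q + C ^ lv C q + dl C (lv C q) = k + 1 := by
  unfold Cut at h h'
  omega

theorem removed_right {C k q : ℕ} (hC : 2 ≤ C) (h : Cut C k q) (h' : ¬ Cut C (k + 1) q) :
    Cut C (k + 1) (q + C ^ lv C q) ∧ ∀ r, q < r → r < q + C ^ lv C q → ¬ Cut C k r := by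
  obtain ⟨hq, hne, he⟩ := removed_eq h h'
  have hd : C ^ lv C q ∣ q + C ^ lv C q := dvd_add (pow_lv_dvd C q) dvd_rfl
  constructor
  · have h1 := dl_mono hC (le_lv hC (by omega) hd)
    have h2 := Nat.one_le_pow (lv C (q + C ^ lv C q)) C (by omega)
    exact Or.inr (Or.inr (by omega))
  · intro r h1 h2 hc
    have hlt : lv C r < lv C q := by
      by_contra hge
      have := add_le_of_dvd (pow_lv_dvd C q)
        ((dvd_iff_le_lv hC (by omega)).2 (not_lt.1 hge)) h1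
      omega
    have h3 := add_le_of_dvd (pow_lv_dvd C r) ((pow_dvd_pow C hlt.le).trans hd) h2
    have h4 := dl_lt hC hlt
    have h5 : C ^ lv C r < C ^ lv C q := Nat.pow_lt_pow_right (by omega) hlt
    have h6 := pow_lv_le (C := C) hq
    rcases hc with hc | hc | hc <;> omega

theorem removed_left {C k q : ℕ} (hC : 2 ≤ C) (h : Cut C k q) (h' : ¬ Cut C (k + 1) q) :
    Cut C (k + 1) (lf C q) ∧ (∀ r, lf C q < r → r < q → ¬ Cut C k r) ∧
      ∃ μ, 1 ≤ μ ∧ μ < C ∧ q = lf C q + μ * C ^ lv C q := by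
  obtain ⟨hq, hne, he⟩ := removed_eq h h'
  set v := lv C q with hv
  have hvd : C ^ v ∣ q := pow_lv_dvd C q
  have hnd : ¬ C ^ (v + 1) ∣ q := fun hd => by
    have := le_lv hC hq hd
    omega
  have hp1 : 0 < C ^ (v + 1) := by positivity
  have hp0 : 0 < C ^ v := by positivity
  have hvq : C ^ v ≤ q := Nat.le_of_dvd hq hvd
  have hstep : C ^ v ∣ C ^ (v + 1) := pow_dvd_pow C (by omega)
  -- the window
  obtain ⟨A, hA, hAq, hqA, hlf⟩ : ∃ A, C ^ (v + 1) ∣ A ∧ A < q ∧ q < A + C ^ (v + 1) ∧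
      ((A = 0 ∧ lf C q = C ^ v) ∨ (0 < A ∧ lf C q = A)) := by
    refine ⟨q / C ^ (v + 1) * C ^ (v + 1), Dvd.intro_left _ rfl, ?_, ?_, ?_⟩
    · refine lt_of_le_of_ne (Nat.div_mul_le_self _ _) fun e => hnd ?_
      rw [← e]; exact Dvd.intro_left _ rfl
    · exact Nat.lt_div_mul_add hp1
    · unfold lf
      rw [← hv]
      split_ifs with hlt
      · left; exact ⟨by rw [Nat.div_eq_of_lt hlt, zero_mul], rfl⟩
      · right
        exact ⟨Nat.mul_pos (Nat.div_pos (not_lt.1 hlt) hp1) hp1, rfl⟩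
  have hlfd : C ^ v ∣ lf C q := by
    rcases hlf with ⟨-, e⟩ | ⟨-, e⟩ <;> rw [e]
    exact hstep.trans hA
  have hlfq : lf C q < q := by
    rcases hlf with ⟨-, e⟩ | ⟨-, e⟩ <;> rw [e]
    · omega
    · exact hAq
  have hAlf : A ≤ lf C q ∧ C ^ v ≤ lf C q := by
    rcases hlf with ⟨e0, e⟩ | ⟨e0, e⟩ <;> rw [e]
    · omega
    · exact ⟨le_rfl, Nat.le_of_dvd e0 (hstep.trans hA)⟩
  refine ⟨?_, ?_, ?_⟩
  · rcases hlf with ⟨-, e⟩ | ⟨e0, e⟩ <;> rw [e]
    · exact cut_pow hC _ _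
    · have h1 := le_lv hC e0 hA
      have h2 := dl_lt hC (show v < lv C A by omega)
      have h3 : C ^ (v + 1) ≤ C ^ lv C A := Nat.pow_le_pow_right (by omega) h1
      have h4 := add_le_of_dvd hvd (hstep.trans (dvd_add hA dvd_rfl)) hqA
      exact Or.inr (Or.inr (by omega))
  · intro r h1 h2 hc
    have hle : lv C r ≤ v := by
      by_contra hge
      have := add_le_of_dvd hA ((dvd_iff_le_lv hC (by omega)).2 (not_le.1 hge))
        (show A < r by omega)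
      omega
    have h3 := add_le_of_dvd (pow_lv_dvd C r) ((pow_dvd_pow C hle).trans hvd) h2
    have h4 := dl_mono hC hle
    have h5 : C ^ lv C r ≤ C ^ v := Nat.pow_le_pow_right (by omega) hle
    rcases hc with hc | hc | hc <;> omega
  · obtain ⟨μ, hμ⟩ := (Nat.dvd_sub hvd hlfd)
    refine ⟨μ, ?_, ?_, ?_⟩
    · rcases Nat.eq_zero_or_pos μ with rfl | h0
      · omega
      · exact h0
    · have : C ^ v * μ < C ^ v * C := by rw [← pow_succ]; omega
      exact lt_of_mul_lt_mul_left this (Nat.zero_le _)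
    · rw [mul_comm]; omega

/-- At most two cuts are removed in one step. -/
theorem removed_cases {C k q : ℕ} (hC : 2 ≤ C) (h : Cut C k q) (h' : ¬ Cut C (k + 1) q) :
    q = k - 1 ∨ q = k - C ^ (lv C k + 1) - C ^ lv C k := by
  obtain ⟨hq, hne, he⟩ := removed_eq h h'
  rcases Nat.eq_zero_or_pos (lv C q) with h0 | h0
  · left
    rw [h0] at he
    simp [dl] at he
    omega
  · right
    obtain ⟨u, hu⟩ : ∃ u, lv C q = u + 1 := ⟨lv C q - 1, by omega⟩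
    have hd := pow_lv_dvd C q
    rw [hu] at he hd
    have he' : k = q + C ^ (u + 1) + C ^ u := by
      simp [dl] at he
      omega
    have hk : 0 < k := by omega
    have hs : C ^ u ∣ C ^ (u + 1) := pow_dvd_pow C (by omega)
    have h1 : u ≤ lv C k := le_lv hC hk (by
      rw [he']; exact dvd_add (dvd_add (hs.trans hd) hs) dvd_rfl)
    have h2 : lv C k ≤ u := by
      by_contra hge
      have h3 : C ^ (u + 1) ∣ k := (dvd_iff_le_lv hC hk).2 (by omega)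
      rw [he'] at h3
      have h4 := (Nat.dvd_add_right (dvd_add hd dvd_rfl)).1 h3
      have h5 := Nat.le_of_dvd (by positivity) h4
      have h6 : C ^ u < C ^ (u + 1) := Nat.pow_lt_pow_right (by omega) (by omega)
      omega
    have : lv C k = u := le_antisymm h2 h1
    rw [this]; omega

/-- The at most two left ends of merged pieces of the step from `k` to `k + 1`. -/
def mg (C k : ℕ) : Finset ℕ := {lf C (k - 1), lf C (k - C ^ (lv C k + 1) - C ^ lv C k)}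

theorem card_mg (C k : ℕ) : (mg C k).card ≤ 2 := Finset.card_le_two

/-- S4. -/
theorem Piece.step {C k a b : ℕ} (hC : 2 ≤ C) (h : Piece C (k + 1) a b) (hb : b ≤ k) :
    Piece C k a b ∨ (a ∈ mg C k ∧ ∃ v μ, 1 ≤ μ ∧ μ < C ∧ b = a + (μ + 1) * C ^ v ∧
      Piece C k a (a + μ * C ^ v) ∧ Piece C k (a + μ * C ^ v) b) := by
  obtain ⟨h1, h2, h3, h4, h5⟩ := h
  by_cases hall : ∀ q, a < q → q < b → ¬ Cut C k q
  · exact Or.inl ⟨by omega, h2, h3.mono (by omega), h4.mono (by omega), hall⟩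
  right
  push Not at hall
  obtain ⟨q, ha, hqb, hc⟩ := hall
  have hn := h5 q ha hqb
  obtain ⟨r1, r2⟩ := removed_right hC hc hn
  obtain ⟨l1, l2, μ, m1, m2, m3⟩ := removed_left hC hc hn
  have hp0 : 0 < C ^ lv C q := by positivity
  have hμ : 0 < μ * C ^ lv C q := Nat.mul_pos m1 hp0
  have ea : a = lf C q := by
    rcases lt_trichotomy a (lf C q) with e | e | e
    · exact absurd l1 (h5 _ e (by omega))
    · exact e
    · exact absurd (h3.mono (by omega)) (l2 a e ha)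
  have eb : b = q + C ^ lv C q := by
    rcases lt_trichotomy b (q + C ^ lv C q) with e | e | e
    · exact absurd (h4.mono (by omega)) (r2 b hqb e)
    · exact e
    · exact absurd r1 (h5 _ (by omega) e)
  refine ⟨?_, lv C q, μ, m1, m2, ?_, ?_, ?_⟩
  · unfold mg
    rcases removed_cases hC hc hn with e | e
    · rw [ea, ← e]; simp
    · rw [ea, ← e]; simp
  · rw [add_mul, one_mul]; omega
  · rw [ea, ← m3]
    exact ⟨by omega, by omega, l1.mono (by omega), hc, l2⟩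
  · rw [ea, ← m3, eb]
    exact ⟨by omega, by omega, hc, r1.mono (by omega), r2⟩

/-- The last piece of time `k + 1` is `[k, k + 1)`, all others end at most at `k`. -/
theorem piece_last {C : ℕ} (hC : 1 ≤ C) (k : ℕ) : Piece C (k + 1) k (k + 1) :=
  ⟨by omega, by omega, cut_of_le hC le_rfl, cut_of_le hC (by omega), fun q _ _ => by omega⟩

theorem Piece.end_le_of_lt {C k a b : ℕ} (hC : 1 ≤ C) (h : Piece C (k + 1) a b) (ha : a < k) :
    b ≤ k := by
  by_contra hb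
  exact h.2.2.2.2 k ha (by omega) (cut_of_le hC le_rfl)

end Sch

open Finset

/-- The life time of a cut of level `v`. -/
def life (C : ℕ) : ℕ → ℕ
  | 0 => 2
  | v + 1 => C ^ (v + 1) + 1 + C ^ v

/-- `q` is a cut at time `k`. -/
def Cut (C k q : ℕ) : Prop :=
  q = 0 ∨ (∃ j, q = C ^ j) ∨ ∃ v, C ^ v ∣ q ∧ k < q + life C v

/-- `[a, b)` is a piece at time `k`. -/
def Piece (C k a b : ℕ) : Prop :=
  a < b ∧ b ≤ k ∧ Cut C k a ∧ Cut C k b ∧ ∀ q, a < q → q < b → ¬Cut C k q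

variable {C : ℕ}

theorem cut_zero (k : ℕ) : Cut C k 0 := Or.inl rfl

theorem cut_of_le {k q : ℕ} (h : k ≤ q + 1) : Cut C k q :=
  Or.inr (Or.inr ⟨0, by simp, by simp only [life]; omega⟩)

theorem Cut.mono {j k q : ℕ} (h : Cut C k q) (hjk : j ≤ k) : Cut C j q := by
  rcases h with h | h | ⟨v, h1, h2⟩
  · exact Or.inl h
  · exact Or.inr (Or.inl h)
  · exact Or.inr (Or.inr ⟨v, h1, by omega⟩)

theorem exists_piece {k u : ℕ} (hu : u < k) : ∃ a b, Piece C k a b ∧ a ≤ u ∧ u < b := by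
  classical
  have h1 : ∃ b, u < b ∧ Cut C k b := ⟨k, hu, cut_of_le (by omega)⟩
  have h2 := Nat.find_spec h1
  have h3 : Nat.find h1 ≤ k := Nat.find_min' h1 ⟨hu, cut_of_le (by omega)⟩
  have h4 : Cut C k (Nat.findGreatest (Cut C k) u) :=
    Nat.findGreatest_spec (Nat.zero_le u) (cut_zero k)
  have h5 := Nat.findGreatest_le (P := Cut C k) u
  refine ⟨Nat.findGreatest (Cut C k) u, Nat.find h1, ⟨by omega, h3, h4, h2.2, ?_⟩, h5, h2.1⟩
  intro q q1 q2 hq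
  by_cases h : q ≤ u
  · exact Nat.findGreatest_is_greatest q1 h hq
  · exact Nat.find_min h1 q2 ⟨by omega, hq⟩

theorem Piece.unique {k a b a' b' u : ℕ} (h : Piece C k a b) (h' : Piece C k a' b')
    (h1 : a ≤ u) (h2 : u < b) (h3 : a' ≤ u) (h4 : u < b') : a = a' ∧ b = b' := by
  obtain ⟨-, -, c1, c2, c3⟩ := h
  obtain ⟨-, -, d1, d2, d3⟩ := h'
  constructor
  · by_contra hne
    rcases Nat.lt_or_gt_of_ne hne with h | h
    · exact c3 a' h (by omega) d1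
    · exact d3 a h (by omega) c1
  · by_contra hne
    rcases Nat.lt_or_gt_of_ne hne with h | h
    · exact d3 b (by omega) h c2
    · exact c3 b' (by omega) h d2

theorem piece_top (k : ℕ) : Piece C (k + 1) k (k + 1) :=
  ⟨by omega, le_rfl, cut_of_le le_rfl, cut_of_le (by omega), fun q h1 h2 => by omega⟩

theorem life_eq (C v : ℕ) : life C v = C ^ v + Sch.dl C v := by
  cases v with
  | zero => simp [life, Sch.dl]
  | succ v => simp [life, Sch.dl]; omega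

theorem cut_iff (hC : 2 ≤ C) {k q : ℕ} : Cut C k q ↔ Sch.Cut C k q := by
  constructor
  · rintro (h | ⟨j, rfl⟩ | ⟨v, h1, h2⟩)
    · exact Or.inl h
    · exact Sch.cut_pow hC k j
    · rcases Nat.eq_zero_or_pos q with h0 | h0
      · exact Or.inl h0
      · have h3 := Sch.le_lv hC h0 h1
        have h4 := Sch.dl_mono hC h3
        have h5 : C ^ v ≤ C ^ Sch.lv C q := Nat.pow_le_pow_right (by omega) h3
        rw [life_eq] at h2
        exact Or.inr (Or.inr (by omega))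
  · rintro (h | h | h)
    · exact Or.inl h
    · exact Or.inr (Or.inl ⟨_, h⟩)
    · exact Or.inr (Or.inr ⟨_, Sch.pow_lv_dvd C q, by rw [life_eq]; omega⟩)

theorem piece_iff_sch (hC : 2 ≤ C) {k a b : ℕ} : Piece C k a b ↔ Sch.Piece C k a b := by
  constructor
  · rintro ⟨h1, h2, h3, h4, h5⟩
    exact ⟨by omega, h1, (cut_iff hC).1 h3, (cut_iff hC).1 h4,
      fun q q1 q2 hq => h5 q q1 q2 ((cut_iff hC).2 hq)⟩
  · intro h
    have hb := h.le_time (by omega)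
    obtain ⟨-, h2, h3, h4, h5⟩ := h
    exact ⟨h2, hb, (cut_iff hC).2 h3, (cut_iff hC).2 h4,
      fun q q1 q2 hq => h5 q q1 q2 ((cut_iff hC).1 hq)⟩

/-- S2: a piece lies in one epoch. -/
theorem Piece.log_eq (hC : 2 ≤ C) {k a b u : ℕ} (h : Piece C k a b) (h1 : a ≤ u) (h2 : u < b) :
    Nat.log C u = Nat.log C a :=
  ((piece_iff_sch hC).1 h).log_eq hC h1 h2

theorem Piece.len_le (hC : 2 ≤ C) {k a b : ℕ} (h : Piece C k a b) :
    b - a ≤ C ^ (Nat.log C a + 1) :=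
  (Nat.sub_le b a).trans (((piece_iff_sch hC).1 h).end_le hC)

open Classical in
/-- S1: few cuts. -/
theorem card_cut_le (hC : 2 ≤ C) (k : ℕ) :
    ((range k).filter (Cut C k)).card ≤ 3 * (Nat.log C k + 1) + 1 := by
  refine le_trans (card_le_card fun q hq => ?_) (Sch.card_cuts hC k)
  rw [mem_filter] at hq ⊢
  exact ⟨hq.1, (cut_iff hC).1 hq.2⟩

/-- S4: a piece of time `k + 1` below `k` is an old piece or a merge of two old pieces. -/
theorem Piece.succ (hC : 3 ≤ C) {k a b : ℕ} (h : Piece C (k + 1) a b) (hb : b ≤ k) :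
    Piece C k a b ∨ ∃ v μ, 1 ≤ μ ∧ μ < C ∧ b = a + (μ + 1) * C ^ v ∧
      Piece C k a (a + μ * C ^ v) ∧ Piece C k (a + μ * C ^ v) b := by
  have hC2 : 2 ≤ C := by omega
  rcases ((piece_iff_sch hC2).1 h).step hC2 hb with h1 | ⟨-, v, μ, m1, m2, m3, m4, m5⟩
  · exact Or.inl ((piece_iff_sch hC2).2 h1)
  · exact Or.inr ⟨v, μ, m1, m2, m3, (piece_iff_sch hC2).2 m4, (piece_iff_sch hC2).2 m5⟩

/-- S4: at most two merges per step. -/
theorem card_merge_le (hC : 3 ≤ C) (k : ℕ) (s : Finset ℕ)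
    (hs : ∀ a ∈ s, ∃ b, b ≤ k ∧ Piece C (k + 1) a b ∧ ¬Piece C k a b) : s.card ≤ 2 := by
  have hC2 : 2 ≤ C := by omega
  refine le_trans (card_le_card fun a ha => ?_) (Sch.card_mg C k)
  obtain ⟨b, hb, h1, h2⟩ := hs a ha
  rcases ((piece_iff_sch hC2).1 h1).step hC2 hb with h3 | h3
  · exact absurd ((piece_iff_sch hC2).2 h3) h2
  · exact h3.1

end Pool.Agent.P.MP_d5a1e1_nt.TB
end

-- part Pool.Agent.P.MP_d5a1e1_nt.TBMac
section

/-! A Macaulay matrix bound for perturbed diagonal quadratic systems. -/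

namespace Pool.Agent.P.MP_d5a1e1_nt.TB

open Finset

variable {K : Type*} [Field K] {ι : Type*} [Fintype ι] [DecidableEq ι]

/-- The monomial with exponent vector `α`. -/
def macMon (α : ι → ℕ) (x : ι → K) : K := ∏ i, x i ^ α i

/-- Exponent vectors of degree at most the number of variables. -/
def macLow (ι : Type*) [Fintype ι] [DecidableEq ι] : Finset (ι → ℕ) :=
  (Fintype.piFinset fun _ => range (Fintype.card ι + 1)).filter
    fun α => ∑ i, α i ≤ Fintype.card ι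

/-- Exponent vectors of degree one more than the number of variables. -/
def macTop (ι : Type*) [Fintype ι] [DecidableEq ι] : Finset (ι → ℕ) :=
  (Fintype.piFinset fun _ => range (Fintype.card ι + 2)).filter
    fun α => ∑ i, α i = Fintype.card ι + 1

theorem mac_mem_low {α : ι → ℕ} : α ∈ macLow ι ↔ ∑ i, α i ≤ Fintype.card ι := by
  unfold macLow
  rw [mem_filter, Fintype.mem_piFinset]
  refine ⟨fun h => h.2, fun h => ⟨fun i => mem_range.2 ?_, h⟩⟩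
  have := single_le_sum (f := α) (fun _ _ => Nat.zero_le _) (mem_univ i)
  omega

theorem mac_mem_top {α : ι → ℕ} : α ∈ macTop ι ↔ ∑ i, α i = Fintype.card ι + 1 := by
  unfold macTop
  rw [mem_filter, Fintype.mem_piFinset]
  refine ⟨fun h => h.2, fun h => ⟨fun i => mem_range.2 ?_, h⟩⟩
  have := single_le_sum (f := α) (fun _ _ => Nat.zero_le _) (mem_univ i)
  omega

theorem mac_card_low : (macLow ι).card ≤ (Fintype.card ι + 1) ^ Fintype.card ι := by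
  refine (card_filter_le _ _).trans ?_
  simp [Fintype.card_piFinset]

theorem mac_card_top : (macTop ι).card ≤ (Fintype.card ι + 2) ^ Fintype.card ι := by
  refine (card_filter_le _ _).trans ?_
  simp [Fintype.card_piFinset]

omit [DecidableEq ι] in
theorem macMon_add (α β : ι → ℕ) (x : ι → K) :
    macMon (α + β) x = macMon α x * macMon β x := by
  simp [macMon, pow_add, prod_mul_distrib]

theorem macMon_single (a : ι) (k : ℕ) (x : ι → K) : macMon (Pi.single a k) x = x a ^ k := by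
  unfold macMon
  rw [prod_eq_single a]
  · simp
  · intro b _ hb
    simp [Pi.single_eq_of_ne hb]
  · simp

theorem mac_sum_single (γ : ι → ℕ) (a : ι) (k : ℕ) :
    ∑ i, (γ + Pi.single a k : ι → ℕ) i = ∑ i, γ i + k := by
  simp [sum_add_distrib]

theorem mac_split (α : macTop ι) :
    ∃ p : ι × (ι → ℕ), (α : ι → ℕ) = p.2 + Pi.single p.1 2 := by
  have h := mac_mem_top.1 α.2
  have h2 : ∃ j, 2 ≤ (α : ι → ℕ) j := by
    by_contra hc
    push Not at hc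
    have : ∑ i, (α : ι → ℕ) i ≤ ∑ _i : ι, 1 := sum_le_sum fun i _ => by have := hc i; omega
    simp at this
    omega
  obtain ⟨j, hj⟩ := h2
  refine ⟨(j, fun i => (α : ι → ℕ) i - (Pi.single j 2 : ι → ℕ) i), funext fun i => ?_⟩
  by_cases hi : i = j
  · subst hi
    simp
    omega
  · simp [Pi.single_eq_of_ne hi]

omit [DecidableEq ι] in
/-- A space of functions on a finite set of points that contains `1` and is closed under
multiplication by the coordinates is everything. -/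
theorem mac_top (Z : Finset (ι → K)) (S : Submodule K (Z → K)) (h1 : (1 : Z → K) ∈ S)
    (hx : ∀ i, ∀ g ∈ S, (fun z : Z => (z : ι → K) i) * g ∈ S) : S = ⊤ := by
  classical
  have hd : ∀ z : Z, (fun w : Z => if z = w then (1 : K) else 0) ∈ S := by
    intro z
    have hi : ∀ w : Z, ∃ f : Z → K, (∀ g ∈ S, f * g ∈ S) ∧ f z = 1 ∧ (w ≠ z → f w = 0) := by
      intro w
      by_cases hw : w = z
      · exact ⟨1, fun g hg => by simpa using hg, rfl, fun h => absurd hw h⟩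
      · have hne : (z : ι → K) ≠ (w : ι → K) := fun h => hw (Subtype.ext h).symm
        obtain ⟨i, hi⟩ := Function.ne_iff.1 hne
        have hi' : (z : ι → K) i - (w : ι → K) i ≠ 0 := sub_ne_zero.2 hi
        refine ⟨fun y => ((z : ι → K) i - (w : ι → K) i)⁻¹ * ((y : ι → K) i - (w : ι → K) i),
          fun g hg => ?_, inv_mul_cancel₀ hi', fun _ => by simp⟩
        have := S.smul_mem ((z : ι → K) i - (w : ι → K) i)⁻¹
          (S.sub_mem (hx i g hg) (S.smul_mem ((w : ι → K) i) hg))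
        refine (congrArg (· ∈ S) (funext fun y => ?_)).mp this
        simp only [Pi.smul_apply, Pi.sub_apply, Pi.mul_apply, smul_eq_mul]
        ring
    choose f hf using hi
    have hp : ∀ s : Finset Z, (∏ w ∈ s, f w) ∈ S := by
      intro s
      induction s using Finset.induction_on with
      | empty => simpa using h1
      | insert w s hw ih =>
        rw [prod_insert hw]
        exact (hf w).1 _ ih
    refine (congrArg (· ∈ S) (funext fun y => ?_)).mp (hp univ)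
    rw [Finset.prod_apply]
    split_ifs with h
    · subst h
      exact prod_eq_one fun w _ => (hf w).2.1
    · exact prod_eq_zero (mem_univ y) ((hf y).2.2 fun h' => h h'.symm)
  rw [eq_top_iff]
  intro g _
  rw [pi_eq_sum_univ g]
  exact S.sum_mem fun z _ => S.smul_mem _ (hd z)

/-- The bound for systems `x j ^ 2 + t * G j x + affine = 0`. -/
theorem macaulay_core (G : ι → ι → ι → K) :
    ∃ B : Finset K, B.card ≤ (Fintype.card ι + 2) ^ Fintype.card ι ∧ ∀ t ∉ B,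
      ∀ (l : ι → ι → K) (c₀ : ι → K) (Z : Finset (ι → K)),
        (∀ x ∈ Z, ∀ j, x j ^ 2 + t * ∑ a, ∑ b, G j a b * x a * x b + ∑ a, l j a * x a +
          c₀ j = 0) → Z.card ≤ (Fintype.card ι + 1) ^ Fintype.card ι := by
  classical
  choose p hp using mac_split (ι := ι)
  have hdeg : ∀ α : macTop ι, ∑ i, (p α).2 i + 2 = Fintype.card ι + 1 := by
    intro α
    rw [← mac_sum_single _ (p α).1, ← hp α]
    exact mac_mem_top.1 α.2
  have hβ : ∀ (α : macTop ι) (a b : ι),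
      (p α).2 + Pi.single a 1 + Pi.single b 1 ∈ macTop ι := by
    intro α a b
    rw [mac_mem_top, mac_sum_single, mac_sum_single]
    exact hdeg α
  let A : Matrix (macTop ι) (macTop ι) K := fun α β =>
    ∑ a, ∑ b, if (⟨_, hβ α a b⟩ : macTop ι) = β then G (p α).1 a b else 0
  have hA : ∀ (α : macTop ι) (x : ι → K), ∑ β, A α β * macMon (β : ι → ℕ) x =
      macMon (p α).2 x * ∑ a, ∑ b, G (p α).1 a b * x a * x b := by
    intro α x
    simp only [A, sum_mul]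
    rw [sum_comm, mul_sum]
    refine sum_congr rfl fun a _ => ?_
    rw [sum_comm, mul_sum]
    refine sum_congr rfl fun b _ => ?_
    simp only [ite_mul, zero_mul, sum_ite_eq, mem_univ, if_true]
    rw [macMon_add, macMon_add, macMon_single, macMon_single]
    ring
  let P : Polynomial K :=
    Matrix.det ((Polynomial.X : Polynomial K) • A.map Polynomial.C +
      (1 : Matrix (macTop ι) (macTop ι) K).map Polynomial.C)
  have hP : ∀ t : K, P.eval t = Matrix.det (t • A + 1) := by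
    intro t
    have := RingHom.map_det (Polynomial.evalRingHom t)
      ((Polynomial.X : Polynomial K) • A.map Polynomial.C +
        (1 : Matrix (macTop ι) (macTop ι) K).map Polynomial.C)
    rw [Polynomial.coe_evalRingHom] at this
    rw [this]
    congr 1
    ext α β
    simp only [RingHom.mapMatrix_apply, Matrix.map_apply, Matrix.add_apply, Matrix.smul_apply,
      smul_eq_mul, Polynomial.coe_evalRingHom, Polynomial.eval_add, Polynomial.eval_mul,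
      Polynomial.eval_X, Polynomial.eval_C]
  have hP0 : P ≠ 0 := by
    intro h
    have := hP 0
    rw [h] at this
    simp at this
  refine ⟨P.roots.toFinset, ?_, fun t ht l c₀ Z hZ => ?_⟩
  · calc _ ≤ Multiset.card P.roots := Multiset.toFinset_card_le _
      _ ≤ P.natDegree := Polynomial.card_roots' _
      _ ≤ Fintype.card (macTop ι) := Polynomial.natDegree_det_X_add_C_le _ _
      _ = (macTop ι).card := Fintype.card_coe _
      _ ≤ _ := mac_card_top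
  have hdet : IsUnit (t • A + 1).det := by
    rw [isUnit_iff_ne_zero, ← hP]
    intro h
    exact ht (Multiset.mem_toFinset.2 ((Polynomial.mem_roots hP0).2 h))
  let m : (ι → ℕ) → Z → K := fun γ z => macMon γ (z : ι → K)
  let S : Submodule K (Z → K) := Submodule.span K (Set.range fun γ : macLow ι => m γ)
  have hlow : ∀ γ : ι → ℕ, ∑ i, γ i ≤ Fintype.card ι → m γ ∈ S := fun γ h =>
    Submodule.subset_span ⟨⟨γ, mac_mem_low.2 h⟩, rfl⟩
  have hrow : ∀ α : macTop ι, (∑ β, (t • A + 1) α β • m (β : ι → ℕ)) ∈ S := by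
    intro α
    have h1 : m (p α).2 ∈ S := hlow _ (by have := hdeg α; omega)
    have h2 : ∀ a, m ((p α).2 + Pi.single a 1) ∈ S := fun a =>
      hlow _ (by rw [mac_sum_single]; have := hdeg α; omega)
    have h3 := S.neg_mem (S.add_mem
      (S.sum_mem fun a (_ : a ∈ univ) => S.smul_mem (l (p α).1 a) (h2 a))
      (S.smul_mem (c₀ (p α).1) h1))
    refine (congrArg (· ∈ S) (funext fun z => ?_)).mp h3
    have e1 : (∑ β, (t • A + 1) α β • m (β : ι → ℕ)) z =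
        t * ∑ β, A α β * macMon (β : ι → ℕ) (z : ι → K) + macMon (α : ι → ℕ) (z : ι → K) := by
      simp only [Finset.sum_apply, Pi.smul_apply, smul_eq_mul, Matrix.add_apply,
        Matrix.smul_apply, add_mul, sum_add_distrib, Matrix.one_apply, ite_mul, one_mul,
        zero_mul, sum_ite_eq, mem_univ, if_true, mul_sum, m, mul_assoc]
    have e2 : (∑ a, l (p α).1 a • m ((p α).2 + Pi.single a 1)) z =
        macMon (p α).2 (z : ι → K) * ∑ a, l (p α).1 a * (z : ι → K) a := by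
      simp only [Finset.sum_apply, Pi.smul_apply, smul_eq_mul, mul_sum, m, macMon_add,
        macMon_single]
      exact sum_congr rfl fun a _ => by ring
    rw [e1, hA, Pi.neg_apply, Pi.add_apply, e2, hp α, macMon_add, macMon_single]
    have := hZ z z.2 (p α).1
    simp only [Pi.smul_apply, smul_eq_mul, m]
    linear_combination (-macMon (p α).2 (z : ι → K)) * this
  have htop : ∀ β : macTop ι, m (β : ι → ℕ) ∈ S := by
    intro β
    have h := S.sum_mem fun α (_ : α ∈ univ) => S.smul_mem ((t • A + 1)⁻¹ β α) (hrow α)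
    refine (congrArg (· ∈ S) ?_).mp h
    simp only [smul_sum, smul_smul]
    rw [sum_comm]
    simp only [← sum_smul, ← Matrix.mul_apply, Matrix.nonsing_inv_mul _ hdet, Matrix.one_apply,
      ite_smul, one_smul, zero_smul, sum_ite_eq, mem_univ, if_true]
  have hS : S = ⊤ := by
    refine mac_top Z S ?_ fun i g hg => ?_
    · have := hlow 0 (by simp)
      refine (congrArg (· ∈ S) (funext fun z => ?_)).mp this
      simp [m, macMon]
    · induction hg using Submodule.span_induction with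
      | mem g hg =>
        obtain ⟨γ, rfl⟩ := hg
        have hγ := mac_mem_low.1 γ.2
        have e : ((fun z : Z => (z : ι → K) i) * m γ) = m ((γ : ι → ℕ) + Pi.single i 1) := by
          funext z
          simp only [Pi.mul_apply, m, macMon_add, macMon_single]
          ring
        rw [e]
        rcases hγ.lt_or_eq with h | h
        · exact hlow _ (by rw [mac_sum_single]; omega)
        · exact htop ⟨_, mac_mem_top.2 (by rw [mac_sum_single, h])⟩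
      | zero => simp
      | add g g' _ _ h h' => rw [mul_add]; exact S.add_mem h h'
      | smul c g _ h => rw [mul_smul_comm]; exact S.smul_mem c h
  have hr : Module.finrank K S ≤ Fintype.card (macLow ι) := finrank_range_le_card _
  rw [hS, finrank_top, Module.finrank_fintype_fun_eq_card, Fintype.card_coe,
    Fintype.card_coe] at hr
  exact hr.trans mac_card_low

/-- Macaulay lemma: for all but few `t` the system has few solutions, for all affine parts. -/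
theorem macaulay (Θ : Matrix ι ι K) (hΘ : IsUnit Θ.det) (d : ι → K) (hd : ∀ j, d j ≠ 0)
    (G : ι → ι → ι → K) :
    ∃ B : Finset K, B.card ≤ (Fintype.card ι + 2) ^ Fintype.card ι ∧ ∀ t ∉ B,
      ∀ (l : ι → ι → K) (c₀ : ι → K) (Z : Finset (ι → K)),
        (∀ c ∈ Z, ∀ j, d j * (Θ.mulVec c j) ^ 2 + t * ∑ a, ∑ b, G j a b * c a * c b +
          ∑ a, l j a * c a + c₀ j = 0) → Z.card ≤ (Fintype.card ι + 1) ^ Fintype.card ι := by
  classical
  obtain ⟨B, hB, h⟩ := macaulay_core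
    fun j a b => (d j)⁻¹ * ∑ a', ∑ b', G j a' b' * Θ⁻¹ a' a * Θ⁻¹ b' b
  refine ⟨B, hB, fun t ht l c₀ Z hZ => ?_⟩
  have hinv : ∀ c : ι → K, Θ⁻¹.mulVec (Θ.mulVec c) = c := fun c => by
    rw [Matrix.mulVec_mulVec, Matrix.nonsing_inv_mul _ hΘ, Matrix.one_mulVec]
  have hinj : Function.Injective Θ.mulVec := fun c c' e => by rw [← hinv c, e, hinv]
  rw [← card_image_of_injective Z hinj]
  refine h t ht (fun j a => (d j)⁻¹ * ∑ a', l j a' * Θ⁻¹ a' a) (fun j => (d j)⁻¹ * c₀ j) _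
    fun x hx j => ?_
  obtain ⟨c, hc, rfl⟩ := mem_image.1 hx
  have hc' : ∀ a, c a = ∑ a', Θ⁻¹ a a' * Θ.mulVec c a' := fun a => by
    conv_lhs => rw [← hinv c]
    rfl
  generalize hx' : Θ.mulVec c = x at hc' ⊢
  have e1 : ∑ a, ∑ b, ((d j)⁻¹ * ∑ a', ∑ b', G j a' b' * Θ⁻¹ a' a * Θ⁻¹ b' b) * x a * x b =
      (d j)⁻¹ * ∑ a, ∑ b, G j a b * c a * c b := by
    simp only [hc', mul_sum, sum_mul]
    calc _ = ∑ a, ∑ a', ∑ b, ∑ b', (d j)⁻¹ * (G j a' b' * Θ⁻¹ a' a * Θ⁻¹ b' b) * x a * x b :=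
          sum_congr rfl fun a _ => sum_comm
      _ = ∑ a', ∑ a, ∑ b, ∑ b', (d j)⁻¹ * (G j a' b' * Θ⁻¹ a' a * Θ⁻¹ b' b) * x a * x b :=
          sum_comm
      _ = _ := by
        refine sum_congr rfl fun a' _ => ?_
        calc _ = ∑ a, ∑ b', ∑ b, (d j)⁻¹ * (G j a' b' * Θ⁻¹ a' a * Θ⁻¹ b' b) * x a * x b :=
              sum_congr rfl fun a _ => sum_comm
          _ = ∑ b', ∑ a, ∑ b, (d j)⁻¹ * (G j a' b' * Θ⁻¹ a' a * Θ⁻¹ b' b) * x a * x b :=
              sum_comm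
          _ = _ := by
            refine sum_congr rfl fun b' _ => ?_
            rw [sum_comm]
            exact sum_congr rfl fun b _ => sum_congr rfl fun a _ => by ring
  have e2 : ∑ a, ((d j)⁻¹ * ∑ a', l j a' * Θ⁻¹ a' a) * x a = (d j)⁻¹ * ∑ a, l j a * c a := by
    simp only [hc', mul_sum, sum_mul]
    rw [sum_comm]
    exact sum_congr rfl fun a' _ => sum_congr rfl fun a _ => by ring
  rw [e1, e2]
  have h0 := hZ c hc j
  rw [hx'] at h0
  have hj : (d j)⁻¹ * d j = 1 := inv_mul_cancel₀ (hd j)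
  linear_combination (d j)⁻¹ * h0 - x j ^ 2 * hj

end Pool.Agent.P.MP_d5a1e1_nt.TB
end

-- part Pool.Agent.P.MP_d5a1e1_nt.TBFld
section

/-! Finite subfields of an algebraically closed field, power bases with invertible conjugate
matrix, and three covering parabolas. -/

namespace Pool.Agent.P.MP_d5a1e1_nt.TB

open Finset Polynomial

theorem kk_nonsq (F : Type*) [Field F] [Fintype F] (p : ℕ) [CharP F p] (h7 : 7 < p) :
    ∃ z : F, ¬ IsSquare z ∧ z + 1 ≠ 0 ∧ z + 3 ≠ 0 ∧ 3 * z + 1 ≠ 0 := by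
  have h2 : ringChar F ≠ 2 := by rw [ringChar.eq F p]; omega
  obtain ⟨ν, hν⟩ := FiniteField.exists_nonsquare h2
  have hν0 : ν ≠ 0 := by rintro rfl; exact hν ⟨0, by simp⟩
  have small : ∀ m : ℕ, 0 < m → m ≤ 7 → (m : F) ≠ 0 := by
    intro m h0 h1 h
    rw [CharP.cast_eq_zero_iff F p] at h
    have := Nat.le_of_dvd h0 h
    omega
  have n2 : (2 : F) ≠ 0 := by exact_mod_cast small 2 (by norm_num) (by norm_num)
  have n3 : (3 : F) ≠ 0 := by exact_mod_cast small 3 (by norm_num) (by norm_num)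
  have n5 : (5 : F) ≠ 0 := by exact_mod_cast small 5 (by norm_num) (by norm_num)
  have n7 : (7 : F) ≠ 0 := by exact_mod_cast small 7 (by norm_num) (by norm_num)
  have hsq : ∀ c : F, c ≠ 0 → ¬ IsSquare (c ^ 2 * ν) := by
    rintro c hc ⟨r, hr⟩
    exact hν ⟨r / c, by field_simp; linear_combination hr⟩
  by_contra hcon
  push Not at hcon
  have key : ∀ c : F, c ≠ 0 →
      c ^ 2 * ν = -1 ∨ c ^ 2 * ν = -3 ∨ 3 * (c ^ 2 * ν) = -1 := by
    intro c hc
    by_cases a1 : c ^ 2 * ν + 1 = 0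
    · left; linear_combination a1
    by_cases a2 : c ^ 2 * ν + 3 = 0
    · right; left; linear_combination a2
    · right; right; linear_combination hcon _ (hsq c hc) a1 a2
  have n4 : (4 : F) ≠ 0 := by
    have : (4 : F) = 2 * 2 := by norm_num
    rw [this]; exact mul_ne_zero n2 n2
  have d : ∀ c : F, c ≠ 0 → c * ν ≠ 0 := fun c hc => mul_ne_zero hc hν0
  have d3 := d 3 n3
  have d5 := d 5 n5
  have d7 := d 7 n7
  have d8 := d (2 * 4) (mul_ne_zero n2 n4)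
  have d12 := d (3 * 4) (mul_ne_zero n3 n4)
  have d15 := d (3 * 5) (mul_ne_zero n3 n5)
  have e3 := mul_ne_zero n3 d3
  have e5 := mul_ne_zero n3 d5
  have e7 := mul_ne_zero n3 d7
  have e8 := mul_ne_zero n3 d8
  have e12 := mul_ne_zero n3 d12
  have e15 := mul_ne_zero n3 d15
  rcases key 1 one_ne_zero with a | a | a <;> rcases key 2 n2 with b | b | b <;>
    rcases key 3 n3 with c | c | c <;> rcases key 4 n4 with e | e | e <;>
    first
      | exact d3 (by linear_combination b - a)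
      | exact d8 (by linear_combination c - a)
      | exact d15 (by linear_combination e - a)
      | exact d5 (by linear_combination c - b)
      | exact d12 (by linear_combination e - b)
      | exact d7 (by linear_combination e - c)
      | exact e3 (by linear_combination b - a)
      | exact e8 (by linear_combination c - a)
      | exact e15 (by linear_combination e - a)
      | exact e5 (by linear_combination c - b)
      | exact e12 (by linear_combination e - b)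
      | exact e7 (by linear_combination e - c)

/-- Three parabolas over a finite field whose pairwise sums cover the plane. -/
theorem kk_field (F : Type*) [Field F] [Finite F] (p : ℕ) [CharP F p] (h7 : 7 < p) :
    ∃ k : Fin 3 → F, (∀ a b, k a + k b ≠ 0) ∧
      ∀ u v : F, ∃ a b : Fin 3, ∃ x y : F, x + y = u ∧ k a * x ^ 2 + k b * y ^ 2 = v := by
  classical
  have := Fintype.ofFinite F
  obtain ⟨z, hz, h1, h3, h4⟩ := kk_nonsq F p h7
  have hz0 : z ≠ 0 := by rintro rfl; exact hz ⟨0, by simp⟩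
  have n2 : (2 : F) ≠ 0 := by
    intro h
    have : ((2 : ℕ) : F) = 0 := by exact_mod_cast h
    rw [CharP.cast_eq_zero_iff F p] at this
    have := Nat.le_of_dvd (by norm_num) this
    omega
  refine ⟨![z + 1, z * (z + 1), 2 * z], ?_, ?_⟩
  · intro a b
    have e00 : (z + 1) + (z + 1) ≠ 0 := by
      have := mul_ne_zero n2 h1; intro h; exact this (by linear_combination h)
    have e01 : (z + 1) + z * (z + 1) ≠ 0 := by
      have := mul_ne_zero h1 h1; intro h; exact this (by linear_combination h)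
    have e02 : (z + 1) + 2 * z ≠ 0 := by intro h; exact h4 (by linear_combination h)
    have e11 : z * (z + 1) + z * (z + 1) ≠ 0 := by
      have := mul_ne_zero n2 (mul_ne_zero hz0 h1); intro h; exact this (by linear_combination h)
    have e12 : z * (z + 1) + 2 * z ≠ 0 := by
      have := mul_ne_zero hz0 h3; intro h; exact this (by linear_combination h)
    have e22 : 2 * z + 2 * z ≠ 0 := by
      have := mul_ne_zero n2 (mul_ne_zero n2 hz0); intro h; exact this (by linear_combination h)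
    fin_cases a <;> fin_cases b <;> simp only [Fin.zero_eta, Fin.mk_one, Fin.reduceFinMk,
      Matrix.cons_val_zero, Matrix.cons_val_one, Matrix.cons_val] <;>
      first
        | assumption
        | (rw [add_comm]; assumption)
  · intro u v
    by_cases hw : IsSquare (v - z * u ^ 2)
    · obtain ⟨r, hr⟩ := hw
      refine ⟨0, 1, (z * u + r) / (z + 1), (u - r) / (z + 1), ?_, ?_⟩
      · field_simp; ring
      · simp only [Matrix.cons_val_zero, Matrix.cons_val_one]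
        field_simp
        linear_combination (-(z + 1)) * hr
    · have hw0 : v - z * u ^ 2 ≠ 0 := by intro h; rw [h] at hw; exact hw ⟨0, by simp⟩
      have q1 := (quadraticChar_neg_one_iff_not_isSquare (F := F)).2 hz
      have q2 := (quadraticChar_neg_one_iff_not_isSquare (F := F)).2 hw
      have q3 : quadraticChar (F) (z * (v - z * u ^ 2)) = 1 := by
        rw [map_mul, q1, q2]; norm_num
      obtain ⟨r, hr⟩ := (quadraticChar_one_iff_isSquare (mul_ne_zero hz0 hw0)).1 q3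
      refine ⟨2, 2, (z * u + r) / (2 * z), (z * u - r) / (2 * z), ?_, ?_⟩
      · field_simp; ring
      · simp only [Matrix.cons_val]
        field_simp
        linear_combination (-2) * hr

/-- A quadratic equation over a field has at most two solutions. -/
theorem quad_two {F : Type*} [Field F] {α β γ : F} (hα : α ≠ 0) (Z : Finset F)
    (hZ : ∀ x ∈ Z, α * x ^ 2 + β * x + γ = 0) : Z.card ≤ 2 := by
  by_contra h
  push Not at h
  obtain ⟨x, hx, y, hy, w, hw, hxy, hxw, hyw⟩ := two_lt_card.1 h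
  have h1 : α * (x + y) + β = 0 := by
    have : (x - y) * (α * (x + y) + β) = 0 := by linear_combination hZ x hx - hZ y hy
    exact (mul_eq_zero.1 this).resolve_left (sub_ne_zero.2 hxy)
  have h2 : α * (x + w) + β = 0 := by
    have : (x - w) * (α * (x + w) + β) = 0 := by linear_combination hZ x hx - hZ w hw
    exact (mul_eq_zero.1 this).resolve_left (sub_ne_zero.2 hxw)
  have h3 : α * (y - w) = 0 := by linear_combination h1 - h2
  exact hyw (sub_eq_zero.1 ((mul_eq_zero.1 h3).resolve_left hα))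

variable (Ω : Type*) [Field Ω] (p : ℕ) [hp : Fact p.Prime] [CharP Ω p]

/-- The elements fixed by the `d`-th power of the Frobenius map. -/
def Fx (d : ℕ) : Subfield Ω := (iterateFrobenius Ω p d).eqLocusField (RingHom.id Ω)

variable {Ω p}

theorem mem_Fx {d : ℕ} {x : Ω} : x ∈ Fx Ω p d ↔ x ^ p ^ d = x := by
  rw [Fx, RingHom.mem_eqLocusField, iterateFrobenius_def, RingHom.id_apply]

theorem Fx_pow {d : ℕ} {x : Ω} (h : x ∈ Fx Ω p d) (r : ℕ) : x ^ (p ^ d) ^ r = x := by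
  induction r with
  | zero => simp
  | succ r ih => rw [pow_succ, pow_mul, ih, mem_Fx.1 h]

theorem Fx_mono {d e : ℕ} (h : d ∣ e) : Fx Ω p d ≤ Fx Ω p e := by
  obtain ⟨r, rfl⟩ := h
  intro x hx
  rw [mem_Fx, pow_mul]
  exact Fx_pow hx r

theorem natCast_mem_Fx (d n : ℕ) : (n : Ω) ∈ Fx Ω p d := natCast_mem _ n

theorem intCast_mem_Fx (d : ℕ) (n : ℤ) : (n : Ω) ∈ Fx Ω p d := intCast_mem _ n

/-- The map `x ↦ x ^ (p ^ d) ^ r` is additive over finite sums. -/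
theorem sum_pow_frob {ι : Type*} (s : Finset ι) (f : ι → Ω) (d r : ℕ) :
    (∑ i ∈ s, f i) ^ (p ^ d) ^ r = ∑ i ∈ s, f i ^ (p ^ d) ^ r := by
  rw [← pow_mul]
  exact sum_pow_char_pow p (d * r) s f

theorem Fx_coe_eq {d : ℕ} (hd : d ≠ 0) [DecidableEq Ω] :
    (Fx Ω p d : Set Ω) = (X ^ p ^ d - X : Polynomial Ω).roots.toFinset := by
  ext x
  have h0 := FiniteField.X_pow_card_pow_sub_X_ne_zero Ω hd hp.out.one_lt
  rw [SetLike.mem_coe, mem_Fx, mem_coe, Multiset.mem_toFinset, mem_roots h0]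
  simp [sub_eq_zero]

theorem Fx_finite {d : ℕ} (hd : d ≠ 0) : Finite (Fx Ω p d) := by
  classical
  have : (Fx Ω p d : Set Ω).Finite := by
    rw [Fx_coe_eq hd]
    exact finite_toSet _
  exact this.to_subtype

theorem card_Fx_le {d : ℕ} (hd : d ≠ 0) : Nat.card (Fx Ω p d) ≤ p ^ d := by
  classical
  have h1 : Nat.card (Fx Ω p d) = (Fx Ω p d : Set Ω).ncard := rfl
  rw [h1, Fx_coe_eq hd, Set.ncard_coe_finset]
  refine (Multiset.toFinset_card_le _).trans ((card_roots' _).trans ?_)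
  rw [FiniteField.X_pow_card_pow_sub_X_natDegree_eq Ω hd hp.out.one_lt]

theorem card_Fx [IsAlgClosed Ω] {d : ℕ} (hd : d ≠ 0) : Nat.card (Fx Ω p d) = p ^ d := by
  classical
  have h1 : Nat.card (Fx Ω p d) = (Fx Ω p d : Set Ω).ncard := rfl
  have hs : (X ^ p ^ d - X : Polynomial Ω).Separable := galois_poly_separable p _ (dvd_pow_self p hd)
  rw [h1, Fx_coe_eq hd, Set.ncard_coe_finset,
    Multiset.toFinset_card_of_nodup (nodup_roots hs),
    ← (IsAlgClosed.splits (X ^ p ^ d - X : Polynomial Ω)).natDegree_eq_card_roots,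
    FiniteField.X_pow_card_pow_sub_X_natDegree_eq Ω hd hp.out.one_lt]

/-- The elements fixed by the Frobenius map are the residues. -/
theorem mem_Fx_one {x : Ω} : x ∈ Fx Ω p 1 ↔ ∃ n < p, (n : Ω) = x := by
  refine ⟨fun hx => ?_, fun ⟨n, _, h⟩ => h ▸ natCast_mem_Fx 1 n⟩
  have := Fx_finite (Ω := Ω) (p := p) one_ne_zero
  let f : Fin p → Fx Ω p 1 := fun n => ⟨(n : ℕ), natCast_mem_Fx 1 n⟩
  have hf : Function.Injective f := fun a b h => by
    have h1 : ((a : ℕ) : Ω) = (b : ℕ) := congrArg Subtype.val h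
    exact Fin.ext (CharP.natCast_injOn_Iio Ω p a.2 b.2 h1)
  have hb := hf.bijective_of_nat_card_le (by
    have := card_Fx_le (Ω := Ω) (p := p) one_ne_zero
    simpa using this)
  obtain ⟨n, hn⟩ := hb.2 ⟨x, hx⟩
  exact ⟨n, n.2, congrArg Subtype.val hn⟩

/-- A generator of the multiplicative group has distinct conjugates. -/
theorem exists_gen [IsAlgClosed Ω] {d μ : ℕ} (hd : d ≠ 0) (hμ : μ ≠ 0) :
    ∃ α ∈ Fx Ω p (μ * d), Function.Injective fun r : Fin μ => α ^ (p ^ d) ^ (r : ℕ) := by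
  classical
  have hmd : μ * d ≠ 0 := mul_ne_zero hμ hd
  have := Fx_finite (Ω := Ω) (p := p) hmd
  obtain ⟨g, hg⟩ := IsCyclic.exists_ofOrder_eq_natCard (α := (Fx Ω p (μ * d))ˣ)
  rw [Nat.card_units, card_Fx hmd] at hg
  refine ⟨((g : Fx Ω p (μ * d)) : Ω), (g : Fx Ω p (μ * d)).2, fun r s h => ?_⟩
  have h1 : g ^ (p ^ d) ^ (r : ℕ) = g ^ (p ^ d) ^ (s : ℕ) := by
    apply Units.ext
    apply Subtype.ext
    simpa using h
  have hq : 1 < p ^ d := Nat.one_lt_pow hd hp.out.one_lt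
  have hlt : ∀ r : Fin μ, 1 ≤ (p ^ d) ^ (r : ℕ) ∧ (p ^ d) ^ (r : ℕ) - 1 < orderOf g := fun r => by
    have h2 : (p ^ d) ^ (r : ℕ) < (p ^ d) ^ μ := Nat.pow_lt_pow_right hq r.2
    have h3 : 1 ≤ (p ^ d) ^ (r : ℕ) := Nat.one_le_pow _ _ (by omega)
    rw [hg, mul_comm μ d, pow_mul]
    omega
  have h4 : g ^ ((p ^ d) ^ (r : ℕ) - 1) = g ^ ((p ^ d) ^ (s : ℕ) - 1) := by
    apply mul_right_cancel (b := g)
    rw [← pow_succ, ← pow_succ, Nat.sub_add_cancel (hlt r).1, Nat.sub_add_cancel (hlt s).1, h1]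
  have h5 := pow_injOn_Iio_orderOf (hlt r).2 (hlt s).2 h4
  have h6 : (p ^ d) ^ (r : ℕ) = (p ^ d) ^ (s : ℕ) := by
    have := (hlt r).1
    have := (hlt s).1
    omega
  exact Fin.ext (Nat.pow_right_injective hq h6)

section Gen

variable {d μ : ℕ} {α : Ω}

omit hp [CharP Ω p] in
/-- The matrix of conjugates of the powers of `α` is invertible. -/
theorem det_conj (h : Function.Injective fun r : Fin μ => α ^ (p ^ d) ^ (r : ℕ)) :
    (Matrix.of fun r i : Fin μ => (α ^ (i : ℕ)) ^ (p ^ d) ^ (r : ℕ)).det ≠ 0 := by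
  have : (Matrix.of fun r i : Fin μ => (α ^ (i : ℕ)) ^ (p ^ d) ^ (r : ℕ)) =
      Matrix.vandermonde fun r : Fin μ => α ^ (p ^ d) ^ (r : ℕ) := by
    ext r i
    rw [Matrix.of_apply, Matrix.vandermonde_apply, ← pow_mul α, ← pow_mul α, mul_comm]
  rw [this]
  exact Matrix.det_vandermonde_ne_zero_iff.2 h

/-- The powers of `α` are independent over the small field. -/
theorem gen_indep (h : Function.Injective fun r : Fin μ => α ^ (p ^ d) ^ (r : ℕ)) {c : ℕ → Ω}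
    (hc : ∀ i < μ, c i ∈ Fx Ω p d) (h0 : ∑ i ∈ range μ, α ^ i * c i = 0) : ∀ i < μ, c i = 0 := by
  intro i hi
  have h1 : (Matrix.of fun r i : Fin μ => (α ^ (i : ℕ)) ^ (p ^ d) ^ (r : ℕ)).mulVec
      (fun i => c i) = 0 := by
    ext r
    have h2 := sum_pow_frob (p := p) (range μ) (fun i => α ^ i * c i) d r
    rw [h0, zero_pow (pow_pos (pow_pos hp.out.pos _) _).ne', sum_range] at h2
    rw [Pi.zero_apply, h2, Matrix.mulVec, dotProduct]
    refine sum_congr rfl fun j _ => ?_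
    rw [mul_pow, Fx_pow (hc j j.2), Matrix.of_apply]
  exact congrFun (Matrix.eq_zero_of_mulVec_eq_zero (det_conj h) h1) ⟨i, hi⟩

theorem gen_mem (hα : α ∈ Fx Ω p (μ * d)) {c : ℕ → Ω} {m : ℕ} (hc : ∀ i < m, c i ∈ Fx Ω p d) :
    ∑ i ∈ range m, α ^ i * c i ∈ Fx Ω p (μ * d) :=
  sum_mem fun i hi => mul_mem (pow_mem hα i) (Fx_mono (Dvd.intro_left _ rfl) (hc i (mem_range.1 hi)))

/-- The powers of `α` span the large field over the small field. -/
theorem gen_span [IsAlgClosed Ω] (hd : d ≠ 0) (hμ : μ ≠ 0) (hα : α ∈ Fx Ω p (μ * d))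
    (h : Function.Injective fun r : Fin μ => α ^ (p ^ d) ^ (r : ℕ)) {x : Ω}
    (hx : x ∈ Fx Ω p (μ * d)) :
    ∃ c : ℕ → Ω, (∀ i, c i ∈ Fx Ω p d) ∧ ∑ i ∈ range μ, α ^ i * c i = x := by
  have hmd : μ * d ≠ 0 := mul_ne_zero hμ hd
  have := Fx_finite (Ω := Ω) (p := p) hmd
  let e : (Fin μ → Fx Ω p d) → ℕ → Ω := fun c i => if hi : i < μ then (c ⟨i, hi⟩ : Ω) else 0
  have he : ∀ c i, e c i ∈ Fx Ω p d := fun c i => by
    simp only [e]
    split_ifs
    · exact Subtype.prop _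
    · exact zero_mem _
  let f : (Fin μ → Fx Ω p d) → Fx Ω p (μ * d) := fun c =>
    ⟨∑ i ∈ range μ, α ^ i * e c i, gen_mem hα fun i _ => he c i⟩
  have hf : Function.Injective f := fun a b hab => by
    have h1 : ∑ i ∈ range μ, α ^ i * e a i = ∑ i ∈ range μ, α ^ i * e b i :=
      congrArg Subtype.val hab
    have h2 := gen_indep h (c := fun i => e a i - e b i) (fun i _ => sub_mem (he a i) (he b i))
      (by simp only [mul_sub, sum_sub_distrib, h1, sub_self])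
    ext i
    have h3 := h2 i i.2
    simpa [e, sub_eq_zero] using h3
  have hb := hf.bijective_of_nat_card_le (by
    rw [card_Fx hmd, Nat.card_fun, card_Fx hd, Nat.card_eq_fintype_card, Fintype.card_fin,
      ← pow_mul, mul_comm])
  obtain ⟨c, hc⟩ := hb.2 ⟨x, hx⟩
  exact ⟨e c, he c, congrArg Subtype.val hc⟩

end Gen

/-- Three covering parabolas inside `Fx d`. -/
theorem exists_kk (h7 : 7 < p) {d : ℕ} (hd : d ≠ 0) :
    ∃ k : Fin 3 → Ω, (∀ a, k a ∈ Fx Ω p d) ∧ (∀ a b, k a + k b ≠ 0) ∧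
      ∀ u ∈ Fx Ω p d, ∀ v ∈ Fx Ω p d, ∃ a b : Fin 3, ∃ x ∈ Fx Ω p d, ∃ y ∈ Fx Ω p d,
        x + y = u ∧ k a * x ^ 2 + k b * y ^ 2 = v := by
  have := Fx_finite (Ω := Ω) (p := p) hd
  obtain ⟨k, h1, h2⟩ := kk_field (Fx Ω p d) p h7
  refine ⟨fun a => k a, fun a => (k a).2, fun a b h => h1 a b (Subtype.ext h), fun u hu v hv => ?_⟩
  obtain ⟨a, b, x, y, h3, h4⟩ := h2 ⟨u, hu⟩ ⟨v, hv⟩
  exact ⟨a, b, x, x.2, y, y.2, congrArg Subtype.val h3, congrArg Subtype.val h4⟩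

end Pool.Agent.P.MP_d5a1e1_nt.TB
end

-- part Pool.Agent.P.MP_d5a1e1_nt.TBMerge
section

/-! Merging blocks: conics over the blocks against one conic over their union. -/

namespace Pool.Agent.P.MP_d5a1e1_nt.TB

open Finset

section Forms

variable {K ι : Type*} [Field K] [Fintype ι]

/-- Linear forms. -/
def IsLin (f : (ι → K) → K) : Prop := ∃ l : ι → K, ∀ c, f c = ∑ a, l a * c a

/-- Affine functions. -/
def IsAff (f : (ι → K) → K) : Prop := ∃ (l : ι → K) (e : K), ∀ c, f c = ∑ a, l a * c a + e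

/-- Quadratic forms. -/
def IsQuad (f : (ι → K) → K) : Prop :=
  ∃ G : ι → ι → K, ∀ c, f c = ∑ a, ∑ b, G a b * c a * c b

theorem IsLin.aff {f : (ι → K) → K} (h : IsLin f) : IsAff f := by
  obtain ⟨l, h⟩ := h
  exact ⟨l, 0, fun c => by rw [h, add_zero]⟩

theorem IsAff.const (e : K) : IsAff fun _ : ι → K => e := ⟨0, e, fun c => by simp⟩

theorem IsAff.add {f g : (ι → K) → K} (hf : IsAff f) (hg : IsAff g) :
    IsAff fun c => f c + g c := by
  obtain ⟨l, e, h⟩ := hf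
  obtain ⟨l', e', h'⟩ := hg
  refine ⟨l + l', e + e', fun c => ?_⟩
  simp only [h, h', Pi.add_apply, add_mul, sum_add_distrib]
  ring

theorem IsAff.mul (k : K) {f : (ι → K) → K} (hf : IsAff f) : IsAff fun c => k * f c := by
  obtain ⟨l, e, h⟩ := hf
  refine ⟨fun a => k * l a, k * e, fun c => ?_⟩
  simp only [h, mul_add, mul_sum, mul_assoc]

theorem IsAff.sum {κ : Type*} (s : Finset κ) {f : κ → (ι → K) → K} (hf : ∀ i ∈ s, IsAff (f i)) :
    IsAff fun c => ∑ i ∈ s, f i c := by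
  classical
  induction s using Finset.induction_on with
  | empty => simpa using IsAff.const (0 : K)
  | insert a s ha ih =>
    simp only [sum_insert ha]
    exact (hf a (mem_insert_self _ _)).add (ih fun i hi => hf i (mem_insert_of_mem hi))

theorem IsLin.mul {f g : (ι → K) → K} (hf : IsLin f) (hg : IsLin g) :
    IsQuad fun c => f c * g c := by
  obtain ⟨l, h⟩ := hf
  obtain ⟨l', h'⟩ := hg
  refine ⟨fun a b => l a * l' b, fun c => ?_⟩
  simp only [h, h', sum_mul_sum]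
  exact sum_congr rfl fun a _ => sum_congr rfl fun b _ => by ring

theorem IsQuad.mul (k : K) {f : (ι → K) → K} (hf : IsQuad f) : IsQuad fun c => k * f c := by
  obtain ⟨G, h⟩ := hf
  refine ⟨fun a b => k * G a b, fun c => ?_⟩
  simp only [h, mul_sum, mul_assoc]

theorem IsQuad.sum {κ : Type*} (s : Finset κ) {f : κ → (ι → K) → K}
    (hf : ∀ i ∈ s, IsQuad (f i)) : IsQuad fun c => ∑ i ∈ s, f i c := by
  classical
  induction s using Finset.induction_on with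
  | empty => exact ⟨0, fun c => by simp⟩
  | insert a s ha ih =>
    obtain ⟨G, h⟩ := hf a (mem_insert_self _ _)
    obtain ⟨G', h'⟩ := ih fun i hi => hf i (mem_insert_of_mem hi)
    refine ⟨G + G', fun c => ?_⟩
    simp only [sum_insert ha, h, h', Pi.add_apply, add_mul, sum_add_distrib]

/-- The Macaulay lemma with the forms given as functions. -/
theorem macaulay_fun [DecidableEq ι] (Θ : Matrix ι ι K) (hΘ : Θ.det ≠ 0) (d : ι → K)
    (hd : ∀ j, d j ≠ 0) (Q : ι → (ι → K) → K) (hQ : ∀ j, IsQuad (Q j)) :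
    ∃ B : Finset K, B.card ≤ (Fintype.card ι + 2) ^ Fintype.card ι ∧ ∀ t ∉ B,
      ∀ f : ι → (ι → K) → K, (∀ j, IsAff (f j)) → ∀ Z : Finset (ι → K),
        (∀ c ∈ Z, ∀ j, d j * (∑ a, Θ j a * c a) ^ 2 + t * Q j c + f j c = 0) →
        Z.card ≤ (Fintype.card ι + 1) ^ Fintype.card ι := by
  choose G hG using hQ
  obtain ⟨B, hB, h⟩ := macaulay Θ (isUnit_iff_ne_zero.2 hΘ) d hd G
  refine ⟨B, hB, fun t ht f hf Z hZ => ?_⟩
  choose l e hl using hf
  refine h t ht l e Z fun c hc j => ?_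
  have := hZ c hc j
  rw [hG, hl, ← add_assoc] at this
  exact this

end Forms

variable {Ω : Type*} [Field Ω] [IsAlgClosed Ω] {p : ℕ} [hp : Fact p.Prime] [CharP Ω p]

/-- A division of `[0, n)` into blocks: `st j` is the start of the block of `j`, and `ln a` the
length of the block that starts at `a`. -/
def IsBlocks (n : ℕ) (st ln : ℕ → ℕ) : Prop :=
  ∀ j < n, st j ≤ j ∧ j < st j + ln (st j) ∧ st j + ln (st j) ≤ n ∧
    ∀ i, st j ≤ i → i < st j + ln (st j) → st i = st j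

theorem IsBlocks.sum_eq {K : Type*} [Field K] {n : ℕ} {st ln : ℕ → ℕ} (h : IsBlocks n st ln)
    {j : ℕ} (hj : j < n) (θ x : ℕ → K) :
    ∑ a : Fin n, (if st a = st j then θ (a - st j) else 0) * x a =
      ∑ i ∈ range (ln (st j)), θ i * x (st j + i) := by
  obtain ⟨-, -, h3, h4⟩ := h j hj
  rw [Fin.sum_univ_eq_sum_range (fun a => (if st a = st j then θ (a - st j) else 0) * x a) n]
  have e1 : ∑ i ∈ range (ln (st j)), θ i * x (st j + i) =
      ∑ a ∈ Ico (st j) (st j + ln (st j)), (if st a = st j then θ (a - st j) else 0) * x a := by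
    rw [sum_Ico_eq_sum_range, Nat.add_sub_cancel_left]
    refine sum_congr rfl fun i hi => ?_
    rw [if_pos (h4 _ (by omega) (by have := mem_range.1 hi; omega)), Nat.add_sub_cancel_left]
  rw [e1]
  refine (sum_subset (fun a ha => mem_range.2 (by have := (mem_Ico.1 ha).2; omega))
    fun a ha hn => ?_).symm
  rw [if_neg, zero_mul]
  intro he
  obtain ⟨g1, g2, -, -⟩ := h a (mem_range.1 ha)
  rw [he] at g1 g2
  exact hn (mem_Ico.2 ⟨g1, g2⟩)

omit [IsAlgClosed Ω] hp [CharP Ω p] in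
theorem IsBlocks.det_ne {d n : ℕ} {st ln : ℕ → ℕ} (h : IsBlocks n st ln) {β : ℕ → Ω}
    (hβ : ∀ j < n, Function.Injective fun r : Fin (ln (st j)) => β (st j) ^ (p ^ d) ^ (r : ℕ)) :
    (Matrix.of fun j a : Fin n => if st a = st j then
      (β (st j) ^ (a - st j)) ^ (p ^ d) ^ (j - st j) else 0).det ≠ 0 := by
  intro h0
  obtain ⟨v, hv, h1⟩ := Matrix.exists_mulVec_eq_zero_iff.2 h0
  refine hv (funext fun j => ?_)
  obtain ⟨g1, g2, g3, g4⟩ := h j j.2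
  let x : ℕ → Ω := fun a => if ha : a < n then v ⟨a, ha⟩ else 0
  have hx : ∀ a : Fin n, x a = v a := fun a => dif_pos a.2
  have h2 : (Matrix.of fun r i : Fin (ln (st j)) =>
      (β (st j) ^ (i : ℕ)) ^ (p ^ d) ^ (r : ℕ)).mulVec (fun i => x (st j + i)) = 0 := by
    ext r
    have hr : st j + r < n := by have := r.2; omega
    have e : st (st j + r) = st j := g4 _ (by omega) (by have := r.2; omega)
    have h3 := congrFun h1 ⟨st j + r, hr⟩
    have h4 := h.sum_eq hr (fun i => (β (st j) ^ i) ^ (p ^ d) ^ (r : ℕ)) x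
    simp only [Matrix.mulVec, dotProduct, Matrix.of_apply, Pi.zero_apply, e,
      Nat.add_sub_cancel_left, hx] at h3 h4 ⊢
    rw [h3, sum_range] at h4
    exact h4.symm
  have h5 := congrFun (Matrix.eq_zero_of_mulVec_eq_zero (det_conj (hβ j j.2)) h2)
    ⟨j - st j, by omega⟩
  simp only [Nat.add_sub_cancel' g1, hx] at h5
  exact h5

/-- Structure constants: the coordinates of `t k (∑ α ^ i η i) ^ 2`. -/
theorem exists_struct {d μ : ℕ} {α k : Ω} (hd : d ≠ 0) (hμ : μ ≠ 0) (hα : α ∈ Fx Ω p (μ * d))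
    (hi : Function.Injective fun r : Fin μ => α ^ (p ^ d) ^ (r : ℕ)) (hk : k ∈ Fx Ω p (μ * d)) :
    ∃ γ : ℕ → ℕ → ℕ → Ω, ∀ t ∈ Fx Ω p d, ∀ η B : ℕ → Ω, (∀ i < μ, η i ∈ Fx Ω p d) →
      (∀ i < μ, B i ∈ Fx Ω p d) →
      ∑ i ∈ range μ, α ^ i * B i = t * k * (∑ i ∈ range μ, α ^ i * η i) ^ 2 →
      ∀ i < μ, B i = t * ∑ a ∈ range μ, ∑ b ∈ range μ, γ a b i * (η a * η b) := by
  choose γ h1 h2 using fun a b : ℕ => gen_span hd hμ hα hi
    (mul_mem hk (mul_mem (pow_mem hα a) (pow_mem hα b)))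
  refine ⟨γ, fun t ht η B hη hB h i hi' => sub_eq_zero.1 (gen_indep hi
    (c := fun i => B i - t * ∑ a ∈ range μ, ∑ b ∈ range μ, γ a b i * (η a * η b))
    (fun i hi => sub_mem (hB i hi) (mul_mem ht (sum_mem fun a ha => sum_mem fun b hb =>
      mul_mem (h1 a b i) (mul_mem (hη a (mem_range.1 ha)) (hη b (mem_range.1 hb)))))) ?_ i hi')⟩
  have e : ∑ i ∈ range μ, α ^ i * (t * ∑ a ∈ range μ, ∑ b ∈ range μ, γ a b i * (η a * η b)) =
      t * k * (∑ i ∈ range μ, α ^ i * η i) ^ 2 := by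
    have e1 : k * (∑ i ∈ range μ, α ^ i * η i) ^ 2 =
        ∑ a ∈ range μ, ∑ b ∈ range μ, (∑ i ∈ range μ, α ^ i * γ a b i) * (η a * η b) := by
      rw [sq, sum_mul_sum]
      simp only [h2, mul_sum]
      exact sum_congr rfl fun a _ => sum_congr rfl fun b _ => by ring
    rw [mul_assoc, e1]
    simp only [mul_sum, sum_mul]
    rw [sum_comm]
    refine sum_congr rfl fun a _ => ?_
    rw [sum_comm]
    exact sum_congr rfl fun b _ => sum_congr rfl fun i _ => by ring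
  simp only [mul_sub, sum_sub_distrib, h, e, sub_self]

/-- Merge lemma. Units `0, …, n - 1` are divided into blocks, each with a conic; units
`0, …, μ - 1` carry one conic with a factor `t`; the differences of solutions on all `μ` units are
fixed linear forms `Λ` of the differences on the first `n` units. For all but boundedly many `t`
and all sums `s`, `cst`, `lin` the solutions take at most `(n + 1) ^ n` values on the first `n`
units. -/
theorem merge_ok {d μ n : ℕ} (hd : d ≠ 0) (hμ : μ ≠ 0) (hn : n ≤ μ) {st ln : ℕ → ℕ}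
    (hb : IsBlocks n st ln) {β κ : ℕ → Ω}
    (hβ : ∀ j < n, Function.Injective fun r : Fin (ln (st j)) => β (st j) ^ (p ^ d) ^ (r : ℕ))
    (hκ : ∀ j < n, κ (st j) ≠ 0) {α k : Ω} (hα : α ∈ Fx Ω p (μ * d))
    (hi : Function.Injective fun r : Fin μ => α ^ (p ^ d) ^ (r : ℕ)) (hk : k ∈ Fx Ω p (μ * d))
    (Λ : ℕ → ℕ → Ω) :
    ∃ bad : Finset Ω, bad.card ≤ (n + 2) ^ n ∧ ∀ t ∉ bad, t ∈ Fx Ω p d →
      ∀ (s cst : ℕ → Ω) (lin : ℕ → ℕ → Ω) (Z : Finset (Fin n → Ω)) (P : (ℕ → Ω) → Prop),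
        (∀ η η', P η → P η' → ∀ a, n ≤ a → a < μ →
          η a - η' a = ∑ i ∈ range n, Λ a i * (η i - η' i)) →
        (∀ z ∈ Z, ∃ η ξ A B : ℕ → Ω, P η ∧ (∀ i : Fin n, η i = z i) ∧
          (∀ i < μ, η i ∈ Fx Ω p d ∧ B i ∈ Fx Ω p d) ∧
          (∀ i < n, ξ i ∈ Fx Ω p d ∧ A i ∈ Fx Ω p d ∧ ξ i + η i = s i ∧
            A i + B i = cst i + ∑ i' ∈ range n, lin i i' * η i') ∧
          (∀ j < n, ∑ i ∈ range (ln (st j)), β (st j) ^ i * A (st j + i) =
            κ (st j) * (∑ i ∈ range (ln (st j)), β (st j) ^ i * ξ (st j + i)) ^ 2) ∧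
          ∑ i ∈ range μ, α ^ i * B i = t * k * (∑ i ∈ range μ, α ^ i * η i) ^ 2) →
        Z.card ≤ (n + 1) ^ n := by
  classical
  obtain ⟨γ, hγ⟩ := exists_struct hd hμ hα hi hk
  obtain ⟨Θ, hΘ⟩ : ∃ Θ : Matrix (Fin n) (Fin n) Ω, Θ = Matrix.of fun j a : Fin n =>
    if st a = st j then (β (st j) ^ (a - st j)) ^ (p ^ d) ^ (j - st j) else 0 := ⟨_, rfl⟩
  obtain ⟨L, hL⟩ : ∃ L : ℕ → (Fin n → Ω) → Ω, L = fun a c =>
    if ha : a < n then c ⟨a, ha⟩ else ∑ i : Fin n, Λ a i * c i := ⟨_, rfl⟩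
  have hlin : ∀ a, IsLin (L a) := fun a => by
    rw [hL]
    by_cases ha : a < n
    · exact ⟨Pi.single ⟨a, ha⟩ 1, fun c => by simp [ha, Pi.single_apply]⟩
    · exact ⟨fun i => Λ a i, fun c => by simp [ha]⟩
  have hq : 0 < p ^ d := pow_pos hp.out.pos d
  obtain ⟨bad, h1, h2⟩ := macaulay_fun Θ (hΘ ▸ hb.det_ne hβ)
    (fun j => κ (st j) ^ (p ^ d) ^ (j - st j)) (fun j => pow_ne_zero _ (hκ j j.2))
    (fun j c => ∑ i : Fin n, Θ j i * ∑ a ∈ range μ, ∑ b ∈ range μ, γ a b i * (L a c * L b c))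
    fun j => IsQuad.sum _ fun i _ => IsQuad.mul _ (IsQuad.sum _ fun a _ => IsQuad.sum _
      fun b _ => IsQuad.mul _ ((hlin a).mul (hlin b)))
  rw [Fintype.card_fin] at h1 h2
  refine ⟨bad, h1, fun t ht htF s cst lin Z P hP hZ => ?_⟩
  rcases Z.eq_empty_or_nonempty with rfl | ⟨z0, hz0⟩
  · simp
  obtain ⟨η0, -, -, -, hP0, hη0, -⟩ := hZ z0 hz0
  have hTl : ∀ j : Fin n, IsLin fun c : Fin n → Ω => ∑ a, Θ j a * c a := fun j =>
    ⟨Θ j, fun c => rfl⟩
  have key := h2 t ht (fun j c =>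
    κ (st j) ^ (p ^ d) ^ (j - st j) * ((∑ a, Θ j a * (s a - η0 a)) ^ 2 +
      (-2 * ∑ a, Θ j a * (s a - η0 a)) * ∑ a, Θ j a * c a) +
    ∑ i : Fin n, Θ j i * (-1 * (cst i + ∑ i' ∈ range n, lin i i' * (η0 i' + L i' c)) +
      t * ∑ a ∈ range μ, ∑ b ∈ range μ, γ a b i * (η0 a * η0 b + η0 a * L b c + η0 b * L a c)))
    (fun j => (IsAff.mul _ ((IsAff.const _).add (IsAff.mul _ (hTl j).aff))).add
      (IsAff.sum _ fun i _ => IsAff.mul _ ((IsAff.mul _ ((IsAff.const _).add (IsAff.sum _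
        fun i' _ => IsAff.mul _ ((IsAff.const _).add (hlin i').aff)))).add (IsAff.mul _
        (IsAff.sum _ fun a _ => IsAff.sum _ fun b _ => IsAff.mul _ (((IsAff.const _).add
          (IsAff.mul _ (hlin b).aff)).add (IsAff.mul _ (hlin a).aff)))))))
    (Z.image fun z => z - z0) ?_
  · rwa [card_image_of_injective _ sub_left_injective] at key
  intro c hc j
  obtain ⟨z, hz, rfl⟩ := mem_image.1 hc
  obtain ⟨η, ξ, A, B, hPη, hη, g1, g2, g3, g4⟩ := hZ z hz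
  have hLη : ∀ a < μ, η a = η0 a + L a (z - z0) := fun a ha => by
    rw [hL]
    by_cases han : a < n
    · simp only [dif_pos han, Pi.sub_apply, ← hη ⟨a, han⟩, ← hη0 ⟨a, han⟩]
      ring
    · simp only [dif_neg han, Pi.sub_apply, ← hη, ← hη0]
      rw [Fin.sum_univ_eq_sum_range (fun i => Λ a i * (η i - η0 i)) n,
        ← hP η η0 hPη hP0 a (not_lt.1 han) ha]
      ring
  have hB := hγ t htF η B (fun i hi => (g1 i hi).1) (fun i hi => (g1 i hi).2) g4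
  obtain ⟨-, -, b3, -⟩ := hb j j.2
  have hfr : ∀ x : ℕ → Ω, (∀ i < n, x i ∈ Fx Ω p d) →
      (∑ i ∈ range (ln (st j)), β (st j) ^ i * x (st j + i)) ^ (p ^ d) ^ (j - st j) =
        ∑ a : Fin n, Θ j a * x a := fun x hx => by
    rw [sum_pow_frob, hΘ]
    simp only [Matrix.of_apply]
    rw [hb.sum_eq j.2 (fun i => (β (st j) ^ i) ^ (p ^ d) ^ (j - st j)) x]
    refine sum_congr rfl fun i hi => ?_
    rw [mul_pow, Fx_pow (hx _ (by have := mem_range.1 hi; omega))]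
  have h3 := congrArg (· ^ (p ^ d) ^ (j - st j)) (g3 j j.2)
  simp only [mul_pow] at h3
  rw [hfr A fun i hi => (g2 i hi).2.1, pow_right_comm _ 2,
    hfr ξ fun i hi => (g2 i hi).1] at h3
  have e1 : ∑ a : Fin n, Θ j a * ξ a =
      ∑ a : Fin n, Θ j a * (s a - η0 a) - ∑ a : Fin n, Θ j a * (z - z0) a := by
    rw [← sum_sub_distrib]
    refine sum_congr rfl fun a _ => ?_
    rw [Pi.sub_apply, ← hη, ← hη0, ← (g2 a a.2).2.2.1]
    ring
  have e2 : t * ∑ i : Fin n, Θ j i * ∑ a ∈ range μ, ∑ b ∈ range μ,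
        γ a b i * (L a (z - z0) * L b (z - z0)) +
      ∑ i : Fin n, Θ j i * (-1 * (cst i + ∑ i' ∈ range n, lin i i' * (η0 i' + L i' (z - z0))) +
        t * ∑ a ∈ range μ, ∑ b ∈ range μ, γ a b i *
          (η0 a * η0 b + η0 a * L b (z - z0) + η0 b * L a (z - z0))) =
      -∑ i : Fin n, Θ j i * A i := by
    rw [mul_sum, ← sum_add_distrib, ← sum_neg_distrib]
    refine sum_congr rfl fun i _ => ?_
    have e3 : ∑ i' ∈ range n, lin i i' * (η0 i' + L i' (z - z0)) =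
        ∑ i' ∈ range n, lin i i' * η i' :=
      sum_congr rfl fun i' hi' => by rw [← hLη i' (by have := mem_range.1 hi'; omega)]
    have e4 : ∑ a ∈ range μ, ∑ b ∈ range μ, γ a b i * (η a * η b) =
        ∑ a ∈ range μ, ∑ b ∈ range μ, γ a b i * (L a (z - z0) * L b (z - z0)) +
        ∑ a ∈ range μ, ∑ b ∈ range μ, γ a b i *
          (η0 a * η0 b + η0 a * L b (z - z0) + η0 b * L a (z - z0)) := by
      rw [← sum_add_distrib]
      refine sum_congr rfl fun a ha => ?_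
      rw [← sum_add_distrib]
      refine sum_congr rfl fun b hb => ?_
      rw [hLη a (mem_range.1 ha), hLη b (mem_range.1 hb)]
      ring
    have e5 := hB i (by have := i.2; omega)
    rw [e4] at e5
    rw [e3, ← (g2 i i.2).2.2.2, e5]
    ring
  rw [e1] at h3
  linear_combination e2 - h3

end Pool.Agent.P.MP_d5a1e1_nt.TB
end

-- part Pool.Agent.P.MP_d5a1e1_nt.TBVal
section

/-! Coordinates of a tower of finite fields: blocks of digits as field elements. -/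

namespace Pool.Agent.P.MP_d5a1e1_nt.TB

open Finset

variable (Ω : Type*) [Field Ω] [IsAlgClosed Ω] (p : ℕ) [hp : Fact p.Prime] [CharP Ω p] (C : ℕ)

/-- A generator of `Fx (μ * C ^ l)` over `Fx (C ^ l)`. -/
noncomputable def al (l μ : ℕ) : Ω :=
  if h : C ^ l ≠ 0 ∧ μ ≠ 0 then (exists_gen (Ω := Ω) (p := p) h.1 h.2).choose else 0

/-- The value of the unit of `C ^ l` digits that starts at `a`. -/
noncomputable def val : ℕ → (ℕ → Ω) → ℕ → Ω
  | 0, x, a => x a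
  | l + 1, x, a => ∑ i ∈ range C, al Ω p C l C ^ i * val l x (a + i * C ^ l)

/-- The value of the block of `μ` units of level `l` that starts at `a`. -/
noncomputable def bv (l μ : ℕ) (x : ℕ → Ω) (a : ℕ) : Ω :=
  ∑ i ∈ range μ, al Ω p C l μ ^ i * val Ω p C l x (a + i * C ^ l)

/-- The value of the piece of `len` digits that starts at `a`. -/
noncomputable def pv (len : ℕ) (x : ℕ → Ω) (a : ℕ) : Ω :=
  bv Ω p C (Nat.log C (len - 1)) (len / C ^ Nat.log C (len - 1)) x a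

variable {Ω p C}

theorem al_spec (hC : C ≠ 0) (l : ℕ) {μ : ℕ} (hμ : μ ≠ 0) : al Ω p C l μ ∈ Fx Ω p (μ * C ^ l) ∧
    Function.Injective fun r : Fin μ => al Ω p C l μ ^ (p ^ C ^ l) ^ (r : ℕ) := by
  have h : C ^ l ≠ 0 ∧ μ ≠ 0 := ⟨pow_ne_zero _ hC, hμ⟩
  rw [al, dif_pos h]
  exact (exists_gen (Ω := Ω) (p := p) h.1 h.2).choose_spec

theorem val_zero (x : ℕ → Ω) (a : ℕ) : val Ω p C 0 x a = x a := rfl

theorem val_succ (l : ℕ) (x : ℕ → Ω) (a : ℕ) : val Ω p C (l + 1) x a = bv Ω p C l C x a := rfl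

theorem bv_one (l : ℕ) (x : ℕ → Ω) (a : ℕ) : bv Ω p C l 1 x a = val Ω p C l x a := by
  simp [bv]

theorem pv_eq (hC : 2 ≤ C) (l : ℕ) {μ : ℕ} (h1 : 1 ≤ μ) (h2 : μ ≤ C) (x : ℕ → Ω) (a : ℕ) :
    pv Ω p C (μ * C ^ l) x a = bv Ω p C l μ x a := by
  have hp0 : ∀ k, 0 < C ^ k := fun k => pow_pos (by omega) k
  rcases h1.eq_or_lt with rfl | h1
  · rcases l with _ | l
    · simp [pv]
    · have h3 : Nat.log C (1 * C ^ (l + 1) - 1) = l := by
        have h4 := hp0 l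
        have h5 : 2 * C ^ l ≤ C ^ (l + 1) := by rw [pow_succ']; exact Nat.mul_le_mul_right _ hC
        exact Nat.log_eq_of_pow_le_of_lt_pow (by omega) (by omega)
      rw [pv, h3, bv_one, val_succ, one_mul, pow_succ', Nat.mul_div_cancel _ (hp0 l)]
  · have h3 : Nat.log C (μ * C ^ l - 1) = l := by
      have h4 := hp0 l
      have h5 : 2 * C ^ l ≤ μ * C ^ l := Nat.mul_le_mul_right _ h1
      have h6 : μ * C ^ l ≤ C ^ (l + 1) := by rw [pow_succ']; exact Nat.mul_le_mul_right _ h2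
      exact Nat.log_eq_of_pow_le_of_lt_pow (by omega) (by omega)
    rw [pv, h3, Nat.mul_div_cancel _ (hp0 l)]

theorem val_add (l : ℕ) (x y : ℕ → Ω) (a : ℕ) :
    val Ω p C l (fun s => x s + y s) a = val Ω p C l x a + val Ω p C l y a := by
  induction l generalizing a with
  | zero => rfl
  | succ l ih => simp only [val, ih, mul_add, sum_add_distrib]

theorem val_sub (l : ℕ) (x y : ℕ → Ω) (a : ℕ) :
    val Ω p C l (fun s => x s - y s) a = val Ω p C l x a - val Ω p C l y a := by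
  induction l generalizing a with
  | zero => rfl
  | succ l ih => simp only [val, ih, mul_sub, sum_sub_distrib]

theorem val_mul (l : ℕ) (c : Ω) (x : ℕ → Ω) (a : ℕ) :
    val Ω p C l (fun s => c * x s) a = c * val Ω p C l x a := by
  induction l generalizing a with
  | zero => rfl
  | succ l ih =>
    simp only [val, ih, mul_sum]
    exact sum_congr rfl fun i _ => by ring

theorem val_sum {ι : Type*} (s : Finset ι) (l : ℕ) (x : ι → ℕ → Ω) (a : ℕ) :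
    val Ω p C l (fun u => ∑ i ∈ s, x i u) a = ∑ i ∈ s, val Ω p C l (x i) a := by
  induction l generalizing a with
  | zero => rfl
  | succ l ih =>
    simp only [val, ih, mul_sum]
    exact sum_comm

theorem val_shift (l : ℕ) (x : ℕ → Ω) (a b : ℕ) :
    val Ω p C l (fun s => x (s + b)) a = val Ω p C l x (a + b) := by
  induction l generalizing a with
  | zero => rfl
  | succ l ih =>
    simp only [val, ih]
    exact sum_congr rfl fun i _ => by rw [add_right_comm]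

theorem unit_sub {l μ i a s : ℕ} (hi : i < μ) (h1 : a + i * C ^ l ≤ s)
    (h2 : s < a + i * C ^ l + C ^ l) : a ≤ s ∧ s < a + μ * C ^ l := by
  have : (i + 1) * C ^ l ≤ μ * C ^ l := Nat.mul_le_mul_right _ hi
  rw [add_mul, one_mul] at this
  omega

theorem val_congr (l : ℕ) {x y : ℕ → Ω} {a : ℕ} (h : ∀ s, a ≤ s → s < a + C ^ l → x s = y s) :
    val Ω p C l x a = val Ω p C l y a := by
  induction l generalizing a with
  | zero => exact h a le_rfl (by simp)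
  | succ l ih =>
    refine sum_congr rfl fun i hi => ?_
    rw [ih fun s h1 h2 => ?_]
    have := unit_sub (mem_range.1 hi) h1 h2
    exact h s this.1 (by rw [pow_succ']; exact this.2)

theorem bv_add (l μ : ℕ) (x y : ℕ → Ω) (a : ℕ) :
    bv Ω p C l μ (fun s => x s + y s) a = bv Ω p C l μ x a + bv Ω p C l μ y a := by
  simp only [bv, val_add, mul_add, sum_add_distrib]

theorem bv_sub (l μ : ℕ) (x y : ℕ → Ω) (a : ℕ) :
    bv Ω p C l μ (fun s => x s - y s) a = bv Ω p C l μ x a - bv Ω p C l μ y a := by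
  simp only [bv, val_sub, mul_sub, sum_sub_distrib]

theorem bv_mul (l μ : ℕ) (c : Ω) (x : ℕ → Ω) (a : ℕ) :
    bv Ω p C l μ (fun s => c * x s) a = c * bv Ω p C l μ x a := by
  simp only [bv, val_mul, mul_sum]
  exact sum_congr rfl fun i _ => by ring

theorem bv_congr (l μ : ℕ) {x y : ℕ → Ω} {a : ℕ}
    (h : ∀ s, a ≤ s → s < a + μ * C ^ l → x s = y s) : bv Ω p C l μ x a = bv Ω p C l μ y a := by
  refine sum_congr rfl fun i hi => ?_
  rw [val_congr l fun s h1 h2 => ?_]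
  have := unit_sub (mem_range.1 hi) h1 h2
  exact h s this.1 this.2

theorem val_mem (hC : C ≠ 0) (l : ℕ) {x : ℕ → Ω} (hx : ∀ s, x s ∈ Fx Ω p 1) (a : ℕ) :
    val Ω p C l x a ∈ Fx Ω p (C ^ l) := by
  induction l generalizing a with
  | zero => simpa [val] using hx a
  | succ l ih =>
    rw [pow_succ']
    exact gen_mem (al_spec hC l hC).1 fun i _ => ih _

theorem bv_mem (hC : C ≠ 0) (l : ℕ) {μ : ℕ} (hμ : μ ≠ 0) {x : ℕ → Ω} (hx : ∀ s, x s ∈ Fx Ω p 1)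
    (a : ℕ) : bv Ω p C l μ x a ∈ Fx Ω p (μ * C ^ l) :=
  gen_mem (al_spec hC l hμ).1 fun _ _ => val_mem hC l hx _

theorem unit_of {l μ a s : ℕ} (hC : C ≠ 0) (h1 : a ≤ s) (h2 : s < a + μ * C ^ l) :
    (s - a) / C ^ l < μ ∧ a + (s - a) / C ^ l * C ^ l ≤ s ∧
      s < a + (s - a) / C ^ l * C ^ l + C ^ l := by
  have h0 : 0 < C ^ l := pow_pos (Nat.pos_of_ne_zero hC) l
  have h3 := Nat.div_mul_le_self (s - a) (C ^ l)
  have h4 := Nat.lt_div_mul_add (a := s - a) h0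
  refine ⟨(Nat.div_lt_iff_lt_mul h0).2 (by omega), by omega, by omega⟩

theorem bv_eq_zero_units (hC : C ≠ 0) {l μ : ℕ} {x : ℕ → Ω} (hx : ∀ s, x s ∈ Fx Ω p 1) {a : ℕ}
    (h : bv Ω p C l μ x a = 0) : ∀ i < μ, val Ω p C l x (a + i * C ^ l) = 0 := fun i hi =>
  gen_indep (al_spec hC l (by omega)).2 (c := fun i => val Ω p C l x (a + i * C ^ l))
    (fun _ _ => val_mem hC l hx _) h i hi

theorem val_eq_zero (hC : C ≠ 0) {l : ℕ} {x : ℕ → Ω} (hx : ∀ s, x s ∈ Fx Ω p 1) {a : ℕ}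
    (h : val Ω p C l x a = 0) : ∀ s, a ≤ s → s < a + C ^ l → x s = 0 := by
  induction l generalizing a with
  | zero =>
    intro s h1 h2
    obtain rfl : s = a := by simp at h2; omega
    exact h
  | succ l ih =>
    intro s h1 h2
    rw [pow_succ'] at h2
    obtain ⟨h3, h4, h5⟩ := unit_of hC h1 h2
    exact ih (bv_eq_zero_units hC hx h _ h3) s h4 h5

theorem bv_eq_zero (hC : C ≠ 0) {l μ : ℕ} {x : ℕ → Ω} (hx : ∀ s, x s ∈ Fx Ω p 1) {a : ℕ}
    (h : bv Ω p C l μ x a = 0) : ∀ s, a ≤ s → s < a + μ * C ^ l → x s = 0 := by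
  intro s h1 h2
  obtain ⟨h3, h4, h5⟩ := unit_of hC h1 h2
  exact val_eq_zero hC hx (bv_eq_zero_units hC hx h _ h3) s h4 h5

theorem val_inj (hC : C ≠ 0) {l : ℕ} {x y : ℕ → Ω} (hx : ∀ s, x s ∈ Fx Ω p 1)
    (hy : ∀ s, y s ∈ Fx Ω p 1) {a : ℕ} (h : val Ω p C l x a = val Ω p C l y a) :
    ∀ s, a ≤ s → s < a + C ^ l → x s = y s := fun s h1 h2 =>
  sub_eq_zero.1 (val_eq_zero hC (x := fun s => x s - y s) (fun s => sub_mem (hx s) (hy s))
    (by rw [val_sub, h, sub_self]) s h1 h2)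

theorem bv_inj (hC : C ≠ 0) {l μ : ℕ} {x y : ℕ → Ω} (hx : ∀ s, x s ∈ Fx Ω p 1)
    (hy : ∀ s, y s ∈ Fx Ω p 1) {a : ℕ} (h : bv Ω p C l μ x a = bv Ω p C l μ y a) :
    ∀ s, a ≤ s → s < a + μ * C ^ l → x s = y s := fun s h1 h2 =>
  sub_eq_zero.1 (bv_eq_zero hC (x := fun s => x s - y s) (fun s => sub_mem (hx s) (hy s))
    (by rw [bv_sub, h, sub_self]) s h1 h2)

/-- Prescribed unit values are attained, given that one unit value is. -/
theorem units_surj (hC : C ≠ 0) {l : ℕ}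
    (H : ∀ a, ∀ y ∈ Fx Ω p (C ^ l), ∃ x : ℕ → Ω, (∀ s, x s ∈ Fx Ω p 1) ∧ val Ω p C l x a = y)
    (a : ℕ) {c : ℕ → Ω} (hc : ∀ i, c i ∈ Fx Ω p (C ^ l)) :
    ∃ x : ℕ → Ω, (∀ s, x s ∈ Fx Ω p 1) ∧ ∀ i, val Ω p C l x (a + i * C ^ l) = c i := by
  choose x h1 h2 using fun i => H (a + i * C ^ l) (c i) (hc i)
  refine ⟨fun s => x ((s - a) / C ^ l) s, fun s => h1 _ s, fun i => ?_⟩
  rw [← h2 i]
  refine val_congr l fun s h3 h4 => ?_
  have h0 : 0 < C ^ l := pow_pos (Nat.pos_of_ne_zero hC) l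
  rw [Nat.div_eq_of_lt_le (k := i) (by omega) (by rw [add_mul, one_mul]; omega)]

theorem val_surj (hC : C ≠ 0) (l a : ℕ) {y : Ω} (hy : y ∈ Fx Ω p (C ^ l)) :
    ∃ x : ℕ → Ω, (∀ s, x s ∈ Fx Ω p 1) ∧ val Ω p C l x a = y := by
  induction l generalizing a y with
  | zero => exact ⟨fun _ => y, fun _ => by simpa using hy, rfl⟩
  | succ l ih =>
    rw [pow_succ'] at hy
    obtain ⟨c, h1, h2⟩ := gen_span (pow_ne_zero l hC) hC (al_spec hC l hC).1 (al_spec hC l hC).2 hy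
    obtain ⟨x, h3, h4⟩ := units_surj hC (fun a y hy => ih a hy) a h1
    exact ⟨x, h3, by simp only [val, h4, h2]⟩

theorem bv_surj (hC : C ≠ 0) (l : ℕ) {μ : ℕ} (hμ : μ ≠ 0) (a : ℕ) {y : Ω}
    (hy : y ∈ Fx Ω p (μ * C ^ l)) :
    ∃ x : ℕ → Ω, (∀ s, x s ∈ Fx Ω p 1) ∧ bv Ω p C l μ x a = y := by
  obtain ⟨c, h1, h2⟩ := gen_span (pow_ne_zero l hC) hμ (al_spec hC l hμ).1 (al_spec hC l hμ).2 hy
  obtain ⟨x, h3, h4⟩ := units_surj hC (fun a y hy => val_surj hC l a hy) a h1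
  exact ⟨x, h3, by simp only [bv, h4, h2]⟩

end Pool.Agent.P.MP_d5a1e1_nt.TB
end

-- part Pool.Agent.P.MP_d5a1e1_nt.TBSys0
section

/-! Digit vectors as field elements, and the conics over them. -/

namespace Pool.Agent.P.MP_d5a1e1_nt.TB

open Finset

variable {Ω : Type*} [Field Ω] [IsAlgClosed Ω] {p : ℕ} [hp : Fact p.Prime] [CharP Ω p]

/-- The matrix of conjugates of a spanning family of the right size is invertible. -/
theorem moore_det {m d : ℕ} (hd : d ≠ 0) (hm : m ≠ 0) {b : Fin m → Ω}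
    (hb : ∀ y ∈ Fx Ω p (m * d), ∃ c : Fin m → Ω, (∀ i, c i ∈ Fx Ω p d) ∧ ∑ i, b i * c i = y) :
    (Matrix.of fun j i : Fin m => b i ^ (p ^ d) ^ (j : ℕ)).det ≠ 0 := by
  intro h0
  obtain ⟨v, hv, h1⟩ := Matrix.exists_vecMul_eq_zero_iff.2 h0
  obtain ⟨α, hα, hi⟩ := exists_gen (Ω := Ω) (p := p) hd hm
  refine hv (Matrix.eq_zero_of_vecMul_eq_zero (det_conj hi) (funext fun i => ?_))
  obtain ⟨c, hc, h2⟩ := hb (α ^ (i : ℕ)) (pow_mem hα _)
  simp only [Matrix.vecMul, dotProduct, Matrix.of_apply, Pi.zero_apply, ← h2, sum_pow_frob,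
    mul_pow, Fx_pow (hc _), mul_sum]
  rw [sum_comm]
  refine sum_eq_zero fun a _ => ?_
  have h3 := congrFun h1 a
  simp only [Matrix.vecMul, dotProduct, Matrix.of_apply, Pi.zero_apply] at h3
  simp only [← mul_assoc]
  rw [← sum_mul, h3, zero_mul]

/-- A conic over the large field perturbed by any quadratic map over the small field. -/
theorem bez {m d : ℕ} (hd : d ≠ 0) (hm : m ≠ 0) {b : Fin m → Ω}
    (hb : ∀ y ∈ Fx Ω p (m * d), ∃ c : Fin m → Ω, (∀ i, c i ∈ Fx Ω p d) ∧ ∑ i, b i * c i = y)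
    {k : Ω} (hk : k ≠ 0) (G : Fin m → (Fin m → Ω) → Ω) (hG : ∀ i, IsQuad (G i)) :
    ∃ bad : Finset Ω, bad.card ≤ (m + 2) ^ m ∧ ∀ t, t ≠ 0 → t⁻¹ ∉ bad → t ∈ Fx Ω p d →
      ∀ f : Fin m → (Fin m → Ω) → Ω, (∀ i, IsAff (f i)) → ∀ Z : Finset (Fin m → Ω),
        (∀ y ∈ Z, (∀ i, y i ∈ Fx Ω p d ∧ G i y + f i y ∈ Fx Ω p d) ∧
          ∑ i, b i * (G i y + f i y) + t * k * (∑ i, b i * y i) ^ 2 = 0) →
        Z.card ≤ (m + 1) ^ m := by
  obtain ⟨bad, h1, h2⟩ := macaulay_fun _ (moore_det hd hm hb)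
    (fun j => k ^ (p ^ d) ^ (j : ℕ)) (fun j => pow_ne_zero _ hk)
    (fun j c => ∑ i, b i ^ (p ^ d) ^ (j : ℕ) * G i c)
    fun j => IsQuad.sum _ fun i _ => IsQuad.mul _ (hG i)
  rw [Fintype.card_fin] at h1 h2
  refine ⟨bad, h1, fun t ht0 ht htF f hf Z hZ => h2 t⁻¹ ht
    (fun j c => t⁻¹ * ∑ i, b i ^ (p ^ d) ^ (j : ℕ) * f i c)
    (fun j => IsAff.mul _ (IsAff.sum _ fun i _ => IsAff.mul _ (hf i))) Z fun y hy j => ?_⟩
  obtain ⟨g1, g2⟩ := hZ y hy
  have h3 := congrArg (· ^ (p ^ d) ^ (j : ℕ)) g2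
  simp only [zero_pow (pow_pos (pow_pos hp.out.pos d) _).ne'] at h3
  rw [← pow_mul p, add_pow_char_pow, pow_mul p, mul_pow, mul_pow, pow_right_comm _ 2,
    sum_pow_frob, sum_pow_frob, Fx_pow htF] at h3
  simp only [mul_pow, Fx_pow (g1 _).1, Fx_pow (g1 _).2] at h3
  simp only [mul_add, sum_add_distrib] at h3
  simp only [Matrix.of_apply]
  have h4 := inv_mul_cancel₀ ht0
  linear_combination t⁻¹ * h3 -
    k ^ (p ^ d) ^ (j : ℕ) * (∑ a, b a ^ (p ^ d) ^ (j : ℕ) * y a) ^ 2 * h4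

variable (Ω) in
/-- Residues as elements of the closed field. -/
def io : ZMod p →+* Ω := ZMod.castHom (dvd_refl p) Ω

omit [IsAlgClosed Ω] in
theorem io_mem (x : ZMod p) (d : ℕ) : io Ω x ∈ Fx Ω p d := by
  refine Fx_mono (one_dvd d) ?_
  rw [mem_Fx, pow_one, ← map_pow, ZMod.pow_card]

omit [IsAlgClosed Ω] in
theorem io_inj : Function.Injective (io Ω : ZMod p → Ω) := (io Ω).injective

omit [IsAlgClosed Ω] in
theorem io_surj {y : Ω} (hy : y ∈ Fx Ω p 1) : ∃ x : ZMod p, io Ω x = y := by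
  obtain ⟨n, -, h⟩ := mem_Fx_one.1 hy
  exact ⟨n, by rw [map_natCast, h]⟩

/-- The level of the units in which an interval of length `l` is read. -/
def lev (C l : ℕ) : ℕ := if C ^ Nat.log C (l - 1) ∣ l then Nat.log C (l - 1) else 0

theorem lev_dvd (C l : ℕ) : l / C ^ lev C l * C ^ lev C l = l := by
  apply Nat.div_mul_cancel
  unfold lev
  split_ifs with h
  · exact h
  · simp

variable (Ω) in
/-- The field element read from the first `l` digits. -/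
noncomputable def ph (C l : ℕ) (x : ℕ → ZMod p) : Ω :=
  bv Ω p C (lev C l) (l / C ^ lev C l) (fun s => io Ω (x s)) 0

variable {C l : ℕ}

theorem ph_eq (hC : 2 ≤ C) (v : ℕ) {μ : ℕ} (h1 : 1 ≤ μ) (h2 : μ ≤ C) (x : ℕ → ZMod p) :
    ph Ω C (μ * C ^ v) x = bv Ω p C v μ (fun s => io Ω (x s)) 0 := by
  have h0 : 0 < C ^ v := pow_pos (by omega) v
  have h3 : μ * C ^ v ≤ C ^ (v + 1) := by rw [pow_succ']; exact Nat.mul_le_mul_right _ h2
  have h4 : 1 * C ^ v ≤ μ * C ^ v := Nat.mul_le_mul_right _ h1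
  have h5 : Nat.log C (μ * C ^ v - 1) ≤ v := by
    rcases Nat.eq_zero_or_pos (μ * C ^ v - 1) with h | h
    · rw [h]; simp
    · exact Nat.lt_add_one_iff.1 (Nat.log_lt_of_lt_pow h.ne' (by omega))
  have h6 : lev C (μ * C ^ v) = Nat.log C (μ * C ^ v - 1) :=
    if_pos ((pow_dvd_pow C h5).trans (Dvd.intro_left _ rfl))
  rw [ph, h6]
  exact pv_eq hC v h1 h2 _ 0

theorem ph_add (x y : ℕ → ZMod p) : ph Ω C l (x + y) = ph Ω C l x + ph Ω C l y := by
  simp only [ph, Pi.add_apply, map_add, bv_add]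

theorem ph_sub (x y : ℕ → ZMod p) : ph Ω C l (x - y) = ph Ω C l x - ph Ω C l y := by
  simp only [ph, Pi.sub_apply, map_sub, bv_sub]

theorem ph_mul (c : ZMod p) (x : ℕ → ZMod p) :
    ph Ω C l (fun r => c * x r) = io Ω c * ph Ω C l x := by
  simp only [ph, map_mul, bv_mul]

theorem ph_sum {ι : Type*} (s : Finset ι) (x : ι → ℕ → ZMod p) :
    ph Ω C l (fun r => ∑ i ∈ s, x i r) = ∑ i ∈ s, ph Ω C l (x i) := by
  simp only [ph, bv, map_sum, val_sum, mul_sum]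
  exact sum_comm

theorem ph_congr {x y : ℕ → ZMod p} (h : ∀ r < l, x r = y r) : ph Ω C l x = ph Ω C l y :=
  bv_congr _ _ fun s _ hs => by rw [h s (by rwa [zero_add, lev_dvd] at hs)]

theorem div_lev_ne (hl : l ≠ 0) : l / C ^ lev C l ≠ 0 := fun h => by
  have := lev_dvd C l
  rw [h, zero_mul] at this
  exact hl this.symm

theorem ph_mem (hC : C ≠ 0) (hl : l ≠ 0) (x : ℕ → ZMod p) : ph Ω C l x ∈ Fx Ω p l := by
  have := bv_mem (Ω := Ω) (p := p) hC (lev C l) (div_lev_ne (C := C) hl)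
    (fun s => io_mem (x s) 1) 0
  rwa [lev_dvd] at this

theorem ph_inj (hC : C ≠ 0) {x y : ℕ → ZMod p} (h : ph Ω C l x = ph Ω C l y) :
    ∀ r < l, x r = y r := fun r hr =>
  io_inj (bv_inj hC (fun s => io_mem (x s) 1) (fun s => io_mem (y s) 1) h r (Nat.zero_le _)
    (by rwa [zero_add, lev_dvd]))

theorem ph_surj (hC : C ≠ 0) (hl : l ≠ 0) {y : Ω} (hy : y ∈ Fx Ω p l) :
    ∃ x : ℕ → ZMod p, ph Ω C l x = y := by
  obtain ⟨x, h1, h2⟩ := bv_surj (Ω := Ω) (p := p) hC (lev C l) (div_lev_ne hl) 0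
    (y := y) (by rwa [lev_dvd])
  choose x' hx' using fun s => io_surj (h1 s)
  exact ⟨x', by simp only [ph, hx', h2]⟩

theorem ph_basis (x : ℕ → ZMod p) :
    ph Ω C l x = ∑ i ∈ range l, ph Ω C l (Pi.single i (1 : ZMod p)) * io Ω (x i) := by
  rw [ph_congr (y := fun r => ∑ i ∈ range l, x i * (Pi.single i (1 : ZMod p) : ℕ → ZMod p) r)
    fun r hr => by simp [Pi.single_apply, hr], ph_sum]
  exact sum_congr rfl fun i _ => by rw [ph_mul, mul_comm]

/-- The basic conics: coefficients `k` and digit forms `z`. -/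
theorem exists_conics (hC : C ≠ 0) (h7 : 7 < p) :
    ∃ (k : ℕ → Fin 3 → Ω) (z : ℕ → Fin 3 → ℕ → ℕ → ℕ → ZMod p), ∀ l, l ≠ 0 →
      (∀ a, k l a ∈ Fx Ω p l) ∧ (∀ a b, k l a + k l b ≠ 0) ∧
      (∀ u ∈ Fx Ω p l, ∀ v ∈ Fx Ω p l, ∃ a b : Fin 3, ∃ x ∈ Fx Ω p l, ∃ y ∈ Fx Ω p l,
        x + y = u ∧ k l a * x ^ 2 + k l b * y ^ 2 = v) ∧
      ∀ a (x : ℕ → ZMod p), ph Ω C l (fun r => ∑ i ∈ range l, ∑ j ∈ range l,
        x i * x j * z l a i j r) = k l a * ph Ω C l x ^ 2 := by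
  choose! k h1 h2 h3 using fun (l : ℕ) (hl : l ≠ 0) => exists_kk (Ω := Ω) h7 hl
  choose! z hz using fun (l : ℕ) (hl : l ≠ 0) (a : Fin 3) (i j : ℕ) => ph_surj hC hl
    (mul_mem (h1 l hl a) (mul_mem (ph_mem hC hl (Pi.single i (1 : ZMod p)))
      (ph_mem hC hl (Pi.single j (1 : ZMod p)))))
  refine ⟨k, z, fun l hl => ⟨h1 l hl, h2 l hl, h3 l hl, fun a x => ?_⟩⟩
  rw [ph_basis x, sq, sum_mul_sum, ph_sum, mul_sum]
  refine sum_congr rfl fun i _ => ?_
  rw [ph_sum, mul_sum]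
  refine sum_congr rfl fun j _ => ?_
  rw [ph_mul, hz l hl, map_mul]
  ring

end Pool.Agent.P.MP_d5a1e1_nt.TB
end

-- part Pool.Agent.P.MP_d5a1e1_nt.TBSys
section

/-! A universal system of quadratic digit maps on intervals. -/

namespace Pool.Agent.P.MP_d5a1e1_nt.TB

open Finset

/-- The quadratic map assembled from shorter intervals. -/
def oldQ {p : ℕ} (Q : ℕ → Fin 3 → (ℕ → ZMod p) → ℕ → ZMod p) (cfg : ℕ → Option (ℕ × ℕ × Fin 3))
    (x : ℕ → ZMod p) (r : ℕ) : ZMod p :=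
  match cfg r with
  | none => 0
  | some c => Q c.2.1 c.2.2 (fun i => x (c.1 + i)) (r - c.1)

/-- Members of `Z` are determined by their first `l` coordinates. -/
def Sep {p : ℕ} (l : ℕ) (Z : Finset (ℕ → ZMod p)) : Prop :=
  ∀ y ∈ Z, ∀ y' ∈ Z, (∀ r < l, y r = y' r) → y = y'

/-- A universal interval system up to length `τ`. -/
structure IntSys (p C τ : ℕ) (Q : ℕ → Fin 3 → (ℕ → ZMod p) → ℕ → ZMod p) : Prop where
  loc : ∀ l a x x', (∀ i < l, x i = x' i) → Q l a x = Q l a x'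
  cover : ∀ l, 1 ≤ l → l ≤ τ → ∀ U V : ℕ → ZMod p, ∃ a a' x y,
    ∀ r < l, x r + y r = U r ∧ Q l a x r + Q l a' y r = V r
  two : ∀ l, 1 ≤ l → l ≤ τ → ∀ a a' (U V : ℕ → ZMod p) (Z : Finset (ℕ → ZMod p)), Sep l Z →
    (∀ y ∈ Z, ∀ r < l, Q l a (U - y) r + Q l a' y r = V r) → Z.card ≤ 2
  merge : ∀ v μ, 1 ≤ μ → μ < C → (μ + 1) * C ^ v ≤ τ →
    ∀ a₁ a₂ a (U V : ℕ → ZMod p) (Z : Finset (ℕ → ZMod p)), Sep ((μ + 1) * C ^ v) Z →
    (∀ y ∈ Z, (∀ r < μ * C ^ v,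
        Q (μ * C ^ v) a₁ (U - y) r + Q ((μ + 1) * C ^ v) a y r = V r) ∧
      ∀ r < C ^ v, Q (C ^ v) a₂ (fun i => (U - y) (μ * C ^ v + i)) r +
        Q ((μ + 1) * C ^ v) a y (μ * C ^ v + r) = V (μ * C ^ v + r)) → Z.card ≤ (C + 1) ^ C
  crude : ∀ l, 1 ≤ l → l ≤ τ → ∀ cfg : ℕ → Option (ℕ × ℕ × Fin 3),
    (∀ r < l, ∀ c, cfg r = some c → c.2.1 < l ∧ c.1 + c.2.1 ≤ l) →
    ∀ a (U V : ℕ → ZMod p) (Z : Finset (ℕ → ZMod p)), Sep l Z →
    (∀ y ∈ Z, ∀ r < l, oldQ Q cfg (U - y) r + Q l a y r = V r) → Z.card ≤ (l + 1) ^ l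

/-- The conic on `l` digits with digit forms `z` and factor `s`. -/
def conQ {p : ℕ} (z : ℕ → Fin 3 → ℕ → ℕ → ℕ → ZMod p) (s : ZMod p) (l : ℕ) (a : Fin 3)
    (x : ℕ → ZMod p) (r : ℕ) : ZMod p :=
  s * ∑ i ∈ range l, ∑ j ∈ range l, x i * x j * z l a i j r

theorem conQ_loc {p : ℕ} (z : ℕ → Fin 3 → ℕ → ℕ → ℕ → ZMod p) (s : ZMod p) (l : ℕ) (a : Fin 3)
    {x x' : ℕ → ZMod p} (h : ∀ i < l, x i = x' i) : conQ z s l a x = conQ z s l a x' := by
  funext r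
  unfold conQ
  congr 1
  exact sum_congr rfl fun i hi => sum_congr rfl fun j hj => by
    rw [h i (mem_range.1 hi), h j (mem_range.1 hj)]

theorem exists_avoid_bad {p : ℕ} [hp : Fact p.Prime] {ι : Type*} (I : Finset ι) (P : ι → ZMod p → Prop)
    {N : ℕ} (h : ∀ i ∈ I, ∃ bad : Finset (ZMod p), bad.card ≤ N ∧ ∀ s, s ≠ 0 → s ∉ bad → P i s) :
    ∃ bad : Finset (ZMod p), bad.card ≤ I.card * N ∧ ∀ s, s ≠ 0 → s ∉ bad → ∀ i ∈ I, P i s := by
  choose! bad h1 h2 using h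
  refine ⟨I.biUnion bad, card_biUnion_le.trans (sum_le_card_nsmul _ _ _ h1), fun s h0 hs i hi =>
    h2 i hi s h0 fun hb => hs (mem_biUnion.2 ⟨i, hi, hb⟩)⟩

section Core

variable {Ω : Type*} [Field Ω] [IsAlgClosed Ω] {p : ℕ} [hp : Fact p.Prime] [CharP Ω p] {C : ℕ}
  {k : ℕ → Fin 3 → Ω} {z : ℕ → Fin 3 → ℕ → ℕ → ℕ → ZMod p}

variable (C k z) in
/-- The digit forms `z` represent the conics with coefficients `k`. -/
def Repr : Prop := ∀ l, l ≠ 0 → ∀ a (x : ℕ → ZMod p),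
  ph Ω C l (fun r => ∑ i ∈ range l, ∑ j ∈ range l, x i * x j * z l a i j r) =
    k l a * ph Ω C l x ^ 2

theorem Repr.ph_conQ (H : Repr C k z) {l : ℕ} (hl : l ≠ 0) (s : ZMod p) (a : Fin 3)
    (x : ℕ → ZMod p) : ph Ω C l (conQ z s l a x) = io Ω s * k l a * ph Ω C l x ^ 2 := by
  rw [mul_assoc, ← H l hl, ← ph_mul]
  rfl

omit [IsAlgClosed Ω] in
theorem card_pre_le (bad : Finset Ω) (g : ZMod p → ZMod p) (hg : Function.Injective g) :
    ∃ B : Finset (ZMod p), B.card ≤ bad.card ∧ ∀ s, s ∉ B → io Ω (g s) ∉ bad := by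
  classical
  refine ⟨univ.filter fun s => io Ω (g s) ∈ bad, card_le_card_of_injOn (fun s => io Ω (g s))
    (fun s hs => (mem_filter.1 hs).2) fun a _ b _ h => hg (io_inj h),
    fun s hs hb => hs (mem_filter.2 ⟨mem_univ _, hb⟩)⟩

theorem crude_core (hC : C ≠ 0) (H : Repr C k z) {l : ℕ} (hl : l ≠ 0) {a : Fin 3}
    (hk : k l a ≠ 0) (t : ℕ → ZMod p) (cfg : ℕ → Option (ℕ × ℕ × Fin 3))
    (hc : ∀ r < l, ∀ c, cfg r = some c → c.1 + c.2.1 ≤ l) :
    ∃ bad : Finset (ZMod p), bad.card ≤ (l + 2) ^ l ∧ ∀ s, s ≠ 0 → s ∉ bad →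
      ∀ (U V : ℕ → ZMod p) (Z : Finset (ℕ → ZMod p)), Sep l Z →
      (∀ y ∈ Z, ∀ r < l, oldQ (fun l' => conQ z (t l') l') cfg (U - y) r + conQ z s l a y r = V r) →
      Z.card ≤ (l + 1) ^ l := by
  classical
  obtain ⟨L, hL⟩ : ∃ L : ℕ → (Fin l → Ω) → Ω, L = fun u c =>
    if hu : u < l then c ⟨u, hu⟩ else 0 := ⟨_, rfl⟩
  have hlin : ∀ u, IsLin (L u) := fun u => by
    rw [hL]
    by_cases hu : u < l
    · exact ⟨Pi.single ⟨u, hu⟩ 1, fun c => by simp [hu, Pi.single_apply]⟩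
    · exact ⟨0, fun c => by simp [hu]⟩
  have hLy : ∀ (y : ℕ → ZMod p), ∀ u < l, L u (fun i => io Ω (y i)) = io Ω (y u) :=
    fun y u hu => by simp only [hL, dif_pos hu]
  have hG : ∀ r : Fin l, ∃ G : (Fin l → Ω) → Ω, IsQuad G ∧ ∀ U : ℕ → ZMod p,
      ∃ f : (Fin l → Ω) → Ω, IsAff f ∧ ∀ y : ℕ → ZMod p,
        G (fun i => io Ω (y i)) + f (fun i => io Ω (y i)) =
          io Ω (oldQ (fun l' => conQ z (t l') l') cfg (U - y) r) := by
    intro r
    rcases hr : cfg r with _ | c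
    · exact ⟨fun _ => 0, ⟨0, fun c => by simp⟩, fun U => ⟨fun _ => 0, IsAff.const _, fun y => by
        simp [oldQ, hr]⟩⟩
    · have h1 := hc r r.2 c hr
      refine ⟨fun x => io Ω (t c.2.1) * ∑ i ∈ range c.2.1, ∑ j ∈ range c.2.1,
        io Ω (z c.2.1 c.2.2 i j (r - c.1)) * (L (c.1 + i) x * L (c.1 + j) x),
        IsQuad.mul _ (IsQuad.sum _ fun i _ => IsQuad.sum _ fun j _ =>
          IsQuad.mul _ ((hlin _).mul (hlin _))), fun U => ?_⟩
      refine ⟨fun x => io Ω (t c.2.1) * ∑ i ∈ range c.2.1, ∑ j ∈ range c.2.1,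
        io Ω (z c.2.1 c.2.2 i j (r - c.1)) * (io Ω (U (c.1 + i)) * io Ω (U (c.1 + j)) +
          -io Ω (U (c.1 + i)) * L (c.1 + j) x + -io Ω (U (c.1 + j)) * L (c.1 + i) x),
        IsAff.mul _ (IsAff.sum _ fun i _ => IsAff.sum _ fun j _ => IsAff.mul _
          (((IsAff.const _).add (IsAff.mul _ (hlin _).aff)).add (IsAff.mul _ (hlin _).aff))),
        fun y => ?_⟩
      simp only [oldQ, hr, conQ, map_mul, map_sum, Pi.sub_apply, map_sub]
      rw [← mul_add, ← sum_add_distrib]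
      congr 1
      refine sum_congr rfl fun i hi => ?_
      rw [← sum_add_distrib]
      refine sum_congr rfl fun j hj => ?_
      rw [hLy y _ (by have := mem_range.1 hi; omega), hLy y _ (by have := mem_range.1 hj; omega)]
      ring
  choose G hG1 hG2 using hG
  have hb : ∀ x : ℕ → ZMod p, ph Ω C l x =
      ∑ i : Fin l, ph Ω C l (Pi.single (i : ℕ) (1 : ZMod p)) * io Ω (x i) := fun x => by
    rw [ph_basis x, sum_range]
  obtain ⟨bad, h1, h2⟩ := bez (Ω := Ω) (p := p) (d := 1) one_ne_zero hl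
    (b := fun i : Fin l => ph Ω C l (Pi.single (i : ℕ) (1 : ZMod p))) (fun y hy => by
      obtain ⟨x, rfl⟩ := ph_surj hC hl (by rwa [mul_one] at hy)
      exact ⟨fun i => io Ω (x i), fun i => io_mem _ _, (hb x).symm⟩) hk G hG1
  obtain ⟨B, h3, h4⟩ := card_pre_le bad (fun s : ZMod p => s⁻¹) inv_injective
  refine ⟨B, h3.trans h1, fun s h0 hs U V Z hS hZ => ?_⟩
  choose f hf1 hf2 using fun r => hG2 r U
  have key := h2 (io Ω s) ((map_ne_zero _).2 h0) (by rw [← map_inv₀]; exact h4 s hs) (io_mem _ _)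
    (fun r c => f r c + -io Ω (V r)) (fun r => (hf1 r).add (IsAff.const _))
    (Z.image fun y i => io Ω (y i)) ?_
  · rwa [card_image_of_injOn] at key
    exact fun y hy y' hy' h => hS y hy y' hy' fun r hr => io_inj (congrFun h ⟨r, hr⟩)
  intro c hc
  obtain ⟨y, hy, rfl⟩ := mem_image.1 hc
  have e : ∀ r : Fin l, G r (fun i => io Ω (y i)) + (f r (fun i => io Ω (y i)) + -io Ω (V r)) =
      io Ω ((0 - conQ z s l a y) r) := fun r => by
    rw [← add_assoc, hf2, ← hZ y hy r r.2]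
    simp
  refine ⟨fun i => ⟨io_mem _ _, by rw [e]; exact io_mem _ _⟩, ?_⟩
  simp only [e]
  rw [← hb, ← hb, ph_sub, H.ph_conQ hl]
  have h5 : ph Ω C l (0 : ℕ → ZMod p) = 0 := by
    rw [hb]
    simp only [Pi.zero_apply, map_zero, mul_zero, sum_const_zero]
  rw [h5]
  ring

theorem merge_core (hC : 2 ≤ C) (H : Repr C k z) {v μ : ℕ} (h1 : 1 ≤ μ) (h2 : μ < C)
    (hk : ∀ l, l ≠ 0 → ∀ a, k l a ≠ 0) (hkF : ∀ l, l ≠ 0 → ∀ a, k l a ∈ Fx Ω p l)
    {t₁ t₂ : ZMod p} (ht₁ : t₁ ≠ 0) (ht₂ : t₂ ≠ 0) (a₁ a₂ a : Fin 3) :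
    ∃ bad : Finset (ZMod p), bad.card ≤ (μ + 1 + 2) ^ (μ + 1) ∧ ∀ s, s ≠ 0 → s ∉ bad →
      ∀ (U V : ℕ → ZMod p) (Z : Finset (ℕ → ZMod p)), Sep ((μ + 1) * C ^ v) Z →
      (∀ y ∈ Z, (∀ r < μ * C ^ v,
          conQ z t₁ (μ * C ^ v) a₁ (U - y) r + conQ z s ((μ + 1) * C ^ v) a y r = V r) ∧
        ∀ r < C ^ v, conQ z t₂ (C ^ v) a₂ (fun i => (U - y) (μ * C ^ v + i)) r +
          conQ z s ((μ + 1) * C ^ v) a y (μ * C ^ v + r) = V (μ * C ^ v + r)) →
      Z.card ≤ (C + 1) ^ C := by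
  classical
  have hC0 : C ≠ 0 := by omega
  have hd : C ^ v ≠ 0 := pow_ne_zero _ hC0
  have hμ : μ ≠ 0 := by omega
  have hb : IsBlocks (μ + 1) (fun j => if j < μ then 0 else μ) fun a => if a = 0 then μ else 1 := by
    intro j hj
    by_cases h : j < μ
    · simp only [if_pos h, if_true, zero_add]
      exact ⟨Nat.zero_le _, h, by omega, fun i _ hi => if_pos hi⟩
    · simp only [if_neg h, if_neg hμ]
      exact ⟨by omega, by omega, le_rfl, fun i hi _ => if_neg (by omega)⟩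
  obtain ⟨bad, g1, g2⟩ := merge_ok (Ω := Ω) (p := p) hd (Nat.succ_ne_zero μ) le_rfl hb
    (β := fun a => al Ω p C v (if a = 0 then μ else 1))
    (κ := fun a => if a = 0 then io Ω t₁ * k (μ * C ^ v) a₁ else io Ω t₂ * k (C ^ v) a₂)
    (fun j _ => (al_spec hC0 v (by split_ifs <;> omega)).2)
    (fun j _ => by
      split_ifs
      all_goals first
        | exact mul_ne_zero ((map_ne_zero _).2 ht₁) (hk _ (mul_ne_zero hμ hd) _)
        | exact mul_ne_zero ((map_ne_zero _).2 ht₂) (hk _ hd _))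
    (al_spec hC0 v (Nat.succ_ne_zero μ)).1 (al_spec hC0 v (Nat.succ_ne_zero μ)).2
    (hkF _ (mul_ne_zero (Nat.succ_ne_zero μ) hd) a) fun _ _ => 0
  obtain ⟨B, g3, g4⟩ := card_pre_le bad (fun s : ZMod p => s) Function.injective_id
  refine ⟨B, g3.trans g1, fun s _ hs U V Z hS hZ => ?_⟩
  obtain ⟨u, hu⟩ : ∃ u : (ℕ → ZMod p) → ℕ → Ω,
    u = fun x i => val Ω p C v (fun r => io Ω (x r)) (0 + i * C ^ v) := ⟨_, rfl⟩
  have huF : ∀ x i, u x i ∈ Fx Ω p (C ^ v) := fun x i => by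
    rw [hu]
    exact val_mem hC0 v (fun r => io_mem _ 1) _
  have hadd : ∀ x y i, u x i + u y i = u (x + y) i := fun x y i => by
    simp only [hu, Pi.add_apply, map_add, val_add]
  have hph : ∀ m, 1 ≤ m → m ≤ C → ∀ x, ∑ i ∈ range m, al Ω p C v m ^ i * u x i =
      ph Ω C (m * C ^ v) x := fun m hm hm' x => by
    rw [ph_eq hC v hm hm', hu, bv]
  have hsh : ∀ x, u x μ = ph Ω C (C ^ v) fun i => x (μ * C ^ v + i) := fun x => by
    have := ph_eq (Ω := Ω) hC v le_rfl (by omega) fun i => x (μ * C ^ v + i)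
    rw [one_mul, bv_one] at this
    rw [this, hu]
    simp only [add_comm (μ * C ^ v)]
    exact (val_shift v (fun r => io Ω (x r)) 0 (μ * C ^ v)).symm
  have key := g2 (io Ω s) (g4 s hs) (io_mem _ _) (u U) (u V) (fun _ _ => 0)
    (Z.image fun y (i : Fin (μ + 1)) => u y i) (fun _ => True)
    (fun _ _ _ _ a ha ha' => by omega) ?_
  · rw [card_image_of_injOn] at key
    · exact key.trans ((Nat.pow_le_pow_left (by omega) _).trans
        (Nat.pow_le_pow_right (by omega) h2))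
    · intro y hy y' hy' h
      refine hS y hy y' hy' (ph_inj (Ω := Ω) hC0 ?_)
      rw [← hph _ (by omega) h2, ← hph _ (by omega) h2]
      exact sum_congr rfl fun i hi => by
        rw [show u y i = u y' i from congrFun h ⟨i, mem_range.1 hi⟩]
  intro c hc
  obtain ⟨y, hy, rfl⟩ := mem_image.1 hc
  obtain ⟨e1, e2⟩ := hZ y hy
  refine ⟨u y, u (U - y), u (V - conQ z s ((μ + 1) * C ^ v) a y),
    u (conQ z s ((μ + 1) * C ^ v) a y), trivial, fun _ => rfl, fun i _ => ⟨huF _ _, huF _ _⟩,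
    fun i _ => ⟨huF _ _, huF _ _, by rw [hadd, sub_add_cancel], by simp [hadd]⟩, fun j _ => ?_, ?_⟩
  · by_cases h : j < μ
    · simp only [if_pos h, if_true, zero_add]
      rw [hph μ h1 h2.le, hph μ h1 h2.le, ← H.ph_conQ (mul_ne_zero hμ hd)]
      exact ph_congr fun r hr => by rw [Pi.sub_apply, ← e1 r hr, add_sub_cancel_right]
    · simp only [if_neg h, if_neg hμ, sum_range_one, pow_zero, one_mul, add_zero]
      rw [hsh, hsh, ← H.ph_conQ hd]
      exact ph_congr fun r hr => by rw [Pi.sub_apply, ← e2 r hr, add_sub_cancel_right]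
  · rw [hph _ (by omega) h2, hph _ (by omega) h2, H.ph_conQ (mul_ne_zero (Nat.succ_ne_zero μ) hd)]

variable (C z) in
/-- The two counting properties at length `l`, with old factors `t` and new factor `s`. -/
def GoodAt (l : ℕ) (t : ℕ → ZMod p) (s : ZMod p) : Prop :=
  (∀ v μ, 1 ≤ μ → μ < C → (μ + 1) * C ^ v = l →
    ∀ a₁ a₂ a (U V : ℕ → ZMod p) (Z : Finset (ℕ → ZMod p)), Sep l Z →
    (∀ y ∈ Z, (∀ r < μ * C ^ v,
        conQ z (t (μ * C ^ v)) (μ * C ^ v) a₁ (U - y) r + conQ z s l a y r = V r) ∧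
      ∀ r < C ^ v, conQ z (t (C ^ v)) (C ^ v) a₂ (fun i => (U - y) (μ * C ^ v + i)) r +
        conQ z s l a y (μ * C ^ v + r) = V (μ * C ^ v + r)) → Z.card ≤ (C + 1) ^ C) ∧
  ∀ cfg : ℕ → Option (ℕ × ℕ × Fin 3), (∀ r < l, ∀ c, cfg r = some c → c.2.1 < l ∧ c.1 + c.2.1 ≤ l) →
    ∀ a (U V : ℕ → ZMod p) (Z : Finset (ℕ → ZMod p)), Sep l Z →
    (∀ y ∈ Z, ∀ r < l, oldQ (fun l' => conQ z (t l') l') cfg (U - y) r + conQ z s l a y r = V r) →
    Z.card ≤ (l + 1) ^ l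

theorem GoodAt.congr (hC : 2 ≤ C) {l : ℕ} {t t' : ℕ → ZMod p} {s : ZMod p} (h : GoodAt C z l t s)
    (ht : ∀ i < l, t' i = t i) : GoodAt C z l t' s := by
  refine ⟨fun v μ h1 h2 h3 => ?_, fun cfg hc a U V Z hS hZ => h.2 cfg hc a U V Z hS
    fun y hy r hr => ?_⟩
  · have h0 : 0 < C ^ v := pow_pos (by omega) v
    have h4 : 1 * C ^ v ≤ μ * C ^ v := Nat.mul_le_mul_right _ h1
    have h5 := h3
    rw [add_mul] at h5
    rw [ht _ (by omega), ht _ (by omega)]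
    exact h.1 v μ h1 h2 h3
  · rw [← hZ y hy r hr]
    congr 1
    rcases hr' : cfg r with _ | c
    · simp only [oldQ, hr']
    · simp only [oldQ, hr', ht _ (hc r hr c hr').1]

theorem sys_num {l τ : ℕ} (hl : l ≤ τ) (hτ : 32 ≤ τ) :
    (l + 1) * ((l + 1) * (3 * (3 * 3))) * (l + 2) ^ l +
      ((l + 1) * (l * 3) + 1) ^ l * 3 * (l + 2) ^ l + 1 ≤
      2 ^ τ ^ 2 := by
  have h1 : 16 * τ ^ 3 ≤ 2 ^ τ := by
    clear hl
    induction τ, hτ using Nat.le_induction with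
    | base => norm_num
    | succ n hn ih =>
      have : (n + 1) ^ 3 ≤ 2 * n ^ 3 := by nlinarith [Nat.zero_le (n * n), Nat.mul_le_mul hn hn]
      rw [pow_succ 2]
      omega
  have h2 : (4 * τ ^ 2) ^ 2 ≤ (4 * τ ^ 2) ^ τ := Nat.pow_le_pow_right (by positivity) (by omega)
  have h3 : (l + 1) * ((l + 1) * (3 * (3 * 3))) ≤ (4 * τ ^ 2) ^ τ := by
    refine le_trans ?_ h2
    have : (l + 1) * (l + 1) ≤ (2 * τ) * (2 * τ) := Nat.mul_le_mul (by omega) (by omega)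
    have h6 : 32 * 32 ≤ τ * τ := Nat.mul_le_mul hτ hτ
    nlinarith
  have h4 : ((l + 1) * (l * 3) + 1) ^ l ≤ (4 * τ ^ 2) ^ τ := by
    have : (l + 1) * (l * 3) ≤ (τ + 1) * (τ * 3) := Nat.mul_le_mul (by omega) (by omega)
    exact (Nat.pow_le_pow_left (by nlinarith) _).trans (Nat.pow_le_pow_right (by positivity) hl)
  have h5 : (l + 2) ^ l ≤ (2 * τ) ^ τ :=
    (Nat.pow_le_pow_left (by omega) _).trans (Nat.pow_le_pow_right (by omega) hl)
  have h6 : 2 ^ 3 ≤ 2 ^ τ := Nat.pow_le_pow_right (by norm_num) (by omega)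
  have h7 : 1 ≤ (4 * τ ^ 2) ^ τ * (2 * τ) ^ τ := Nat.one_le_iff_ne_zero.2 (by positivity)
  calc _ ≤ (4 * τ ^ 2) ^ τ * (2 * τ) ^ τ + (4 * τ ^ 2) ^ τ * 3 * (2 * τ) ^ τ + 1 := by gcongr
    _ ≤ 2 ^ τ * ((4 * τ ^ 2) ^ τ * (2 * τ) ^ τ) := by nlinarith
    _ = (16 * τ ^ 3) ^ τ := by
      rw [← mul_pow, ← mul_pow]
      congr 1
      ring
    _ ≤ (2 ^ τ) ^ τ := Nat.pow_le_pow_left h1 _
    _ = 2 ^ τ ^ 2 := by rw [← pow_mul, sq]

theorem exists_goodAt (hC : 2 ≤ C) (H : Repr C k z) (hk : ∀ l, l ≠ 0 → ∀ a, k l a ≠ 0)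
    (hkF : ∀ l, l ≠ 0 → ∀ a, k l a ∈ Fx Ω p l) {l τ : ℕ} (hl0 : l ≠ 0) (hl : l ≤ τ) (hτ : 32 ≤ τ)
    (h : 2 ^ τ ^ 2 < p) {t : ℕ → ZMod p} (ht : ∀ i, t i ≠ 0) :
    ∃ s, s ≠ 0 ∧ GoodAt C z l t s := by
  classical
  obtain ⟨B₁, b1, g1⟩ := exists_avoid_bad (p := p) (N := (l + 2) ^ l)
    (range (l + 1) ×ˢ range (l + 1) ×ˢ (univ : Finset (Fin 3 × Fin 3 × Fin 3)))
    (fun i s => 1 ≤ i.2.1 → i.2.1 < C → (i.2.1 + 1) * C ^ i.1 = l →
      ∀ (U V : ℕ → ZMod p) (Z : Finset (ℕ → ZMod p)), Sep l Z →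
      (∀ y ∈ Z, (∀ r < i.2.1 * C ^ i.1, conQ z (t (i.2.1 * C ^ i.1)) (i.2.1 * C ^ i.1) i.2.2.1
          (U - y) r + conQ z s l i.2.2.2.2 y r = V r) ∧
        ∀ r < C ^ i.1, conQ z (t (C ^ i.1)) (C ^ i.1) i.2.2.2.1
          (fun j => (U - y) (i.2.1 * C ^ i.1 + j)) r +
          conQ z s l i.2.2.2.2 y (i.2.1 * C ^ i.1 + r) = V (i.2.1 * C ^ i.1 + r)) →
        Z.card ≤ (C + 1) ^ C) (by
    rintro ⟨v, μ, a₁, a₂, a⟩ -
    by_cases hc : 1 ≤ μ ∧ μ < C ∧ (μ + 1) * C ^ v = l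
    · obtain ⟨c1, c2, rfl⟩ := hc
      obtain ⟨bad, e1, e2⟩ := merge_core hC H (v := v) c1 c2 hk hkF (ht (μ * C ^ v)) (ht (C ^ v))
        a₁ a₂ a
      have h0 : μ + 1 ≤ (μ + 1) * C ^ v := Nat.le_mul_of_pos_right _ (pow_pos (by omega) v)
      exact ⟨bad, e1.trans ((Nat.pow_le_pow_left (by omega) _).trans
        (Nat.pow_le_pow_right (by omega) h0)), fun s h0 hs _ _ _ => e2 s h0 hs⟩
    · exact ⟨∅, by simp, fun s _ _ c1 c2 c3 => absurd ⟨c1, c2, c3⟩ hc⟩)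
  obtain ⟨B₂, b2, g2⟩ := exists_avoid_bad (p := p) (N := (l + 2) ^ l)
    ((Fintype.piFinset fun _ : Fin l =>
      insertNone (range (l + 1) ×ˢ range l ×ˢ (univ : Finset (Fin 3)))) ×ˢ (univ : Finset (Fin 3)))
    (fun i s => ∀ cfg : ℕ → Option (ℕ × ℕ × Fin 3), (∀ r : Fin l, cfg r = i.1 r) →
      (∀ r < l, ∀ c, cfg r = some c → c.1 + c.2.1 ≤ l) →
      ∀ (U V : ℕ → ZMod p) (Z : Finset (ℕ → ZMod p)), Sep l Z →
      (∀ y ∈ Z, ∀ r < l, oldQ (fun l' => conQ z (t l') l') cfg (U - y) r +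
        conQ z s l i.2 y r = V r) → Z.card ≤ (l + 1) ^ l) (by
    rintro ⟨c, a⟩ -
    by_cases hc : ∃ cfg : ℕ → Option (ℕ × ℕ × Fin 3), (∀ r : Fin l, cfg r = c r) ∧
      ∀ r < l, ∀ c, cfg r = some c → c.1 + c.2.1 ≤ l
    · obtain ⟨cfg₀, c1, c2⟩ := hc
      obtain ⟨bad, e1, e2⟩ := crude_core (by omega) H hl0 (hk l hl0 a) t cfg₀ c2
      refine ⟨bad, e1, fun s h0 hs cfg c3 _ U V Z hS hZ => e2 s h0 hs U V Z hS fun y hy r hr => ?_⟩
      rw [← hZ y hy r hr]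
      simp only [oldQ, c1 ⟨r, hr⟩, c3 ⟨r, hr⟩]
    · exact ⟨∅, by simp, fun s _ _ cfg c1 c2 => absurd ⟨cfg, c1, c2⟩ hc⟩)
  have hcard : (insert 0 (B₁ ∪ B₂)).card < (univ : Finset (ZMod p)).card := by
    rw [card_univ, ZMod.card]
    refine lt_of_le_of_lt ?_ ((sys_num hl hτ).trans_lt h)
    simp only [card_product, card_range, card_univ, Fintype.card_prod, Fintype.card_fin,
      Fintype.card_piFinset, card_insertNone, prod_const] at b1 b2
    have := card_insert_le 0 (B₁ ∪ B₂)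
    have := card_union_le B₁ B₂
    omega
  obtain ⟨s, -, hs⟩ := exists_mem_notMem_of_card_lt_card hcard
  rw [mem_insert, mem_union, not_or, not_or] at hs
  refine ⟨s, hs.1, fun v μ h1 h2 h3 a₁ a₂ a => g1 s hs.1 hs.2.1 (v, μ, a₁, a₂, a) ?_ h1 h2 h3,
    fun cfg hc a => g2 s hs.1 hs.2.2 (fun r => cfg r, a) ?_ cfg (fun _ => rfl)
      fun r hr c h => (hc r hr c h).2⟩
  · have h4 : v < C ^ v := Nat.lt_pow_self (by omega)
    have h5 : μ + 1 ≤ (μ + 1) * C ^ v := Nat.le_mul_of_pos_right _ (by omega)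
    have h6 : C ^ v ≤ (μ + 1) * C ^ v := Nat.le_mul_of_pos_left _ (by omega)
    simp only [mem_product, mem_range, mem_univ, and_true]
    omega
  · simp only [mem_product, mem_univ, and_true, Fintype.mem_piFinset, mem_insertNone, mem_range]
    intro r c hrc
    have := hc r r.2 c hrc
    omega

end Core

theorem exists_intSys (p C τ : ℕ) (hp : p.Prime) (hC : 2 ≤ C) (hτ : 32 ≤ τ)
    (h : 2 ^ τ ^ 2 < p) : ∃ Q, IntSys p C τ Q := by
  have := Fact.mk hp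
  have hC0 : C ≠ 0 := by omega
  have h7 : 7 < p := lt_trans (lt_of_lt_of_le (by norm_num)
    (Nat.pow_le_pow_right (by norm_num) (show 3 ≤ τ ^ 2 by nlinarith))) h
  obtain ⟨k, z, hkz⟩ := exists_conics (Ω := AlgebraicClosure (ZMod p)) (p := p) hC0 h7
  have H : Repr C k z := fun l hl => (hkz l hl).2.2.2
  have hk : ∀ l, l ≠ 0 → ∀ a, k l a ≠ 0 := fun l hl a h0 =>
    (hkz l hl).2.1 a a (by rw [h0, add_zero])
  have hrec : ∀ n ≤ τ, ∃ t : ℕ → ZMod p, (∀ i, t i ≠ 0) ∧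
      ∀ l, l ≠ 0 → l ≤ n → GoodAt C z l t (t l) := by
    intro n
    induction n with
    | zero => exact fun _ => ⟨fun _ => 1, fun _ => one_ne_zero, fun l h1 h2 => by omega⟩
    | succ n ih =>
      intro hn
      obtain ⟨t, h1, h2⟩ := ih (by omega)
      obtain ⟨s, h3, h4⟩ := exists_goodAt hC H hk (fun l hl => (hkz l hl).1)
        (Nat.succ_ne_zero n) hn hτ h h1
      refine ⟨Function.update t (n + 1) s, fun i => ?_, fun l hl hl' => ?_⟩
      · rcases eq_or_ne i (n + 1) with rfl | hi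
        · rwa [Function.update_self]
        · rw [Function.update_of_ne hi]
          exact h1 i
      · rcases eq_or_ne l (n + 1) with rfl | hi
        · rw [Function.update_self]
          exact h4.congr hC fun i hi => Function.update_of_ne hi.ne _ _
        · rw [Function.update_of_ne hi]
          exact (h2 l hl (by omega)).congr hC fun i hi => Function.update_of_ne (by omega) _ _
  obtain ⟨t, ht, hG⟩ := hrec τ le_rfl
  refine ⟨fun l => conQ z (t l) l, fun l a x x' h => conQ_loc z _ l a h, fun l h1 _ U V => ?_,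
    fun l h1 _ a a' U V Z hS hZ => ?_,
    fun v μ h1 h2 h3 => (hG _ (mul_ne_zero (by omega) (pow_ne_zero _ hC0)) h3).1 v μ h1 h2 rfl,
    fun l h1 h2 => (hG l (by omega) h2).2⟩
  · have hl : l ≠ 0 := by omega
    have h0 : io (AlgebraicClosure (ZMod p)) (t l) ≠ 0 := (map_ne_zero _).2 (ht l)
    obtain ⟨a, b, X, hX, Y, hY, e1, e2⟩ := (hkz l hl).2.2.1 _ (ph_mem hC0 hl U) _
      (mul_mem (inv_mem (io_mem (t l) l)) (ph_mem hC0 hl V))
    obtain ⟨x, rfl⟩ := ph_surj hC0 hl hX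
    obtain ⟨y, rfl⟩ := ph_surj hC0 hl hY
    refine ⟨a, b, x, y, fun r hr => ⟨ph_inj hC0 ((ph_add x y).trans e1) r hr,
      ph_inj (Ω := AlgebraicClosure (ZMod p)) hC0
        (x := conQ z (t l) l a x + conQ z (t l) l b y) ?_ r hr⟩⟩
    rw [ph_add, H.ph_conQ hl, H.ph_conQ hl, mul_assoc, mul_assoc, ← mul_add, e2,
      mul_inv_cancel_left₀ h0]
  · classical
    have hl : l ≠ 0 := by omega
    have h0 : io (AlgebraicClosure (ZMod p)) (t l) ≠ 0 := (map_ne_zero _).2 (ht l)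
    have key := quad_two (mul_ne_zero h0 ((hkz l hl).2.1 a a'))
      (β := -2 * io _ (t l) * k l a * ph _ C l U)
      (γ := io _ (t l) * k l a * ph _ C l U ^ 2 - ph _ C l V) (Z.image (ph _ C l)) ?_
    · rwa [card_image_of_injOn fun y hy y' hy' h => hS y hy y' hy' (ph_inj hC0 h)] at key
    intro X hX
    obtain ⟨y, hy, rfl⟩ := mem_image.1 hX
    have e := ph_congr (Ω := AlgebraicClosure (ZMod p)) (C := C)
      (x := conQ z (t l) l a (U - y) + conQ z (t l) l a' y) (hZ y hy)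
    rw [ph_add, H.ph_conQ hl, H.ph_conQ hl, ph_sub] at e
    linear_combination e

end Pool.Agent.P.MP_d5a1e1_nt.TB
end

-- part Pool.Agent.P.MP_d5a1e1_nt.TBPt
section

/-! Fine points: digit vectors that lie on a conic over every piece. -/

namespace Pool.Agent.P.MP_d5a1e1_nt.TB

open Finset

/-- A family of quadratic maps, one system for every modulus. -/
abbrev QFam : Type := ∀ q : ℕ, ℕ → Fin 3 → (ℕ → ZMod q) → ℕ → ZMod q

/-- The primes are constant on epochs and carry an interval system. -/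
structure AlgOK (C : ℕ) (p : ℕ → ℕ) (Q : QFam) : Prop where
  three : 3 ≤ C
  prime : ∀ u, (p u).Prime
  const : ∀ u u', Nat.log C u = Nat.log C u' → p u = p u'
  sys : ∀ u, IntSys (p u) C (C ^ (Nat.log C u + 1)) (Q (p u))

/-- The odd digits on the units `[a, a + l)` are the quadratic map of the even digits. -/
def OnQ (Q : QFam) (q a l : ℕ) (κ : Fin 3) (d : ℕ → ℕ) : Prop :=
  ∀ r < l, (d (2 * (a + r) + 1) : ZMod q) = Q q l κ (fun i => (d (2 * (a + i)) : ZMod q)) r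

open Classical in
/-- The fine points of state `k`. -/
noncomputable def Pt (C : ℕ) (p : ℕ → ℕ) (Q : QFam) (k : ℕ) : Finset (ℕ → ℕ) :=
  (Box (2 * k) p).filter fun d => ∀ a b, Piece C k a b → ∃ κ, OnQ Q (p a) a (b - a) κ d

variable {C : ℕ} {p : ℕ → ℕ} {Q : QFam}

theorem mem_Pt {k : ℕ} {d : ℕ → ℕ} : d ∈ Pt C p Q k ↔
    d ∈ Box (2 * k) p ∧ ∀ a b, Piece C k a b → ∃ κ, OnQ Q (p a) a (b - a) κ d := by
  classical
  simp only [Pt, mem_filter]

theorem AlgOK.p_eq (h : AlgOK C p Q) {k a b u : ℕ} (hp : Piece C k a b) (h1 : a ≤ u)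
    (h2 : u < b) : p u = p a :=
  h.const _ _ (hp.log_eq (by have := h.three; omega) h1 h2)

theorem IntSys.mono {q C τ τ' : ℕ} {Q : ℕ → Fin 3 → (ℕ → ZMod q) → ℕ → ZMod q}
    (h : IntSys q C τ Q) (ht : τ' ≤ τ) : IntSys q C τ' Q :=
  ⟨h.loc, fun l h1 h2 => h.cover l h1 (h2.trans ht), fun l h1 h2 => h.two l h1 (h2.trans ht),
    fun v μ h1 h2 h3 => h.merge v μ h1 h2 (h3.trans ht),
    fun l h1 h2 => h.crude l h1 (h2.trans ht)⟩

theorem exists_algOK (hC : 32 ≤ C) (hp : ∀ u, (p u).Prime)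
    (hc : ∀ u u', Nat.log C u = Nat.log C u' → p u = p u')
    (hb : ∀ u, 2 ^ (C ^ (Nat.log C u + 1)) ^ 2 < p u) : ∃ Q, AlgOK C p Q := by
  classical
  have key : ∀ q : ℕ, ∃ Q : ℕ → Fin 3 → (ℕ → ZMod q) → ℕ → ZMod q,
      ∀ τ, q.Prime → 32 ≤ τ → 2 ^ τ ^ 2 < q → IntSys q C τ Q := by
    intro q
    by_cases h : ∃ τ, q.Prime ∧ 32 ≤ τ ∧ 2 ^ τ ^ 2 < q
    · obtain ⟨τ, h1, h2, h3⟩ := h
      have hle : ∀ t : ℕ, 2 ^ t ^ 2 < q → t ≤ q := fun t ht => by
        have a1 : t ^ 2 < 2 ^ t ^ 2 := Nat.lt_two_pow_self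
        have a2 : t ≤ t ^ 2 := Nat.le_self_pow (by norm_num) t
        omega
      have h4 : 2 ^ (Nat.findGreatest (fun t => 2 ^ t ^ 2 < q) q) ^ 2 < q :=
        Nat.findGreatest_spec (P := fun t => 2 ^ t ^ 2 < q) (hle τ h3) h3
      have h5 : ∀ t, 2 ^ t ^ 2 < q → t ≤ Nat.findGreatest (fun t => 2 ^ t ^ 2 < q) q :=
        fun t ht => Nat.le_findGreatest (hle t ht) ht
      obtain ⟨Q, hQ⟩ := exists_intSys q C _ h1 (by omega) (h2.trans (h5 τ h3)) h4
      exact ⟨Q, fun t _ _ ht => hQ.mono (h5 t ht)⟩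
    · exact ⟨fun _ _ _ _ => 0, fun τ h1 h2 h3 => absurd ⟨τ, h1, h2, h3⟩ h⟩
  choose Q hQ using key
  refine ⟨Q, by omega, hp, hc, fun u => hQ _ _ (hp u) ?_ (hb u)⟩
  exact hC.trans (Nat.le_self_pow (by omega) C)

/-- Restriction to the digits of the units `[a, b)`. -/
def res (a b : ℕ) (y : ℕ → ℕ) : ℕ → ℕ := fun i => if 2 * a ≤ i ∧ i < 2 * b then y i else 0

open Classical in
/-- Counting piece by piece. -/
theorem card_le_prod_piece {k n : ℕ} (hn : n ≤ k) (hc : Cut C k n) (N : ℕ → ℕ) {M : ℕ → ℕ}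
    (Z : Finset (ℕ → ℕ)) (hZ : Z ⊆ Box (2 * n) M)
    (h : ∀ a b, Piece C k a b → b ≤ n → (Z.image (res a b)).card ≤ N a) :
    Z.card ≤ ∏ a ∈ (range n).filter (Cut C k), N a := by
  have key : ∀ a, a < n → Cut C k a → ∃ b, Piece C k a b ∧ b ≤ n := by
    intro a ha hca
    obtain ⟨a', b, hp, h1, h2⟩ := exists_piece (C := C) (k := k) (u := a) (by omega)
    obtain rfl : a' = a := by
      by_contra hne
      exact hp.2.2.2.2 a (by omega) h2 hca
    refine ⟨b, hp, ?_⟩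
    by_contra hb
    exact hp.2.2.2.2 n ha (by omega) hc
  choose! nb hnb using key
  set s := (range n).filter (Cut C k) with hs
  have h1 : Z.card ≤ (s.pi fun a => Z.image (res a (nb a))).card := by
    refine card_le_card_of_injOn (fun y a _ => res a (nb a) y) ?_ ?_
    · intro y hy
      exact mem_coe.2 (mem_pi.2 fun a _ => mem_image_of_mem _ hy)
    · intro y hy y' hy' e
      refine Box_ext (hZ hy) (hZ hy') fun i hi => ?_
      obtain ⟨a, b, hp, a1, a2⟩ := exists_piece (C := C) (k := k) (u := i / 2) (by omega)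
      have ha : a ∈ s := mem_filter.2 ⟨mem_range.2 (by omega), hp.2.2.1⟩
      have hb := (hnb a (by omega) hp.2.2.1).1
      have e1 : b = nb a := (hp.unique hb le_rfl hp.1 le_rfl hb.1).2
      have e2 := congrFun (congrFun (congrFun e a) ha) i
      simp only [res] at e2
      rwa [if_pos ⟨by omega, by omega⟩, if_pos ⟨by omega, by omega⟩] at e2
  rw [card_pi] at h1
  refine h1.trans (prod_le_prod' fun a ha => ?_)
  obtain ⟨a1, a2⟩ := mem_filter.1 ha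
  obtain ⟨b1, b2⟩ := hnb a (mem_range.1 a1) a2
  exact h a _ b1 b2

/-- F4 -/
theorem AlgOK.top (h : AlgOK C p Q) (k v : ℕ) (s : Finset ℕ)
    (hs : ∀ u ∈ s, ∃ d ∈ Pt C p Q (k + 1), d (2 * k) = u ∧ d (2 * k + 1) = v) : s.card ≤ 6 := by
  classical
  have key : ∀ u ∈ s, u < p k ∧ ∃ κ : Fin 3,
      (v : ZMod (p k)) = Q (p k) 1 κ (fun _ => (u : ZMod (p k))) 0 := by
    intro u hu
    obtain ⟨d, hd, e1, e2⟩ := hs u hu
    obtain ⟨h1, h2⟩ := mem_Pt.1 hd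
    obtain ⟨κ, hκ⟩ := h2 k (k + 1) (piece_top k)
    refine ⟨?_, κ, ?_⟩
    · have := (mem_Box.1 h1).1 (2 * k) (by omega)
      rwa [e1, Nat.mul_div_cancel_left k two_pos] at this
    · have h3 := hκ 0 (by omega)
      rw [Nat.add_sub_cancel_left, add_zero, e2] at h3
      rw [h3, (h.sys k).loc 1 κ _ (fun _ => (u : ZMod (p k))) fun i hi => ?_]
      obtain rfl : i = 0 := by omega
      rw [add_zero, e1]
  have hsub : s ⊆ (univ : Finset (Fin 3)).biUnion fun κ => s.filter fun u : ℕ =>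
      (v : ZMod (p k)) = Q (p k) 1 κ (fun _ => (u : ZMod (p k))) 0 := by
    intro u hu
    obtain ⟨κ, hκ⟩ := (key u hu).2
    exact mem_biUnion.2 ⟨κ, mem_univ _, mem_filter.2 ⟨hu, hκ⟩⟩
  refine (card_le_card hsub).trans (card_biUnion_le.trans ?_)
  have h2 : ∀ κ : Fin 3, (s.filter fun u : ℕ =>
      (v : ZMod (p k)) = Q (p k) 1 κ (fun _ => (u : ZMod (p k))) 0).card ≤ 2 := by
    intro κ
    have hinj : Set.InjOn (fun (u : ℕ) (_ : ℕ) => (u : ZMod (p k))) (s.filter fun u =>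
        (v : ZMod (p k)) = Q (p k) 1 κ (fun _ => (u : ZMod (p k))) 0 : Finset ℕ) := by
      intro u hu u' hu' e
      have e1 := (ZMod.natCast_eq_natCast_iff' _ _ _).1 (congrFun e 0)
      rwa [Nat.mod_eq_of_lt (key u (mem_filter.1 hu).1).1,
        Nat.mod_eq_of_lt (key u' (mem_filter.1 hu').1).1] at e1
    rw [← card_image_of_injOn hinj]
    refine (h.sys k).crude 1 le_rfl (Nat.one_le_pow _ _ (by have := h.three; omega))
      (fun _ => none) (fun _ _ _ hc => by simp at hc) κ 0 (fun _ => (v : ZMod (p k))) _ ?_ ?_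
    · intro y hy y' hy' e
      obtain ⟨u, -, rfl⟩ := mem_image.1 hy
      obtain ⟨u', -, rfl⟩ := mem_image.1 hy'
      funext _
      exact e 0 one_pos
    · intro y hy r hr
      obtain ⟨u, hu, rfl⟩ := mem_image.1 hy
      obtain rfl : r = 0 := by omega
      rw [← (mem_filter.1 hu).2]
      simp [oldQ]
  calc _ ≤ ∑ _κ : Fin 3, 2 := sum_le_sum fun κ _ => h2 κ
    _ = 6 := by simp

/-- F2 -/
theorem AlgOK.cover (h : AlgOK C p Q) (k : ℕ) (γ r : ℕ → ℕ) :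
    ∃ d ∈ Pt C p Q k, ∃ d' ∈ Pt C p Q k, ∀ i < 2 * k, d i + d' i + γ i ≡ r i [MOD p (i / 2)] := by
  classical
  have key : ∀ a b, Piece C k a b → ∃ (κ κ' : Fin 3) (f f' : ℕ → ℕ), (∀ i, f i < p a) ∧
      (∀ i, f' i < p a) ∧ OnQ Q (p a) a (b - a) κ f ∧ OnQ Q (p a) a (b - a) κ' f' ∧
      ∀ i, 2 * a ≤ i → i < 2 * b → f i + f' i + γ i ≡ r i [MOD p a] := by
    intro a b hp
    have : NeZero (p a) := ⟨(h.prime a).ne_zero⟩
    obtain ⟨κ, κ', x, y, hxy⟩ := (h.sys a).cover (b - a) (by have := hp.1; omega)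
      (hp.len_le (by have := h.three; omega))
      (fun t => (r (2 * (a + t)) : ZMod (p a)) - γ (2 * (a + t)))
      (fun t => (r (2 * (a + t) + 1) : ZMod (p a)) - γ (2 * (a + t) + 1))
    have ev : ∀ t, 2 * (a + t) % 2 = 0 ∧ 2 * (a + t) / 2 - a = t := fun t => by omega
    have od : ∀ t, ¬(2 * (a + t) + 1) % 2 = 0 ∧ (2 * (a + t) + 1) / 2 - a = t := fun t => by omega
    refine ⟨κ, κ', fun i => (if i % 2 = 0 then x (i / 2 - a) else Q (p a) (b - a) κ x (i / 2 - a)).val,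
      fun i => (if i % 2 = 0 then y (i / 2 - a) else Q (p a) (b - a) κ' y (i / 2 - a)).val,
      fun i => ZMod.val_lt _, fun i => ZMod.val_lt _, fun t _ => ?_, fun t _ => ?_,
      fun i h1 h2 => ?_⟩
    · simp only [ZMod.natCast_zmod_val, if_pos (ev _).1, (ev _).2, if_neg (od _).1, (od _).2]
    · simp only [ZMod.natCast_zmod_val, if_pos (ev _).1, (ev _).2, if_neg (od _).1, (od _).2]
    · rw [← ZMod.natCast_eq_natCast_iff]
      obtain ⟨e1, e2⟩ := hxy (i / 2 - a) (by omega)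
      push_cast
      simp only [ZMod.natCast_zmod_val]
      split_ifs with hi
      · have e : 2 * (a + (i / 2 - a)) = i := by omega
        rw [e] at e1
        linear_combination e1
      · have e : 2 * (a + (i / 2 - a)) + 1 = i := by omega
        rw [e] at e2
        linear_combination e2
  choose! κ κ' f f' hf hf' h1 h2 h3 using key
  have hst : ∀ u, u < k → ∃ a b, Piece C k a b ∧ a ≤ u ∧ u < b := fun u hu => exists_piece hu
  choose! st en hp hs he using hst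
  have glue : ∀ (g : ℕ → ℕ → ℕ → ℕ) (c : ℕ → ℕ → Fin 3), (∀ a b, Piece C k a b → ∀ i, g a b i < p a) →
      (∀ a b, Piece C k a b → OnQ Q (p a) a (b - a) (c a b) (g a b)) →
      tr (2 * k) (fun i => g (st (i / 2)) (en (i / 2)) i) ∈ Pt C p Q k := by
    intro g c g1 g2
    refine mem_Pt.2 ⟨tr_mem_Box fun i hi => ?_, fun a b hab => ⟨c a b, fun t ht => ?_⟩⟩
    · have hi' : i / 2 < k := by omega
      rw [h.p_eq (hp _ hi') (hs _ hi') (he _ hi')]
      exact g1 _ _ (hp _ hi') i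
    · have e : ∀ i, 2 * a ≤ i → i < 2 * b →
          tr (2 * k) (fun i => g (st (i / 2)) (en (i / 2)) i) i = g a b i := by
        intro i i1 i2
        have hb := hab.2.1
        have hi' : i / 2 < k := by omega
        obtain ⟨e1, e2⟩ := (hp _ hi').unique hab (hs _ hi') (he _ hi') (by omega) (by omega)
        rw [tr_lt (by omega), e1, e2]
      rw [e _ (by omega) (by omega), g2 a b hab t ht]
      refine congrFun ((h.sys a).loc _ _ _ _ fun i hi => ?_) t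
      rw [e _ (by omega) (by omega)]
  refine ⟨_, glue f κ hf h1, _, glue f' κ' hf' h2, fun i hi => ?_⟩
  have hi' : i / 2 < k := by omega
  have a1 := hs _ hi'
  have a2 := he _ hi'
  rw [tr_lt hi, tr_lt hi, h.p_eq (hp _ hi') a1 a2]
  exact h3 _ _ (hp _ hi') i (by omega) (by omega)

end Pool.Agent.P.MP_d5a1e1_nt.TB
end

-- part Pool.Agent.P.MP_d5a1e1_nt.TBPt3
section

/-! Few solutions for equal or consecutive states. -/

namespace Pool.Agent.P.MP_d5a1e1_nt.TB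

open Finset

variable {C : ℕ} {p : ℕ → ℕ} {Q : QFam}

theorem pt3_count {q a l m : ℕ} {I : Type} [Fintype I] (S : Finset (ℕ → ℕ))
    (P : I → Fin 3 → (ℕ → ZMod q) → Prop) (h1 : ∀ w ∈ S, ∀ i, w i < q)
    (h2 : ∀ w ∈ S, ∀ i, ¬(2 * a ≤ i ∧ i < 2 * (a + l)) → w i = 0)
    (h3 : ∀ w ∈ S, ∃ ι κ, OnQ Q q a l κ w ∧ P ι κ fun i => (w (2 * (a + i)) : ZMod q))
    (hP : ∀ ι κ (Z : Finset (ℕ → ZMod q)), Sep l Z → (∀ y ∈ Z, P ι κ y) → Z.card ≤ m) :
    S.card ≤ Fintype.card I * 3 * m := by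
  classical
  have hc : ∀ w ∈ S, ∀ w' ∈ S, ∀ i, (w i : ZMod q) = w' i → w i = w' i := by
    intro w hw w' hw' i h
    rw [ZMod.natCast_eq_natCast_iff', Nat.mod_eq_of_lt (h1 w hw i),
      Nat.mod_eq_of_lt (h1 w' hw' i)] at h
    exact h
  have hsub : S ⊆ (univ : Finset (I × Fin 3)).biUnion fun c => S.filter fun w =>
      OnQ Q q a l c.2 w ∧ P c.1 c.2 fun i => (w (2 * (a + i)) : ZMod q) := by
    intro w hw
    obtain ⟨ι, κ, h⟩ := h3 w hw
    exact mem_biUnion.2 ⟨(ι, κ), mem_univ _, mem_filter.2 ⟨hw, h⟩⟩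
  refine (card_le_card hsub).trans ((card_biUnion_le_card_mul _ _ m fun c _ => ?_).trans ?_)
  · rw [← card_image_of_injOn (f := fun (w : ℕ → ℕ) (i : ℕ) => (w (2 * (a + i)) : ZMod q))]
    · refine hP c.1 c.2 _ ?_ ?_
      · intro y hy y' hy' h
        obtain ⟨w, hw, rfl⟩ := mem_image.1 hy
        obtain ⟨w', hw', rfl⟩ := mem_image.1 hy'
        funext i
        by_cases hi : i < l
        · exact h i hi
        · rw [h2 w (mem_filter.1 hw).1 _ (by omega), h2 w' (mem_filter.1 hw').1 _ (by omega)]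
      · intro y hy
        obtain ⟨w, hw, rfl⟩ := mem_image.1 hy
        exact (mem_filter.1 hw).2.2
    · intro w hw w' hw' h
      obtain ⟨hw1, hw2, -⟩ := mem_filter.1 (mem_coe.1 hw)
      obtain ⟨hw1', hw2', -⟩ := mem_filter.1 (mem_coe.1 hw')
      funext i
      by_cases hi : 2 * a ≤ i ∧ i < 2 * (a + l)
      · refine hc w hw1 w' hw1' i ?_
        rcases Nat.even_or_odd' i with ⟨n, rfl | rfl⟩
        · obtain ⟨r, rfl⟩ : ∃ r, n = a + r := ⟨n - a, by omega⟩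
          exact congrFun h r
        · obtain ⟨r, rfl⟩ : ∃ r, n = a + r := ⟨n - a, by omega⟩
          have h4 : (fun i => (w (2 * (a + i)) : ZMod q)) =
            fun i => (w' (2 * (a + i)) : ZMod q) := h
          rw [hw2 r (by omega), hw2' r (by omega), h4]
      · rw [h2 w hw1 i hi, h2 w' hw1' i hi]
  · rw [card_univ, Fintype.card_prod, Fintype.card_fin]

/-- The data of one solution on one piece. -/
theorem pt3_data (h : AlgOK C p Q) {j k a b : ℕ} (hjk : j ≤ k) (hp : Piece C k a b) (hb : b ≤ j)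
    {γ r d d' : ℕ → ℕ} (hd' : d' ∈ Pt C p Q k)
    (hr : ∀ i < 2 * j, d i + d' i + γ i ≡ r i [MOD p (i / 2)]) :
    (∀ i, res a b (tr (2 * j) d') i < p a) ∧
    (∃ κ, OnQ Q (p a) a (b - a) κ (res a b (tr (2 * j) d'))) ∧
    (∀ i < b - a, ((fun i => (r (2 * (a + i)) : ZMod (p a)) - γ (2 * (a + i))) -
      fun i => (res a b (tr (2 * j) d') (2 * (a + i)) : ZMod (p a))) i = d (2 * (a + i))) ∧
    ∀ i < b - a, (d (2 * (a + i) + 1) : ZMod (p a)) + res a b (tr (2 * j) d') (2 * (a + i) + 1) =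
      (r (2 * (a + i) + 1) : ZMod (p a)) - γ (2 * (a + i) + 1) := by
  obtain ⟨h1, h2⟩ := mem_Pt.1 hd'
  have e1 : ∀ i, 2 * a ≤ i → i < 2 * b → res a b (tr (2 * j) d') i = d' i := by
    intro i i1 i2
    have : res a b (tr (2 * j) d') i = tr (2 * j) d' i := if_pos ⟨i1, i2⟩
    rw [this, tr_lt (by omega)]
  have e2 : ∀ i, 2 * a ≤ i → i < 2 * b → p (i / 2) = p a :=
    fun i i1 i2 => h.p_eq hp (by omega) (by omega)
  have e3 : ∀ i, 2 * a ≤ i → i < 2 * b → (d i : ZMod (p a)) + d' i + γ i = r i := by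
    intro i i1 i2
    have h3 := hr i (by omega)
    rw [e2 i i1 i2, ← ZMod.natCast_eq_natCast_iff] at h3
    push_cast at h3
    exact h3
  refine ⟨fun i => ?_, ?_, fun i hi => ?_, fun i hi => ?_⟩
  · by_cases hi : 2 * a ≤ i ∧ i < 2 * b
    · rw [e1 i hi.1 hi.2, ← e2 i hi.1 hi.2]
      exact (mem_Box.1 h1).1 i (by omega)
    · have : res a b (tr (2 * j) d') i = 0 := if_neg hi
      rw [this]
      exact (h.prime a).pos
  · obtain ⟨κ, h3⟩ := h2 a b hp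
    refine ⟨κ, fun i hi => ?_⟩
    rw [e1 _ (by omega) (by omega), h3 i hi]
    refine congrFun ((h.sys a).loc _ _ _ _ fun t ht => ?_) i
    rw [e1 _ (by omega) (by omega)]
  · simp only [Pi.sub_apply]
    rw [e1 _ (by omega) (by omega), ← e3 _ (by omega) (by omega)]
    ring
  · rw [e1 _ (by omega) (by omega), ← e3 _ (by omega) (by omega)]
    ring

theorem pt3_res (a b : ℕ) (hab : a ≤ b) (y : ℕ → ℕ) (i : ℕ)
    (hi : ¬(2 * a ≤ i ∧ i < 2 * (a + (b - a)))) : res a b y i = 0 :=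
  if_neg (by omega)

theorem pt3_same (h : AlgOK C p Q) {j k a b : ℕ} (hjk : j ≤ k) (hp : Piece C k a b)
    (hp' : Piece C j a b) (γ r : ℕ → ℕ) (Z : Finset (ℕ → ℕ))
    (hZ : ∀ y ∈ Z, ∃ d' ∈ Pt C p Q k, ∃ d ∈ Pt C p Q j, y = tr (2 * j) d' ∧
      ∀ i < 2 * j, d i + d' i + γ i ≡ r i [MOD p (i / 2)]) (S : Finset (ℕ → ℕ))
    (hS : ∀ w ∈ S, ∃ y ∈ Z, res a b y = w) : S.card ≤ 18 := by
  have hab := hp.1
  have hb := hp'.2.1
  have hl := hp.len_le (by have := h.three; omega)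
  refine (pt3_count (Q := Q) (q := p a) (a := a) (l := b - a) (m := 2) (I := Fin 3) S
    (fun κ κ' y => ∀ i < b - a,
      Q (p a) (b - a) κ ((fun i => (r (2 * (a + i)) : ZMod (p a)) - γ (2 * (a + i))) - y) i +
        Q (p a) (b - a) κ' y i = (r (2 * (a + i) + 1) : ZMod (p a)) - γ (2 * (a + i) + 1))
    ?_ ?_ ?_ ?_).trans (by simp)
  · intro w hw
    obtain ⟨y, hy, rfl⟩ := hS w hw
    obtain ⟨d', hd', d, hd, rfl, hr⟩ := hZ y hy
    exact (pt3_data h hjk hp hb hd' hr).1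
  · intro w hw
    obtain ⟨y, -, rfl⟩ := hS w hw
    exact pt3_res a b hab.le y
  · intro w hw
    obtain ⟨y, hy, rfl⟩ := hS w hw
    obtain ⟨d', hd', d, hd, rfl, hr⟩ := hZ y hy
    obtain ⟨-, ⟨κ', h1⟩, h2, h3⟩ := pt3_data h hjk hp hb hd' hr
    obtain ⟨κ, h4⟩ := (mem_Pt.1 hd).2 a b hp'
    refine ⟨κ, κ', h1, fun i hi => ?_⟩
    rw [← h3 i hi, h4 i hi, h1 i hi, (h.sys a).loc _ κ _ _ h2]
  · intro κ κ' Y h1 h2
    exact (h.sys a).two (b - a) (by omega) hl κ κ' _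
      (fun i => (r (2 * (a + i) + 1) : ZMod (p a)) - γ (2 * (a + i) + 1)) Y h1 h2

theorem pt3_merge (h : AlgOK C p Q) {j k a v μ : ℕ} (hjk : j ≤ k) (m1 : 1 ≤ μ) (m2 : μ < C)
    (hp : Piece C k a (a + (μ + 1) * C ^ v)) (hp1 : Piece C j a (a + μ * C ^ v))
    (hp2 : Piece C j (a + μ * C ^ v) (a + (μ + 1) * C ^ v)) (γ r : ℕ → ℕ) (Z : Finset (ℕ → ℕ))
    (hZ : ∀ y ∈ Z, ∃ d' ∈ Pt C p Q k, ∃ d ∈ Pt C p Q j, y = tr (2 * j) d' ∧
      ∀ i < 2 * j, d i + d' i + γ i ≡ r i [MOD p (i / 2)]) (S : Finset (ℕ → ℕ))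
    (hS : ∀ w ∈ S, ∃ y ∈ Z, res a (a + (μ + 1) * C ^ v) y = w) : S.card ≤ 27 * (C + 1) ^ C := by
  have hb := hp2.2.1
  have hl := hp.len_le (by have := h.three; omega)
  have e0 : (μ + 1) * C ^ v = μ * C ^ v + C ^ v := by ring
  have e1 : a + (μ + 1) * C ^ v - a = (μ + 1) * C ^ v := by omega
  have e2 : a + μ * C ^ v - a = μ * C ^ v := by omega
  have e3 : a + (μ + 1) * C ^ v - (a + μ * C ^ v) = C ^ v := by omega
  have e4 : p (a + μ * C ^ v) = p a := h.p_eq hp (by omega) hp2.1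
  rw [e1] at hl
  refine (pt3_count (Q := Q) (q := p a) (a := a) (l := (μ + 1) * C ^ v) (m := (C + 1) ^ C)
    (I := Fin 3 × Fin 3) S
    (fun κ κ' y => (∀ i < μ * C ^ v,
      Q (p a) (μ * C ^ v) κ.1 ((fun i => (r (2 * (a + i)) : ZMod (p a)) - γ (2 * (a + i))) - y) i +
        Q (p a) ((μ + 1) * C ^ v) κ' y i =
          (r (2 * (a + i) + 1) : ZMod (p a)) - γ (2 * (a + i) + 1)) ∧
      ∀ i < C ^ v, Q (p a) (C ^ v) κ.2 (fun t =>
        ((fun i => (r (2 * (a + i)) : ZMod (p a)) - γ (2 * (a + i))) - y) (μ * C ^ v + t)) i +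
        Q (p a) ((μ + 1) * C ^ v) κ' y (μ * C ^ v + i) =
          (r (2 * (a + (μ * C ^ v + i)) + 1) : ZMod (p a)) - γ (2 * (a + (μ * C ^ v + i)) + 1))
    ?_ ?_ ?_ ?_).trans (by simp)
  · intro w hw
    obtain ⟨y, hy, rfl⟩ := hS w hw
    obtain ⟨d', hd', d, hd, rfl, hr⟩ := hZ y hy
    exact (pt3_data h hjk hp hb hd' hr).1
  · intro w hw i hi
    obtain ⟨y, -, rfl⟩ := hS w hw
    exact if_neg hi
  · intro w hw
    obtain ⟨y, hy, rfl⟩ := hS w hw
    obtain ⟨d', hd', d, hd, rfl, hr⟩ := hZ y hy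
    obtain ⟨-, ⟨κ', h1⟩, h2, h3⟩ := pt3_data h hjk hp hb hd' hr
    obtain ⟨κ₁, h4⟩ := (mem_Pt.1 hd).2 _ _ hp1
    obtain ⟨κ₂, h5⟩ := (mem_Pt.1 hd).2 _ _ hp2
    rw [e1] at h1 h2 h3
    rw [e2] at h4
    rw [e3, e4] at h5
    refine ⟨(κ₁, κ₂), κ', h1, fun i hi => ?_, fun i hi => ?_⟩
    · rw [← h3 i (by omega), h4 i hi, h1 i (by omega),
        (h.sys a).loc _ κ₁ _ _ fun t ht => h2 t (by omega)]
    · have h6 := h5 i hi
      simp only [Nat.add_assoc a] at h6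
      rw [← h3 _ (by omega), h6, h1 _ (by omega),
        (h.sys a).loc _ κ₂ _ _ fun t ht => h2 (μ * C ^ v + t) (by omega)]
  · intro κ κ' Y h1 h2
    exact (h.sys a).merge v μ m1 m2 hl κ.1 κ.2 κ' _
      (fun i => (r (2 * (a + i) + 1) : ZMod (p a)) - γ (2 * (a + i) + 1)) Y h1 h2

/-- F3 -/
theorem AlgOK.near (h : AlgOK C p Q) {j k : ℕ} (hk : k = j ∨ k = j + 1) (γ r : ℕ → ℕ)
    (Z : Finset (ℕ → ℕ))
    (hZ : ∀ y ∈ Z, ∃ d' ∈ Pt C p Q k, ∃ d ∈ Pt C p Q j, y = tr (2 * j) d' ∧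
      ∀ i < 2 * j, d i + d' i + γ i ≡ r i [MOD p (i / 2)]) :
    Z.card ≤ 18 ^ (3 * (Nat.log C j + 1) + 1) * (27 * (C + 1) ^ C) ^ 2 := by
  classical
  have h3 := h.three
  have hjk : j ≤ k := by omega
  have hX : 1 ≤ 27 * (C + 1) ^ C := Nat.mul_pos (by norm_num) (Nat.pow_pos (by omega))
  let m : ℕ → Prop := fun a => ∃ b, b ≤ j ∧ Piece C k a b ∧ ¬Piece C j a b
  have h1 := card_le_prod_piece hjk (cut_of_le (by omega) : Cut C k j)
    (fun a => 18 * if m a then 27 * (C + 1) ^ C else 1) (M := p) Z ?_ ?_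
  · refine h1.trans ?_
    rw [prod_mul_distrib, prod_const, prod_ite, prod_const, prod_const_one, mul_one]
    refine Nat.mul_le_mul (Nat.pow_le_pow_right (by norm_num) ?_) (Nat.pow_le_pow_right hX ?_)
    · refine le_trans (card_le_card fun a ha => ?_) (card_cut_le (by omega : 2 ≤ C) j)
      exact mem_filter.2 ⟨(mem_filter.1 ha).1, (mem_filter.1 ha).2.mono hjk⟩
    · rcases hk with rfl | rfl
      · refine le_trans (le_of_eq (card_eq_zero.2 (eq_empty_of_forall_notMem fun a ha => ?_)))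
          (Nat.zero_le 2)
        obtain ⟨b, -, h4, h5⟩ := (mem_filter.1 ha).2
        exact h5 h4
      · exact card_merge_le h3 j _ fun a ha => (mem_filter.1 ha).2
  · intro y hy
    obtain ⟨d', hd', -, -, rfl, -⟩ := hZ y hy
    exact tr_mem_Box fun i hi => (mem_Box.1 (mem_Pt.1 hd').1).1 i (by omega)
  · intro a b hp hb
    by_cases h4 : Piece C j a b
    · refine (pt3_same h hjk hp h4 γ r Z hZ _ fun w hw => mem_image.1 hw).trans ?_
      refine Nat.le_mul_of_pos_right _ ?_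
      split_ifs
      · exact hX
      · exact Nat.one_pos
    · have h5 : m a := ⟨b, hb, hp, h4⟩
      rw [if_pos h5]
      rcases hk with rfl | rfl
      · exact absurd hp h4
      · obtain ⟨v, μ, m1, m2, rfl, p1, p2⟩ := (hp.succ h3 hb).resolve_left h4
        exact (pt3_merge h hjk m1 m2 hp p1 p2 γ r Z hZ _ fun w hw => mem_image.1 hw).trans
          (Nat.le_mul_of_pos_left _ (by norm_num))

end Pool.Agent.P.MP_d5a1e1_nt.TB
end

-- part Pool.Agent.P.MP_d5a1e1_nt.TBPt5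
section

/-! A crude bound for the number of solutions for arbitrary states. -/

namespace Pool.Agent.P.MP_d5a1e1_nt.TB

open Finset

variable {C : ℕ} {p : ℕ → ℕ} {Q : QFam}

/-- The even digits on `l` units from `a` on. -/
def evP5 (q a l : ℕ) (d : ℕ → ℕ) : ℕ → ZMod q :=
  fun i => if i < l then (d (2 * (a + i)) : ZMod q) else 0

theorem evP5_lt {q a l i : ℕ} (h : i < l) (d : ℕ → ℕ) :
    evP5 q a l d i = (d (2 * (a + i)) : ZMod q) := if_pos h

theorem evP5_res (q a b : ℕ) (d : ℕ → ℕ) :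
    evP5 q a (b - a) (res a b d) = evP5 q a (b - a) d := by
  funext i
  unfold evP5 res
  split_ifs with h1 h2
  · rfl
  · omega
  · rfl

theorem cast_injP5 {q x y : ℕ} (hx : x < q) (hy : y < q) (h : (x : ZMod q) = y) : x = y :=
  Nat.ModEq.eq_of_lt_of_lt ((ZMod.natCast_eq_natCast_iff x y q).1 h) hx hy

open Classical in
theorem AlgOK.classP5 (h : AlgOK C p Q) {k a b M : ℕ} (hp : Piece C k a b) (κ : Fin 3)
    (W : Finset (ℕ → ℕ)) (h1 : ∀ d ∈ W, d ∈ Box (2 * k) p ∧ OnQ Q (p a) a (b - a) κ d)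
    (h2 : Sep (b - a) (W.image (evP5 (p a) a (b - a))) →
      (W.image (evP5 (p a) a (b - a))).card ≤ M) : (W.image (res a b)).card ≤ M := by
  refine le_trans (card_le_card_of_injOn (evP5 (p a) a (b - a)) (fun y hy => ?_) ?_) (h2 ?_)
  · obtain ⟨d, hd, rfl⟩ := mem_image.1 (mem_coe.1 hy)
    rw [evP5_res]
    exact mem_coe.2 (mem_image_of_mem _ hd)
  · intro y hy y' hy' e
    obtain ⟨d, hd, rfl⟩ := mem_image.1 (mem_coe.1 hy)
    obtain ⟨d', hd', rfl⟩ := mem_image.1 (mem_coe.1 hy')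
    rw [evP5_res, evP5_res] at e
    have e1 : ∀ i < b - a, (d (2 * (a + i)) : ZMod (p a)) = d' (2 * (a + i)) := fun i hi => by
      rw [← evP5_lt hi, ← evP5_lt hi, e]
    funext i
    unfold res
    split_ifs with hi
    · have hk := hp.2.1
      have e2 : p (i / 2) = p a := h.p_eq hp (by omega) (by omega)
      have b1 := (mem_Box.1 (h1 d hd).1).1 i (by omega)
      have b2 := (mem_Box.1 (h1 d' hd').1).1 i (by omega)
      rw [e2] at b1 b2
      refine cast_injP5 b1 b2 ?_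
      obtain ⟨r, hr, e3 | e3⟩ : ∃ r, r < b - a ∧ (i = 2 * (a + r) ∨ i = 2 * (a + r) + 1) :=
        ⟨i / 2 - a, by omega, by omega⟩
      · rw [e3]
        exact e1 r hr
      · rw [e3, (h1 d hd).2 r hr, (h1 d' hd').2 r hr, (h.sys a).loc _ _ _ _ e1]
    · rfl
  · intro y hy y' hy' e
    obtain ⟨d, _, rfl⟩ := mem_image.1 hy
    obtain ⟨d', _, rfl⟩ := mem_image.1 hy'
    funext i
    by_cases hi : i < b - a
    · exact e i hi
    · simp only [evP5, hi, if_false]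

theorem Piece.insideP5 {j k a b a' b' u : ℕ} (hk : j ≤ k) (hp : Piece C k a b)
    (hp' : Piece C j a' b') (h1 : a ≤ u) (h2 : u < b) (h3 : a' ≤ u) (h4 : u < b') :
    a ≤ a' ∧ b' ≤ b :=
  ⟨not_lt.1 fun h => hp'.2.2.2.2 a h (by omega) (hp.2.2.1.mono hk),
    not_lt.1 fun h => hp'.2.2.2.2 b (by omega) h (hp.2.2.2.1.mono hk)⟩

open Classical in
theorem AlgOK.pieceP5 (h : AlgOK C p Q) {j k a b : ℕ} (hk : j ≤ k) (hp : Piece C k a b)
    (r : ℕ → ℕ) (Z : Finset (ℕ → ℕ))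
    (hZ : ∀ d' ∈ Z, d' ∈ Pt C p Q k ∧ ∃ d ∈ Pt C p Q j,
      (∀ i < 2 * j, d i + d' i ≡ r i [MOD p (i / 2)]) ∧
      ∀ u, j ≤ u → u < k → d' (2 * u + 1) = r (2 * u + 1)) :
    (Z.image (res a b)).card ≤ (9 * (k + 1)) ^ (b - a) := by
  have hab := hp.1
  have hbk := hp.2.1
  have hτ := hp.len_le (by have := h.three; omega)
  choose! st en hse using fun u (hu : u < j) => exists_piece (C := C) hu
  let cfg : (Fin (b - a) → Fin 3) → ℕ → Option (ℕ × ℕ × Fin 3) := fun κ i =>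
    if a + i < j then some (st (a + i) - a, en (a + i) - st (a + i),
      if hi : st (a + i) - a < b - a then κ ⟨_, hi⟩ else 0) else none
  let U : ℕ → ZMod (p a) := fun i => (r (2 * (a + i)) : ZMod (p a))
  let V : ℕ → ZMod (p a) := fun i => (r (2 * (a + i) + 1) : ZMod (p a))
  have hb : ∀ (c : Fin 3 × (Fin (b - a) → Fin 3)) (Y : Finset (ℕ → ZMod (p a))), Sep (b - a) Y →
      (∀ y ∈ Y, ∀ i < b - a,
        oldQ (Q (p a)) (cfg c.2) (U - y) i + Q (p a) (b - a) c.1 y i = V i) →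
      Y.card ≤ (b - a + 1) ^ (b - a) := by
    intro c Y h1 h2
    by_cases hj : Piece C j a b
    · refine ((h.sys a).two (b - a) (by omega) hτ (c.2 ⟨0, by omega⟩) c.1 U V Y h1
        fun y hy i hi => ?_).trans ?_
      · have e0 : a + i < j := by have := hj.2.1; omega
        obtain ⟨e1, e2, e3⟩ := hse _ e0
        obtain ⟨e4, e5⟩ := hj.unique e1 (by omega) (by omega) e2 e3
        have e6 := h2 y hy i hi
        simp only [oldQ, cfg, e0, if_true, ← e4, ← e5, Nat.sub_self, zero_add, Nat.sub_zero,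
          dif_pos (show 0 < b - a by omega)] at e6
        exact e6
      · exact le_trans (by omega) (Nat.le_self_pow (by omega) _)
    · refine (h.sys a).crude (b - a) (by omega) hτ (cfg c.2) (fun i hi c' hc => ?_) c.1 U V Y h1 h2
      by_cases e0 : a + i < j
      · obtain ⟨e1, e2, e3⟩ := hse _ e0
        obtain ⟨e4, e5⟩ := hp.insideP5 hk e1 (by omega) (by omega) e2 e3
        simp only [cfg, e0, if_true, Option.some.injEq] at hc
        subst hc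
        have e6 : ¬(st (a + i) = a ∧ en (a + i) = b) := fun e => hj (e.1 ▸ e.2 ▸ e1)
        dsimp only
        omega
      · simp only [cfg, e0, if_false] at hc
        cases hc
  let W : Fin 3 × (Fin (b - a) → Fin 3) → Finset (ℕ → ℕ) := fun c => Z.filter fun d' =>
    OnQ Q (p a) a (b - a) c.1 d' ∧ ∀ i < b - a,
      oldQ (Q (p a)) (cfg c.2) (U - evP5 (p a) a (b - a) d') i +
        Q (p a) (b - a) c.1 (evP5 (p a) a (b - a) d') i = V i
  have hW : ∀ d' ∈ Z, ∃ c, d' ∈ W c := by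
    intro d' hd'
    obtain ⟨h1, d, h2, h3, h4⟩ := hZ d' hd'
    obtain ⟨κ', h5⟩ := (mem_Pt.1 h1).2 a b hp
    have h6 : ∀ a', ∃ κ, ∀ b', Piece C j a' b' → OnQ Q (p a') a' (b' - a') κ d := fun a' => by
      by_cases e : ∃ b', Piece C j a' b'
      · obtain ⟨b', e1⟩ := e
        obtain ⟨κ, e2⟩ := (mem_Pt.1 h2).2 a' b' e1
        exact ⟨κ, fun b'' e3 => (e1.unique e3 le_rfl e1.1 le_rfl e3.1).2 ▸ e2⟩
      · exact ⟨0, fun b' e1 => absurd ⟨b', e1⟩ e⟩
    choose lab hlab using h6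
    have h7 : ∀ i, 2 * a ≤ i → i < 2 * b → i < 2 * j →
        (d i : ZMod (p a)) + d' i = r i := fun i i1 i2 i3 => by
      have e := h3 i i3
      rw [h.p_eq hp (show a ≤ i / 2 by omega) (by omega)] at e
      rw [← Nat.cast_add]
      exact (ZMod.natCast_eq_natCast_iff _ _ _).2 e
    refine ⟨(κ', fun i => lab (a + i)), mem_filter.2 ⟨hd', h5, fun i hi => ?_⟩⟩
    rw [(h.sys a).loc _ _ _ _ fun i hi => evP5_lt hi d', ← h5 i hi]
    by_cases e0 : a + i < j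
    · obtain ⟨e1, e2, e3⟩ := hse _ e0
      obtain ⟨e4, e5⟩ := hp.insideP5 hk e1 (by omega) (by omega) e2 e3
      have e6 := e1.2.1
      have e7 := hlab _ _ e1
      rw [h.p_eq hp e4 (by omega)] at e7
      have e8 := e7 (a + i - st (a + i)) (by omega)
      simp only [oldQ, cfg, e0, if_true, dif_pos (show st (a + i) - a < b - a by omega)]
      rw [show a + (st (a + i) - a) = st (a + i) by omega,
        show i - (st (a + i) - a) = a + i - st (a + i) by omega,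
        (h.sys a).loc _ _ _ (fun t => (d (2 * (st (a + i) + t)) : ZMod (p a))) fun t ht => ?_,
        ← e8, show st (a + i) + (a + i - st (a + i)) = a + i by omega]
      · exact h7 _ (by omega) (by omega) (by omega)
      · rw [Pi.sub_apply, evP5_lt (by omega)]
        simp only [U]
        rw [show a + (st (a + i) - a + t) = st (a + i) + t by omega,
          ← h7 _ (by omega) (by omega) (by omega), add_sub_cancel_right]
    · simp only [oldQ, cfg, e0, if_false, zero_add, V]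
      rw [h4 _ (by omega) (by omega)]
  have h1 : Z.image (res a b) ⊆ univ.biUnion fun c => (W c).image (res a b) := fun y hy => by
    obtain ⟨d', hd', rfl⟩ := mem_image.1 hy
    obtain ⟨c, hc⟩ := hW d' hd'
    exact mem_biUnion.2 ⟨c, mem_univ _, mem_image_of_mem _ hc⟩
  have h2 : ∀ c ∈ (univ : Finset (Fin 3 × (Fin (b - a) → Fin 3))),
      ((W c).image (res a b)).card ≤ (b - a + 1) ^ (b - a) := fun c _ =>
    h.classP5 hp c.1 (W c)
      (fun d hd => ⟨(mem_Pt.1 (hZ d (mem_filter.1 hd).1).1).1, (mem_filter.1 hd).2.1⟩)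
      fun hs => hb c _ hs fun y hy => by
        obtain ⟨d, hd, rfl⟩ := mem_image.1 hy
        exact (mem_filter.1 hd).2.2
  refine (card_le_card h1).trans ((card_biUnion_le_card_mul _ _ _ h2).trans ?_)
  rw [card_univ, Fintype.card_prod, Fintype.card_fun, Fintype.card_fin, Fintype.card_fin, mul_pow]
  refine Nat.mul_le_mul ?_ (Nat.pow_le_pow_left (by omega) _)
  rw [show (9 : ℕ) = 3 * 3 by norm_num, mul_pow]
  exact Nat.mul_le_mul_right _ (Nat.le_self_pow (by omega) 3)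

/-- F5 -/
theorem AlgOK.far (h : AlgOK C p Q) {j k : ℕ} (hk : j ≤ k) (r : ℕ → ℕ) (Z : Finset (ℕ → ℕ))
    (hZ : ∀ d' ∈ Z, d' ∈ Pt C p Q k ∧ ∃ d ∈ Pt C p Q j,
      (∀ i < 2 * j, d i + d' i ≡ r i [MOD p (i / 2)]) ∧
      ∀ u, j ≤ u → u < k → d' (2 * u + 1) = r (2 * u + 1)) :
    Z.card ≤ (9 * (k + 1)) ^ k := by
  classical
  let I : ℕ → Finset ℕ := fun a => (range k).filter fun u => ∃ b, Piece C k a b ∧ a ≤ u ∧ u < b
  refine (card_le_prod_piece (C := C) le_rfl (cut_of_le (Nat.le_succ k))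
    (fun a => (9 * (k + 1)) ^ (I a).card) Z (fun d hd => (mem_Pt.1 (hZ d hd).1).1)
    fun a b hp hb => ?_).trans ?_
  · refine (h.pieceP5 hk hp r Z hZ).trans (Nat.pow_le_pow_right (by omega) ?_)
    rw [← Nat.card_Ico]
    refine card_le_card fun u hu => ?_
    obtain ⟨h1, h2⟩ := mem_Ico.1 hu
    exact mem_filter.2 ⟨mem_range.2 (by omega), b, hp, h1, h2⟩
  · rw [prod_pow_eq_pow_sum, ← card_biUnion]
    · refine Nat.pow_le_pow_right (by omega) ((card_le_card ?_).trans (card_range k).le)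
      exact biUnion_subset.2 fun a _ => filter_subset _ _
    · intro a _ a' _ hne
      refine disjoint_left.2 fun u h1 h2 => hne ?_
      obtain ⟨b, e1, e2, e3⟩ := (mem_filter.1 h1).2
      obtain ⟨b', e4, e5, e6⟩ := (mem_filter.1 h2).2
      exact (e1.unique e4 e2 e3 e5 e6).1

end Pool.Agent.P.MP_d5a1e1_nt.TB
end

-- part Pool.Agent.P.MP_d5a1e1_nt.T3Fine
section

/-! The fine points exist. -/

namespace Pool.Agent.P.MP_d5a1e1_nt.T3

open Finset TB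

variable [Kap]

theorem exists_fine : ∃ Pt, Fine Pt := by
  obtain ⟨Q, hQ⟩ := exists_algOK (C := CC) (p := pp) CC_ge pp_prime
    (fun u u' h => by unfold pp LL; rw [h]) pp_sys
  refine ⟨Pt CC pp Q, fun k d hd => (mem_Pt.1 hd).1, hQ.cover, fun j k hk γ r Z hZ => ?_,
    hQ.top, fun j k hjk r Z hZ => ?_⟩
  · refine hQ.near hk γ r Z fun y hy => ?_
    obtain ⟨d, hd, d', hd', h1, h2⟩ := hZ y hy
    exact ⟨d', hd', d, hd, h1, h2⟩
  · refine hQ.far hjk.le r Z fun y hy => ?_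
    obtain ⟨h1, ⟨d, hd, h2⟩, h3⟩ := hZ y hy
    exact ⟨h1, d, hd, fun i hi => by rw [h2 i hi], h3⟩

end Pool.Agent.P.MP_d5a1e1_nt.T3
end

-- part Pool.Agent.P.MP_d5a1e1_nt.T3Good
section

/-! The random choices exist. -/

namespace Pool.Agent.P.MP_d5a1e1_nt.T3

open Finset TB

/-- Conditioning on the coordinates outside `p`. -/
theorem pr_cond {α : Type*} [DecidableEq α] {π : α → ℝ} (h0 : ∀ a, 0 ≤ π a) (h1 : ∀ a, π a ≤ 1)
    (p : α → Prop) [DecidablePred p] (S : Finset α) {ε : ℝ} (E : Finset α → Finset α → Prop)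
    (h : ∀ B, pr (S.filter p) π (E B) ≤ ε) :
    pr S π (fun A => E (A.filter fun a => ¬p a) (A.filter p)) ≤ ε := by
  have key : ∀ T : Finset α, (∀ a ∈ T, ¬p a) → ∀ E : Finset α → Finset α → Prop,
      (∀ B, pr (S.filter p) π (E B) ≤ ε) →
      pr (T ∪ S.filter p) π (fun A => E (A.filter fun a => ¬p a) (A.filter p)) ≤ ε := by
    intro T
    induction T using Finset.induction_on with
    | empty =>
      intro _ E hE
      rw [empty_union]
      refine le_of_eq_of_le (pr_congr fun A hA => ?_) (hE ∅)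
      rw [filter_true_of_mem fun a ha => (mem_filter.1 (hA ha)).2,
        filter_false_of_mem fun a ha => not_not.2 (mem_filter.1 (hA ha)).2]
    | insert a T ha ih =>
      intro hT E hE
      have hp := hT a (mem_insert_self _ _)
      have hT' : ∀ b ∈ T, ¬p b := fun b hb => hT b (mem_insert_of_mem hb)
      rw [insert_union, pr_insert (by simp [ha, hp])]
      have e1 := ih hT' (fun B => E (insert a B)) fun B => hE _
      have e2 := ih hT' E hE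
      simp only [filter_insert, if_neg hp, if_pos hp]
      nlinarith [mul_le_mul_of_nonneg_left e1 (h0 a),
        mul_le_mul_of_nonneg_left e2 (sub_nonneg.2 (h1 a))]
  have := key (S.filter fun a => ¬p a) (fun a ha => (mem_filter.1 ha).2) E h
  rwa [union_comm, filter_union_filter_not_eq] at this

open Classical in
/-- A function with the property `P`, if there is one. -/
noncomputable def pk (P : ((ℕ → ℕ) → ℕ) → Prop) : (ℕ → ℕ) → ℕ :=
  if H : ∃ f, P f then H.choose else fun _ => 0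

theorem pk_spec {P : ((ℕ → ℕ) → ℕ) → Prop} (h : ∃ f, P f) : P (pk P) := by
  rw [pk, dif_pos h]
  exact h.choose_spec

theorem T3Gooda_sum {k n : ℕ} (h : n ≤ k) :
    (1 : ℝ) / 2 ^ (k + 4) + (1 / 2 ^ (k + 4) + (1 / 2 ^ (k + 4) + (1 / 2 ^ (k + 4) +
      k * (1 / 2 ^ (2 * k + 4))))) ≤ 1 / 2 ^ (n + 1) := by
  have h1 : (k : ℝ) ≤ 2 ^ k := by exact_mod_cast (Nat.lt_two_pow_self (n := k)).le
  have h2 : (k : ℝ) * (1 / 2 ^ (2 * k + 4)) ≤ 1 / 2 ^ (k + 4) := by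
    have e : (2 : ℝ) ^ (2 * k + 4) = 2 ^ k * 2 ^ (k + 4) := by ring
    rw [e, mul_one_div, div_le_div_iff₀ (by positivity) (by positivity), one_mul]
    gcongr
  have h3 : (1 : ℝ) / 2 ^ (k + 1) ≤ 1 / 2 ^ (n + 1) :=
    one_div_le_one_div_of_le (by positivity) (pow_le_pow_right₀ one_le_two (by omega))
  have h4 : (1 : ℝ) / 2 ^ (k + 1) = 8 * (1 / 2 ^ (k + 4)) := by field_simp; ring
  have h5 : (0 : ℝ) ≤ 1 / 2 ^ (k + 4) := by positivity
  linarith

variable [Kap] {Pt : ℕ → Finset (ℕ → ℕ)} {ξ : ℕ → ℕ → ℕ → ℕ}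

/-- The hash function of state `k`, given those of the earlier states. -/
noncomputable def pick (Pt : ℕ → Finset (ℕ → ℕ)) (ξ : ℕ → ℕ → ℕ → ℕ) (K : Set Cell)
    (h : ℕ → (ℕ → ℕ) → ℕ) (k : ℕ) : (ℕ → ℕ) → ℕ :=
  pk fun f => (∀ e, f e < HH k) ∧ Spread Pt ξ K h k f

open Classical in
/-- The hash functions, chosen state by state. -/
noncomputable def hh (Pt : ℕ → Finset (ℕ → ℕ)) (ξ : ℕ → ℕ → ℕ → ℕ) (K : Set Cell) (k : ℕ) :
    (ℕ → ℕ) → ℕ :=
  pick Pt ξ K (fun j => if _h : j < k then hh Pt ξ K j else fun _ => 0) k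
termination_by k

theorem Cand_congr {K K' : Set Cell} {h h' : ℕ → (ℕ → ℕ) → ℕ} {j : ℕ}
    (h1 : ∀ c ∈ cells j, c ∈ K ↔ c ∈ K') (h2 : h j = h' j) (k n : ℕ) (d' : ℕ → ℕ) :
    Cand Pt ξ K h j k n d' ↔ Cand Pt ξ K' h' j k n d' := by
  unfold Cand
  rw [h2]
  exact and_congr_right fun _ => exists_congr fun d => and_congr_right fun _ =>
    exists_congr fun c => ⟨fun g => ⟨(h1 c g.2.1).1 g.1, g.2⟩, fun g => ⟨(h1 c g.2.1).2 g.1, g.2⟩⟩

theorem pick_congr {K K' : Set Cell} {h h' : ℕ → (ℕ → ℕ) → ℕ} {k : ℕ}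
    (h1 : ∀ j, j + 2 ≤ k → (∀ c ∈ cells j, c ∈ K ↔ c ∈ K') ∧ h j = h' j) :
    pick Pt ξ K h k = pick Pt ξ K' h' k := by
  have e : ∀ n d', (∃ j, k0 ≤ j ∧ j + 2 ≤ k ∧ Cand Pt ξ K h j k n d') ↔
      ∃ j, k0 ≤ j ∧ j + 2 ≤ k ∧ Cand Pt ξ K' h' j k n d' := fun n d' =>
    exists_congr fun j => and_congr_right fun _ => and_congr_right fun hj =>
      Cand_congr (h1 j hj).1 (h1 j hj).2 k n d'
  refine congrArg pk (funext fun f => ?_)
  simp only [Spread, e]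

theorem hh_eq (K : Set Cell) (k : ℕ) : hh Pt ξ K k = pick Pt ξ K (hh Pt ξ K) k := by
  rw [hh]
  exact pick_congr fun j hj => ⟨fun _ _ => Iff.rfl, dif_pos (by omega)⟩

theorem hh_congr {K K' : Set Cell} (k : ℕ)
    (h1 : ∀ j, j + 2 ≤ k → ∀ c ∈ cells j, c ∈ K ↔ c ∈ K') : hh Pt ξ K k = hh Pt ξ K' k := by
  induction k using Nat.strong_induction_on with
  | _ k ih =>
    rw [hh_eq, hh_eq K']
    exact pick_congr fun j hj => ⟨h1 j hj, ih j (by omega) fun i hi => h1 i (by omega)⟩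

theorem KF_congr {K K' : Set Cell} {h h' : ℕ → (ℕ → ℕ) → ℕ} {j : ℕ}
    (h1 : ∀ c ∈ cells j, c ∈ K ↔ c ∈ K') (h2 : h j = h' j) (k : ℕ) :
    KF Pt ξ K h j k ↔ KF Pt ξ K' h' j k := by
  simp only [KF, Cand_congr h1 h2]

theorem pr_KF' (hF : Fine Pt) {j k : ℕ} (hj : k0 ≤ j) (hjk : j + 2 ≤ k) (S : Finset Cell) :
    pr S qq (fun A => ¬KF Pt ξ (A : Set Cell) (hh Pt ξ (A : Set Cell)) j k) ≤
      1 / 2 ^ (2 * k + 4) := by
  refine le_of_eq_of_le (pr_congr fun A _ => not_congr (KF_congr (fun c hc => ?_)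
    (hh_congr j fun i hi c hc => ?_) k)) (pr_cond qq_nonneg qq_le_one (fun c => c.k = j) S
      (fun B A => ¬KF Pt ξ (A : Set Cell) (hh Pt ξ (B : Set Cell)) j k)
      fun B => pr_KF hF _ hj hjk _)
  · simp [(mem_cells.1 hc).1]
  · have : i ≠ j := by omega
    simp [(mem_cells.1 hc).1, this]

theorem exists_good (hF : Fine Pt) (ξ : ℕ → ℕ → ℕ → ℕ) : ∃ K, Good Pt ξ K (hh Pt ξ K) := by
  classical
  obtain ⟨K, hK⟩ := exists_avoid (π := qq) qq_nonneg qq_le_one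
    (fun n => (range (k0 + n + 2)).biUnion cells)
    (fun n A => ¬K0 (A : Set Cell) (k0 + n) ∨ ¬K1 Pt (A : Set Cell) (k0 + n) ∨
      ¬KC (A : Set Cell) (k0 + n) ∨ ¬KA (A : Set Cell) (k0 + n) ∨
      ∃ j ∈ (range (k0 + n)).filter (fun j => k0 ≤ j ∧ j + 2 ≤ k0 + n),
        ¬KF Pt ξ (A : Set Cell) (hh Pt ξ (A : Set Cell)) j (k0 + n)) (fun n => by
      have hk : k0 ≤ k0 + n := Nat.le_add_right _ _
      have hn : n ≤ k0 + n := Nat.le_add_left _ _
      generalize k0 + n = k at hk hn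
      refine le_trans ?_ (T3Gooda_sum hn)
      refine (pr_or_le qq_nonneg qq_le_one _ _).trans (add_le_add (pr_K0 hk _) ?_)
      refine (pr_or_le qq_nonneg qq_le_one _ _).trans (add_le_add (pr_K1 hF hk _) ?_)
      refine (pr_or_le qq_nonneg qq_le_one _ _).trans (add_le_add
        (pr_KC hk _ (subset_biUnion_of_mem cells (mem_range.2 (by omega)))) ?_)
      refine (pr_or_le qq_nonneg qq_le_one _ _).trans (add_le_add (pr_KA hk _) ?_)
      refine (pr_exists_le qq_nonneg qq_le_one _ _).trans ?_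
      refine (sum_le_card_nsmul _ _ ((1 : ℝ) / 2 ^ (2 * k + 4)) fun j hj => ?_).trans ?_
      · exact pr_KF' hF (mem_filter.1 hj).2.1 (mem_filter.1 hj).2.2 _
      · rw [nsmul_eq_mul]
        refine mul_le_mul_of_nonneg_right ?_ (by positivity)
        exact_mod_cast (card_filter_le _ _).trans (card_range k).le)
  have key : ∀ k, k0 ≤ k → ∃ A : Set Cell, A ⊆ K ∧
      (∀ j, j ≤ k + 1 → ∀ c ∈ cells j, c ∈ K → c ∈ A) ∧
      K0 A k ∧ K1 Pt A k ∧ KC A k ∧ KA A k ∧ ∀ j, k0 ≤ j → j + 2 ≤ k →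
        KF Pt ξ A (hh Pt ξ A) j k := by
    intro k hk
    obtain ⟨n, rfl⟩ := Nat.exists_eq_add_of_le hk
    have h := hK n
    simp only [not_or, not_not, not_exists, not_and] at h
    refine ⟨_, ?_, ?_, h.1, h.2.1, h.2.2.1, h.2.2.2.1, fun j h1 h2 => h.2.2.2.2 j ?_⟩
    · intro c hc
      exact (mem_filter.1 (mem_coe.1 hc)).2
    · intro j hj c hc hcK
      exact mem_coe.2 (mem_filter.2 ⟨mem_biUnion.2 ⟨j, mem_range.2 (by omega), hc⟩, hcK⟩)
    · exact mem_filter.2 ⟨mem_range.2 (by omega), h1, h2⟩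
  refine ⟨K, fun k hk => ?_, fun k hk => ?_, fun k hk => ?_, fun k hk => ?_,
    fun j k hj hjk => ?_⟩
  · obtain ⟨A, -, hA, h, -⟩ := key k hk
    intro N P hP Z hZ
    refine h N P hP Z fun e he => ?_
    obtain ⟨h1, h2, t, ht, hf, h3⟩ := hZ e he
    exact ⟨hA k (by omega) _ hf.1 h1, hA k (by omega) _ hf.2.1 h2, t, ht, hf, h3⟩
  · obtain ⟨A, -, hA, -, h, -⟩ := key k hk
    intro N P hP Z hZ
    refine h N P hP Z fun e he => ?_
    obtain ⟨h1, h2, t, ht, hf, h3⟩ := hZ e he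
    exact ⟨hA k (by omega) _ hf.1 h1, hA (k + 1) le_rfl _ hf.2.1 h2, t, ht, hf, h3⟩
  · obtain ⟨A, hA, -, -, -, h, -⟩ := key k hk
    intro N P hP hs h1 h2
    obtain ⟨c, hc, c', hc', he⟩ := h N P hP hs h1 h2
    exact ⟨c, hA hc, c', hA hc', he⟩
  · obtain ⟨A, -, hA, -, -, -, h, -⟩ := key k hk
    intro z Z hZ
    refine h z Z fun c hc => ?_
    obtain ⟨h1, h2, h3⟩ := hZ c hc
    exact ⟨hA k (by omega) _ h2 h1, h2, h3⟩
  · obtain ⟨A, hA', hA, -, -, -, -, h⟩ := key k (by omega)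
    exact (KF_congr (fun c hc => ⟨fun g => hA' g, hA j (by omega) c hc⟩)
      (hh_congr j fun i hi c hc => ⟨fun g => hA' g, hA i (by omega) c hc⟩) k).1 (h j hj hjk)

theorem T3Good_y {k : ℕ} (hk : k0 ≤ k) : 4096 ≤ yy k := by
  have h1 := T3Par_big hk
  have h2 := LL_pos k
  omega

theorem T3Good_num {k : ℕ} (hk : k0 ≤ k) :
    k * (EE k * (72 * 2 ^ yy k ^ (2 * ka + 1) + 5 * k * sg k)) ≤ XB k := by
  have hy := yy_ge k
  have h0 := ka_big
  have h1 : k ≤ yy k ^ (2 * ka) := tau_eq k ▸ (lt_tau k).le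
  have h2 : 5 * k * sg k ≤ 2 ^ yy k ^ (2 * ka + 1) := by
    have h3 : 6 * ka + 15 ≤ yy k ^ (2 * ka) := by
      have h4 : ka < 2 ^ ka := Nat.lt_two_pow_self
      have h5 : 2 ^ (ka + 3) ≤ yy k ^ (2 * ka) :=
        (Nat.pow_le_pow_right (by norm_num) (by omega)).trans (Nat.pow_le_pow_left hy _)
      rw [pow_add] at h5
      omega
    calc 5 * k * sg k ≤ yy k ^ 3 * yy k ^ (2 * ka) * yy k ^ (4 * ka + 12) :=
          Nat.mul_le_mul_right _ (Nat.mul_le_mul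
            (le_trans (by norm_num) (Nat.pow_le_pow_left hy 3)) h1)
      _ = yy k ^ (6 * ka + 15) := by ring
      _ ≤ (2 ^ yy k) ^ (6 * ka + 15) := Nat.pow_le_pow_left Nat.lt_two_pow_self.le _
      _ ≤ _ := by
          rw [← pow_mul, pow_succ']
          exact Nat.pow_le_pow_right (by norm_num) (Nat.mul_le_mul_left _ h3)
  have h3 : 73 * k ≤ 5 * k * sg k := by
    have h4 := sg_big k
    nlinarith
  have h4 : XB k = 2 ^ yy k ^ (2 * ka + 1) *
      (2 ^ yy k ^ (2 * ka + 1) * 2 ^ yy k ^ (2 * ka + 1)) := by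
    rw [XB, ← pow_add, ← pow_add]
    congr 1
    ring
  rw [h4, mul_left_comm]
  refine Nat.mul_le_mul (EE_le hk) ?_
  calc _ ≤ k * (73 * 2 ^ yy k ^ (2 * ka + 1)) := Nat.mul_le_mul_left _ (by omega)
    _ = 73 * k * 2 ^ yy k ^ (2 * ka + 1) := by ring
    _ ≤ _ := Nat.mul_le_mul_right _ (h3.trans h2)

theorem cand_le {K : Set Cell} {h : ℕ → (ℕ → ℕ) → ℕ} (hK : Good Pt ξ K h) {k n : ℕ}
    (hk : k0 ≤ k) (hn : n < 2 * WW (2 * k)) (Z : Finset (ℕ → ℕ))
    (hZ : ∀ d' ∈ Z, ∃ j, k0 ≤ j ∧ j + 2 ≤ k ∧ Cand Pt ξ K h j k n d') : Z.card ≤ XB k := by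
  classical
  have hsub : Z ⊆ (range k).biUnion fun j =>
      Z.filter fun d' => k0 ≤ j ∧ j + 2 ≤ k ∧ Cand Pt ξ K h j k n d' := by
    intro d' hd'
    obtain ⟨j, h1, h2, h3⟩ := hZ d' hd'
    exact mem_biUnion.2 ⟨j, mem_range.2 (by omega), mem_filter.2 ⟨hd', h1, h2, h3⟩⟩
  refine (card_le_card hsub).trans ((card_biUnion_le_card_mul _ _
    (EE k * (72 * 2 ^ yy k ^ (2 * ka + 1) + 5 * k * sg k)) fun j _ => ?_).trans ?_)
  · by_cases hj : k0 ≤ j ∧ j + 2 ≤ k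
    · refine (hK.kf j k hj.1 hj.2 n hn _ fun d' hd' => (mem_filter.1 hd').2.2.2).trans ?_
      exact Nat.mul_le_mul_left _ (Nat.add_le_add_right (Nat.mul_le_mul_left _
        (Nat.pow_le_pow_right (by norm_num) (Nat.pow_le_pow_left (yy_mono (by omega)) _))) _)
    · rw [filter_false_of_mem fun d' _ h => hj ⟨h.1, h.2.1⟩]
      exact Nat.zero_le _
  · rw [card_range]
    exact T3Good_num hk

theorem T3Good_num2 {k : ℕ} (hk : k0 ≤ k) :
    2 * WW (2 * k) * HH k * XB k ^ sg k < HH k ^ sg k := by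
  have hy := T3Good_y hk
  have h1 : k < yy k ^ (2 * ka) := tau_eq k ▸ lt_tau k
  have h2 : (k + 1) * 4096 ≤ yy k ^ (2 * ka + 1) := Nat.mul_le_mul h1 hy
  have h3 := sg_big k
  have hW := WW_le k
  rw [HH, XB]
  generalize yy k ^ (2 * ka + 1) = Y at h2 ⊢
  generalize sg k = G at h3 hW ⊢
  have h4 := Nat.mul_le_mul_right G h2
  have h5 : Y * 8 ≤ Y * G := Nat.mul_le_mul_left _ (by omega)
  calc 2 * WW (2 * k) * 2 ^ (4 * Y) * (2 ^ (3 * Y)) ^ G
      ≤ 2 ^ 1 * 2 ^ (4 * k * G) * 2 ^ (4 * Y) * (2 ^ (3 * Y)) ^ G :=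
        Nat.mul_le_mul_right _ (Nat.mul_le_mul_right _ (Nat.mul_le_mul le_rfl hW))
    _ = 2 ^ (1 + 4 * k * G + 4 * Y + 3 * Y * G) := by
        rw [← pow_mul, ← pow_add, ← pow_add, ← pow_add]
    _ < 2 ^ (4 * Y * G) := Nat.pow_lt_pow_right (by norm_num) (by nlinarith)
    _ = _ := pow_mul _ _ _

theorem hash_hh {K : Set Cell} (hK : Good Pt ξ K (hh Pt ξ K)) : Hash Pt ξ K (hh Pt ξ K) := by
  classical
  have hH : ∀ k, 0 < HH k := fun k => Nat.two_pow_pos _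
  refine ⟨fun k e => ?_, fun k hk => ?_⟩
  · rw [hh_eq, pick, pk]
    split_ifs with h
    · exact h.choose_spec.1 e
    · exact hH k
  · obtain ⟨f, hf, hf'⟩ := exists_spread (range (2 * WW (2 * k)))
      (fun n => ((Pt k).filter fun d' =>
        ∃ j, k0 ≤ j ∧ j + 2 ≤ k ∧ Cand Pt ξ K (hh Pt ξ K) j k n d').image (tr (2 * k - 2)))
      (X := XB k) (G := sg k) (hH k)
      (fun n hn => card_image_le.trans
        (cand_le hK hk (mem_range.1 hn) _ fun d' hd' => (mem_filter.1 hd').2))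
      (by
        rw [card_range]
        exact T3Good_num2 hk)
    rw [hh_eq]
    refine (pk_spec (P := fun f => (∀ e, f e < HH k) ∧ Spread Pt ξ K (hh Pt ξ K) k f)
      ⟨f, hf, fun n hn η Z hZ => lt_of_le_of_lt (card_le_card fun e he => ?_)
        (hf' n (mem_range.2 hn) η)⟩).2
    obtain ⟨h1, d', rfl, j, h2, h3, h4⟩ := hZ e he
    exact mem_filter.2 ⟨mem_image_of_mem _ (mem_filter.2 ⟨h4.1, j, h2, h3, h4⟩), h1⟩

theorem exists_data : Nonempty Data := by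
  obtain ⟨Pt, hF⟩ := exists_fine
  obtain ⟨ξ, hξ⟩ := exists_types
  obtain ⟨K, hK⟩ := exists_good hF ξ
  exact ⟨⟨Pt, ξ, K, _, hF, hξ, hK, hash_hh hK⟩⟩

end Pool.Agent.P.MP_d5a1e1_nt.T3
end

-- part Pool.Agent.P.MP_d5a1e1_nt.T3Cover
section

/-! Every large number is a sum of two elements. -/

namespace Pool.Agent.P.MP_d5a1e1_nt.T3

open Finset TB

/-- One of three classes carries a third of the weight. -/
theorem T3Cover_third {ι : Type*} (Q : Finset ι) (f : ι → ℕ) (w : ι → ℝ) (hf : ∀ q ∈ Q, f q ≤ 2)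
    {a : ℝ} (ha : a / 64 ≤ ∑ q ∈ Q, w q) :
    ∃ γ ≤ 2, a / 192 ≤ ∑ q ∈ Q with f q = γ ∧ w q ≠ 0, w q := by
  by_contra hc
  push Not at hc
  have e : ∀ γ, ∑ q ∈ Q with f q = γ ∧ w q ≠ 0, w q = ∑ q ∈ Q with f q = γ, w q := fun γ => by
    rw [← filter_filter, sum_filter_ne_zero]
  have h0 := hc 0 (by omega)
  have h1 := hc 1 (by omega)
  have h2 := hc 2 (by omega)
  rw [e] at h0 h1 h2
  have h := sum_fiberwise_of_maps_to (s := Q) (t := range 3) (g := f)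
    (fun q hq => mem_range.2 (by have := hf q hq; omega)) w
  rw [sum_range_succ, sum_range_succ, sum_range_one] at h
  linarith

variable [Kap]

/-- A family of tuples indexed by pairs of types with labels in `SS` is a frame. -/
theorem T3Cover_frame {ξ : ℕ → ℕ → ℕ → ℕ} (hξ : Types ξ) {k N : ℕ} (hk : k0 ≤ k) {g : ℕ → ℕ}
    (hg : g ∈ Box (2 * k) DD) (hN : N < 2 ^ (11 * sg (k + 2))) (Q : Finset (ℕ × ℕ))
    (hQ : ∀ q ∈ Q, q.1 < mm k ∧ q.2 < mm k ∧ ym k g (ξ k q.1) (ξ k q.2) ∈ SS k)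
    (t : ℕ × ℕ → Tup) (hi : ∀ q, (t q).i = q.1) (hi' : ∀ q, (t q).i' = q.2)
    (ht : ∀ q ∈ Q, t q ∈ tups k k) : Fr k k N (Q.image t) := by
  have hb : ∀ i < mm k, ∀ s < 2 * k, ξ k i s < DD (s / 2) := fun i h =>
    (mem_Box.1 (hξ.box k hk i h)).1
  have one : ∀ u ∈ Q.image t, ∀ u' ∈ Q.image t, u.i = u'.i → u.i' = u'.i' → u = u' := by
    intro u hu u' hu' e e'
    obtain ⟨q, -, rfl⟩ := mem_image.1 hu
    obtain ⟨q', -, rfl⟩ := mem_image.1 hu'
    rw [hi, hi] at e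
    rw [hi', hi'] at e'
    rw [Prod.ext e e']
  refine ⟨hN, fun u hu => ?_, card_image_le.trans ((card_le_card fun q hq => ?_).trans
    (hξ.list k k hk (Or.inl rfl) g hg)), one, fun i => ?_, fun i => ?_⟩
  · obtain ⟨q, hq, rfl⟩ := mem_image.1 hu
    exact ht q hq
  · obtain ⟨a, b, c⟩ := hQ q hq
    exact mem_filter.2 ⟨mem_product.2 ⟨mem_range.2 a, mem_range.2 b⟩, c⟩
  · by_cases h : i < mm k
    · refine (card_le_card_of_injOn Tup.i' (fun u hu => ?_) fun u hu u' hu' e => ?_).trans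
        (hξ.deg k k hk (Or.inl rfl) g hg _ (hb i h))
      · obtain ⟨hu, e⟩ := mem_filter.1 (mem_coe.1 hu)
        obtain ⟨q, hq, rfl⟩ := mem_image.1 hu
        obtain ⟨-, b, c⟩ := hQ q hq
        rw [hi] at e
        subst e
        exact mem_coe.2 (mem_filter.2 ⟨mem_range.2 (by rw [hi']; exact b), by rw [hi']; exact c⟩)
      · obtain ⟨h1, e1⟩ := mem_filter.1 (mem_coe.1 hu)
        obtain ⟨h2, e2⟩ := mem_filter.1 (mem_coe.1 hu')
        exact one u h1 u' h2 (e1.trans e2.symm) e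
    · rw [filter_eq_empty_iff.2, card_empty]
      · exact Nat.zero_le _
      · intro u hu e
        obtain ⟨q, hq, rfl⟩ := mem_image.1 hu
        rw [hi] at e
        exact h (e ▸ (hQ q hq).1)
  · by_cases h : i < mm k
    · refine (card_le_card_of_injOn Tup.i (fun u hu => ?_) fun u hu u' hu' e => ?_).trans
        (hξ.deg k k hk (Or.inl rfl) g hg _ (hb i h))
      · obtain ⟨hu, e⟩ := mem_filter.1 (mem_coe.1 hu)
        obtain ⟨q, hq, rfl⟩ := mem_image.1 hu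
        obtain ⟨a, -, c⟩ := hQ q hq
        rw [hi'] at e
        subst e
        exact mem_coe.2 (mem_filter.2 ⟨mem_range.2 (by rw [hi]; exact a),
          by rw [hi, ym_comm]; exact c⟩)
      · obtain ⟨h1, e1⟩ := mem_filter.1 (mem_coe.1 hu)
        obtain ⟨h2, e2⟩ := mem_filter.1 (mem_coe.1 hu')
        exact one u h1 u' h2 e (e1.trans e2.symm)
    · rw [filter_eq_empty_iff.2, card_empty]
      · exact Nat.zero_le _
      · intro u hu e
        obtain ⟨q, hq, rfl⟩ := mem_image.1 hu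
        rw [hi'] at e
        exact h (e ▸ (hQ q hq).2.1)

theorem cover (D : Data) {k n : ℕ} (hk : k0 ≤ k) (h1 : 5 * WW (2 * k + 1) ≤ n)
    (h2 : n < 5 * WW (2 * k + 3)) : ∃ a ∈ D.A k, ∃ b ∈ D.A k, a + b = n := by
  have hg := gd_mem k n
  have hb : ∀ i < mm k, ∀ s < 2 * k, D.ξ k i s < DD (s / 2) := fun i h =>
    (mem_Box.1 (D.types.box k hk i h)).1
  have hΓ : ∀ q ∈ range (mm k) ×ˢ range (mm k), ∀ i ≤ 2 * k,
      gam k (gd k n) (D.ξ k q.1) (D.ξ k q.2) i ≤ 2 := fun q hq i hi =>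
    gam_le k _ (hb _ (mem_range.1 (mem_product.1 hq).1)) (hb _ (mem_range.1 (mem_product.1 hq).2)) hi
  obtain ⟨γ, hγ, hw⟩ := T3Cover_third _
    (fun q : ℕ × ℕ => gam k (gd k n) (D.ξ k q.1) (D.ξ k q.2) (2 * k)) _
    (fun q hq => hΓ q hq _ le_rfl) (D.types.low k hk _ hg)
  choose d hd d' hd' hc using fun q : ℕ × ℕ =>
    D.fine.cover k (gam k (gd k n) (D.ξ k q.1) (D.ξ k q.2)) (dig n)
  obtain ⟨t, ht⟩ : ∃ t : ℕ × ℕ → Tup, ∀ q, t q = ⟨q.1, q.2,
      tr (2 * k) fun i => ym k (gd k n) (D.ξ k q.1) (D.ξ k q.2) i -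
        (d q i + d' q i + gam k (gd k n) (D.ξ k q.1) (D.ξ k q.2) i) / pp (i / 2),
      D.h k (tr (2 * k - 2) (d q)), D.h k (tr (2 * k - 2) (d' q)), 0, 0⟩ := ⟨_, fun _ => rfl⟩
  have hi : ∀ q, (t q).i = q.1 := fun q => by rw [ht]
  have hi' : ∀ q, (t q).i' = q.2 := fun q => by rw [ht]
  have hy : ∀ q, ∀ s < 2 * k, (t q).yb s = ym k (gd k n) (D.ξ k q.1) (D.ξ k q.2) s -
      (d q s + d' q s + gam k (gd k n) (D.ξ k q.1) (D.ξ k q.2) s) / pp (s / 2) := fun q s hs => by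
    rw [ht]
    exact if_pos hs
  have hB := BB_gt k
  have hB2 : 0 < 2 ^ sg k := Nat.two_pow_pos _
  have hlo : 5 * BB k ≤ n / WW (2 * k) := (Nat.le_div_iff_mul_le (WW_pos _)).2 (by
    rw [WW_odd] at h1
    calc 5 * BB k * WW (2 * k) = 5 * (WW (2 * k) * BB k) := by ring
      _ ≤ n := h1)
  have hhi : n / WW (2 * k) < ZZ k := (Nat.div_lt_iff_lt_mul (WW_pos _)).2 (by
    rw [WW_three] at h2
    calc n < 5 * (WW (2 * k) * (BB k ^ 2 * BB (k + 1))) := h2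
      _ = ZZ k * WW (2 * k) := by rw [ZZ]; ring)
  have htop := top_lt (j := k) (Or.inl rfl) (n := n) (by omega)
  obtain ⟨c, hcK, c', hcK', u, hu, ⟨f1, f2, f3, f4, f5, f6, f7⟩, hz, -⟩ :=
    D.good.kc k hk (n / WW (2 * k) - γ) _
      (T3Cover_frame D.types hk hg (lt_of_le_of_lt (Nat.sub_le _ _) htop)
        {q ∈ range (mm k) ×ˢ range (mm k) | gam k (gd k n) (D.ξ k q.1) (D.ξ k q.2) (2 * k) = γ ∧
          Gm k (ym k (gd k n) (D.ξ k q.1) (D.ξ k q.2)) ≠ 0}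
        (fun q hq => ⟨mem_range.1 (mem_product.1 (mem_filter.1 hq).1).1,
          mem_range.1 (mem_product.1 (mem_filter.1 hq).1).2,
          Gm_supp (ym_mem _ _ _ _) (mem_filter.1 hq).2.2⟩) t hi hi' fun q hq => by
        rw [ht]
        exact mem_tups.2 ⟨mem_range.1 (mem_product.1 (mem_filter.1 hq).1).1,
          mem_range.1 (mem_product.1 (mem_filter.1 hq).1).2,
          tr_mem_Box fun i hi => lt_of_le_of_lt (Nat.sub_le _ _)
            ((mem_Box.1 (ym_mem k _ _ _)).1 i hi),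
          D.hash.lt _ _, D.hash.lt _ _, DD_pos _, DD_pos _⟩)
      (by
        rw [sum_image fun q _ q' _ e => Prod.ext (by rw [← hi, e, hi]) (by rw [← hi', e, hi'])]
        refine hw.trans (sum_le_sum fun q hq => ?_)
        refine Gm_le_GG fun s hs => ?_
        have := carry_le ((mem_Box.1 (D.fine.box k (hd q))).1 s hs)
          ((mem_Box.1 (D.fine.box k (hd' q))).1 s hs) (hΓ q (mem_filter.1 hq).1 s hs.le)
        rw [hy q s hs]
        exact ⟨Nat.sub_le _ _, (Nat.sub_le_iff_le_add'.1 le_rfl).trans (by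
          rw [add_comm]
          exact Nat.add_le_add_left this _)⟩)
      (by omega) (by omega)
  obtain ⟨q, hq, rfl⟩ := mem_image.1 hu
  obtain ⟨hq, hqγ, hq0⟩ := mem_filter.1 hq
  refine ⟨_, ⟨d q, c, ⟨hd q, hcK, f1, by rw [f5, ht]⟩, rfl⟩, _,
    ⟨d' q, c', ⟨hd' q, hcK', f2, by rw [f6, ht]⟩, rfl⟩, ?_⟩
  have key := dec_bwd (j := k) (n := n) (top := c.z + c'.z) (d := d q) (d' := d' q)
    (ξ := D.ξ k q.1) (ξ' := D.ξ k q.2) (x := c.x) (x' := c'.x)
    (fun s hs => ⟨hb _ (mem_range.1 (mem_product.1 hq).1) s hs,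
      hb _ (mem_range.1 (mem_product.1 hq).2) s hs⟩)
    (fun s hs => ⟨hc q s hs, by
      rw [f7 s hs, hy q s hs]
      exact Nat.sub_add_cancel ((carry_le ((mem_Box.1 (D.fine.box k (hd q))).1 s hs)
        ((mem_Box.1 (D.fine.box k (hd' q))).1 s hs) (hΓ q hq s hs.le)).trans
        (Gm_two hq0 s hs))⟩) (by omega)
  rw [el, el, (mem_cells.1 f1).1, (mem_cells.1 f2).1, f3, f4, hi, hi', ← key]
  ring

end Pool.Agent.P.MP_d5a1e1_nt.T3
end

-- part Pool.Agent.P.MP_d5a1e1_nt.T3Near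
section

/-! Representations by equal or consecutive states. -/

namespace Pool.Agent.P.MP_d5a1e1_nt.T3

open Finset TB

/-- A pair of described elements. -/
abbrev Quad : Type := ((ℕ → ℕ) × Cell) × (ℕ → ℕ) × Cell

variable [Kap]

def Rep (D : Data) (j k n : ℕ) (q : Quad) : Prop :=
  D.Ok j q.1.1 q.1.2 ∧ D.Ok k q.2.1 q.2.2 ∧ el D.ξ q.1.1 q.1.2 + el D.ξ q.2.1 q.2.2 = n

/-- The carry out of the lower digits. -/
noncomputable def outc (D : Data) (j k n : ℕ) (q : Quad) : ℕ :=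
  gam j (gd j n) (D.ξ j q.1.2.i) (D.ξ k q.2.2.i) (2 * j)

/-- The part of the second element above the lower digits. -/
noncomputable def upper (D : Data) (j k : ℕ) (q : Quad) : ℕ :=
  if k = j then q.2.2.z else
    (q.2.1 (2 * j) + pp j * (D.ξ k q.2.2.i (2 * j) + q.2.2.x (2 * j))) +
      BB j * (q.2.1 (2 * j + 1) + pp j * (D.ξ k q.2.2.i (2 * j + 1) + q.2.2.x (2 * j + 1))) +
      BB j ^ 2 * q.2.2.z


theorem Rep.dec {D : Data} {j k n : ℕ} (hj : k0 ≤ j) (hk : k = j ∨ k = j + 1) {q : Quad}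
    (h : Rep D j k n q) :
    (∀ i < 2 * j, q.1.1 i + q.2.1 i + gam j (gd j n) (D.ξ j q.1.2.i) (D.ξ k q.2.2.i) i ≡
        dig n i [MOD pp (i / 2)] ∧
      q.1.2.x i + q.2.2.x i +
        (q.1.1 i + q.2.1 i + gam j (gd j n) (D.ξ j q.1.2.i) (D.ξ k q.2.2.i) i) / pp (i / 2) =
        ym j (gd j n) (D.ξ j q.1.2.i) (D.ξ k q.2.2.i) i) ∧
    q.1.2.z + upper D j k q + outc D j k n q = n / WW (2 * j) ∧ outc D j k n q ≤ 2 := by
  obtain ⟨⟨hd, -, hc, -⟩, ⟨hd', -, hc', -⟩, hn⟩ := h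
  have hjk : j ≤ k := by omega
  have m := mem_cells.1 hc
  have m' := mem_cells.1 hc'
  have b := mem_Box.1 (D.fine.box j hd)
  have b' := mem_Box.1 (D.fine.box k hd')
  have t := mem_Box.1 (D.types.box j hj _ m.2.1)
  have t' := mem_Box.1 (D.types.box k (hj.trans hjk) _ m'.2.1)
  have x := mem_XX.1 m.2.2.2.1
  have x' := mem_XX.1 m'.2.2.2.1
  have e : lo (2 * j) q.1.1 (D.ξ j q.1.2.i) q.1.2.x + lo (2 * j) q.2.1 (D.ξ k q.2.2.i) q.2.2.x +
      WW (2 * j) * (q.1.2.z + upper D j k q) = n := by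
    rw [← hn, el, el, m.1, m'.1, upper]
    rcases hk with rfl | rfl
    · rw [if_pos rfl]
      ring
    · rw [if_neg (by omega), lo_unit, show 2 * (j + 1) = 2 * j + 2 by ring, WW_even]
      ring
  have f := dec_fwd (fun i hi => ⟨b.1 i hi, b'.1 i (by omega)⟩)
    (fun i hi => ⟨t.1 i hi, t'.1 i (by omega)⟩) (fun i hi => ⟨x.1 i hi, x'.1 i (by omega)⟩) e
  exact ⟨f.1, f.2, gam_le j _ t.1 (fun i hi => t'.1 i (by omega)) le_rfl⟩

/-- The first fine point is determined by the types and the second fine point. -/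
theorem Rep.fst_eq {D : Data} {j k n : ℕ} (hj : k0 ≤ j) (hk : k = j ∨ k = j + 1) {q q' : Quad}
    (h : Rep D j k n q) (h' : Rep D j k n q') (h1 : q.1.2.i = q'.1.2.i) (h2 : q.2.2.i = q'.2.2.i)
    (h3 : tr (2 * j) q.2.1 = tr (2 * j) q'.2.1) : q.1.1 = q'.1.1 := by
  have b := D.fine.box j h.1.1
  have b' := D.fine.box j h'.1.1
  refine Box_ext b b' fun i hi => ?_
  have e := ((h.dec hj hk).1 i hi).1
  have e' := ((h'.dec hj hk).1 i hi).1
  have e3 := congrFun h3 i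
  rw [tr_lt hi, tr_lt hi] at e3
  rw [h1, h2, e3] at e
  have e4 := Nat.ModEq.add_right_cancel' _ (Nat.ModEq.add_right_cancel' _ (e.trans e'.symm))
  exact Nat.ModEq.eq_of_lt_of_lt e4 ((mem_Box.1 b).1 i hi) ((mem_Box.1 b').1 i hi)

/-- A large class with constant carry on which the fine points depend on the types only. -/
theorem exists_sub {D : Data} {j k n : ℕ} (hj : k0 ≤ j) (hk : k = j ∨ k = j + 1)
    (T : Finset Quad) (hT : ∀ q ∈ T, Rep D j k n q) :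
    ∃ T' ⊆ T, ∃ γ, T.card ≤ 3 * MM j * T'.card ∧ (∀ q ∈ T', outc D j k n q = γ) ∧
      ∀ q ∈ T', ∀ q' ∈ T', q.1.2.i = q'.1.2.i → q.2.2.i = q'.2.2.i →
        tr (2 * j) q.2.1 = tr (2 * j) q'.2.1 := by
  obtain ⟨T₁, s₁, c₁, v₁⟩ := exists_class T (fun _ => ()) (outc D j k n) 3 fun _ Z hZ => by
    have : Z ⊆ range 3 := fun b hb => by
      obtain ⟨t, ht, -, rfl⟩ := hZ b hb
      exact mem_range.2 (Nat.lt_succ_of_le ((hT t ht).dec hj hk).2.2)
    simpa using card_le_card this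
  obtain ⟨T₂, s₂, c₂, v₂⟩ := exists_class T₁ (fun q => (q.1.2.i, q.2.2.i))
    (fun q => tr (2 * j) q.2.1) (MM j) fun a Z hZ =>
      D.fine.near j k hk (gam j (gd j n) (D.ξ j a.1) (D.ξ k a.2)) (dig n) Z fun e he => by
        obtain ⟨t, ht, rfl, rfl⟩ := hZ e he
        have r := hT t (s₁ ht)
        exact ⟨_, r.1.1, _, r.2.1.1, rfl, fun i hi => ((r.dec hj hk).1 i hi).1⟩
  have hγ : ∃ γ, ∀ q ∈ T₂, outc D j k n q = γ := by
    rcases T₂.eq_empty_or_nonempty with h0 | ⟨q₀, h0⟩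
    · exact ⟨0, fun q hq => absurd (h0 ▸ hq) (notMem_empty q)⟩
    · exact ⟨_, fun q hq => v₁ q (s₂ hq) q₀ (s₂ h0) rfl⟩
  obtain ⟨γ, hγ⟩ := hγ
  refine ⟨T₂, s₂.trans s₁, γ, ?_, hγ, fun q hq q' hq' h1 h2 => v₂ q hq q' hq' (Prod.ext h1 h2)⟩
  rw [mul_assoc]
  exact c₁.trans (Nat.mul_le_mul_left 3 c₂)

/-- The tuple of a pair of described elements. -/
def T3Near_tp (D : Data) (j k : ℕ) (q : Quad) : Tup :=
  ⟨q.1.2.i, q.2.2.i, tr (2 * j) fun s => q.1.2.x s + q.2.2.x s, q.1.2.η, q.2.2.η,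
    D.ξ k q.2.2.i (2 * j), D.ξ k q.2.2.i (2 * j + 1)⟩

theorem T3Near_xi (D : Data) {j k i : ℕ} (hjk : j ≤ k) (hk : k0 ≤ k) (hi : i < mm k) :
    ∀ s < 2 * j, D.ξ k i s < DD (s / 2) := fun s hs =>
  (mem_Box.1 (D.types.box k hk i hi)).1 s (by omega)

theorem T3Near_top {D : Data} {j k i s : ℕ} (hj : k0 ≤ j) (hk : k = j ∨ k = j + 1)
    (hi : i < mm k) (hs : s / 2 = j) : D.ξ k i s < DD j := by
  have h := mem_Box.1 (D.types.box k (by omega) i hi)
  rcases hk with rfl | rfl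
  · rw [h.2 s (by omega)]
    exact DD_pos _
  · exact hs ▸ h.1 s (by omega)

theorem T3Near_ym {D : Data} {j k n : ℕ} (hj : k0 ≤ j) (hk : k = j ∨ k = j + 1) {q : Quad}
    (h : Rep D j k n q) {s : ℕ} (hs : s < 2 * j) :
    q.1.2.x s + q.2.2.x s ≤ ym j (gd j n) (D.ξ j q.1.2.i) (D.ξ k q.2.2.i) s ∧
      ym j (gd j n) (D.ξ j q.1.2.i) (D.ξ k q.2.2.i) s ≤ q.1.2.x s + q.2.2.x s + 2 := by
  have h1 := ((h.dec hj hk).1 s hs).2
  have h2 := carry_le ((mem_Box.1 (D.fine.box j h.1.1)).1 s hs)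
    ((mem_Box.1 (D.fine.box k h.2.1.1)).1 s (by omega))
    (gam_le j (gd j n) (T3Near_xi D le_rfl hj (mem_cells.1 h.1.2.2.1).2.1)
      (T3Near_xi D (j := j) (by omega) (by omega) (mem_cells.1 h.2.1.2.2.1).2.1) hs.le)
  exact ⟨h1 ▸ Nat.le_add_right _ _, h1 ▸ Nat.add_le_add_left h2 _⟩

theorem T3Near_SS {D : Data} {j k n : ℕ} (hj : k0 ≤ j) (hk : k = j ∨ k = j + 1) {q : Quad}
    (h : Rep D j k n q) : ym j (gd j n) (D.ξ j q.1.2.i) (D.ξ k q.2.2.i) ∈ SS j :=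
  mem_SS_of_sum hk (mem_cells.1 h.1.2.2.1).2.2.2.1
    (mem_cells.1 h.2.1.2.2.1).2.2.2.1 (ym_mem _ _ _ _) fun _ hs => (T3Near_ym hj hk h hs).2

theorem T3Near_one {D : Data} {j k n : ℕ} (hj : k0 ≤ j) (hk : k = j ∨ k = j + 1) {q q' : Quad}
    (h : Rep D j k n q) (h' : Rep D j k n q') (h1 : q.1.2.i = q'.1.2.i) (h2 : q.2.2.i = q'.2.2.i)
    (h3 : tr (2 * j) q.2.1 = tr (2 * j) q'.2.1) : T3Near_tp D j k q = T3Near_tp D j k q' := by
  have h4 := h.fst_eq hj hk h' h1 h2 h3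
  refine Tup.ext h1 h2 ?_ ?_ ?_ (congrArg (D.ξ k · (2 * j)) h2) (congrArg (D.ξ k · (2 * j + 1)) h2)
  · funext s
    change tr (2 * j) (fun s => q.1.2.x s + q.2.2.x s) s = tr (2 * j) (fun s => q'.1.2.x s + q'.2.2.x s) s
    by_cases hs : s < 2 * j
    · have a := ((h.dec hj hk).1 s hs).2
      have b := ((h'.dec hj hk).1 s hs).2
      have c := congrFun h3 s
      rw [tr_lt hs, tr_lt hs] at c ⊢
      rw [h1, h2, h4, c, ← b] at a
      exact Nat.add_right_cancel a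
    · rw [tr_ge (by omega), tr_ge (by omega)]
  · change q.1.2.η = q'.1.2.η
    rw [h.1.2.2.2, h'.1.2.2.2, h4]
  · change q.2.2.η = q'.2.2.η
    rw [h.2.1.2.2.2, h'.2.1.2.2.2, ← tr_tr (show 2 * k - 2 ≤ 2 * j by omega), h3,
      tr_tr (by omega)]

/-- The frame of a class. -/
theorem exists_frame {D : Data} {j k n : ℕ} (hj : k0 ≤ j) (hk : k = j ∨ k = j + 1)
    (T : Finset Quad) (hT : ∀ q ∈ T, Rep D j k n q)
    (hf : ∀ q ∈ T, ∀ q' ∈ T, q.1.2.i = q'.1.2.i → q.2.2.i = q'.2.2.i →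
      tr (2 * j) q.2.1 = tr (2 * j) q'.2.1) {N : ℕ} (hN : N < 2 ^ (11 * sg (j + 2))) :
    ∃ P, Fr j k N P ∧
      ∀ q ∈ T, ∃ t ∈ P, Fit j k t q.1.2 q.2.2 ∧ t.o₀ = D.ξ k q.2.2.i (2 * j) ∧
        t.o₁ = D.ξ k q.2.2.i (2 * j + 1) := by
  have hjk : j ≤ k := by omega
  obtain ⟨P, hP⟩ : ∃ P : Finset Tup, ∀ t, t ∈ P ↔ ∃ q ∈ T, T3Near_tp D j k q = t :=
    ⟨T.image (T3Near_tp D j k), fun _ => mem_image⟩
  have one : ∀ t ∈ P, ∀ t' ∈ P, t.i = t'.i → t.i' = t'.i' → t = t' := fun t ht t' ht' h1 h2 => by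
    obtain ⟨q, hq, rfl⟩ := (hP t).1 ht
    obtain ⟨q', hq', rfl⟩ := (hP t').1 ht'
    exact T3Near_one hj hk (hT q hq) (hT q' hq') h1 h2 (hf q hq q' hq' h1 h2)
  have inj : Set.InjOn (fun t : Tup => (t.i, t.i')) P := fun t ht t' ht' h =>
    one t ht t' ht' (congrArg Prod.fst h) (congrArg Prod.snd h)
  have key : ∀ t ∈ P, t.i < mm j ∧ t.i' < mm k ∧
      ym j (gd j n) (D.ξ j t.i) (D.ξ k t.i') ∈ SS j := fun t ht => by
    obtain ⟨q, hq, rfl⟩ := (hP t).1 ht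
    exact ⟨(mem_cells.1 (hT q hq).1.2.2.1).2.1, (mem_cells.1 (hT q hq).2.1.2.2.1).2.1,
      T3Near_SS hj hk (hT q hq)⟩
  refine ⟨P, ⟨hN, fun t ht => ?_, ?_, one, fun i => ?_, fun i' => ?_⟩, fun q hq => ?_⟩
  · obtain ⟨q, hq, rfl⟩ := (hP t).1 ht
    have a := mem_cells.1 (hT q hq).1.2.2.1
    have b := mem_cells.1 (hT q hq).2.1.2.2.1
    exact mem_tups.2 ⟨a.2.1, b.2.1, tr_mem_Box fun s hs => (T3Near_ym hj hk (hT q hq) hs).1.trans_lt
      ((mem_Box.1 (ym_mem _ _ _ _)).1 s hs), a.2.2.1, b.2.2.1, T3Near_top hj hk b.2.1 (by omega),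
      T3Near_top hj hk b.2.1 (by omega)⟩
  · refine le_trans (card_le_card_of_injOn _ (fun t ht => ?_) inj)
      (D.types.list j k hj hk _ (gd_mem j n))
    obtain ⟨a, b, c⟩ := key t ht
    exact mem_coe.2 (mem_filter.2 ⟨mem_product.2 ⟨mem_range.2 a, mem_range.2 b⟩, c⟩)
  · rcases (P.filter fun t => t.i = i).eq_empty_or_nonempty with h | ⟨t₀, h⟩
    · rw [h]
      exact Nat.zero_le _
    obtain ⟨h0, rfl⟩ := mem_filter.1 h
    refine le_trans (card_le_card_of_injOn Tup.i' (fun t ht => ?_) fun t ht t' ht' e => ?_)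
      (D.types.deg j k (by omega) hk _ (gd_mem j n) _ (T3Near_xi D le_rfl hj (key t₀ h0).1))
    · obtain ⟨a, b⟩ := mem_filter.1 (mem_coe.1 ht)
      exact mem_coe.2 (mem_filter.2 ⟨mem_range.2 (key t a).2.1, b ▸ (key t a).2.2⟩)
    · obtain ⟨a, b⟩ := mem_filter.1 (mem_coe.1 ht)
      obtain ⟨a', b'⟩ := mem_filter.1 (mem_coe.1 ht')
      exact one t a t' a' (b.trans b'.symm) e
  · rcases (P.filter fun t => t.i' = i').eq_empty_or_nonempty with h | ⟨t₀, h⟩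
    · rw [h]
      exact Nat.zero_le _
    obtain ⟨h0, rfl⟩ := mem_filter.1 h
    refine le_trans (card_le_card_of_injOn Tup.i (fun t ht => ?_) fun t ht t' ht' e => ?_)
      ((D.types.deg j j hj (Or.inl rfl) _ (gd_mem j n) _
        (T3Near_xi D hjk (by omega) (key t₀ h0).2.1)).trans (yy_mono hjk))
    · obtain ⟨a, b⟩ := mem_filter.1 (mem_coe.1 ht)
      exact mem_coe.2 (mem_filter.2 ⟨mem_range.2 (key t a).1, by
        rw [ym_comm, ← b]
        exact (key t a).2.2⟩)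
    · obtain ⟨a, b⟩ := mem_filter.1 (mem_coe.1 ht)
      obtain ⟨a', b'⟩ := mem_filter.1 (mem_coe.1 ht')
      exact one t a t' a' e (b.trans b'.symm)
  · exact ⟨_, (hP _).2 ⟨q, hq, rfl⟩, ⟨(hT q hq).1.2.2.1, (hT q hq).2.1.2.2.1, rfl, rfl, rfl, rfl,
      fun s hs => (tr_lt hs fun s => q.1.2.x s + q.2.2.x s).symm⟩, rfl, rfl⟩

/-- On a class the two cells determine the pair. -/
theorem T3Nearc_inj {D : Data} {k n : ℕ} (hk : k0 ≤ k) {T : Finset Quad}
    (hT : ∀ q ∈ T, Rep D k k n q)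
    (hf : ∀ q ∈ T, ∀ q' ∈ T, q.1.2.i = q'.1.2.i → q.2.2.i = q'.2.2.i →
      tr (2 * k) q.2.1 = tr (2 * k) q'.2.1) :
    Set.InjOn (fun q : Quad => (q.1.2, q.2.2)) (T : Set Quad) := by
  intro q hq q' hq' e
  have e1 : q.1.2 = q'.1.2 := (Prod.ext_iff.1 e).1
  have e2 : q.2.2 = q'.2.2 := (Prod.ext_iff.1 e).2
  have h3 := hf q hq q' hq' (by rw [e1]) (by rw [e2])
  have h4 := Rep.fst_eq hk (Or.inl rfl) (hT q hq) (hT q' hq') (by rw [e1]) (by rw [e2]) h3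
  rw [tr_eq_self (D.fine.box k (hT q hq).2.1.1),
    tr_eq_self (D.fine.box k (hT q' hq').2.1.1)] at h3
  exact Prod.ext (Prod.ext h4 e1) (Prod.ext h3 e2)

theorem T3Nearc_top {D : Data} {k n : ℕ} (hk : k0 ≤ k) {q : Quad} (h : Rep D k k n q) :
    q.1.2.z + q.2.2.z + outc D k k n q = n / WW (2 * k) := by
  have h1 := (Rep.dec hk (Or.inl rfl) h).2.1
  rwa [upper, if_pos rfl] at h1

theorem T3Nearc_lt {D : Data} {k n : ℕ} (hk : k0 ≤ k) (T : Finset Quad)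
    (hT : ∀ q ∈ T, Rep D k k n q) (hz : ∀ q ∈ T, q.1.2.z < q.2.2.z) :
    T.card ≤ 3 * MM k * gg k := by
  classical
  obtain ⟨T', hs, γ, hc, hγ, hf⟩ := exists_sub hk (Or.inl rfl) T hT
  refine hc.trans (Nat.mul_le_mul_left _ ?_)
  rcases T'.eq_empty_or_nonempty with rfl | ⟨q0, hq0⟩
  · simp
  have hT' : ∀ q ∈ T', Rep D k k n q := fun q hq => hT q (hs hq)
  have hn : n < 12 * WW (2 * k + 3) := by
    obtain ⟨h1, h2, h3⟩ := hT' q0 hq0
    have a1 := el_lt D.types hk (D.fine.box k h1.1) h1.2.2.1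
    have a2 := el_lt D.types hk (D.fine.box k h2.1) h2.2.2.1
    omega
  have hN : n / WW (2 * k) - γ < 2 ^ (11 * sg (k + 2)) :=
    lt_of_le_of_lt (Nat.sub_le _ _) (top_lt (Or.inl rfl) hn)
  obtain ⟨P, hP, hfit⟩ := exists_frame hk (Or.inl rfl) T' hT' hf hN
  rw [← card_image_of_injOn (T3Nearc_inj hk hT' hf)]
  refine (D.good.k0' k hk _ P hP _
    fun e he => ?_).le
  obtain ⟨q, hq, rfl⟩ := mem_image.1 he
  obtain ⟨t, ht, h1, -⟩ := hfit q hq
  refine ⟨(hT' q hq).1.2.1, (hT' q hq).2.1.2.1, t, ht, h1, ?_, hz q (hs hq)⟩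
  have h2 := T3Nearc_top hk (hT' q hq)
  rw [hγ q hq] at h2
  exact Nat.eq_sub_of_add_eq h2

theorem T3Nearc_gt {D : Data} {k n : ℕ} (hk : k0 ≤ k) (T : Finset Quad)
    (hT : ∀ q ∈ T, Rep D k k n q) (hz : ∀ q ∈ T, q.2.2.z < q.1.2.z) :
    T.card ≤ 3 * MM k * gg k := by
  classical
  rw [← card_image_of_injective T Prod.swap_injective]
  refine T3Nearc_lt (D := D) (n := n) hk _ (fun q hq => ?_) fun q hq => ?_
  · obtain ⟨q', hq', rfl⟩ := mem_image.1 hq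
    obtain ⟨h1, h2, h3⟩ := hT q' hq'
    exact ⟨h2, h1, (add_comm _ _).trans h3⟩
  · obtain ⟨q', hq', rfl⟩ := mem_image.1 hq
    exact hz q' hq'

theorem T3Nearc_eq {D : Data} {k n : ℕ} (hk : k0 ≤ k) (T : Finset Quad)
    (hT : ∀ q ∈ T, Rep D k k n q) (hz : ∀ q ∈ T, q.1.2.z = q.2.2.z) :
    T.card ≤ 3 * MM k * d0 ^ 2 := by
  classical
  obtain ⟨T', hs, γ, hc, hγ, hf⟩ := exists_sub hk (Or.inl rfl) T hT
  refine hc.trans (Nat.mul_le_mul_left _ ?_)
  have hT' : ∀ q ∈ T', Rep D k k n q := fun q hq => hT q (hs hq)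
  have h0 : ∀ q ∈ T', q.2.2.z = (n / WW (2 * k) - γ) / 2 := fun q hq => by
    have h2 := T3Nearc_top hk (hT' q hq)
    rw [hγ q hq, hz q (hs hq)] at h2
    rw [← h2, Nat.add_sub_cancel]
    omega
  have h1 : (T'.image fun q : Quad => q.1.2).card < d0 := by
    refine D.good.ka k hk ((n / WW (2 * k) - γ) / 2) _ fun c hc => ?_
    obtain ⟨q, hq, rfl⟩ := mem_image.1 hc
    exact ⟨(hT' q hq).1.2.1, (hT' q hq).1.2.2.1, (hz q (hs hq)).trans (h0 q hq)⟩
  have h2 : (T'.image fun q : Quad => q.2.2).card < d0 := by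
    refine D.good.ka k hk ((n / WW (2 * k) - γ) / 2) _ fun c hc => ?_
    obtain ⟨q, hq, rfl⟩ := mem_image.1 hc
    exact ⟨(hT' q hq).2.1.2.1, (hT' q hq).2.1.2.2.1, h0 q hq⟩
  have h3 : T'.card ≤ ((T'.image fun q : Quad => q.1.2) ×ˢ T'.image fun q : Quad => q.2.2).card :=
    card_le_card_of_injOn _ (fun q hq => mem_coe.2 (mem_product.2
      ⟨mem_image_of_mem _ hq, mem_image_of_mem _ hq⟩)) (T3Nearc_inj hk hT' hf)
  rw [card_product] at h3
  rw [sq]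
  exact h3.trans (Nat.mul_le_mul h1.le h2.le)

theorem near0 (D : Data) {k n : ℕ} (hk : k0 ≤ k) (Z : Finset (ℕ × ℕ))
    (hZ : ∀ y ∈ Z, y.1 ∈ D.A k ∧ y.2 ∈ D.A k ∧ y.1 + y.2 = n) :
    Z.card ≤ 6 * MM k * gg k + 9 * MM k * d0 ^ 2 := by
  classical
  have hq : ∀ y : ℕ × ℕ, ∃ q : Quad, y ∈ Z → Rep D k k n q ∧
      y = (el D.ξ q.1.1 q.1.2, el D.ξ q.2.1 q.2.2) := fun y => by
    by_cases hy : y ∈ Z
    · obtain ⟨⟨d, c, h1, h2⟩, ⟨d', c', h3, h4⟩, h5⟩ := hZ y hy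
      exact ⟨((d, c), d', c'), fun _ => ⟨⟨h1, h3, by rw [← h5, h2, h4]⟩, Prod.ext h2 h4⟩⟩
    · exact ⟨((0, ⟨0, 0, 0, 0, 0⟩), 0, ⟨0, 0, 0, 0, 0⟩), fun h => absurd h hy⟩
  choose F hF using hq
  have hT : ∀ q ∈ Z.image F, Rep D k k n q := fun q hq => by
    obtain ⟨y, hy, rfl⟩ := mem_image.1 hq
    exact (hF y hy).1
  have e : (Z.image F).card = Z.card := card_image_of_injOn fun y hy y' hy' h => by
    rw [(hF y hy).2, (hF y' hy').2, h]
  rw [← e]
  generalize Z.image F = T at hT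
  have h1 := T3Nearc_lt hk (T.filter fun q => q.1.2.z < q.2.2.z)
    (fun q hq => hT q (mem_filter.1 hq).1) fun q hq => (mem_filter.1 hq).2
  have h2 := T3Nearc_gt hk (T.filter fun q => q.2.2.z < q.1.2.z)
    (fun q hq => hT q (mem_filter.1 hq).1) fun q hq => (mem_filter.1 hq).2
  have h3 := T3Nearc_eq hk (T.filter fun q => q.1.2.z = q.2.2.z)
    (fun q hq => hT q (mem_filter.1 hq).1) fun q hq => (mem_filter.1 hq).2
  have h4 : T ⊆ (T.filter fun q => q.1.2.z < q.2.2.z) ∪ (T.filter fun q => q.2.2.z < q.1.2.z) ∪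
      T.filter fun q => q.1.2.z = q.2.2.z := fun q hq => by
    simp only [mem_union, mem_filter, hq, true_and]
    omega
  have h5 := (card_le_card h4).trans ((card_union_le _ _).trans
    (Nat.add_le_add_right (card_union_le _ _) _))
  have h6 : 6 * MM k * gg k = 3 * MM k * gg k + 3 * MM k * gg k := by ring
  have h7 : 3 * MM k * d0 ^ 2 ≤ 9 * MM k * d0 ^ 2 :=
    Nat.mul_le_mul_right _ (Nat.mul_le_mul_right _ (by norm_num))
  rw [h6]
  exact h5.trans (Nat.add_le_add (Nat.add_le_add h1 h2) (h3.trans h7))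

theorem near1 (D : Data) {j n : ℕ} (hj : k0 ≤ j) (Z : Finset (ℕ × ℕ))
    (hZ : ∀ y ∈ Z, y.1 ∈ D.A j ∧ y.2 ∈ D.A (j + 1) ∧ y.1 + y.2 = n) :
    Z.card ≤ 3 * MM j * gg (j + 1) := by
  classical
  rcases Z.eq_empty_or_nonempty with rfl | ⟨y₀, hy₀⟩
  · simp
  have hj' : k0 ≤ j + 1 := by omega
  have hex : ∀ y ∈ Z, ∃ q : Quad, Rep D j (j + 1) n q ∧
      y = (el D.ξ q.1.1 q.1.2, el D.ξ q.2.1 q.2.2) := by
    intro y hy
    obtain ⟨⟨d, c, h1, e1⟩, ⟨d', c', h2, e2⟩, h3⟩ := hZ y hy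
    exact ⟨((d, c), d', c'), ⟨h1, h2, by rw [← h3, e1, e2]⟩, Prod.ext e1 e2⟩
  have hn : n < 12 * WW (2 * (j + 1) + 3) := by
    obtain ⟨q, ⟨h1, h2, h3⟩, -⟩ := hex y₀ hy₀
    have a1 := el_lt D.types hj (D.fine.box _ h1.1) h1.2.2.1
    have a2 := el_lt D.types hj' (D.fine.box _ h2.1) h2.2.2.1
    have a3 : WW (2 * j + 3) ≤ WW (2 * (j + 1) + 3) := WW_mono (by omega)
    omega
  have : Nonempty Quad := ⟨(hex y₀ hy₀).choose⟩
  choose! f hf hf' using hex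
  have hinj : Set.InjOn f Z := fun a ha b hb h => by rw [hf' a ha, hf' b hb, h]
  have hT : ∀ q ∈ Z.image f, Rep D j (j + 1) n q := by
    intro q hq
    obtain ⟨y, hy, rfl⟩ := mem_image.1 hq
    exact hf y hy
  obtain ⟨T', hsub, γ, hc, hγ, hcl⟩ := exists_sub hj (Or.inr rfl) (Z.image f) hT
  have hT' : ∀ q ∈ T', Rep D j (j + 1) n q := fun q hq => hT q (hsub hq)
  have hN : n / WW (2 * j) - γ < 2 ^ (11 * sg (j + 2)) :=
    lt_of_le_of_lt (Nat.sub_le _ _) (top_lt (Or.inr rfl) hn)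
  obtain ⟨P, hP, hfit⟩ := exists_frame hj (Or.inr rfl) T' hT' hcl hN
  have hup : ∀ q ∈ T', q.1.2.z +
      ((q.2.1 (2 * j) + pp j * (D.ξ (j + 1) q.2.2.i (2 * j) + q.2.2.x (2 * j))) +
        BB j * (q.2.1 (2 * j + 1) +
          pp j * (D.ξ (j + 1) q.2.2.i (2 * j + 1) + q.2.2.x (2 * j + 1))) +
        BB j ^ 2 * q.2.2.z) = n / WW (2 * j) - γ := by
    intro q hq
    have h1 := (Rep.dec hj (Or.inr rfl) (hT' q hq)).2.1
    rw [hγ q hq, upper, if_neg (by omega)] at h1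
    omega
  have hlt : (T'.image fun q => (q.1.2, q.2.2)).card < gg (j + 1) := by
    refine D.good.k1 j hj _ P hP _ fun e he => ?_
    obtain ⟨q, hq, rfl⟩ := mem_image.1 he
    obtain ⟨t, ht, h1, h2, h3⟩ := hfit q hq
    refine ⟨(hT' q hq).1.2.1, (hT' q hq).2.1.2.1, t, ht, h1, q.2.1, (hT' q hq).2.1.1, ?_⟩
    have := hup q hq
    rw [h2, h3]
    dsimp only
    omega
  have hinj' : Set.InjOn (fun q : Quad => (q.1.2, q.2.2)) T' := by
    intro q hq q' hq' h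
    have hq : q ∈ T' := hq
    have hq' : q' ∈ T' := hq'
    have e1 : q.1.2 = q'.1.2 := (Prod.ext_iff.1 h).1
    have e2 : q.2.2 = q'.2.2 := (Prod.ext_iff.1 h).2
    have e3 := hcl q hq q' hq' (by rw [e1]) (by rw [e2])
    have e4 := Rep.fst_eq hj (Or.inr rfl) (hT' q hq) (hT' q' hq') (by rw [e1]) (by rw [e2]) e3
    have b1 := D.fine.box _ (hT' q hq).2.1.1
    have b2 := D.fine.box _ (hT' q' hq').2.1.1
    have hx := (mem_XX.1 (mem_cells.1 (hT' q' hq').2.1.2.2.1).2.2.2.1).1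
    have d0' : 2 * j / 2 = j := by omega
    have d1' : (2 * j + 1) / 2 = j := by omega
    have u1 := (mem_Box.1 b1).1 (2 * j) (by omega)
    have u2 := (mem_Box.1 b1).1 (2 * j + 1) (by omega)
    have u3 := (mem_Box.1 b2).1 (2 * j) (by omega)
    have u4 := (mem_Box.1 b2).1 (2 * j + 1) (by omega)
    have x1 := hx (2 * j) (by omega)
    have x2 := hx (2 * j + 1) (by omega)
    rw [d0'] at u1 u3 x1
    rw [d1'] at u2 u4 x2
    have k1 := hup q hq
    have k2 := hup q' hq'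
    rw [e1, e2] at k1
    have k3 := top_unique u1 u2 u3 u4 x1 x2 x1 x2 (Nat.add_left_cancel (k1.trans k2.symm))
    have e5 : q.2.1 = q'.2.1 := by
      refine Box_ext b1 b2 fun i hi => ?_
      by_cases h1 : i < 2 * j
      · have := congrFun e3 i
        rwa [tr_lt h1, tr_lt h1] at this
      · rcases (by omega : i = 2 * j ∨ i = 2 * j + 1) with rfl | rfl
        · exact k3.1
        · exact k3.2.1
    exact Prod.ext (Prod.ext e4 e1) (Prod.ext e5 e2)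
  rw [card_image_of_injOn hinj'] at hlt
  rw [card_image_of_injOn hinj] at hc
  exact hc.trans (Nat.mul_le_mul_left _ hlt.le)

end Pool.Agent.P.MP_d5a1e1_nt.T3
end

-- part Pool.Agent.P.MP_d5a1e1_nt.T3Far
section

/-! Representations by distant states. -/

namespace Pool.Agent.P.MP_d5a1e1_nt.T3

open Finset TB

variable [Kap]

/-- `(d', c')` describes the larger element of a distant representation of `n`. -/
def T3Far_Q (D : Data) (k n : ℕ) (d' : ℕ → ℕ) (c' : Cell) : Prop :=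
  D.Ok k d' c' ∧ ∃ j d c, k0 ≤ j ∧ j + 2 ≤ k ∧ D.Ok j d c ∧ el D.ξ d c + el D.ξ d' c' = n

theorem T3Far_fib {α β : Type*} [DecidableEq β] (Z : Finset α) (f : α → β) {a b : ℕ}
    (h1 : (Z.image f).card ≤ a) (h2 : ∀ t, #{x ∈ Z | f x = t} ≤ b) : Z.card ≤ b * a :=
  (card_le_mul_card_image Z b fun t _ => h2 t).trans (Nat.mul_le_mul_left _ h1)

theorem T3Far_small (D : Data) {j m : ℕ} (hj : k0 ≤ j) (hm : j + 2 ≤ m + 1) {d : ℕ → ℕ} {c : Cell}
    (h : D.Ok j d c) : el D.ξ d c < 6 * WW (2 * m + 1) :=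
  (el_lt D.types hj (D.fine.box j h.1) h.2.2.1).trans_le
    (Nat.mul_le_mul_left _ (WW_mono (by omega)))

theorem T3Far_dig {k : ℕ} {d : ℕ → ℕ} (hd : d ∈ Box (2 * k) pp) {n : ℕ} (hn : n ≤ 2 * k) :
    vl n d < WW n :=
  vl_lt fun i hi => ((mem_Box.1 hd).1 i (by omega)).trans_le
    (Nat.le_mul_of_pos_left _ (DD_pos _))

theorem T3Far_cell (D : Data) {m n : ℕ} (hk : k0 ≤ m + 1) (c' : Cell) (T : Finset (ℕ → ℕ))
    (hT : ∀ d' ∈ T, T3Far_Q D (m + 1) n d' c') : T.card ≤ 6 * 7 * sg (m + 1) := by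
  obtain ⟨n', hn'⟩ : ∃ n', ∀ d' ∈ T, ∀ a, a + el D.ξ d' c' = n → a + vl (2 * (m + 1)) d' = n' := by
    refine ⟨n - ((vl (2 * (m + 1)) fun s => pp (s / 2) * (D.ξ (m + 1) c'.i s + c'.x s)) +
      WW (2 * (m + 1)) * c'.z), fun d' hd a ha => ?_⟩
    have hc : c'.k = m + 1 := (mem_cells.1 (hT d' hd).1.2.2.1).1
    rw [el, hc, lo_eq] at ha
    omega
  have hW : 16 * WW (2 * m + 1) ≤ WW (2 * (m + 1)) := WW_step (2 * m + 1)
  rcases T.eq_empty_or_nonempty with rfl | ⟨d₀, hd₀⟩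
  · simp
  have hlt : n' < 2 * WW (2 * (m + 1)) := by
    obtain ⟨h1, j, d, c, hj, hjk, h2, h3⟩ := hT d₀ hd₀
    have a1 := T3Far_small D hj hjk h2
    have a2 := T3Far_dig (D.fine.box _ h1.1) le_rfl
    have a3 := hn' d₀ hd₀ _ h3
    omega
  refine T3Far_fib T (tr (2 * (m + 1) - 2)) (le_of_lt ?_) fun e => ?_
  · refine D.hash.few _ hk n' hlt c'.η _ fun e he => ?_
    obtain ⟨d', hd, rfl⟩ := mem_image.1 he
    obtain ⟨h1, j, d, c, hj, hjk, h2, h3⟩ := hT d' hd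
    exact ⟨h1.2.2.2.symm, d', rfl, j, hj, hjk, h1.1, d, h2.1, c, h2.2.1, h2.2.2.1,
      h2.2.2.2, hn' d' hd _ h3⟩
  · refine T3Far_fib _ (fun d' => d' (2 * m + 1)) ?_ fun v => ?_
    · refine (card_le_card (t := Icc (n' / WW (2 * m + 1) - 6) (n' / WW (2 * m + 1)))
        fun v hv => ?_).trans (by rw [Nat.card_Icc]; omega)
      obtain ⟨d', hd, rfl⟩ := mem_image.1 hv
      have hd := (mem_filter.1 hd).1
      obtain ⟨h1, j, d, c, hj, hjk, h2, h3⟩ := hT d' hd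
      have a1 := T3Far_small D hj hjk h2
      have a2 := T3Far_dig (D.fine.box _ h1.1) (show 2 * m + 1 ≤ 2 * (m + 1) by omega)
      have a3 := hn' d' hd _ h3
      rw [show 2 * (m + 1) = 2 * m + 1 + 1 by ring, vl_succ, ← add_assoc] at a3
      have a4 : (el D.ξ d c + vl (2 * m + 1) d') / WW (2 * m + 1) < 7 :=
        (Nat.div_lt_iff_lt_mul (WW_pos _)).2 (by omega)
      rw [← a3, Nat.add_mul_div_left _ _ (WW_pos _), mem_Icc]
      generalize (el D.ξ d c + vl (2 * m + 1) d') / WW (2 * m + 1) = w at a4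
      omega
    · rw [← card_image_of_injOn (f := fun d' : ℕ → ℕ => d' (2 * m))]
      · refine D.fine.top m v _ fun u hu => ?_
        obtain ⟨d', hd, rfl⟩ := mem_image.1 hu
        exact ⟨d', (hT d' (mem_filter.1 (mem_filter.1 hd).1).1).1.1, rfl, (mem_filter.1 hd).2⟩
      · intro d₁ h₁ d₂ h₂ e0
        obtain ⟨b1, b2⟩ := mem_filter.1 (mem_coe.1 h₁)
        obtain ⟨b3, b4⟩ := mem_filter.1 (mem_coe.1 h₂)
        obtain ⟨b5, b6⟩ := mem_filter.1 b1
        obtain ⟨b7, b8⟩ := mem_filter.1 b3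
        refine Box_ext (D.fine.box _ (hT _ b5).1.1) (D.fine.box _ (hT _ b7).1.1) fun i hi => ?_
        rcases (by omega : i < 2 * (m + 1) - 2 ∨ i = 2 * m ∨ i = 2 * m + 1) with h | rfl | rfl
        · rw [← tr_lt h d₁, ← tr_lt h d₂, b6, b8]
        · exact e0
        · exact b2.trans b4.symm

theorem T3Far_cells (D : Data) {m n : ℕ} (hk : k0 ≤ m + 1) (C : Finset Cell)
    (hC : ∀ c' ∈ C, ∃ d', T3Far_Q D (m + 1) n d' c') : C.card ≤ d0 * 3 := by
  refine T3Far_fib C Cell.z ?_ fun z => le_of_lt ?_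
  · refine (card_le_card (t := Icc (n / WW (2 * (m + 1)) - 2) (n / WW (2 * (m + 1))))
      fun z hz => ?_).trans (by rw [Nat.card_Icc]; omega)
    obtain ⟨c', hc, rfl⟩ := mem_image.1 hz
    obtain ⟨d', h1, j, d, c, hj, hjk, h2, h3⟩ := hC c' hc
    have hW : 16 * WW (2 * m + 1) ≤ WW (2 * (m + 1)) := WW_step (2 * m + 1)
    have a1 := T3Far_small D hj hjk h2
    have a2 := lo_cell D.types hk (D.fine.box _ h1.1) h1.2.2.1
    have hc : c'.k = m + 1 := (mem_cells.1 h1.2.2.1).1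
    have a3 : el D.ξ d' c' = lo (2 * (m + 1)) d' (D.ξ (m + 1) c'.i) c'.x +
        WW (2 * (m + 1)) * c'.z := by rw [el, hc]
    rw [a3, ← add_assoc] at h3
    have a4 : (el D.ξ d c + lo (2 * (m + 1)) d' (D.ξ (m + 1) c'.i) c'.x) / WW (2 * (m + 1)) < 3 :=
      (Nat.div_lt_iff_lt_mul (WW_pos _)).2 (by omega)
    rw [← h3, Nat.add_mul_div_left _ _ (WW_pos _), mem_Icc]
    generalize (el D.ξ d c + lo (2 * (m + 1)) d' (D.ξ (m + 1) c'.i) c'.x) / WW (2 * (m + 1)) = w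
      at a4
    omega
  · refine D.good.ka _ hk z _ fun c' hc => ?_
    obtain ⟨d', h1, -⟩ := hC c' (mem_filter.1 hc).1
    exact ⟨h1.2.1, h1.2.2.1, (mem_filter.1 hc).2⟩

theorem far (D : Data) {k n : ℕ} (hk : k0 ≤ k) (Z : Finset (ℕ × ℕ))
    (hZ : ∀ y ∈ Z, (∃ j, k0 ≤ j ∧ j + 2 ≤ k ∧ y.1 ∈ D.A j) ∧ y.2 ∈ D.A k ∧ y.1 + y.2 = n) :
    Z.card ≤ 126 * d0 * sg k := by
  rcases Z.eq_empty_or_nonempty with rfl | ⟨y₀, hy₀⟩
  · simp
  obtain ⟨m, rfl⟩ : ∃ m, k = m + 1 := by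
    obtain ⟨⟨j, -, hj, -⟩, -⟩ := hZ y₀ hy₀
    exact ⟨k - 1, by omega⟩
  have key : ∀ y : ℕ × ℕ, ∃ q : (ℕ → ℕ) × Cell, y ∈ Z →
      T3Far_Q D (m + 1) n q.1 q.2 ∧ y.2 = el D.ξ q.1 q.2 := by
    intro y
    by_cases hy : y ∈ Z
    · obtain ⟨⟨j, hj, hjk, d, c, h2, e1⟩, ⟨d', c', h1, e2⟩, h3⟩ := hZ y hy
      exact ⟨(d', c'), fun _ => ⟨⟨h1, j, d, c, hj, hjk, h2, by rw [← e1, ← e2, h3]⟩, e2⟩⟩
    · exact ⟨(fun _ => 0, ⟨0, 0, 0, fun _ => 0, 0⟩), fun h => absurd h hy⟩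
  choose q hq using key
  have h := T3Far_fib Z (fun y => (q y).2) (a := d0 * 3) (b := 6 * 7 * sg (m + 1))
    (T3Far_cells D hk _ fun c' hc => by
      obtain ⟨y, hy, rfl⟩ := mem_image.1 hc
      exact ⟨_, (hq y hy).1⟩) fun c' => by
      rw [← card_image_of_injOn (f := fun y => (q y).1)]
      · refine T3Far_cell D (n := n) hk c' _ fun d' hd => ?_
        obtain ⟨y, hy, rfl⟩ := mem_image.1 hd
        obtain ⟨h1, h2⟩ := mem_filter.1 hy
        exact h2 ▸ (hq y h1).1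
      · intro y₁ h₁ y₂ h₂ e
        obtain ⟨b1, b2⟩ := mem_filter.1 (mem_coe.1 h₁)
        obtain ⟨b3, b4⟩ := mem_filter.1 (mem_coe.1 h₂)
        have e' : (q y₁).1 = (q y₂).1 := e
        have e2 : y₁.2 = y₂.2 := by rw [(hq y₁ b1).2, (hq y₂ b3).2, e', b2, b4]
        have e3 := (hZ y₁ b1).2.2
        have e4 := (hZ y₂ b3).2.2
        exact Prod.ext (by omega) e2
  calc Z.card ≤ 6 * 7 * sg (m + 1) * (d0 * 3) := h
    _ = 126 * d0 * sg (m + 1) := by ring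

end Pool.Agent.P.MP_d5a1e1_nt.T3
end

-- part Pool.Agent.P.MP_d5a1e1_nt.T3Main
section

/-! The thin basis. -/

namespace Pool.Agent.P.MP_d5a1e1_nt.T3

open Finset TB

section

variable [Kap]

/-- The basis. -/
def Data.AA (D : Data) : Set ℕ := {a | a < 5 * WW (2 * k0 + 1) ∨ ∃ k, k0 ≤ k ∧ a ∈ D.A k}

theorem T3Maina_lt (i : ℕ) : i < WW i := by
  induction i with
  | zero => exact WW_pos 0
  | succ i ih => have := WW_step i; omega

theorem T3Maina_big (a n : ℕ) : n < 5 * WW (2 * (a + n) + 1) := by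
  have := T3Maina_lt (2 * (a + n) + 1)
  omega

theorem basis (D : Data) (n : ℕ) : ∃ a ∈ D.AA, ∃ b ∈ D.AA, a + b = n := by
  have key : ∀ k, k0 ≤ k → n < 5 * WW (2 * k + 1) → ∃ a ∈ D.AA, ∃ b ∈ D.AA, a + b = n := by
    intro k hk
    induction k, hk using Nat.le_induction with
    | base =>
      exact fun h => ⟨n, Or.inl h, 0, Or.inl (Nat.mul_pos (by norm_num) (WW_pos _)), Nat.add_zero n⟩
    | succ k hk ih =>
      intro h
      by_cases h1 : n < 5 * WW (2 * k + 1)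
      · exact ih h1
      · rw [show 2 * (k + 1) + 1 = 2 * k + 3 by ring] at h
        obtain ⟨a, ha, b, hb, e⟩ := cover D hk (not_lt.1 h1) h
        exact ⟨a, Or.inr ⟨k, hk, ha⟩, b, Or.inr ⟨k, hk, hb⟩, e⟩
  exact key _ (Nat.le_add_right k0 n) (T3Maina_big k0 n)

theorem T3Maina_num {K y M d : ℕ} (hy : 1 ≤ y) (hM : M ≤ K * y ^ 13) :
    6 * M * (600 * y ^ (4 * ka + 19)) + 9 * M * d ^ 2 + 3 * M * (600 * y ^ (4 * ka + 19)) + 126 * d * y ^ (4 * ka + 12) ≤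
      (5400 * K + 9 * K * d ^ 2 + 126 * d) * y ^ (4 * ka + 32) := by
  have h1 : y ^ 13 ≤ y ^ (4 * ka + 32) := Nat.pow_le_pow_right hy (by omega)
  have h2 : y ^ (4 * ka + 12) ≤ y ^ (4 * ka + 32) := Nat.pow_le_pow_right hy (by omega)
  have h3 : M * y ^ (4 * ka + 19) ≤ K * y ^ (4 * ka + 32) := by
    refine (Nat.mul_le_mul_right _ hM).trans (le_of_eq ?_)
    rw [mul_assoc, ← pow_add, add_comm 13]
  have h4 : M * d ^ 2 ≤ K * y ^ (4 * ka + 32) * d ^ 2 :=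
    Nat.mul_le_mul_right _ (hM.trans (Nat.mul_le_mul_left _ h1))
  have h5 : d * y ^ (4 * ka + 12) ≤ d * y ^ (4 * ka + 32) := Nat.mul_le_mul_left _ h2
  generalize y ^ (4 * ka + 32) = A at *
  generalize y ^ (4 * ka + 19) = B at *
  generalize y ^ (4 * ka + 12) = C at *
  generalize d ^ 2 = E at *
  nlinarith

theorem state_le (D : Data) : ∃ K : ℕ, ∀ k, k0 ≤ k → ∀ n (Z : Finset (ℕ × ℕ)),
    (∀ y ∈ Z, (∃ j, k0 ≤ j ∧ j ≤ k ∧ y.1 ∈ D.A j) ∧ y.2 ∈ D.A k ∧ y.1 + y.2 = n) →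
      Z.card ≤ K * yy k ^ (4 * ka + 32) := by
  classical
  obtain ⟨K, hK⟩ := MM_le
  refine ⟨5400 * K + 9 * K * d0 ^ 2 + 126 * d0, fun k hk n Z hZ => ?_⟩
  have h0 := near0 D (n := n) hk (Z.filter fun y => y.1 ∈ D.A k) fun y hy =>
    ⟨(mem_filter.1 hy).2, (hZ y (mem_filter.1 hy).1).2⟩
  have h2 := far D (n := n) hk (Z.filter fun y => ∃ j, k0 ≤ j ∧ j + 2 ≤ k ∧ y.1 ∈ D.A j)
    fun y hy => ⟨(mem_filter.1 hy).2, (hZ y (mem_filter.1 hy).1).2⟩
  have h1 : (Z.filter fun y => ∃ j, k0 ≤ j ∧ j + 1 = k ∧ y.1 ∈ D.A j).card ≤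
      3 * MM k * gg k := by
    rcases (Z.filter fun y => ∃ j, k0 ≤ j ∧ j + 1 = k ∧ y.1 ∈ D.A j).eq_empty_or_nonempty with
      h | ⟨y, hy⟩
    · rw [h, card_empty]
      exact Nat.zero_le _
    · obtain ⟨j, hj, rfl, -⟩ := (mem_filter.1 hy).2
      refine (near1 D (n := n) hj _ fun x hx => ?_).trans
        (Nat.mul_le_mul_right _ (Nat.mul_le_mul_left _ (MM_mono (Nat.le_succ j))))
      obtain ⟨i, -, e, hi⟩ := (mem_filter.1 hx).2
      obtain rfl : i = j := by omega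
      exact ⟨hi, (hZ x (mem_filter.1 hx).1).2⟩
  have hs : Z ⊆ (Z.filter fun y => y.1 ∈ D.A k) ∪
      (Z.filter fun y => ∃ j, k0 ≤ j ∧ j + 1 = k ∧ y.1 ∈ D.A j) ∪
      Z.filter fun y => ∃ j, k0 ≤ j ∧ j + 2 ≤ k ∧ y.1 ∈ D.A j := by
    intro y hy
    obtain ⟨j, a1, a2, a3⟩ := (hZ y hy).1
    simp only [mem_union, mem_filter]
    rcases a2.eq_or_lt with rfl | a4
    · exact Or.inl (Or.inl ⟨hy, a3⟩)
    · rcases (Nat.succ_le_of_lt a4).eq_or_lt with a5 | a5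
      · exact Or.inl (Or.inr ⟨hy, j, a1, a5, a3⟩)
      · exact Or.inr ⟨hy, j, a1, a5, a3⟩
  refine ((card_le_card hs).trans ((card_union_le _ _).trans
    (Nat.add_le_add ((card_union_le _ _).trans (Nat.add_le_add h0 h1)) h2))).trans ?_
  exact T3Maina_num (le_trans one_le_two (yy_ge k)) (hK k)

theorem yy_log {θ : ℝ} (hθ : ((4 * ka + 32 : ℕ) : ℝ) ≤ (6 * ka + 12 : ℕ) * θ) (h0 : 0 ≤ θ) :
    ∃ K : ℝ, 0 ≤ K ∧ ∀ k, k0 ≤ k → ∀ n : ℕ, WW (2 * k) ≤ n →
    (yy k : ℝ) ^ (4 * ka + 32) ≤ K * Real.log n ^ θ := by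
  have hl : 0 < Real.log 2 := Real.log_pos one_lt_two
  have hp : 0 < Real.log 2 ^ θ := Real.rpow_pos_of_pos hl _
  refine ⟨3 ^ (4 * ka + 32) / Real.log 2 ^ θ, by positivity, fun k hk n hn => ?_⟩
  have h1 := (WW_ge hk).trans hn
  have h2 := yy_ge k
  generalize yy k = y at h1 h2
  have h3 : 1 ≤ y / 2 := by omega
  have h4 : y ≤ 3 * (y / 2) := by omega
  generalize y / 2 = h at h1 h3 h4
  have h5 : (1 : ℝ) ≤ h := by exact_mod_cast h3
  have h6 : (h : ℝ) ^ (6 * ka + 12) * Real.log 2 ≤ Real.log n := by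
    have a : ((2 : ℝ)) ^ (h ^ (6 * ka + 12)) ≤ n := by exact_mod_cast h1
    have b := Real.log_le_log (by positivity) a
    rwa [Real.log_pow, Nat.cast_pow] at b
  have h7 : ((h : ℝ) ^ (6 * ka + 12) * Real.log 2) ^ θ ≤ Real.log n ^ θ :=
    Real.rpow_le_rpow (by positivity) h6 h0
  have h8 : (h : ℝ) ^ (4 * ka + 32) ≤ ((h : ℝ) ^ (6 * ka + 12)) ^ θ := by
    rw [← Real.rpow_natCast, ← Real.rpow_natCast, ← Real.rpow_mul (by positivity)]
    exact Real.rpow_le_rpow_of_exponent_le h5 hθ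
  rw [Real.mul_rpow (by positivity) hl.le] at h7
  have h9 : (y : ℝ) ^ (4 * ka + 32) ≤ 3 ^ (4 * ka + 32) * (h : ℝ) ^ (4 * ka + 32) := by
    rw [← mul_pow]
    exact pow_le_pow_left₀ (by positivity) (by exact_mod_cast h4) _
  rw [div_mul_eq_mul_div, le_div_iff₀ hp]
  refine (mul_le_mul_of_nonneg_right h9 hp.le).trans ?_
  rw [mul_assoc]
  exact mul_le_mul_of_nonneg_left ((mul_le_mul_of_nonneg_right h8 hp.le).trans h7)
    (by positivity)

theorem T3Mainb_bd (D : Data) {k a : ℕ} (hk : k0 ≤ k) (ha : a ∈ D.A k) :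
    WW (2 * k + 1) ≤ a ∧ a < 6 * WW (2 * k + 3) := by
  obtain ⟨d, c, h, rfl⟩ := ha
  exact ⟨el_ge h.2.2.1, el_lt D.types hk (D.fine.box k h.1) h.2.2.1⟩

open Classical in
/-- Pairs whose second entry has state `k` and whose first entry has a state `≤ k`. -/
noncomputable def T3Mainb_P (D : Data) (n k : ℕ) : Finset (ℕ × ℕ) :=
  {y ∈ antidiagonal n | (∃ j, k0 ≤ j ∧ j ≤ k ∧ y.1 ∈ D.A j) ∧ y.2 ∈ D.A k}

theorem T3Mainb_mem {D : Data} {n k : ℕ} {y : ℕ × ℕ} : y ∈ T3Mainb_P D n k ↔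
    y.1 + y.2 = n ∧ (∃ j, k0 ≤ j ∧ j ≤ k ∧ y.1 ∈ D.A j) ∧ y.2 ∈ D.A k := by
  simp [T3Mainb_P]

theorem T3Mainb_win {D : Data} {n k : ℕ} {y : ℕ × ℕ} (h : y ∈ T3Mainb_P D n k) :
    k0 ≤ k ∧ WW (2 * k + 1) ≤ n ∧ n < WW (2 * k + 4) := by
  obtain ⟨e, ⟨j, h0, hj, h1⟩, h2⟩ := T3Mainb_mem.1 h
  have a1 := T3Mainb_bd D h0 h1
  have a2 := T3Mainb_bd D (h0.trans hj) h2
  have a3 : WW (2 * j + 3) ≤ WW (2 * k + 3) := WW_mono (by omega)
  have a4 : 16 * WW (2 * k + 3) ≤ WW (2 * k + 4) := WW_step (2 * k + 3)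
  exact ⟨h0.trans hj, by omega, by omega⟩

theorem T3Mainb_two (D : Data) (n : ℕ) :
    ∃ k₁, ∀ k y, y ∈ T3Mainb_P D n k → k = k₁ ∨ k = k₁ + 1 := by
  classical
  by_cases h : ∃ k, (T3Mainb_P D n k).Nonempty
  · refine ⟨Nat.find h, fun k y hy => ?_⟩
    obtain ⟨y', hy'⟩ := Nat.find_spec h
    have h1 : Nat.find h ≤ k := Nat.find_min' h ⟨y, hy⟩
    have h2 := T3Mainb_win hy
    have h3 := T3Mainb_win hy'
    by_contra hc
    have h4 : WW (2 * Nat.find h + 4) ≤ WW (2 * k + 1) := WW_mono (by omega)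
    omega
  · exact ⟨0, fun k y hy => absurd ⟨k, y, hy⟩ h⟩

theorem T3Mainb_card (D : Data) {θ : ℝ}
    (hθ : ((4 * ka + 32 : ℕ) : ℝ) ≤ (6 * ka + 12 : ℕ) * θ) (hθ0 : 0 ≤ θ) : ∃ K : ℝ, ∀ n k : ℕ,
    ((T3Mainb_P D n k).card : ℝ) ≤ K * Real.log n ^ θ := by
  obtain ⟨K, hK⟩ := state_le D
  obtain ⟨K', h0, hK'⟩ := yy_log hθ hθ0
  refine ⟨K * K', fun n k => ?_⟩
  rcases (T3Mainb_P D n k).eq_empty_or_nonempty with h | ⟨y, hy⟩
  · rw [h, card_empty, Nat.cast_zero]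
    exact mul_nonneg (mul_nonneg (Nat.cast_nonneg _) h0)
      (Real.rpow_nonneg (Real.log_natCast_nonneg n) _)
  · obtain ⟨h1, h2, -⟩ := T3Mainb_win hy
    have h3 := hK k h1 n (T3Mainb_P D n k) fun y hy =>
      let h := T3Mainb_mem.1 hy
      ⟨h.2.1, h.2.2, h.1⟩
    have h4 := hK' k h1 n ((WW_mono (Nat.le_succ _)).trans h2)
    have h5 : ((T3Mainb_P D n k).card : ℝ) ≤ K * (yy k : ℝ) ^ (4 * ka + 32) := by exact_mod_cast h3
    rw [mul_assoc]
    exact h5.trans (mul_le_mul_of_nonneg_left h4 (Nat.cast_nonneg _))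

theorem thin_of {θ : ℝ} (hθ : ((4 * ka + 32 : ℕ) : ℝ) ≤ (6 * ka + 12 : ℕ) * θ) (hθ0 : 0 ≤ θ) :
    ∃ A : Set ℕ, (∀ n : ℕ, ∃ a ∈ A, ∃ b ∈ A, a + b = n) ∧
    ∃ K : ℝ, ∀ n : ℕ, 2 ≤ n →
      (Set.ncard {y : ℕ × ℕ | y.1 ∈ A ∧ y.2 ∈ A ∧ y.1 + y.2 = n} : ℝ) ≤
        K * Real.log n ^ θ := by
  obtain ⟨D⟩ := exists_data
  obtain ⟨K, hK⟩ := T3Mainb_card D hθ hθ0
  obtain ⟨M, hM⟩ : ∃ M, M = 5 * WW (2 * k0 + 1) := ⟨_, rfl⟩
  have hc : 0 < Real.log 2 ^ θ := Real.rpow_pos_of_pos (Real.log_pos (by norm_num)) _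
  refine ⟨D.AA, basis D, 2 * M / Real.log 2 ^ θ + 4 * K, fun n hn => ?_⟩
  obtain ⟨k, hk⟩ := T3Mainb_two D n
  obtain ⟨Q, hQ⟩ : ∃ Q, Q = T3Mainb_P D n k ∪ T3Mainb_P D n (k + 1) := ⟨_, rfl⟩
  have hQ' : ∀ j y, y ∈ T3Mainb_P D n j → y ∈ Q := fun j y hy => by
    rw [hQ, mem_union]
    rcases hk j y hy with rfl | rfl
    · exact Or.inl hy
    · exact Or.inr hy
  have sub : {y : ℕ × ℕ | y.1 ∈ D.AA ∧ y.2 ∈ D.AA ∧ y.1 + y.2 = n} ⊆
      ↑(((range M).image fun a => (a, n - a)) ∪ ((range M).image fun a => (n - a, a)) ∪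
        (Q ∪ Q.image Prod.swap)) := by
    rintro ⟨a, b⟩ ⟨h1, h2, h3⟩
    dsimp only at h1 h2 h3
    rw [mem_coe, mem_union, mem_union, mem_union]
    rcases h1 with h1 | ⟨i, hi, h1⟩
    · exact Or.inl (Or.inl (mem_image.2 ⟨a, mem_range.2 (by omega), by rw [← h3]; simp⟩))
    rcases h2 with h2 | ⟨j, hj, h2⟩
    · exact Or.inl (Or.inr (mem_image.2 ⟨b, mem_range.2 (by omega), by rw [← h3]; simp⟩))
    rcases le_total i j with h | h
    · exact Or.inr (Or.inl (hQ' j _ (T3Mainb_mem.2 ⟨h3, ⟨i, hi, h, h1⟩, h2⟩)))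
    · exact Or.inr (Or.inr (mem_image.2 ⟨(b, a), hQ' i _
        (T3Mainb_mem.2 ⟨by dsimp only; omega, ⟨j, hj, h, h2⟩, h1⟩), rfl⟩))
  have c1 := Set.ncard_le_ncard sub (finite_toSet _)
  rw [Set.ncard_coe_finset] at c1
  have c2 := card_union_le (((range M).image fun a => (a, n - a)) ∪
    ((range M).image fun a => (n - a, a))) (Q ∪ Q.image Prod.swap)
  have c3 := card_union_le ((range M).image fun a => (a, n - a))
    ((range M).image fun a => (n - a, a))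
  have c4 := card_union_le Q (Q.image Prod.swap)
  have c5 := card_image_le (s := range M) (f := fun a => (a, n - a))
  have c6 := card_image_le (s := range M) (f := fun a => (n - a, a))
  have c7 := card_image_le (s := Q) (f := Prod.swap)
  have c8 : Q.card ≤ (T3Mainb_P D n k).card + (T3Mainb_P D n (k + 1)).card := by
    rw [hQ]; exact card_union_le _ _
  rw [card_range] at c5 c6
  have c9 : Set.ncard {y : ℕ × ℕ | y.1 ∈ D.AA ∧ y.2 ∈ D.AA ∧ y.1 + y.2 = n} ≤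
      2 * M + 2 * ((T3Mainb_P D n k).card + (T3Mainb_P D n (k + 1)).card) := by omega
  have c10 : (Set.ncard {y : ℕ × ℕ | y.1 ∈ D.AA ∧ y.2 ∈ D.AA ∧ y.1 + y.2 = n} : ℝ) ≤
      2 * M + 2 * ((T3Mainb_P D n k).card + (T3Mainb_P D n (k + 1)).card) := by exact_mod_cast c9
  have d1 := hK n k
  have d2 := hK n (k + 1)
  have d3 : Real.log 2 ^ θ ≤ Real.log n ^ θ :=
    Real.rpow_le_rpow (Real.log_pos (by norm_num)).le
      (Real.log_le_log (by norm_num) (by exact_mod_cast hn)) hθ0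
  have d4 : (2 * M : ℝ) ≤ 2 * M / Real.log 2 ^ θ * Real.log n ^ θ := by
    rw [div_mul_eq_mul_div, le_div_iff₀ hc]
    exact mul_le_mul_of_nonneg_left d3 (by positivity)
  rw [add_mul]
  linarith

end

theorem thin {θ : ℝ} (hθ : 2 / 3 < θ) :
    ∃ A : Set ℕ, (∀ n : ℕ, ∃ a ∈ A, ∃ b ∈ A, a + b = n) ∧
    ∃ K : ℝ, ∀ n : ℕ, 2 ≤ n →
      (Set.ncard {y : ℕ × ℕ | y.1 ∈ A ∧ y.2 ∈ A ∧ y.1 + y.2 = n} : ℝ) ≤
        K * Real.log n ^ θ := by
  obtain ⟨m, hm⟩ := exists_nat_ge (32 / (6 * θ - 4))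
  let _ : Kap := ⟨200 + m, Nat.le_add_right _ _⟩
  have e : ka = 200 + m := by
    unfold ka
    rfl
  refine thin_of ?_ (by linarith)
  rw [div_le_iff₀ (by linarith)] at hm
  rw [e]
  push_cast
  linarith

end Pool.Agent.P.MP_d5a1e1_nt.T3
end
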